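import Pool.Agent.P.MP_b75a1e_co.Fold

set_option autoImplicit false

open Finset

namespace Pool.Agent.P.MP_b75a1e_co

theorem cubic_four {F : Type} [Field F] {K e2 e1 e0 z1 z2 z3 z4 : F} (h12 : z1 ≠ z2) (h13 : z1 ≠ z3)
    (h14 : z1 ≠ z4) (h23 : z2 ≠ z3) (h24 : z2 ≠ z4) (h34 : z3 ≠ z4)
    (r1 : K * z1 ^ 3 + e2 * z1 ^ 2 + e1 * z1 + e0 = 0) (r2 : K * z2 ^ 3 + e2 * z2 ^ 2 + e1 * z2 + e0 = 0)
    (r3 : K * z3 ^ 3 + e2 * z3 ^ 2 + e1 * z3 + e0 = 0)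
    (r4 : K * z4 ^ 3 + e2 * z4 ^ 2 + e1 * z4 + e0 = 0) : K = 0 := by
  have a2 : K * (z1 ^ 2 + z1 * z2 + z2 ^ 2) + e2 * (z1 + z2) + e1 = 0 :=
    mul_left_cancel₀ (sub_ne_zero.2 h12) (by linear_combination r1 - r2)
  have a3 : K * (z1 ^ 2 + z1 * z3 + z3 ^ 2) + e2 * (z1 + z3) + e1 = 0 :=
    mul_left_cancel₀ (sub_ne_zero.2 h13) (by linear_combination r1 - r3)
  have a4 : K * (z1 ^ 2 + z1 * z4 + z4 ^ 2) + e2 * (z1 + z4) + e1 = 0 :=
    mul_left_cancel₀ (sub_ne_zero.2 h14) (by linear_combination r1 - r4)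
  have b3 : K * (z1 + z2 + z3) + e2 = 0 :=
    mul_left_cancel₀ (sub_ne_zero.2 h23) (by linear_combination a2 - a3)
  have b4 : K * (z1 + z2 + z4) + e2 = 0 :=
    mul_left_cancel₀ (sub_ne_zero.2 h24) (by linear_combination a2 - a4)
  exact mul_left_cancel₀ (sub_ne_zero.2 h34) (by linear_combination b3 - b4)

theorem exists_bodies {F : Type} [Field F] [DecidableEq F] {ι : Type} [Fintype ι] [DecidableEq ι]
    (hc : 27 ≤ Fintype.card ι) (h0 : (Fintype.card ι : F) = 0) (h96 : (96 : F) ≠ 0) (ρ : ι → F)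
    (hρ : ∑ i, ρ i ^ 2 ≠ 0) (i0 j0 : ι) (hij : i0 ≠ j0) (hr : ρ i0 = ρ j0) :
    ∃ (z : ι) (T1 T2 : Finset ι), T1.card = 2 ∧ T2.card = 6 ∧ Disjoint T1 T2 ∧ z ∉ T1 ∧ z ∉ T2 ∧
      j0 ≠ z ∧ j0 ∉ T1 ∧ j0 ∉ T2 ∧ (i0 = z ∨ i0 ∈ T1) ∧
      Psi (ρ z) (∑ i ∈ T1, ρ i) (∑ i ∈ T2, ρ i) (ρ z ^ 2) (∑ i ∈ T1, ρ i ^ 2) (∑ i ∈ T2, ρ i ^ 2) ≠ 0 := by
  set U : Finset ι := (univ.erase i0).erase j0 with hU
  have hUc : U.card + 2 = Fintype.card ι := by
    rw [hU, card_erase_of_mem (by simp [hij.symm]), card_erase_of_mem (mem_univ _), card_univ]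
    omega
  have hUm : ∀ i, i ∈ U ↔ i ≠ j0 ∧ i ≠ i0 := by simp [hU]
  have split7 : ∀ V : Finset ι, V ⊆ U → 7 ≤ V.card → ∃ T1 T2 : Finset ι, T1.card = 2 ∧ T2.card = 6 ∧
      Disjoint T1 T2 ∧ i0 ∈ T1 ∧ (∀ i ∈ T1, i = i0 ∨ i ∈ V) ∧ T2 ⊆ V := by
    intro V hV h7
    obtain ⟨T, hT, hT7⟩ := exists_subset_card_eq h7
    obtain ⟨t, ht⟩ : T.Nonempty := card_pos.1 (by omega)
    have hti : t ≠ i0 := ((hUm t).1 (hV (hT ht))).2
    refine ⟨{i0, t}, T.erase t, card_pair hti.symm, by rw [card_erase_of_mem ht, hT7], ?_, by simp,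
      ?_, (erase_subset _ _).trans hT⟩
    · rw [disjoint_left]
      intro a ha ha'
      rcases mem_insert.1 ha with rfl | h
      · exact ((hUm _).1 (hV (hT (mem_of_mem_erase ha')))).2 rfl
      · exact (mem_erase.1 ha').1 (mem_singleton.1 h)
    · intro i hi
      rcases mem_insert.1 hi with h | h
      · exact Or.inl h
      · exact Or.inr (hT (mem_singleton.1 h ▸ ht))
  have const : ∀ (z : ι) (T1 T2 : Finset ι) (c : F), T1.card = 2 → T2.card = 6 → (∀ i ∈ T1, ρ i = c) →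
      (∀ i ∈ T2, ρ i = c) → ρ z ≠ c →
      Psi (ρ z) (∑ i ∈ T1, ρ i) (∑ i ∈ T2, ρ i) (ρ z ^ 2) (∑ i ∈ T1, ρ i ^ 2) (∑ i ∈ T2, ρ i ^ 2) ≠ 0 := by
    intro z T1 T2 c h1 h2 e1 e2 hz
    rw [sum_congr rfl e1, sum_congr rfl e2, sum_congr rfl fun i hi => congrArg (· ^ 2) (e1 i hi),
      sum_congr rfl fun i hi => congrArg (· ^ 2) (e2 i hi)]
    simp only [sum_const, h1, h2, nsmul_eq_mul]
    have : Psi (ρ z) ((2 : ℕ) * c) ((6 : ℕ) * c) (ρ z ^ 2) ((2 : ℕ) * c ^ 2) ((6 : ℕ) * c ^ 2) =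
        -(96 * (ρ z - c) ^ 3) := by
      rw [Psi]; push_cast; ring
    rw [this]
    exact neg_ne_zero.2 (mul_ne_zero h96 (pow_ne_zero _ (sub_ne_zero.2 hz)))
  by_cases h4 : 3 < (U.image ρ).card
  · obtain ⟨r1, r2, r3, r4, m1, m2, m3, m4, h12, h13, h14, h23, h24, h34⟩ := three_lt_card_iff.1 h4
    obtain ⟨w1, n1, rfl⟩ := mem_image.1 m1
    obtain ⟨w2, n2, rfl⟩ := mem_image.1 m2
    obtain ⟨w3, n3, rfl⟩ := mem_image.1 m3
    obtain ⟨w4, n4, rfl⟩ := mem_image.1 m4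
    have hW : ({w1, w2, w3, w4} : Finset ι).card ≤ 4 := card_le_four
    obtain ⟨T1, T2, c1, c2, hd, hi, s1, s2⟩ := split7 (U \ {w1, w2, w3, w4}) sdiff_subset
      (by have := le_card_sdiff ({w1, w2, w3, w4} : Finset ι) U; omega)
    have hj1 : j0 ∉ T1 := fun h => (s1 _ h).elim (fun e => hij e.symm)
      fun e => ((hUm _).1 (mem_sdiff.1 e).1).1 rfl
    have hj2 : j0 ∉ T2 := fun h => ((hUm _).1 (mem_sdiff.1 (s2 h)).1).1 rfl
    by_contra hcon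
    have key : ∀ w, w ∈ U → w ∈ ({w1, w2, w3, w4} : Finset ι) →
        (-96) * ρ w ^ 3 + (24 * ∑ i ∈ T1, ρ i + 40 * ∑ i ∈ T2, ρ i) * ρ w ^ 2 +
        (20 * (∑ i ∈ T1, ρ i) * (∑ i ∈ T2, ρ i) - 438 * (∑ i ∈ T1, ρ i) ^ 2 + 2 * (∑ i ∈ T2, ρ i) ^ 2 +
          792 * (∑ i ∈ T1, ρ i ^ 2) - 72 * (∑ i ∈ T2, ρ i ^ 2)) * ρ w +
        Psi 0 (∑ i ∈ T1, ρ i) (∑ i ∈ T2, ρ i) 0 (∑ i ∈ T1, ρ i ^ 2) (∑ i ∈ T2, ρ i ^ 2) = 0 := by
      intro w hw hw'
      by_contra hne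
      refine hcon ⟨w, T1, T2, c1, c2, hd, fun h => ?_, fun h => (mem_sdiff.1 (s2 h)).2 hw',
        ((hUm _).1 hw).1.symm, hj1, hj2, Or.inr hi, fun h => hne ?_⟩
      · exact (s1 _ h).elim ((hUm _).1 hw).2 fun e => (mem_sdiff.1 e).2 hw'
      · rw [Psi] at h ⊢
        linear_combination h
    have := cubic_four h12 h13 h14 h23 h24 h34 (key w1 n1 (by simp)) (key w2 n2 (by simp))
      (key w3 n3 (by simp)) (key w4 n4 (by simp))
    exact h96 (neg_eq_zero.1 this)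
  · obtain ⟨c, -, hc8⟩ := exists_lt_card_fiber_of_mul_lt_card_of_maps_to (s := U) (t := U.image ρ)
      (f := ρ) (n := 7) (fun a ha => mem_image_of_mem _ ha) (by omega)
    set V := U.filter fun x => ρ x = c with hV
    have hVm : ∀ i ∈ V, i ∈ U ∧ ρ i = c := fun i hi => mem_filter.1 hi
    by_cases hi0 : ρ i0 = c
    · obtain ⟨z, hz⟩ : ∃ z, ρ z ≠ c := by
        by_contra h
        push Not at h
        apply hρ
        simp [h, card_univ, h0]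
      obtain ⟨T1, T2, c1, c2, hd, hi, s1, s2⟩ := split7 V (filter_subset _ _) (by omega)
      have e1 : ∀ i ∈ T1, ρ i = c := fun i h => (s1 i h).elim (fun e => e ▸ hi0) fun e => (hVm i e).2
      have e2 : ∀ i ∈ T2, ρ i = c := fun i h => (hVm i (s2 h)).2
      refine ⟨z, T1, T2, c1, c2, hd, fun h => hz (e1 _ h), fun h => hz (e2 _ h),
        fun h => hz (by rw [← h, ← hr, hi0]), fun h => ?_, fun h => ((hUm _).1 (hVm _ (s2 h)).1).1 rfl,
        Or.inr hi, const z T1 T2 c c1 c2 e1 e2 hz⟩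
      exact (s1 _ h).elim (fun e => hij e.symm) fun e => ((hUm _).1 (hVm _ e).1).1 rfl
    · obtain ⟨T, hT, hT8⟩ := exists_subset_card_eq (show 8 ≤ V.card by omega)
      obtain ⟨T1, hT1, c1⟩ := exists_subset_card_eq (show 2 ≤ T.card by omega)
      have c2 : (T \ T1).card = 6 := by rw [card_sdiff_of_subset hT1]; omega
      have e1 : ∀ i ∈ T1, ρ i = c := fun i h => (hVm i (hT (hT1 h))).2
      have e2 : ∀ i ∈ T \ T1, ρ i = c := fun i h => (hVm i (hT (mem_sdiff.1 h).1)).2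
      exact ⟨i0, T1, T \ T1, c1, c2, disjoint_sdiff, fun h => hi0 (e1 _ h), fun h => hi0 (e2 _ h),
        hij.symm, fun h => hi0 (hr ▸ e1 _ h), fun h => hi0 (hr ▸ e2 _ h), Or.inl rfl,
        const i0 T1 (T \ T1) c c1 c2 e1 e2 hi0⟩

theorem circ_finite (w : ℂ) (hw : w ≠ 0) (α β : ℝ) :
    {z : ℂ | Complex.normSq z = α ∧ Complex.normSq (w - z) = β}.Finite := by
  have hP : (Polynomial.C (starRingEnd ℂ w) * Polynomial.X ^ 2 +
      Polynomial.C (-((α : ℂ) + w * starRingEnd ℂ w - β)) * Polynomial.X +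
      Polynomial.C (α * w) : Polynomial ℂ) ≠ 0 := by
    intro h
    have := congrArg (fun P => Polynomial.coeff P 2) h
    simp only [Polynomial.coeff_add, Polynomial.coeff_C_mul, Polynomial.coeff_X_pow, Polynomial.coeff_X,
      Polynomial.coeff_C] at this
    simp [hw] at this
  refine (Polynomial.finite_setOfPred_isRoot hP).subset fun z ⟨h1, h2⟩ => ?_
  have e1 : z * starRingEnd ℂ z = α := by rw [Complex.mul_conj, h1]
  have e2 : (w - z) * starRingEnd ℂ (w - z) = β := by rw [Complex.mul_conj, h2]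
  rw [map_sub] at e2
  simp only [Set.mem_ofPred_eq, Polynomial.IsRoot, Polynomial.eval_add, Polynomial.eval_mul,
    Polynomial.eval_C, Polynomial.eval_pow, Polynomial.eval_X]
  linear_combination (z - w) * e1 - z * e2

theorem third (k t : Fin 3) (h : k ≠ t) :
    ∃ s, s ≠ k ∧ s ≠ t ∧ ∀ f : Fin 3 → ℂ, ∑ i, f i = f k + f t + f s := by
  obtain ⟨s, h1, h2, h3⟩ : ∃ s, s ≠ k ∧ s ≠ t ∧ (univ : Finset (Fin 3)) = {k, t, s} := by
    revert k t; decide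
  refine ⟨s, h1, h2, fun f => ?_⟩
  rw [h3, sum_insert (by simp [h, h1.symm]), sum_pair h2.symm, add_assoc]

theorem fix_finite (N : Fin 3 → ℝ) (hN : Function.Injective N) (w : ℂ) (k : Fin 3) (z : ℂ) :
    {σ : Fin 3 → ℂ | ((∀ t, Complex.normSq (σ t) = N t) ∧ ∑ t, σ t = w) ∧ σ k = z}.Finite := by
  have : ∀ t, ∃ A : Set ℂ, A.Finite ∧ ∀ σ : Fin 3 → ℂ, (∀ t, Complex.normSq (σ t) = N t) →
      ∑ t, σ t = w → σ k = z → σ t ∈ A := by
    intro t
    by_cases h : k = t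
    · exact ⟨{z}, Set.finite_singleton z, fun σ _ _ h3 => h ▸ h3⟩
    · obtain ⟨s, -, hst, hs⟩ := third k t h
      by_cases hw : w - z = 0
      · refine ⟨∅, Set.finite_empty, fun σ h1 h2 h3 => hst (hN ?_)⟩
        have : σ s = -σ t := by rw [hs, h3] at h2; linear_combination h2 + hw
        rw [← h1, ← h1, this, Complex.normSq_neg]
      · refine ⟨_, circ_finite (w - z) hw (N t) (N s), fun σ h1 h2 h3 => ⟨h1 t, ?_⟩⟩
        have : w - z - σ t = σ s := by rw [hs, h3] at h2; linear_combination -h2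
        rw [this, h1]
  choose A hA hA' using this
  exact (Set.Finite.pi' hA).subset fun σ ⟨⟨h1, h2⟩, h3⟩ t => hA' t σ h1 h2 h3

theorem ratio_finite (N : Fin 3 → ℝ) (hN : Function.Injective N) (w : ℂ) (hw : w ≠ 0) (k l : Fin 3)
    (hkl : k ≠ l) (z : ℂ) :
    {σ : Fin 3 → ℂ | ((∀ t, Complex.normSq (σ t) = N t) ∧ ∑ t, σ t = w) ∧ σ k = z * σ l}.Finite := by
  obtain ⟨s, -, -, hs⟩ := third k l hkl
  refine ((circ_finite w hw (N s) (Complex.normSq (z + 1) * N l)).biUnion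
    fun y _ => fix_finite N hN w s y).subset fun σ ⟨⟨h1, h2⟩, h3⟩ => ?_
  refine Set.mem_biUnion (x := σ s) ⟨h1 s, ?_⟩ ⟨⟨h1, h2⟩, rfl⟩
  have : w - σ s = (z + 1) * σ l := by rw [hs, h3] at h2; linear_combination -h2
  rw [this, map_mul, h1]

/-- Among infinitely many positions of the three bodies, one creates no coincidence between
vectors of different bodies. -/
theorem exists_position {ι : Type} [Fintype ι] (u : ι → ℂ) (hu : ∀ i, u i ≠ 0)
    (l : ι → Option (Fin 3)) (σ0 : Fin 3 → ℂ) (h0 : ∀ k, σ0 k ≠ 0)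
    (hN : Function.Injective fun k => Complex.normSq (σ0 k)) (hw : ∑ k, σ0 k ≠ 0)
    (S : Set (Fin 3 → ℂ)) (hS : S.Infinite)
    (hS' : ∀ σ ∈ S, (∀ t, Complex.normSq (σ t) = Complex.normSq (σ0 t)) ∧ ∑ t, σ t = ∑ t, σ0 t) :
    ∃ σ ∈ S, ∀ i j, l i ≠ l j →
      (l i).elim 1 (fun k => σ k / σ0 k) * u i ≠ (l j).elim 1 (fun k => σ k / σ0 k) * u j := by
  have hfin : ∀ i j, {σ : Fin 3 → ℂ | ((∀ t, Complex.normSq (σ t) = Complex.normSq (σ0 t)) ∧
      ∑ t, σ t = ∑ t, σ0 t) ∧ l i ≠ l j ∧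
      (l i).elim 1 (fun k => σ k / σ0 k) * u i = (l j).elim 1 (fun k => σ k / σ0 k) * u j}.Finite := by
    intro i j
    have hi := hu i
    have hj := hu j
    rcases l i with _ | a <;> rcases l j with _ | b
    · exact Set.finite_empty.subset fun σ h => h.2.1 rfl
    · refine (fix_finite _ hN _ b (σ0 b * u i / u j)).subset fun σ ⟨h1, _, h3⟩ => ⟨h1, ?_⟩
      have := h0 b
      simp only [Option.elim] at h3
      field_simp at h3 ⊢
      linear_combination -h3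
    · refine (fix_finite _ hN _ a (σ0 a * u j / u i)).subset fun σ ⟨h1, _, h3⟩ => ⟨h1, ?_⟩
      have := h0 a
      simp only [Option.elim] at h3
      field_simp at h3 ⊢
      linear_combination h3
    · by_cases hab : a = b
      · exact Set.finite_empty.subset fun σ h => h.2.1 (by rw [hab])
      · refine (ratio_finite _ hN _ hw a b hab (σ0 a * u j / (σ0 b * u i))).subset
          fun σ ⟨h1, _, h3⟩ => ⟨h1, ?_⟩
        have := h0 a
        have := h0 b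
        simp only [Option.elim] at h3
        field_simp at h3 ⊢
        linear_combination h3
  obtain ⟨σ, h1, h2⟩ := hS.exists_notMem_finite
    (Set.finite_iUnion fun i => Set.finite_iUnion fun j => hfin i j)
  refine ⟨σ, h1, fun i j hij h => h2 ?_⟩
  exact Set.mem_iUnion.2 ⟨i, Set.mem_iUnion.2 ⟨j, hS' σ h1, hij, h⟩⟩

end Pool.Agent.P.MP_b75a1e_co
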