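import Mathlib

set_option autoImplicit false

open Finset

namespace Pool.Agent.P.MP_b75a1e_co

/-- Mixed radix representation along a chain of small indices. -/
theorem chain {ι : Type} [DecidableEq ι] (𝓢 : Finset ι) (T : ι → ℤ) (top : ι) (htop : top ∈ 𝓢) (A : ℕ)
    (X : ℤ) (Q : ℕ → ℤ → Prop) (Q0 : ∀ c, Q c 0)
    (Qadd : ∀ c c' t t', Q c t → Q c' t' → Q (c + c') (t + t'))
    (Q1 : ∀ S ∈ 𝓢, ∀ k : ℕ, Q k (k * T S)) (hX : ∀ S ∈ 𝓢, |T S| ≤ X)
    (closed : ∀ 𝓕 : Finset ι, 𝓕 ⊆ 𝓢 → top ∈ 𝓕 →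
      (∀ S ∈ 𝓢, ∀ a : ℕ, 0 < a → a ≤ A → (a : ℤ) * T S ∈ Ideal.span (T '' 𝓕) → S ∈ 𝓕) → 𝓢 ⊆ 𝓕) :
    ∀ R ∈ Ideal.span (T '' 𝓢), ∃ k t : ℤ, R = k * T top + t ∧ Q (𝓢.card * A) t ∧
      |t| ≤ 𝓢.card * A * X := by
  have hX0 : 0 ≤ X := (abs_nonneg _).trans (hX top htop)
  have main : ∀ (n : ℕ) (𝓕 : Finset ι), 𝓕 ⊆ 𝓢 → top ∈ 𝓕 → 𝓕.card + n = 𝓢.card →
      (∀ R ∈ Ideal.span (T '' 𝓕), ∃ k t : ℤ, R = k * T top + t ∧ Q (𝓕.card * A) t ∧
        |t| ≤ 𝓕.card * A * X) →
      ∀ R ∈ Ideal.span (T '' 𝓢), ∃ k t : ℤ, R = k * T top + t ∧ Q (𝓢.card * A) t ∧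
        |t| ≤ 𝓢.card * A * X := by
    intro n
    induction n with
    | zero =>
      intro 𝓕 h1 _ h3 h4
      rwa [eq_of_subset_of_card_le h1 (by omega)] at h4
    | succ n ih =>
      intro 𝓕 h1 h2 h3 h4
      obtain ⟨S, hS, a, a0, aA, ha, hS'⟩ : ∃ S ∈ 𝓢, ∃ a : ℕ, 0 < a ∧ a ≤ A ∧
          (a : ℤ) * T S ∈ Ideal.span (T '' 𝓕) ∧ S ∉ 𝓕 := by
        by_contra h
        push Not at h
        have := card_le_card (closed 𝓕 h1 h2 h)
        omega
      refine ih (insert S 𝓕) (insert_subset hS h1) (mem_insert_of_mem h2)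
        (by rw [card_insert_of_notMem hS']; omega) fun R hR => ?_
      rw [coe_insert, Set.image_insert_eq, Ideal.mem_span_insert] at hR
      obtain ⟨x, z, hz, rfl⟩ := hR
      have a0' : (0 : ℤ) < a := by exact_mod_cast a0
      obtain ⟨k, t, e1, e2, e3⟩ := h4 _ (add_mem hz (Ideal.mul_mem_left _ (x / a) ha))
      obtain ⟨ρ, hρ⟩ := Int.eq_ofNat_of_zero_le (Int.emod_nonneg x a0'.ne')
      have hρa : ρ ≤ A := by
        have := Int.emod_lt_of_pos x a0'
        omega
      refine ⟨k, t + ρ * T S, ?_, ?_, ?_⟩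
      · have := Int.mul_ediv_add_emod x a
        rw [← hρ]
        linear_combination e1 - T S * this
      · have := Qadd _ _ _ _ (Qadd _ _ _ _ e2 (Q1 S hS ρ)) (Q0 (A - ρ))
        rw [add_zero] at this
        rw [card_insert_of_notMem hS']
        convert this using 1
        rw [add_mul]
        omega
      · have k1 : |(ρ : ℤ) * T S| ≤ A * X := by
          rw [abs_mul, Nat.abs_cast]
          exact mul_le_mul (by exact_mod_cast hρa) (hX S hS) (abs_nonneg _) (Nat.cast_nonneg _)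
        rw [card_insert_of_notMem hS']
        push_cast
        linarith [abs_add_le t (ρ * T S)]
  refine main (𝓢.card - 1) {top} (singleton_subset_iff.2 htop) (mem_singleton_self _)
    (by have := card_pos.2 ⟨top, htop⟩; rw [card_singleton]; omega) fun R hR => ?_
  rw [coe_singleton, Set.image_singleton, Ideal.mem_span_singleton'] at hR
  obtain ⟨k, rfl⟩ := hR
  exact ⟨k, 0, by simp, Q0 _, by simp; positivity⟩

theorem moves (r n : ℕ) (P : Finset ℕ → Prop)
    (h : ∀ S i, S ⊆ range r → S.card = n → i + 1 ∈ S → i ∉ S →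
      (P S ↔ P (insert i (S.erase (i + 1))))) (k : ℕ) :
    ∀ S, S ⊆ range r → S.card = n → ∑ i ∈ S, i = k → (P S ↔ P (range n)) := by
  induction k using Nat.strong_induction_on with
  | _ k ih =>
    intro S h1 h2 h3
    by_cases hm : ∃ i, i + 1 ∈ S ∧ i ∉ S
    · obtain ⟨i, hi, hi'⟩ := hm
      have hn : i ∉ S.erase (i + 1) := fun e => hi' (mem_of_mem_erase e)
      rw [h S i h1 h2 hi hi']
      refine ih (k - 1) ?_ _ ?_ ?_ ?_
      · have := single_le_sum (f := fun i => i) (fun _ _ => Nat.zero_le _) hi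
        omega
      · refine insert_subset ?_ ((erase_subset _ _).trans h1)
        have := mem_range.1 (h1 hi)
        exact mem_range.2 (by omega)
      · rw [card_insert_of_notMem hn, card_erase_of_mem hi]
        have := card_pos.2 ⟨_, hi⟩
        omega
      · have := add_sum_erase S (fun i => i) hi
        rw [sum_insert hn]
        omega
    · push Not at hm
      have hd : ∀ j i, i + j ∈ S → i ∈ S := by
        intro j
        induction j with
        | zero => exact fun _ h => h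
        | succ j ihj => exact fun i hi => ihj i (hm _ hi)
      have : S = range n := by
        refine eq_of_subset_of_card_le (fun i hi => mem_range.2 ?_) (by simp [h2])
        have : range (i + 1) ⊆ S := fun j hj => hd (i - j) j (by
          rwa [Nat.add_sub_cancel' (Nat.lt_succ_iff.1 (mem_range.1 hj))])
        have := card_le_card this
        rw [card_range] at this
        omega
      rw [this]

end Pool.Agent.P.MP_b75a1e_co
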