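import Pool.Agent.P.MP_b75a1e_co.Three
import Pool.Agent.P.MP_b75a1e_co.Chain

set_option autoImplicit false

open Finset

namespace Pool.Agent.P.MP_b75a1e_co

/-- The quadratic order. -/
abbrev ZK (m : ℕ) : Type := ℤ√(-(m : ℤ))

variable (m : ℕ) (D : ℕ → ℤ)

/-- The monomial attached to a set of slots. -/
def mon (r : ℕ) (S : Finset ℕ) : ZK m :=
  ∏ i ∈ range r, if i ∈ S then Zsqrtd.sqrtd else (D i : ZK m)

/-- The common norm of the vertices of the cube. -/
def cn (r : ℕ) : ℤ := ∏ i ∈ range r, (D i ^ 2 + m)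

/-- The integer coefficient of a monomial. -/
def tt (r : ℕ) (S : Finset ℕ) : ℤ := (-(m : ℤ)) ^ (S.card / 2) * ∏ i ∈ range r \ S, D i

theorem norm_slot (a η : ℤ) (hη : η ^ 2 = 1) :
    ((a : ZK m) + (η : ZK m) * Zsqrtd.sqrtd).norm = a ^ 2 + m := by
  rw [Zsqrtd.norm_def]
  simp
  linear_combination (m : ℤ) * hη

theorem cube0 (r : ℕ) : Rep (cn m D r) (2 ^ r) (2 ^ r * mon m D r ∅) := by
  induction r with
  | zero => simpa [cn, mon] using Rep.single (1 : ZK m)
  | succ r ih =>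
    have h1 := ih.mul ((D r : ZK m) + ((1 : ℤ) : ZK m) * Zsqrtd.sqrtd)
    have h2 := ih.mul ((D r : ZK m) + ((-1 : ℤ) : ZK m) * Zsqrtd.sqrtd)
    rw [norm_slot m _ 1 rfl] at h1
    rw [norm_slot m _ (-1) rfl] at h2
    refine (h1.add h2).of_eq (by rw [cn, cn, prod_range_succ]) (by ring) ?_
    simp only [mon, prod_range_succ, notMem_empty, if_false]
    push_cast
    ring

theorem cube1 (S : Finset ℕ) (r : ℕ) : (∃ i ∈ S, i < r) → ∀ η : ℤ, η ^ 2 = 1 →
    Rep (cn m D r) (2 ^ r) (2 ^ r * (mon m D r ∅ + (η : ZK m) * mon m D r S)) := by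
  induction r with
  | zero => rintro ⟨i, -, h⟩; omega
  | succ r ih =>
    intro h η hη
    have hη' : (η : ZK m) ^ 2 = 1 := by exact_mod_cast congrArg (Int.cast (R := ZK m)) hη
    by_cases h' : ∃ i ∈ S, i < r
    · by_cases hr : r ∈ S
      · have h1 := (ih h' 1 rfl).mul ((D r : ZK m) + (η : ZK m) * Zsqrtd.sqrtd)
        have h2 := (ih h' (-1) rfl).mul ((D r : ZK m) + ((-η : ℤ) : ZK m) * Zsqrtd.sqrtd)
        rw [norm_slot m _ _ hη] at h1
        rw [norm_slot m _ _ (by rw [neg_sq, hη])] at h2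
        refine (h1.add h2).of_eq (by rw [cn, cn, prod_range_succ]) (by ring) ?_
        simp only [mon, prod_range_succ, notMem_empty, if_false, hr, if_true]
        push_cast
        ring
      · have h1 := (ih h' η hη).mul ((D r : ZK m) + ((1 : ℤ) : ZK m) * Zsqrtd.sqrtd)
        have h2 := (ih h' η hη).mul ((D r : ZK m) + ((-1 : ℤ) : ZK m) * Zsqrtd.sqrtd)
        rw [norm_slot m _ 1 rfl] at h1
        rw [norm_slot m _ (-1) rfl] at h2
        refine (h1.add h2).of_eq (by rw [cn, cn, prod_range_succ]) (by ring) ?_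
        simp only [mon, prod_range_succ, notMem_empty, if_false, hr]
        push_cast
        ring
    · obtain ⟨i, hi, hir⟩ := h
      have hr : r ∈ S := by
        by_contra hr
        exact h' ⟨i, hi, lt_of_le_of_ne (by omega) fun e => hr (e ▸ hi)⟩
      have e : mon m D r S = mon m D r ∅ :=
        prod_congr rfl fun j hj => by
          rw [if_neg fun hj' => h' ⟨j, hj', mem_range.1 hj⟩, if_neg (notMem_empty j)]
      have h1 := (cube0 m D r).mul ((D r : ZK m) + (η : ZK m) * Zsqrtd.sqrtd)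
      rw [norm_slot m _ _ hη] at h1
      refine (h1.add h1).of_eq (by rw [cn, cn, prod_range_succ]) (by ring) ?_
      have e1 : mon m D (r + 1) S = mon m D r ∅ * Zsqrtd.sqrtd := by
        rw [← e, mon, prod_range_succ, if_pos hr, mon]
      have e2 : mon m D (r + 1) ∅ = mon m D r ∅ * (D r : ZK m) := by
        rw [mon, prod_range_succ, if_neg (notMem_empty r), mon]
      rw [e1, e2]
      ring

theorem sqrtd_pow (n : ℕ) : (Zsqrtd.sqrtd : ZK m) ^ n =
    (((-(m : ℤ)) ^ (n / 2) : ℤ) : ZK m) * Zsqrtd.sqrtd ^ (n % 2) := by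
  conv_lhs => rw [← Nat.div_add_mod n 2, pow_add, pow_mul, sq, Zsqrtd.dmuld]
  push_cast
  rfl

theorem mon_eq' {r : ℕ} {S : Finset ℕ} (h : S ⊆ range r) :
    mon m D r S = Zsqrtd.sqrtd ^ S.card * ∏ i ∈ range r \ S, (D i : ZK m) := by
  rw [mon, prod_ite, prod_const, filter_mem_eq_inter, inter_eq_right.2 h, ← sdiff_eq_filter]

theorem mon_eq {r : ℕ} {S : Finset ℕ} (h : S ⊆ range r) :
    mon m D r S = (tt m D r S : ZK m) * Zsqrtd.sqrtd ^ (S.card % 2) := by
  rw [mon_eq' m D h, sqrtd_pow, tt]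
  push_cast
  ring

/-- `z` can be added to `c` full cubes without changing the number of vertices. -/
def Cov (r c : ℕ) (z : ZK m) : Prop :=
  Rep (cn m D r) (2 ^ r * c) (2 ^ r * ((c : ZK m) * mon m D r ∅ + z))

variable {m D}

theorem Cov.add {r c c' : ℕ} {z z' : ZK m} (h : Cov m D r c z) (h' : Cov m D r c' z') :
    Cov m D r (c + c') (z + z') :=
  (Rep.add h h').of_eq rfl (by ring) (by push_cast; ring)

theorem cov_zero (r c : ℕ) : Cov m D r c 0 :=
  ((cube0 m D r).nsmul c).of_eq rfl (by ring) (by ring)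

theorem Cov.mono {r c c' : ℕ} {z : ZK m} (h : Cov m D r c z) (hc : c ≤ c') : Cov m D r c' z := by
  have := h.add (cov_zero r (c' - c))
  rwa [add_zero, Nat.add_sub_cancel' hc] at this

theorem cov_mon {r : ℕ} {S : Finset ℕ} (h : S ⊆ range r) (hS : S.Nonempty) (k : ℤ) :
    Cov m D r k.natAbs ((k : ZK m) * mon m D r S) := by
  obtain ⟨i, hi⟩ := hS
  obtain ⟨η, h1, h2⟩ : ∃ η : ℤ, η ^ 2 = 1 ∧ k = η * k.natAbs := by
    rcases Int.natAbs_eq k with e | e
    · exact ⟨1, rfl, by rw [one_mul]; exact e⟩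
    · exact ⟨-1, rfl, by rw [neg_one_mul]; exact e⟩
  refine ((cube1 m D S r ⟨i, hi, mem_range.1 (h hi)⟩ η h1).nsmul k.natAbs).of_eq rfl (by ring) ?_
  have : (k : ZK m) = (η : ZK m) * ((k.natAbs : ℕ) : ZK m) := by
    rw [← Int.cast_natCast k.natAbs, ← Int.cast_mul, ← h2]
  rw [this]
  ring

theorem tt_move {r i j : ℕ} {S : Finset ℕ} (hi : i ∈ S) (hj : j ∉ S) (hi' : i < r) (hj' : j < r) :
    tt m D r (insert j (S.erase i)) * D j = tt m D r S * D i := by
  have hn : j ∉ S.erase i := fun e => hj (mem_of_mem_erase e)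
  have hc : (insert j (S.erase i)).card = S.card := by
    rw [card_insert_of_notMem hn, card_erase_of_mem hi]
    have := card_pos.2 ⟨_, hi⟩
    omega
  have e1 : range r \ S.erase i = insert j (range r \ insert j (S.erase i)) := by
    ext k; simp only [mem_sdiff, mem_insert, mem_range, mem_erase]; by_cases k = j <;> simp_all
  have e2 : range r \ S.erase i = insert i (range r \ S) := by
    ext k; simp only [mem_sdiff, mem_insert, mem_range, mem_erase]; by_cases k = i <;> simp_all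
  have k1 := congrArg (fun U => ∏ k ∈ U, D k) (e1.symm.trans e2)
  rw [prod_insert (by simp), prod_insert (by simp [hi])] at k1
  rw [tt, tt, hc]
  linear_combination (-(m : ℤ)) ^ (S.card / 2) * k1

theorem tt_erase {r i j : ℕ} {S : Finset ℕ} (h : S ⊆ range r) (hi : i ∈ S) (hj : j ∈ S) (hij : i ≠ j) :
    tt m D r ((S.erase i).erase j) * (-(m : ℤ)) = tt m D r S * (D i * D j) := by
  have hj' : j ∈ S.erase i := mem_erase.2 ⟨hij.symm, hj⟩
  have hc : S.card / 2 = ((S.erase i).erase j).card / 2 + 1 := by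
    have := card_pos.2 ⟨_, hj'⟩
    rw [card_erase_of_mem hj']
    rw [card_erase_of_mem hi] at this ⊢
    omega
  have e : range r \ (S.erase i).erase j = insert i (insert j (range r \ S)) := by
    have := mem_range.1 (h hi)
    have := mem_range.1 (h hj)
    ext k
    simp only [mem_sdiff, mem_insert, mem_range, mem_erase]
    by_cases k = i <;> by_cases k = j <;> simp_all
  rw [tt, tt, hc, e, prod_insert (by simp [hi, hij]), prod_insert (by simp [hj])]
  ring

/-- The nonempty sets of slots of a given parity. -/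
def cls (r δ : ℕ) : Finset (Finset ℕ) := (range r).powerset.filter fun S => S.card % 2 = δ ∧ S.Nonempty

theorem mem_cls {r δ : ℕ} {S : Finset ℕ} : S ∈ cls r δ ↔ S ⊆ range r ∧ S.card % 2 = δ ∧ S.Nonempty := by
  simp [cls]

theorem cls_closed {r A a b c δ : ℕ} (hδ : δ < 2) (hD : ∀ i, D i ≠ 0) (hA : 0 < A)
    (adj : ∀ i, i + 1 < r → ∃ u : ℕ, 0 < u ∧ u ≤ A ∧ D i ∣ u * D (i + 1) ∧ D (i + 1) ∣ u * D i)
    (ha : a < r) (hb : b < r) (hc : c < r) (hab : a ≠ b) (hac : a ≠ c) (hbc : b ≠ c)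
    (cab : IsCoprime (D a) (D b)) (cac : IsCoprime (D a) (D c)) (cbc : IsCoprime (D b) (D c))
    (𝓕 : Finset (Finset ℕ)) (h0 : range (2 - δ) ∈ 𝓕)
    (hcl : ∀ S ∈ cls r δ, ∀ u : ℕ, 0 < u → u ≤ A →
      (u : ℤ) * tt m D r S ∈ Ideal.span (tt m D r '' 𝓕) → S ∈ 𝓕) : cls r δ ⊆ 𝓕 := by
  have mv : ∀ (S : Finset ℕ) (i j u : ℕ), S ∈ cls r δ → 0 < u → u ≤ A → ∀ S' ∈ 𝓕,
      tt m D r S' * D j = tt m D r S * D i → D i ∣ u * D j → S ∈ 𝓕 := by
    intro S i j u hS u0 uA S' hS' e ⟨w, hw⟩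
    refine hcl S hS u u0 uA ?_
    have : (u : ℤ) * tt m D r S = w * tt m D r S' :=
      mul_right_cancel₀ (hD i) (by linear_combination (-(u : ℤ)) * e + tt m D r S' * hw)
    rw [this]
    exact Ideal.mul_mem_left _ _ (Ideal.subset_span ⟨S', hS', rfl⟩)
  have lev : ∀ n, n % 2 = δ → 0 < n → ∀ S, S ⊆ range r → S.card = n → (S ∈ 𝓕 ↔ range n ∈ 𝓕) := by
    intro n hn hn0 S h1 h2
    refine moves r n (· ∈ 𝓕) (fun S i h1 h2 hi hi' => ?_) _ S h1 h2 rfl
    have hir := mem_range.1 (h1 hi)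
    obtain ⟨u, u0, uA, d1, d2⟩ := adj i hir
    have e := tt_move (m := m) (D := D) hi hi' hir (by omega)
    have hn' : i ∉ S.erase (i + 1) := fun e => hi' (mem_of_mem_erase e)
    refine ⟨fun h => mv _ i (i + 1) u (mem_cls.2 ⟨?_, ?_, insert_nonempty _ _⟩) u0 uA S h e.symm d1,
      fun h => mv S (i + 1) i u (mem_cls.2 ⟨h1, h2 ▸ hn, ⟨_, hi⟩⟩) u0 uA _ h e d2⟩
    · exact insert_subset (mem_range.2 (by omega)) ((erase_subset _ _).trans h1)
    · rw [card_insert_of_notMem hn', card_erase_of_mem hi]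
      omega
  have all : ∀ k, ∀ S, S ⊆ range r → S.card = 2 - δ + 2 * k → S ∈ 𝓕 := by
    intro k
    induction k with
    | zero => exact fun S h1 h2 => (lev (2 - δ) (by omega) (by omega) S h1 h2).2 h0
    | succ k ih =>
      intro S h1 h2
      have hle := card_le_card h1
      have h3 : ({a, b, c} : Finset ℕ) ⊆ range r := by simp [insert_subset_iff, ha, hb, hc]
      obtain ⟨U, u1, u2, u3⟩ := exists_subsuperset_card_eq h3
        (show _ ≤ S.card from card_le_three.trans (by omega)) hle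
      rw [lev S.card (by omega) (by omega) S h1 rfl, ← lev S.card (by omega) (by omega) U u2 u3]
      have ma : a ∈ U := u1 (by simp)
      have mb : b ∈ U := u1 (by simp)
      have mc : c ∈ U := u1 (by simp)
      have er : ∀ i j, i ∈ U → j ∈ U → i ≠ j →
          tt m D r U * (D i * D j) ∈ Ideal.span (tt m D r '' 𝓕) := by
        intro i j hi hj hij
        rw [← tt_erase u2 hi hj hij]
        refine Ideal.mul_mem_right _ _ (Ideal.subset_span ⟨_, ih _
          ((erase_subset _ _).trans ((erase_subset _ _).trans u2)) ?_, rfl⟩)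
        rw [card_erase_of_mem (mem_erase.2 ⟨hij.symm, hj⟩), card_erase_of_mem hi]
        omega
      refine hcl U (mem_cls.2 ⟨u2, by omega, ⟨a, ma⟩⟩) 1 one_pos hA ?_
      obtain ⟨α, β, e1⟩ := cab.mul_right cac
      obtain ⟨γ, ε, e2⟩ := cbc
      have : ((1 : ℕ) : ℤ) * tt m D r U = α * γ * (tt m D r U * (D a * D b)) +
          α * ε * (tt m D r U * (D a * D c)) + β * (tt m D r U * (D b * D c)) := by
        push_cast
        linear_combination (-tt m D r U) * e1 - tt m D r U * α * D a * e2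
      rw [this]
      exact add_mem (add_mem (Ideal.mul_mem_left _ _ (er a b ma mb hab))
        (Ideal.mul_mem_left _ _ (er a c ma mc hac))) (Ideal.mul_mem_left _ _ (er b c mb mc hbc))
  intro S hS
  obtain ⟨h1, h2, h3⟩ := mem_cls.1 hS
  have := card_pos.2 h3
  exact all ((S.card - (2 - δ)) / 2) S h1 (by omega)

theorem span_even {r : ℕ} (hr : r % 2 = 0) (h2 : 2 ≤ r) (hD : ∀ i, IsCoprime (D i) (m : ℤ)) :
    (m : ℤ) ∈ Ideal.span (tt m D r '' cls r 0) := by
  have h1 : tt m D r (range r) ∈ Ideal.span (tt m D r '' cls r 0) :=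
    Ideal.subset_span ⟨_, mem_cls.2 ⟨Subset.rfl, by simpa, nonempty_range_iff.2 (by omega)⟩, rfl⟩
  have h3 : tt m D r (range 2) ∈ Ideal.span (tt m D r '' cls r 0) :=
    Ideal.subset_span ⟨_, mem_cls.2 ⟨range_subset_range.2 h2, by simp, by simp⟩, rfl⟩
  obtain ⟨k, hk⟩ : ∃ k, r / 2 = k + 1 := ⟨r / 2 - 1, by omega⟩
  obtain ⟨α, β, e⟩ : IsCoprime (∏ i ∈ range r \ range 2, D i) ((-(m : ℤ)) ^ k) :=
    (IsCoprime.prod_left fun i _ => (hD i).neg_right).pow_right
  have : (m : ℤ) = -α * tt m D r (range 2) + -β * tt m D r (range r) := by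
    simp only [tt, card_range, hk, sdiff_self, bot_eq_empty, prod_empty]
    linear_combination (-(m : ℤ)) * e
  rw [this]
  exact add_mem (Ideal.mul_mem_left _ _ h3) (Ideal.mul_mem_left _ _ h1)

theorem span_odd {r a b : ℕ} (hr : r % 2 = 0) (ha : a < r) (hb : b < r) (cab : IsCoprime (D a) (D b))
    (hD : ∀ i, IsCoprime (D i) (m : ℤ)) : (1 : ℤ) ∈ Ideal.span (tt m D r '' cls r 1) := by
  have h1 : ∀ i, i < r → (-(m : ℤ)) ^ ((r - 1) / 2) * D i ∈ Ideal.span (tt m D r '' cls r 1) := by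
    intro i hi
    have hc : ((range r).erase i).card = r - 1 := by rw [card_erase_of_mem (mem_range.2 hi), card_range]
    refine Ideal.subset_span ⟨(range r).erase i, mem_cls.2 ⟨erase_subset _ _, by omega,
      card_pos.1 (by omega)⟩, ?_⟩
    rw [tt, hc, sdiff_erase_self (mem_range.2 hi), prod_singleton]
  have h3 : tt m D r (range 1) ∈ Ideal.span (tt m D r '' cls r 1) :=
    Ideal.subset_span ⟨_, mem_cls.2 ⟨range_subset_range.2 (by omega), by simp, by simp⟩, rfl⟩
  obtain ⟨α, β, e⟩ : IsCoprime (∏ i ∈ range r \ range 1, D i) ((-(m : ℤ)) ^ ((r - 1) / 2)) :=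
    (IsCoprime.prod_left fun i _ => (hD i).neg_right).pow_right
  obtain ⟨γ, ε, e'⟩ := cab
  have : (1 : ℤ) = α * tt m D r (range 1) + (β * γ * ((-(m : ℤ)) ^ ((r - 1) / 2) * D a) +
      β * ε * ((-(m : ℤ)) ^ ((r - 1) / 2) * D b)) := by
    simp only [tt, card_range]
    linear_combination -e - β * (-(m : ℤ)) ^ ((r - 1) / 2) * e'
  rw [this]
  exact add_mem (Ideal.mul_mem_left _ _ h3)
    (add_mem (Ideal.mul_mem_left _ _ (h1 a ha)) (Ideal.mul_mem_left _ _ (h1 b hb)))

/-- One parity class: every element of the span is a small combination of monomials. -/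
theorem cov_class {r A a b c δ : ℕ} (hδ : δ < 2) (hD : ∀ i, D i ≠ 0) (hA : 0 < A) (h2 : 2 ≤ r)
    (adj : ∀ i, i + 1 < r → ∃ u : ℕ, 0 < u ∧ u ≤ A ∧ D i ∣ u * D (i + 1) ∧ D (i + 1) ∣ u * D i)
    (ha : a < r) (hb : b < r) (hc : c < r) (hab : a ≠ b) (hac : a ≠ c) (hbc : b ≠ c)
    (cab : IsCoprime (D a) (D b)) (cac : IsCoprime (D a) (D c)) (cbc : IsCoprime (D b) (D c))
    (hm : m ≠ 0) (L : ℕ) (hL : ∀ S ∈ cls r δ, |tt m D r S| ≤ L * |tt m D r (range (2 - δ))|)
    (R : ℤ) (hR : R ∈ Ideal.span (tt m D r '' cls r δ)) (k : ℕ)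
    (hk : |R| ≤ k * |tt m D r (range (2 - δ))|) :
    Cov m D r (k + 2 ^ r * A * (L + 1)) ((R : ZK m) * Zsqrtd.sqrtd ^ δ) := by
  have ht : range (2 - δ) ∈ cls r δ :=
    mem_cls.2 ⟨range_subset_range.2 (by omega), by rw [card_range]; omega,
      nonempty_range_iff.2 (by omega)⟩
  have Q1 : ∀ S ∈ cls r δ, ∀ x : ℤ, Cov m D r x.natAbs (((x * tt m D r S : ℤ) : ZK m) * Zsqrtd.sqrtd ^ δ) := by
    intro S hS x
    obtain ⟨h1, h2, h3⟩ := mem_cls.1 hS
    have := cov_mon (m := m) (D := D) h1 h3 x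
    rw [mon_eq m D h1, h2] at this
    push_cast
    rwa [mul_assoc]
  obtain ⟨x, t, e1, e2, e3⟩ := chain (cls r δ) (tt m D r) _ ht A _
    (fun c t => Cov m D r c ((t : ZK m) * Zsqrtd.sqrtd ^ δ)) (fun c => by simpa using cov_zero r c)
    (fun c c' t t' h h' => by push_cast; rw [add_mul]; exact h.add h')
    (fun S hS k => by simpa using Q1 S hS k) hL
    (fun 𝓕 _ h0 hcl => cls_closed hδ hD hA adj ha hb hc hab hac hbc cab cac cbc 𝓕 h0 hcl) R hR
  have hcard : (cls r δ).card ≤ 2 ^ r := by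
    refine (card_filter_le _ _).trans ?_
    rw [card_powerset, card_range]
  have h0 : 0 < |tt m D r (range (2 - δ))| := abs_pos.2 (mul_ne_zero
    (pow_ne_zero _ (neg_ne_zero.2 (by exact_mod_cast hm))) (prod_ne_zero_iff.2 fun i _ => hD i))
  have hx : x.natAbs ≤ k + (cls r δ).card * A * L := by
    have k1 : |x| * |tt m D r (range (2 - δ))| ≤ |R| + |t| := by
      rw [← abs_mul, show x * tt m D r (range (2 - δ)) = R - t by linear_combination -e1]
      exact abs_sub _ _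
    have k2 : |x| ≤ k + (cls r δ).card * A * L := le_of_mul_le_mul_right (by nlinarith) h0
    rw [← Int.natCast_natAbs] at k2
    exact_mod_cast k2
  have := (Q1 _ ht x).add e2
  rw [← add_mul, ← Int.cast_add, ← e1] at this
  refine this.mono ?_
  have := Nat.mul_le_mul_right (A * (L + 1)) hcard
  nlinarith

end Pool.Agent.P.MP_b75a1e_co
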