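import Mathlib

set_option autoImplicit false

namespace Pool.Agent.P.MP_b75a1e_co

/-- The rectangular lattice generated by `(1, 0)` and `(0, √m)`. -/
def lattice (m : ℕ) : Set (EuclideanSpace ℝ (Fin 2)) :=
  {x | ∃ a b : ℤ, x 0 = a ∧ x 1 = b * Real.sqrt m}

/-- The determinant of two plane vectors. -/
def cross (u v : EuclideanSpace ℝ (Fin 2)) : ℝ := u 0 * v 1 - u 1 * v 0

/-- `v 0, …, v (n-1)` are, in counterclockwise order, the vertices of a convex equilateral polygon:
they are distinct, all sides have one length, and every other vertex lies strictly to the left of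
each directed side. -/
def IsConvexEquilateral {n : ℕ} (v : Fin n → EuclideanSpace ℝ (Fin 2)) : Prop :=
  Function.Injective v ∧ (∃ r : ℝ, ∀ i, dist (v i) (v (finRotate n i)) = r) ∧
    ∀ i k, k ≠ i → k ≠ finRotate n i → 0 < cross (v (finRotate n i) - v i) (v k - v i)

/-- The lattice contains a convex equilateral `n`-gon. -/
def HasGon (m n : ℕ) : Prop :=
  ∃ v : Fin n → EuclideanSpace ℝ (Fin 2), (∀ i, v i ∈ lattice m) ∧ IsConvexEquilateral v

end Pool.Agent.P.MP_b75a1e_co
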