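import Pool.Agent.P.MP_b75a1e_co.Bodies
import Pool.Agent.P.MP_b75a1e_co.Convex

set_option autoImplicit false

open Finset

namespace Pool.Agent.P.MP_b75a1e_co

/-- The complex number `a + b √(-m)`. -/
noncomputable def emb (m : ℕ) (a b : ℚ) : ℂ := ⟨a, b * Real.sqrt m⟩

theorem normSq_emb (m : ℕ) (a b : ℚ) : Complex.normSq (emb m a b) = (a ^ 2 + m * b ^ 2 : ℚ) := by
  have := Real.mul_self_sqrt (Nat.cast_nonneg (α := ℝ) m)
  rw [emb, Complex.normSq_mk]
  push_cast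
  linear_combination (b : ℝ) ^ 2 * this

theorem emb_inj {m : ℕ} (hm : m ≠ 0) {a b a' b' : ℚ} (h : emb m a b = emb m a' b') :
    a = a' ∧ b = b' := by
  have h0 : Real.sqrt m ≠ 0 := by positivity
  have h1 := congrArg Complex.re h
  have h2 := congrArg Complex.im h
  simp only [emb] at h1 h2
  exact ⟨by exact_mod_cast h1, by exact_mod_cast mul_right_cancel₀ h0 h2⟩

theorem sum_emb {ι : Type} (m : ℕ) (T : Finset ι) (a b : ι → ℚ) :
    ∑ i ∈ T, emb m (a i) (b i) = emb m (∑ i ∈ T, a i) (∑ i ∈ T, b i) := by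
  apply Complex.ext
  · simp [Complex.re_sum, emb]
  · simp [Complex.im_sum, emb, sum_mul]

theorem emb_zero (m : ℕ) : emb m 0 0 = 0 := by apply Complex.ext <;> simp [emb]

/-- Membership in the imaginary quadratic field. -/
def InK (m : ℕ) (z : ℂ) : Prop := ∃ a b : ℚ, z = emb m a b

theorem InK.mul {m : ℕ} {z w : ℂ} (hz : InK m z) (hw : InK m w) : InK m (z * w) := by
  obtain ⟨a, b, rfl⟩ := hz
  obtain ⟨c, d, rfl⟩ := hw
  have := Real.mul_self_sqrt (Nat.cast_nonneg (α := ℝ) m)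
  refine ⟨a * c - m * b * d, a * d + b * c, Complex.ext ?_ ?_⟩
  · simp only [emb, Complex.mul_re]; push_cast; linear_combination (-(b : ℝ) * d) * this
  · simp only [emb, Complex.mul_im]; push_cast; ring

theorem InK.inv {m : ℕ} {z : ℂ} (hz : InK m z) : InK m z⁻¹ := by
  obtain ⟨a, b, rfl⟩ := hz
  refine ⟨a / (a ^ 2 + m * b ^ 2), -b / (a ^ 2 + m * b ^ 2), Complex.ext ?_ ?_⟩
  · rw [Complex.inv_re, normSq_emb]; simp [emb]
  · rw [Complex.inv_im, normSq_emb]; simp only [emb]; push_cast; ring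

/-- Unit vectors of the field with sum zero. -/
def Conf {ι : Type} [Fintype ι] (m : ℕ) (u : ι → ℂ) : Prop :=
  (∀ i, InK m (u i)) ∧ (∀ i, Complex.normSq (u i) = 1) ∧ ∑ i, u i = 0

open Classical in
/-- The number of coincidences. -/
noncomputable def coll {ι : Type} [Fintype ι] (u : ι → ℂ) : ℕ :=
  (univ.filter fun q : ι × ι => u q.1 = u q.2).card

variable {p : ℕ} [Fact p.Prime]

theorem toZMod_eq_zero_iff (x : ℤ_[p]) : PadicInt.toZMod x = 0 ↔ (p : ℤ_[p]) ∣ x := by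
  rw [← RingHom.mem_ker, PadicInt.ker_toZMod, PadicInt.maximalIdeal_eq_span_p,
    Ideal.mem_span_singleton]

theorem lift_unit {m : ℕ} (h1 : p ∣ m) (h2 : ¬ p ^ 2 ∣ m) {a b : ℚ} (h : a ^ 2 + m * b ^ 2 = 1) :
    ∃ α β : ℤ_[p], (α : ℚ_[p]) = a ∧ (β : ℚ_[p]) = b := by
  have h' : (a : ℚ_[p]) ^ 2 + m * (b : ℚ_[p]) ^ 2 = 1 := by exact_mod_cast h
  have sq : ∀ (x : ℚ_[p]) (y : ℤ_[p]), x ^ 2 = y → ‖x‖ ≤ 1 := by
    intro x y hxy
    have : ‖x‖ ^ 2 ≤ 1 := by rw [← norm_pow, hxy]; exact y.2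
    exact (pow_le_one_iff_of_nonneg (norm_nonneg _) two_ne_zero).1 this
  have hb : ‖(b : ℚ_[p])‖ ≤ 1 := by
    by_contra hb
    push Not at hb
    have hb0 : (b : ℚ_[p]) ≠ 0 := fun e => by rw [e, norm_zero] at hb; linarith
    have ht : ‖(b : ℚ_[p])⁻¹‖ < 1 := by rw [norm_inv]; exact inv_lt_one_of_one_lt₀ hb
    set t : ℤ_[p] := ⟨(b : ℚ_[p])⁻¹, ht.le⟩ with htd
    have ht' : (p : ℤ_[p]) ∣ t := (PadicInt.norm_lt_one_iff_dvd t).1 ht
    have e : ((a : ℚ_[p]) * (b : ℚ_[p])⁻¹) ^ 2 = ((t ^ 2 - m : ℤ_[p]) : ℚ_[p]) := by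
      push_cast [htd]
      field_simp
      linear_combination h'
    set w : ℤ_[p] := ⟨_, sq _ _ e⟩ with hwd
    have e' : w ^ 2 = t ^ 2 - m := Subtype.ext (by rw [← e]; push_cast [hwd]; rfl)
    have hm : (p : ℤ_[p]) ∣ m := Nat.cast_dvd_cast h1
    have hw : (p : ℤ_[p]) ∣ w := PadicInt.prime_p.dvd_of_dvd_pow
      (e' ▸ dvd_sub (ht'.trans (dvd_pow_self t two_ne_zero)) hm)
    have h3 : (p : ℤ_[p]) ^ 2 ∣ ((m : ℤ) : ℤ_[p]) := by
      have := dvd_sub (pow_dvd_pow_of_dvd ht' 2) (pow_dvd_pow_of_dvd hw 2)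
      rw [e', sub_sub_cancel] at this
      exact_mod_cast this
    rw [PadicInt.pow_p_dvd_int_iff] at h3
    exact h2 (by exact_mod_cast h3)
  set β : ℤ_[p] := ⟨b, hb⟩ with hβ
  have e : (a : ℚ_[p]) ^ 2 = ((1 - m * β ^ 2 : ℤ_[p]) : ℚ_[p]) := by
    push_cast [hβ]
    linear_combination h'
  exact ⟨⟨a, sq _ _ e⟩, β, rfl, rfl⟩

theorem zmod_ne {n : ℕ} (hp : 29 ≤ p) (hn : ∀ q, q.Prime → q ∣ n → q < 29) : (n : ZMod p) ≠ 0 :=
  fun h => absurd (hn p Fact.out ((ZMod.natCast_eq_zero_iff n p).1 h)) (by omega)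

theorem smooth_small {q a b c d : ℕ} (hq : q.Prime) (h : q ∣ 2 ^ a * 3 ^ b * 5 ^ c * 7 ^ d) : q < 29 := by
  have k : ∀ r e, q ∣ r ^ e → 0 < r → r < 29 → q < 29 := fun r e h1 h2 h3 =>
    (Nat.le_of_dvd h2 (hq.dvd_of_dvd_pow h1)).trans_lt h3
  rcases (Nat.Prime.dvd_mul hq).1 h with h | h
  · rcases (Nat.Prime.dvd_mul hq).1 h with h | h
    · rcases (Nat.Prime.dvd_mul hq).1 h with h | h <;> exact k _ _ h (by norm_num) (by norm_num)
    · exact k _ _ h (by norm_num) (by norm_num)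
  · exact k _ _ h (by norm_num) (by norm_num)

theorem zmod_smooth (hp : 29 ≤ p) (a b c d : ℕ) : ((2 ^ a * 3 ^ b * 5 ^ c * 7 ^ d : ℕ) : ZMod p) ≠ 0 :=
  zmod_ne hp fun _ hq h => smooth_small hq h

theorem step_pos {ι : Type} [Fintype ι] {m : ℕ} (hp : 29 ≤ p) (hc : Fintype.card ι = p) (h1 : p ∣ m)
    (hm0 : m ≠ 0) (a b : ι → ℚ) (α β : ι → ℤ_[p]) (hα : ∀ i, (α i : ℚ_[p]) = a i)
    (hβ : ∀ i, (β i : ℚ_[p]) = b i) (hn : ∀ i, a i ^ 2 + m * b i ^ 2 = 1) (ha : ∑ i, a i = 0)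
    (hb : ∑ i, b i = 0) (hs : ∀ i, PadicInt.toZMod (α i) = 1) (i0 j0 : ι) (hij : i0 ≠ j0)
    (hab : a i0 = a j0 ∧ b i0 = b j0) :
    ∃ u' : ι → ℂ, Conf m u' ∧ coll u' < coll fun i => emb m (a i) (b i) := by
  classical
  have hp' : p.Prime := Fact.out
  have z2 : (2 : ZMod p) ≠ 0 := by simpa using zmod_smooth hp 1 0 0 0
  have hmz : (m : ZMod p) = 0 := (ZMod.natCast_eq_zero_iff m p).2 h1
  have hu : ∀ i, IsUnit (1 + α i) := fun i => by
    by_contra h
    have h3 : 1 + α i ∈ IsLocalRing.maximalIdeal ℤ_[p] := h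
    rw [← PadicInt.ker_toZMod, RingHom.mem_ker, map_add, map_one, hs, one_add_one_eq_two] at h3
    exact z2 h3
  choose v hv using fun i => (hu i).exists_right_inv
  set c : ι → ℤ_[p] := fun i => β i ^ 2 * v i with hcd
  set cq : ι → ℚ := fun i => b i ^ 2 / (1 + a i) with hcq
  have ha1 : ∀ i, (1 + a i : ℚ_[p]) * v i = 1 := fun i => by
    rw [← hα]; exact_mod_cast congrArg (fun z : ℤ_[p] => (z : ℚ_[p])) (hv i)
  have ha2 : ∀ i, 1 + a i ≠ 0 := fun i h => by
    have h3 : (1 + a i : ℚ_[p]) = 0 := by exact_mod_cast h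
    have := ha1 i
    rw [h3, zero_mul] at this
    exact zero_ne_one this
  have hcc : ∀ i, (c i : ℚ_[p]) = cq i := fun i => by
    have h3 : (1 + a i : ℚ_[p]) ≠ 0 := by exact_mod_cast ha2 i
    simp only [hcd, hcq]
    push_cast
    rw [hβ, eq_div_iff h3]
    linear_combination (b i : ℚ_[p]) ^ 2 * ha1 i
  have hac : ∀ i, a i = 1 - m * cq i := fun i => by
    have := ha2 i
    simp only [hcq]
    field_simp
    linear_combination hn i
  set ρ : ι → ZMod p := fun i => PadicInt.toZMod (β i) with hρ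
  have hρc : ∀ i, 2 * PadicInt.toZMod (c i) = ρ i ^ 2 := fun i => by
    have := congrArg PadicInt.toZMod (hv i)
    rw [map_mul, map_add, map_one, hs] at this
    simp only [hcd, hρ, map_mul, map_pow]
    linear_combination PadicInt.toZMod (β i) ^ 2 * this
  have hρ2 : ∑ i, ρ i ^ 2 ≠ 0 := by
    obtain ⟨m', rfl⟩ := h1
    have e1 : (m' : ℚ) * ∑ i, cq i = 1 := by
      have hp0 : (p : ℚ) ≠ 0 := by exact_mod_cast hp'.ne_zero
      apply mul_left_cancel₀ hp0
      rw [sum_congr rfl fun i _ => hac i, sum_sub_distrib, ← mul_sum] at ha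
      simp only [sum_const, card_univ, hc, nsmul_eq_mul] at ha
      push_cast at ha
      linear_combination -ha
    have e2 : (m' : ℤ_[p]) * ∑ i, c i = 1 := by
      apply Subtype.ext
      have : ((m' : ℚ_[p])) * ∑ i, (cq i : ℚ_[p]) = 1 := by exact_mod_cast e1
      push_cast [hcc, PadicInt.coe_sum]
      exact this
    have e3 := congrArg PadicInt.toZMod e2
    rw [map_mul, map_sum, map_one] at e3
    intro h
    rw [← sum_congr rfl fun i _ => hρc i, ← mul_sum] at h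
    rw [(mul_eq_zero.1 h).resolve_left z2, mul_zero] at e3
    exact zero_ne_one e3
  have hr : ρ i0 = ρ j0 := by
    have : β i0 = β j0 := Subtype.ext (by rw [hβ, hβ, hab.2])
    simp only [hρ, this]
  obtain ⟨z, T1, T2, c1, c2, hd, z1, z2', jz, j1, j2, hi, hΨ⟩ := exists_bodies (F := ZMod p) (by omega)
    (by rw [hc]; simp) (by simpa using zmod_smooth hp 5 1 0 0) ρ hρ2 i0 j0 hij hr
  set l : ι → Option (Fin 3) := fun i =>
    if i = z then some 0 else if i ∈ T1 then some 1 else if i ∈ T2 then some 2 else none with hl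
  set T : Fin 3 → Finset ι := ![{z}, T1, T2] with hT
  have hlT : ∀ k, (univ.filter fun i => l i = some k) = T k := by
    intro k
    ext i
    have : i ∈ T1 → i ∉ T2 := fun h => disjoint_left.1 hd h
    have hz1 : i ∈ T1 → i ≠ z := fun h e => z1 (e ▸ h)
    have hz2 : i ∈ T2 → i ≠ z := fun h e => z2' (e ▸ h)
    rw [mem_filter]
    by_cases a1 : i = z
    · fin_cases k <;> simp [hl, hT, a1, z1, z2']
    · by_cases a2 : i ∈ T1
      · fin_cases k <;> simp [hl, hT, a1, a2, this a2]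
      · by_cases a3 : i ∈ T2 <;> fin_cases k <;> simp [hl, hT, a1, a2, a3]
  set y : Fin 6 → ℚ := ![cq z, b z, ∑ i ∈ T1, cq i, ∑ i ∈ T1, b i, ∑ i ∈ T2, cq i, ∑ i ∈ T2, b i] with hy
  set x : Fin 6 → ℤ_[p] := ![c z, β z, ∑ i ∈ T1, c i, ∑ i ∈ T1, β i, ∑ i ∈ T2, c i, ∑ i ∈ T2, β i]
    with hx
  have hxy : ∀ i, (x i : ℚ_[p]) = y i := by
    intro i
    fin_cases i <;> simp [hx, hy, hcc, hβ]
  have hinf := fold_infinite (p := p) (by omega) m (by exact_mod_cast h1) (by exact_mod_cast hm0) x y hxy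
    (by
      rw [← toZMod_eq_zero_iff]
      have k : ∀ W : Finset ι, 2 * ∑ i ∈ W, PadicInt.toZMod (c i) = ∑ i ∈ W, ρ i ^ 2 := fun W => by
        rw [mul_sum]; exact sum_congr rfl fun i _ => hρc i
      convert hΨ using 2
      simp only [Psi, hx, map_sub, map_add, map_mul, map_pow, map_ofNat, Matrix.cons_val, map_sum,
        k, hρc, hρ])
  set pos : (Fin 6 → ℚ) → Fin 3 → ℂ := fun y =>
    ![emb m (1 - m * y 0) (y 1), emb m (2 - m * y 2) (y 3), emb m (6 - m * y 4) (y 5)] with hpos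
  have hmq : (m : ℚ) ≠ 0 := by exact_mod_cast hm0
  have hpi : Function.Injective pos := by
    intro s t h
    obtain ⟨e0, e1⟩ := emb_inj hm0 (congrFun h 0)
    obtain ⟨e2, e3⟩ := emb_inj hm0 (congrFun h 1)
    obtain ⟨e4, e5⟩ := emb_inj hm0 (congrFun h 2)
    funext i
    fin_cases i
    · exact mul_left_cancel₀ hmq (sub_right_injective e0)
    · exact e1
    · exact mul_left_cancel₀ hmq (sub_right_injective e2)
    · exact e3
    · exact mul_left_cancel₀ hmq (sub_right_injective e4)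
    · exact e5
  set u : ι → ℂ := fun i => emb m (a i) (b i) with hud
  have hσ0 : ∀ k, ∑ i ∈ T k, u i = pos y k := by
    intro k
    simp only [hud, sum_emb, hac, sum_sub_distrib, ← mul_sum]
    fin_cases k <;> simp [hT, hpos, hy, c1, c2]
  have hsum : ∀ t : Fin 6 → ℚ, ∑ k, pos t k = emb m (9 - m * (t 0 + t 2 + t 4)) (t 1 + t 3 + t 5) := by
    intro t
    simp only [hpos, Fin.sum_univ_three, Matrix.cons_val]
    apply Complex.ext
    · simp [emb]; ring
    · simp [emb]; ring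
  have res : ∀ (n : ℕ) (C B : ℤ_[p]) (Cq Bq : ℚ), (C : ℚ_[p]) = Cq → (B : ℚ_[p]) = Bq →
      ∃ t : ℤ_[p], (t : ℚ_[p]) = (((n - m * Cq) ^ 2 + m * Bq ^ 2 : ℚ) : ℚ_[p]) ∧
        PadicInt.toZMod t = n ^ 2 := by
    intro n C B Cq Bq e1 e2
    refine ⟨(n - m * C) ^ 2 + m * B ^ 2, by push_cast [e1, e2]; rfl, ?_⟩
    simp [hmz]
  obtain ⟨t0, r0, s0⟩ := res 1 (x 0) (x 1) _ _ (hxy 0) (hxy 1)
  obtain ⟨t1, r1, s1⟩ := res 2 (x 2) (x 3) _ _ (hxy 2) (hxy 3)
  obtain ⟨t2, r2, s2⟩ := res 6 (x 4) (x 5) _ _ (hxy 4) (hxy 5)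
  obtain ⟨t3, r3, s3⟩ := res 9 (x 0 + x 2 + x 4) (x 1 + x 3 + x 5) (y 0 + y 2 + y 4) (y 1 + y 3 + y 5)
    (by push_cast [hxy]; rfl) (by push_cast [hxy]; rfl)
  have cmp : ∀ (s t : ℤ_[p]) (A B : ℚ), (s : ℚ_[p]) = A → (t : ℚ_[p]) = B → (A : ℝ) = B →
      PadicInt.toZMod s = PadicInt.toZMod t := by
    intro s t A B e1 e2 e3
    have : A = B := by exact_mod_cast e3
    rw [show s = t from Subtype.ext (by rw [e1, e2, this])]
  have n0 : Complex.normSq (pos y 0) = _ := normSq_emb m (1 - m * y 0) (y 1)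
  have n1 : Complex.normSq (pos y 1) = _ := normSq_emb m (2 - m * y 2) (y 3)
  have n2 : Complex.normSq (pos y 2) = _ := normSq_emb m (6 - m * y 4) (y 5)
  simp only [Nat.cast_one, Nat.cast_ofNat] at r0 r1 r2 r3 s0 s1 s2 s3
  have z3 : (3 : ZMod p) ≠ 0 := by simpa using zmod_smooth hp 0 1 0 0
  have z35 : (35 : ZMod p) ≠ 0 := by simpa using zmod_smooth hp 0 0 1 1
  have z32 : (32 : ZMod p) ≠ 0 := by simpa using zmod_smooth hp 5 0 0 0
  have z6 : (6 : ZMod p) ≠ 0 := by simpa using zmod_smooth hp 1 1 0 0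
  have z9 : (9 : ZMod p) ≠ 0 := by simpa using zmod_smooth hp 0 2 0 0
  have nz : ∀ (t : ℤ_[p]) (A : ℚ) (w : ℂ), (t : ℚ_[p]) = A → Complex.normSq w = A →
      PadicInt.toZMod t ≠ 0 → w ≠ 0 := by
    intro t A w e1 e2 e3 e4
    rw [e4, map_zero] at e2
    exact e3 (by rw [cmp t 0 A 0 e1 (by simp) (by simpa using e2.symm), map_zero])
  have h0 : ∀ k, pos y k ≠ 0 := by
    intro k
    fin_cases k
    · exact nz t0 _ _ r0 n0 (by rw [s0]; simp)
    · exact nz t1 _ _ r1 n1 (by rw [s1]; exact pow_ne_zero _ z2)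
    · exact nz t2 _ _ r2 n2 (by rw [s2]; exact pow_ne_zero _ z6)
  have d01 : Complex.normSq (pos y 0) ≠ Complex.normSq (pos y 1) := fun h => z3 (by
    have := cmp _ _ _ _ r0 r1 (n0.symm.trans (h.trans n1))
    rw [s0, s1] at this
    linear_combination -this)
  have d02 : Complex.normSq (pos y 0) ≠ Complex.normSq (pos y 2) := fun h => z35 (by
    have := cmp _ _ _ _ r0 r2 (n0.symm.trans (h.trans n2))
    rw [s0, s2] at this
    linear_combination -this)
  have d12 : Complex.normSq (pos y 1) ≠ Complex.normSq (pos y 2) := fun h => z32 (by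
    have := cmp _ _ _ _ r1 r2 (n1.symm.trans (h.trans n2))
    rw [s1, s2] at this
    linear_combination -this)
  have hN : Function.Injective fun k => Complex.normSq (pos y k) := by
    intro k k' h
    fin_cases k <;> fin_cases k' <;>
      first | rfl | exact absurd h d01 | exact absurd h d02 | exact absurd h d12
            | exact absurd h d01.symm | exact absurd h d02.symm | exact absurd h d12.symm
  have hw : ∑ k, pos y k ≠ 0 :=
    nz t3 _ _ r3 (by rw [hsum, normSq_emb]) (by rw [s3]; exact pow_ne_zero _ z9)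
  have hun : ∀ i, Complex.normSq (u i) = 1 := fun i => by simp only [hud, normSq_emb, hn, Rat.cast_one]
  have hu0 : ∀ i, u i ≠ 0 := fun i h => by simpa [h] using hun i
  have hS' : ∀ σ ∈ pos '' {y' | Inv ((m : ℤ) : ℚ) y y'},
      (∀ t, Complex.normSq (σ t) = Complex.normSq (pos y t)) ∧ ∑ t, σ t = ∑ t, pos y t := by
    rintro _ ⟨y', ⟨e1, e2, e3, e4, e5⟩, rfl⟩
    push_cast at e1 e2 e3
    refine ⟨fun t => ?_, by rw [hsum, hsum, e4, e5]⟩
    fin_cases t
    · exact (normSq_emb m (1 - m * y' 0) (y' 1)).trans (by rw [e1]; exact n0.symm)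
    · exact (normSq_emb m (2 - m * y' 2) (y' 3)).trans (by rw [e2]; exact n1.symm)
    · exact (normSq_emb m (6 - m * y' 4) (y' 5)).trans (by rw [e3]; exact n2.symm)
  obtain ⟨σ, hσ, hgood⟩ := exists_position u hu0 l (pos y) h0 hN hw _ (hinf.image hpi.injOn) hS'
  obtain ⟨hσ1, hσ2⟩ := hS' σ hσ
  have hK : ∀ t k, InK m (pos t k) := fun t k => by fin_cases k <;> exact ⟨_, _, rfl⟩
  set r : Option (Fin 3) → ℂ := fun o => o.elim 1 fun k => σ k / pos y k with hrd
  have hr1 : ∀ o, Complex.normSq (r o) = 1 := by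
    rintro (_ | k)
    · simp [hrd]
    · simp only [hrd, Option.elim, map_div₀, hσ1]
      exact div_self (by simpa using h0 k)
  have hrK : ∀ o, InK m (r o) := by
    rintro (_ | k)
    · exact ⟨1, 0, by apply Complex.ext <;> simp [hrd, emb]⟩
    · obtain ⟨y', -, rfl⟩ := hσ
      exact (hK y' k).mul (hK y k).inv
  refine ⟨fun i => r (l i) * u i, ⟨fun i => (hrK _).mul ⟨_, _, rfl⟩, fun i => by
    rw [map_mul, hr1, hun, mul_one], ?_⟩, ?_⟩
  · have e0 : ∑ i, u i = 0 := by simp only [hud, sum_emb, ha, hb, emb_zero]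
    have e1 : ∀ o, ∑ i ∈ univ.filter fun i => l i = o, r (l i) * u i =
        r o * ∑ i ∈ univ.filter fun i => l i = o, u i := fun o => by
      rw [mul_sum]
      exact sum_congr rfl fun i hi => by rw [(mem_filter.1 hi).2]
    rw [← sum_fiberwise univ l, Fintype.sum_option] at e0 ⊢
    simp only [e1]
    simp only [hlT, hσ0] at e0 ⊢
    rw [← e0, ← hσ2]
    congr 1
    · simp [hrd]
    · exact sum_congr rfl fun k _ => div_mul_cancel₀ _ (h0 k)
  · refine card_lt_card ⟨fun q hq => ?_, fun h => ?_⟩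
    · rw [mem_filter] at hq ⊢
      refine ⟨hq.1, ?_⟩
      have e : l q.1 = l q.2 := by
        by_contra h
        exact hgood _ _ h hq.2
      have := hq.2
      simp only [e] at this
      exact mul_left_cancel₀ (fun h => by simpa [h] using hr1 (l q.2)) this
    · have := h (show (i0, j0) ∈ _ from mem_filter.2 ⟨mem_univ _, by simp only [hud, hab.1, hab.2]⟩)
      refine hgood i0 j0 ?_ (mem_filter.1 this).2
      have e : l j0 = none := by simp [hl, jz, j1, j2]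
      rw [e]
      rcases hi with h | h
      · simp [hl, h]
      · have : i0 ≠ z := fun e => z1 (e ▸ h)
        simp [hl, h, this]

theorem step {ι : Type} [Fintype ι] {m : ℕ} (hp : 29 ≤ p) (hc : Fintype.card ι = p) (h1 : p ∣ m)
    (h2 : ¬ p ^ 2 ∣ m) (u : ι → ℂ) (hu : Conf m u) (hi : ¬ Function.Injective u) :
    ∃ u' : ι → ℂ, Conf m u' ∧ coll u' < coll u := by
  classical
  have hp' : p.Prime := Fact.out
  have hm0 : m ≠ 0 := fun h => h2 (h ▸ dvd_zero _)
  obtain ⟨k1, k2, k3⟩ := hu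
  choose a b hab using k1
  obtain rfl : u = fun i => emb m (a i) (b i) := funext hab
  have hn : ∀ i, a i ^ 2 + m * b i ^ 2 = 1 := fun i => by
    have := k2 i
    rw [normSq_emb] at this
    exact_mod_cast this
  rw [sum_emb, ← emb_zero m] at k3
  obtain ⟨ha, hb⟩ := emb_inj hm0 k3
  choose α β hα hβ using fun i => lift_unit h1 h2 (hn i)
  obtain ⟨i0, j0, hij, hne⟩ := Function.not_injective_iff.1 hi
  have hmz : (m : ZMod p) = 0 := (ZMod.natCast_eq_zero_iff m p).2 h1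
  have hs : ∀ i, PadicInt.toZMod (α i) = 1 ∨ PadicInt.toZMod (α i) = -1 := fun i => by
    have e : α i ^ 2 + m * β i ^ 2 = 1 := Subtype.ext (by
      push_cast [hα, hβ]
      exact_mod_cast hn i)
    have := congrArg PadicInt.toZMod e
    simpa [hmz] using this
  have hsum : ∑ i, PadicInt.toZMod (α i) = 0 := by
    have e : ∑ i, α i = 0 := Subtype.ext (by
      push_cast [hα, PadicInt.coe_sum]
      exact_mod_cast ha)
    rw [← map_sum, e, map_zero]
  set W := univ.filter fun i => PadicInt.toZMod (α i) = 1 with hW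
  have hWc : p ∣ W.card := by
    have e : ∑ i, (PadicInt.toZMod (α i) + 1) = ∑ i ∈ W, (2 : ZMod p) := by
      rw [hW, sum_filter]
      refine sum_congr rfl fun i _ => ?_
      split_ifs with h
      · rw [h]; norm_num
      · rw [(hs i).resolve_left h]; simp
    rw [sum_add_distrib, hsum] at e
    simp only [sum_const, card_univ, hc, nsmul_eq_mul, CharP.cast_eq_zero, zero_mul, add_zero] at e
    have z2 : (2 : ZMod p) ≠ 0 := by simpa using zmod_smooth hp 1 0 0 0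
    exact (ZMod.natCast_eq_zero_iff _ p).1 ((mul_eq_zero.1 e.symm).resolve_right z2)
  by_cases hW0 : W.card = 0
  · have hs' : ∀ i, PadicInt.toZMod (-α i) = 1 := fun i => by
      have : PadicInt.toZMod (α i) ≠ 1 := fun h =>
        notMem_empty i (card_eq_zero.1 hW0 ▸ mem_filter.2 ⟨mem_univ i, h⟩)
      rw [map_neg, (hs i).resolve_left this, neg_neg]
    obtain ⟨u', k1, k2⟩ := step_pos hp hc h1 hm0 (fun i => -a i) b (fun i => -α i) β
      (fun i => by push_cast [hα]; rfl) hβ (fun i => by rw [neg_sq, hn]) (by rw [sum_neg_distrib, ha, neg_zero])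
      hb hs' i0 j0 hne ⟨by rw [(emb_inj hm0 hij).1], (emb_inj hm0 hij).2⟩
    refine ⟨u', k1, k2.trans_le (card_le_card fun q hq => ?_)⟩
    rw [mem_filter] at hq ⊢
    obtain ⟨e1, e2⟩ := emb_inj hm0 hq.2
    exact ⟨hq.1, by simp only [neg_injective e1, e2]⟩
  · have e : W = univ := eq_univ_of_card W (by
      have := Nat.le_of_dvd (Nat.pos_of_ne_zero hW0) hWc
      have := card_le_univ W
      omega)
    exact step_pos hp hc h1 hm0 a b α β hα hβ hn ha hb
      (fun i => (mem_filter.1 (e ▸ mem_univ i : i ∈ W)).2) i0 j0 hne (emb_inj hm0 hij)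

theorem exists_injective {ι : Type} [Fintype ι] {m : ℕ} (hp : 29 ≤ p) (hc : Fintype.card ι = p)
    (h1 : p ∣ m) (h2 : ¬ p ^ 2 ∣ m) (n : ℕ) : ∀ u : ι → ℂ, Conf m u → coll u = n →
    ∃ u' : ι → ℂ, Conf m u' ∧ Function.Injective u' := by
  induction n using Nat.strong_induction_on with
  | _ n ih =>
    intro u hu hn
    by_cases hi : Function.Injective u
    · exact ⟨u, hu, hi⟩
    · obtain ⟨u', k1, k2⟩ := step hp hc h1 h2 u hu hi
      exact ih _ (hn ▸ k2) u' k1 rfl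

/-- From a closed equilateral walk to a convex equilateral polygon. -/
theorem hasGon_of_walk {m : ℕ} (hp : 29 ≤ p) (h1 : p ∣ m) (h2 : ¬ p ^ 2 ∣ m) (e : Fin p → ℂ)
    (hK : ∀ i, InK m (e i)) (r : ℝ) (hr : r ≠ 0) (he : ∀ i, Complex.normSq (e i) = r)
    (hs : ∑ i, e i = 0) : HasGon m p := by
  have i0 : Fin p := ⟨0, by omega⟩
  have h0 : e i0 ≠ 0 := fun h => hr (by rw [← he i0, h, map_zero])
  obtain ⟨u, ⟨k1, k2, k3⟩, k4⟩ := exists_injective hp (Fintype.card_fin p) h1 h2 _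
    (fun i => e i * (e i0)⁻¹) ⟨fun i => (hK i).mul (hK i0).inv, fun i => by
      rw [map_mul, map_inv₀, he, he, mul_inv_cancel₀ hr], by rw [← sum_mul, hs, zero_mul]⟩ rfl
  choose a b hab using k1
  set D : ℕ := ∏ i, (a i).den * (b i).den with hD
  have hD0 : 0 < D := prod_pos fun i _ => Nat.mul_pos (a i).den_pos (b i).den_pos
  have hDc : (D : ℂ) ≠ 0 := by exact_mod_cast hD0.ne'
  have int : ∀ q : ℚ, q.den ∣ D → ∃ z : ℤ, (D : ℝ) * q = z := by
    rintro q ⟨c, hc⟩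
    refine ⟨c * q.num, ?_⟩
    have : (D : ℚ) * q = c * q.num := by
      rw [hc, ← Rat.mul_den_eq_num q]; push_cast; ring
    exact_mod_cast this
  refine hasGon_of_vectors m p (by omega) (fun i => D * u i) D (by exact_mod_cast hD0) (fun i => ?_)
    (fun i j h => k4 (mul_left_cancel₀ hDc h)) (by rw [← mul_sum, k3, mul_zero]) fun i => ?_
  · have : ‖u i‖ = 1 := by
      have := k2 i
      rw [Complex.normSq_eq_norm_sq] at this
      exact (pow_eq_one_iff_of_nonneg (norm_nonneg _) two_ne_zero).1 this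
    simp [this]
  · have hd : (a i).den * (b i).den ∣ D := dvd_prod_of_mem _ (mem_univ i)
    obtain ⟨z1, e1⟩ := int (a i) ((dvd_mul_right _ _).trans hd)
    obtain ⟨z2, e2⟩ := int (b i) ((dvd_mul_left _ _).trans hd)
    exact ⟨z1, z2, by simp [hab, emb, ← e1], by simp [hab, emb, ← e2, mul_assoc]⟩

end Pool.Agent.P.MP_b75a1e_co
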