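import Pool.Agent.P.MP_b75a1e_co.EGArith0

set_option autoImplicit false

open Finset
open scoped BigOperators ComplexConjugate

namespace Pool.Agent.P.MP_b75a1e_co.EG

variable {m Y : ℕ}

theorem Cop.symm {a b : ℤ} (h : Cop Y a b) : Cop Y b a := fun l hl g hb ha => h l hl g ha hb

theorem Cop.mul_left {a a' b : ℤ} (h : Cop Y a b) (h' : Cop Y a' b) : Cop Y (a * a') b :=
  fun l hl g x => ((Nat.prime_iff_prime_int.1 hl).dvd_or_dvd x).elim (h l hl g) (h' l hl g)

theorem Cop.of_dvd {a a' b b' : ℤ} (h : Cop Y a b) (ha : a' ∣ a) (hb : b' ∣ b) : Cop Y a' b' :=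
  fun l hl g x y => h l hl g (x.trans ha) (y.trans hb)

theorem Cop.prod_left {ι : Type} (s : Finset ι) (f : ι → ℤ) (b : ℤ) (h : ∀ i ∈ s, Cop Y (f i) b) :
    Cop Y (∏ i ∈ s, f i) b := fun l hl g x => by
  obtain ⟨i, hi, e⟩ := (Prime.dvd_finsetProd_iff (Nat.prime_iff_prime_int.1 hl) f).1 x
  exact h i hi l hl g e

theorem Prim.conj {x : O m} (h : Prim Y x) : Prim Y (star x) := fun l hl g e => by
  have := dvd_star e
  rw [star_star, star_natCast] at this
  exact h l hl g this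

lemma cancel_EGArith {l : ℕ} (hl : l.Prime) {x : O m} {n : ℤ} (h : (l : O m) ∣ (n : O m) * x)
    (hn : ¬ (l : ℤ) ∣ n) : (l : O m) ∣ x := by
  have p := Nat.prime_iff_prime_int.1 hl
  rw [nat_dvd_iff] at h ⊢
  obtain ⟨a, b⟩ := h
  simp only [Zsqrtd.re_smul, Zsqrtd.im_smul] at a b
  exact ⟨(p.dvd_or_dvd a).resolve_left hn, (p.dvd_or_dvd b).resolve_left hn⟩

theorem Prim.mul {x y : O m} (hx : Prim Y x) (hy : Prim Y y) (h : Cop Y x.norm y.norm) :
    Prim Y (x * y) := fun l hl g e => by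
  by_cases c : (l : ℤ) ∣ x.norm
  · refine hx l hl g (cancel_EGArith hl ?_ (h l hl g c))
    rw [Zsqrtd.norm_eq_mul_conj, show y * star y * x = x * y * star y by ring]
    exact e.mul_right _
  · refine hy l hl g (cancel_EGArith hl ?_ c)
    rw [Zsqrtd.norm_eq_mul_conj, show x * star x * y = x * y * star x by ring]
    exact e.mul_right _

lemma odd_EGArith (hY : 2 ≤ Y) (hm : Smo Y m) {l : ℕ} (hl : l.Prime) (g : Y < l) :
    ¬ (l : ℤ) ∣ 2 ∧ ¬ (l : ℤ) ∣ m := by
  refine ⟨fun e => ?_, fun e => ?_⟩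
  · have := Nat.le_of_dvd two_pos (Int.natCast_dvd_natCast.1 (show (l : ℤ) ∣ (2 : ℕ) from e))
    omega
  · have := hm l hl (Int.natCast_dvd_natCast.1 e)
    omega

theorem Prim.sq (hY : 2 ≤ Y) (hm : Smo Y m) {x : O m} (hx : Prim Y x) : Prim Y (x ^ 2) :=
  fun l hl g e => by
  have p := Nat.prime_iff_prime_int.1 hl
  obtain ⟨h2, h3⟩ := odd_EGArith hY hm hl g
  refine hx l hl g ?_
  rw [nat_dvd_iff] at e ⊢
  obtain ⟨a, b⟩ := e
  rw [show (x ^ 2).re = x.re * x.re - m * (x.im * x.im) by simp [pow_two]; ring] at a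
  rw [show (x ^ 2).im = 2 * (x.re * x.im) by simp [pow_two]; ring] at b
  rcases p.dvd_or_dvd ((p.dvd_or_dvd b).resolve_left h2) with c | c
  · have d : (l : ℤ) ∣ m * (x.im * x.im) := (dvd_sub_right (c.mul_right _)).1 a
    exact ⟨c, (p.dvd_or_dvd ((p.dvd_or_dvd d).resolve_left h3)).elim id id⟩
  · have d : (l : ℤ) ∣ x.re * x.re := (dvd_sub_left ((c.mul_right _).mul_left _)).1 a
    exact ⟨(p.dvd_or_dvd d).elim id id, c⟩

theorem Prim.prod {ι : Type} (s : Finset ι) (x : ι → O m) (hx : ∀ i ∈ s, Prim Y (x i))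
    (h : ∀ i ∈ s, ∀ k ∈ s, i ≠ k → Cop Y (x i).norm (x k).norm) : Prim Y (∏ i ∈ s, x i) := by
  classical
  induction s using Finset.induction_on with
  | empty =>
    intro l hl _ e
    rw [prod_empty, nat_dvd_iff] at e
    exact (Nat.prime_iff_prime_int.1 hl).not_dvd_one e.1
  | insert a s ha ih =>
    rw [prod_insert ha]
    refine (hx a (mem_insert_self _ _)).mul (ih (fun i hi => hx i (mem_insert_of_mem hi))
      fun i hi k hk => h i (mem_insert_of_mem hi) k (mem_insert_of_mem hk)) ?_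
    rw [norm_prod']
    exact (Cop.prod_left s _ _ fun i hi => h i (mem_insert_of_mem hi) a (mem_insert_self _ _)
      fun e => ha (e ▸ hi)).symm

theorem Prim.of_dvd {x y : O m} (hy : Prim Y y) (h : x ∣ y) : Prim Y x :=
  fun l hl g e => hy l hl g (e.trans h)

theorem prim_of_norm {x : O m} {D : Finset ℕ} (hD : ∀ l ∈ D, l.Prime)
    (h : x.norm = ∏ l ∈ D, (l : ℤ)) : Prim Y x := fun l hl _ e => by
  have a := norm_dvd_norm e
  rw [Zsqrtd.norm_natCast, h, ← Nat.cast_prod, ← Nat.cast_mul, Int.natCast_dvd_natCast] at a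
  have b : Squarefree (∏ l ∈ D, l) :=
    squarefree_prod_of_pairwise_isCoprime (fun p hp q hq e =>
      Nat.coprime_iff_isRelPrime.1 ((Nat.coprime_primes (hD p hp) (hD q hq)).2 e))
      fun p hp => (hD p hp).squarefree
  exact hl.prime.not_isUnit (b l a)

theorem coprime_star (hY : 2 ≤ Y) (hm : Smo Y m) {x : O m} (hx : Prim Y x) (h : Pure Y x.norm) :
    IsCoprime x (star x) := by
  have c : IsCoprime x.norm (2 * x.re) := by
    rw [Int.isCoprime_iff_gcd_eq_one]
    refine Nat.coprime_of_dvd fun l hl a b => ?_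
    have p := Nat.prime_iff_prime_int.1 hl
    have a' : (l : ℤ) ∣ x.norm := Int.natCast_dvd.2 a
    have b' : (l : ℤ) ∣ 2 * x.re := Int.natCast_dvd.2 b
    have g : Y < l := by
      by_contra g
      exact h l hl (by omega) a'
    obtain ⟨h2, h3⟩ := odd_EGArith hY hm hl g
    have c := (p.dvd_or_dvd b').resolve_left h2
    rw [norm_eq] at a'
    have d := (dvd_add_right (dvd_pow c two_ne_zero)).1 a'
    exact hx l hl g ((nat_dvd_iff l x).2
      ⟨c, p.dvd_of_dvd_pow ((p.dvd_or_dvd d).resolve_left h3)⟩)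
  obtain ⟨u, v, e⟩ := c
  have e' := congrArg (Int.cast : ℤ → O m) e
  have t : ((2 * x.re : ℤ) : O m) = x + star x := by ext <;> simp; ring
  rw [Int.cast_add, Int.cast_mul, Int.cast_mul v, t, Zsqrtd.norm_eq_mul_conj, Int.cast_one] at e'
  exact ⟨u * star x + v, v, by linear_combination e'⟩

theorem wt_nonneg (Y len : ℕ) (a : ℤ) : 0 ≤ wt Y len a :=
  sum_nonneg fun _ _ => by positivity

theorem wt_mul (Y len : ℕ) (a b : ℤ) : wt Y len (a * b) ≤ wt Y len a + wt Y len b := by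
  have h1 := wt_nonneg Y len a
  have h2 := wt_nonneg Y len b
  by_cases e : a * b = 0
  · rw [e]
    have : wt Y len 0 = 0 := by simp [wt]
    linarith
  · unfold wt
    rw [Int.natAbs_mul, Nat.primeFactors_mul (Int.natAbs_ne_zero.2 (left_ne_zero_of_mul e))
      (Int.natAbs_ne_zero.2 (right_ne_zero_of_mul e)), filter_union, ← sum_union_inter]
    exact le_add_of_nonneg_right (sum_nonneg fun _ _ => by positivity)

theorem wt_prod {ι : Type} (Y len : ℕ) (s : Finset ι) (f : ι → ℤ) :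
    wt Y len (∏ i ∈ s, f i) ≤ ∑ i ∈ s, wt Y len (f i) := by
  classical
  induction s using Finset.induction_on with
  | empty => simp [wt]
  | insert a s ha ih =>
    rw [prod_insert ha, sum_insert ha]
    have := wt_mul Y len (f a) (∏ i ∈ s, f i)
    linarith

theorem wt_sq (Y len : ℕ) (a : ℤ) : wt Y len (a ^ 2) = wt Y len a := by
  unfold wt
  rw [Int.natAbs_pow, Nat.primeFactors_pow _ two_ne_zero]

theorem wt_of_dvd (Y len : ℕ) {a b : ℤ} (h : a ∣ b) (hb : b ≠ 0) : wt Y len a ≤ wt Y len b :=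
  sum_le_sum_of_subset_of_nonneg (filter_subset_filter _
    (Nat.primeFactors_mono (Int.natAbs_dvd_natAbs.2 h) (Int.natAbs_ne_zero.2 hb)))
    fun _ _ _ => by positivity

theorem wt_primes (Y len z : ℕ) (hz : 1 ≤ z) (D : Finset ℕ) (hD : ∀ l ∈ D, l.Prime ∧ z ≤ l) :
    wt Y len (∏ l ∈ D, (l : ℤ)) ≤ D.card * ((1 : ℝ) / z + 1 / len) := by
  unfold wt
  rw [← Nat.cast_prod, Int.natAbs_natCast, Nat.primeFactors_prod fun l hl => (hD l hl).1,
    ← nsmul_eq_mul]
  refine (sum_le_sum_of_subset_of_nonneg (filter_subset _ _) fun _ _ _ => by positivity).trans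
    (sum_le_card_nsmul _ _ _ fun l hl => ?_)
  have : (1 : ℝ) / l ≤ 1 / z :=
    one_div_le_one_div_of_le (by exact_mod_cast hz) (by exact_mod_cast (hD l hl).2)
  linarith

end Pool.Agent.P.MP_b75a1e_co.EG
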