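import Pool.Agent.P.MP_b75a1e_co.EGBasic

set_option autoImplicit false

open Finset
open scoped BigOperators ComplexConjugate

namespace Pool.Agent.P.MP_b75a1e_co.EG

variable {m Y : ℕ}

theorem cc_cases (m : ℕ) : (3 ∣ m ∧ cc m = 2) ∨ (¬ 3 ∣ m ∧ cc m = 6) := by
  unfold cc
  by_cases h : 3 ∣ m
  · exact Or.inl ⟨h, if_pos h⟩
  · exact Or.inr ⟨h, if_neg h⟩

theorem cc_pos_EGArith0 (m : ℕ) : 1 ≤ cc m := by
  rcases cc_cases m with h | h <;> omega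

theorem cc_le_EGArith0 (m : ℕ) : cc m ≤ 6 := by
  rcases cc_cases m with h | h <;> omega

theorem cc_dvd_EGArith0 (m : ℕ) : cc m ∣ 6 := by
  rcases cc_cases m with h | h <;> rw [h.2] <;> norm_num

theorem Q1_pos (m Y : ℕ) : 1 ≤ Q1 m Y := by
  refine Nat.succ_le_of_lt ?_
  unfold Q1
  exact prod_pos fun l hl => (mem_filter.1 hl).2.1.pos

theorem QQ_pos (m Y : ℕ) : 1 ≤ QQ m Y := by
  have h1 := cc_pos_EGArith0 m
  have h2 := Q1_pos m Y
  exact Nat.succ_le_of_lt (by unfold QQ; positivity)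

theorem M1_pos (hm : 1 ≤ m) (Y : ℕ) : 1 ≤ M1 m Y := by
  have h1 := cc_pos_EGArith0 m
  have h2 := Q1_pos m Y
  exact Nat.succ_le_of_lt (by unfold M1; positivity)

theorem M2_pos (hm : 1 ≤ m) (Y : ℕ) : 1 ≤ M2 m Y := by
  have h1 := cc_pos_EGArith0 m
  have h2 := Q1_pos m Y
  exact Nat.succ_le_of_lt (by unfold M2; positivity)

theorem M2_eq (m Y : ℕ) : M2 m Y = 2 * cc m * M1 m Y := by
  unfold M2 M1; ring

theorem QQ_mul (m Y : ℕ) : QQ m Y * m = 2 * M2 m Y := by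
  unfold QQ M2; ring

theorem prime_dvd_or_EGArith0 (m : ℕ) {l : ℕ} (hl : l.Prime) (hY : l ≤ Y) :
    l ∣ cc m * Q1 m Y ∨ l ∣ m := by
  by_cases hm : l ∣ m
  · exact Or.inr hm
  left
  by_cases h5 : 5 ≤ l
  · exact Dvd.dvd.mul_left
      (dvd_prod_of_mem _ (mem_filter.2 ⟨mem_range.2 (by omega), hl, h5, hm⟩)) _
  · refine Dvd.dvd.mul_right ?_ _
    have h2 := hl.two_le
    have h4 : l ≠ 4 := by rintro rfl; norm_num at hl
    have : l = 2 ∨ l = 3 := by omega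
    rcases this with rfl | rfl <;> rcases cc_cases m with h | h
    · rw [h.2]
    · rw [h.2]; norm_num
    · exact absurd h.1 hm
    · rw [h.2]; norm_num

theorem prime_dvd_all (m : ℕ) {l : ℕ} (hl : l.Prime) (hY : l ≤ Y) : l ∣ cc m * Q1 m Y * m := by
  rcases prime_dvd_or_EGArith0 m hl hY with h | h
  · exact h.mul_right _
  · exact h.mul_left _

theorem prime_dvd_M1 (m : ℕ) {l : ℕ} (hl : l.Prime) (hY : l ≤ Y) : l ∣ M1 m Y :=
  (prime_dvd_all m hl hY).trans ⟨cc m, by unfold M1; ring⟩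

theorem prime_dvd_QQ_or (m : ℕ) {l : ℕ} (hl : l.Prime) (hY : l ≤ Y) : l ∣ QQ m Y ∨ l ∣ m :=
  (prime_dvd_or_EGArith0 m hl hY).imp_left fun h =>
    h.trans ⟨4 * cc m ^ 2, by unfold QQ; ring⟩

theorem coprime_cc_EGArith0 (hodd : m % 2 = 1) : Nat.Coprime (cc m) m := by
  have h2 : Nat.Coprime 2 m := (Nat.Prime.coprime_iff_not_dvd Nat.prime_two).2 (by omega)
  rcases cc_cases m with h | h <;> rw [h.2]
  · exact h2
  · exact Nat.Coprime.mul_left h2 ((Nat.Prime.coprime_iff_not_dvd Nat.prime_three).2 h.1)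

theorem coprime_QQ (hodd : m % 2 = 1) (Y : ℕ) : Nat.Coprime (QQ m Y) m := by
  have h2 : Nat.Coprime 2 m := (Nat.Prime.coprime_iff_not_dvd Nat.prime_two).2 (by omega)
  have h4 : Nat.Coprime 4 m := Nat.Coprime.mul_left h2 h2
  refine Nat.Coprime.mul_left (Nat.Coprime.mul_left h4
    (Nat.Coprime.pow_left 3 (coprime_cc_EGArith0 hodd))) ?_
  refine Nat.Coprime.prod_left fun l hl => ?_
  have := (mem_filter.1 hl).2
  exact (Nat.Prime.coprime_iff_not_dvd this.1).2 this.2.2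

theorem smo_mul_EGArith0 {a b : ℕ} (ha : Smo Y a) (hb : Smo Y b) : Smo Y (a * b) :=
  fun l hl h => ((Nat.Prime.dvd_mul hl).1 h).elim (ha l hl) (hb l hl)

theorem smo_pow_EGArith0 {a : ℕ} (ha : Smo Y a) (k : ℕ) : Smo Y (a ^ k) :=
  fun l hl h => ha l hl (hl.dvd_of_dvd_pow h)

theorem smo_primorial_EGArith0 (Y : ℕ) : Smo Y (primorial Y) := fun l hl h => by
  obtain ⟨q, hq, hlq⟩ := (Prime.dvd_finsetProd_iff hl.prime _).1 h
  have hq' := mem_filter.1 hq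
  have := Nat.le_of_dvd hq'.2.pos hlq
  have := mem_range.1 hq'.1
  omega

theorem Q1_dvd_EGArith0 (m Y : ℕ) : Q1 m Y ∣ primorial Y :=
  prod_dvd_prod_of_subset _ _ _ fun l hl =>
    mem_filter.2 ⟨(mem_filter.1 hl).1, (mem_filter.1 hl).2.1⟩

theorem six_dvd_EGArith0 (hY : 3 ≤ Y) : 6 ∣ primorial Y := by
  have h2 : 2 ∣ primorial Y :=
    dvd_prod_of_mem _ (mem_filter.2 ⟨mem_range.2 (by omega), Nat.prime_two⟩)
  have h3 : 3 ∣ primorial Y :=
    dvd_prod_of_mem _ (mem_filter.2 ⟨mem_range.2 (by omega), Nat.prime_three⟩)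
  omega

theorem smo_of_dvd_EGArith0 {a : ℕ} (h : a ∣ primorial Y) : Smo Y a :=
  fun l hl h' => smo_primorial_EGArith0 Y l hl (h'.trans h)

theorem smo_M1 (hY : 3 ≤ Y) (hm : Smo Y m) : Smo Y (M1 m Y) :=
  smo_mul_EGArith0 (smo_mul_EGArith0 (smo_pow_EGArith0
    (smo_of_dvd_EGArith0 ((cc_dvd_EGArith0 m).trans (six_dvd_EGArith0 hY))) 2)
    (smo_of_dvd_EGArith0 (Q1_dvd_EGArith0 m Y))) hm

theorem smo_M2 (hY : 3 ≤ Y) (hm : Smo Y m) : Smo Y (M2 m Y) := by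
  rw [M2_eq]
  exact smo_mul_EGArith0 (smo_mul_EGArith0
    (smo_of_dvd_EGArith0 (Dvd.dvd.trans (by norm_num) (six_dvd_EGArith0 hY)))
    (smo_of_dvd_EGArith0 ((cc_dvd_EGArith0 m).trans (six_dvd_EGArith0 hY)))) (smo_M1 hY hm)

theorem Q1_le_EGArith0 (m Y : ℕ) : Q1 m Y ≤ 4 ^ Y :=
  (Nat.le_of_dvd (primorial_pos Y) (Q1_dvd_EGArith0 m Y)).trans (primorial_le_four_pow Y)

theorem QQ_le (m Y : ℕ) : QQ m Y ≤ 864 * 4 ^ Y := by
  have h1 : cc m ^ 3 ≤ 6 ^ 3 := Nat.pow_le_pow_left (cc_le_EGArith0 m) 3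
  exact Nat.mul_le_mul (by omega) (Q1_le_EGArith0 m Y)

theorem M2_le (m Y : ℕ) : M2 m Y ≤ 432 * 4 ^ Y * m := by
  have h1 : cc m ^ 3 ≤ 6 ^ 3 := Nat.pow_le_pow_left (cc_le_EGArith0 m) 3
  exact Nat.mul_le_mul (Nat.mul_le_mul (by omega) (Q1_le_EGArith0 m Y)) le_rfl

theorem M1_le (m Y : ℕ) : M1 m Y ≤ M2 m Y := by
  have h1 := cc_pos_EGArith0 m
  rw [M2_eq]
  exact Nat.le_mul_of_pos_left _ (by omega)

theorem m_dvd_primorial (hsq : Squarefree m) (hm : Smo Y m) : m ∣ primorial Y := by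
  rw [← Nat.prod_primeFactors_of_squarefree hsq]
  refine prod_dvd_prod_of_subset _ _ _ fun l hl => ?_
  have hp := Nat.prime_of_mem_primeFactors hl
  have := hm l hp (Nat.dvd_of_mem_primeFactors hl)
  exact mem_filter.2 ⟨mem_range.2 (by omega), hp⟩

theorem M1_dvd_E (hY : 3 ≤ Y) (hsq : Squarefree m) (hm : Smo Y m) : M1 m Y ∣ primorial Y ^ 10 := by
  have h1 := (cc_dvd_EGArith0 m).trans (six_dvd_EGArith0 hY)
  refine (Nat.mul_dvd_mul (Nat.mul_dvd_mul (pow_dvd_pow_of_dvd h1 2) (Q1_dvd_EGArith0 m Y))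
    (m_dvd_primorial hsq hm)).trans ⟨primorial Y ^ 6, by ring⟩

theorem QQ_dvd_E (hY : 3 ≤ Y) (m : ℕ) : QQ m Y ∣ primorial Y ^ 10 := by
  have h1 := (cc_dvd_EGArith0 m).trans (six_dvd_EGArith0 hY)
  have h2 : 2 ∣ primorial Y := Dvd.dvd.trans (by norm_num) (six_dvd_EGArith0 hY)
  have h4 : 4 ∣ primorial Y ^ 2 := pow_dvd_pow_of_dvd h2 2
  refine (Nat.mul_dvd_mul (Nat.mul_dvd_mul h4 (pow_dvd_pow_of_dvd h1 3))
    (Q1_dvd_EGArith0 m Y)).trans ⟨primorial Y ^ 4, by ring⟩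

theorem smo_E (Y : ℕ) : Smo Y (primorial Y ^ 10) :=
  smo_pow_EGArith0 (smo_primorial_EGArith0 Y) 10

theorem pure_mul_EGArith0 {a b : ℤ} (ha : Pure Y a) (hb : Pure Y b) : Pure Y (a * b) :=
  fun l hl hY h => ((Nat.prime_iff_prime_int.1 hl).dvd_or_dvd h).elim (ha l hl hY) (hb l hl hY)

theorem not_dvd_one_EGArith0 {l : ℕ} (hl : l.Prime) : ¬ (l : ℤ) ∣ 1 :=
  (Nat.prime_iff_prime_int.1 hl).not_dvd_one

theorem Shape.mul {Γ C : O m} (h : Shape m Y Γ) (hC : (M1 m Y : O m) ∣ C - 1) : Shape m Y (Γ * C) := by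
  obtain ⟨a, b, ha, hb, hm, hd⟩ := h
  refine ⟨a, b, ha, hb, hm, ?_⟩
  have e : Γ * C - (⟨a, a * (cc m * b)⟩ : O m) =
      Γ * (C - 1) + (Γ - (⟨a, a * (cc m * b)⟩ : O m)) := by ring
  rw [e]
  exact dvd_add (hC.mul_left _) hd

theorem shape_coord_EGArith0 {Γ : O m} {a c : ℤ} (hd : (M1 m Y : O m) ∣ Γ - (⟨a, c⟩ : O m)) :
    ((M1 m Y : ℕ) : ℤ) ∣ Γ.re - a ∧ ((M1 m Y : ℕ) : ℤ) ∣ Γ.im - c := by
  simpa only [Zsqrtd.re_sub, Zsqrtd.im_sub] using (nat_dvd_iff _ _).1 hd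

theorem Shape.diff {Γ : O m} (h : Shape m Y Γ) : (m : ℤ) ∣ Γ.im - Γ.re := by
  obtain ⟨a, b, -, -, hm, hd⟩ := h
  obtain ⟨h1, h2⟩ := shape_coord_EGArith0 hd
  have h3 : (m : ℤ) ∣ ((M1 m Y : ℕ) : ℤ) := Int.natCast_dvd_natCast.2 (Dvd.intro_left _ rfl)
  have e : Γ.im - Γ.re = (Γ.im - a * (cc m * b)) - (Γ.re - a) + a * (cc m * b - 1) := by ring
  rw [e]
  exact dvd_add (dvd_sub (h3.trans h2) (h3.trans h1)) (hm.mul_left _)

theorem Shape.re {Γ : O m} (h : Shape m Y Γ) : Pure Y Γ.re := by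
  obtain ⟨a, b, ha, -, -, hd⟩ := h
  intro l hl hY hdv
  have h1 := (Int.natCast_dvd_natCast.2 (prime_dvd_M1 m hl hY)).trans (shape_coord_EGArith0 hd).1
  exact ha l hl hY (by simpa using dvd_sub hdv h1)

theorem Shape.im {Γ : O m} (hm : 1 ≤ m) (h : Shape m Y Γ) : ∃ b : ℤ, Γ.im = cc m * b ∧ Pure Y b := by
  obtain ⟨a, b, ha, hb, -, hd⟩ := h
  obtain ⟨t, ht⟩ := (shape_coord_EGArith0 hd).2
  refine ⟨a * b + ((cc m * Q1 m Y * m : ℕ) : ℤ) * t, ?_, fun l hl hY hdv => ?_⟩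
  · simp only [M1] at ht
    push_cast at ht ⊢
    linear_combination ht
  · have h1 := (Int.natCast_dvd_natCast.2 (prime_dvd_all m hl hY)).mul_right t
    exact pure_mul_EGArith0 ha hb l hl hY ((dvd_add_left h1).1 hdv)

theorem slope_EGArith0 (hodd : m % 2 = 1) (S : Finset ℕ)
    (hS : ∀ l ∈ S, l.Prime ∧ 5 ≤ l ∧ ¬ l ∣ m) :
    ∃ b : ℤ, (cc m : ℤ) ∣ b - 1 ∧ (m : ℤ) ∣ cc m * b - 1 ∧
      ∀ l ∈ S, ¬ (l : ℤ) ∣ b ∧ ¬ (l : ℤ) ∣ 1 + m * (cc m * b) ^ 2 := by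
  induction S using Finset.induction_on with
  | empty =>
    obtain ⟨u, v, huv⟩ := Nat.isCoprime_iff_coprime.2 (coprime_cc_EGArith0 hodd)
    refine ⟨u + m * (v * (1 - u)), ⟨(u - 1) * u, ?_⟩, ⟨cc m * (v * (1 - u)) - v, ?_⟩, by simp⟩
    · linear_combination (1 - u) * huv
    · linear_combination huv
  | insert l S hlS ih =>
    obtain ⟨b, h1, h2, h3⟩ := ih fun q hq => hS q (mem_insert_of_mem hq)
    obtain ⟨hl, h5, hlm⟩ := hS l (mem_insert_self _ _)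
    have hsm : ∀ n : ℕ, 0 < n → n < 5 → ¬ (l : ℤ) ∣ (n : ℤ) := fun n h0 hn h => by
      have := Nat.le_of_dvd h0 (Int.natCast_dvd_natCast.1 h)
      omega
    obtain ⟨r, hr1, hr2⟩ : ∃ r : ℤ, ¬ (l : ℤ) ∣ r ∧ ¬ (l : ℤ) ∣ 1 + m * (cc m * r) ^ 2 := by
      by_cases h : (l : ℤ) ∣ 1 + m * (cc m * 1) ^ 2
      · refine ⟨2, hsm 2 (by norm_num) (by norm_num), fun h' => hsm 3 (by norm_num) (by norm_num) ?_⟩
        have e : ((3 : ℕ) : ℤ) = 4 * (1 + m * (cc m * 1) ^ 2) - (1 + m * (cc m * 2) ^ 2) := by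
          push_cast; ring
        rw [e]
        exact dvd_sub (h.mul_left 4) h'
      · exact ⟨1, hsm 1 (by norm_num) (by norm_num), h⟩
    have hcop : Nat.Coprime l (cc m * m * ∏ q ∈ S, q) := by
      refine Nat.Coprime.mul_right (Nat.Coprime.mul_right ?_ ?_) ?_
      · refine (Nat.Prime.coprime_iff_not_dvd hl).2 fun h => ?_
        have h6 := h.trans (cc_dvd_EGArith0 m)
        have : l ∣ 2 * 3 := h6
        rcases (Nat.Prime.dvd_mul hl).1 this with h' | h' <;>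
          have := Nat.le_of_dvd (by norm_num) h' <;> omega
      · exact (Nat.Prime.coprime_iff_not_dvd hl).2 hlm
      · refine Nat.Coprime.prod_right fun q hq => ?_
        refine (Nat.coprime_primes hl (hS q (mem_insert_of_mem hq)).1).2 ?_
        rintro rfl
        exact hlS hq
    obtain ⟨u, v, huv⟩ := Nat.isCoprime_iff_coprime.2 hcop
    have hN : ∀ n : ℕ, n ∣ cc m * m * ∏ q ∈ S, q →
        (n : ℤ) ∣ ((cc m * m * ∏ q ∈ S, q : ℕ) : ℤ) * (v * (r - b)) := fun n hn =>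
      (Int.natCast_dvd_natCast.2 hn).mul_right _
    have key : ∀ (n x y : ℤ), n ∣ x - y → (¬ n ∣ y ∧ ¬ n ∣ 1 + m * (cc m * y) ^ 2) →
        (¬ n ∣ x ∧ ¬ n ∣ 1 + m * (cc m * x) ^ 2) := fun n x y hxy h => by
      refine ⟨fun h' => h.1 (by simpa using dvd_sub h' hxy), fun h' => h.2 ?_⟩
      have e : 1 + (m : ℤ) * (cc m * y) ^ 2 =
          1 + m * (cc m * x) ^ 2 - (x - y) * (m * cc m ^ 2 * (x + y)) := by ring
      rw [e]
      exact dvd_sub h' (hxy.mul_right _)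
    generalize ((cc m * m * ∏ q ∈ S, q : ℕ) : ℤ) = N at huv hN
    refine ⟨b + N * (v * (r - b)), ?_, ?_, fun q hq => ?_⟩
    · have e : b + N * (v * (r - b)) - 1 = b - 1 + N * (v * (r - b)) := by ring
      rw [e]
      exact dvd_add h1 (hN _ ((Dvd.intro _ rfl).mul_right _))
    · have e : (cc m : ℤ) * (b + N * (v * (r - b))) - 1 =
          cc m * b - 1 + cc m * (N * (v * (r - b))) := by ring
      rw [e]
      exact dvd_add h2 ((hN _ ((Dvd.intro_left _ rfl).mul_right _)).mul_left _)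
    · rcases mem_insert.1 hq with rfl | hq
      · exact key _ _ r ⟨u * (b - r), by linear_combination (r - b) * huv⟩ ⟨hr1, hr2⟩
      · refine key _ _ b ?_ (h3 q hq)
        rw [add_sub_cancel_left]
        exact hN _ ((dvd_prod_of_mem (fun q => q) hq).mul_left _)

/-- The slope of the base point can be chosen. -/
theorem exists_slope (hodd : m % 2 = 1) (hm : Smo Y m) :
    ∃ b : ℤ, Pure Y b ∧ (m : ℤ) ∣ cc m * b - 1 ∧ Pure Y (1 + m * (cc m * b) ^ 2) := by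
  obtain ⟨b, h1, h2, h3⟩ := slope_EGArith0 hodd
    ((range (Y + 1)).filter fun l => l.Prime ∧ 5 ≤ l ∧ ¬ l ∣ m) fun l hl => (mem_filter.1 hl).2
  have key : ∀ l : ℕ, l.Prime → l ≤ Y → ¬ (l : ℤ) ∣ b ∧ ¬ (l : ℤ) ∣ 1 + m * (cc m * b) ^ 2 := by
    intro l hl hY
    have one := not_dvd_one_EGArith0 hl
    rcases prime_dvd_or_EGArith0 m hl hY with h | h
    · rcases (Nat.Prime.dvd_mul hl).1 h with h | h
      · have h' : (l : ℤ) ∣ cc m := Int.natCast_dvd_natCast.2 h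
        refine ⟨fun hb => one (by simpa using dvd_sub hb (h'.trans h1)), fun hb => one ?_⟩
        exact (dvd_add_left ((dvd_pow (h'.mul_right b) two_ne_zero).mul_left _)).1 hb
      · obtain ⟨q, hq, hlq⟩ := (Prime.dvd_finsetProd_iff hl.prime _).1 h
        have := (Nat.prime_dvd_prime_iff_eq hl (mem_filter.1 hq).2.1).1 hlq
        subst this
        exact h3 l hq
    · have h' : (l : ℤ) ∣ m := Int.natCast_dvd_natCast.2 h
      refine ⟨fun hb => one (by simpa using dvd_sub (hb.mul_left (cc m : ℤ)) (h'.trans h2)),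
        fun hb => one ((dvd_add_left (h'.mul_right _)).1 hb)⟩
  exact ⟨b, fun l hl hY => (key l hl hY).1, h2, fun l hl hY => (key l hl hY).2⟩

/-- The residue of the partner coordinate. -/
theorem exists_partner (hodd : m % 2 = 1) (Y : ℕ) :
    ∃ ζ : O m, (QQ m Y : O m) ∣ ζ - rt m ∧ (m : O m) ^ 2 ∣ ζ - 1 := by
  obtain ⟨u, v, huv⟩ := (Nat.isCoprime_iff_coprime.2 (coprime_QQ hodd Y)).pow_right (n := 2)
  have h : (u : O m) * (QQ m Y : O m) + (v : O m) * (m : O m) ^ 2 = 1 := by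
    have := congrArg (Int.cast : ℤ → O m) huv
    push_cast at this
    exact this
  refine ⟨(u : O m) * (QQ m Y : O m) + (v : O m) * (m : O m) ^ 2 * rt m,
    ⟨(u : O m) * (1 - rt m), ?_⟩, ⟨(v : O m) * (rt m - 1), ?_⟩⟩
  · linear_combination rt m * h
  · linear_combination h

theorem norm_one_EGArith0 {z : O m} {l : ℕ} (hl : l.Prime) (h : (l : O m) ∣ z - 1) :
    ¬ (l : ℤ) ∣ z.norm := fun hn => by
  obtain ⟨h1, h2⟩ := (nat_dvd_iff _ _).1 h
  simp only [Zsqrtd.re_sub, Zsqrtd.im_sub, Zsqrtd.re_one, Zsqrtd.im_one, sub_zero] at h1 h2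
  have e : (1 : ℤ) = z.norm - (z.re - 1) * (z.re + 1) - z.im * (m * z.im) := by
    rw [norm_eq]; ring
  refine not_dvd_one_EGArith0 hl ?_
  rw [e]
  exact dvd_sub (dvd_sub hn (h1.mul_right _)) (h2.mul_right _)

theorem pure_partner (hodd : m % 2 = 1) {z : O m} (h1 : (QQ m Y : O m) ∣ z - rt m)
    (h2 : (m : O m) ^ 2 ∣ z - 1) : Pure Y z.norm := by
  intro l hl hY hn
  rcases prime_dvd_QQ_or m hl hY with h | h
  · obtain ⟨a1, a2⟩ := (nat_dvd_iff _ _).1 ((Nat.cast_dvd_cast h).trans h1)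
    simp only [Zsqrtd.re_sub, Zsqrtd.im_sub, rt, sub_zero] at a1 a2
    have e : (m : ℤ) = z.norm - z.re * z.re - (z.im - 1) * (m * (z.im + 1)) := by
      rw [norm_eq]; ring
    have h3 : (l : ℤ) ∣ m := by
      rw [e]
      exact dvd_sub (dvd_sub hn (a1.mul_right _)) (a2.mul_right _)
    exact hl.one_lt.ne' (Nat.eq_one_of_dvd_coprimes (coprime_QQ hodd Y) h
      (Int.natCast_dvd_natCast.1 h3))
  · exact norm_one_EGArith0 hl
      ((dvd_pow (Nat.cast_dvd_cast h) two_ne_zero).trans h2) hn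

theorem Pure.mul {a b : ℤ} (ha : Pure Y a) (hb : Pure Y b) : Pure Y (a * b) :=
  pure_mul_EGArith0 ha hb

theorem pure_of_one {z : O m} (h : (M1 m Y : O m) ∣ z - 1) : Pure Y z.norm :=
  fun _ hl hY => norm_one_EGArith0 hl ((Nat.cast_dvd_cast (prime_dvd_M1 m hl hY)).trans h)

end Pool.Agent.P.MP_b75a1e_co.EG
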