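import Pool.Agent.P.MP_b75a1e_co.EGBox

set_option autoImplicit false

open Finset
open scoped BigOperators ComplexConjugate

namespace Pool.Agent.P.MP_b75a1e_co.EG

theorem mem_of_dvd_EGAtom {S : Finset ℕ} (hS : ∀ l ∈ S, l.Prime) {l : ℕ} (hl : l.Prime)
    (h : (l : ℤ) ∣ ∏ q ∈ S, (q : ℤ)) : l ∈ S := by
  obtain ⟨q, hq, h1⟩ := (Prime.dvd_finsetProd_iff (Nat.prime_iff_prime_int.1 hl) _).1 h
  rwa [(Nat.prime_dvd_prime_iff_eq hl (hS q hq)).1 (Int.natCast_dvd_natCast.1 h1)]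

theorem prod_dvd_EGAtom {S : Finset ℕ} (hS : ∀ l ∈ S, l.Prime) {z : ℤ}
    (h : ∀ l ∈ S, (l : ℤ) ∣ z) : (∏ q ∈ S, (q : ℤ)) ∣ z :=
  Finset.prod_dvd_of_coprime (fun a ha b hb hab => Nat.isCoprime_iff_coprime.2
    ((Nat.coprime_primes (hS a ha) (hS b hb)).2 hab)) h

/-- Two sets in one class give an element of the order. -/
theorem pair_EGAtom {m : ℕ} {C S S' : Finset ℕ} (hC : ∀ l ∈ C, l.Prime ∧ ¬ l ∣ 2 * m) {r : ℕ → ℤ}
    (hr : ∀ l ∈ C, (l : ℤ) ∣ r l ^ 2 + m) (hS : S ⊆ C) (hS' : S' ⊆ C) {a b a' b' : ℤ} {c : ℕ}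
    (hc : 1 ≤ c) (hn : a ^ 2 + m * b ^ 2 = c * ∏ l ∈ S, (l : ℤ))
    (hn' : a' ^ 2 + m * b' ^ 2 = c * ∏ l ∈ S', (l : ℤ)) (hk : ∀ l ∈ S, (l : ℤ) ∣ a + b * r l)
    (hk' : ∀ l ∈ S', (l : ℤ) ∣ a' + b' * r l) (ha : (c : ℤ) ^ 2 * m ^ 2 ∣ a - a')
    (hb : (c : ℤ) ^ 2 * m ^ 2 ∣ b - b') (hcl : ∀ l, l ∣ c → (l ∈ S ↔ l ∈ S')) :
    ∃ x : O m, x.norm = ∏ l ∈ S \ S' ∪ S' \ S, (l : ℤ) ∧
      (m : ℤ) ^ 2 ∣ x.re - ∏ l ∈ S' \ S, (l : ℤ) ∧ (m : ℤ) ^ 2 ∣ x.im ∧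
      ∀ l ∈ S \ S' ∪ S' \ S, (l ∈ S ↔ (l : ℤ) ∣ x.re + x.im * r l) := by
  obtain ⟨u, hu⟩ := ha
  obtain ⟨v, hv⟩ := hb
  have hc0 : (c : ℤ) ≠ 0 := by exact_mod_cast (by omega : c ≠ 0)
  have pI : ∀ l ∈ S ∩ S', l.Prime := fun l hl => (hC l (hS (mem_inter.1 hl).1)).1
  have e1 : ∏ l ∈ S, (l : ℤ) = (∏ l ∈ S ∩ S', (l : ℤ)) * ∏ l ∈ S \ S', (l : ℤ) :=
    (prod_inter_mul_prod_sdiff S S' _).symm
  have e2 : ∏ l ∈ S', (l : ℤ) = (∏ l ∈ S ∩ S', (l : ℤ)) * ∏ l ∈ S' \ S, (l : ℤ) := by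
    rw [inter_comm]
    exact (prod_inter_mul_prod_sdiff S' S _).symm
  have e3 : ∏ l ∈ S \ S' ∪ S' \ S, (l : ℤ) = (∏ l ∈ S \ S', (l : ℤ)) * ∏ l ∈ S' \ S, (l : ℤ) :=
    prod_union disjoint_sdiff_sdiff
  obtain ⟨y0, y1, k0, k1, f0, f1, g0, g1⟩ : ∃ y0 y1 k0 k1 : ℤ,
      y0 = ∏ l ∈ S', (l : ℤ) + c * m ^ 2 * k0 ∧ y1 = c * m ^ 2 * k1 ∧
      c * y0 = a * a' + m * b * b' ∧ c * y1 = b * a' - a * b' :=
    ⟨_, _, u * a' + m * v * b', v * a' - u * b', rfl, rfl,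
      by linear_combination -hn' - a' * hu - m * b' * hv,
      by linear_combination -a' * hv + b' * hu⟩
  have dI : ∀ l ∈ S ∩ S', (l : ℤ) ∣ y0 ∧ (l : ℤ) ∣ y1 := by
    intro l hl
    obtain ⟨l1, l2⟩ := mem_inter.1 hl
    by_cases hlc : l ∣ c
    · have h1 : (l : ℤ) ∣ c := Int.natCast_dvd_natCast.2 hlc
      rw [f0, f1]
      exact ⟨(dvd_prod_of_mem _ l2).add ((h1.mul_right _).mul_right _),
        (h1.mul_right _).mul_right _⟩
    · have hp := Nat.prime_iff_prime_int.1 (pI l hl)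
      have h1 : ¬ (l : ℤ) ∣ c := fun h => hlc (Int.natCast_dvd_natCast.1 h)
      constructor
      · refine (hp.dvd_or_dvd (a := c) ?_).resolve_left h1
        rw [g0, show a * a' + m * b * b' = (a + b * r l) * a' - b * r l * (a' + b' * r l) +
          b * b' * (r l ^ 2 + m) by ring]
        exact (((hk l l1).mul_right _).sub ((hk' l l2).mul_left _)).add ((hr l (hS l1)).mul_left _)
      · refine (hp.dvd_or_dvd (a := c) ?_).resolve_left h1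
        rw [g1, show b * a' - a * b' = b * (a' + b' * r l) - b' * (a + b * r l) by ring]
        exact ((hk' l l2).mul_left _).sub ((hk l l1).mul_left _)
  obtain ⟨x0, hx0⟩ := prod_dvd_EGAtom pI fun l hl => (dI l hl).1
  obtain ⟨x1, hx1⟩ := prod_dvd_EGAtom pI fun l hl => (dI l hl).2
  have hI0 : ∏ l ∈ S ∩ S', (l : ℤ) ≠ 0 :=
    prod_ne_zero_iff.2 fun l hl => by exact_mod_cast (pI l hl).ne_zero
  have cop : IsCoprime ((m : ℤ) ^ 2) (∏ l ∈ S ∩ S', (l : ℤ)) := by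
    refine IsCoprime.prod_right fun l hl => IsCoprime.pow_left ?_
    refine Nat.isCoprime_iff_coprime.2 (((pI l hl).coprime_iff_not_dvd).2 fun h => ?_).symm
    exact (hC l (hS (mem_inter.1 hl).1)).2 (h.mul_left 2)
  have unit : ∀ l ∈ S \ S' ∪ S' \ S, ∀ z : ℤ, (l : ℤ) ∣ c * ((∏ l ∈ S ∩ S', (l : ℤ)) * z) →
      (l : ℤ) ∣ z := by
    intro l hl z hz
    have h1 : l ∈ C ∧ ¬ (l ∈ S ↔ l ∈ S') := by
      rcases mem_union.1 hl with h | h <;> obtain ⟨h2, h3⟩ := mem_sdiff.1 h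
      · exact ⟨hS h2, fun h4 => h3 (h4.1 h2)⟩
      · exact ⟨hS' h2, fun h4 => h3 (h4.2 h2)⟩
    have hp := Nat.prime_iff_prime_int.1 (hC l h1.1).1
    refine (hp.dvd_or_dvd ((hp.dvd_or_dvd hz).resolve_left fun h => h1.2
      (hcl l (Int.natCast_dvd_natCast.1 h)))).resolve_left fun h => ?_
    have h2 := mem_inter.1 (mem_of_dvd_EGAtom pI (hC l h1.1).1 h)
    exact h1.2 ⟨fun _ => h2.2, fun _ => h2.1⟩
  generalize ∏ l ∈ S ∩ S', (l : ℤ) = nI at *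
  have hN : x0 ^ 2 + m * x1 ^ 2 = ∏ l ∈ S \ S' ∪ S' \ S, (l : ℤ) := by
    rw [e3]
    refine mul_left_cancel₀ (pow_ne_zero 2 (mul_ne_zero hc0 hI0)) ?_
    rw [e1] at hn
    rw [e2] at hn'
    rw [hx0] at g0
    rw [hx1] at g1
    calc (c * nI) ^ 2 * (x0 ^ 2 + m * x1 ^ 2) = (c * (nI * x0)) ^ 2 + m * (c * (nI * x1)) ^ 2 := by
          ring
      _ = (a ^ 2 + m * b ^ 2) * (a' ^ 2 + m * b' ^ 2) := by rw [g0, g1]; ring
      _ = _ := by rw [hn, hn']; ring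
  refine ⟨⟨x0, x1⟩, by rw [norm_eq]; exact hN, cop.dvd_of_dvd_mul_left ⟨c * k0, ?_⟩,
    cop.dvd_of_dvd_mul_left ⟨c * k1, ?_⟩, fun l hl => ⟨fun h => unit l hl _ ?_, fun h => ?_⟩⟩
  · linear_combination f0 - hx0 + e2
  · linear_combination f1 - hx1
  · rw [show (c : ℤ) * (nI * (x0 + x1 * r l)) = (a' - b' * r l) * (a + b * r l) +
      b * b' * (r l ^ 2 + m) by linear_combination g0 + r l * g1 - c * hx0 - c * r l * hx1]
    exact ((hk l h).mul_left _).add ((hr l (hS h)).mul_left _)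
  · by_contra h0
    have l2 : l ∈ S' := by
      rcases mem_union.1 hl with h1 | h1
      · exact absurd (mem_sdiff.1 h1).1 h0
      · exact (mem_sdiff.1 h1).1
    have h' : (l : ℤ) ∣ x0 - x1 * r l := by
      refine unit l hl _ ?_
      rw [show (c : ℤ) * (nI * (x0 - x1 * r l)) = (a - b * r l) * (a' + b' * r l) +
        b * b' * (r l ^ 2 + m) by linear_combination g0 - r l * g1 - c * hx0 + c * r l * hx1]
      exact ((hk' l l2).mul_left _).add ((hr l (hS' l2)).mul_left _)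
    obtain ⟨hl1, hl2⟩ := hC l (hS' l2)
    have hp := Nat.prime_iff_prime_int.1 hl1
    have n2 : ¬ (l : ℤ) ∣ 2 := fun h1 => hl2 ((Int.natCast_dvd_natCast.1 h1).mul_right m)
    have nr : ¬ (l : ℤ) ∣ r l := fun h1 => hl2 (Dvd.dvd.mul_left (Int.natCast_dvd_natCast.1
      ((dvd_add_right (dvd_pow h1 two_ne_zero)).1 (hr l (hS' l2)))) 2)
    have d0 : (l : ℤ) ∣ x0 := by
      refine (hp.dvd_or_dvd (a := 2) ?_).resolve_left n2
      rw [show 2 * x0 = x0 + x1 * r l + (x0 - x1 * r l) by ring]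
      exact h.add h'
    have d1 : (l : ℤ) ∣ x1 := (hp.dvd_or_dvd ((dvd_add_right d0).1 h)).resolve_right nr
    have d2 : (l : ℤ) * l ∣ (l : ℤ) * ∏ q ∈ (S \ S' ∪ S' \ S).erase l, (q : ℤ) := by
      rw [mul_prod_erase _ (fun q : ℕ => (q : ℤ)) hl, ← hN, ← sq]
      exact (pow_dvd_pow_of_dvd d0 2).add ((pow_dvd_pow_of_dvd d1 2).mul_left _)
    have d3 := mem_of_dvd_EGAtom (fun q hq => by
      rcases mem_union.1 (mem_of_mem_erase hq) with h1 | h1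
      · exact (hC q (hS (mem_sdiff.1 h1).1)).1
      · exact (hC q (hS' (mem_sdiff.1 h1).1)).1) hl1
      ((mul_dvd_mul_iff_left hp.ne_zero).1 d2)
    exact notMem_erase l _ d3

/-- A large family of sets in one class. -/
theorem family_EGAtom {m p : ℕ} (hm : 2 ≤ m) (hmp : m ≤ 4 ^ p) (hp : 10 ^ 6 ≤ p) {C : Finset ℕ}
    (hC : ∀ l ∈ C, Split m l) (hc : C.card = p ^ 2) : ∃ (r : ℕ → ℤ) (K : Finset (Finset ℕ)),
      K ⊆ C.powerset ∧ 2 ^ (p ^ 2 - 30 * p) ≤ K.card ∧ ∀ S ∈ K, ∀ S' ∈ K,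
        ∃ x : O m, x.norm = ∏ l ∈ S \ S' ∪ S' \ S, (l : ℤ) ∧
          (m : ℤ) ^ 2 ∣ x.re - ∏ l ∈ S' \ S, (l : ℤ) ∧ (m : ℤ) ^ 2 ∣ x.im ∧
          ∀ l ∈ S \ S' ∪ S' \ S, (l ∈ S ↔ (l : ℤ) ∣ x.re + x.im * r l) := by
  choose! r hr using fun l hl => (hC l hl).2.2
  choose! w c c1 c2 hn hk using fun (S : Finset ℕ) (hS : S ⊆ C) =>
    thue (m := m) (by omega) S (fun l hl => (hC l (hS hl)).1) r fun l hl => hr l (hS hl)
  have hM : ∀ S ⊆ C, (0 : ℤ) < (c S : ℤ) ^ 2 * m ^ 2 ∧ (c S : ℤ) ^ 2 * m ^ 2 ≤ ((m + 2) ^ 4 : ℕ) := by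
    intro S hS
    have a1 : (1 : ℤ) ≤ c S := by exact_mod_cast c1 S hS
    have a2 : (c S : ℤ) ≤ m + 2 := by exact_mod_cast (c2 S hS).trans (Nat.le_succ _)
    have a3 : (2 : ℤ) ≤ m := by exact_mod_cast hm
    refine ⟨by positivity, ?_⟩
    push_cast
    rw [show ((m : ℤ) + 2) ^ 4 = (m + 2) ^ 2 * (m + 2) ^ 2 by ring]
    gcongr
    linarith
  have h30 : 30 * p ≤ p ^ 2 := by nlinarith
  obtain ⟨κ, -, hκ⟩ := exists_le_card_fiber_of_mul_le_card_of_maps_to (s := C.powerset)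
    (t := (range (m + 2) ×ˢ range (m + 2)) ×ˢ
      (Ico (0 : ℤ) ((m + 2) ^ 4 : ℕ) ×ˢ Ico (0 : ℤ) ((m + 2) ^ 4 : ℕ)))
    (f := fun S => ((c S, ∏ l ∈ S.filter (· ∣ c S), l), ((w S).re % ((c S : ℤ) ^ 2 * m ^ 2),
      (w S).im % ((c S : ℤ) ^ 2 * m ^ 2)))) (n := 2 ^ (p ^ 2 - 30 * p))
    (fun S hS => by
      have hS := mem_powerset.1 hS
      have a1 := c2 S hS
      have a2 : ∏ l ∈ S.filter (· ∣ c S), l ≤ c S := by
        refine Nat.le_of_dvd (c1 S hS) (Int.natCast_dvd_natCast.1 ?_)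
        rw [Nat.cast_prod]
        exact prod_dvd_EGAtom (fun l hl => (hC l (hS (mem_filter.1 hl).1)).1)
          fun l hl => Int.natCast_dvd_natCast.2 (mem_filter.1 hl).2
      obtain ⟨b1, b2⟩ := hM S hS
      simp only [mem_product, mem_range, mem_Ico]
      exact ⟨⟨by omega, by omega⟩, ⟨Int.emod_nonneg _ b1.ne', (Int.emod_lt_of_pos _ b1).trans_le b2⟩,
        Int.emod_nonneg _ b1.ne', (Int.emod_lt_of_pos _ b1).trans_le b2⟩)
    ⟨((0, 0), (0, 0)), by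
      simp only [mem_product, mem_range, mem_Ico]
      exact ⟨⟨by omega, by omega⟩, ⟨le_rfl, by positivity⟩, le_rfl, by positivity⟩⟩
    (by
      simp only [card_product, card_range, Int.card_Ico, sub_zero, Int.toNat_natCast,
        card_powerset, hc]
      have a1 : m + 2 ≤ 2 ^ (3 * p) := by
        have a2 : 4 ^ p * 2 ^ 1 ≤ 4 ^ p * 2 ^ p :=
          Nat.mul_le_mul_left _ (Nat.pow_le_pow_right two_pos (by omega))
        rw [pow_mul, show 2 ^ 3 = 4 * 2 by norm_num, mul_pow]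
        omega
      calc _ = (m + 2) ^ 10 * 2 ^ (p ^ 2 - 30 * p) := by ring
        _ ≤ (2 ^ (3 * p)) ^ 10 * 2 ^ (p ^ 2 - 30 * p) := by gcongr
        _ = 2 ^ p ^ 2 := by rw [← pow_mul, ← pow_add]; congr 1; omega)
  refine ⟨r, _, filter_subset _ _, hκ, fun S hS S' hS' => ?_⟩
  obtain ⟨h1, e1⟩ := mem_filter.1 hS
  obtain ⟨h2, e2⟩ := mem_filter.1 hS'
  rw [mem_powerset] at h1 h2
  have e := e1.trans e2.symm
  simp only [Prod.mk.injEq] at e
  obtain ⟨⟨f1, f2⟩, f3, f4⟩ := e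
  rw [← f1] at f2 f3 f4
  have key : ∀ A B : Finset ℕ, A ⊆ C → B ⊆ C → ∏ l ∈ A.filter (· ∣ c S), l =
      ∏ l ∈ B.filter (· ∣ c S), l → ∀ l, l ∣ c S → l ∈ A → l ∈ B := by
    intro A B hA hB h l hl hlA
    refine (mem_filter.1 (mem_of_dvd_EGAtom (S := B.filter (· ∣ c S))
      (fun q hq => (hC q (hB (mem_filter.1 hq).1)).1) (hC l (hA hlA)).1 ?_)).1
    rw [← Nat.cast_prod, ← h]
    exact Int.natCast_dvd_natCast.2 (dvd_prod_of_mem _ (mem_filter.2 ⟨hlA, hl⟩))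
  exact pair_EGAtom (fun l hl => ⟨(hC l hl).1, (hC l hl).2.1⟩) hr h1 h2 (c1 S h1)
    (by rw [← norm_eq]; exact hn S h1) (by rw [← norm_eq, f1]; exact hn S' h2) (hk S h1) (hk S' h2)
    (Int.ModEq.dvd f3.symm) (Int.ModEq.dvd f4.symm)
    fun l hl => ⟨key S S' h1 h2 f2 l hl, key S' S h2 h1 f2.symm l hl⟩

theorem prop_EGAtom {a b a' b' : Prop} (m1 : a ∧ ¬b ∨ b ∧ ¬a ↔ a' ∧ ¬b' ∨ b' ∧ ¬a')
    (m2 : a ∧ b ↔ a' ∧ b') (m3 : a ∧ ¬b ∨ b ∧ ¬a → (a ↔ a')) : (a ↔ a') ∧ (b ↔ b') := by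
  by_cases h1 : a <;> by_cases h2 : b <;> by_cases h3 : a' <;> by_cases h4 : b' <;> simp_all

/-- L1: a large box on a quarter of any given set of split primes. -/
theorem atom (m p : ℕ) (hm : 2 ≤ m) (hmp : m ≤ 4 ^ p) (hp : 10 ^ 6 ≤ p) (C : Finset ℕ)
    (hC : ∀ l ∈ C, Split m l) (hc : C.card = p ^ 2) :
    ∃ D ⊆ C, ∃ (ρ : ℤ) (E : Finset (O m)), Box m D ρ E ∧ p ^ 2 ≤ 4 * D.card ∧
      2 ^ (999 * D.card) ≤ E.card ^ 1000 := by
  classical
  by_contra h0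
  obtain ⟨r, K, hK, hcard, hx⟩ := family_EGAtom hm hmp hp hC hc
  choose! x x1 x2 x3 x4 using hx
  have hm2 : (0 : ℤ) < (m : ℤ) ^ 2 := by positivity
  have sub : ∀ S ∈ K, S ⊆ C := fun S hS => mem_powerset.1 (hK hS)
  have subD : ∀ q ∈ K ×ˢ K, q.1 \ q.2 ∪ q.2 \ q.1 ⊆ C := fun q hq =>
    union_subset (sdiff_subset.trans (sub _ (mem_product.1 hq).1))
      (sdiff_subset.trans (sub _ (mem_product.1 hq).2))
  have hL : ((K ×ˢ K).filter fun q => ¬ 4 * (q.1 \ q.2 ∪ q.2 \ q.1).card < C.card).card ≤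
      2 ^ p ^ 2 * m ^ 2 / 2 ^ (64 * p + 2) * C.powerset.card := by
    refine card_le_mul_card_image_of_maps_to (f := fun q => q.1 \ q.2 ∪ q.2 \ q.1)
      (fun q hq => mem_powerset.2 (subD q (mem_filter.1 hq).1)) _ fun D hD => ?_
    rw [mem_powerset] at hD
    refine (card_le_mul_card_image_of_maps_to
      (f := fun q : Finset ℕ × Finset ℕ =>
        (q.1 ∩ q.2, (∏ l ∈ q.2 \ q.1, ((l : ℕ) : ℤ)) % (m : ℤ) ^ 2))
      (t := (C \ D).powerset ×ˢ Ico (0 : ℤ) ((m ^ 2 : ℕ) : ℤ)) (fun q hq => ?_)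
      (2 ^ D.card / 2 ^ (64 * p + 2)) fun y _ => ?_).trans ?_
    · obtain ⟨h1, h2⟩ := mem_filter.1 hq
      refine mem_product.2 ⟨mem_powerset.2 fun l hl => mem_sdiff.2
        ⟨sub _ (mem_product.1 (mem_filter.1 h1).1).1 (mem_inter.1 hl).1, ?_⟩, mem_Ico.2
        ⟨Int.emod_nonneg _ hm2.ne', by exact_mod_cast Int.emod_lt_of_pos _ hm2⟩⟩
      rw [← h2]
      simp only [mem_inter] at hl
      simp [hl.1, hl.2]
    · set P := ((((K ×ˢ K).filter fun q => ¬ 4 * (q.1 \ q.2 ∪ q.2 \ q.1).card < C.card).filter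
        fun q => q.1 \ q.2 ∪ q.2 \ q.1 = D).filter
        fun q : Finset ℕ × Finset ℕ =>
          (q.1 ∩ q.2, (∏ l ∈ q.2 \ q.1, ((l : ℕ) : ℤ)) % (m : ℤ) ^ 2) = y) with hP
      have mP : ∀ q ∈ P, q.1 ∈ K ∧ q.2 ∈ K ∧ p ^ 2 ≤ 4 * D.card ∧ q.1 \ q.2 ∪ q.2 \ q.1 = D ∧
          q.1 ∩ q.2 = y.1 ∧ (∏ l ∈ q.2 \ q.1, (l : ℤ)) % (m : ℤ) ^ 2 = y.2 := by
        intro q hq
        simp only [hP, mem_filter, mem_product] at hq
        obtain ⟨⟨⟨⟨a1, a2⟩, a3⟩, a4⟩, a5⟩ := hq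
        rw [a4, hc] at a3
        exact ⟨a1, a2, not_lt.1 a3, a4, congrArg Prod.fst a5, congrArg Prod.snd a5⟩
      rcases P.eq_empty_or_nonempty with h | ⟨q₀, hq₀⟩
      · rw [h]
        exact Nat.zero_le _
      have h4 := (mP q₀ hq₀).2.2.1
      have inj : Set.InjOn (fun q : Finset ℕ × Finset ℕ => x q.1 q.2) P := by
        intro q hq q' hq' e
        obtain ⟨a1, a2, -, a4, a5, -⟩ := mP q hq
        obtain ⟨b1, b2, -, b4, b5, -⟩ := mP q' hq'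
        have k1 := x4 _ a1 _ a2
        have k2 := x4 _ b1 _ b2
        simp only [] at e
        rw [a4, e] at k1
        rw [b4] at k2
        have k3 : ∀ l, (l ∈ q.1 ↔ l ∈ q'.1) ∧ (l ∈ q.2 ↔ l ∈ q'.2) := by
          intro l
          have m1 := Finset.ext_iff.1 (a4.trans b4.symm) l
          have m2 := Finset.ext_iff.1 (a5.trans b5.symm) l
          have m3 : l ∈ q.1 \ q.2 ∪ q.2 \ q.1 → (l ∈ q.1 ↔ l ∈ q'.1) := fun hl =>
            (k1 l (a4 ▸ hl)).trans (k2 l (a4 ▸ hl)).symm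
          simp only [mem_union, mem_sdiff, mem_inter] at m1 m2 m3
          exact prop_EGAtom m1 m2 m3
        exact Prod.ext (Finset.ext fun l => (k3 l).1) (Finset.ext fun l => (k3 l).2)
      have hB : Box m D y.2 (P.image fun q => x q.1 q.2) := by
        constructor
        · intro z hz
          obtain ⟨q, hq, rfl⟩ := mem_image.1 hz
          obtain ⟨a1, a2, -, a4, -⟩ := mP q hq
          rw [x1 _ a1 _ a2, a4]
        · intro z hz
          obtain ⟨q, hq, rfl⟩ := mem_image.1 hz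
          obtain ⟨a1, a2, -, -, -, a6⟩ := mP q hq
          rw [← Nat.cast_pow, nat_dvd_iff]
          simp only [Zsqrtd.re_sub, Zsqrtd.im_sub, Zsqrtd.re_intCast, Zsqrtd.im_intCast, sub_zero,
            Nat.cast_pow]
          refine ⟨?_, x3 _ a1 _ a2⟩
          rw [← a6, ← sub_add_sub_cancel _ (∏ l ∈ q.2 \ q.1, (l : ℤ))]
          exact (x2 _ a1 _ a2).add Int.dvd_self_sub_emod
      have h5 : P.card ^ 1000 < 2 ^ (999 * D.card) := by
        rw [← card_image_of_injOn inj]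
        exact not_le.1 fun h => h0 ⟨D, hD, _, _, hB, h4, h⟩
      refine (Nat.le_div_iff_mul_le (by positivity)).2
        ((Nat.pow_le_pow_iff_left (n := 1000) (by norm_num)).1 ?_)
      rw [mul_pow, ← pow_mul, ← pow_mul]
      refine (Nat.mul_le_mul_right _ h5.le).trans ?_
      rw [← pow_add]
      exact Nat.pow_le_pow_right two_pos (by nlinarith)
    · refine (Nat.le_div_iff_mul_le (by positivity)).2 ?_
      rw [card_product, card_powerset, Int.card_Ico, sub_zero, Int.toNat_natCast,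
        card_sdiff_of_subset hD, hc, mul_right_comm, ← mul_assoc]
      refine Nat.mul_le_mul_right _ ((Nat.mul_le_mul_right _ (Nat.div_mul_le_self _ _)).trans ?_)
      rw [← pow_add, Nat.add_sub_cancel' (hc ▸ card_le_card hD)]
  have hS : ((K ×ˢ K).filter fun q => 4 * (q.1 \ q.2 ∪ q.2 \ q.1).card < C.card).card ≤
      (C.powerset.filter fun D => 4 * D.card < C.card).card * C.powerset.card := by
    rw [← card_product]
    refine card_le_card_of_injOn (fun q => (q.1 \ q.2 ∪ q.2 \ q.1, q.1)) (fun q hq => ?_)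
      fun q _ q' _ e => ?_
    · obtain ⟨h1, h2⟩ := mem_filter.1 (mem_coe.1 hq)
      exact mem_coe.2 (mem_product.2 ⟨mem_filter.2 ⟨mem_powerset.2 (subD q h1), h2⟩,
        hK (mem_product.1 h1).1⟩)
    · simp only [Prod.mk.injEq] at e
      refine Prod.ext e.2 (Finset.ext fun l => ?_)
      have m1 := Finset.ext_iff.1 e.1 l
      have m2 := Finset.ext_iff.1 e.2 l
      simp only [mem_union, mem_sdiff] at m1
      rw [m2] at m1
      by_cases h1 : l ∈ q'.1 <;> simpa [h1, not_iff_not] using m1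
  have hs := small_subsets C
  have tot := card_filter_add_card_filter_not (s := K ×ˢ K)
    fun q => 4 * (q.1 \ q.2 ∪ q.2 \ q.1).card < C.card
  rw [card_product] at tot
  rw [card_powerset] at hL hS
  generalize (C.powerset.filter fun D => 4 * D.card < C.card).card = s at hs hS
  generalize ((K ×ˢ K).filter fun q => 4 * (q.1 \ q.2 ∪ q.2 \ q.1).card < C.card).card = A
    at hS tot
  generalize ((K ×ˢ K).filter fun q => ¬ 4 * (q.1 \ q.2 ∪ q.2 \ q.1).card < C.card).card = B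
    at hL tot
  rw [hc] at hs hL hS
  obtain ⟨v, hv⟩ : ∃ v, p ^ 2 = 6 * (60 * p + 2) + v := Nat.exists_eq_add_of_le (by nlinarith)
  have s1 : s * 2 ^ (60 * p + 2) ≤ 2 ^ p ^ 2 := by
    have a1 : (s : ℝ) ≤ 2 ^ (5 * (60 * p + 2) + v) := by
      refine hs.trans ?_
      rw [hv, pow_add, pow_add, pow_mul, pow_mul (2 : ℝ) 5]
      gcongr <;> norm_num
    have a2 : s ≤ 2 ^ (5 * (60 * p + 2) + v) := by exact_mod_cast a1
    refine (Nat.mul_le_mul_right _ a2).trans ?_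
    rw [← pow_add]
    exact Nat.pow_le_pow_right two_pos (by omega)
  have s2 : 2 ^ p ^ 2 * m ^ 2 / 2 ^ (64 * p + 2) * 2 ^ (60 * p + 2) ≤ 2 ^ p ^ 2 := by
    refine Nat.le_of_mul_le_mul_right (c := 2 ^ (4 * p)) ?_ (by positivity)
    rw [mul_assoc, ← pow_add, show 60 * p + 2 + 4 * p = 64 * p + 2 by ring]
    refine (Nat.div_mul_le_self _ _).trans (Nat.mul_le_mul_left _ ?_)
    rw [show 4 * p = 2 * p * 2 by ring, pow_mul, pow_mul]
    exact Nat.pow_le_pow_left hmp 2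
  have s3 : 2 ^ p ^ 2 ≤ K.card * 2 ^ (30 * p) := by
    refine le_trans (le_of_eq ?_) (Nat.mul_le_mul_right _ hcard)
    rw [← pow_add, Nat.sub_add_cancel (by omega)]
  have s4 : 2 ^ (60 * p + 2) = 4 * (2 ^ (30 * p) * 2 ^ (30 * p)) := by ring
  have s5 : 0 < 2 ^ p ^ 2 := by positivity
  rw [s4] at s1 s2
  generalize 2 ^ p ^ 2 * m ^ 2 / 2 ^ (64 * p + 2) = b at hL s2
  generalize 2 ^ p ^ 2 = T at *
  generalize 2 ^ (30 * p) = G at *
  have t1 : T * T ≤ (A + B) * (G * G) := by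
    rw [tot]
    calc T * T ≤ K.card * G * (K.card * G) := Nat.mul_le_mul s3 s3
      _ = _ := by ring
  have t2 : A * (4 * (G * G)) ≤ T * T := by
    calc A * (4 * (G * G)) ≤ s * T * (4 * (G * G)) := Nat.mul_le_mul_right _ hS
      _ = s * (4 * (G * G)) * T := by ring
      _ ≤ T * T := Nat.mul_le_mul_right _ s1
  have t3 : B * (4 * (G * G)) ≤ T * T := by
    calc B * (4 * (G * G)) ≤ b * T * (4 * (G * G)) := Nat.mul_le_mul_right _ hL
      _ = b * (4 * (G * G)) * T := by ring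
      _ ≤ T * T := Nat.mul_le_mul_right _ s2
  nlinarith [Nat.mul_pos s5 s5]

end Pool.Agent.P.MP_b75a1e_co.EG
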