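import Pool.Agent.P.MP_b75a1e_co.EGBasic0

set_option autoImplicit false

open Finset
open scoped BigOperators ComplexConjugate

namespace Pool.Agent.P.MP_b75a1e_co.EG

variable {m : ℕ}

lemma pr_zero_EGBasic (θ : ℂ) : pr m θ 0 = 0 := by simp [pr]

lemma pr_sum_EGBasic {ι : Type} (s : Finset ι) (θ : ℂ) (f : ι → ℂ) :
    pr m θ (∑ i ∈ s, f i) = ∑ i ∈ s, pr m θ (f i) := by
  classical
  induction s using Finset.induction_on with
  | empty => simp [pr_zero_EGBasic]
  | insert a s ha ih => rw [sum_insert ha, sum_insert ha, pr_add_right, ih]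

lemma expect_pi_EGBasic {K : Type} [Field K] [CharZero K] {ι : Type} [Fintype ι] [DecidableEq ι]
    {Ω : ι → Type} [∀ i, Fintype (Ω i)] (f : ∀ i, Ω i → K) :
    𝔼 ω : ∀ i, Ω i, ∏ i, f i (ω i) = ∏ i, 𝔼 x, f i x := by
  simp only [Fintype.expect_eq_sum_div_card, prod_div_distrib, Fintype.card_pi, Nat.cast_prod]
  rw [Fintype.prod_sum]

lemma expect_update_EGBasic {K : Type} [Field K] [CharZero K] {ι α : Type} [Fintype ι]
    [DecidableEq ι] [Fintype α] [Nonempty α] (f : (ι → α) → K) (j : ι) :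
    𝔼 t : ι → α, f t = 𝔼 t : ι → α, 𝔼 v : α, f (Function.update t j v) := by
  have hc : (Fintype.card α : K) ≠ 0 := Nat.cast_ne_zero.2 Fintype.card_ne_zero
  let e : (ι → α) × α → (ι → α) × α := fun q => (Function.update q.1 j q.2, q.1 j)
  have he : Function.Involutive e := fun q => by simp [e]
  have h : ∑ t : ι → α, ∑ v : α, f (Function.update t j v) = ∑ t : ι → α, ∑ _v : α, f t := by
    rw [← Fintype.sum_prod_type', ← Fintype.sum_prod_type']
    exact Fintype.sum_bijective e he.bijective _ _ fun _ => rfl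
  simp only [Fintype.expect_eq_sum_div_card]
  rw [← sum_div, h]
  simp only [sum_const, card_univ, nsmul_eq_mul]
  rw [← mul_sum, mul_div_cancel_left₀ _ hc]

theorem norm_ch_le {Ω : Type} [Fintype Ω] (X : Ω → O m) (θ : ℂ) : ‖ch X θ‖ ≤ 1 := by
  unfold ch
  rw [Fintype.expect_eq_sum_div_card, norm_div, Complex.norm_natCast]
  refine div_le_one_of_le₀ ((norm_sum_le _ _).trans ?_) (Nat.cast_nonneg _)
  simp [norm_ee]

theorem ch_zero {Ω : Type} [Fintype Ω] [Nonempty Ω] (X : Ω → O m) : ch X 0 = 1 := by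
  simp [ch, pr, ee_zero]

theorem ch_period (hm : 1 ≤ m) {Ω : Type} [Fintype Ω] (X : Ω → O m) (θ : ℂ) (a : O m) :
    ch X (θ + ph m a) = ch X θ := by
  unfold ch
  refine expect_congr rfl fun ω _ => ?_
  have h := pr_ph_div hm a (X ω) 1
  rw [Complex.ofReal_one, div_one, div_one] at h
  rw [pr_add_left, ee_add, h, ee_int, mul_one]

theorem ch_mul {Ω : Type} [Fintype Ω] (X : Ω → O m) (g : O m) (θ : ℂ) :
    ch (fun ω => g * X ω) θ = ch X (θ * ph m g) := by
  simp only [ch, map_mul, pr_mul]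

theorem norm_ch_sub_const {Ω : Type} [Fintype Ω] (X : Ω → O m) (c : O m) (θ : ℂ) :
    ‖ch (fun ω => X ω - c) θ‖ = ‖ch X θ‖ := by
  have h : ch (fun ω => X ω - c) θ = ch X θ * ee (-pr m θ (ph m c)) := by
    simp only [ch, map_sub, pr_sub_right, expect_mul]
    simp only [sub_eq_add_neg, ee_add]
  rw [h, norm_mul, norm_ee, mul_one]

theorem norm_ch_dv (hm : 1 ≤ m) {Ω : Type} [Fintype Ω] (X : Ω → O m) (c : O m)
    (h : ∀ ω, mu m ∣ X ω - c) (θ : ℂ) :
    ‖ch (fun ω => dv (X ω - c)) θ‖ = ‖ch X (θ / ph m (mu m))‖ := by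
  have h0 := ph_ne_zero hm (mu_ne_zero hm)
  have e := ch_mul (fun ω => dv (X ω - c)) (mu m) (θ / ph m (mu m))
  rw [div_mul_cancel₀ _ h0] at e
  rw [← e, ← norm_ch_sub_const X c]
  simp only [mu_mul_dv (h _)]

theorem ch_star {Ω : Type} [Fintype Ω] (X : Ω → O m) (θ : ℂ) :
    ch (fun ω => star (X ω)) θ = ch X (-conj θ) := by
  have e : ∀ z, pr m (-conj θ) z = -pr m (conj θ) z := fun z => by
    rw [pr, pr, neg_mul, Complex.neg_im, neg_div]
  simp only [ch, ph_star, pr_conj, e]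

theorem ch_star_mu {Ω : Type} [Fintype Ω] (X : Ω → O m) (θ : ℂ) :
    ch (fun ω => star (X ω)) (θ / ph m (mu m)) = ch X (conj θ / ph m (mu m)) := by
  rw [ch_star, map_div₀, ← ph_star, star_mu, map_neg, div_neg, neg_neg]

theorem ch_prod {Ω Ω' : Type} [Fintype Ω] [Fintype Ω'] (X : Ω → O m) (X' : Ω' → O m) (θ : ℂ) :
    ch (fun q : Ω × Ω' => X q.1 + X' q.2) θ = ch X θ * ch X' θ := by
  simp only [ch, map_add, pr_add_right, ee_add]
  rw [expect_mul_expect, ← univ_product_univ, expect_product]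

theorem ch_pi {ι : Type} [Fintype ι] [DecidableEq ι] {Ω : ι → Type} [∀ i, Fintype (Ω i)]
    (X : ∀ i, Ω i → O m) (θ : ℂ) :
    ch (fun ω : ∀ i, Ω i => ∑ i, X i (ω i)) θ = ∏ i, ch (X i) θ := by
  simp only [ch, map_sum, pr_sum_EGBasic, ee_sum]
  exact expect_pi_EGBasic fun i x => ee (pr m θ (ph m (X i x)))

theorem norm_ch_sq {Ω : Type} [Fintype Ω] (X : Ω → O m) (θ : ℂ) :
    ((‖ch X θ‖ ^ 2 : ℝ) : ℂ) = 𝔼 q : Ω × Ω, ee (pr m θ (ph m (X q.1 - X q.2))) := by
  have h : conj (ch X θ) = 𝔼 ω, ee (-pr m θ (ph m (X ω))) := by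
    simp only [ch, Fintype.expect_eq_sum_div_card, map_div₀, map_sum, map_natCast, ee_neg]
  rw [Complex.ofReal_pow, ← Complex.mul_conj', h, ch, expect_mul_expect, ← univ_product_univ,
    expect_product]
  simp only [map_sub, pr_sub_right]
  simp only [sub_eq_add_neg, ee_add]

/-- Independence. -/
theorem expect_pi_prod {ι : Type} [Fintype ι] [DecidableEq ι] {Ω : ι → Type} [∀ i, Fintype (Ω i)]
    (f : ∀ i, Ω i → ℝ) : 𝔼 ω : ∀ i, Ω i, ∏ i, f i (ω i) = ∏ i, 𝔼 x, f i x :=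
  expect_pi_EGBasic f

/-- Conditioning on all coordinates but one. -/
theorem expect_update {ι α : Type} [Fintype ι] [DecidableEq ι] [Fintype α] [Nonempty α]
    (f : (ι → α) → ℝ) (j : ι) :
    𝔼 t : ι → α, f t = 𝔼 t : ι → α, 𝔼 v : α, f (Function.update t j v) :=
  expect_update_EGBasic f j

theorem expect_update_c {ι α : Type} [Fintype ι] [DecidableEq ι] [Fintype α] [Nonempty α]
    (f : (ι → α) → ℂ) (j : ι) :
    𝔼 t : ι → α, f t = 𝔼 t : ι → α, 𝔼 v : α, f (Function.update t j v) :=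
  expect_update_EGBasic f j

theorem norm_cube {r : ℕ} (z : Fin r → O m) (ε : Fin r → Bool) : (cube z ε).norm = (base z).norm := by
  unfold base cube
  rw [norm_prod', norm_prod']
  refine prod_congr rfl fun i _ => ?_
  cases ε i <;> simp

theorem norm_base {r : ℕ} (z : Fin r → O m) : (base z).norm = ∏ i, (z i).norm := by
  unfold base cube
  rw [norm_prod']
  simp

lemma dvd_prod_sub_EGBasic {ι : Type} (s : Finset ι) (a : O m) (f g : ι → O m)
    (h : ∀ i ∈ s, a ∣ f i - g i) : a ∣ ∏ i ∈ s, f i - ∏ i ∈ s, g i := by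
  classical
  induction s using Finset.induction_on with
  | empty => simp
  | insert j s hj ih =>
    rw [prod_insert hj, prod_insert hj]
    have e : f j * ∏ i ∈ s, f i - g j * ∏ i ∈ s, g i =
        (f j - g j) * ∏ i ∈ s, f i + g j * (∏ i ∈ s, f i - ∏ i ∈ s, g i) := by ring
    rw [e]
    exact ((h j (mem_insert_self _ _)).mul_right _).add
      ((ih fun i hi => h i (mem_insert_of_mem hi)).mul_left _)

theorem dvd_cube_sub {r : ℕ} (z : Fin r → O m) (a : O m) (h : ∀ i, a ∣ z i - star (z i))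
    (ε : Fin r → Bool) : a ∣ cube z ε - base z := by
  refine dvd_prod_sub_EGBasic _ a _ _ fun i _ => ?_
  cases ε i
  · simp
  · simpa using h i

theorem dvd_base_sub_one {r : ℕ} (z : Fin r → O m) (n : ℕ) (h : ∀ i, (n : O m) ∣ z i - 1) :
    (n : O m) ∣ base z - 1 := by
  have := dvd_prod_sub_EGBasic univ (n : O m) (fun i => star (z i)) (fun _ => 1) fun i _ => by
    simpa using dvd_star (h i)
  simpa [base, cube] using this

lemma prod_close_EGBasic {ι : Type} (s : Finset ι) (f g : ι → ℂ) (η : ℝ)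
    (h1 : ∀ i, ‖f i‖ = ‖g i‖) (h2 : ∀ i, ‖f i - g i‖ ≤ η * ‖g i‖) :
    ‖∏ i ∈ s, f i - ∏ i ∈ s, g i‖ ≤ s.card * η * ‖∏ i ∈ s, g i‖ := by
  classical
  induction s using Finset.induction_on with
  | empty => simp
  | insert j s hj ih =>
    rw [prod_insert hj, prod_insert hj, card_insert_of_notMem hj]
    have e : f j * ∏ i ∈ s, f i - g j * ∏ i ∈ s, g i =
        (f j - g j) * ∏ i ∈ s, g i + f j * (∏ i ∈ s, f i - ∏ i ∈ s, g i) := by ring
    rw [e]
    refine (norm_add_le _ _).trans ?_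
    rw [norm_mul, norm_mul, norm_mul, h1 j]
    have a1 := mul_le_mul_of_nonneg_right (h2 j) (norm_nonneg (∏ i ∈ s, g i))
    have a2 := mul_le_mul_of_nonneg_left ih (norm_nonneg (g j))
    push_cast
    linarith

theorem cube_close {r : ℕ} (z : Fin r → O m) (η : ℝ) (hη : 0 ≤ η)
    (h : ∀ i, ‖ph m (z i - star (z i))‖ ≤ η * ‖ph m (z i)‖) (ε : Fin r → Bool) :
    ‖ph m (cube z ε - base z)‖ ≤ r * η * ‖ph m (base z)‖ := by
  have hs : ∀ x : O m, ‖ph m (star x)‖ = ‖ph m x‖ := fun x => by rw [ph_star, Complex.norm_conj]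
  have := prod_close_EGBasic univ (fun i => ph m (if ε i then z i else star (z i)))
    (fun i => ph m (star (z i))) η (fun i => by cases ε i <;> simp [hs]) fun i => by
      cases ε i
      · simpa using mul_nonneg hη (norm_nonneg _)
      · simpa [hs] using h i
  simpa [base, cube, map_prod] using this

theorem SumOf.add {n : ℤ} {k k' : ℕ} {y y' : O m} (h : SumOf n k y) (h' : SumOf n k' y') :
    SumOf n (k + k') (y + y') := by
  obtain ⟨L, rfl, a, rfl⟩ := h
  obtain ⟨L', rfl, a', rfl⟩ := h'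
  exact ⟨L + L', Multiset.card_add _ _, fun x hx => (Multiset.mem_add.1 hx).elim (a x) (a' x),
    Multiset.sum_add _ _⟩

theorem SumOf.single {n : ℤ} {y : O m} (h : y.norm = n) : SumOf n 1 y :=
  ⟨{y}, rfl, fun _ hx => Multiset.mem_singleton.1 hx ▸ h, Multiset.sum_singleton y⟩

theorem SumOf.smul {n : ℤ} {y : O m} (h : y.norm = n) (k : ℕ) : SumOf n k ((k : O m) * y) :=
  ⟨Multiset.replicate k y, Multiset.card_replicate _ _,
    fun _ hx => Multiset.eq_of_mem_replicate hx ▸ h, by rw [Multiset.sum_replicate, nsmul_eq_mul]⟩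

theorem SumOf.mul_left {n : ℤ} {k : ℕ} {y : O m} (h : SumOf n k y) (g : O m) :
    SumOf (g.norm * n) k (g * y) := by
  obtain ⟨L, rfl, a, rfl⟩ := h
  refine ⟨L.map fun x => g * x, Multiset.card_map _ _, fun x hx => ?_, ?_⟩
  · obtain ⟨u, hu, rfl⟩ := Multiset.mem_map.1 hx
    rw [Zsqrtd.norm_mul, a u hu]
  · rw [Multiset.sum_map_mul_left, Multiset.map_id']

theorem SumOf.conj {n : ℤ} {k : ℕ} {y : O m} (h : SumOf n k y) : SumOf n k (star y) := by
  obtain ⟨L, rfl, a, rfl⟩ := h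
  refine ⟨L.map star, Multiset.card_map _ _, fun x hx => ?_, ?_⟩
  · obtain ⟨u, hu, rfl⟩ := Multiset.mem_map.1 hx
    rw [Zsqrtd.norm_conj, a u hu]
  · exact (map_multiset_sum (starAddEquiv (R := O m)) L).symm

theorem SumOf.sum {ι : Type} (s : Finset ι) {n : ℤ} {k : ℕ} {y : ι → O m}
    (h : ∀ i ∈ s, SumOf n k (y i)) : SumOf n (s.card * k) (∑ i ∈ s, y i) := by
  classical
  induction s using Finset.induction_on with
  | empty => exact ⟨0, by simp, by simp, by simp⟩
  | insert j s hj ih =>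
    rw [sum_insert hj, card_insert_of_notMem hj, add_mul, one_mul, add_comm (s.card * k)]
    exact (h j (mem_insert_self _ _)).add (ih fun i hi => h i (mem_insert_of_mem hi))

theorem SumOf.norm_le {n : ℤ} {k : ℕ} {y : O m} (h : SumOf n k y) :
    ‖ph m y‖ ≤ k * Real.sqrt n := by
  obtain ⟨L, rfl, a, rfl⟩ := h
  induction L using Multiset.induction_on with
  | empty => simp
  | cons x L ih =>
    have h1 : ‖ph m x‖ = Real.sqrt n := by
      rw [← a x (Multiset.mem_cons_self _ _), ← norm_sq_ph, Real.sqrt_sq (norm_nonneg _)]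
    have h2 := ih fun u hu => a u (Multiset.mem_cons_of_mem hu)
    rw [Multiset.sum_cons, map_add, Multiset.card_cons]
    refine (norm_add_le _ _).trans ?_
    push_cast
    linarith

theorem SumOf.rep {n : ℤ} {k : ℕ} {y : O m} (h : SumOf n k y) : Rep m n k (ph m y) := by
  obtain ⟨L, rfl, a, rfl⟩ := h
  refine ⟨L.map (ph m), Multiset.card_map _ _, fun x hx => ?_, (map_multiset_sum (ph m) L).symm⟩
  obtain ⟨u, hu, rfl⟩ := Multiset.mem_map.1 hx
  exact ⟨⟨u, 1, one_ne_zero, by simp⟩, by rw [norm_sq_ph, a u hu]⟩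

theorem Rep.add {N : ℝ} {k k' : ℕ} {y y' : ℂ} (h : Rep m N k y) (h' : Rep m N k' y') :
    Rep m N (k + k') (y + y') := by
  obtain ⟨L, rfl, a, rfl⟩ := h
  obtain ⟨L', rfl, a', rfl⟩ := h'
  exact ⟨L + L', Multiset.card_add _ _, fun x hx => (Multiset.mem_add.1 hx).elim (a x) (a' x),
    Multiset.sum_add _ _⟩

end Pool.Agent.P.MP_b75a1e_co.EG
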