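import Pool.Agent.P.MP_b75a1e_co.EGDefs

set_option autoImplicit false

open Finset
open scoped BigOperators ComplexConjugate

namespace Pool.Agent.P.MP_b75a1e_co.EG

variable {m : ℕ}

theorem ph_re (x : O m) : (ph m x).re = x.re := by
  simp [ph, Zsqrtd.lift]

theorem ph_im (x : O m) : (ph m x).im = x.im * Real.sqrt m := by
  simp [ph, Zsqrtd.lift]

theorem ph_star (x : O m) : ph m (star x) = conj (ph m x) := by
  apply Complex.ext <;> simp [ph_re, ph_im]

theorem norm_eq (x : O m) : x.norm = x.re ^ 2 + m * x.im ^ 2 := by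
  rw [Zsqrtd.norm_def]; ring

theorem norm_nonneg' (x : O m) : 0 ≤ x.norm := by
  rw [norm_eq]; positivity

theorem norm_sq_ph (x : O m) : ‖ph m x‖ ^ 2 = (x.norm : ℝ) := by
  rw [← Complex.normSq_eq_norm_sq, Complex.normSq_apply, ph_re, ph_im, norm_eq]
  have := Real.mul_self_sqrt (Nat.cast_nonneg (α := ℝ) m)
  push_cast
  linear_combination (x.im : ℝ) ^ 2 * this

theorem norm_pos' (hm : 1 ≤ m) {x : O m} (hx : x ≠ 0) : 1 ≤ x.norm := by
  have h1 := norm_nonneg' x
  have h2 : x.norm ≠ 0 := fun h => hx ((Zsqrtd.norm_eq_zero_iff (by omega) x).1 h)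
  omega

theorem ph_ne_zero (hm : 1 ≤ m) {x : O m} (hx : x ≠ 0) : ph m x ≠ 0 := by
  intro h
  have h1 := norm_sq_ph x
  rw [h, norm_zero] at h1
  have h2 : (1 : ℝ) ≤ x.norm := by exact_mod_cast norm_pos' hm hx
  linarith

theorem ph_inj (hm : 1 ≤ m) : Function.Injective (ph m) := by
  intro x y h
  by_contra hne
  exact ph_ne_zero hm (sub_ne_zero.2 hne) (by rw [map_sub, h, sub_self])

theorem eq_zero_of_norm_lt (hm : 1 ≤ m) {x : O m} (hx : ‖ph m x‖ < 1) : x = 0 := by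
  by_contra h
  have h2 : (1 : ℝ) ≤ x.norm := by exact_mod_cast norm_pos' hm h
  have h1 := norm_sq_ph x
  nlinarith [norm_nonneg (ph m x)]

theorem o_cancel (hm : 1 ≤ m) {a x y : O m} (ha : a ≠ 0) (h : a * x = a * y) : x = y := by
  apply ph_inj hm
  have := congrArg (ph m) h
  rw [map_mul, map_mul] at this
  exact mul_left_cancel₀ (ph_ne_zero hm ha) this

theorem abs_re_le (x : O m) : |(x.re : ℝ)| ≤ ‖ph m x‖ := by
  rw [← ph_re]; exact Complex.abs_re_le_norm _

theorem abs_im_le (hm : 1 ≤ m) (x : O m) : |(x.im : ℝ)| ≤ ‖ph m x‖ := by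
  have h1 : (1 : ℝ) ≤ Real.sqrt m := Real.one_le_sqrt.2 (by exact_mod_cast hm)
  refine le_trans ?_ (Complex.abs_im_le_norm _)
  rw [ph_im, abs_mul, abs_of_nonneg (Real.sqrt_nonneg _)]
  exact le_mul_of_one_le_right (abs_nonneg _) h1

theorem norm_prod' {ι : Type} (s : Finset ι) (f : ι → O m) :
    (∏ i ∈ s, f i).norm = ∏ i ∈ s, (f i).norm := map_prod Zsqrtd.normMonoidHom f s

theorem norm_pow' (x : O m) (k : ℕ) : (x ^ k).norm = x.norm ^ k := map_pow Zsqrtd.normMonoidHom x k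

theorem norm_dvd_norm {x y : O m} (h : x ∣ y) : x.norm ∣ y.norm := by
  obtain ⟨c, rfl⟩ := h
  rw [Zsqrtd.norm_mul]
  exact Dvd.intro _ rfl

theorem nat_dvd_iff (n : ℕ) (x : O m) : (n : O m) ∣ x ↔ (n : ℤ) ∣ x.re ∧ (n : ℤ) ∣ x.im := by
  rw [← Zsqrtd.intCast_dvd, Int.cast_natCast]

theorem dvd_star {a x : O m} (h : a ∣ x) : star a ∣ star x := by
  obtain ⟨c, rfl⟩ := h
  rw [star_mul']
  exact Dvd.intro _ rfl

theorem rt_sq : rt m * rt m = -(m : O m) := by
  ext <;> simp [rt]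

theorem mu_eq : mu m = (m : O m) * rt m := by
  ext <;> simp [rt, mu]

theorem star_mu : star (mu m) = -mu m := by
  ext <;> simp [mu]

theorem mu_ne_zero (hm : 1 ≤ m) : mu m ≠ 0 := by
  intro h
  have := congrArg Zsqrtd.im h
  simp [mu] at this
  omega

theorem norm_mu : (mu m).norm = (m : ℤ) ^ 3 := by
  rw [norm_eq]; simp [mu]; ring

theorem one_le_norm_mu (hm : 1 ≤ m) : 1 ≤ ‖ph m (mu m)‖ := by
  by_contra h
  exact mu_ne_zero hm (eq_zero_of_norm_lt hm (not_le.1 h))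

theorem mu_dvd_sq : mu m ∣ (m : O m) ^ 2 := by
  refine ⟨-rt m, ?_⟩
  ext <;> simp [rt, mu, sq]

theorem mu_dvd_iff (x : O m) : mu m ∣ x ↔ (m : ℤ) ^ 2 ∣ x.re ∧ (m : ℤ) ∣ x.im := by
  constructor
  · rintro ⟨c, rfl⟩
    exact ⟨⟨-c.im, by simp only [mu, Zsqrtd.re_mul]; ring⟩, ⟨c.re, by simp [mu]⟩⟩
  · rintro ⟨⟨a, ha⟩, ⟨b, hb⟩⟩
    refine ⟨⟨b, -a⟩, ?_⟩
    ext
    · simp only [mu, ha, Zsqrtd.re_mul]; ring
    · simp [mu, hb]

theorem mu_mul_dv {y : O m} (h : mu m ∣ y) : mu m * dv y = y := by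
  obtain ⟨h1, h2⟩ := (mu_dvd_iff y).1 h
  ext
  · have := Int.mul_ediv_cancel' h1
    simp only [mu, dv, Zsqrtd.re_mul]
    linear_combination this
  · have := Int.mul_ediv_cancel' h2
    simp only [mu, dv, Zsqrtd.im_mul]
    linear_combination this

theorem ee_add (s t : ℝ) : ee (s + t) = ee s * ee t := by
  rw [ee, ee, ee, ← Complex.exp_add]; congr 1; push_cast; ring

theorem ee_zero : ee 0 = 1 := by
  simp [ee]

theorem ee_int (n : ℤ) : ee n = 1 := by
  rw [ee, ← Complex.exp_int_mul_two_pi_mul_I n]; congr 1; push_cast; ring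

theorem ee_neg (t : ℝ) : ee (-t) = conj (ee t) := by
  rw [ee, ee, ← Complex.exp_conj]; congr 1; simp [map_ofNat]

theorem norm_ee (t : ℝ) : ‖ee t‖ = 1 := by
  have : ee t = Complex.exp (((2 * Real.pi * t : ℝ) : ℂ) * Complex.I) := by
    rw [ee]; congr 1; push_cast; ring
  rw [this, Complex.norm_exp_ofReal_mul_I]

theorem ee_sum {ι : Type} (s : Finset ι) (f : ι → ℝ) : ee (∑ i ∈ s, f i) = ∏ i ∈ s, ee (f i) := by
  classical
  induction s using Finset.induction_on with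
  | empty => simp [ee_zero]
  | insert a s ha ih => rw [sum_insert ha, prod_insert ha, ee_add, ih]

theorem norm_ee_sub (s t : ℝ) : ‖ee s - ee t‖ ≤ 7 * |s - t| := by
  have h1 : ee s - ee t = ee t * (ee (s - t) - 1) := by
    rw [mul_sub, ← ee_add, mul_one]; congr 2; ring
  have h2 : ee (s - t) = Complex.exp (Complex.I * ((2 * Real.pi * (s - t) : ℝ) : ℂ)) := by
    rw [ee]; congr 1; push_cast; ring
  rw [h1, norm_mul, norm_ee, one_mul, h2]
  refine Real.norm_exp_I_mul_ofReal_sub_one_le.trans ?_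
  rw [Real.norm_eq_abs, abs_mul, abs_of_pos (by positivity : 0 < 2 * Real.pi)]
  exact mul_le_mul_of_nonneg_right (by linarith [Real.pi_lt_d2]) (abs_nonneg _)

/-- Geometric sums. -/
theorem geom_ee (a b δ : ℝ) (hδ : 0 < δ) (hb : ∀ z : ℤ, δ ≤ |b - z|) (N : ℕ) :
    ‖∑ v ∈ range N, ee (a + b * v)‖ ≤ 1 / (2 * δ) := by
  have hu : |b - round b| ≤ 1 / 2 := abs_sub_round b
  have hl := hb (round b)
  set u := b - round b with hud
  have e1 : ee b = ee u := by
    have : b = u + (round b : ℤ) := by rw [hud]; ring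
    rw [this, ee_add, ee_int, mul_one]
  have e2 : 4 * δ ≤ ‖ee b - 1‖ := by
    have h2 : ee u = Complex.exp (Complex.I * ((2 * Real.pi * u : ℝ) : ℂ)) := by
      rw [ee]; congr 1; push_cast; ring
    rw [e1, h2, Complex.norm_exp_I_mul_ofReal_sub_one, Real.norm_eq_abs, abs_mul, abs_two]
    have h3 : 2 * Real.pi * u / 2 = Real.pi * u := by ring
    rw [h3]
    have h4 : |Real.pi * u| ≤ Real.pi / 2 := by
      rw [abs_mul, abs_of_pos Real.pi_pos]
      nlinarith [Real.pi_pos]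
    have h5 := Real.mul_abs_le_abs_sin h4
    rw [abs_mul, abs_of_pos Real.pi_pos] at h5
    have h6 : 2 / Real.pi * (Real.pi * |u|) = 2 * |u| := by field_simp
    linarith
  have e3 : ∀ N : ℕ, (∑ v ∈ range N, ee (a + b * v)) * (ee b - 1) = ee (a + b * N) - ee a := by
    intro N
    induction N with
    | zero => simp
    | succ n ih =>
      rw [sum_range_succ, add_mul, ih]
      have : a + b * ((n + 1 : ℕ) : ℝ) = a + b * n + b := by push_cast; ring
      rw [this, ee_add (a + b * n) b]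
      ring
  have e4 : ‖∑ v ∈ range N, ee (a + b * v)‖ * ‖ee b - 1‖ ≤ 2 := by
    rw [← norm_mul, e3]
    refine (norm_sub_le _ _).trans ?_
    rw [norm_ee, norm_ee]
    norm_num
  rw [le_div_iff₀ (by positivity)]
  nlinarith [norm_nonneg (∑ v ∈ range N, ee (a + b * v))]

/-- Orthogonality. -/
theorem sum_ee_range (q : ℕ) (hq : 1 ≤ q) (x : ℤ) :
    ∑ n ∈ Ico (0 : ℤ) q, ee ((n * x : ℤ) / q) = if (q : ℤ) ∣ x then (q : ℂ) else 0 := by
  have hq0 : (q : ℝ) ≠ 0 := by positivity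
  have e0 : ∑ n ∈ Ico (0 : ℤ) q, ee ((n * x : ℤ) / q) = ∑ v ∈ range q, ee ((x : ℝ) / q) ^ v := by
    have : Ico (0 : ℤ) q = (range q).image (fun v : ℕ => (v : ℤ)) := by
      ext n
      simp only [mem_Ico, mem_image, mem_range]
      constructor
      · rintro ⟨h1, h2⟩
        exact ⟨n.toNat, by omega, by omega⟩
      · rintro ⟨v, h1, rfl⟩
        omega
    rw [this, sum_image (fun a _ b _ h => by exact_mod_cast h)]
    refine sum_congr rfl fun v _ => ?_
    rw [ee, ee, ← Complex.exp_nat_mul]; congr 1; push_cast; ring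
  rw [e0]
  split_ifs with h
  · obtain ⟨c, rfl⟩ := h
    have : (((q : ℤ) * c : ℤ) : ℝ) / q = (c : ℤ) := by push_cast; field_simp
    rw [this, ee_int]
    simp
  · have h1 : ee ((x : ℝ) / q) ≠ 1 := by
      intro h1
      rw [ee, Complex.exp_eq_one_iff] at h1
      obtain ⟨n, hn⟩ := h1
      apply h
      have hpi : (2 * Real.pi * Complex.I : ℂ) ≠ 0 := Complex.two_pi_I_ne_zero
      have h2 : (((x : ℝ) / q : ℝ) : ℂ) = n := mul_right_cancel₀ hpi (by rw [← hn]; ring)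
      have h3 : (x : ℝ) / q = n := by exact_mod_cast h2
      rw [div_eq_iff hq0] at h3
      exact ⟨n, by exact_mod_cast h3.trans (mul_comm _ _)⟩
    have h2 : ee ((x : ℝ) / q) ^ q = 1 := by
      rw [← ee_int x, ee, ee, ← Complex.exp_nat_mul]; congr 1
      have : (q : ℂ) ≠ 0 := by exact_mod_cast hq0
      push_cast; field_simp
    rw [geom_sum_eq h1, h2, sub_self, zero_div]

theorem pr_add_left (θ θ' z : ℂ) : pr m (θ + θ') z = pr m θ z + pr m θ' z := by
  simp only [pr, add_mul, Complex.add_im, add_div]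

theorem pr_add_right (θ z z' : ℂ) : pr m θ (z + z') = pr m θ z + pr m θ z' := by
  simp only [pr, mul_add, Complex.add_im, add_div]

theorem pr_sub_right (θ z z' : ℂ) : pr m θ (z - z') = pr m θ z - pr m θ z' := by
  simp only [pr, mul_sub, Complex.sub_im, sub_div]

theorem pr_mul (θ g z : ℂ) : pr m θ (g * z) = pr m (θ * g) z := by
  simp only [pr, mul_assoc]

theorem pr_conj (θ z : ℂ) : pr m θ (conj z) = -pr m (conj θ) z := by
  simp only [pr, Complex.mul_im, Complex.conj_re, Complex.conj_im]; ring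

theorem abs_pr_le (hm : 1 ≤ m) (θ z : ℂ) : |pr m θ z| ≤ ‖θ‖ * ‖z‖ := by
  have h1 : (1 : ℝ) ≤ Real.sqrt m := Real.one_le_sqrt.2 (by exact_mod_cast hm)
  rw [pr, abs_div, abs_of_nonneg (Real.sqrt_nonneg _), ← norm_mul]
  exact (div_le_self (abs_nonneg _) h1).trans (Complex.abs_im_le_norm _)

theorem pr_ph_div (hm : 1 ≤ m) (a x : O m) (d : ℝ) :
    pr m (ph m a / d) (ph m x) = ((a * x).im : ℝ) / d := by
  have h1 : Real.sqrt m ≠ 0 := by positivity
  rw [pr, div_mul_eq_mul_div, ← map_mul, Complex.div_ofReal_im, ph_im]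
  field_simp

theorem pr_coord (hm : 1 ≤ m) (θ : ℂ) (x : O m) :
    pr m θ (ph m x) = θ.re * x.im + θ.im / Real.sqrt m * x.re := by
  have h1 : Real.sqrt m ≠ 0 := by positivity
  rw [pr, Complex.mul_im, ph_re, ph_im]
  field_simp

end Pool.Agent.P.MP_b75a1e_co.EG
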