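import Pool.Agent.P.MP_b75a1e_co.EGArith

set_option autoImplicit false

open Finset
open scoped BigOperators ComplexConjugate

namespace Pool.Agent.P.MP_b75a1e_co.EG

/-- Residue of a lattice point. -/
def res_EGBilin {m : ℕ} (d : ℕ) (v : O m) : ℤ × ℤ := (v.re % d, v.im % d)

theorem res_mem_EGBilin {m : ℕ} (d : ℕ) (hd : 1 ≤ d) (v : O m) : res_EGBilin d v ∈ grid d := by
  have h : (0 : ℤ) < d := by exact_mod_cast hd
  simp only [grid, res_EGBilin, mem_product, mem_Ico]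
  exact ⟨⟨Int.emod_nonneg _ h.ne', Int.emod_lt_of_pos _ h⟩,
    ⟨Int.emod_nonneg _ h.ne', Int.emod_lt_of_pos _ h⟩⟩

theorem res_eq_EGBilin {m : ℕ} (d : ℕ) (v w : O m) :
    res_EGBilin d v = res_EGBilin d w ↔ (d : O m) ∣ v - w := by
  rw [nat_dvd_iff]
  simp only [res_EGBilin, Prod.mk.injEq, Zsqrtd.re_sub, Zsqrtd.im_sub]
  rw [Int.emod_eq_emod_iff_emod_sub_eq_zero, Int.emod_eq_emod_iff_emod_sub_eq_zero,
    Int.dvd_iff_emod_eq_zero, Int.dvd_iff_emod_eq_zero]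

theorem ch_res_EGBilin {m : ℕ} (d : ℕ) (hm : 1 ≤ m) (hd : 1 ≤ d) (γ v : O m) {Ω : Type} [Fintype Ω]
    (X : Ω → O m) :
    ch X (ph m (γ * v) / d) =
      ch X (ph m (γ * ⟨(res_EGBilin d v).1, (res_EGBilin d v).2⟩) / d) := by
  have hv : v = (⟨(res_EGBilin d v).1, (res_EGBilin d v).2⟩ : O m) +
      (d : O m) * ⟨v.re / d, v.im / d⟩ := by
    ext
    · simp [res_EGBilin, Int.emod_add_mul_ediv]
    · simp [res_EGBilin, Int.emod_add_mul_ediv]
  have hd' : (d : ℂ) ≠ 0 := by exact_mod_cast (by omega : d ≠ 0)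
  rw [← ch_period hm X (ph m (γ * ⟨(res_EGBilin d v).1, (res_EGBilin d v).2⟩) / d)
    (γ * ⟨v.re / d, v.im / d⟩)]
  refine congrArg (ch X) ?_
  conv_lhs => rw [hv]
  simp only [mul_add, map_add, map_mul, map_natCast]
  field_simp

open Classical in
theorem pars_EGBilin {m : ℕ} (d : ℕ) (hm : 1 ≤ m) (hd : 1 ≤ d) (γ : O m) {Ω : Type} [Fintype Ω]
    (X : Ω → O m) :
    ∑ c ∈ grid d, ‖ch X (ph m (γ * ⟨c.1, c.2⟩) / d)‖ ^ 2 =
      (d : ℝ) ^ 2 * 𝔼 q : Ω × Ω, if (d : O m) ∣ γ * (X q.1 - X q.2) then (1 : ℝ) else 0 := by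
  have key : ∀ w : O m, ∑ c ∈ grid d, ee ((((⟨c.1, c.2⟩ : O m) * w).im : ℝ) / d) =
      (d : ℂ) ^ 2 * (((if (d : O m) ∣ w then (1 : ℝ) else 0 : ℝ)) : ℂ) := by
    intro w
    have h1 : ∀ c : ℤ × ℤ, ee ((((⟨c.1, c.2⟩ : O m) * w).im : ℝ) / d) =
        ee ((c.1 * w.im : ℤ) / d) * ee ((c.2 * w.re : ℤ) / d) := by
      intro c
      rw [← ee_add]
      refine congrArg ee ?_
      simp only [Zsqrtd.im_mul]
      push_cast
      ring
    simp only [h1, grid]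
    rw [sum_product, ← sum_mul_sum (Ico (0 : ℤ) d) (Ico (0 : ℤ) d)
      (fun a => ee ((a * w.im : ℤ) / d)) (fun a => ee ((a * w.re : ℤ) / d)),
      sum_ee_range d hd, sum_ee_range d hd, nat_dvd_iff]
    by_cases h2 : (d : ℤ) ∣ w.re <;> by_cases h3 : (d : ℤ) ∣ w.im <;> simp [h2, h3, sq]
  apply Complex.ofReal_injective
  rw [Complex.ofReal_sum]
  simp only [norm_ch_sq]
  rw [← expect_sum_comm, Complex.ofReal_mul, Complex.ofReal_expect, mul_expect]
  refine expect_congr rfl fun q _ => ?_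
  have h2 := key (γ * (X q.1 - X q.2))
  push_cast at h2 ⊢
  rw [← h2]
  refine sum_congr rfl fun c _ => congrArg ee ?_
  have h3 := pr_ph_div hm (γ * ⟨c.1, c.2⟩) (X q.1 - X q.2) (d : ℝ)
  rw [Complex.ofReal_natCast] at h3
  rw [h3]
  have h4 : γ * ⟨c.1, c.2⟩ * (X q.1 - X q.2) = ⟨c.1, c.2⟩ * (γ * (X q.1 - X q.2)) := by ring
  rw [h4]

open Classical in
/-- The bilinear bound modulo `d`. -/
theorem bilin (m d : ℕ) (hm : 1 ≤ m) (hd : 1 ≤ d) (γ : O m) {Ω Ω' : Type} [Fintype Ω] [Fintype Ω']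
    (X : Ω → O m) (V : Ω' → O m) :
    ‖ch (fun q : Ω' × Ω => X q.2 * V q.1) (ph m γ / d)‖ ^ 2 ≤ (d : ℝ) ^ 2 *
      (𝔼 q : Ω' × Ω', if (d : O m) ∣ V q.1 - V q.2 then (1 : ℝ) else 0) *
      (𝔼 q : Ω × Ω, if (d : O m) ∣ γ * (X q.1 - X q.2) then (1 : ℝ) else 0) := by
  set F : ℤ × ℤ → ℂ := fun c => ch X (ph m (γ * ⟨c.1, c.2⟩) / d) with hF
  set p : ℤ × ℤ → ℝ := fun c => 𝔼 ω : Ω', if res_EGBilin d (V ω) = c then (1 : ℝ) else 0 with hp
  have hp0 : ∀ c, 0 ≤ p c := fun c => expect_nonneg fun ω _ => by split_ifs <;> norm_num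
  have h1 : ch (fun q : Ω' × Ω => X q.2 * V q.1) (ph m γ / d) =
      𝔼 ω : Ω', F (res_EGBilin d (V ω)) := by
    have h2 : ∀ ω : Ω', F (res_EGBilin d (V ω)) = ch (fun a => V ω * X a) (ph m γ / d) := by
      intro ω
      rw [ch_mul, hF]
      simp only
      rw [← ch_res_EGBilin d hm hd γ (V ω) X]
      refine congrArg (ch X) ?_
      rw [map_mul]
      ring
    simp only [h2, ch]
    rw [← univ_product_univ, expect_product]
    refine expect_congr rfl fun ω _ => expect_congr rfl fun a _ => ?_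
    rw [mul_comm (V ω)]
  have h3 : 𝔼 ω : Ω', F (res_EGBilin d (V ω)) = ∑ c ∈ grid d, (p c : ℂ) * F c := by
    simp only [hp, Complex.ofReal_expect, expect_mul]
    rw [← expect_sum_comm]
    refine expect_congr rfl fun ω _ => ?_
    rw [sum_eq_single_of_mem _ (res_mem_EGBilin d hd (V ω))]
    · simp
    · intro c _ hc
      simp [hc.symm]
  have h4 : ∑ c ∈ grid d, p c ^ 2 =
      𝔼 q : Ω' × Ω', if (d : O m) ∣ V q.1 - V q.2 then (1 : ℝ) else 0 := by
    simp only [hp, sq, expect_mul_expect]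
    rw [← univ_product_univ, expect_product, ← expect_sum_comm]
    refine expect_congr rfl fun ω _ => ?_
    rw [← expect_sum_comm]
    refine expect_congr rfl fun ω' _ => ?_
    rw [sum_eq_single_of_mem _ (res_mem_EGBilin d hd (V ω))]
    · simp only [← res_eq_EGBilin, if_true, one_mul, eq_comm]
    · intro c _ hc
      simp [hc.symm]
  have h5 : ‖∑ c ∈ grid d, (p c : ℂ) * F c‖ ≤ ∑ c ∈ grid d, p c * ‖F c‖ := by
    refine (norm_sum_le _ _).trans (le_of_eq (sum_congr rfl fun c _ => ?_))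
    rw [norm_mul, Complex.norm_real, Real.norm_of_nonneg (hp0 c)]
  rw [h1, h3]
  calc ‖∑ c ∈ grid d, (p c : ℂ) * F c‖ ^ 2 ≤ (∑ c ∈ grid d, p c * ‖F c‖) ^ 2 :=
        pow_le_pow_left₀ (norm_nonneg _) h5 2
    _ ≤ (∑ c ∈ grid d, p c ^ 2) * ∑ c ∈ grid d, ‖F c‖ ^ 2 := sum_mul_sq_le_sq_mul_sq _ _ _
    _ = _ := by
        rw [h4, hF, pars_EGBilin d hm hd γ X]
        ring

theorem cancel_aux_EGBilin (m : ℕ) (γ : O m) (n : ℤ) (d : ℕ) : Nat.Coprime d (2 * m) → PrimAt γ d →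
    IsCoprime (d : ℤ) n → ∀ (w : O m) (t : ℤ), t * w.norm = 2 * n * w.re → (d : O m) ∣ γ * w →
      (d : O m) ∣ w := by
  induction d using induction_on_primes with
  | zero =>
    intro hc
    simp only [Nat.coprime_zero_left] at hc
    omega
  | one =>
    intro _ _ _ w _ _ _
    simp
  | prime_mul l a hl ih =>
    intro hc hγ hn w t ht h
    have hl' : Prime (l : ℤ) := Nat.prime_iff_prime_int.mp hl
    have hlc : Nat.Coprime l (2 * m) := Nat.Coprime.coprime_mul_right hc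
    have hl2 : ¬ (l : ℤ) ∣ 2 * m := by
      intro h2
      have h3 : l ∣ 2 * m := by exact_mod_cast h2
      exact (Nat.Prime.coprime_iff_not_dvd hl).mp hlc h3
    have hln : ¬ (l : ℤ) ∣ n := by
      intro h2
      have h3 : IsCoprime (l : ℤ) n := by
        push_cast at hn
        exact hn.of_mul_left_left
      exact hl'.not_isUnit (h3.isUnit_of_dvd h2)
    have h1 : (l : O m) ∣ γ * w := by
      refine dvd_trans ?_ h
      push_cast
      exact dvd_mul_right _ _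
    have h2 : (l : O m) ∣ (w.norm : O m) * γ := by
      rw [Zsqrtd.norm_eq_mul_conj]
      have h3 : w * star w * γ = γ * w * star w := by ring
      rw [h3]
      exact h1.mul_right _
    have h3 : (l : ℤ) ∣ w.norm := by
      by_contra h4
      refine hγ l hl (dvd_mul_right _ _) ?_
      rw [nat_dvd_iff] at h2 ⊢
      simp only [Zsqrtd.re_mul, Zsqrtd.im_mul, Zsqrtd.re_intCast, Zsqrtd.im_intCast, mul_zero,
        zero_mul, add_zero] at h2
      exact ⟨(hl'.dvd_or_dvd h2.1).resolve_left h4, (hl'.dvd_or_dvd h2.2).resolve_left h4⟩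
    have h4 : (l : ℤ) ∣ w.re := by
      have h5 : (l : ℤ) ∣ 2 * n * w.re := ht ▸ h3.mul_left t
      rcases hl'.dvd_or_dvd h5 with h6 | h6
      · rcases hl'.dvd_or_dvd h6 with h7 | h7
        · exact absurd (h7.mul_right _) hl2
        · exact absurd h7 hln
      · exact h6
    have h5 : (l : ℤ) ∣ w.im := by
      rw [norm_eq] at h3
      have h6 : (l : ℤ) ∣ m * w.im ^ 2 := (dvd_add_right (dvd_pow h4 two_ne_zero)).mp h3
      rcases hl'.dvd_or_dvd h6 with h7 | h7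
      · exact absurd (h7.mul_left _) hl2
      · exact hl'.dvd_of_dvd_pow h7
    obtain ⟨w', rfl⟩ := (nat_dvd_iff l w).mpr ⟨h4, h5⟩
    have hl0 : (l : ℤ) ≠ 0 := hl'.ne_zero
    have h6 : (a : O m) ∣ w' := by
      refine ih (Nat.Coprime.coprime_mul_left hc)
        (fun k hk hka => hγ k hk (hka.mul_left _)) ?_ w' (t * l) ?_ ?_
      · push_cast at hn
        exact hn.of_mul_left_right
      · apply mul_left_cancel₀ hl0
        rw [norm_eq] at ht ⊢
        simp only [Zsqrtd.re_mul, Zsqrtd.im_mul, Zsqrtd.re_natCast, Zsqrtd.im_natCast, mul_zero,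
          zero_mul, add_zero] at ht
        linear_combination ht
      · have h7 : γ * ((l : O m) * w') = (l : O m) * (γ * w') := by ring
        rw [h7, nat_dvd_iff] at h
        rw [nat_dvd_iff]
        generalize γ * w' = u at h ⊢
        simp only [Zsqrtd.re_mul, Zsqrtd.im_mul, Zsqrtd.re_natCast, Zsqrtd.im_natCast, mul_zero,
          zero_mul, add_zero, Nat.cast_mul] at h
        exact ⟨(mul_dvd_mul_iff_left hl0).mp h.1, (mul_dvd_mul_iff_left hl0).mp h.2⟩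
    push_cast
    exact mul_dvd_mul_left _ h6

/-- A primitive multiplier can be cancelled against a difference of two units of one norm. -/
theorem cancel_prim (m d : ℕ) (hc : Nat.Coprime d (2 * m)) (γ x x' : O m) (hγ : PrimAt γ d)
    (hn : x.norm = x'.norm) (hx : IsCoprime (d : ℤ) x.norm) (h : (d : O m) ∣ γ * (x - x')) :
    (d : O m) ∣ x - x' := by
  have h1 : (d : O m) ∣ (x - x') * star x' := by
    refine cancel_aux_EGBilin m γ x.norm d hc hγ hx _ (-1) ?_ ?_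
    · rw [Zsqrtd.norm_mul, Zsqrtd.norm_conj, ← hn]
      simp only [norm_eq, Zsqrtd.re_mul, Zsqrtd.re_sub, Zsqrtd.im_sub, Zsqrtd.re_star,
        Zsqrtd.im_star] at hn ⊢
      linear_combination (-(x.re ^ 2 + m * x.im ^ 2)) * hn
    · rw [← mul_assoc]
      exact h.mul_right _
  have h2 : (d : O m) ∣ (x.norm : O m) * (x - x') := by
    rw [hn, Zsqrtd.norm_eq_mul_conj]
    have h3 : x' * star x' * (x - x') = (x - x') * star x' * x' := by ring
    rw [h3]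
    exact h1.mul_right _
  rw [nat_dvd_iff] at h2 ⊢
  generalize x - x' = u at h2 ⊢
  simp only [Zsqrtd.re_mul, Zsqrtd.im_mul, Zsqrtd.re_intCast, Zsqrtd.im_intCast, mul_zero,
    zero_mul, add_zero] at h2
  exact ⟨hx.dvd_of_dvd_mul_left h2.1, hx.dvd_of_dvd_mul_left h2.2⟩

theorem cX_nonneg_EGBilin {m r : ℕ} (d : ℕ) (z : Fin r → O m) : 0 ≤ cX d z := by
  unfold cX
  split_ifs
  · exact expect_nonneg fun q _ => by split_ifs <;> norm_num
  · exact le_rfl

theorem cY_nonneg_EGBilin {m r : ℕ} (d : ℕ) (z z' : Fin r → O m) : 0 ≤ cY d z z' := by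
  unfold cY
  split_ifs
  · exact expect_nonneg fun q _ => by split_ifs <;> norm_num
  · exact le_rfl

/-- One block. `b` bounds the part of `d` that meets the norm of the block. -/
theorem block_mid (m r d b e : ℕ) (hm : 1 ≤ m) (hd : 1 ≤ d) (hc : Nat.Coprime d (2 * m))
    (z : Fin 3 → Fin r → O m) (γ : O m) (hb : b ^ 100 ≤ d)
    (hbd : ∀ d2, d2 ∣ d → ∃ d1, d1 ∣ d2 ∧ d2 ≤ d1 * b ∧ IsCoprime (d1 : ℤ) (blockB z).norm)
    (he : d ≤ e ^ 2) (heγ : ∀ f : ℕ, 1 ≤ f → (d : O m) ∣ (f : O m) * γ → e ≤ f) :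
    ‖ch (fun q : ((Fin r → Bool) × (Fin r → Bool)) × (Fin r → Bool) =>
      cube (z 2) q.2 * yy (z 0) (z 1) q.1) (ph m γ / d)‖ ^ 2 ≤ (d : ℝ) ^ (1 / 50 : ℝ) * Zc d z := by
  classical
  obtain ⟨g, hg⟩ : ∃ g, g = Nat.gcd (Int.gcd γ.re γ.im) d := ⟨_, rfl⟩
  have hg0 : 0 < g := hg ▸ Nat.gcd_pos_of_pos_right _ hd
  have hgd : g ∣ d := hg ▸ Nat.gcd_dvd_right _ _
  have hgγ : (g : O m) ∣ γ := by
    have h1 : (g : ℤ) ∣ (Int.gcd γ.re γ.im : ℤ) := by
      exact_mod_cast (hg ▸ Nat.gcd_dvd_left _ _ : g ∣ Int.gcd γ.re γ.im)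
    exact (nat_dvd_iff g γ).mpr ⟨h1.trans (Int.gcd_dvd_left _ _), h1.trans (Int.gcd_dvd_right _ _)⟩
  obtain ⟨d2, hd2⟩ := hgd
  obtain ⟨γ', hγ'⟩ := hgγ
  have hd20 : 1 ≤ d2 := by
    rcases Nat.eq_zero_or_pos d2 with h | h
    · rw [h] at hd2
      omega
    · exact h
  have hd2d : d2 ∣ d := ⟨g, by rw [hd2, mul_comm]⟩
  have hprim : PrimAt γ' d2 := by
    intro l hl hld hlγ
    have h1 : ((g * l : ℕ) : O m) ∣ γ := by
      rw [hγ']
      push_cast
      exact mul_dvd_mul_left _ hlγ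
    rw [nat_dvd_iff] at h1
    have h2 : g * l ∣ Int.gcd γ.re γ.im := Int.dvd_gcd h1.1 h1.2
    have h3 : g * l ∣ d := hd2 ▸ mul_dvd_mul_left _ hld
    have h4 : g * l ∣ g := by
      have h5 := Nat.dvd_gcd h2 h3
      rwa [← hg] at h5
    have h5 := Nat.le_of_dvd hg0 h4
    have h6 := hl.two_le
    nlinarith
  have hed : e ≤ d2 := by
    refine heγ d2 hd20 ⟨γ', ?_⟩
    rw [hγ', hd2]
    push_cast
    ring
  obtain ⟨d1, hd1, hd1b, hcop⟩ := hbd d2 hd2d
  have hmem : d1 ∈ d.divisors.filter (fun d1 => d ^ 49 ≤ d1 ^ 100) := by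
    rw [mem_filter, Nat.mem_divisors]
    refine ⟨⟨hd1.trans hd2d, by omega⟩, ?_⟩
    have h1 : d ^ 50 ≤ d2 ^ 100 := by
      calc d ^ 50 ≤ (d2 ^ 2) ^ 50 := Nat.pow_le_pow_left (he.trans (Nat.pow_le_pow_left hed 2)) 50
        _ = d2 ^ 100 := by rw [← pow_mul]
    have h2 : d2 ^ 100 ≤ d1 ^ 100 * d := by
      calc d2 ^ 100 ≤ (d1 * b) ^ 100 := Nat.pow_le_pow_left hd1b 100
        _ = d1 ^ 100 * b ^ 100 := mul_pow _ _ _
        _ ≤ d1 ^ 100 * d := Nat.mul_le_mul_left _ hb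
    have h3 : d ^ 49 * d ≤ d1 ^ 100 * d := by
      rw [← pow_succ]
      exact h1.trans h2
    exact Nat.le_of_mul_le_mul_right h3 hd
  have hθ : ph m γ / d = ph m γ' / d2 := by
    have h1 : (g : ℂ) ≠ 0 := by exact_mod_cast hg0.ne'
    have h2 : (d2 : ℂ) ≠ 0 := by exact_mod_cast (by omega : d2 ≠ 0)
    conv_lhs => rw [hγ', hd2]
    simp only [map_mul, map_natCast, Nat.cast_mul]
    field_simp
  have hbil := bilin m d2 hm hd20 γ' (fun ε : Fin r → Bool => cube (z 2) ε)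
    (fun ε : (Fin r → Bool) × (Fin r → Bool) => yy (z 0) (z 1) ε)
  have hd1O : (d1 : O m) ∣ (d2 : O m) := Nat.cast_dvd_cast hd1
  simp only [blockB, Zsqrtd.norm_mul] at hcop
  have hY : (𝔼 q : ((Fin r → Bool) × (Fin r → Bool)) × ((Fin r → Bool) × (Fin r → Bool)),
      if (d2 : O m) ∣ yy (z 0) (z 1) q.1 - yy (z 0) (z 1) q.2 then (1 : ℝ) else 0) ≤
      cY d1 (z 0) (z 1) := by
    unfold cY
    rw [if_pos hcop.of_mul_right_left]
    refine expect_le_expect fun q _ => ?_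
    by_cases h : (d2 : O m) ∣ yy (z 0) (z 1) q.1 - yy (z 0) (z 1) q.2
    · rw [if_pos h, if_pos (hd1O.trans h)]
    · rw [if_neg h]
      split_ifs <;> norm_num
  have hX : (𝔼 q : (Fin r → Bool) × (Fin r → Bool),
      if (d2 : O m) ∣ γ' * (cube (z 2) q.1 - cube (z 2) q.2) then (1 : ℝ) else 0) ≤
      cX d1 (z 2) := by
    unfold cX
    rw [if_pos hcop.of_mul_right_right]
    refine expect_le_expect fun q _ => ?_
    by_cases h : (d2 : O m) ∣ γ' * (cube (z 2) q.1 - cube (z 2) q.2)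
    · rw [if_pos h, if_pos]
      refine cancel_prim m d1 (Nat.Coprime.coprime_dvd_left (hd1.trans hd2d) hc) γ' _ _
        (fun l hl h1 => hprim l hl (h1.trans hd1)) (by rw [norm_cube, norm_cube]) ?_ (hd1O.trans h)
      rw [norm_cube]
      exact hcop.of_mul_right_right
    · rw [if_neg h]
      split_ifs <;> norm_num
  have hb2 : (b : ℝ) ^ 2 ≤ (d : ℝ) ^ (1 / 50 : ℝ) := by
    have h1 : ((b : ℝ) ^ 2) ^ (50 : ℕ) ≤ d := by
      rw [← pow_mul]
      exact_mod_cast hb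
    have h2 := Real.rpow_le_rpow (by positivity) h1 (by norm_num : (0 : ℝ) ≤ 1 / 50)
    have h3 := Real.pow_rpow_inv_natCast (x := (b : ℝ) ^ 2) (n := 50) (by positivity) (by norm_num)
    rw [Nat.cast_ofNat, ← one_div] at h3
    rwa [h3] at h2
  have hd22 : (d2 : ℝ) ^ 2 ≤ (d : ℝ) ^ (1 / 50 : ℝ) * (d1 : ℝ) ^ 2 := by
    have h1 : (d2 : ℝ) ≤ d1 * b := by exact_mod_cast hd1b
    calc (d2 : ℝ) ^ 2 ≤ ((d1 : ℝ) * b) ^ 2 := pow_le_pow_left₀ (by positivity) h1 2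
      _ = (b : ℝ) ^ 2 * (d1 : ℝ) ^ 2 := by ring
      _ ≤ _ := mul_le_mul_of_nonneg_right hb2 (by positivity)
  have hZ : (d1 : ℝ) ^ 2 * cY d1 (z 0) (z 1) * cX d1 (z 2) ≤ Zc d z := by
    unfold Zc
    exact single_le_sum (f := fun d1 : ℕ => (d1 : ℝ) ^ 2 * cY d1 (z 0) (z 1) * cX d1 (z 2))
      (fun k _ => mul_nonneg (mul_nonneg (by positivity) (cY_nonneg_EGBilin _ _ _))
        (cX_nonneg_EGBilin _ _)) hmem
  rw [hθ]
  refine hbil.trans ?_
  have hY0 := cY_nonneg_EGBilin d1 (z 0) (z 1)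
  calc _ ≤ ((d : ℝ) ^ (1 / 50 : ℝ) * (d1 : ℝ) ^ 2) * cY d1 (z 0) (z 1) * cX d1 (z 2) := by
        refine mul_le_mul (mul_le_mul hd22 hY ?_ (by positivity)) hX ?_ (by positivity)
        · exact expect_nonneg fun q _ => by split_ifs <;> norm_num
        · exact expect_nonneg fun q _ => by split_ifs <;> norm_num
    _ = (d : ℝ) ^ (1 / 50 : ℝ) * ((d1 : ℝ) ^ 2 * cY d1 (z 0) (z 1) * cX d1 (z 2)) := by ring
    _ ≤ _ := mul_le_mul_of_nonneg_left hZ (by positivity)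

end Pool.Agent.P.MP_b75a1e_co.EG
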