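import Pool.Agent.P.MP_b75a1e_co.EGBasic

set_option autoImplicit false

open Finset
open scoped BigOperators ComplexConjugate

namespace Pool.Agent.P.MP_b75a1e_co.EG

theorem card_EGBlock {B : ℝ} (hB : 0 ≤ B) : ((Icc ⌊-B⌋ ⌊B⌋).card : ℝ) ≤ 2 * B + 2 := by
  have h1 : ⌊-B⌋ ≤ ⌊B⌋ + 1 := (Int.floor_mono (by linarith)).trans (lt_add_one _).le
  have h2 : (((Icc ⌊-B⌋ ⌊B⌋).card : ℤ) : ℝ) = ((⌊B⌋ + 1 - ⌊-B⌋ : ℤ) : ℝ) :=
    congrArg _ (Int.card_Icc_of_le _ _ h1)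
  push_cast at h2
  linarith [Int.floor_le B, Int.lt_floor_add_one (-B)]

theorem mem_EGBlock {x c B D : ℝ} (hc : 0 < c) (h : |x| ≤ D) (hB : D * c = B) :
    ⌊x * c⌋ ∈ Icc ⌊-B⌋ ⌊B⌋ := by
  obtain ⟨h1, h2⟩ := abs_le.1 h
  exact mem_Icc.2 ⟨Int.floor_mono (by nlinarith), Int.floor_mono (by nlinarith)⟩

theorem cell_EGBlock {z z' : ℂ} {c : ℝ} (h1 : ⌊z.re * c⌋ = ⌊z'.re * c⌋)
    (h2 : ⌊z.im * c⌋ = ⌊z'.im * c⌋) : ‖z - z'‖ ^ 2 * c ^ 2 ≤ 2 := by
  have a1 := abs_lt.1 (Int.abs_sub_lt_one_of_floor_eq_floor h1)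
  have a2 := abs_lt.1 (Int.abs_sub_lt_one_of_floor_eq_floor h2)
  rw [Complex.sq_norm, Complex.normSq_apply, Complex.sub_re, Complex.sub_im]
  nlinarith [a1.1, a1.2, a2.1, a2.2]

open Classical in
/-- Few small elements are nearly annihilated by a point that is not low. -/
theorem bohr (m : ℕ) (hm : 1 ≤ m) (s lam : ℝ) (β : ℂ) (hs : 1 ≤ s) (hlam : 10 ^ 4 * s ^ 2 * m ≤ lam)
    (hβ : ¬ Low m β (lam ^ 60) (lam ^ 200)) (T : Finset (O m))
    (hT : ∀ w ∈ T, ‖ph m w‖ ≤ 2 * (s * lam ^ 50) ∧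
      ∃ a : O m, |(β * ph m w - ph m a).re| ≤ Real.sqrt m / lam ^ 44 ∧
        |(β * ph m w - ph m a).im| ≤ Real.sqrt m / lam ^ 44) :
    (T.card : ℝ) ≤ lam ^ 93 := by
  have hm1 : (1 : ℝ) ≤ m := by exact_mod_cast hm
  have hl1 : 1 ≤ lam := le_trans (by nlinarith [one_le_pow₀ (n := 2) hs]) hlam
  have hl0 : 0 < lam := by linarith
  have hq : Real.sqrt m ^ 2 = m := Real.sq_sqrt (by linarith)
  have hq1 : 1 ≤ Real.sqrt m := Real.one_le_sqrt.2 hm1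
  choose! a ha using fun w hw => (hT w hw).2
  have key := card_le_card_of_injOn (s := T)
    (t := (Icc ⌊-(4 * s * lam ^ 20)⌋ ⌊4 * s * lam ^ 20⌋ ×ˢ
      Icc ⌊-(4 * s * lam ^ 20)⌋ ⌊4 * s * lam ^ 20⌋) ×ˢ
      (Icc ⌊-(2 * Real.sqrt m * lam ^ 26)⌋ ⌊2 * Real.sqrt m * lam ^ 26⌋ ×ˢ
        Icc ⌊-(2 * Real.sqrt m * lam ^ 26)⌋ ⌊2 * Real.sqrt m * lam ^ 26⌋))
    (fun w => ((⌊(ph m w).re * (2 / lam ^ 30)⌋, ⌊(ph m w).im * (2 / lam ^ 30)⌋),
      (⌊(β * ph m w - ph m (a w)).re * (2 * lam ^ 70)⌋,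
        ⌊(β * ph m w - ph m (a w)).im * (2 * lam ^ 70)⌋)))
    (fun w hw => by
      have e1 : 2 * (s * lam ^ 50) * (2 / lam ^ 30) = 4 * s * lam ^ 20 := by field_simp; ring
      have e2 : Real.sqrt m / lam ^ 44 * (2 * lam ^ 70) = 2 * Real.sqrt m * lam ^ 26 := by
        field_simp
      refine mem_coe.2 (mem_product.2 ⟨mem_product.2 ⟨?_, ?_⟩, mem_product.2 ⟨?_, ?_⟩⟩)
      · exact mem_EGBlock (by positivity) ((Complex.abs_re_le_norm _).trans (hT w hw).1) e1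
      · exact mem_EGBlock (by positivity) ((Complex.abs_im_le_norm _).trans (hT w hw).1) e1
      · exact mem_EGBlock (by positivity) (ha w hw).1 e2
      · exact mem_EGBlock (by positivity) (ha w hw).2 e2)
    (fun w _ w' _ he => by
      by_contra hne
      simp only [Prod.mk.injEq] at he
      have h1 := cell_EGBlock he.1.1 he.1.2
      have h2 := cell_EGBlock he.2.1 he.2.2
      refine hβ ⟨w - w', a w - a w', sub_ne_zero.2 hne, ?_, ?_⟩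
      · rw [← norm_sq_ph, map_sub]
        rw [div_pow, ← mul_div_assoc, div_le_iff₀ (by positivity)] at h1
        nlinarith [pow_pos hl0 60]
      · have e : β * ph m (w - w') - ph m (a w - a w') =
            β * ph m w - ph m (a w) - (β * ph m w' - ph m (a w')) := by
          rw [map_sub, map_sub]
          ring
        rw [e]
        have h3 := mul_le_mul_of_nonneg_right h2 (pow_pos hl0 60).le
        nlinarith [pow_pos hl0 60])
  have k2 := (Nat.cast_le (α := ℝ)).2 key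
  rw [card_product, card_product, card_product] at k2
  push_cast at k2
  have b1 : ((Icc ⌊-(4 * s * lam ^ 20)⌋ ⌊4 * s * lam ^ 20⌋).card : ℝ) ≤ 10 * s * lam ^ 20 := by
    refine (card_EGBlock (by positivity)).trans ?_
    nlinarith [one_le_mul_of_one_le_of_one_le hs (one_le_pow₀ (n := 20) hl1)]
  have b2 : ((Icc ⌊-(2 * Real.sqrt m * lam ^ 26)⌋ ⌊2 * Real.sqrt m * lam ^ 26⌋).card : ℝ) ≤
      6 * Real.sqrt m * lam ^ 26 := by
    refine (card_EGBlock (by positivity)).trans ?_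
    nlinarith [one_le_mul_of_one_le_of_one_le hq1 (one_le_pow₀ (n := 26) hl1)]
  calc (T.card : ℝ) ≤ _ := k2
    _ ≤ (10 * s * lam ^ 20 * (10 * s * lam ^ 20)) *
        (6 * Real.sqrt m * lam ^ 26 * (6 * Real.sqrt m * lam ^ 26)) := by gcongr
    _ = 3600 * s ^ 2 * Real.sqrt m ^ 2 * lam ^ 92 := by ring
    _ ≤ lam * lam ^ 92 := by
      rw [hq]
      exact mul_le_mul_of_nonneg_right (by nlinarith [sq_nonneg s]) (by positivity)
    _ = lam ^ 93 := by ring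

theorem geo_EGBlock (K N : ℕ) (b : ℝ) : ‖∑ v ∈ range N, ee (b * ((v : ℝ) - K))‖ ≤ N ∧
    ∀ δ : ℝ, 0 < δ → (∀ z : ℤ, δ ≤ |b - z|) →
      ‖∑ v ∈ range N, ee (b * ((v : ℝ) - K))‖ ≤ 1 / (2 * δ) := by
  refine ⟨(norm_sum_le _ _).trans (by simp [norm_ee]), fun δ hδ h => ?_⟩
  have := geom_ee (-(b * K)) b δ hδ h N
  rwa [sum_congr rfl fun (v : ℕ) _ =>
    congrArg ee (show -(b * K) + b * v = b * ((v : ℝ) - K) by ring)] at this

/-- The sum of a character over a box. -/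
theorem box_EGBlock {m : ℕ} (hm : 1 ≤ m) (β : ℂ) (w : O m) (K N : ℕ) {δ : ℝ} (hδ : 0 < δ) :
    ‖∑ p ∈ range N ×ˢ range N, ee (pr m β (ph m (w * ⟨(p.1 : ℤ) - K, (p.2 : ℤ) - K⟩)))‖ ≤ N * N ∧
      ((¬ ∃ a : O m, |(β * ph m w - ph m a).re| ≤ Real.sqrt m * δ ∧
        |(β * ph m w - ph m a).im| ≤ Real.sqrt m * δ) →
      ‖∑ p ∈ range N ×ˢ range N, ee (pr m β (ph m (w * ⟨(p.1 : ℤ) - K, (p.2 : ℤ) - K⟩)))‖ ≤
        N * (1 / (2 * δ))) := by
  have hq1 : 1 ≤ Real.sqrt m := Real.one_le_sqrt.2 (by exact_mod_cast hm)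
  have e : ∑ p ∈ range N ×ˢ range N, ee (pr m β (ph m (w * ⟨(p.1 : ℤ) - K, (p.2 : ℤ) - K⟩))) =
      (∑ v ∈ range N, ee ((β * ph m w).im / Real.sqrt m * ((v : ℝ) - K))) *
        ∑ v ∈ range N, ee ((β * ph m w).re * ((v : ℝ) - K)) := by
    rw [sum_mul_sum, sum_product]
    refine sum_congr rfl fun i _ => sum_congr rfl fun j _ => ?_
    rw [map_mul, pr_mul, pr_coord hm, ← ee_add, add_comm]
    push_cast
    rfl
  obtain ⟨a1, a2⟩ := geo_EGBlock K N ((β * ph m w).im / Real.sqrt m)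
  obtain ⟨b1, b2⟩ := geo_EGBlock K N (β * ph m w).re
  rw [e, norm_mul]
  refine ⟨mul_le_mul a1 b1 (norm_nonneg _) (by positivity), fun h => ?_⟩
  by_cases h1 : ∀ z : ℤ, δ ≤ |(β * ph m w).re - z|
  · exact mul_le_mul a1 (b2 δ hδ h1) (norm_nonneg _) (by positivity)
  rw [mul_comm]
  refine mul_le_mul b1 (a2 δ hδ fun z' => ?_) (norm_nonneg _) (by positivity)
  push Not at h1
  obtain ⟨z, hz⟩ := h1
  by_contra h2
  refine h ⟨⟨z, z'⟩, ?_, ?_⟩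
  · rw [Complex.sub_re, ph_re]
    exact hz.le.trans (le_mul_of_one_le_left hδ.le hq1)
  · have e2 : (β * ph m w).im - z' * Real.sqrt m =
        Real.sqrt m * ((β * ph m w).im / Real.sqrt m - z') := by field_simp
    rw [Complex.sub_im, ph_im, e2, abs_mul, abs_of_pos (by linarith)]
    exact mul_le_mul_of_nonneg_left (not_le.1 h2).le (by linarith)

theorem sq_EGBlock {m : ℕ} (U : Finset (O m)) (β : ℂ) (y : O m) :
    ((‖∑ u ∈ U, ee (pr m β (ph m (u * y)))‖ ^ 2 : ℝ) : ℂ) =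
      ∑ u ∈ U, ∑ v ∈ U, ee (pr m β (ph m ((u - v) * y))) := by
  rw [Complex.ofReal_pow, ← Complex.mul_conj', map_sum, sum_mul_sum]
  refine sum_congr rfl fun u _ => sum_congr rfl fun v _ => ?_
  rw [← ee_neg, ← ee_add, sub_mul, map_sub, pr_sub_right, sub_eq_add_neg]

/-- L4: the double sieve bound for one block. -/
theorem block (m : ℕ) (hm : 1 ≤ m) (U : Finset (O m)) (s lam : ℝ) (β : ℂ) (hs : 1 ≤ s)
    (hlam : 10 ^ 4 * s ^ 2 * m ≤ lam) (hU : ∀ u ∈ U, ‖ph m u‖ ≤ s * lam ^ 50)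
    (hc : lam ^ 99 ≤ U.card) (hβ : ¬ Low m β (lam ^ 60) (lam ^ 200)) :
    ‖ch (fun q : U × U => (q.1 : O m) * (q.2 : O m)) β‖ ≤ 1 / lam := by
  classical
  have hm1 : (1 : ℝ) ≤ m := by exact_mod_cast hm
  have hs2 : 1 ≤ s ^ 2 := one_le_pow₀ hs
  have hl2 : 10 ^ 4 * s ^ 2 ≤ lam := le_trans (by nlinarith) hlam
  have hl1 : 1 ≤ lam := by linarith
  have hl0 : 0 < lam := by linarith
  have hR : 1 ≤ s * lam ^ 50 := one_le_mul_of_one_le_of_one_le hs (one_le_pow₀ hl1)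
  have hn : (0 : ℝ) < U.card := (pow_pos hl0 99).trans_le hc
  obtain ⟨K, hK⟩ : ∃ K : ℕ, K = ⌊s * lam ^ 50⌋₊ := ⟨_, rfl⟩
  obtain ⟨N, hN⟩ : ∃ N : ℕ, N = 2 * K + 1 := ⟨_, rfl⟩
  have hN3 : (N : ℝ) ≤ 3 * (s * lam ^ 50) := by
    have := Nat.floor_le (zero_le_one.trans hR)
    rw [hN, hK]
    push_cast
    linarith
  have hco : ∀ x : ℤ, |(x : ℝ)| ≤ s * lam ^ 50 → ∃ i ∈ range N, (i : ℤ) - K = x := fun x hx => by
    have h1 : x.natAbs ≤ K := by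
      rw [hK]
      refine Nat.le_floor ?_
      rwa [Nat.cast_natAbs, Int.cast_abs]
    exact ⟨(x + K).toNat, mem_range.2 (by omega), by omega⟩
  have e0 : ch (fun q : U × U => (q.1 : O m) * (q.2 : O m)) β =
      (∑ y ∈ U, ∑ u ∈ U, ee (pr m β (ph m (u * y)))) / (U.card * U.card) := by
    rw [ch, Fintype.expect_eq_sum_div_card, Fintype.sum_prod_type_right, Fintype.card_prod,
      Fintype.card_coe, Nat.cast_mul,
      ← sum_coe_sort U fun y => ∑ u ∈ U, ee (pr m β (ph m (u * y)))]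
    congr 1
    exact sum_congr rfl fun y _ => sum_coe_sort U fun u => ee (pr m β (ph m (u * y)))
  have h1 : ‖∑ y ∈ U, ∑ u ∈ U, ee (pr m β (ph m (u * y)))‖ ^ 2 ≤
      U.card * ∑ y ∈ U, ‖∑ u ∈ U, ee (pr m β (ph m (u * y)))‖ ^ 2 :=
    (pow_le_pow_left₀ (norm_nonneg _) (norm_sum_le _ _) 2).trans sq_sum_le_card_mul_sum_sq
  have h2 : ∑ y ∈ U, ‖∑ u ∈ U, ee (pr m β (ph m (u * y)))‖ ^ 2 ≤ ∑ p ∈ range N ×ˢ range N,
      ‖∑ u ∈ U, ee (pr m β (ph m (u * ⟨(p.1 : ℤ) - K, (p.2 : ℤ) - K⟩)))‖ ^ 2 := by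
    rw [← sum_image (s := range N ×ˢ range N)
      (g := fun p : ℕ × ℕ => (⟨(p.1 : ℤ) - K, (p.2 : ℤ) - K⟩ : O m))
      (f := fun y => ‖∑ u ∈ U, ee (pr m β (ph m (u * y)))‖ ^ 2) fun p _ q _ h => by
        simp only [Zsqrtd.mk.injEq] at h
        exact Prod.ext (by omega) (by omega)]
    refine sum_le_sum_of_subset_of_nonneg (fun y hy => ?_) fun _ _ _ => sq_nonneg _
    obtain ⟨i, hi, e1⟩ := hco _ ((abs_re_le y).trans (hU y hy))
    obtain ⟨j, hj, e2⟩ := hco _ ((abs_im_le hm y).trans (hU y hy))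
    exact mem_image.2 ⟨(i, j), mem_product.2 ⟨hi, hj⟩, Zsqrtd.ext e1 e2⟩
  have h3 : ∑ p ∈ range N ×ˢ range N,
      ‖∑ u ∈ U, ee (pr m β (ph m (u * ⟨(p.1 : ℤ) - K, (p.2 : ℤ) - K⟩)))‖ ^ 2 ≤
      ∑ u ∈ U, ∑ v ∈ U, ‖∑ p ∈ range N ×ˢ range N,
        ee (pr m β (ph m ((u - v) * ⟨(p.1 : ℤ) - K, (p.2 : ℤ) - K⟩)))‖ := by
    refine (le_abs_self _).trans ?_
    rw [← Real.norm_eq_abs, ← Complex.norm_real, Complex.ofReal_sum]
    simp only [sq_EGBlock]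
    rw [sum_comm]
    refine (norm_sum_le _ _).trans (sum_le_sum fun u _ => ?_)
    rw [sum_comm]
    exact norm_sum_le _ _
  have h4 : ∀ u ∈ U, ∑ v ∈ U, ‖∑ p ∈ range N ×ˢ range N,
      ee (pr m β (ph m ((u - v) * ⟨(p.1 : ℤ) - K, (p.2 : ℤ) - K⟩)))‖ ≤
      lam ^ 93 * (N * N) + U.card * (N * (1 / (2 * (lam ^ 44)⁻¹))) := fun u hu => by
    have hδ : 0 < (lam ^ 44)⁻¹ := by positivity
    rw [← sum_filter_add_sum_filter_not U fun v => ∃ a : O m,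
      |(β * ph m (u - v) - ph m a).re| ≤ Real.sqrt m * (lam ^ 44)⁻¹ ∧
        |(β * ph m (u - v) - ph m a).im| ≤ Real.sqrt m * (lam ^ 44)⁻¹]
    refine add_le_add ?_ ?_
    · refine (sum_le_card_nsmul _ _ _ fun v _ => (box_EGBlock hm β (u - v) K N hδ).1).trans ?_
      rw [nsmul_eq_mul, ← card_image_of_injective _ (sub_right_injective (b := u))]
      refine mul_le_mul_of_nonneg_right (bohr m hm s lam β hs hlam hβ _ fun w hw => ?_)
        (by positivity)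
      obtain ⟨v, hv, rfl⟩ := mem_image.1 hw
      refine ⟨?_, (mem_filter.1 hv).2⟩
      rw [map_sub, two_mul]
      exact (norm_sub_le _ _).trans (add_le_add (hU u hu) (hU v (mem_filter.1 hv).1))
    · refine (sum_le_card_nsmul _ _ _ fun v hv =>
        (box_EGBlock hm β (u - v) K N hδ).2 (mem_filter.1 hv).2).trans ?_
      rw [nsmul_eq_mul]
      exact mul_le_mul_of_nonneg_right (Nat.cast_le.2 (card_filter_le _ _)) (by positivity)
  have h5 := h1.trans (mul_le_mul_of_nonneg_left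
    ((h2.trans h3).trans (sum_le_card_nsmul _ _ _ h4)) hn.le)
  rw [nsmul_eq_mul] at h5
  rw [e0, norm_div, norm_mul, Complex.norm_natCast, div_le_div_iff₀ (by positivity) hl0, one_mul]
  refine le_of_sq_le_sq ?_ (by positivity)
  generalize ‖∑ y ∈ U, ∑ u ∈ U, ee (pr m β (ph m (u * y)))‖ = x at h5 ⊢
  generalize (U.card : ℝ) = n at h5 hc hn ⊢
  have hN4 : (N : ℝ) ≤ 3 * s * lam ^ 50 := by linarith
  have c1 : lam ^ 93 * (N * N) * lam ^ 2 ≤ n * n / 2 :=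
    calc lam ^ 93 * (N * N) * lam ^ 2
        ≤ lam ^ 93 * (3 * s * lam ^ 50 * (3 * s * lam ^ 50)) * lam ^ 2 := by gcongr
      _ = 9 * s ^ 2 * lam ^ 195 := by ring
      _ ≤ lam / 2 * lam ^ 197 :=
          mul_le_mul (by linarith) (pow_le_pow_right₀ hl1 (by norm_num)) (by positivity)
            (by positivity)
      _ = lam ^ 99 * lam ^ 99 / 2 := by ring
      _ ≤ n * n / 2 := by gcongr
  have c2 : n * (N * (1 / (2 * (lam ^ 44)⁻¹))) * lam ^ 2 ≤ n * n / 2 :=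
    calc n * (N * (1 / (2 * (lam ^ 44)⁻¹))) * lam ^ 2
        ≤ n * (3 * s * lam ^ 50 * (1 / (2 * (lam ^ 44)⁻¹))) * lam ^ 2 := by gcongr
      _ = n * (3 * s * lam ^ 96) / 2 := by field_simp
      _ ≤ n * (lam * lam ^ 98) / 2 := by
          gcongr
          · nlinarith
          · norm_num
      _ = n * lam ^ 99 / 2 := by ring
      _ ≤ n * n / 2 := by gcongr
  have h6 := mul_le_mul_of_nonneg_right h5 (sq_nonneg lam)
  have h7 := mul_le_mul_of_nonneg_left (add_le_add c1 c2) (mul_pos hn hn).le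
  calc (x * lam) ^ 2 = x ^ 2 * lam ^ 2 := by ring
    _ ≤ _ := h6
    _ = _ := by ring
    _ ≤ _ := h7
    _ = (n * n) ^ 2 := by ring

end Pool.Agent.P.MP_b75a1e_co.EG
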