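import Pool.Agent.P.MP_b75a1e_co.EGBasic

set_option autoImplicit false

open Finset
open scoped BigOperators ComplexConjugate

namespace Pool.Agent.P.MP_b75a1e_co.EG

variable {m : ℕ}

theorem mul_star_EGBox (x : O m) : x * star x = ((x.norm : ℤ) : O m) :=
  (Zsqrtd.norm_eq_mul_conj x).symm

theorem prod_pos_EGBox {D : Finset ℕ} (hD : ∀ l ∈ D, l.Prime) : (1 : ℤ) ≤ ∏ l ∈ D, (l : ℤ) := by
  have h : (0 : ℤ) < ∏ l ∈ D, (l : ℤ) :=
    Finset.prod_pos fun l hl => by exact_mod_cast (hD l hl).pos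
  omega

theorem cop_prod_EGBox {D D' : Finset ℕ} (hd : Disjoint D D') (hD : ∀ l ∈ D, l.Prime)
    (hD' : ∀ l ∈ D', l.Prime) : IsCoprime (∏ l ∈ D, (l : ℤ)) (∏ l ∈ D', (l : ℤ)) := by
  refine IsCoprime.prod_left fun l hl => IsCoprime.prod_right fun l' hl' => ?_
  rw [Nat.isCoprime_iff_coprime]
  refine (Nat.coprime_primes (hD l hl) (hD' l' hl')).2 ?_
  rintro rfl
  exact (Finset.disjoint_left.1 hd hl) hl'

theorem cop_m_EGBox {D : Finset ℕ} (hD : ∀ l ∈ D, Split m l) :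
    IsCoprime (m : ℤ) (∏ l ∈ D, (l : ℤ)) := by
  refine IsCoprime.prod_right fun l hl => ?_
  rw [Nat.isCoprime_iff_coprime]
  refine ((Nat.Prime.coprime_iff_not_dvd (hD l hl).1).2 ?_).symm
  intro h
  exact (hD l hl).2.1 (Dvd.dvd.mul_left h 2)

theorem unit_EGBox (hm : 2 ≤ m) {u : O m} (hu : u.norm = 1) : u = 1 ∨ u = -1 := by
  rw [norm_eq] at hu
  have hm' : (2 : ℤ) ≤ m := by exact_mod_cast hm
  have hb : u.im = 0 := by
    by_contra hb
    have h1 : 1 ≤ u.im ^ 2 := by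
      have : 0 < u.im ^ 2 := by positivity
      omega
    nlinarith [sq_nonneg u.re]
  rw [hb] at hu
  have ha : u.re ^ 2 = 1 := by simpa using hu
  rcases sq_eq_one_iff.1 ha with h | h
  · left
    ext <;> simp [h, hb]
  · right
    ext <;> simp [h, hb]

theorem ne_zero_EGBox {x : O m} (hx : 1 ≤ x.norm) : x ≠ 0 := by
  rintro rfl
  simp at hx

/-- Two elements of one box that differ by a sign cannot exist. -/
theorem not_neg_EGBox (hm : 2 ≤ m) {D : Finset ℕ} {ρ : ℤ} {V : Finset (O m)} (h : Box m D ρ V)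
    (hD : ∀ l ∈ D, Split m l) {x : O m} (hx : x ∈ V) (hx' : -x ∈ V) : False := by
  have h1 := h.res x hx
  have h2 := h.res (-x) hx'
  have h3 : (m : O m) ^ 2 ∣ 2 * x := by
    have := dvd_sub h1 h2
    have e : x - (ρ : O m) - (-x - (ρ : O m)) = 2 * x := by ring
    rwa [e] at this
  have h4 := norm_dvd_norm h3
  rw [norm_pow', Zsqrtd.norm_natCast, Zsqrtd.norm_mul, h.nrm x hx] at h4
  have h5 : (2 : O m).norm = 4 := by
    have : (2 : O m) = ((2 : ℕ) : O m) := by norm_num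
    rw [this, Zsqrtd.norm_natCast]
    norm_num
  rw [h5] at h4
  have hc : IsCoprime (((m : ℤ) * m) ^ 2) (∏ l ∈ D, (l : ℤ)) :=
    ((cop_m_EGBox hD).mul_left (cop_m_EGBox hD)).pow_left
  have h6 : ((m : ℤ) * m) ^ 2 ∣ 4 := hc.dvd_of_dvd_mul_right h4
  have h7 := Int.le_of_dvd (by norm_num) h6
  have hm' : (2 : ℤ) ≤ m := by exact_mod_cast hm
  have h8 : (4 : ℤ) ≤ m * m := by nlinarith
  nlinarith

/-- Boxes multiply without loss. -/
theorem Box.mul (hm : 2 ≤ m) {D D' : Finset ℕ} {ρ ρ' : ℤ} {V V' : Finset (O m)} (h : Box m D ρ V)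
    (h' : Box m D' ρ' V') (hd : Disjoint D D') (hD : ∀ l ∈ D, Split m l) (hD' : ∀ l ∈ D', Split m l) :
    Box m (D ∪ D') (ρ * ρ') (image₂ (· * ·) V V') ∧ (image₂ (· * ·) V V').card = V.card * V'.card := by
  have hm1 : 1 ≤ m := by omega
  refine ⟨⟨?_, ?_⟩, ?_⟩
  · intro x hx
    obtain ⟨a, ha, b, hb, rfl⟩ := mem_image₂.1 hx
    rw [Zsqrtd.norm_mul, h.nrm a ha, h'.nrm b hb, Finset.prod_union hd]
  · intro x hx
    obtain ⟨a, ha, b, hb, rfl⟩ := mem_image₂.1 hx
    have e : a * b - ((ρ * ρ' : ℤ) : O m) = a * (b - (ρ' : O m)) + (a - (ρ : O m)) * (ρ' : O m) := by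
      push_cast
      ring
    rw [e]
    exact dvd_add (Dvd.dvd.mul_left (h'.res b hb) _) (Dvd.dvd.mul_right (h.res a ha) _)
  · rw [card_image₂_iff]
    rintro ⟨a, b⟩ hab ⟨a', b'⟩ hab' hq
    simp only [Set.mem_prod, mem_coe] at hab hab'
    obtain ⟨ha, hb⟩ := hab
    obtain ⟨ha', hb'⟩ := hab'
    have hq' : a * b = a' * b' := hq
    have hn := prod_pos_EGBox fun l hl => (hD l hl).1
    have hc := cop_prod_EGBox hd (fun l hl => (hD l hl).1) fun l hl => (hD' l hl).1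
    have na := h.nrm a ha
    have na' := h.nrm a' ha'
    have nb := h'.nrm b hb
    generalize (∏ l ∈ D, (l : ℤ)) = n at hn hc na na'
    generalize (∏ l ∈ D', (l : ℤ)) = n' at hc nb
    have e1 : (n' : O m) * (a * star a') = (n : O m) * (b' * star b) := by
      have t1 := mul_star_EGBox b
      have t2 := mul_star_EGBox a'
      rw [nb] at t1
      rw [na'] at t2
      rw [← t1, ← t2]
      linear_combination (star a' * star b) * hq'
    obtain ⟨s, t, hst⟩ := hc
    have hst' : (s : O m) * n + t * n' = 1 := by exact_mod_cast congrArg (Int.cast : ℤ → O m) hst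
    have e2 : a * star a' = (n : O m) * (s * (a * star a') + t * (b' * star b)) := by
      linear_combination (t : O m) * e1 - (a * star a') * hst'
    generalize (s * (a * star a') + t * (b' * star b) : O m) = u at e2
    have nu : u.norm = 1 := by
      have := congrArg Zsqrtd.norm e2
      rw [Zsqrtd.norm_mul, Zsqrtd.norm_mul, Zsqrtd.norm_conj, Zsqrtd.norm_intCast, na, na'] at this
      have hnn : n * n ≠ 0 := by positivity
      exact (mul_left_cancel₀ hnn (by rw [mul_one]; exact this)).symm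
    have hs : star a' ≠ 0 := ne_zero_EGBox (by rw [Zsqrtd.norm_conj, na']; exact hn)
    have t2 := mul_star_EGBox a'
    rw [na'] at t2
    rcases unit_EGBox hm nu with hu | hu
    · have e3 : a = a' := by
        refine o_cancel hm1 hs ?_
        rw [hu] at e2
        linear_combination e2 - t2
      subst e3
      have e4 : b = b' := o_cancel hm1 (ne_zero_EGBox (by rw [na]; exact hn)) hq'
      rw [e4]
    · exfalso
      have e3 : a = -a' := by
        refine o_cancel hm1 hs ?_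
        rw [hu] at e2
        linear_combination e2 + t2
      exact not_neg_EGBox hm h hD ha' (e3 ▸ ha)

theorem not_sq_EGBox {D : Finset ℕ} (hD : ∀ l ∈ D, l.Prime) {l : ℕ} (hl : l ∈ D) :
    ¬ (l : ℤ) * l ∣ ∏ k ∈ D, (k : ℤ) := by
  intro h
  rw [← Finset.mul_prod_erase D _ hl] at h
  have hl0 : (l : ℤ) ≠ 0 := by exact_mod_cast (hD l hl).ne_zero
  have h1 : (l : ℤ) ∣ ∏ k ∈ D.erase l, (k : ℤ) := (mul_dvd_mul_iff_left hl0).1 h
  have hp : Prime (l : ℤ) := Nat.prime_iff_prime_int.1 (hD l hl)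
  obtain ⟨k, hk, hlk⟩ := (hp.dvd_finsetProd_iff _).1 h1
  have h2 : l ∣ k := by exact_mod_cast hlk
  have h3 := (Nat.prime_dvd_prime_iff_eq (hD l hl) (hD k (mem_of_mem_erase hk))).1 h2
  exact (ne_of_mem_erase hk) h3.symm

/-- An element of a box is coprime to its conjugate. -/
theorem Box.coprime_star {D : Finset ℕ} {ρ : ℤ} {V : Finset (O m)} (h : Box m D ρ V)
    (hD : ∀ l ∈ D, Split m l) {e : O m} (he : e ∈ V) : IsCoprime e (star e) := by
  have hn := h.nrm e he
  have hc : IsCoprime (∏ l ∈ D, (l : ℤ)) (2 * e.re) := by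
    refine IsCoprime.prod_left fun l hl => ?_
    have hp : Prime (l : ℤ) := Nat.prime_iff_prime_int.1 (hD l hl).1
    refine (hp.irreducible.coprime_iff_not_dvd).2 ?_
    intro hdv
    have hl2 : ¬ (l : ℤ) ∣ 2 := by
      intro h2
      have : l ∣ 2 := by exact_mod_cast h2
      exact (hD l hl).2.1 (Dvd.dvd.mul_right this m)
    have hlm : ¬ (l : ℤ) ∣ m := by
      intro h2
      have : l ∣ m := by exact_mod_cast h2
      exact (hD l hl).2.1 (Dvd.dvd.mul_left this 2)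
    have ha : (l : ℤ) ∣ e.re := (hp.dvd_or_dvd hdv).resolve_left hl2
    have hN : (l : ℤ) ∣ e.norm := by
      rw [hn]
      exact Finset.dvd_prod_of_mem _ hl
    rw [norm_eq] at hN
    have h1 : (l : ℤ) ∣ m * e.im ^ 2 := (dvd_add_right (Dvd.dvd.pow ha two_ne_zero)).1 hN
    have hb : (l : ℤ) ∣ e.im := hp.dvd_of_dvd_pow ((hp.dvd_or_dvd h1).resolve_left hlm)
    refine not_sq_EGBox (fun k hk => (hD k hk).1) hl ?_
    rw [← hn, norm_eq]
    obtain ⟨a, ha⟩ := ha
    obtain ⟨b, hb⟩ := hb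
    exact ⟨a ^ 2 + m * b ^ 2, by rw [ha, hb]; ring⟩
  rw [← hn] at hc
  obtain ⟨u, v, huv⟩ := hc
  have h1 : (u : O m) * (e.norm : O m) + v * (2 * (e.re : O m)) = 1 := by
    exact_mod_cast congrArg (Int.cast : ℤ → O m) huv
  have h2 : e + star e = 2 * (e.re : O m) := by
    ext
    · simp [two_mul]
    · simp
  have h3 := mul_star_EGBox e
  exact ⟨u * star e + v, v, by linear_combination h1 + (u : O m) * h3 + (v : O m) * h2⟩

/-- Thue's lemma for a set of split primes with chosen roots. -/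
theorem thue (hm : 1 ≤ m) (S : Finset ℕ) (hS : ∀ l ∈ S, l.Prime) (r : ℕ → ℤ)
    (hr : ∀ l ∈ S, (l : ℤ) ∣ r l ^ 2 + m) :
    ∃ (w : O m) (c : ℕ), 1 ≤ c ∧ c ≤ m + 1 ∧ w.norm = c * ∏ l ∈ S, (l : ℤ) ∧
      ∀ l ∈ S, (l : ℤ) ∣ w.re + w.im * r l := by
  classical
  set n : ℕ := ∏ l ∈ S, l with hn
  set s : ℕ := Nat.sqrt n with hs
  have hcard : (S.pi fun l => Ico (0 : ℤ) l).card < (range (s + 1) ×ˢ range (s + 1)).card := by
    rw [Finset.card_pi, card_product, card_range]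
    have : ∏ l ∈ S, (Ico (0 : ℤ) l).card = n := by
      refine Finset.prod_congr rfl fun l _ => ?_
      simp
    rw [this]
    exact Nat.lt_succ_sqrt n
  obtain ⟨p, hp, q, hq, hpq, hf⟩ := Finset.exists_ne_map_eq_of_card_lt_of_maps_to hcard
    (f := fun (p : ℕ × ℕ) (l : ℕ) (_ : l ∈ S) => ((p.1 : ℤ) + p.2 * r l) % l) (by
      intro p _
      rw [mem_coe, Finset.mem_pi]
      intro l hl
      have hl0 : (0 : ℤ) < l := by exact_mod_cast (hS l hl).pos
      exact mem_Ico.2 ⟨Int.emod_nonneg _ hl0.ne', Int.emod_lt_of_pos _ hl0⟩)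
  rw [mem_product, mem_range, mem_range] at hp hq
  set w : O m := ⟨(p.1 : ℤ) - q.1, (p.2 : ℤ) - q.2⟩ with hw
  have hre : w.re = (p.1 : ℤ) - q.1 := rfl
  have him : w.im = (p.2 : ℤ) - q.2 := rfl
  have hw0 : w ≠ 0 := by
    intro h0
    have h1 : w.re = 0 := by rw [h0]; rfl
    have h2 : w.im = 0 := by rw [h0]; rfl
    apply hpq
    ext <;> omega
  have hdv : ∀ l ∈ S, (l : ℤ) ∣ w.re + w.im * r l := by
    intro l hl
    have h1 : ((p.1 : ℤ) + p.2 * r l) % l = ((q.1 : ℤ) + q.2 * r l) % l :=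
      congrFun (congrFun hf l) hl
    have h2 := Int.ModEq.dvd (Int.ModEq.symm h1)
    have e : w.re + w.im * r l = (p.1 : ℤ) + p.2 * r l - ((q.1 : ℤ) + q.2 * r l) := by
      rw [hre, him]
      ring
    rw [e]
    exact h2
  have hN : (∏ l ∈ S, (l : ℤ)) ∣ w.norm := by
    refine Finset.prod_dvd_of_coprime ?_ ?_
    · intro l hl k hk hlk
      show IsCoprime (l : ℤ) (k : ℤ)
      rw [Nat.isCoprime_iff_coprime]
      exact (Nat.coprime_primes (hS l hl) (hS k hk)).2 hlk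
    · intro l hl
      have e : w.norm = (w.re + w.im * r l) * (w.re - w.im * r l) + w.im ^ 2 * (r l ^ 2 + m) := by
        rw [norm_eq]
        ring
      rw [e]
      exact dvd_add (Dvd.dvd.mul_right (hdv l hl) _) (Dvd.dvd.mul_left (hr l hl) _)
  have hnz : (∏ l ∈ S, (l : ℤ)) = (n : ℤ) := by
    rw [hn]
    push_cast
    rfl
  have hn1 := prod_pos_EGBox hS
  rw [hnz] at hN hn1 ⊢
  obtain ⟨c, hc⟩ := hN
  have hpos := norm_pos' hm hw0
  have hss : (s : ℤ) * s ≤ n := by exact_mod_cast Nat.sqrt_le n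
  have b1 : w.re ^ 2 ≤ (s : ℤ) ^ 2 := by
    refine sq_le_sq' ?_ ?_ <;> rw [hre] <;> omega
  have b2 : w.im ^ 2 ≤ (s : ℤ) ^ 2 := by
    refine sq_le_sq' ?_ ?_ <;> rw [him] <;> omega
  have hm0 : (0 : ℤ) ≤ m := by positivity
  have hle : w.norm ≤ n * (m + 1) := by
    rw [norm_eq]
    nlinarith [mul_le_mul_of_nonneg_left b2 hm0, mul_le_mul_of_nonneg_left hss hm0]
  have hc1 : 1 ≤ c := by
    by_contra hlt
    have : c ≤ 0 := by omega
    nlinarith
  have hc2 : c ≤ m + 1 := by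
    rw [hc] at hle
    exact le_of_mul_le_mul_left hle (by omega)
  refine ⟨w, c.toNat, by omega, by omega, ?_, hdv⟩
  rw [hc, Int.toNat_of_nonneg (by omega), mul_comm]

/-- Subsets of size below a quarter are few. -/
theorem small_subsets (C : Finset ℕ) :
    ((C.powerset.filter fun D => 4 * D.card < C.card).card : ℝ) ≤ (176 / 100 : ℝ) ^ C.card := by
  have key : ∀ D ∈ C.powerset.filter fun D => 4 * D.card < C.card,
      (1 : ℝ) ≤ (132 / 100 : ℝ) ^ C.card * ((1 / 3 : ℝ) ^ D.card * 1 ^ (C.card - D.card)) := by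
    intro D hD
    have h4 := (mem_filter.1 hD).2
    have h1 : (3 : ℝ) ^ D.card ≤ (132 / 100 : ℝ) ^ C.card := by
      calc (3 : ℝ) ^ D.card ≤ ((132 / 100 : ℝ) ^ 4) ^ D.card :=
            pow_le_pow_left₀ (by norm_num) (by norm_num) _
        _ = (132 / 100 : ℝ) ^ (4 * D.card) := by rw [pow_mul]
        _ ≤ (132 / 100 : ℝ) ^ C.card := pow_le_pow_right₀ (by norm_num) h4.le
    have h3 : (0 : ℝ) < (3 : ℝ) ^ D.card := by positivity
    rw [one_pow, mul_one, one_div, inv_pow, ← div_eq_mul_inv, le_div_iff₀ h3, one_mul]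
    exact h1
  calc ((C.powerset.filter fun D => 4 * D.card < C.card).card : ℝ)
      = ∑ D ∈ C.powerset.filter fun D => 4 * D.card < C.card, (1 : ℝ) := by simp
    _ ≤ ∑ D ∈ C.powerset.filter fun D => 4 * D.card < C.card,
          (132 / 100 : ℝ) ^ C.card * ((1 / 3 : ℝ) ^ D.card * 1 ^ (C.card - D.card)) :=
        Finset.sum_le_sum key
    _ ≤ ∑ D ∈ C.powerset,
          (132 / 100 : ℝ) ^ C.card * ((1 / 3 : ℝ) ^ D.card * 1 ^ (C.card - D.card)) :=
        Finset.sum_le_sum_of_subset_of_nonneg (filter_subset _ _) fun _ _ _ => by positivity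
    _ = (132 / 100 : ℝ) ^ C.card * (1 / 3 + 1) ^ C.card := by
        rw [← Finset.mul_sum, Finset.sum_pow_mul_eq_add_pow]
    _ = (176 / 100 : ℝ) ^ C.card := by
        rw [← mul_pow]
        norm_num

end Pool.Agent.P.MP_b75a1e_co.EG
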