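import Pool.Agent.P.MP_b75a1e_co.EGBasic

set_option autoImplicit false

open Finset
open scoped BigOperators ComplexConjugate

namespace Pool.Agent.P.MP_b75a1e_co.EG

theorem norm_sq_mu_EGHeight (m : ℕ) : ‖ph m (mu m)‖ ^ 2 = (m : ℝ) ^ 3 := by
  rw [norm_sq_ph, norm_mu]; push_cast; rfl

theorem lam_ge_EGHeight {m : ℕ} (hm : 1 ≤ m) {lam : ℝ} (hlam : 100 * (m : ℝ) ^ 3 ≤ lam) :
    100 ≤ lam ∧ (m : ℝ) ^ 3 ≤ lam := by
  have h1 : (1 : ℝ) ≤ m := by exact_mod_cast hm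
  have h2 : (1 : ℝ) ≤ (m : ℝ) ^ 3 := one_le_pow₀ h1
  constructor <;> linarith

theorem g_ne_EGHeight {m : ℕ} {g : O m} {lam NN0 : ℝ} (h0 : 0 < NN0)
    (h1 : NN0 ≤ g.norm * lam ^ 200) : g ≠ 0 := by
  rintro rfl
  simp at h1
  linarith

theorem mul_ne_EGHeight {m : ℕ} (hm : 1 ≤ m) {x y : O m} (hx : x ≠ 0) (hy : y ≠ 0) :
    x * y ≠ 0 := by
  intro h
  exact hy (o_cancel hm hx (by rw [h, mul_zero]))

/-- Two good approximations agree. -/
theorem link_EGHeight (m : ℕ) (hm : 1 ≤ m) (g w0 a0 w1 a1 : O m) (θ : ℂ) (lam NN0 : ℝ)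
    (hlam : 100 * (m : ℝ) ^ 3 ≤ lam) (_h0 : 0 < NN0) (h2 : g.norm * lam ^ 200 ≤ 2 * NN0)
    (hw0 : (w0.norm : ℝ) ≤ lam ^ 139) (he0 : ‖θ * ph m w0 - ph m a0‖ ^ 2 * NN0 ≤ lam ^ 139)
    (hw1 : (w1.norm : ℝ) ≤ lam ^ 60)
    (he1 : ‖θ / ph m (mu m) * ph m g * ph m w1 - ph m a1‖ ^ 2 * lam ^ 200 ≤ lam ^ 60) :
    mu m * a1 * w0 = a0 * g * w1 := by
  obtain ⟨hl, -⟩ := lam_ge_EGHeight hm hlam
  have hl0 : 0 < lam := by linarith
  have hmu : ph m (mu m) ≠ 0 := ph_ne_zero hm (mu_ne_zero hm)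
  set e0 := θ * ph m w0 - ph m a0 with he0d
  set e1 := θ / ph m (mu m) * ph m g * ph m w1 - ph m a1 with he1d
  have key : ph m (mu m * a1 * w0 - a0 * g * w1) =
      e0 * ph m g * ph m w1 - ph m (mu m) * e1 * ph m w0 := by
    rw [he0d, he1d]
    simp only [map_sub, map_mul]
    field_simp
    ring
  have hg0 : (0 : ℝ) ≤ g.norm := by exact_mod_cast norm_nonneg' g
  have hw00 : (0 : ℝ) ≤ w0.norm := by exact_mod_cast norm_nonneg' w0
  have hw10 : (0 : ℝ) ≤ w1.norm := by exact_mod_cast norm_nonneg' w1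
  have hA : ‖e0 * ph m g * ph m w1‖ ^ 2 ≤ (1 / 4) ^ 2 := by
    rw [norm_mul, norm_mul, mul_pow, mul_pow, norm_sq_ph, norm_sq_ph]
    have hE : 0 ≤ ‖e0‖ ^ 2 := sq_nonneg _
    generalize ‖e0‖ ^ 2 = E at *
    have s1 : E * (g.norm * lam ^ 200) ≤ 2 * lam ^ 139 := by
      calc E * (g.norm * lam ^ 200) ≤ E * (2 * NN0) := mul_le_mul_of_nonneg_left h2 hE
        _ = 2 * (E * NN0) := by ring
        _ ≤ 2 * lam ^ 139 := by linarith
    have s2 : E * g.norm * w1.norm * lam ^ 200 ≤ 2 * lam ^ 199 := by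
      calc E * g.norm * w1.norm * lam ^ 200 = E * (g.norm * lam ^ 200) * w1.norm := by ring
        _ ≤ 2 * lam ^ 139 * lam ^ 60 :=
          mul_le_mul s1 hw1 hw10 (by positivity)
        _ = 2 * lam ^ 199 := by ring
    have s3 : 2 * lam ^ 199 ≤ (1 / 4) ^ 2 * lam ^ 200 := by
      have : (0 : ℝ) < lam ^ 199 := by positivity
      have e : lam ^ 200 = lam * lam ^ 199 := by ring
      rw [e]
      generalize lam ^ 199 = L at *
      nlinarith
    exact le_of_mul_le_mul_right (s2.trans s3) (by positivity)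
  have hB : ‖ph m (mu m) * e1 * ph m w0‖ ^ 2 ≤ (1 / 4) ^ 2 := by
    rw [norm_mul, norm_mul, mul_pow, mul_pow, norm_sq_mu_EGHeight, norm_sq_ph]
    have hE : 0 ≤ ‖e1‖ ^ 2 := sq_nonneg _
    generalize ‖e1‖ ^ 2 = E at *
    have hm3 : (0 : ℝ) ≤ (m : ℝ) ^ 3 := by positivity
    generalize (m : ℝ) ^ 3 = M at *
    have s2 : M * E * w0.norm * lam ^ 200 ≤ M * lam ^ 199 := by
      calc M * E * w0.norm * lam ^ 200 = M * (E * lam ^ 200 * w0.norm) := by ring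
        _ ≤ M * (lam ^ 60 * lam ^ 139) :=
          mul_le_mul_of_nonneg_left (mul_le_mul he1 hw0 hw00 (by positivity)) hm3
        _ = M * lam ^ 199 := by ring
    have s3 : M * lam ^ 199 ≤ (1 / 4) ^ 2 * lam ^ 200 := by
      have : (0 : ℝ) < lam ^ 199 := by positivity
      have e : lam ^ 200 = lam * lam ^ 199 := by ring
      rw [e]
      generalize lam ^ 199 = L at *
      nlinarith
    exact le_of_mul_le_mul_right (s2.trans s3) (by positivity)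
  have hA' := (pow_le_pow_iff_left₀ (norm_nonneg _) (by norm_num) two_ne_zero).1 hA
  have hB' := (pow_le_pow_iff_left₀ (norm_nonneg _) (by norm_num) two_ne_zero).1 hB
  have hz : mu m * a1 * w0 - a0 * g * w1 = 0 := by
    apply eq_zero_of_norm_lt hm
    rw [key]
    have := norm_sub_le (e0 * ph m g * ph m w1) (ph m (mu m) * e1 * ph m w0)
    linarith
  exact sub_eq_zero.1 hz

/-- L5: one of the two versions is not low. -/
theorem versions (m : ℕ) (hm : 1 ≤ m) (g : O m) (hg : IsCoprime g (star g)) (θ : ℂ) (lam NN0 : ℝ)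
    (hlam : 100 * (m : ℝ) ^ 3 ≤ lam) (h0 : 0 < NN0) (h1 : NN0 ≤ g.norm * lam ^ 200)
    (h2 : g.norm * lam ^ 200 ≤ 2 * NN0) (hL : Low m θ (lam ^ 139) NN0)
    (hN : ¬ Low m θ (lam ^ 121) NN0) :
    ¬ Low m (θ / ph m (mu m) * ph m g) (lam ^ 60) (lam ^ 200) ∨
      ¬ Low m (conj θ / ph m (mu m) * ph m g) (lam ^ 60) (lam ^ 200) := by
  by_contra hcon
  rw [not_or, not_not, not_not] at hcon
  obtain ⟨⟨w1, a1, hw1, hn1, he1⟩, ⟨w2, a2, hw2, hn2, he2⟩⟩ := hcon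
  obtain ⟨w0, a0, hw0, hn0, he0⟩ := hL
  obtain ⟨hl, hml⟩ := lam_ge_EGHeight hm hlam
  have hl0 : 0 < lam := by linarith
  have hmu : ph m (mu m) ≠ 0 := ph_ne_zero hm (mu_ne_zero hm)
  have hcmu : conj (ph m (mu m)) = -ph m (mu m) := by rw [← ph_star, star_mu, map_neg]
  have he2' : ‖θ / ph m (mu m) * ph m (star g) * ph m (star w2) - ph m (-star a2)‖ ^ 2 * lam ^ 200
      ≤ lam ^ 60 := by
    have e : θ / ph m (mu m) * ph m (star g) * ph m (star w2) - ph m (-star a2) =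
        -conj (conj θ / ph m (mu m) * ph m g * ph m w2 - ph m a2) := by
      simp only [map_sub, map_mul, map_div₀, map_neg, ph_star, Complex.conj_conj, hcmu]
      field_simp
      ring
    rw [e, norm_neg, Complex.norm_conj]
    exact he2
  have L1 := link_EGHeight m hm g w0 a0 w1 a1 θ lam NN0 hlam h0 h2 hn0 he0 hn1 he1
  have L2 := link_EGHeight m hm (star g) w0 a0 (star w2) (-star a2) θ lam NN0 hlam h0
    (by rw [Zsqrtd.norm_conj]; exact h2) hn0 he0 (by rw [Zsqrtd.norm_conj]; exact hn2) he2'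
  obtain ⟨x, y, hxy⟩ := hg
  have hw2' : star w2 ≠ 0 := by
    intro h
    apply hw2
    have := congrArg star h
    simpa using this
  have hn2' : ((star w2).norm : ℝ) ≤ lam ^ 60 := by rw [Zsqrtd.norm_conj]; exact hn2
  generalize star w2 = v2 at *
  generalize -star a2 = b2 at *
  have hstar : a0 * w1 * v2 = w0 * (mu m * (x * a1 * v2 + y * b2 * w1)) := by
    linear_combination (-(a0 * w1 * v2)) * hxy - x * v2 * L1 - y * w1 * L2
  have hw10 : (0 : ℝ) ≤ w1.norm := by exact_mod_cast norm_nonneg' w1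
  have hv20 : (0 : ℝ) ≤ v2.norm := by exact_mod_cast norm_nonneg' v2
  apply hN
  refine ⟨w1 * v2, mu m * (x * a1 * v2 + y * b2 * w1), mul_ne_EGHeight hm hw1 hw2', ?_, ?_⟩
  · rw [Zsqrtd.norm_mul]
    push_cast
    calc (w1.norm : ℝ) * v2.norm ≤ lam ^ 60 * lam ^ 60 := mul_le_mul hn1 hn2' hv20 (by positivity)
      _ = lam ^ 120 := by ring
      _ ≤ lam ^ 121 := pow_le_pow_right₀ (by linarith) (by norm_num)
  · generalize mu m * (x * a1 * v2 + y * b2 * w1) = s at *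
    have hw0c : ph m w0 ≠ 0 := ph_ne_zero hm hw0
    have c1 := congrArg (ph m) L1
    have c2 := congrArg (ph m) hstar
    simp only [map_mul] at c1 c2
    have key : (θ * ph m (w1 * v2) - ph m s) * ph m g =
        ph m (mu m) * (θ / ph m (mu m) * ph m g * ph m w1 - ph m a1) * ph m v2 := by
      apply mul_right_cancel₀ hw0c
      rw [map_mul]
      have e : ph m (mu m) * (θ / ph m (mu m) * ph m g * ph m w1 - ph m a1) =
          θ * ph m g * ph m w1 - ph m (mu m) * ph m a1 := by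
        field_simp
      rw [e]
      linear_combination (ph m g) * c2 + ph m v2 * c1
    have k2 := congrArg (fun z : ℂ => ‖z‖ ^ 2) key
    simp only [norm_mul, mul_pow, norm_sq_mu_EGHeight] at k2
    rw [norm_sq_ph g, norm_sq_ph v2] at k2
    have hE : 0 ≤ ‖θ * ph m (w1 * v2) - ph m s‖ ^ 2 := sq_nonneg _
    generalize ‖θ * ph m (w1 * v2) - ph m s‖ ^ 2 = E at *
    generalize ‖θ / ph m (mu m) * ph m g * ph m w1 - ph m a1‖ ^ 2 = E1 at *
    calc E * NN0 ≤ E * (g.norm * lam ^ 200) := mul_le_mul_of_nonneg_left h1 hE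
      _ = (E * g.norm) * lam ^ 200 := by ring
      _ = (m : ℝ) ^ 3 * (E1 * lam ^ 200 * v2.norm) := by rw [k2]; ring
      _ ≤ lam * (lam ^ 60 * lam ^ 60) := by
        have h3 : E1 * lam ^ 200 * v2.norm ≤ lam ^ 60 * lam ^ 60 :=
          mul_le_mul he1 hn2' hv20 (by positivity)
        calc (m : ℝ) ^ 3 * (E1 * lam ^ 200 * v2.norm) ≤ (m : ℝ) ^ 3 * (lam ^ 60 * lam ^ 60) :=
              mul_le_mul_of_nonneg_left h3 (by positivity)
          _ ≤ lam * (lam ^ 60 * lam ^ 60) := mul_le_mul_of_nonneg_right hml (by positivity)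
      _ = lam ^ 121 := by ring

/-- L5 at the top scale. -/
theorem version_top (m : ℕ) (hm : 1 ≤ m) (g : O m) (θ : ℂ) (lam NN0 : ℝ)
    (hlam : 100 * (m : ℝ) ^ 3 ≤ lam) (h0 : 0 < NN0) (h1 : NN0 ≤ g.norm * lam ^ 200)
    (hg : (g.norm : ℝ) ≤ lam ^ 50) (hN : ¬ Low m θ (lam ^ 121) NN0) :
    ¬ Low m (θ / ph m (mu m) * ph m g) (lam ^ 60) (lam ^ 200) := by
  rintro ⟨w1, a1, hw1, hn1, he1⟩
  obtain ⟨hl, hml⟩ := lam_ge_EGHeight hm hlam
  have hl0 : 0 < lam := by linarith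
  have hmu : ph m (mu m) ≠ 0 := ph_ne_zero hm (mu_ne_zero hm)
  have hw10 : (0 : ℝ) ≤ w1.norm := by exact_mod_cast norm_nonneg' w1
  have hg0 : (0 : ℝ) ≤ g.norm := by exact_mod_cast norm_nonneg' g
  apply hN
  refine ⟨g * w1, mu m * a1, mul_ne_EGHeight hm (g_ne_EGHeight h0 h1) hw1, ?_, ?_⟩
  · rw [Zsqrtd.norm_mul]
    push_cast
    calc (g.norm : ℝ) * w1.norm ≤ lam ^ 50 * lam ^ 60 := mul_le_mul hg hn1 hw10 (by positivity)
      _ = lam ^ 110 := by ring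
      _ ≤ lam ^ 121 := pow_le_pow_right₀ (by linarith) (by norm_num)
  · have key : θ * ph m (g * w1) - ph m (mu m * a1) =
        ph m (mu m) * (θ / ph m (mu m) * ph m g * ph m w1 - ph m a1) := by
      simp only [map_mul]
      field_simp
    rw [key, norm_mul, mul_pow, norm_sq_mu_EGHeight]
    have hE : 0 ≤ ‖θ / ph m (mu m) * ph m g * ph m w1 - ph m a1‖ ^ 2 := sq_nonneg _
    generalize ‖θ / ph m (mu m) * ph m g * ph m w1 - ph m a1‖ ^ 2 = E1 at *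
    have h3 : E1 * NN0 ≤ lam ^ 60 * lam ^ 50 := by
      calc E1 * NN0 ≤ E1 * (g.norm * lam ^ 200) := mul_le_mul_of_nonneg_left h1 hE
        _ = E1 * lam ^ 200 * g.norm := by ring
        _ ≤ lam ^ 60 * lam ^ 50 := mul_le_mul he1 hg hg0 (by positivity)
    calc (m : ℝ) ^ 3 * E1 * NN0 = (m : ℝ) ^ 3 * (E1 * NN0) := by ring
      _ ≤ (m : ℝ) ^ 3 * (lam ^ 60 * lam ^ 50) := mul_le_mul_of_nonneg_left h3 (by positivity)
      _ ≤ lam * (lam ^ 60 * lam ^ 50) := mul_le_mul_of_nonneg_right hml (by positivity)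
      _ = lam ^ 111 := by ring
      _ ≤ lam ^ 121 := pow_le_pow_right₀ (by linarith) (by norm_num)

theorem reduce_EGHeight (m : ℕ) (n : ℕ) : ∀ β0 : O m, 1 ≤ n →
    ∃ (β : O m) (d : ℕ), 1 ≤ d ∧ d ≤ n ∧ PrimAt β d ∧ ph m β / d = ph m β0 / n := by
  induction n using Nat.strong_induction_on with
  | _ n ih =>
    intro β0 hn
    by_cases hP : PrimAt β0 n
    · exact ⟨β0, n, hn, le_rfl, hP, rfl⟩
    · unfold PrimAt at hP
      push Not at hP
      obtain ⟨l, hl, ⟨n1, rfl⟩, ⟨β1, rfl⟩⟩ := hP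
      have hn1 : 1 ≤ n1 := by
        rcases Nat.eq_zero_or_pos n1 with h | h
        · subst h; simp at hn
        · exact h
      have hlt : n1 < l * n1 := by
        have := hl.two_le
        nlinarith
      obtain ⟨β, d, h1, h2, h3, h4⟩ := ih n1 hlt β1 hn1
      refine ⟨β, d, h1, h2.trans hlt.le, h3, ?_⟩
      have hl0 : (l : ℂ) ≠ 0 := by exact_mod_cast hl.ne_zero
      rw [h4, map_mul, map_natCast]
      push_cast
      rw [mul_div_mul_left _ _ hl0]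

theorem near_of_low (m : ℕ) (hm : 1 ≤ m) (θ : ℂ) (H X : ℝ) (hX : 0 ≤ X) (h : Low m θ H X) :
    ∃ (β : O m) (d : ℕ), Near m θ β d H X := by
  obtain ⟨w, a, hw, hn, he⟩ := h
  have h1 : 1 ≤ w.norm := norm_pos' hm hw
  obtain ⟨n, hnw⟩ : ∃ n : ℕ, (n : ℤ) = w.norm := ⟨w.norm.toNat, Int.toNat_of_nonneg (by omega)⟩
  have hn1 : 1 ≤ n := by omega
  obtain ⟨β, d, hd1, hd2, hP, hq⟩ := reduce_EGHeight m n (a * star w) hn1
  have hnr : (n : ℝ) = (w.norm : ℝ) := by exact_mod_cast hnw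
  have hwc : ph m w ≠ 0 := ph_ne_zero hm hw
  refine ⟨β, d, hd1, ?_, hP, ?_⟩
  · calc (d : ℝ) ≤ n := by exact_mod_cast hd2
      _ ≤ H := by rw [hnr]; exact hn
  · have hnc : (n : ℂ) = ph m w * ph m (star w) := by
      rw [← map_mul, ← Zsqrtd.norm_eq_mul_conj, ← hnw]
      simp
    have hs : ph m (star w) ≠ 0 := by
      rw [ph_star]; simpa using hwc
    have key : (θ - ph m β / d) * ph m w = θ * ph m w - ph m a := by
      rw [hq, hnc, map_mul]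
      field_simp
    rw [← key, norm_mul, mul_pow, norm_sq_ph] at he
    have hE : 0 ≤ ‖θ - ph m β / d‖ ^ 2 * X := mul_nonneg (sq_nonneg _) hX
    have h1r : (1 : ℝ) ≤ w.norm := by exact_mod_cast h1
    calc ‖θ - ph m β / d‖ ^ 2 * X ≤ ‖θ - ph m β / d‖ ^ 2 * X * w.norm :=
          le_mul_of_one_le_right hE h1r
      _ = ‖θ - ph m β / d‖ ^ 2 * w.norm * X := by ring
      _ ≤ H := he

theorem card_Icc_EGHeight (a R : ℝ) (hR : 0 ≤ R) :
    ((Icc ⌈a - R⌉ ⌊a + R⌋).card : ℝ) ≤ 2 * R + 1 := by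
  rw [Int.card_Icc]
  rcases le_total 0 (⌊a + R⌋ + 1 - ⌈a - R⌉) with h | h
  · have e : (((⌊a + R⌋ + 1 - ⌈a - R⌉).toNat : ℤ) : ℝ) = ((⌊a + R⌋ + 1 - ⌈a - R⌉ : ℤ) : ℝ) := by
      rw [Int.toNat_of_nonneg h]
    push_cast at e
    rw [e]
    have := Int.floor_le (a + R)
    have := Int.le_ceil (a - R)
    linarith
  · rw [Int.toNat_eq_zero.2 h]
    simp only [Nat.cast_zero]
    linarith

open Classical in
theorem line_EGHeight (Mg d : ℕ) (hd : 1 ≤ d) (r : ℝ) (hr : 0 ≤ r) :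
    (((Ico (0 : ℤ) Mg).filter fun n : ℤ => ∃ b : ℤ, |(n : ℝ) / Mg - (b : ℝ) / d| ≤ r).card : ℝ) ≤
      d * (2 * (Mg * r) + 1) := by
  have hdr : (0 : ℝ) < d := by exact_mod_cast hd
  have hsub : ((Ico (0 : ℤ) Mg).filter fun n : ℤ => ∃ b : ℤ, |(n : ℝ) / Mg - (b : ℝ) / d| ≤ r) ⊆
      ((Ico (0 : ℤ) d).biUnion fun ρ =>
        Icc ⌈(Mg : ℝ) * ρ / d - Mg * r⌉ ⌊(Mg : ℝ) * ρ / d + Mg * r⌋).image
          (fun k : ℤ => k % (Mg : ℤ)) := by
    intro n hn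
    obtain ⟨hn1, b, hb⟩ := mem_filter.1 hn
    obtain ⟨hn0, hnM⟩ := mem_Ico.1 hn1
    have hM : (0 : ℤ) < Mg := by omega
    have hMr : (0 : ℝ) < Mg := by exact_mod_cast hM
    have hdz : (0 : ℤ) < d := by exact_mod_cast hd
    refine mem_image.2 ⟨n - Mg * (b / d), mem_biUnion.2 ⟨b % d, mem_Ico.2
      ⟨Int.emod_nonneg _ hdz.ne', Int.emod_lt_of_pos _ hdz⟩, ?_⟩, ?_⟩
    · have hbq : (b : ℝ) = d * ((b / d : ℤ) : ℝ) + ((b % d : ℤ) : ℝ) := by
        exact_mod_cast (Int.mul_ediv_add_emod b d).symm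
      generalize b / (d : ℤ) = q at *
      generalize b % (d : ℤ) = ρ at *
      have e : ((n - Mg * q : ℤ) : ℝ) - (Mg : ℝ) * ρ / d = Mg * ((n : ℝ) / Mg - (b : ℝ) / d) := by
        rw [hbq]
        push_cast
        field_simp
        ring
      obtain ⟨hb1, hb2⟩ := abs_le.1 hb
      have k1 := mul_le_mul_of_nonneg_left hb1 hMr.le
      have k2 := mul_le_mul_of_nonneg_left hb2 hMr.le
      refine mem_Icc.2 ⟨Int.ceil_le.2 ?_, Int.le_floor.2 ?_⟩ <;> linarith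
    · show (n - Mg * (b / d)) % (Mg : ℤ) = n
      rw [Int.sub_mul_emod_self_left, Int.emod_eq_of_lt hn0 hnM]
  have h1 := (card_le_card hsub).trans (card_image_le.trans card_biUnion_le)
  have h2 : ((((Ico (0 : ℤ) Mg).filter
      fun n : ℤ => ∃ b : ℤ, |(n : ℝ) / Mg - (b : ℝ) / d| ≤ r).card : ℕ) : ℝ) ≤
      ∑ ρ ∈ Ico (0 : ℤ) d,
        ((Icc ⌈(Mg : ℝ) * ρ / d - Mg * r⌉ ⌊(Mg : ℝ) * ρ / d + Mg * r⌋).card : ℝ) := by
    exact_mod_cast h1
  refine h2.trans ?_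
  calc ∑ ρ ∈ Ico (0 : ℤ) d,
        ((Icc ⌈(Mg : ℝ) * ρ / d - Mg * r⌉ ⌊(Mg : ℝ) * ρ / d + Mg * r⌋).card : ℝ)
      ≤ ∑ _ρ ∈ Ico (0 : ℤ) d, (2 * (Mg * r) + 1) :=
        sum_le_sum fun ρ _ => card_Icc_EGHeight _ _ (by positivity)
    _ = d * (2 * (Mg * r) + 1) := by simp [mul_add]

open Classical in
/-- L6: the number of grid points near a fraction. -/
theorem count_near (m p Mg : ℕ) (hm : 1 ≤ m) (hp : 1 ≤ p) (H X : ℝ) (hH : 1 ≤ H) (hX : 0 < X)
    (hMg : (Mg : ℝ) ≤ 9 * p * Real.sqrt X) :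
    (((grid Mg).filter fun n => ∃ (β : O m) (d : ℕ), Near m (gp m Mg n) β d H X).card : ℝ) ≤
      400 * (p : ℝ) ^ 2 * H ^ 4 := by
  have hH0 : 0 ≤ H := by linarith
  have hsX : 0 < Real.sqrt X := Real.sqrt_pos.2 hX
  have hsH : 1 ≤ Real.sqrt H := Real.one_le_sqrt.2 hH
  have hpr : (1 : ℝ) ≤ p := by exact_mod_cast hp
  set r := Real.sqrt H / Real.sqrt X with hr
  have hr0 : 0 ≤ r := by positivity
  set A : ℕ → Finset ℤ := fun d =>
    (Ico (0 : ℤ) Mg).filter fun n : ℤ => ∃ b : ℤ, |(n : ℝ) / Mg - (b : ℝ) / d| ≤ r with hA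
  have hsub : ((grid Mg).filter fun n => ∃ (β : O m) (d : ℕ), Near m (gp m Mg n) β d H X) ⊆
      (Icc 1 ⌊H⌋₊).biUnion fun d => A d ×ˢ A d := by
    intro n hn
    obtain ⟨hn1, β, d, hd1, hdH, -, he⟩ := mem_filter.1 hn
    obtain ⟨hn2, hn3⟩ := mem_product.1 hn1
    have hle : ‖gp m Mg n - ph m β / d‖ ≤ r := by
      rw [hr, ← Real.sqrt_div hH0]
      apply Real.le_sqrt_of_sq_le
      rw [le_div_iff₀ hX]
      exact he
    have hsm : (1 : ℝ) ≤ Real.sqrt m := Real.one_le_sqrt.2 (by exact_mod_cast hm)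
    refine mem_biUnion.2 ⟨d, mem_Icc.2 ⟨hd1, Nat.le_floor hdH⟩, mem_product.2
      ⟨mem_filter.2 ⟨hn2, β.re, ?_⟩, mem_filter.2 ⟨hn3, β.im, ?_⟩⟩⟩
    · have e : (gp m Mg n - ph m β / d).re = (n.1 : ℝ) / Mg - (β.re : ℝ) / d := by
        unfold gp
        rw [Complex.sub_re, Complex.div_natCast_re, Complex.div_natCast_re, ph_re, ph_re]
      rw [← e]
      exact (Complex.abs_re_le_norm _).trans hle
    · have e : (gp m Mg n - ph m β / d).im =
          ((n.2 : ℝ) / Mg - (β.im : ℝ) / d) * Real.sqrt m := by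
        unfold gp
        rw [Complex.sub_im, Complex.div_natCast_im, Complex.div_natCast_im, ph_im, ph_im]
        ring
      have h3 := (Complex.abs_im_le_norm _).trans hle
      rw [e, abs_mul, abs_of_nonneg (Real.sqrt_nonneg _)] at h3
      exact (le_mul_of_one_le_right (abs_nonneg _) hsm).trans h3
  have hB : 2 * (Mg * r) + 1 ≤ 19 * p * Real.sqrt H := by
    have h1 : Mg * r ≤ 9 * p * Real.sqrt H := by
      calc (Mg : ℝ) * r ≤ 9 * p * Real.sqrt X * r := mul_le_mul_of_nonneg_right hMg hr0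
        _ = 9 * p * Real.sqrt H := by rw [hr]; field_simp
    have h2 : (1 : ℝ) ≤ p * Real.sqrt H := one_le_mul_of_one_le_of_one_le hpr hsH
    linarith
  have h1 := (card_le_card hsub).trans card_biUnion_le
  have h2 : ((((grid Mg).filter
      fun n => ∃ (β : O m) (d : ℕ), Near m (gp m Mg n) β d H X).card : ℕ) : ℝ) ≤
      ∑ d ∈ Icc 1 ⌊H⌋₊, (((A d ×ˢ A d).card : ℕ) : ℝ) := by
    exact_mod_cast h1
  refine h2.trans ?_
  have hterm : ∀ d ∈ Icc 1 ⌊H⌋₊, (((A d ×ˢ A d).card : ℕ) : ℝ) ≤ 361 * (p : ℝ) ^ 2 * H ^ 3 := by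
    intro d hd
    obtain ⟨hd1, hd2⟩ := mem_Icc.1 hd
    have hdH : (d : ℝ) ≤ H := (Nat.le_floor_iff hH0).1 hd2
    have hc : ((A d).card : ℝ) ≤ H * (19 * p * Real.sqrt H) :=
      (line_EGHeight Mg d hd1 r hr0).trans (mul_le_mul hdH hB (by positivity) hH0)
    rw [card_product]
    push_cast
    calc ((A d).card : ℝ) * (A d).card ≤ (H * (19 * p * Real.sqrt H)) * (H * (19 * p * Real.sqrt H)) :=
          mul_le_mul hc hc (by positivity) (by positivity)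
      _ = 361 * (p : ℝ) ^ 2 * H ^ 2 * (Real.sqrt H * Real.sqrt H) := by ring
      _ = 361 * (p : ℝ) ^ 2 * H ^ 3 := by rw [Real.mul_self_sqrt hH0]; ring
  calc ∑ d ∈ Icc 1 ⌊H⌋₊, (((A d ×ˢ A d).card : ℕ) : ℝ)
      ≤ ∑ _d ∈ Icc 1 ⌊H⌋₊, 361 * (p : ℝ) ^ 2 * H ^ 3 := sum_le_sum hterm
    _ = (⌊H⌋₊ : ℝ) * (361 * (p : ℝ) ^ 2 * H ^ 3) := by simp
    _ ≤ H * (361 * (p : ℝ) ^ 2 * H ^ 3) :=
        mul_le_mul_of_nonneg_right (Nat.floor_le hH0) (by positivity)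
    _ = 361 * ((p : ℝ) ^ 2 * H ^ 4) := by ring
    _ ≤ 400 * ((p : ℝ) ^ 2 * H ^ 4) := mul_le_mul_of_nonneg_right (by norm_num) (by positivity)
    _ = 400 * (p : ℝ) ^ 2 * H ^ 4 := by ring

end Pool.Agent.P.MP_b75a1e_co.EG
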