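import Pool.Agent.P.MP_b75a1e_co.EGRegion
import Pool.Agent.P.MP_b75a1e_co.EGHeight

set_option autoImplicit false

open Finset
open scoped BigOperators ComplexConjugate

namespace Pool.Agent.P.MP_b75a1e_co.EG

theorem ee_small_EGCircle (m Q Mg V : ℕ) (R : ℝ) (hm : 1 ≤ m) (hQ : 1 ≤ Q) (hMg : 1 ≤ Mg)
    (y : O m) (hy : (Q : O m) ∣ y) (hR : ‖ph m y‖ ≤ R) (k c : ℤ × ℤ) (hc : c ∈ sqr V) :
    ‖ee (pr m (mp m Q Mg k c) (ph m y)) - 1‖ ≤ 14 * V * R / Mg := by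
  have hQ0 : (Q : ℝ) ≠ 0 := by positivity
  have hM0 : (0 : ℝ) < Mg := by positivity
  have e1 : pr m (gp m Q k) (ph m y) = ((((⟨k.1, k.2⟩ : O m) * y).im : ℤ) : ℝ) / (Q : ℝ) := by
    have := pr_ph_div hm (⟨k.1, k.2⟩ : O m) y (Q : ℝ)
    simpa [gp] using this
  have e2 : pr m (gp m Mg c) (ph m y) = ((((⟨c.1, c.2⟩ : O m) * y).im : ℤ) : ℝ) / (Mg : ℝ) := by
    have := pr_ph_div hm (⟨c.1, c.2⟩ : O m) y (Mg : ℝ)
    simpa [gp] using this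
  obtain ⟨j, hj⟩ := ((nat_dvd_iff Q _).1 (hy.mul_left (⟨k.1, k.2⟩ : O m))).2
  have e3 : pr m (gp m Q k) (ph m y) = (j : ℝ) := by
    rw [e1, hj]; push_cast; field_simp
  have e4 : ee (pr m (mp m Q Mg k c) (ph m y)) = ee (pr m (gp m Mg c) (ph m y)) := by
    rw [mp, pr_add_left, ee_add, e3, ee_int, one_mul]
  have h5 := norm_ee_sub (pr m (gp m Mg c) (ph m y)) 0
  rw [ee_zero, sub_zero] at h5
  rw [e4]
  refine h5.trans ?_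
  rw [e2, abs_div, abs_of_pos hM0]
  have hc' := hc
  simp only [sqr, mem_product, mem_Icc] at hc'
  have a1 : |(c.1 : ℝ)| ≤ V := by
    rw [abs_le]; constructor
    · exact_mod_cast hc'.1.1
    · exact_mod_cast hc'.1.2
  have a2 : |(c.2 : ℝ)| ≤ V := by
    rw [abs_le]; constructor
    · exact_mod_cast hc'.2.1
    · exact_mod_cast hc'.2.2
  have b1 := (abs_re_le y).trans hR
  have b2 := (abs_im_le hm y).trans hR
  have e5 : ((((⟨c.1, c.2⟩ : O m) * y).im : ℤ) : ℝ) = (c.1 : ℝ) * y.im + (c.2 : ℝ) * y.re := by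
    simp [Zsqrtd.im_mul]
  have b3 : |(c.1 : ℝ) * y.im + (c.2 : ℝ) * y.re| ≤ 2 * V * R := by
    refine (abs_add_le _ _).trans ?_
    rw [abs_mul, abs_mul]
    have := mul_le_mul a1 b2 (abs_nonneg _) (Nat.cast_nonneg V)
    have := mul_le_mul a2 b1 (abs_nonneg _) (Nat.cast_nonneg V)
    linarith
  rw [e5, ← mul_div_assoc]
  exact div_le_div_of_nonneg_right (by linarith) hM0.le

theorem norm_expect_EGCircle {Ω : Type} [Fintype Ω] [Nonempty Ω] (f : Ω → ℂ) (B : ℝ)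
    (h : ∀ ω, ‖f ω‖ ≤ B) : ‖𝔼 ω, f ω‖ ≤ B := by
  have hc : (0 : ℝ) < Fintype.card Ω := by exact_mod_cast Fintype.card_pos
  rw [Fintype.expect_eq_sum_div_card, norm_div, Complex.norm_natCast, div_le_iff₀ hc]
  refine (norm_sum_le _ _).trans ?_
  refine (sum_le_card_nsmul _ _ B fun ω _ => h ω).trans ?_
  simp [mul_comm]

/-- On the main points the partner is the conjugate and the remaining factors are trivial. -/
theorem main_point (m Q Mg V : ℕ) (NN0 δ : ℝ) {Ω Ω' : Type} [Fintype Ω] [Fintype Ω'] [Nonempty Ω]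
    [Nonempty Ω'] (X Xt : Ω → O m) (Z : Ω' → O m) (τ : O m) (hm : 1 ≤ m) (hQ : 1 ≤ Q) (hMg : 1 ≤ Mg)
    (hδ0 : 0 ≤ δ)
    (hs : ∀ ω, (Q : O m) ∣ X ω + Xt ω ∧ ‖ph m (X ω + Xt ω)‖ ≤ δ * Real.sqrt NN0)
    (hZ : ∀ ω, (Q : O m) ∣ Z ω ∧ ‖ph m (Z ω)‖ ≤ δ * Real.sqrt NN0)
    (hτ : (Q : O m) ∣ τ ∧ ‖ph m τ‖ ≤ δ * Real.sqrt NN0) (k c : ℤ × ℤ) (hc : c ∈ sqr V) :
    ‖ch Xt (mp m Q Mg k c) - conj (ch X (mp m Q Mg k c))‖ ≤ 14 * V * δ * Real.sqrt NN0 / Mg ∧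
      ‖ch Z (mp m Q Mg k c) - 1‖ ≤ 14 * V * δ * Real.sqrt NN0 / Mg ∧
      ‖ee (-pr m (mp m Q Mg k c) (ph m τ)) - 1‖ ≤ 14 * V * δ * Real.sqrt NN0 / Mg := by
  refine ⟨?_, ?_, ?_⟩
  · have e : ch Xt (mp m Q Mg k c) - conj (ch X (mp m Q Mg k c)) =
        𝔼 ω, (ee (-pr m (mp m Q Mg k c) (ph m (X ω))) *
          (ee (pr m (mp m Q Mg k c) (ph m (X ω + Xt ω))) - 1)) := by
      simp only [ch, Fintype.expect_eq_sum_div_card, map_div₀, map_sum, map_natCast, ← sub_div,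
        ← sum_sub_distrib]
      refine congrArg (· / _) (sum_congr rfl fun ω _ => ?_)
      rw [mul_sub, ← ee_add, map_add, pr_add_right, ← ee_neg, mul_one]
      congr 2
      ring
    rw [e]
    refine norm_expect_EGCircle _ _ fun ω => ?_
    rw [norm_mul, norm_ee, one_mul, mul_assoc (14 * V : ℝ)]
    exact ee_small_EGCircle m Q Mg V _ hm hQ hMg _ (hs ω).1 (hs ω).2 k c hc
  · have e : ch Z (mp m Q Mg k c) - 1 =
        𝔼 ω, (ee (pr m (mp m Q Mg k c) (ph m (Z ω))) - 1) := by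
      rw [expect_sub_distrib, ch]
      simp
    rw [e]
    refine norm_expect_EGCircle _ _ fun ω => ?_
    rw [mul_assoc (14 * V : ℝ)]
    exact ee_small_EGCircle m Q Mg V _ hm hQ hMg _ (hZ ω).1 (hZ ω).2 k c hc
  · have e : ee (-pr m (mp m Q Mg k c) (ph m τ)) - 1 =
        conj (ee (pr m (mp m Q Mg k c) (ph m τ)) - 1) := by
      rw [ee_neg, map_sub, map_one]
    rw [e, Complex.norm_conj, mul_assoc (14 * V : ℝ)]
    exact ee_small_EGCircle m Q Mg V _ hm hQ hMg _ hτ.1 hτ.2 k c hc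

theorem ch_sub_EGCircle {m : ℕ} {Ω : Type} [Fintype Ω] (X : Ω → O m) (τ : O m) (θ : ℂ) :
    ch (fun ω => X ω - τ) θ = ch X θ * ee (-pr m θ (ph m τ)) := by
  simp only [ch]
  rw [expect_mul]
  refine expect_congr rfl fun ω _ => ?_
  rw [← ee_add, map_sub, pr_sub_right, sub_eq_add_neg]

theorem four_EGCircle (a b z e : ℂ) (ε : ℝ) (ha : ‖a‖ ≤ 1) (hb : ‖b‖ ≤ 1) (hz : ‖z‖ ≤ 1)
    (h1 : ‖b - conj a‖ ≤ ε) (h2 : ‖z - 1‖ ≤ ε) (h3 : ‖e - 1‖ ≤ ε) :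
    ‖a * b * z * e - ((‖a‖ ^ 2 : ℝ) : ℂ)‖ ≤ 3 * ε ∧ ‖b‖ ^ 2 ≤ ‖a‖ ^ 2 + 2 * ε := by
  have hε : 0 ≤ ε := (norm_nonneg _).trans h1
  constructor
  · have e1 : a * b * z * e - ((‖a‖ ^ 2 : ℝ) : ℂ) =
        a * (b - conj a) + a * b * (z - 1) + a * b * z * (e - 1) := by
      rw [← Complex.normSq_eq_norm_sq, ← Complex.mul_conj]; ring
    have hab : ‖a * b‖ ≤ 1 := by
      rw [norm_mul]; exact mul_le_one₀ ha (norm_nonneg _) hb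
    have habz : ‖a * b * z‖ ≤ 1 := by
      rw [norm_mul]; exact mul_le_one₀ hab (norm_nonneg _) hz
    have t : ∀ u v : ℂ, ‖u‖ ≤ 1 → ‖v‖ ≤ ε → ‖u * v‖ ≤ ε := fun u v hu hv => by
      rw [norm_mul]
      exact (mul_le_mul hu hv (norm_nonneg _) zero_le_one).trans (by rw [one_mul])
    rw [e1]
    have := norm_add₃_le (a := a * (b - conj a)) (b := a * b * (z - 1)) (c := a * b * z * (e - 1))
    linarith [t _ _ ha h1, t _ _ hab h2, t _ _ habz h3]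
  · have h4 : ‖b‖ - ‖a‖ ≤ ε := by
      have := norm_sub_norm_le b (conj a)
      rw [Complex.norm_conj] at this
      linarith
    nlinarith [norm_nonneg a, norm_nonneg b]

theorem cover_EGCircle {ι : Type} [DecidableEq ι] (R S1 S2 S3 : Finset ι) (f f1 f3 : ι → ℝ)
    (h1 : ∀ i, f i ≤ f1 i) (h3 : ∀ i, f i ≤ f3 i) (h0 : ∀ i, 0 ≤ f i)
    (h : ∀ i ∈ R, i ∈ S1 ∨ i ∈ S2 ∨ i ∈ S3) :
    ∑ i ∈ R, f i ≤ ∑ i ∈ S1, f1 i + ∑ i ∈ S2, f1 i + ∑ i ∈ S3, f3 i := by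
  have u : ∀ A B : Finset ι, ∑ i ∈ A ∪ B, f i ≤ ∑ i ∈ A, f i + ∑ i ∈ B, f i := fun A B => by
    have := sum_union_inter (s₁ := A) (s₂ := B) (f := f)
    have : 0 ≤ ∑ i ∈ A ∩ B, f i := sum_nonneg fun i _ => h0 i
    linarith
  have s : ∑ i ∈ R, f i ≤ ∑ i ∈ S1 ∪ S2 ∪ S3, f i :=
    sum_le_sum_of_subset_of_nonneg (fun i hi => by
      simpa only [mem_union, or_assoc] using h i hi) fun i _ _ => h0 i
  have a1 : ∑ i ∈ S1, f i ≤ ∑ i ∈ S1, f1 i := sum_le_sum fun i _ => h1 i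
  have a2 : ∑ i ∈ S2, f i ≤ ∑ i ∈ S2, f1 i := sum_le_sum fun i _ => h1 i
  have a3 : ∑ i ∈ S3, f i ≤ ∑ i ∈ S3, f3 i := sum_le_sum fun i _ => h3 i
  linarith [u (S1 ∪ S2) S3, u S1 S2]

theorem num_EGCircle (p Q Mg : ℕ) (H NN0 δ : ℝ) (hp : 1 ≤ p) (hQ : 1 ≤ Q) (hQM : Q ∣ Mg)
    (hH : 1 ≤ H) (hM1 : 8 * p * Real.sqrt NN0 ≤ Mg) (hM2 : (Mg : ℝ) ≤ 9 * p * Real.sqrt NN0)
    (hN : (100 * Q * p * H) ^ 2 ≤ NN0) (hδ0 : 0 ≤ δ)
    (hδ : δ * (Q : ℝ) ^ 2 * (p : ℝ) ^ 2 * H ^ 5 ≤ 1 / 10 ^ 9) :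
    ∃ V : ℕ, 0 < NN0 ∧ 1 ≤ Mg ∧ Mg * Real.sqrt (H / NN0) + 1 ≤ V ∧ 2 * (2 * V) < Mg / Q ∧
      δ * H ^ 4 ≤ 1 / 10 ^ 4 ∧ (4 * p + 3 * δ) * Real.sqrt NN0 < Mg ∧
      (Q : ℝ) ^ 2 * (4 * V + 1) ^ 2 * (14 * (2 * V : ℕ) * δ * Real.sqrt NN0 / Mg) ≤ 1 / 100 := by
  have hp' : (1 : ℝ) ≤ p := by exact_mod_cast hp
  have hQ' : (1 : ℝ) ≤ Q := by exact_mod_cast hQ
  have hpH : (1 : ℝ) ≤ p * H := one_le_mul_of_one_le_of_one_le hp' hH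
  have hc : (0 : ℝ) < 100 * Q * p * H := by positivity
  have h0 : 0 < NN0 := lt_of_lt_of_le (by positivity) hN
  have hs : 100 * Q * p * H ≤ Real.sqrt NN0 := Real.le_sqrt_of_sq_le hN
  have hs0 : 0 < Real.sqrt NN0 := hc.trans_le hs
  have hM0 : (0 : ℝ) < Mg := lt_of_lt_of_le (by positivity) hM1
  have hsH : Real.sqrt H ≤ H := by
    rw [Real.sqrt_le_left (by linarith)]; nlinarith
  have hx : Mg * Real.sqrt (H / NN0) ≤ 9 * (p * H) := by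
    rw [Real.sqrt_div (by linarith), ← mul_div_assoc, div_le_iff₀ hs0]
    have := mul_le_mul hM2 hsH (Real.sqrt_nonneg _) (by positivity)
    nlinarith
  have hx0 : 0 ≤ Mg * Real.sqrt (H / NN0) := by positivity
  have hV1 := Nat.le_ceil (Mg * Real.sqrt (H / NN0))
  have hV2 := Nat.ceil_lt_add_one hx0
  generalize ⌈Mg * Real.sqrt (H / NN0)⌉₊ = v at hV1 hV2
  have hV : ((v + 1 : ℕ) : ℝ) ≤ 11 * (p * H) := by push_cast; linarith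
  have hQp : (1 : ℝ) ≤ (Q : ℝ) ^ 2 * (p : ℝ) ^ 2 :=
    one_le_mul_of_one_le_of_one_le (one_le_pow₀ hQ') (one_le_pow₀ hp')
  have hd5 : δ * H ^ 5 ≤ 1 / 10 ^ 9 := by
    have : δ * H ^ 5 * 1 ≤ δ * H ^ 5 * ((Q : ℝ) ^ 2 * (p : ℝ) ^ 2) :=
      mul_le_mul_of_nonneg_left hQp (by positivity)
    linarith
  have hd4 : δ * H ^ 4 ≤ δ * H ^ 5 :=
    mul_le_mul_of_nonneg_left (pow_le_pow_right₀ hH (by norm_num)) hδ0
  have hd0 : δ * 1 ≤ δ * H ^ 5 := mul_le_mul_of_nonneg_left (one_le_pow₀ hH) hδ0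
  refine ⟨v + 1, h0, by exact_mod_cast hM0, by push_cast; linarith, ?_, by linarith, ?_, ?_⟩
  · obtain ⟨t, rfl⟩ := hQM
    rw [Nat.mul_div_cancel_left _ hQ]
    have h1 : (Q : ℝ) * (100 * (p * H)) ≤ Q * t := by
      push_cast at hM1
      nlinarith
    have h2 : 100 * (p * H) ≤ t := le_of_mul_le_mul_left h1 (by linarith)
    have h3 : ((2 * (2 * (v + 1)) : ℕ) : ℝ) < t := by
      push_cast at hV ⊢; linarith
    exact_mod_cast h3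
  · have : (4 * p + 3 * δ) * Real.sqrt NN0 < 8 * p * Real.sqrt NN0 :=
      mul_lt_mul_of_pos_right (by linarith) hs0
    linarith
  · generalize v + 1 = V at hV
    have hV0 : (0 : ℝ) ≤ V := Nat.cast_nonneg V
    have a1 : 14 * (2 * V : ℕ) * δ * Real.sqrt NN0 / Mg ≤ 40 * (δ * H) := by
      rw [div_le_iff₀ hM0]
      push_cast
      have b1 : 14 * (2 * V) * δ * Real.sqrt NN0 ≤ 14 * (2 * (11 * (p * H))) * δ * Real.sqrt NN0 := by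
        gcongr
      have b2 : 40 * (δ * H) * (8 * p * Real.sqrt NN0) ≤ 40 * (δ * H) * Mg :=
        mul_le_mul_of_nonneg_left hM1 (by positivity)
      have b3 : 0 ≤ δ * H * p * Real.sqrt NN0 := by positivity
      nlinarith
    have a2 : (4 * V + 1 : ℝ) ^ 2 ≤ (45 * (p * H)) ^ 2 :=
      pow_le_pow_left₀ (by positivity) (by linarith) 2
    have a3 : (Q : ℝ) ^ 2 * (4 * V + 1) ^ 2 * (14 * (2 * V : ℕ) * δ * Real.sqrt NN0 / Mg) ≤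
        (Q : ℝ) ^ 2 * (45 * (p * H)) ^ 2 * (40 * (δ * H)) := by
      gcongr
    have a4 : δ * (Q : ℝ) ^ 2 * (p : ℝ) ^ 2 * H ^ 3 ≤ δ * (Q : ℝ) ^ 2 * (p : ℝ) ^ 2 * H ^ 5 :=
      mul_le_mul_of_nonneg_left (pow_le_pow_right₀ hH (by norm_num)) (by positivity)
    nlinarith

open Classical in
/-- L8: the endgame of the circle method. -/
theorem circle (m p Y Q Mg : ℕ) (H NN0 δ : ℝ) {Ω Ω' : Type} [Fintype Ω] [Fintype Ω'] [Nonempty Ω]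
    [Nonempty Ω'] (X Xt : Ω → O m) (Z : Ω' → O m) (τ : O m) (W : ℕ → ℝ) (hm : 1 ≤ m) (hp : 1 ≤ p)
    (hQ : 1 ≤ Q) (hQM : Q ∣ Mg) (hH : 1 ≤ H) (hM1 : 8 * p * Real.sqrt NN0 ≤ Mg)
    (hM2 : (Mg : ℝ) ≤ 9 * p * Real.sqrt NN0) (hN : (100 * Q * p * H) ^ 2 ≤ NN0) (hδ0 : 0 ≤ δ)
    (hδ : δ * (Q : ℝ) ^ 2 * (p : ℝ) ^ 2 * H ^ 5 ≤ 1 / 10 ^ 9)
    (hX : ∀ ω, ‖ph m (X ω)‖ ≤ 2 * p * Real.sqrt NN0)
    (hs : ∀ ω, (Q : O m) ∣ X ω + Xt ω ∧ ‖ph m (X ω + Xt ω)‖ ≤ δ * Real.sqrt NN0)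
    (hZ : ∀ ω, (Q : O m) ∣ Z ω ∧ ‖ph m (Z ω)‖ ≤ δ * Real.sqrt NN0)
    (hτ : (Q : O m) ∣ τ ∧ ‖ph m τ‖ ≤ δ * Real.sqrt NN0)
    (h1 : ∑ n ∈ (grid Mg).filter (fun n => ¬ Low m (gp m Mg n) H NN0), ‖ch X (gp m Mg n)‖ ≤ 1 / 10)
    (h2 : ∑ n ∈ (grid Mg).filter
      (fun n => ∃ (β : O m) (d : ℕ), Near m (gp m Mg n) β d H NN0 ∧ Deep Y Q d),
        ‖ch X (gp m Mg n)‖ ≤ 1 / 10)
    (h3 : ∀ (d : ℕ) (β : O m), 1 < d → (d : ℝ) ≤ H → Rough Y d → PrimAt β d →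
      ‖ch Z (ph m β / d)‖ ≤ W d) (hW0 : ∀ d, 0 ≤ W d)
    (h4 : ∑ d ∈ (Icc 2 ⌊H⌋₊).filter (Rough Y), (d : ℝ) ^ 2 * W d ≤ 1 / 100) :
    ∃ ω ω' ω'', X ω + Xt ω' + Z ω'' = τ := by
  by_contra hne
  push Not at hne
  obtain ⟨V, h0, hMg, hV, hinj, hδ4, hlt, herr⟩ :=
    num_EGCircle p Q Mg H NN0 δ hp hQ hQM hH hM1 hM2 hN hδ0 hδ
  generalize hε : 14 * (2 * V : ℕ) * δ * Real.sqrt NN0 / Mg = ε at herr
  let A : (Ω × Ω) × Ω' → O m := fun q => X q.1.1 + Xt q.1.2 + Z q.2 - τ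
  have hA : ∀ θ, ch A θ = ch X θ * ch Xt θ * ch Z θ * ee (-pr m θ (ph m τ)) := fun θ => by
    have e1 := ch_sub_EGCircle (fun q : (Ω × Ω) × Ω' => X q.1.1 + Xt q.1.2 + Z q.2) τ θ
    have e2 := ch_prod (fun q : Ω × Ω => X q.1 + Xt q.2) Z θ
    rw [← ch_prod X Xt θ, ← e2, ← e1]
  have hinv := inversion m Mg hm hMg A (fun q => by
      have e : ph m (A q) = ph m (X q.1.1) + (ph m (X q.1.2 + Xt q.1.2) - ph m (X q.1.2)) +
          (ph m (Z q.2) - ph m τ) := by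
        simp only [A, map_sub, map_add]; ring
      have t1 := norm_add₃_le (a := ph m (X q.1.1))
        (b := ph m (X q.1.2 + Xt q.1.2) - ph m (X q.1.2)) (c := ph m (Z q.2) - ph m τ)
      have t2 := norm_sub_le (ph m (X q.1.2 + Xt q.1.2)) (ph m (X q.1.2))
      have t3 := norm_sub_le (ph m (Z q.2)) (ph m τ)
      rw [e]
      linarith [hX q.1.1, hX q.1.2, (hs q.1.2).2, (hZ q.2).2, hτ.2])
    (fun q h => hne q.1.1 q.1.2 q.2 (sub_eq_zero.1 h))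
  have hpt : ∀ q ∈ grid Q ×ˢ sqr (2 * V),
      ‖ch A (mp m Q Mg q.1 q.2) - ((‖ch X (mp m Q Mg q.1 q.2)‖ ^ 2 : ℝ) : ℂ)‖ ≤ 3 * ε ∧
        ‖ch Xt (mp m Q Mg q.1 q.2)‖ ^ 2 ≤ ‖ch X (mp m Q Mg q.1 q.2)‖ ^ 2 + 2 * ε := fun q hq => by
    have h := main_point m Q Mg (2 * V) NN0 δ X Xt Z τ hm hQ hMg hδ0 hs hZ hτ q.1 q.2
      (mem_product.1 hq).2
    rw [hε] at h
    rw [hA]
    exact four_EGCircle _ _ _ _ ε (norm_ch_le _ _) (norm_ch_le _ _) (norm_ch_le _ _) h.1 h.2.1 h.2.2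
  have hcard : ((grid Q ×ˢ sqr (2 * V)).card : ℝ) = (Q : ℝ) ^ 2 * (4 * V + 1) ^ 2 := by
    have c1 : (grid Q).card = Q * Q := by simp [grid]
    have c2 : (sqr (2 * V)).card = (4 * V + 1) * (4 * V + 1) := by
      have : (Icc (-((2 * V : ℕ) : ℤ)) ((2 * V : ℕ) : ℤ)).card = 4 * V + 1 := by
        rw [Int.card_Icc]; omega
      rw [sqr, card_product, this]
    rw [card_product, c1, c2]; push_cast; ring
  generalize hMn : ∑ q ∈ grid Q ×ˢ sqr (2 * V), ‖ch X (mp m Q Mg q.1 q.2)‖ ^ 2 = Mn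
  have hMn1 : 1 ≤ Mn := by
    have hmem : (((0, 0), (0, 0)) : (ℤ × ℤ) × (ℤ × ℤ)) ∈ grid Q ×ˢ sqr (2 * V) := by
      simp only [grid, sqr, mem_product, mem_Ico, mem_Icc]
      omega
    have := single_le_sum (f := fun q : (ℤ × ℤ) × (ℤ × ℤ) => ‖ch X (mp m Q Mg q.1 q.2)‖ ^ 2)
      (fun q _ => by positivity) hmem
    have e0 : mp m Q Mg (0, 0) (0, 0) = 0 := by
      have : (⟨0, 0⟩ : O m) = 0 := rfl
      simp [mp, gp, this]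
    rw [hMn] at this
    simpa [e0, ch_zero] using this
  have hXt : ∑ q ∈ grid Q ×ˢ sqr (2 * V), ‖ch Xt (mp m Q Mg q.1 q.2)‖ ^ 2 ≤ 2 * Mn := by
    refine (sum_le_sum fun q hq => (hpt q hq).2).trans ?_
    rw [sum_add_distrib, hMn, sum_const, nsmul_eq_mul, hcard]
    linarith
  have hmid := mid_region m Y Q Mg V H NN0 δ Mn X Xt Z W hm hQ hMg hQM hH h0 hδ0 hδ4 hV hZ
    (by rw [← hMn, sum_product]) (by rw [sum_product] at hXt; exact hXt) h3 hW0 h4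
  have hsub : (grid Q ×ˢ sqr (2 * V)).image (mi Q Mg) ⊆ grid Mg := fun n hn => by
    obtain ⟨q, _, rfl⟩ := mem_image.1 hn
    exact mi_mem Q Mg hMg q
  have hmain : ∑ n ∈ (grid Q ×ˢ sqr (2 * V)).image (mi Q Mg), ch A (gp m Mg n) =
      ∑ q ∈ grid Q ×ˢ sqr (2 * V), ch A (mp m Q Mg q.1 q.2) := by
    rw [sum_image (mi_inj Q Mg (2 * V) hQ hQM hinj)]
    refine sum_congr rfl fun q _ => ?_
    obtain ⟨a, ha⟩ := gp_mi m Q Mg hQ hMg hQM q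
    rw [ha, ch_period hm]
  have hclose : ‖∑ q ∈ grid Q ×ˢ sqr (2 * V), ch A (mp m Q Mg q.1 q.2) - (Mn : ℂ)‖ ≤ 3 / 100 := by
    rw [← hMn, Complex.ofReal_sum, ← sum_sub_distrib]
    refine (norm_sum_le _ _).trans ((sum_le_sum fun q hq => (hpt q hq).1).trans ?_)
    rw [sum_const, nsmul_eq_mul, hcard]
    linarith
  have hn3 : ∀ θ, ‖ch A θ‖ = ‖ch X θ‖ * ‖ch Xt θ‖ * ‖ch Z θ‖ := fun θ => by
    rw [hA, norm_mul, norm_mul, norm_mul, norm_ee, mul_one]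
  have hrest := cover_EGCircle (grid Mg \ (grid Q ×ˢ sqr (2 * V)).image (mi Q Mg))
    ((grid Mg).filter fun n => ¬ Low m (gp m Mg n) H NN0)
    ((grid Mg).filter fun n => ∃ (β : O m) (d : ℕ), Near m (gp m Mg n) β d H NN0 ∧ Deep Y Q d)
    ((grid Mg).filter fun n => (∃ (β : O m) (d : ℕ), Near m (gp m Mg n) β d H NN0 ∧ ¬ Deep Y Q d) ∧
        ¬ ∃ q ∈ grid Q ×ˢ sqr V, mi Q Mg q = n)
    (fun n => ‖ch A (gp m Mg n)‖) (fun n => ‖ch X (gp m Mg n)‖)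
    (fun n => ‖ch X (gp m Mg n)‖ * ‖ch Xt (gp m Mg n)‖ * ‖ch Z (gp m Mg n)‖)
    (fun n => by
      rw [hn3, mul_assoc]
      exact mul_le_of_le_one_right (norm_nonneg _)
        (mul_le_one₀ (norm_ch_le _ _) (norm_nonneg _) (norm_ch_le _ _)))
    (fun n => (hn3 _).le) (fun n => norm_nonneg _) (fun n hn => by
      obtain ⟨hg, hn⟩ := mem_sdiff.1 hn
      simp only [mem_filter]
      by_cases hl : Low m (gp m Mg n) H NN0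
      · obtain ⟨β, d, hβ⟩ := near_of_low m hm _ H NN0 h0.le hl
        by_cases hd : Deep Y Q d
        · exact Or.inr (Or.inl ⟨hg, β, d, hβ, hd⟩)
        · refine Or.inr (Or.inr ⟨hg, ⟨β, d, hβ, hd⟩, ?_⟩)
          rintro ⟨q, hq, rfl⟩
          refine hn (mem_image_of_mem _ ?_)
          simp only [sqr, mem_product, mem_Icc] at hq ⊢
          refine ⟨hq.1, ?_⟩
          omega
      · exact Or.inl ⟨hg, hl⟩)
  have hsplit := sum_sdiff (f := fun n => ch A (gp m Mg n)) hsub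
  rw [hinv, hmain] at hsplit
  have hle := norm_sum_le (grid Mg \ (grid Q ×ˢ sqr (2 * V)).image (mi Q Mg))
    fun n => ch A (gp m Mg n)
  rw [eq_neg_of_add_eq_zero_left hsplit, norm_neg] at hle
  have hfin := norm_sub_norm_le (Mn : ℂ) (∑ q ∈ grid Q ×ˢ sqr (2 * V), ch A (mp m Q Mg q.1 q.2))
  rw [norm_sub_rev, Complex.norm_real, Real.norm_of_nonneg (by linarith)] at hfin
  linarith

end Pool.Agent.P.MP_b75a1e_co.EG
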