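import Pool.Agent.P.MP_b75a1e_co.EGBasic

set_option autoImplicit false

open Finset
open scoped BigOperators ComplexConjugate

namespace Pool.Agent.P.MP_b75a1e_co.EG

theorem card_EGCollX (len W k : ℕ) (S : Finset ℕ) (hS : S ⊆ range len)
    (h : ∀ q, (S.filter fun t => t / W = q).card ≤ k) : (S.card : ℝ) ≤ k * (len / W + 1) := by
  have h1 : S.card ≤ k * (range (len / W + 1)).card :=
    card_le_mul_card_image_of_maps_to (f := fun t => t / W) (fun t ht => mem_range.2
      (Nat.lt_succ_of_le (Nat.div_le_div_right (mem_range.1 (hS ht)).le))) k fun q _ => h q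
  rw [card_range] at h1
  have h2 : ((len / W : ℕ) : ℝ) ≤ len / W := Nat.cast_div_le
  have h3 : (S.card : ℝ) ≤ k * ((len / W : ℕ) + 1) := by exact_mod_cast h1
  exact h3.trans (by gcongr)

theorem near_EGCollX {W s t : ℕ} (hW : 1 ≤ W) (h : s / W = t / W) : |(s : ℤ) - t| < W := by
  have h1 := Nat.div_add_mod s W
  have h2 := Nat.div_add_mod t W
  have h3 := Nat.mod_lt s hW
  have h4 := Nat.mod_lt t hW
  rw [h] at h1
  generalize W * (t / W) = u at h1 h2
  rw [abs_lt]
  omega

open Classical in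
/-- At most one residue class solves the linear congruence. -/
theorem lin_count (m M A len d : ℕ) (hd : 1 ≤ d) (hc : Nat.Coprime d (2 * m * M)) (a b : O m)
    (hb : IsCoprime (d : ℤ) b.norm) :
    (((range len).filter fun t =>
      (d : O m) ∣ a * star (mz m M (A + t)) - b * mz m M (A + t)).card : ℝ) ≤ len / d + 1 := by
  refine (card_EGCollX len d 1 _ (filter_subset _ _) fun q => card_le_one.2 fun s hs t ht => ?_).trans
    (by simp)
  simp only [mem_filter] at hs ht
  have h1 := near_EGCollX hd (hs.2.trans ht.2.symm)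
  have e : star b * rt m * (star (mz m M (A + t)) * (a * star (mz m M (A + s)) - b * mz m M (A + s)) -
      star (mz m M (A + s)) * (a * star (mz m M (A + t)) - b * mz m M (A + t))) =
      ((b.norm * ((2 * m * M : ℕ) * (M * ((t : ℤ) - s))) : ℤ) : O m) := by
    rw [norm_eq]
    ext <;> simp [mz, rt, Zsqrtd.re_mul, Zsqrtd.im_mul, sq] <;> ring
  have h2 := ((hs.1.2.mul_left (star (mz m M (A + t)))).sub
    (ht.1.2.mul_left (star (mz m M (A + s))))).mul_left (star b * rt m)
  rw [e] at h2
  have h3 := ((nat_dvd_iff d _).1 h2).1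
  rw [Zsqrtd.re_intCast] at h3
  have h4 := (Nat.isCoprime_iff_coprime.2 (hc.coprime_dvd_right (dvd_mul_left M _))).dvd_of_dvd_mul_left
    ((Nat.isCoprime_iff_coprime.2 hc).dvd_of_dvd_mul_left (hb.dvd_of_dvd_mul_left h3))
  have h5 := Int.eq_zero_of_abs_lt_dvd h4 (by rwa [abs_sub_comm])
  omega

theorem gcd_EGCollX {d x a b : ℤ} (ha : d ∣ x * a) (hb : d ∣ x * b) : d ∣ x * Int.gcd a b := by
  rw [Int.gcd_eq_gcd_ab, mul_add, ← mul_assoc, ← mul_assoc]
  exact (ha.mul_right _).add (hb.mul_right _)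

/-- Roots of a quadratic congruence are sparse. -/
theorem quad_count (len d W : ℕ) (a b c : ℤ) (hd : 1 ≤ d) (hW : 1 ≤ W)
    (hWd : W ^ 3 * Int.gcd (Int.gcd a b) (Int.gcd c d) ≤ d) :
    (((range len).filter fun t : ℕ => (d : ℤ) ∣ a * t ^ 2 + b * t + c).card : ℝ) ≤
      2 * (len / W + 1) := by
  refine (card_EGCollX len W 2 _ (filter_subset _ _) fun q => ?_).trans (by simp)
  by_contra hn
  obtain ⟨s, t, u, hs, ht, hu, n1, n2, n3⟩ := two_lt_card_iff.1 (not_le.1 hn)
  simp only [mem_filter] at hs ht hu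
  have h1 := near_EGCollX hW (hs.2.trans ht.2.symm)
  have h2 := near_EGCollX hW (hs.2.trans hu.2.symm)
  have h3 := near_EGCollX hW (ht.2.trans hu.2.symm)
  obtain ⟨k1, e1⟩ := hs.1.2
  obtain ⟨k2, e2⟩ := ht.1.2
  obtain ⟨k3, e3⟩ := hu.1.2
  have m1 : (s : ℤ) - t ≠ 0 := by omega
  have m2 : (s : ℤ) - u ≠ 0 := by omega
  have m3 : (t : ℤ) - u ≠ 0 := by omega
  generalize (s : ℤ) = x at *
  generalize (t : ℤ) = y at *
  generalize (u : ℤ) = w at *
  have ha : (d : ℤ) ∣ (x - y) * (x - w) * (y - w) * a :=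
    ⟨k1 * (y - w) - k2 * (x - w) + k3 * (x - y), by
      linear_combination (y - w) * e1 - (x - w) * e2 + (x - y) * e3⟩
  have hb : (d : ℤ) ∣ (x - y) * (x - w) * (y - w) * b :=
    ⟨-(k1 * (y + w) * (y - w) - k2 * (x + w) * (x - w) + k3 * (x + y) * (x - y)), by
      linear_combination -((y + w) * (y - w)) * e1 + (x + w) * (x - w) * e2 -
        (x + y) * (x - y) * e3⟩
  have hc : (d : ℤ) ∣ (x - y) * (x - w) * (y - w) * c :=
    ⟨k1 * (y * w) * (y - w) - k2 * (x * w) * (x - w) + k3 * (x * y) * (x - y), by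
      linear_combination (y * w) * (y - w) * e1 - (x * w) * (x - w) * e2 + (x * y) * (x - y) * e3⟩
  have h4 := gcd_EGCollX (gcd_EGCollX ha hb) (gcd_EGCollX hc (dvd_mul_left _ _))
  have h5 : 0 < Int.gcd (Int.gcd a b) (Int.gcd c d) :=
    Int.gcd_pos_of_ne_zero_right _ (Int.natCast_ne_zero.2
      (Int.gcd_pos_of_ne_zero_right _ (by omega)).ne')
  generalize Int.gcd (Int.gcd a b) (Int.gcd c d) = g at *
  have h6 : (0 : ℤ) < g := by exact_mod_cast h5
  have h7 : |(x - y) * (x - w) * (y - w)| < (W : ℤ) ^ 3 := by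
    rw [abs_mul, abs_mul, pow_three']
    exact mul_lt_mul'' (mul_lt_mul'' h1 h2 (abs_nonneg _) (abs_nonneg _)) h3 (by positivity)
      (abs_nonneg _)
  have h8 : (W : ℤ) ^ 3 * g ≤ d := by exact_mod_cast hWd
  refine mul_ne_zero (mul_ne_zero (mul_ne_zero m1 m2) m3) h6.ne'
    (Int.eq_zero_of_abs_lt_dvd h4 ?_)
  rw [abs_mul, abs_of_pos h6]
  exact (mul_lt_mul_of_pos_right h7 h6).trans_le h8

theorem cube_EGCollX {m r : ℕ} {α : Type} (f : α → O m) (t : Fin r → α) (j : Fin r) (v : α)
    (ε : Fin r → Bool) : cube (fun i => f (Function.update t j v i)) ε =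
      (∏ i ∈ univ.erase j, if ε i then f (t i) else star (f (t i))) *
        if ε j then f v else star (f v) := by
  rw [cube, ← prod_erase_mul univ _ (mem_univ j), Function.update_self]
  refine congrArg (· * _) (prod_congr rfl fun i hi => ?_)
  rw [Function.update_of_ne (ne_of_mem_erase hi)]

open Classical in
theorem pair_EGCollX (m M A len r d : ℕ) (hd : 1 ≤ d) (hc : Nat.Coprime d (2 * m * M))
    (hlen : d ≤ len) (ε ε' : Fin r → Bool) (j : Fin r) (h1 : ε j = false) (h2 : ε' j = true) :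
    𝔼 t : Fin r → Fin len, (if IsCoprime (d : ℤ) (base fun i => mz m M (A + t i)).norm ∧
      (d : O m) ∣ cube (fun i => mz m M (A + t i)) ε - cube (fun i => mz m M (A + t i)) ε'
        then (1 : ℝ) else 0) ≤ 2 / d := by
  have hl : 0 < len := by omega
  have : Nonempty (Fin len) := ⟨⟨0, hl⟩⟩
  rw [expect_update _ j]
  refine expect_le univ_nonempty fun t _ => ?_
  let P : (Fin r → Bool) → O m := fun e =>
    ∏ i ∈ univ.erase j, if e i then mz m M (A + t i) else star (mz m M (A + t i))
  by_cases hP : IsCoprime (d : ℤ) (P ε').norm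
  · have h3 := lin_count m M A len d hd hc (P ε) (P ε') hP
    have hd' : (0 : ℝ) < d := by exact_mod_cast hd
    have hl' : (0 : ℝ) < len := by exact_mod_cast hl
    refine (expect_le_expect (g := fun v : Fin len => if (d : O m) ∣ P ε * star (mz m M (A + v)) -
      P ε' * mz m M (A + v) then (1 : ℝ) else 0) fun v _ => ?_).trans ?_
    · rw [cube_EGCollX (fun v : Fin len => mz m M (A + v)),
        cube_EGCollX (fun v : Fin len => mz m M (A + v)), h1, h2, if_neg Bool.false_ne_true,
        if_pos rfl]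
      split_ifs with a b c <;> first | exact (b a.2).elim | norm_num
    · rw [expect_eq_sum_div_card, Fin.sum_univ_eq_sum_range (fun v => if (d : O m) ∣
        P ε * star (mz m M (A + v)) - P ε' * mz m M (A + v) then (1 : ℝ) else 0), sum_boole,
        card_univ, Fintype.card_fin, div_le_iff₀ hl']
      refine h3.trans ?_
      have : (1 : ℝ) ≤ len / d := (one_le_div hd').2 (by exact_mod_cast hlen)
      rw [div_mul_eq_mul_div, mul_div_assoc]
      linarith
  · refine expect_le univ_nonempty fun v _ => ?_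
    rw [if_neg]
    · positivity
    · rintro ⟨a, -⟩
      rw [← norm_cube _ ε', cube_EGCollX (fun v : Fin len => mz m M (A + v)), Zsqrtd.norm_mul] at a
      exact hP a.of_mul_right_left

open Classical in
/-- L10, one cube. -/
theorem collX (m M A len r d : ℕ) (hd : 1 ≤ d) (hc : Nat.Coprime d (2 * m * M)) (hlen : d ≤ len)
    (hr : d ≤ 2 ^ r) :
    𝔼 t : Fin r → Fin len, cX d (fun i => mz m M (A + t i)) ≤ 3 / d := by
  have : Nonempty (Fin len) := ⟨⟨0, by omega⟩⟩
  have hd' : (0 : ℝ) < d := by exact_mod_cast hd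
  have e : ∀ z : Fin r → O m, cX d z = 𝔼 q : (Fin r → Bool) × (Fin r → Bool),
      if IsCoprime (d : ℤ) (base z).norm ∧ (d : O m) ∣ cube z q.1 - cube z q.2 then (1 : ℝ)
        else 0 := fun z => by
    rw [cX]
    split_ifs with h <;> simp [h]
  simp only [e]
  rw [expect_comm]
  refine (expect_le_expect (g := fun q => (if q.1 = q.2 then (1 : ℝ) else 0) + 2 / d)
    fun q _ => ?_).trans ?_
  · by_cases h : q.1 = q.2
    · rw [if_pos h]
      refine expect_le univ_nonempty fun t _ => le_add_of_le_of_nonneg ?_ (by positivity)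
      split_ifs <;> norm_num
    · rw [if_neg h, zero_add]
      obtain ⟨j, hj⟩ := Function.ne_iff.1 h
      cases h1 : q.1 j
      · exact pair_EGCollX m M A len r d hd hc hlen _ _ j h1 (by simpa [h1] using hj)
      · simp only [dvd_sub_comm (b := cube _ q.1)]
        exact pair_EGCollX m M A len r d hd hc hlen _ _ j (by simpa [h1] using hj) h1
  · rw [expect_add_distrib, expect_const univ_nonempty, expect_eq_sum_div_card,
      Fintype.sum_prod_type]
    simp only [sum_ite_eq, mem_univ, if_true, sum_const, card_univ, Fintype.card_prod,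
      Fintype.card_fun, Fintype.card_bool, Fintype.card_fin, nsmul_eq_mul, mul_one]
    have h1 : (d : ℝ) ≤ (2 ^ r : ℕ) := by exact_mod_cast hr
    have h2 : ((2 ^ r : ℕ) : ℝ) / ((2 ^ r * 2 ^ r : ℕ) : ℝ) ≤ 1 / d := by
      rw [Nat.cast_mul, div_mul_eq_div_div, div_self (hd'.trans_le h1).ne']
      exact one_div_le_one_div_of_le hd' h1
    have h3 : (3 : ℝ) / d = 1 / d + 2 / d := by ring
    linarith

end Pool.Agent.P.MP_b75a1e_co.EG
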