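import Pool.Agent.P.MP_b75a1e_co.EGCollX

set_option autoImplicit false

open Finset
open scoped BigOperators ComplexConjugate

namespace Pool.Agent.P.MP_b75a1e_co.EG

theorem ind_EGCollY (len : ℕ) (p : ℕ → Prop) [DecidablePred p] :
    𝔼 v : Fin len, (if p v then (1 : ℝ) else 0) = (((range len).filter p).card : ℝ) / len := by
  rw [Fintype.expect_eq_sum_div_card, Fintype.card_fin,
    Fin.sum_univ_eq_sum_range (fun v => if p v then (1 : ℝ) else 0), sum_boole]

theorem prod_EGCollY {α β : Type} [Fintype α] [Fintype β] (f : α × β → ℝ) :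
    𝔼 q : α × β, f q = 𝔼 a : α, 𝔼 b : β, f (a, b) := by
  rw [← univ_product_univ, expect_product]

/-- The condition on the first coordinate given by the norms. -/
def Nq_EGCollY {m : ℕ} (d : ℕ) (al bb Cb x : O m) : Prop :=
  IsCoprime (d : ℤ) Cb.norm ∧ (d : ℤ) ∣ (al * x - bb * star x).norm - al.norm * x.norm

open Classical in
theorem lin_EGCollY (m M A len d : ℕ) (hd : 1 ≤ d) (hc : Nat.Coprime d (2 * m * M)) (hlen : d ≤ len)
    (Z2 V0 P P' Cb x : O m) (hZ : IsCoprime (d : ℤ) Z2.norm) (hP : P.norm = Cb.norm)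
    (hP' : P'.norm = Cb.norm) :
    𝔼 v : Fin len, (if IsCoprime (d : ℤ) (star x * (star (mz m M (A + v)) * Cb)).norm ∧
        (d : O m) ∣ (x * (star (mz m M (A + v)) * P) - star x * (mz m M (A + v) * P')) * Z2 -
          star x * (star (mz m M (A + v)) * Cb) * V0 then (1 : ℝ) else 0) ≤
      if Nq_EGCollY d (Z2 * P) (Cb * V0) Cb x then 2 / (d : ℝ) else 0 := by
  have h0 : (0 : ℝ) < d := by exact_mod_cast hd
  have h1 : (d : ℝ) ≤ len := by exact_mod_cast hlen
  have e : ∀ y : O m, (x * (star y * P) - star x * (y * P')) * Z2 - star x * (star y * Cb) * V0 =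
      (Z2 * P * x - Cb * V0 * star x) * star y - Z2 * P' * star x * y := fun y => by ring
  simp only [e, Zsqrtd.norm_mul, Zsqrtd.norm_conj]
  by_cases h : ∃ v : Fin len, IsCoprime (d : ℤ) (x.norm * ((mz m M (A + v)).norm * Cb.norm)) ∧
      (d : O m) ∣ (Z2 * P * x - Cb * V0 * star x) * star (mz m M (A + v)) -
        Z2 * P' * star x * mz m M (A + v)
  · obtain ⟨v, h2, h3⟩ := h
    generalize mz m M (A + v) = y at h2 h3
    have h4 := h2.of_mul_right_left
    have h5 := h2.of_mul_right_right.of_mul_right_left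
    have h6 := h2.of_mul_right_right.of_mul_right_right
    have h7 : (Z2 * P' * star x).norm = (Z2 * P).norm * x.norm := by
      simp only [Zsqrtd.norm_mul, Zsqrtd.norm_conj, hP, hP']
    have hq : Nq_EGCollY d (Z2 * P) (Cb * V0) Cb x := by
      refine ⟨h6, ?_⟩
      rw [← h7]
      generalize Z2 * P * x - Cb * V0 * star x = a at h3
      generalize Z2 * P' * star x = b at h3
      obtain ⟨c, hc⟩ := h3
      have h8 : (a * star y).norm = (b * y + d * c).norm := by rw [← hc]; congr 1; ring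
      rw [Zsqrtd.norm_mul, Zsqrtd.norm_conj] at h8
      refine h5.dvd_of_dvd_mul_right ⟨2 * ((b * y).re * c.re + m * ((b * y).im * c.im)) +
        d * c.norm, ?_⟩
      rw [sub_mul, h8, ← Zsqrtd.norm_mul]
      generalize b * y = w
      simp only [norm_eq, Zsqrtd.re_add, Zsqrtd.im_add, Zsqrtd.re_mul, Zsqrtd.im_mul,
        Zsqrtd.re_natCast, Zsqrtd.im_natCast]
      ring
    rw [if_pos hq]
    have h8 := lin_count m M A len d hd hc (Z2 * P * x - Cb * V0 * star x) (Z2 * P' * star x)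
      (by rw [h7, Zsqrtd.norm_mul, hP]; exact (hZ.mul_right h6).mul_right h4)
    refine (expect_le_expect (g := fun v : Fin len => if (d : O m) ∣
      (Z2 * P * x - Cb * V0 * star x) * star (mz m M (A + v)) -
        Z2 * P' * star x * mz m M (A + v) then (1 : ℝ) else 0) fun v _ => ?_).trans ?_
    · split_ifs with h9 h10
      · exact le_rfl
      · exact absurd h9.2 h10
      · exact zero_le_one
      · exact le_rfl
    · rw [ind_EGCollY len fun v => (d : O m) ∣
        (Z2 * P * x - Cb * V0 * star x) * star (mz m M (A + v)) -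
          Z2 * P' * star x * mz m M (A + v), div_le_iff₀ (by linarith)]
      refine h8.trans ?_
      have : 1 ≤ (len : ℝ) / d := (one_le_div h0).2 h1
      rw [div_mul_eq_mul_div, mul_div_assoc]
      linarith
  · rw [expect_eq_zero fun v _ => if_neg fun h2 => h ⟨v, h2⟩]
    split_ifs
    · positivity
    · exact le_rfl

theorem content_EGCollY {m M d : ℕ} (hc : Nat.Coprime d (2 * m * M)) {x0 n e0 e1 g : ℤ}
    (hg : g ∣ d) (h1 : g ∣ (n - 2 * e0) * M ^ 2)
    (h2 : g ∣ M * (2 * (n - 2 * e0) * x0 + 4 * m * M * e1))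
    (h3 : g ∣ (n - 2 * e0) * x0 ^ 2 + 4 * m * M * e1 * x0 + m * M ^ 2 * (n + 2 * e0)) :
    g ∣ e0 ∧ g ∣ e1 := by
  have c0 : IsCoprime g (2 * m * M : ℤ) :=
    IsCoprime.of_isCoprime_of_dvd_left (by exact_mod_cast Nat.isCoprime_iff_coprime.2 hc) hg
  have c1 : IsCoprime g (M : ℤ) := c0.of_mul_right_right
  have c2 : IsCoprime g (m : ℤ) := c0.of_mul_right_left.of_mul_right_right
  have c3 : IsCoprime g (4 : ℤ) := by
    simpa using (c0.of_mul_right_left.of_mul_right_left.pow_right (n := 2))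
  have a1 : g ∣ n - 2 * e0 := c1.pow_right.dvd_of_dvd_mul_right h1
  have a2 : g ∣ 4 * m * M * e1 :=
    (dvd_add_right ((a1.mul_left 2).mul_right x0)).1 (c1.dvd_of_dvd_mul_left h2)
  have a3 : g ∣ n + 2 * e0 := (c2.mul_right c1.pow_right).dvd_of_dvd_mul_left
    ((dvd_add_right ((a1.mul_right _).add (a2.mul_right _))).1 h3)
  refine ⟨c3.dvd_of_dvd_mul_left ?_, ((c3.mul_right c2).mul_right c1).dvd_of_dvd_mul_left a2⟩
  have := a3.sub a1
  rwa [show n + 2 * e0 - (n - 2 * e0) = 4 * e0 by ring] at this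

open Classical in
theorem quad_EGCollY (m M A len d : ℕ) (hd : 1 ≤ d) (hc : Nat.Coprime d (2 * m * M)) (hlen : d ≤ len)
    (Z2 V0 P Cb : O m) (hZ : IsCoprime (d : ℤ) Z2.norm) (hP : P.norm = Cb.norm)
    (hg : Int.gcd (Int.gcd V0.re V0.im) d ^ 2 ≤ d) :
    𝔼 v : Fin len, (if Nq_EGCollY d (Z2 * P) (Cb * V0) Cb (mz m M (A + v)) then (1 : ℝ) else 0) ≤
      6 * (d : ℝ) ^ (-1 / 6 : ℝ) := by
  have h0 : (0 : ℝ) < d := by exact_mod_cast hd
  have h1 : (d : ℝ) ≤ len := by exact_mod_cast hlen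
  by_cases hC : IsCoprime (d : ℤ) Cb.norm
  swap
  · rw [expect_eq_zero fun v _ => if_neg fun h2 => hC h2.1]
    positivity
  obtain ⟨W, hW1, hW2⟩ : ∃ W : ℕ, W ^ 6 ≤ d ∧ d < (W + 1) ^ 6 :=
    ⟨Nat.nthRoot 6 d, Nat.pow_nthRoot_le (Or.inl (by norm_num)),
      Nat.lt_pow_nthRoot_add_one (by norm_num) d⟩
  have hW : 1 ≤ W := by
    by_contra h
    obtain rfl : W = 0 := by omega
    omega
  set de := Z2 * P * star (Cb * V0) with hde
  set n := (Cb * V0).norm with hn
  set x0 : ℤ := 1 + M * A with hx0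
  have key := quad_count len d W ((n - 2 * de.re) * M ^ 2)
    (M * (2 * (n - 2 * de.re) * x0 + 4 * m * M * de.im))
    ((n - 2 * de.re) * x0 ^ 2 + 4 * m * M * de.im * x0 + m * M ^ 2 * (n + 2 * de.re)) hd hW ?_
  · rw [ind_EGCollY len fun v => Nq_EGCollY d (Z2 * P) (Cb * V0) Cb (mz m M (A + v)),
      div_le_iff₀ (by linarith)]
    refine le_trans (Nat.cast_le.2 (card_le_card fun t ht => ?_)) (key.trans ?_)
    · obtain ⟨h2, -, h3⟩ := mem_filter.1 ht
      refine mem_filter.2 ⟨h2, (dvd_iff_dvd_of_dvd_sub (Dvd.intro 0 ?_)).1 h3⟩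
      rw [hde, hn, hx0]
      generalize Z2 * P = al
      generalize Cb * V0 = bb
      simp only [norm_eq, mz, Zsqrtd.re_sub, Zsqrtd.im_sub, Zsqrtd.re_mul, Zsqrtd.im_mul,
        Zsqrtd.re_star, Zsqrtd.im_star]
      push_cast
      ring
    · have a0 : (0 : ℝ) < W := by exact_mod_cast hW
      have a1 : (d : ℝ) ^ (1 / 6 : ℝ) ≤ 2 * W := by
        have h2 : (d : ℝ) ≤ (2 * W) ^ 6 := by
          exact_mod_cast hW2.le.trans (Nat.pow_le_pow_left (by omega) 6)
        refine (Real.rpow_le_rpow h0.le h2 (by norm_num)).trans (le_of_eq ?_)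
        rw [← Real.rpow_natCast, ← Real.rpow_mul (by positivity)]
        norm_num
      have a2 : (d : ℝ) ^ (1 / 6 : ℝ) ≤ len := le_trans
        (Real.rpow_le_self_of_one_le (by exact_mod_cast hd) (by norm_num)) h1
      have a3 : 0 < (d : ℝ) ^ (1 / 6 : ℝ) := by positivity
      rw [show (-1 / 6 : ℝ) = -(1 / 6) by norm_num, Real.rpow_neg h0.le]
      generalize (d : ℝ) ^ (1 / 6 : ℝ) = s at *
      have a4 : (len : ℝ) / W ≤ 2 * (s⁻¹ * len) := by
        rw [div_le_iff₀ a0, inv_mul_eq_div, mul_right_comm, ← mul_div_assoc, le_div_iff₀ a3]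
        nlinarith
      have a5 : 1 ≤ s⁻¹ * len := by
        rw [inv_mul_eq_div]
        exact (one_le_div a3).2 a2
      linarith
  · set g := Int.gcd (Int.gcd ((n - 2 * de.re) * M ^ 2)
      (M * (2 * (n - 2 * de.re) * x0 + 4 * m * M * de.im)))
      (Int.gcd ((n - 2 * de.re) * x0 ^ 2 + 4 * m * M * de.im * x0 + m * M ^ 2 * (n + 2 * de.re)) d)
      with hgd
    have g1 : (g : ℤ) ∣ d := (Int.gcd_dvd_right _ _).trans (Int.gcd_dvd_right _ _)
    have g2 := (nat_dvd_iff g de).2 (content_EGCollY hc g1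
      ((Int.gcd_dvd_left _ _).trans (Int.gcd_dvd_left _ _))
      ((Int.gcd_dvd_left _ _).trans (Int.gcd_dvd_right _ _))
      ((Int.gcd_dvd_right _ _).trans (Int.gcd_dvd_left _ _)))
    have g3 : (g : O m) ∣ ((Z2.norm * Cb.norm * Cb.norm : ℤ) : O m) * V0 := by
      have h2 := (dvd_star g2).mul_left (Z2 * P * star Cb)
      rw [star_natCast] at h2
      refine h2.trans (dvd_of_eq ?_)
      rw [Int.cast_mul, Int.cast_mul, Zsqrtd.norm_eq_mul_conj Z2]
      nth_rewrite 1 [← hP]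
      rw [Zsqrtd.norm_eq_mul_conj, Zsqrtd.norm_eq_mul_conj, hde]
      simp only [star_mul', star_star]
      ring
    have g4 : IsCoprime (g : ℤ) (Z2.norm * Cb.norm * Cb.norm) :=
      IsCoprime.of_isCoprime_of_dvd_left ((hZ.mul_right hC).mul_right hC) g1
    rw [nat_dvd_iff, Zsqrtd.re_mul, Zsqrtd.im_mul, Zsqrtd.re_intCast, Zsqrtd.im_intCast] at g3
    simp only [mul_zero, zero_mul, add_zero] at g3
    have g5 : g ∣ Int.gcd (Int.gcd V0.re V0.im) d := Int.dvd_gcd (Int.natCast_dvd_natCast.2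
      (Int.dvd_gcd (g4.dvd_of_dvd_mul_left g3.1) (g4.dvd_of_dvd_mul_left g3.2))) g1
    have g6 := Nat.le_of_dvd (Int.gcd_pos_of_ne_zero_right _ (by omega)) g5
    refine (Nat.mul_le_mul_left _ g6).trans ((Nat.pow_le_pow_iff_left two_ne_zero).1 ?_)
    rw [mul_pow, ← pow_mul, sq d]
    exact Nat.mul_le_mul hW1 hg

/-- The product over the other coordinates. -/
def rest_EGCollY {m r : ℕ} (i j : Fin r) (z : Fin r → O m) (ε : Fin r → Bool) : O m :=
  ∏ k ∈ (univ.erase j).erase i, if ε k then z k else star (z k)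

theorem cube_EGCollY {m r : ℕ} {i j : Fin r} (h : i ≠ j) (z : Fin r → O m) (ε : Fin r → Bool) :
    cube z ε = (if ε j then z j else star (z j)) *
      ((if ε i then z i else star (z i)) * rest_EGCollY i j z ε) := by
  rw [rest_EGCollY, mul_prod_erase _ (fun k => if ε k then z k else star (z k))
    (mem_erase.2 ⟨h, mem_univ i⟩), mul_prod_erase _ (fun k => if ε k then z k else star (z k))
    (mem_univ j), cube]

theorem rnorm_EGCollY {m r : ℕ} (i j : Fin r) (z : Fin r → O m) (ε ε' : Fin r → Bool) :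
    (rest_EGCollY i j z ε).norm = (rest_EGCollY i j z ε').norm := by
  simp only [rest_EGCollY, norm_prod', apply_ite Zsqrtd.norm, Zsqrtd.norm_conj, ite_self]

theorem rupd_EGCollY {m r len : ℕ} (i j : Fin r) (F : Fin len → O m) (t : Fin r → Fin len)
    (v : Fin len) (ε : Fin r → Bool) :
    rest_EGCollY i j (fun k => F (Function.update t i v k)) ε =
        rest_EGCollY i j (fun k => F (t k)) ε ∧
      rest_EGCollY i j (fun k => F (Function.update t j v k)) ε =
        rest_EGCollY i j (fun k => F (t k)) ε :=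
  ⟨prod_congr rfl fun k hk => by simp only [Function.update_of_ne (mem_erase.1 hk).1],
    prod_congr rfl fun k hk => by
      simp only [Function.update_of_ne (mem_erase.1 (mem_erase.1 hk).2).1]⟩

open Classical in
/-- L10, the first cube against a fixed difference of small content. -/
theorem collY_fixed (m M A len r d : ℕ) (hd : 1 ≤ d) (hc : Nat.Coprime d (2 * m * M)) (hlen : d ≤ len)
    (Z2 V0 : O m) (hZ : IsCoprime (d : ℤ) Z2.norm) (ε ε' : Fin r → Bool) (i j : Fin r)
    (hj : ε j = true ∧ ε' j = false) (hi : ε i = false ∧ ε' i = true) :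
    𝔼 t : Fin r → Fin len,
      (if IsCoprime (d : ℤ) (base fun k => mz m M (A + t k)).norm ∧
          (d : O m) ∣ (cube (fun k => mz m M (A + t k)) ε - cube (fun k => mz m M (A + t k)) ε') * Z2 -
            (base fun k => mz m M (A + t k)) * V0 then (1 : ℝ) else 0) ≤
      if Int.gcd (Int.gcd V0.re V0.im) d ^ 2 ≤ d then 12 * (d : ℝ) ^ (-7 / 6 : ℝ) else 2 / d := by
  have h0 : (0 : ℝ) < d := by exact_mod_cast hd
  have : Nonempty (Fin len) := ⟨⟨0, by omega⟩⟩
  have hij : i ≠ j := fun h => by simp [h, hj.1] at hi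
  set F : Fin len → O m := fun v => mz m M (A + v) with hF
  have a1 : 𝔼 t : Fin r → Fin len,
      (if IsCoprime (d : ℤ) (base fun k => F (t k)).norm ∧
          (d : O m) ∣ (cube (fun k => F (t k)) ε - cube (fun k => F (t k)) ε') * Z2 -
            (base fun k => F (t k)) * V0 then (1 : ℝ) else 0) ≤
      𝔼 t : Fin r → Fin len, if Nq_EGCollY d (Z2 * rest_EGCollY i j (fun k => F (t k)) ε)
        ((rest_EGCollY i j (fun k => F (t k)) fun _ => false) * V0)
        (rest_EGCollY i j (fun k => F (t k)) fun _ => false) (F (t j)) then 2 / (d : ℝ) else 0 := by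
    rw [expect_update _ i]
    refine expect_le_expect fun t _ => le_trans (le_of_eq (expect_congr rfl fun v _ => ?_))
      (lin_EGCollY m M A len d hd hc hlen Z2 V0 _ (rest_EGCollY i j (fun k => F (t k)) ε') _ _ hZ
        (rnorm_EGCollY _ _ _ _ _) (rnorm_EGCollY _ _ _ _ _))
    simp only [base, cube_EGCollY hij, (rupd_EGCollY i j F t v _).1, hi.1, hi.2, hj.1, hj.2,
      Function.update_self, Function.update_of_ne hij.symm, if_true, Bool.false_eq_true, if_false]
    rfl
  refine a1.trans ?_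
  split_ifs with hg
  · rw [expect_update _ j]
    refine expect_le univ_nonempty fun t _ => ?_
    have a2 := quad_EGCollY m M A len d hd hc hlen Z2 V0 (rest_EGCollY i j (fun k => F (t k)) ε)
      (rest_EGCollY i j (fun k => F (t k)) fun _ => false) hZ (rnorm_EGCollY _ _ _ _ _) hg
    have a3 := mul_le_mul_of_nonneg_left a2 (by positivity : 0 ≤ 2 / (d : ℝ))
    rw [mul_expect] at a3
    refine le_trans (le_of_eq (expect_congr rfl fun v _ => ?_)) (a3.trans (le_of_eq ?_))
    · simp only [(rupd_EGCollY i j F t v _).2, Function.update_self, mul_ite, mul_one, mul_zero]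
      rfl
    · rw [show (-7 / 6 : ℝ) = -1 / 6 - 1 by norm_num, Real.rpow_sub_one h0.ne']
      ring
  · refine expect_le univ_nonempty fun t _ => ?_
    split_ifs
    · exact le_rfl
    · positivity

theorem bad_EGCollY (r : ℕ) (b : Bool) :
    𝔼 q : (Fin r → Bool) × (Fin r → Bool),
      ∏ k, (if q.1 k = b ∧ q.2 k = !b then (0 : ℝ) else 1) = (3 / 4) ^ r := by
  rw [prod_EGCollY]
  have h1 : ∀ x : Fin r → Bool, 𝔼 y : Fin r → Bool,
      ∏ k, (if x k = b ∧ y k = !b then (0 : ℝ) else 1) =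
        ∏ k, 𝔼 y : Bool, (if x k = b ∧ y = !b then (0 : ℝ) else 1) := fun x =>
    expect_pi_prod (Ω := fun _ => Bool) fun k y => if x k = b ∧ y = !b then (0 : ℝ) else 1
  have h2 : 𝔼 x : Bool, 𝔼 y : Bool, (if x = b ∧ y = !b then (0 : ℝ) else 1) = 3 / 4 := by
    simp only [Fintype.expect_eq_sum_div_card]
    cases b <;> simp <;> norm_num
  simp only [h1]
  rw [expect_pi_prod (Ω := fun _ => Bool) fun _ x => 𝔼 y : Bool,
    (if x = b ∧ y = !b then (0 : ℝ) else 1)]
  simp only [h2, prod_const, card_univ, Fintype.card_fin]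

open Classical in
theorem big_EGCollY (m M A len r d : ℕ) (hd : 1 ≤ d) (hc : Nat.Coprime d (2 * m * M))
    (hlen : d ≤ len) (hr : d ≤ 2 ^ r) :
    𝔼 t : Fin r → Fin len, 𝔼 q : (Fin r → Bool) × (Fin r → Bool),
      ∑ g ∈ d.divisors.filter (fun g => d < g ^ 2),
        (if IsCoprime (g : ℤ) (base fun k => mz m M (A + t k)).norm ∧
          (g : O m) ∣ cube (fun k => mz m M (A + t k)) q.1 - cube (fun k => mz m M (A + t k)) q.2
          then (1 : ℝ) else 0) ≤ 3 * (d.divisors.card : ℝ) * (d : ℝ) ^ (-1 / 6 : ℝ) := by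
  have h0 : (0 : ℝ) < d := by exact_mod_cast hd
  simp only [expect_sum_comm]
  refine (sum_le_card_nsmul _ _ (3 * (d : ℝ) ^ (-1 / 6 : ℝ)) fun g hg => ?_).trans ?_
  · obtain ⟨h1, h2⟩ := mem_filter.1 hg
    have h3 := Nat.dvd_of_mem_divisors h1
    have h4 := Nat.le_of_dvd hd h3
    have h5 := Nat.pos_of_mem_divisors h1
    refine le_trans (le_of_eq (expect_congr rfl fun t _ => ?_))
      ((collX m M A len r g h5 (hc.coprime_dvd_left h3) (h4.trans hlen) (h4.trans hr)).trans ?_)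
    · rw [cX]
      split_ifs with h
      · simp only [h, true_and]
      · simp only [h, false_and, if_false, expect_const_zero]
    · have h6 : (d : ℝ) ^ (1 / 6 : ℝ) ≤ g := by
        have h7 : (d : ℝ) ≤ g ^ 6 := by
          exact_mod_cast h2.le.trans (Nat.pow_le_pow_right h5 (by norm_num))
        refine (Real.rpow_le_rpow h0.le h7 (by norm_num)).trans (le_of_eq ?_)
        rw [← Real.rpow_natCast, ← Real.rpow_mul (by positivity)]
        norm_num
      rw [show (-1 / 6 : ℝ) = -(1 / 6) by norm_num, Real.rpow_neg h0.le, ← div_eq_mul_inv]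
      exact div_le_div_of_nonneg_left (by norm_num) (by positivity) h6
  · have h1 : ((d.divisors.filter fun g => d < g ^ 2).card : ℝ) ≤ d.divisors.card := by
      exact_mod_cast card_filter_le _ _
    rw [nsmul_eq_mul, mul_comm 3 (d.divisors.card : ℝ), mul_assoc]
    exact mul_le_mul_of_nonneg_right h1 (by positivity)

open Classical in
theorem one_EGCollY (m M A len r d : ℕ) (hd : 1 ≤ d) (hc : Nat.Coprime d (2 * m * M))
    (hlen : d ≤ len) (z2 : Fin r → O m) (a b : (Fin r → Bool) × (Fin r → Bool)) :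
    𝔼 t : Fin r → Fin len,
      (if IsCoprime (d : ℤ) ((base fun k => mz m M (A + t k)).norm * (base z2).norm) ∧
          (d : O m) ∣ yy (fun k => mz m M (A + t k)) z2 (a.1, b.1) -
            yy (fun k => mz m M (A + t k)) z2 (a.2, b.2) then (1 : ℝ) else 0) ≤
      (∏ k, (if a.1 k = true ∧ a.2 k = !true then (0 : ℝ) else 1) +
        ∏ k, (if a.1 k = false ∧ a.2 k = !false then (0 : ℝ) else 1)) +
      (12 * (d : ℝ) ^ (-7 / 6 : ℝ) + 2 / d * ∑ g ∈ d.divisors.filter (fun g => d < g ^ 2),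
        (if IsCoprime (g : ℤ) (base z2).norm ∧ (g : O m) ∣ cube z2 b.1 - cube z2 b.2
          then (1 : ℝ) else 0)) := by
  have : Nonempty (Fin len) := ⟨⟨0, by omega⟩⟩
  have p0 : ∀ c : Bool, 0 ≤ ∏ k, (if a.1 k = c ∧ a.2 k = !c then (0 : ℝ) else 1) := fun c =>
    prod_nonneg fun k _ => by split_ifs <;> norm_num
  have p1 : ∀ c : Bool, (¬ ∃ k, a.1 k = c ∧ a.2 k = !c) →
      ∏ k, (if a.1 k = c ∧ a.2 k = !c then (0 : ℝ) else 1) = 1 := fun c h =>
    prod_eq_one fun k _ => if_neg fun h1 => h ⟨k, h1⟩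
  have s0 : ∀ g ∈ d.divisors.filter (fun g => d < g ^ 2),
      0 ≤ (if IsCoprime (g : ℤ) (base z2).norm ∧ (g : O m) ∣ cube z2 b.1 - cube z2 b.2
        then (1 : ℝ) else 0) := fun g _ => by split_ifs <;> norm_num
  have s1 := sum_nonneg s0
  have d0 : (0 : ℝ) ≤ 2 / d := by positivity
  have d1 : 0 ≤ 12 * (d : ℝ) ^ (-7 / 6 : ℝ) := by positivity
  have s2 := mul_nonneg d0 s1
  have one : ∀ {c : (Fin r → Fin len) → Prop} [DecidablePred c],
      𝔼 t : Fin r → Fin len, (if c t then (1 : ℝ) else 0) ≤ 1 := fun {c} _ =>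
    expect_le univ_nonempty fun t _ => by split_ifs <;> norm_num
  by_cases hj : ∃ k, a.1 k = true ∧ a.2 k = !true
  swap
  · refine one.trans ?_
    linarith [p1 _ hj, p0 false]
  by_cases hi : ∃ k, a.1 k = false ∧ a.2 k = !false
  swap
  · refine one.trans ?_
    linarith [p1 _ hi, p0 true]
  refine le_add_of_nonneg_of_le (add_nonneg (p0 _) (p0 _)) ?_
  by_cases hZ : IsCoprime (d : ℤ) (base z2).norm
  swap
  · rw [expect_eq_zero fun t _ => if_neg fun h => hZ h.1.of_mul_right_right]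
    linarith
  obtain ⟨j, hj⟩ := hj
  obtain ⟨i, hi⟩ := hi
  refine le_trans (expect_le_expect fun t _ => ?_)
    ((collY_fixed m M A len r d hd hc hlen (base z2) (cube z2 b.2 - cube z2 b.1) hZ a.1 a.2 i j
      hj hi).trans ?_)
  · split_ifs with h1 h2
    · exact le_rfl
    · refine absurd ⟨h1.1.of_mul_right_left, h1.2.trans (dvd_of_eq ?_)⟩ h2
      simp only [yy]
      ring
    · exact zero_le_one
    · exact le_rfl
  · generalize hV : cube z2 b.2 - cube z2 b.1 = V
    split_ifs with h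
    · linarith
    · have h1 : ((Int.gcd (Int.gcd V.re V.im) d : ℕ) : ℤ) ∣ d := Int.gcd_dvd_right _ _
      have h2 := single_le_sum s0 (a := Int.gcd (Int.gcd V.re V.im) d) (mem_filter.2
        ⟨Nat.mem_divisors.2 ⟨Int.natCast_dvd_natCast.1 h1, by omega⟩, not_le.1 h⟩)
      have h3 : ((Int.gcd (Int.gcd V.re V.im) d : ℕ) : O m) ∣ cube z2 b.1 - cube z2 b.2 := by
        rw [← dvd_neg, neg_sub, hV, nat_dvd_iff]
        exact ⟨(Int.gcd_dvd_left _ _).trans (Int.gcd_dvd_left _ _),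
          (Int.gcd_dvd_left _ _).trans (Int.gcd_dvd_right _ _)⟩
      rw [if_pos ⟨IsCoprime.of_isCoprime_of_dvd_left hZ h1, h3⟩] at h2
      linarith [mul_le_mul_of_nonneg_left h2 d0]

/-- L10, two cubes. -/
theorem collY (m M A len r d : ℕ) (hd : 1 ≤ d) (hc : Nat.Coprime d (2 * m * M)) (hlen : d ≤ len)
    (hr : (d : ℝ) ^ 3 ≤ (4 / 3 : ℝ) ^ r) :
    𝔼 q : (Fin r → Fin len) × (Fin r → Fin len),
      cY d (fun i => mz m M (A + q.1 i)) (fun i => mz m M (A + q.2 i)) ≤
      30 * (d.divisors.card : ℝ) * (d : ℝ) ^ (-7 / 6 : ℝ) := by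
  classical
  have : Nonempty (Fin len) := ⟨⟨0, by omega⟩⟩
  have h0 : (0 : ℝ) < d := by exact_mod_cast hd
  have h1 : (1 : ℝ) ≤ d := by exact_mod_cast hd
  have hr2 : d ≤ 2 ^ r := by
    have := (le_self_pow₀ h1 three_ne_zero).trans
      (hr.trans (pow_le_pow_left₀ (by norm_num) (by norm_num : (4 / 3 : ℝ) ≤ 2) r))
    exact_mod_cast this
  have e1 : ∀ z1 z2 : Fin r → O m, cY d z1 z2 =
      𝔼 a : (Fin r → Bool) × (Fin r → Bool), 𝔼 b : (Fin r → Bool) × (Fin r → Bool),
        if IsCoprime (d : ℤ) ((base z1).norm * (base z2).norm) ∧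
          (d : O m) ∣ yy z1 z2 (a.1, b.1) - yy z1 z2 (a.2, b.2) then (1 : ℝ) else 0 := by
    intro z1 z2
    rw [cY]
    split_ifs with h
    · simp only [h, true_and]
      refine Eq.trans (Fintype.expect_equiv (Equiv.prodProdProdComm _ _ _ _) _ (fun q =>
        if (d : O m) ∣ yy z1 z2 (q.1.1, q.2.1) - yy z1 z2 (q.1.2, q.2.2) then (1 : ℝ) else 0)
        fun q => ?_) (prod_EGCollY _)
      rfl
    · simp only [h, false_and, if_false, expect_const_zero]
  rw [prod_EGCollY, expect_comm]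
  simp only [e1]
  have e2 := big_EGCollY m M A len r d hd hc hlen hr2
  have e3 : (3 / 4 : ℝ) ^ r ≤ (d : ℝ) ^ (-7 / 6 : ℝ) := by
    refine le_trans ?_ (Real.rpow_le_rpow_of_exponent_le h1 (by norm_num : (-3 : ℝ) ≤ -7 / 6))
    rw [Real.rpow_neg h0.le, show (3 / 4 : ℝ) = (4 / 3)⁻¹ by norm_num, inv_pow]
    exact inv_anti₀ (by positivity) (by exact_mod_cast hr)
  have e4 : (1 : ℝ) ≤ d.divisors.card := by
    exact_mod_cast card_pos.2 ⟨1, Nat.one_mem_divisors.2 (by omega)⟩
  have e5 : (d : ℝ) ^ (-7 / 6 : ℝ) = (d : ℝ) ^ (-1 / 6 : ℝ) / d := by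
    rw [show (-7 / 6 : ℝ) = -1 / 6 - 1 by norm_num, Real.rpow_sub_one h0.ne']
  refine (expect_le_expect fun t _ => (expect_comm _ _ _).trans_le (expect_le_expect fun a _ =>
    (expect_comm _ _ _).trans_le (expect_le_expect fun b _ =>
      one_EGCollY m M A len r d hd hc hlen _ a b))).trans ?_
  simp only [expect_add_distrib, Fintype.expect_const, bad_EGCollY, ← mul_expect]
  have e6 : 0 < (d : ℝ) ^ (-7 / 6 : ℝ) := by positivity
  have e7 := mul_le_mul_of_nonneg_left e2 (by positivity : 0 ≤ 2 / (d : ℝ))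
  rw [show 2 / (d : ℝ) * (3 * (d.divisors.card : ℝ) * (d : ℝ) ^ (-1 / 6 : ℝ)) =
    6 * (d.divisors.card : ℝ) * (d : ℝ) ^ (-7 / 6 : ℝ) by rw [e5]; ring] at e7
  nlinarith

end Pool.Agent.P.MP_b75a1e_co.EG
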