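import Pool.Agent.P.MP_b75a1e_co.EGStage

set_option autoImplicit false

open Finset
open scoped BigOperators ComplexConjugate

namespace Pool.Agent.P.MP_b75a1e_co.EG

theorem near_res_EGDesign (E : ℕ) (hE : 1 ≤ E) (c : ℤ) (u : ℝ) :
    ∃ a : ℤ, (E : ℤ) ∣ a - c ∧ u < a ∧ (a : ℝ) ≤ u + E := by
  have hE' : (0 : ℝ) < E := by exact_mod_cast hE
  refine ⟨c + E * (⌊(u - c) / E⌋ + 1), ⟨⌊(u - c) / E⌋ + 1, by ring⟩, ?_, ?_⟩
  · have h := Int.lt_floor_add_one ((u - c) / E)
    rw [div_lt_iff₀ hE'] at h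
    push_cast
    nlinarith
  · have h := Int.floor_le ((u - c) / E)
    rw [le_div_iff₀ hE'] at h
    push_cast
    nlinarith

theorem near_ne_EGDesign (E len : ℕ) (hE : 1 ≤ E) (c : ℤ) (u : ℝ) :
    ∃ b e : ℤ, (e = E ∨ e = -E) ∧ (E : ℤ) ∣ b - c ∧
      ∀ t < len, b + e * (t : ℕ) ≠ 0 ∧ |((b + e * (t : ℕ) : ℤ) : ℝ) - u| ≤ E * len := by
  have hE' : (0 : ℝ) < E := by exact_mod_cast hE
  rcases le_total 0 u with hu | hu
  · obtain ⟨a, h1, h2, h3⟩ := near_res_EGDesign E hE c u
    refine ⟨a, E, Or.inl rfl, h1, fun t ht => ?_⟩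
    have ht0 : (0 : ℝ) ≤ t := Nat.cast_nonneg t
    have ht1 : (t : ℝ) + 1 ≤ len := by exact_mod_cast ht
    have hp : (0 : ℝ) ≤ E * t := mul_nonneg hE'.le ht0
    constructor
    · intro h
      have h' : ((a + E * (t : ℕ) : ℤ) : ℝ) = 0 := by exact_mod_cast h
      push_cast at h'
      linarith
    · push_cast
      rw [abs_le]
      constructor <;> nlinarith
  · obtain ⟨a, h1, h2, h3⟩ := near_res_EGDesign E hE (-c) (-u)
    refine ⟨-a, -E, Or.inr rfl, ?_, fun t ht => ?_⟩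
    · have : -a - c = -(a - -c) := by ring
      rw [this]
      exact h1.neg_right
    have ht0 : (0 : ℝ) ≤ t := Nat.cast_nonneg t
    have ht1 : (t : ℝ) + 1 ≤ len := by exact_mod_cast ht
    have hp : (0 : ℝ) ≤ E * t := mul_nonneg hE'.le ht0
    constructor
    · intro h
      have h' : ((-a + -E * (t : ℕ) : ℤ) : ℝ) = 0 := by exact_mod_cast h
      push_cast at h'
      linarith
    · push_cast
      rw [abs_le]
      constructor <;> nlinarith

/-- L13: coordinates with prescribed residue and direction. -/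
theorem design {I : Type} [Fintype I] [DecidableEq I] (m Y len E w : ℕ) (B σ : ℝ) (ζ : I → O m)
    (ω : I → ℂ) (DD : ℤ) (hm : 1 ≤ m) (hE : 1 ≤ E) (hEs : Smo Y E) (hω : ∀ i, ‖ω i‖ = 1)
    (hB : 1 ≤ B) (hY : 2 ≤ Y) (hlen1 : 1 ≤ len) (hlen : Y * w ≤ len)
    (hw : (B + 4 * E * len * Real.sqrt m) ^ 2 ≤ 2 ^ w) (hD : DD ≠ 0) (hσ0 : 0 ≤ σ)
    (hσ : wt Y len DD ≤ σ)
    (hI : 2 * (Fintype.card I : ℝ) * σ + 220 * (Fintype.card I : ℝ) ^ 2 / Y ≤ 1 / 2) :
    ∃ z : I → O m, (∀ i, (E : O m) ∣ z i - ζ i ∧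
        ‖ph m (z i) - B * ω i‖ ≤ 4 * E * len * Real.sqrt m ∧ Prim Y (z i) ∧ z i ≠ 0 ∧
        Cop Y DD (z i).norm) ∧
      (∀ i k, i ≠ k → Cop Y (z i).norm (z k).norm) ∧
      ∑ i, wt Y len (z i).norm ≤ 100 * (Fintype.card I : ℝ) / Y := by
  have hE' : (1 : ℝ) ≤ E := by exact_mod_cast hE
  have hl' : (1 : ℝ) ≤ len := by exact_mod_cast hlen1
  have hY' : (0 : ℝ) < Y := by exact_mod_cast (by omega : 0 < Y)
  have hs : (1 : ℝ) ≤ Real.sqrt m := by
    rw [Real.one_le_sqrt]
    exact_mod_cast hm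
  have hEl : (1 : ℝ) ≤ E * len := by nlinarith
  have hEls : (E : ℝ) * len ≤ E * len * Real.sqrt m := by nlinarith
  have hnB : ∀ i, ‖(B : ℂ) * ω i‖ = B := fun i => by
    rw [norm_mul, hω i, mul_one, Complex.norm_real, Real.norm_eq_abs, abs_of_nonneg (by linarith)]
  have hnE : ∀ l : ℕ, l.Prime → Y < l → ¬ (l : ℤ) ∣ (E : ℤ) := fun l hl hY h => by
    have := hEs l hl (Int.natCast_dvd_natCast.1 h)
    omega
  choose b0 e he hb0 hb using fun i =>
    near_ne_EGDesign E len hE (ζ i).im (((B : ℂ) * ω i).im / Real.sqrt m)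
  choose a0 ha0 ha1 ha2 using fun i => near_res_EGDesign E hE (ζ i).re ((B : ℂ) * ω i).re
  have hc0 : (0 : ℝ) ≤ (Fintype.card I : ℝ) ^ 2 / Y := by positivity
  have hz4 : (𝔼 _t : I → Fin len, (0 : ℝ)) ≤ 1 / 4 := by
    rw [Finset.expect_const_zero]
    norm_num
  obtain ⟨t1, -, -, -, hw1⟩ := stage Y len w (fun i t => b0 i + e i * (t : ℕ)) DD σ (fun _ => 0) hY
    hlen1 hlen
    (fun i t ht => by
      refine ⟨(hb i t ht).1, ?_⟩
      have h1 := (hb i t ht).2
      have h2 : |((B : ℂ) * ω i).im / Real.sqrt m| ≤ B := by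
        rw [abs_div, abs_of_nonneg (Real.sqrt_nonneg _), div_le_iff₀ (by linarith)]
        have := Complex.abs_im_le_norm ((B : ℂ) * ω i)
        rw [hnB] at this
        nlinarith
      have h3 : |((b0 i + e i * (t : ℕ) : ℤ) : ℝ)| ≤ B + E * len := by
        have := abs_add_le (((b0 i + e i * (t : ℕ) : ℤ) : ℝ) - ((B : ℂ) * ω i).im / Real.sqrt m)
          (((B : ℂ) * ω i).im / Real.sqrt m)
        rw [sub_add_cancel] at this
        linarith
      have h4 : B + E * len ≤ (B + 4 * E * len * Real.sqrt m) ^ 2 := by nlinarith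
      have h5 : ((|b0 i + e i * (t : ℕ)| : ℤ) : ℝ) ≤ ((2 ^ w : ℤ) : ℝ) := by
        rw [Int.cast_abs]
        push_cast at h3 ⊢
        linarith
      exact_mod_cast h5)
    (fun i => roots_lin Y len (b0 i) (e i) fun l hl hY h => by
      rcases he i with h' | h'
      · exact hnE l hl hY (h' ▸ h)
      · rw [h'] at h
        exact hnE l hl hY (dvd_neg.1 h))
    hD hσ
    (by
      have : 20 * (Fintype.card I : ℝ) ^ 2 / Y ≤ 220 * (Fintype.card I : ℝ) ^ 2 / Y := by
        rw [mul_div_assoc, mul_div_assoc]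
        linarith
      linarith)
    (fun _ => le_rfl) hz4
  obtain ⟨b, hbdef⟩ : ∃ b : I → ℤ, ∀ i, b i = b0 i + e i * ((t1 i : ℕ) : ℤ) := ⟨_, fun _ => rfl⟩
  have hbne : ∀ i, b i ≠ 0 := fun i => by
    rw [hbdef]
    exact (hb i _ (t1 i).2).1
  have hbcl : ∀ i, |(b i : ℝ) - ((B : ℂ) * ω i).im / Real.sqrt m| ≤ E * len := fun i => by
    rw [hbdef]
    exact (hb i _ (t1 i).2).2
  have hbres : ∀ i, (E : ℤ) ∣ b i - (ζ i).im := fun i => by
    rw [hbdef]
    have h1 : b0 i + e i * ((t1 i : ℕ) : ℤ) - (ζ i).im = (b0 i - (ζ i).im) + e i * ((t1 i : ℕ) : ℤ) := by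
      ring
    rw [h1]
    refine dvd_add (hb0 i) (Dvd.dvd.mul_right ?_ _)
    rcases he i with h' | h' <;> rw [h']
    exact (dvd_refl _).neg_right
  have hbw : ∑ i, wt Y len (b i) ≤ 100 * (Fintype.card I : ℝ) / Y := by
    simpa only [hbdef] using hw1
  obtain ⟨zz, hzz⟩ : ∃ zz : I → ℕ → O m,
      ∀ i t, zz i t = (⟨a0 i, b i⟩ : O m) + (t : O m) * (E : O m) := ⟨_, fun _ _ => rfl⟩
  have hre : ∀ i t, (zz i t).re = a0 i + t * E := fun i t => by
    rw [hzz, ← Nat.cast_mul]
    simp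
  have him : ∀ i t, (zz i t).im = b i := fun i t => by
    rw [hzz, ← Nat.cast_mul]
    simp
  have hne : ∀ i t, zz i t ≠ 0 := fun i t h => by
    have := him i t
    rw [h] at this
    exact hbne i (by simpa using this.symm)
  have hcl : ∀ i, ∀ t < len, ‖ph m (zz i t) - B * ω i‖ ≤ 4 * E * len * Real.sqrt m := fun i t ht => by
    refine (Complex.norm_le_abs_re_add_abs_im _).trans ?_
    have ht0 : (0 : ℝ) ≤ t := Nat.cast_nonneg t
    have ht1 : (t : ℝ) + 1 ≤ len := by exact_mod_cast ht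
    have h1 : |(ph m (zz i t) - B * ω i).re| ≤ E * len := by
      rw [Complex.sub_re, ph_re, hre]
      have := ha1 i
      have := ha2 i
      push_cast
      rw [abs_le]
      constructor <;> nlinarith
    have h2 : |(ph m (zz i t) - B * ω i).im| ≤ E * len * Real.sqrt m := by
      rw [Complex.sub_im, ph_im, him]
      have h3 : (b i : ℝ) * Real.sqrt m - ((B : ℂ) * ω i).im
          = ((b i : ℝ) - ((B : ℂ) * ω i).im / Real.sqrt m) * Real.sqrt m := by
        field_simp
      rw [h3, abs_mul, abs_of_nonneg (Real.sqrt_nonneg _)]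
      exact mul_le_mul_of_nonneg_right (hbcl i) (Real.sqrt_nonneg _)
    nlinarith
  obtain ⟨t2, -, hc1, hc2, hw2⟩ := stage Y len w (fun i t => (zz i t).norm) (DD * ∏ i, b i)
    (σ + 100 * (Fintype.card I : ℝ) / Y) (fun _ => 0) hY hlen1 hlen
    (fun i t ht => by
      have hp := norm_pos' hm (hne i t)
      refine ⟨by omega, ?_⟩
      rw [abs_of_nonneg (by omega)]
      have h1 := norm_sq_ph (zz i t)
      have h2 : ‖ph m (zz i t)‖ ≤ B + 4 * E * len * Real.sqrt m := by
        have := norm_add_le (ph m (zz i t) - B * ω i) (B * ω i)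
        rw [sub_add_cancel, hnB] at this
        have := hcl i t ht
        linarith
      have h3 := pow_le_pow_left₀ (norm_nonneg _) h2 2
      have h5 : (((zz i t).norm : ℤ) : ℝ) ≤ ((2 ^ w : ℤ) : ℝ) := by
        push_cast
        linarith
      exact_mod_cast h5)
    (fun i => by
      simp only [hzz]
      refine roots_norm Y len _ _ fun l hl hY h => ?_
      rw [Zsqrtd.norm_natCast] at h
      rcases (Nat.prime_iff_prime_int.1 hl).dvd_or_dvd h with h | h <;> exact hnE l hl hY h)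
    (mul_ne_zero hD (Finset.prod_ne_zero_iff.2 fun i _ => hbne i))
    (by
      have h1 := wt_mul Y len DD (∏ i, b i)
      have h2 := wt_prod Y len univ b
      linarith)
    (by
      have : 2 * (Fintype.card I : ℝ) * (σ + 100 * (Fintype.card I : ℝ) / Y)
          + 20 * (Fintype.card I : ℝ) ^ 2 / Y
          = 2 * (Fintype.card I : ℝ) * σ + 220 * (Fintype.card I : ℝ) ^ 2 / Y := by
        field_simp
        ring
      linarith)
    (fun _ => le_rfl) hz4
  refine ⟨fun i => zz i (t2 i), fun i => ⟨?_, hcl i _ (t2 i).2, ?_, hne i _, ?_⟩, hc2, hw2⟩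
  · rw [nat_dvd_iff, Zsqrtd.re_sub, Zsqrtd.im_sub, hre, him]
    refine ⟨?_, hbres i⟩
    have h1 : a0 i + ((t2 i : ℕ) : ℤ) * E - (ζ i).re = (a0 i - (ζ i).re) + E * ((t2 i : ℕ) : ℤ) := by
      ring
    rw [h1]
    exact dvd_add (ha0 i) (Dvd.intro _ rfl)
  · intro l hl hY h
    have h1 := ((nat_dvd_iff l _).1 h).2
    rw [him] at h1
    have h2 := norm_dvd_norm h
    rw [Zsqrtd.norm_natCast] at h2
    exact hc1 i l hl hY (Dvd.dvd.mul_left (h1.trans (Finset.dvd_prod_of_mem b (mem_univ i))) _)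
      ((Dvd.intro _ rfl).trans h2)
  · exact (hc1 i).of_dvd (Dvd.intro _ rfl) (dvd_refl _)

/-- The unit vector of a point is close to that of its direction. -/
theorem unit_close (z ω : ℂ) (B η : ℝ) (hω : ‖ω‖ = 1) (hB : 0 < B) (hz : z ≠ 0)
    (h : ‖z - B * ω‖ ≤ η) : ‖z / conj z - ω / conj ω‖ ≤ 2 * η / B := by
  have hω0 : ω ≠ 0 := by
    intro h0
    rw [h0, norm_zero] at hω
    exact zero_ne_one hω
  have hcz : conj z ≠ 0 := by simpa using hz
  have hcω : conj ω ≠ 0 := by simpa using hω0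
  have hBc : (B : ℂ) ≠ 0 := by exact_mod_cast hB.ne'
  have hzp : 0 < ‖z‖ := norm_pos_iff.2 hz
  have key : z / conj z - ω / conj ω
      = ((z - B * ω) * conj z - z * conj (z - B * ω)) / (conj z * (B * conj ω)) := by
    rw [map_sub, map_mul, Complex.conj_ofReal]
    field_simp
    ring
  have h1 : ‖(z - B * ω) * conj z - z * conj (z - B * ω)‖ ≤ 2 * η * ‖z‖ := by
    refine (norm_sub_le _ _).trans ?_
    rw [norm_mul, norm_mul, Complex.norm_conj, Complex.norm_conj]
    nlinarith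
  rw [key, norm_div, norm_mul, norm_mul, Complex.norm_conj, Complex.norm_conj, hω,
    Complex.norm_real, Real.norm_eq_abs, abs_of_pos hB, mul_one,
    div_le_div_iff₀ (by positivity) hB]
  nlinarith

theorem norm_dir (i : ℕ) : ‖dir i‖ = 1 := by
  have h3 : Real.sqrt 3 * Real.sqrt 3 = 3 := Real.mul_self_sqrt (by norm_num)
  have hq : ∀ z : ℂ, Complex.normSq z = 1 → ‖z‖ = 1 := fun z hz => by
    rw [Complex.norm_def, hz, Real.sqrt_one]
  unfold dir
  split_ifs
  · apply hq
    rw [Complex.normSq_mk]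
    linarith
  · apply hq
    rw [Complex.normSq_mk]
    linarith
  all_goals simp

theorem div_dir_EGDesign (i : ℕ) : dir i / conj (dir i) = dir i ^ 2 := by
  have h := norm_dir i
  have h0 : dir i ≠ 0 := by
    intro h0
    rw [h0, norm_zero] at h
    exact zero_ne_one h
  have hc : conj (dir i) ≠ 0 := by simpa using h0
  have h1 : dir i * conj (dir i) = 1 := by
    rw [Complex.mul_conj', h]
    simp
  rw [div_eq_iff hc, pow_two, mul_assoc, h1, mul_one]

theorem sum_dir (Nf : ℕ) (h : 5 ≤ Nf) (hodd : Nf % 2 = 1) :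
    ∑ i ∈ range Nf, dir i / conj (dir i) = 0 := by
  simp only [div_dir_EGDesign]
  obtain ⟨k, rfl⟩ : ∃ k, Nf = 5 + 2 * k := ⟨(Nf - 5) / 2, by omega⟩
  clear h hodd
  induction k with
  | zero =>
    have h3 : Real.sqrt 3 * Real.sqrt 3 = 3 := Real.mul_self_sqrt (by norm_num)
    have h0 : dir 0 ^ 2 + dir 1 ^ 2 = -1 := by
      have e0 : dir 0 = ⟨1 / 2, Real.sqrt 3 / 2⟩ := by simp [dir]
      have e1 : dir 1 = ⟨-1 / 2, Real.sqrt 3 / 2⟩ := by simp [dir]
      rw [e0, e1]
      apply Complex.ext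
      · simp only [pow_two, Complex.add_re, Complex.mul_re, Complex.neg_re, Complex.one_re]
        linarith
      · simp only [pow_two, Complex.add_im, Complex.mul_im, Complex.neg_im, Complex.one_im]
        ring
    have e2 : dir 2 = 1 := by simp [dir]
    have e3 : dir 3 = Complex.I := by simp [dir]
    have e4 : dir 4 = 1 := by simp [dir]
    simp only [mul_zero, add_zero, Finset.sum_range_succ, Finset.sum_range_zero, zero_add]
    rw [h0, e2, e3, e4, Complex.I_sq]
    ring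
  | succ k ih =>
    have e1 : dir (5 + 2 * k) = 1 := by
      unfold dir
      rw [if_neg (by omega), if_neg (by omega), if_neg (by omega), if_neg (by omega),
        if_pos (by omega)]
    have e2 : dir (5 + 2 * k + 1) = Complex.I := by
      unfold dir
      rw [if_neg (by omega), if_neg (by omega), if_neg (by omega), if_neg (by omega),
        if_neg (by omega)]
    rw [show 5 + 2 * (k + 1) = 5 + 2 * k + 1 + 1 by ring, Finset.sum_range_succ,
      Finset.sum_range_succ, ih, e1, e2, Complex.I_sq]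
    ring

end Pool.Agent.P.MP_b75a1e_co.EG
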