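import Pool.Agent.P.MP_b75a1e_co.EGFixed
import Pool.Agent.P.MP_b75a1e_co.EGDesign

set_option autoImplicit false

open Finset
open scoped BigOperators ComplexConjugate

namespace Pool.Agent.P.MP_b75a1e_co.EG

theorem dvd_norm_sub_EGCoords {m : ℕ} (l : ℕ) {x y : O m} (h : (l : O m) ∣ x - y) :
    (l : ℤ) ∣ x.norm - y.norm := by
  rw [nat_dvd_iff] at h
  obtain ⟨h1, h2⟩ := h
  rw [Zsqrtd.re_sub] at h1
  rw [Zsqrtd.im_sub] at h2
  rw [norm_eq, norm_eq]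
  have e1 : x.re ^ 2 + m * x.im ^ 2 - (y.re ^ 2 + m * y.im ^ 2)
      = (x.re - y.re) * (x.re + y.re) + (x.im - y.im) * (m * (x.im + y.im)) := by ring
  rw [e1]
  exact dvd_add (h1.mul_right _) (h2.mul_right _)

theorem cast_dvd_EGCoords {m a b : ℕ} (h : a ∣ b) {x : O m} (hx : (b : O m) ∣ x) : (a : O m) ∣ x :=
  (Nat.cast_dvd_cast h).trans hx

theorem star_dvd_EGCoords {m a : ℕ} {x : O m} (hx : (a : O m) ∣ x) : (a : O m) ∣ star x := by
  have h := dvd_star hx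
  rwa [star_natCast] at h

theorem norm_le_EGCoords {m : ℕ} (z : O m) (ω : ℂ) (B η : ℝ) (w : ℕ) (hω : ‖ω‖ = 1) (hB : 1 ≤ B)
    (h : ‖ph m z - B * ω‖ ≤ η) (hw : (B + η) ^ 2 ≤ 2 ^ w) : z.norm ≤ 2 ^ w := by
  have h1 : ‖ph m z‖ ≤ B + η := by
    have h2 : ‖ph m z‖ ≤ ‖(B : ℂ) * ω‖ + ‖ph m z - B * ω‖ := by
      have := norm_add_le ((B : ℂ) * ω) (ph m z - B * ω)
      rwa [add_sub_cancel] at this
    rw [norm_mul, hω, Complex.norm_real, Real.norm_eq_abs, abs_of_nonneg (by linarith)] at h2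
    linarith
  have h3 : (z.norm : ℝ) ≤ 2 ^ w := by
    rw [← norm_sq_ph]
    exact (pow_le_pow_left₀ (norm_nonneg _) h1 2).trans hw
  exact_mod_cast h3

theorem trace_small_EGCoords (z : ℂ) (B η ε : ℝ) (hB : 1 ≤ B) (h : ‖z - B * Complex.I‖ ≤ η)
    (hε : 4 * η ≤ ε * B) (hε1 : ε ≤ 1) : ‖z + conj z‖ ≤ ε * ‖z‖ := by
  have hη : 0 ≤ η := (norm_nonneg _).trans h
  have hε0 : 0 ≤ ε := by
    by_contra hc
    push Not at hc
    nlinarith
  have e1 : z + conj z = (z - B * Complex.I) + conj (z - B * Complex.I) := by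
    simp only [map_sub, map_mul, Complex.conj_ofReal, Complex.conj_I]
    ring
  have h1 : ‖z + conj z‖ ≤ 2 * η := by
    rw [e1]
    have := norm_add_le (z - B * Complex.I) (conj (z - B * Complex.I))
    rw [Complex.norm_conj] at this
    linarith
  have h2 : B - η ≤ ‖z‖ := by
    have h3 : ‖(B : ℂ) * Complex.I‖ ≤ ‖z‖ + ‖z - B * Complex.I‖ := by
      have := norm_sub_le z (z - B * Complex.I)
      rwa [sub_sub_cancel] at this
    rw [norm_mul, Complex.norm_I, Complex.norm_real, Real.norm_eq_abs,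
      abs_of_nonneg (by linarith)] at h3
    linarith
  have h4 : B / 2 ≤ ‖z‖ := by nlinarith
  nlinarith [mul_le_mul_of_nonneg_left h4 hε0]

theorem unit_rep_EGCoords {m : ℕ} (hm : 1 ≤ m) (G z : O m) (hz : z ≠ 0) :
    (∃ (x : O m) (n : ℕ), n ≠ 0 ∧ ph m G * (ph m z / conj (ph m z)) = ph m x / n) ∧
      ‖ph m G * (ph m z / conj (ph m z))‖ ^ 2 = (G.norm : ℝ) := by
  have h1 := norm_pos' hm hz
  have h0 := ph_ne_zero hm hz
  have hc : conj (ph m z) ≠ 0 := by simpa using h0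
  constructor
  · refine ⟨G * z ^ 2, z.norm.toNat, by omega, ?_⟩
    have e1 : ((z.norm.toNat : ℕ) : ℂ) = ph m z * conj (ph m z) := by
      rw [Complex.mul_conj, Complex.normSq_eq_norm_sq, norm_sq_ph]
      have : ((z.norm.toNat : ℕ) : ℤ) = z.norm := Int.toNat_of_nonneg (by omega)
      rw [Complex.ofReal_intCast, ← Int.cast_natCast, this]
    rw [e1, map_mul, map_pow]
    field_simp
  · rw [norm_mul, norm_div, Complex.norm_conj, div_self (norm_ne_zero_iff.mpr h0), mul_one, norm_sq_ph]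

theorem pure_primes_EGCoords {Y : ℕ} (D : Finset ℕ) (hD : ∀ l ∈ D, l.Prime ∧ Y < l) :
    Pure Y (∏ l ∈ D, (l : ℤ)) := by
  intro q hq hqY hdvd
  rw [← Nat.cast_prod, Int.natCast_dvd_natCast] at hdvd
  obtain ⟨l, hl, hql⟩ := (Prime.dvd_finsetProd_iff hq.prime _).mp hdvd
  have := (Nat.prime_dvd_prime_iff_eq hq (hD l hl).1).mp hql
  have := (hD l hl).2
  omega

theorem cop_sq_left_EGCoords {Y : ℕ} {a b : ℤ} (h : Cop Y a b) : Cop Y (a ^ 2) b := by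
  rw [sq]
  exact h.mul_left h

theorem gen_EGCoords (m p n Nf Y len w K : ℕ) (B η ε σ τ : ℝ) (hsq : Squarefree m) (h4 : m % 4 = 3)
    (hmax : ∀ q, q.Prime → q ∣ m → q ≤ p) (hodd : p % 2 = 1) (hn : 16 * n ≤ p) (hp : 100 ≤ p)
    (hpY : p ≤ Y) (hN : Nf + 4 * n = p) (e : O m) (D : Finset ℕ) (hD : ∀ l ∈ D, l.Prime ∧ Y < l)
    (he : e.norm = ∏ l ∈ D, (l : ℤ)) (hB : 1 ≤ B) (hlen1 : 1 ≤ len) (hlen : Y * w ≤ len)
    (hη : η = 4 * ((primorial Y ^ 10 : ℕ) : ℝ) * len * Real.sqrt m) (hw : (B + η) ^ 2 ≤ 2 ^ w)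
    (hσ0 : 0 ≤ σ) (hσ : wt Y len e.norm ≤ σ)
    (hI1 : 2 * ((Nf : ℝ) + 1) * σ + 220 * ((Nf : ℝ) + 1) ^ 2 / Y ≤ 1 / 2)
    (hI2 : 2 * (σ + 100 * ((Nf : ℝ) + 1) / Y) + 220 / Y ≤ 1 / 2)
    (hτ : σ + 100 * ((Nf : ℝ) + 1) / Y + 100 / Y ≤ τ) (hε : 4 * η ≤ ε * B) (hε1 : ε ≤ 1)
    (hK : w * (2 * Nf + 2) ≤ K) :
    ∃ zg R : O m, Shape m Y (star zg * (e ^ 2 * R)) ∧ Prim Y (star zg * (e ^ 2 * R)) ∧
      Pure Y (star zg * (e ^ 2 * R)).norm ∧
      wt Y len (star zg * (e ^ 2 * R)).norm ≤ τ ∧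
      (star zg * R).norm ≤ 2 ^ K ∧ (QQ m Y : O m) ∣ zg + star zg ∧
      (m : O m) ^ 2 ∣ zg - 1 ∧ ‖ph m (zg + star zg)‖ ≤ ε * ‖ph m zg‖ ∧
      ∀ C : O m, (M1 m Y : O m) ∣ C - 1 →
        ∃ S : O m, Rep m (star zg * (e ^ 2 * R * C)).norm Nf (ph m S) ∧
          (QQ m Y : O m) ∣ S ∧
          mu m ∣ S + ((4 * n * (star zg * (e ^ 2 * R * C)).re : ℤ) : O m) ∧
          ‖ph m S‖ ≤ p * ε * ‖ph m (star zg * (e ^ 2 * R * C))‖ := by
  classical
  have hm : 1 ≤ m := by omega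
  have hmo : m % 2 = 1 := by omega
  have hY2 : 2 ≤ Y := by omega
  have hY3 : 3 ≤ Y := by omega
  have hYpos : (0 : ℝ) < Y := by exact_mod_cast (by omega : 0 < Y)
  have hsm : Smo Y m := fun l hl hlm => (hmax l hl hlm).trans hpY
  have hE1 : 1 ≤ primorial Y ^ 10 := Nat.one_le_pow _ _ (primorial_pos Y)
  obtain ⟨ζ, hζ⟩ := fixed_part m p Y n Nf hsq h4 hmax hodd hpY hN hn hp
  obtain ⟨ζg, hζg1, hζg2⟩ := exists_partner hmo Y
  have hen0 : e.norm ≠ 0 := by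
    rw [he]
    exact prod_ne_zero_iff.mpr fun l hl => by exact_mod_cast (hD l hl).1.ne_zero
  have hcard : (Fintype.card (Option (Fin Nf)) : ℝ) = (Nf : ℝ) + 1 := by simp
  obtain ⟨z1, hz1, hz1c, hz1w⟩ := design (I := Option (Fin Nf)) m Y len (primorial Y ^ 10) w B σ
    (fun o => o.elim ζg fun i => ζ i) (fun o => o.elim Complex.I fun i => dir i) e.norm hm hE1
    (smo_E Y) (by
      rintro (_ | i)
      · exact Complex.norm_I
      · exact norm_dir i) hB hY2 hlen1 hlen (by rw [← hη]; exact hw) hen0 hσ0 hσ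
    (by rw [hcard]; exact hI1)
  rw [hcard, Fintype.sum_option] at hz1w
  rw [← hη] at hz1
  obtain ⟨zg, hzg⟩ : ∃ zg, zg = z1 none := ⟨_, rfl⟩
  obtain ⟨z, hz⟩ : ∃ z : ℕ → O m, ∀ i : Fin Nf, z i = z1 (some i) :=
    ⟨fun i => if h : i < Nf then z1 (some ⟨i, h⟩) else 0, fun i => by simp [i.2]⟩
  have hzi : ∀ i < Nf, ((primorial Y ^ 10 : ℕ) : O m) ∣ z i - ζ i ∧
      ‖ph m (z i) - B * dir i‖ ≤ η ∧ Prim Y (z i) ∧ z i ≠ 0 ∧ Cop Y e.norm (z i).norm := by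
    intro i hi
    have h := hz1 (some ⟨i, hi⟩)
    rw [← hz ⟨i, hi⟩] at h
    exact h
  have hzz : ∀ i < Nf, ∀ k < Nf, i ≠ k → Cop Y (z i).norm (z k).norm := by
    intro i hi k hk hik
    have h := hz1c (some ⟨i, hi⟩) (some ⟨k, hk⟩) (by simpa using hik)
    rw [← hz ⟨i, hi⟩, ← hz ⟨k, hk⟩] at h
    exact h
  have hzgz : ∀ i < Nf, Cop Y (z i).norm zg.norm := by
    intro i hi
    have h := hz1c (some ⟨i, hi⟩) none (by simp)
    rw [← hz ⟨i, hi⟩, ← hzg] at h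
    exact h
  obtain ⟨hg1, hg2, hg3, hg4, hg5⟩ : ((primorial Y ^ 10 : ℕ) : O m) ∣ zg - ζg ∧
      ‖ph m zg - B * Complex.I‖ ≤ η ∧ Prim Y zg ∧ zg ≠ 0 ∧ Cop Y e.norm zg.norm := by
    have h := hz1 none
    rw [← hzg] at h
    exact h
  have hw1 : wt Y len zg.norm + ∑ i ∈ range Nf, wt Y len (z i).norm ≤ 100 * ((Nf : ℝ) + 1) / Y := by
    rw [← hzg] at hz1w
    rw [Finset.sum_range]
    simp only [hz]
    exact hz1w
  clear hz1 hz1c hz1w hzg hz z1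
  obtain ⟨Gf, Dn, hDn, hGf, hGp, hS⟩ := hζ z fun i hi => (hzi i hi).1
  obtain ⟨b, hb1, hb2, hb3⟩ := exists_slope hmo hsm
  obtain ⟨P, hP⟩ : ∃ P : ℤ, P = ∏ i ∈ range Nf, (z i).norm := ⟨_, rfl⟩
  have hPpos : 1 ≤ P := by
    have h : 0 < ∏ i ∈ range Nf, (z i).norm := prod_pos fun i hi =>
      lt_of_lt_of_le zero_lt_one (norm_pos' hm (hzi i (mem_range.mp hi)).2.2.2.1)
    omega
  have hGn : (Dn : ℤ) ^ 2 * Gf.norm = P ^ 2 := by
    have h := congrArg Zsqrtd.norm hGf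
    rw [Zsqrtd.norm_mul, Zsqrtd.norm_natCast, norm_prod'] at h
    simp only [norm_pow', Zsqrtd.norm_conj] at h
    rw [prod_pow] at h
    rw [hP, ← h]
    ring
  have hGdvd : Gf.norm ∣ P ^ 2 := ⟨(Dn : ℤ) ^ 2, by rw [← hGn]; ring⟩
  have hzg1 := norm_pos' hm hg4
  have hwP : wt Y len P ≤ ∑ i ∈ range Nf, wt Y len (z i).norm := by
    rw [hP]
    exact wt_prod Y len _ _
  have hDD0 : zg.norm * e.norm * P ≠ 0 := mul_ne_zero (mul_ne_zero (by omega) hen0) (by omega)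
  have hwDD : wt Y len (zg.norm * e.norm * P) ≤ σ + 100 * ((Nf : ℝ) + 1) / Y := by
    have h1 := wt_mul Y len (zg.norm * e.norm) P
    have h2 := wt_mul Y len zg.norm e.norm
    linarith
  obtain ⟨Γ0, hΓ0⟩ : ∃ Γ0 : O m, Γ0 = star zg * e ^ 2 * Gf := ⟨_, rfl⟩
  obtain ⟨sl, hsl⟩ : ∃ sl : O m, sl = ⟨1, cc m * b⟩ := ⟨_, rfl⟩
  obtain ⟨z2, hz2, -, hz2w⟩ := design (I := Unit) m Y len (primorial Y ^ 10) w B
    (σ + 100 * ((Nf : ℝ) + 1) / Y) (fun _ => star sl * Γ0) (fun _ => 1) (zg.norm * e.norm * P) hm hE1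
    (smo_E Y) (fun _ => norm_one) hB hY2 hlen1 hlen (by rw [← hη]; exact hw) hDD0
    (by positivity) hwDD (by simpa using hI2)
  obtain ⟨hs1, hs2, hs3, hs4, hs5⟩ := hz2 ()
  rw [← hη] at hs2
  have hw2 : wt Y len (z2 ()).norm ≤ 100 / Y := by simpa using hz2w
  generalize z2 () = zs at hs1 hs2 hs3 hs4 hs5 hw2
  clear hz2 hz2w z2
  have hq1 : (QQ m Y : O m) ∣ zg - rt m := by
    have h := dvd_add (cast_dvd_EGCoords (QQ_dvd_E hY3 m) hg1) hζg1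
    rwa [sub_add_sub_cancel] at h
  have hq2 : (m : O m) ^ 2 ∣ zg - 1 := by
    have h0 : m ^ 2 ∣ primorial Y ^ 10 :=
      (pow_dvd_pow_of_dvd (m_dvd_primorial hsq hsm) 2).trans (pow_dvd_pow _ (by norm_num))
    have h1 := cast_dvd_EGCoords h0 hg1
    rw [Nat.cast_pow] at h1
    have h := dvd_add h1 hζg2
    rwa [sub_add_sub_cancel] at h
  have hpg : Pure Y zg.norm := pure_partner hmo hq1 hq2
  have hpe : Pure Y e.norm := by rw [he]; exact pure_primes_EGCoords D hD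
  have hΓn : Γ0.norm = zg.norm * (e.norm * e.norm) * Gf.norm := by
    rw [hΓ0, Zsqrtd.norm_mul, Zsqrtd.norm_mul, Zsqrtd.norm_conj, sq, Zsqrtd.norm_mul]
  have hpΓ : Pure Y Γ0.norm := by
    rw [hΓn]
    exact (hpg.mul (hpe.mul hpe)).mul hGp
  have hsln : sl.norm = 1 + m * (cc m * b) ^ 2 := by
    rw [norm_eq, hsl]
    simp
  have hps : Pure Y zs.norm := by
    intro l hl hlY hdvd
    have h0 : l ∣ primorial Y ^ 10 :=
      (hl.dvd_primorial_iff.mpr hlY).trans (dvd_pow_self _ (by norm_num))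
    have h1 := dvd_norm_sub_EGCoords l (cast_dvd_EGCoords h0 hs1)
    have h2 := (dvd_iff_dvd_of_dvd_sub h1).mp hdvd
    rw [Zsqrtd.norm_mul, Zsqrtd.norm_conj, hsln] at h2
    exact (hb3.mul hpΓ) l hl hlY h2
  have hfull : star zg * (e ^ 2 * (Gf * star zs)) = Γ0 * star zs := by rw [hΓ0]; ring
  have hshape : Shape m Y (star zg * (e ^ 2 * (Gf * star zs))) := by
    refine ⟨Γ0.norm, b, hpΓ, hb1, hb2, ?_⟩
    have h1 := star_dvd_EGCoords (cast_dvd_EGCoords (M1_dvd_E hY3 hsq hsm) hs1)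
    rw [star_sub, star_mul', star_star] at h1
    have e1 : (⟨Γ0.norm, Γ0.norm * (cc m * b)⟩ : O m) = Γ0 * (sl * star Γ0) := by
      have e2 : Γ0 * (sl * star Γ0) = (Γ0.norm : O m) * sl := by
        rw [Zsqrtd.norm_eq_mul_conj]
        ring
      rw [e2, hsl]
      ext <;> simp
    rw [hfull, e1, ← mul_sub]
    exact h1.mul_left _
  have hfn : (star zg * (e ^ 2 * (Gf * star zs))).norm
      = zg.norm * (e.norm * e.norm) * Gf.norm * zs.norm := by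
    rw [hfull, Zsqrtd.norm_mul, Zsqrtd.norm_conj, hΓn]
  have hzs1 := norm_pos' hm hs4
  -- coprimality
  have cPg : Cop Y P zg.norm := by
    rw [hP]
    exact Cop.prod_left _ _ _ fun i hi => hzgz i (mem_range.mp hi)
  have cPe : Cop Y P e.norm := by
    rw [hP]
    exact Cop.prod_left _ _ _ fun i hi => (hzi i (mem_range.mp hi)).2.2.2.2.symm
  have cGg : Cop Y Gf.norm zg.norm := (cop_sq_left_EGCoords cPg).of_dvd hGdvd dvd_rfl
  have cGe : Cop Y Gf.norm e.norm := (cop_sq_left_EGCoords cPe).of_dvd hGdvd dvd_rfl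
  have cPs : Cop Y P zs.norm := hs5.of_dvd (dvd_mul_left _ _) dvd_rfl
  have cGs : Cop Y Gf.norm zs.norm := (cop_sq_left_EGCoords cPs).of_dvd hGdvd dvd_rfl
  have ces : Cop Y e.norm zs.norm :=
    hs5.of_dvd ((dvd_mul_left _ _).trans (dvd_mul_right _ _)) dvd_rfl
  have cgs : Cop Y zg.norm zs.norm :=
    hs5.of_dvd ((dvd_mul_right _ _).trans (dvd_mul_right _ _)) dvd_rfl
  have prG : Prim Y Gf := by
    have h : Prim Y (∏ i ∈ range Nf, star (z i) ^ 2) := by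
      refine Prim.prod _ _ (fun i hi => Prim.sq hY2 hsm (hzi i (mem_range.mp hi)).2.2.1.conj) ?_
      intro i hi k hk hik
      rw [norm_pow', norm_pow', Zsqrtd.norm_conj, Zsqrtd.norm_conj]
      exact cop_sq_left_EGCoords
        (cop_sq_left_EGCoords (hzz i (mem_range.mp hi) k (mem_range.mp hk) hik).symm).symm
    exact h.of_dvd ⟨(Dn : O m), by rw [← hGf]; ring⟩
  have prR : Prim Y (Gf * star zs) := prG.mul hs3.conj (by rw [Zsqrtd.norm_conj]; exact cGs)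
  have pre : Prim Y (e ^ 2) := Prim.sq hY2 hsm (prim_of_norm (fun l hl => (hD l hl).1) he)
  have prER : Prim Y (e ^ 2 * (Gf * star zs)) := by
    refine pre.mul prR ?_
    rw [norm_pow', Zsqrtd.norm_mul, Zsqrtd.norm_conj]
    exact cop_sq_left_EGCoords (cGe.mul_left ces.symm).symm
  have prF : Prim Y (star zg * (e ^ 2 * (Gf * star zs))) := by
    refine hg3.conj.mul prER ?_
    rw [Zsqrtd.norm_conj, Zsqrtd.norm_mul, norm_pow', Zsqrtd.norm_mul, Zsqrtd.norm_conj]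
    exact ((cop_sq_left_EGCoords hg5).mul_left (cGg.mul_left cgs.symm)).symm
  have hη0 : 0 ≤ η := (norm_nonneg _).trans hg2
  have hε0 : 0 ≤ ε := by
    by_contra hc
    push Not at hc
    nlinarith
  refine ⟨zg, Gf * star zs, hshape, prF, ?_, ?_, ?_, ?_, hq2, ?_, ?_⟩
  · rw [hfn]
    exact ((hpg.mul (hpe.mul hpe)).mul hGp).mul hps
  · rw [hfn]
    have hd : zg.norm * (e.norm * e.norm) * Gf.norm * zs.norm ∣ (zg.norm * e.norm * P) ^ 2 * zs.norm := by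
      refine mul_dvd_mul ?_ dvd_rfl
      obtain ⟨c, hc⟩ := hGdvd
      exact ⟨zg.norm * c, by rw [mul_pow, hc]; ring⟩
    have h1 := wt_of_dvd Y len hd (mul_ne_zero (pow_ne_zero 2 hDD0) (by omega))
    have h2 := wt_mul Y len ((zg.norm * e.norm * P) ^ 2) zs.norm
    rw [wt_sq] at h2
    linarith
  · have h1 := norm_le_EGCoords zg _ B η w Complex.norm_I hB hg2 hw
    have h2 := norm_le_EGCoords zs _ B η w norm_one hB hs2 hw
    have h3 : P ≤ (2 ^ w) ^ Nf := by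
      rw [hP]
      refine (prod_le_prod (g := fun _ => (2 : ℤ) ^ w) (fun i _ => norm_nonneg' _) fun i hi => ?_).trans ?_
      · exact norm_le_EGCoords (z i) _ B η w (norm_dir i) hB (hzi i (mem_range.mp hi)).2.1 hw
      · rw [prod_const, card_range]
    have h4 : Gf.norm ≤ P ^ 2 := Int.le_of_dvd (by positivity) hGdvd
    have h5 : Gf.norm ≤ ((2 ^ w) ^ Nf) ^ 2 := h4.trans (pow_le_pow_left₀ (by omega) h3 2)
    have h6 := norm_nonneg' Gf
    rw [Zsqrtd.norm_mul, Zsqrtd.norm_mul, Zsqrtd.norm_conj, Zsqrtd.norm_conj]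
    calc zg.norm * (Gf.norm * zs.norm) ≤ 2 ^ w * (((2 ^ w) ^ Nf) ^ 2 * 2 ^ w) := by gcongr
      _ = 2 ^ (w * (2 * Nf + 2)) := by ring
      _ ≤ 2 ^ K := pow_le_pow_right₀ (by norm_num) hK
  · have h1 := star_dvd_EGCoords hq1
    have e1 : star (rt m) = -rt m := by
      ext <;> simp [rt]
    rw [star_sub, e1] at h1
    have h := dvd_add hq1 h1
    have e2 : zg - rt m + (star zg - -rt m) = zg + star zg := by ring
    rwa [e2] at h
  · rw [map_add, ph_star]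
    exact trace_small_EGCoords _ B η ε hB hg2 hε hε1
  · intro C hC
    have hΓ : star zg * e ^ 2 * star zs * C * Gf = star zg * (e ^ 2 * (Gf * star zs) * C) := by ring
    have hΓ' : star zg * (e ^ 2 * (Gf * star zs)) * C = star zg * (e ^ 2 * (Gf * star zs) * C) := by
      ring
    have hd := (hshape.mul hC).diff
    rw [hΓ'] at hd
    obtain ⟨S, hS1, hS2, hS3⟩ := hS (star zg * e ^ 2 * star zs * C) (by rw [hΓ]; exact hd)
    rw [hΓ] at hS1 hS3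
    generalize star zg * (e ^ 2 * (Gf * star zs) * C) = G at hS1 hS3 ⊢
    refine ⟨S, ?_, hS2, hS3, ?_⟩
    · refine ⟨(range Nf).val.map fun i => ph m G * (ph m (z i) / conj (ph m (z i))), by simp, ?_, ?_⟩
      · intro a ha
        obtain ⟨i, hi, rfl⟩ := Multiset.mem_map.mp ha
        exact unit_rep_EGCoords hm G (z i) (hzi i (mem_range.mp hi)).2.2.2.1
      · rw [hS1]
        rfl
    · have hsd := sum_dir Nf (by omega) (by omega)
      have e1 : ∑ i ∈ range Nf, ph m (z i) / conj (ph m (z i))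
          = ∑ i ∈ range Nf, (ph m (z i) / conj (ph m (z i)) - dir i / conj (dir i)) := by
        rw [sum_sub_distrib, hsd, sub_zero]
      have hB0 : 0 < B := by linarith
      have h2 : 2 * η / B ≤ ε := by
        rw [div_le_iff₀ hB0]
        linarith
      have h1 : ‖∑ i ∈ range Nf, ph m (z i) / conj (ph m (z i))‖ ≤ p * ε := by
        rw [e1]
        refine (norm_sum_le _ _).trans ?_
        refine (sum_le_card_nsmul _ _ ε fun i hi => ?_).trans ?_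
        · have h := hzi i (mem_range.mp hi)
          exact (unit_close _ _ B η (norm_dir i) hB0 (ph_ne_zero hm h.2.2.2.1) h.2.1).trans h2
        · rw [card_range, nsmul_eq_mul]
          have : (Nf : ℝ) ≤ p := by exact_mod_cast (by omega : Nf ≤ p)
          exact mul_le_mul_of_nonneg_right this hε0
      rw [hS1, ← mul_sum, norm_mul, mul_comm]
      exact mul_le_mul_of_nonneg_right h1 (norm_nonneg _)

theorem pow_step_EGCoords {p : ℕ} (hp : 10 ^ 20 ≤ p) (a : ℕ) : 100 * p ^ a ≤ p ^ (a + 1) := by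
  rw [pow_succ, mul_comm]
  exact Nat.mul_le_mul_left _ (by omega)

theorem pow_mono_EGCoords {p : ℕ} (hp : 10 ^ 20 ≤ p) {a b : ℕ} (h : a ≤ b) : p ^ a ≤ p ^ b :=
  Nat.pow_le_pow_right (by omega) h

theorem pow_le_two_EGCoords {p : ℕ} (hp : 10 ^ 20 ≤ p) : p ^ 60 ≤ 2 ^ p ^ 7 := by
  have h1 : p ^ 60 ≤ (2 ^ p) ^ 60 := Nat.pow_le_pow_left Nat.lt_two_pow_self.le 60
  rw [← pow_mul] at h1
  refine h1.trans (Nat.pow_le_pow_right (by norm_num) ?_)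
  have h2 := pow_step_EGCoords hp 1
  have h3 := pow_mono_EGCoords hp (show 1 + 1 ≤ 7 by norm_num)
  rw [pow_one] at h2
  omega

theorem eta_le_EGCoords {m p : ℕ} (hmp : m ≤ 4 ^ p) (hp : 10 ^ 20 ≤ p) :
    4 * ((primorial (p ^ 15) ^ 10 : ℕ) : ℝ) * ((2 ^ p ^ 7 : ℕ) : ℝ) * Real.sqrt m ≤ 2 ^ p ^ 16 := by
  have h1 : primorial (p ^ 15) ^ 10 ≤ 2 ^ (20 * p ^ 15) := by
    have h := Nat.pow_le_pow_left (primorial_le_four_pow (p ^ 15)) 10
    have e1 : (4 ^ p ^ 15) ^ 10 = 2 ^ (20 * p ^ 15) := by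
      rw [show (4 : ℕ) = 2 ^ 2 by norm_num, ← pow_mul, ← pow_mul]
      congr 1
      ring
    rwa [e1] at h
  have h2 : Real.sqrt m ≤ 2 ^ p := by
    rw [Real.sqrt_le_left (by positivity)]
    have e1 : ((2 : ℝ) ^ p) ^ 2 = 4 ^ p := by
      rw [← pow_mul, mul_comm, pow_mul]
      norm_num
    rw [e1]
    exact_mod_cast hmp
  have h3 : ((primorial (p ^ 15) ^ 10 : ℕ) : ℝ) ≤ 2 ^ (20 * p ^ 15) := by exact_mod_cast h1
  have h4 : 2 + 20 * p ^ 15 + p ^ 7 + p ≤ p ^ 16 := by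
    have a1 := pow_step_EGCoords hp 15
    have a2 := pow_mono_EGCoords hp (show 7 ≤ 15 by norm_num)
    have a3 := pow_mono_EGCoords hp (show 1 ≤ 15 by norm_num)
    rw [pow_one] at a3
    norm_num at a1
    omega
  calc 4 * ((primorial (p ^ 15) ^ 10 : ℕ) : ℝ) * ((2 ^ p ^ 7 : ℕ) : ℝ) * Real.sqrt m
      ≤ 4 * 2 ^ (20 * p ^ 15) * ((2 ^ p ^ 7 : ℕ) : ℝ) * 2 ^ p := by gcongr
    _ = 2 ^ (2 + 20 * p ^ 15 + p ^ 7 + p) := by
      rw [pow_add, pow_add, pow_add]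
      push_cast
      norm_num
    _ ≤ 2 ^ p ^ 16 := pow_le_pow_right₀ (by norm_num) h4

/-- The partner coordinate, the fixed coordinates and the compensating coordinate. -/
theorem coords (m p n : ℕ) (hsq : Squarefree m) (h4 : m % 4 = 3) (hmax : ∀ q, q.Prime → q ∣ m → q ≤ p)
    (hmp : m ≤ 4 ^ p) (hp : 10 ^ 20 ≤ p) (hodd : p % 2 = 1) (hn : 16 * n ≤ p) (e : O m) (D : Finset ℕ)
    (hD : ∀ l ∈ D, l.Prime ∧ p ^ 60 ≤ l) (hDc : D.card ≤ p ^ 37) (he : e.norm = ∏ l ∈ D, (l : ℤ)) :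
    ∃ zg R : O m, Shape m (p ^ 15) (star zg * (e ^ 2 * R)) ∧ Prim (p ^ 15) (star zg * (e ^ 2 * R)) ∧
      Pure (p ^ 15) (star zg * (e ^ 2 * R)).norm ∧
      wt (p ^ 15) (2 ^ p ^ 7) (star zg * (e ^ 2 * R)).norm ≤ 1 / (p : ℝ) ^ 12 ∧
      (star zg * R).norm ≤ 2 ^ p ^ 21 ∧ (QQ m (p ^ 15) : O m) ∣ zg + star zg ∧
      (m : O m) ^ 2 ∣ zg - 1 ∧ ‖ph m (zg + star zg)‖ ≤ 1 / 2 ^ p ^ 17 * ‖ph m zg‖ ∧
      ∀ C : O m, (M1 m (p ^ 15) : O m) ∣ C - 1 →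
        ∃ S : O m, Rep m (star zg * (e ^ 2 * R * C)).norm (p - 4 * n) (ph m S) ∧
          (QQ m (p ^ 15) : O m) ∣ S ∧
          mu m ∣ S + ((4 * n * (star zg * (e ^ 2 * R * C)).re : ℤ) : O m) ∧
          ‖ph m S‖ ≤ p * (1 / 2 ^ p ^ 17) * ‖ph m (star zg * (e ^ 2 * R * C))‖ := by
  have hp0 : (10 : ℝ) ^ 20 ≤ p := by exact_mod_cast hp
  have hp1 : (0 : ℝ) < p := by linarith [show (0 : ℝ) < 10 ^ 20 by norm_num]
  have h60 := pow_le_two_EGCoords hp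
  have hη := eta_le_EGCoords hmp hp
  have hη0 : (0 : ℝ) ≤ 4 * ((primorial (p ^ 15) ^ 10 : ℕ) : ℝ) * ((2 ^ p ^ 7 : ℕ) : ℝ) * Real.sqrt m := by
    positivity
  have hNf : ((p - 4 * n : ℕ) : ℝ) + 1 ≤ 2 * p := by
    have : p - 4 * n + 1 ≤ 2 * p := by omega
    exact_mod_cast this
  have hNf0 : (0 : ℝ) ≤ ((p - 4 * n : ℕ) : ℝ) + 1 := by positivity
  have a1 := pow_step_EGCoords hp 16
  have a2 := pow_step_EGCoords hp 17
  have a3 := pow_step_EGCoords hp 0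
  have a4 := pow_mono_EGCoords hp (show 1 ≤ 16 by norm_num)
  have a5 := pow_mono_EGCoords hp (show 1 ≤ 15 by norm_num)
  have a6 := pow_step_EGCoords hp 15
  have a7 := pow_mono_EGCoords hp (show 16 ≤ 60 by norm_num)
  have a8 := pow_step_EGCoords hp 33
  have a9 := pow_mono_EGCoords hp (show 34 ≤ 60 by norm_num)
  have a10 := pow_step_EGCoords hp 19
  have a11 := pow_mono_EGCoords hp (show 20 ≤ 21 by norm_num)
  rw [pow_one] at a4 a5
  norm_num only at a1 a2 a6 a8 a10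
  have hinv : ∀ (c : ℝ) (k : ℕ), c ≤ 10 ^ 20 → c / (p : ℝ) ^ (k + 1) ≤ 1 / (p : ℝ) ^ k := by
    intro c k hc
    rw [div_le_div_iff₀ (by positivity) (by positivity), pow_succ, one_mul, mul_comm]
    exact mul_le_mul_of_nonneg_left (hc.trans hp0) (by positivity)
  have hmono : ∀ {j k : ℕ}, j ≤ k → 1 / (p : ℝ) ^ k ≤ 1 / (p : ℝ) ^ j := by
    intro j k hjk
    exact one_div_le_one_div_of_le (by positivity)
      (pow_le_pow_right₀ (by linarith [show (1 : ℝ) ≤ 10 ^ 20 by norm_num]) hjk)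
  have hsmall : 1 / (p : ℝ) ^ 1 ≤ 1 / 1000 := by
    rw [pow_one]
    exact one_div_le_one_div_of_le (by norm_num) (by linarith [show (1000 : ℝ) ≤ 10 ^ 20 by norm_num])
  have b1 : 100 * (((p - 4 * n : ℕ) : ℝ) + 1) / ((p ^ 15 : ℕ) : ℝ) ≤ 1 / (p : ℝ) ^ 13 := by
    calc 100 * (((p - 4 * n : ℕ) : ℝ) + 1) / ((p ^ 15 : ℕ) : ℝ) ≤ 100 * (2 * p) / ((p ^ 15 : ℕ) : ℝ) := by
          gcongr
      _ = 200 / (p : ℝ) ^ (13 + 1) := by
          push_cast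
          field_simp
          norm_num
      _ ≤ 1 / (p : ℝ) ^ 13 := hinv _ _ (by norm_num)
  have b2 : 220 / ((p ^ 15 : ℕ) : ℝ) ≤ 1 / (p : ℝ) ^ 14 := by
    rw [Nat.cast_pow]
    exact hinv _ 14 (by norm_num)
  have b3 : 100 / ((p ^ 15 : ℕ) : ℝ) ≤ 1 / (p : ℝ) ^ 14 := by
    rw [Nat.cast_pow]
    exact hinv _ 14 (by norm_num)
  have b4 : 3 / (p : ℝ) ^ 13 ≤ 1 / (p : ℝ) ^ 12 := hinv _ 12 (by norm_num)
  have m1 := hmono (show 13 ≤ 22 by norm_num)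
  have m2 := hmono (show 13 ≤ 14 by norm_num)
  have m3 := hmono (show 1 ≤ 13 by norm_num)
  have m4 := hmono (show 1 ≤ 12 by norm_num)
  have m5 := hmono (show 1 ≤ 20 by norm_num)
  refine gen_EGCoords m p n (p - 4 * n) (p ^ 15) (2 ^ p ^ 7) (2 * p ^ 18 + 2) (p ^ 21) (2 ^ p ^ 18) _
    (1 / 2 ^ p ^ 17) (1 / (p : ℝ) ^ 22) (1 / (p : ℝ) ^ 12) hsq h4 hmax hodd hn (by omega) a5 (by omega)
    e D (fun l hl => ⟨(hD l hl).1, lt_of_lt_of_le (by omega) (hD l hl).2⟩) he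
    (one_le_pow₀ (by norm_num)) Nat.one_le_two_pow ?_ rfl ?_ (by positivity) ?_ ?_ ?_ ?_ ?_ ?_ ?_
  · have h1 : p ^ 15 * (2 * p ^ 18 + 2) ≤ p ^ 15 * (4 * p ^ 18) :=
      Nat.mul_le_mul_left _ (by omega)
    have e1 : p ^ 15 * (4 * p ^ 18) = 4 * p ^ 33 := by ring
    omega
  · have h1 : (2 : ℝ) ^ p ^ 16 ≤ 2 ^ p ^ 18 := pow_le_pow_right₀ (by norm_num) (by omega)
    have e1 : (2 : ℝ) ^ (2 * p ^ 18 + 2) = (2 ^ p ^ 18 + 2 ^ p ^ 18) ^ 2 := by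
      rw [pow_add, mul_comm 2 (p ^ 18), pow_mul]
      generalize (2 : ℝ) ^ p ^ 18 = t
      ring
    rw [e1]
    exact pow_le_pow_left₀ (by positivity) (by linarith) 2
  · rw [he]
    refine (wt_primes _ _ (p ^ 60) (by omega) D hD).trans ?_
    have h1 : (D.card : ℝ) ≤ (p : ℝ) ^ 37 := by exact_mod_cast hDc
    have h2 : (1 : ℝ) / ((2 ^ p ^ 7 : ℕ) : ℝ) ≤ 1 / ((p ^ 60 : ℕ) : ℝ) :=
      one_div_le_one_div_of_le (by positivity) (by exact_mod_cast h60)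
    calc (D.card : ℝ) * (1 / ((p ^ 60 : ℕ) : ℝ) + 1 / ((2 ^ p ^ 7 : ℕ) : ℝ))
        ≤ (p : ℝ) ^ 37 * (1 / ((p ^ 60 : ℕ) : ℝ) + 1 / ((p ^ 60 : ℕ) : ℝ)) := by gcongr
      _ = 2 / (p : ℝ) ^ (22 + 1) := by
          push_cast
          field_simp
          norm_num
      _ ≤ 1 / (p : ℝ) ^ 22 := hinv _ _ (by norm_num)
  · have h1 : 2 * (((p - 4 * n : ℕ) : ℝ) + 1) * (1 / (p : ℝ) ^ 22) ≤ 1 / (p : ℝ) ^ 20 := by
      calc 2 * (((p - 4 * n : ℕ) : ℝ) + 1) * (1 / (p : ℝ) ^ 22) ≤ 2 * (2 * p) * (1 / (p : ℝ) ^ 22) := by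
            gcongr
        _ = 4 / (p : ℝ) ^ (20 + 1) := by
            field_simp
            ring
        _ ≤ 1 / (p : ℝ) ^ 20 := hinv _ _ (by norm_num)
    have h2 : 220 * (((p - 4 * n : ℕ) : ℝ) + 1) ^ 2 / ((p ^ 15 : ℕ) : ℝ) ≤ 1 / (p : ℝ) ^ 12 := by
      calc 220 * (((p - 4 * n : ℕ) : ℝ) + 1) ^ 2 / ((p ^ 15 : ℕ) : ℝ)
          ≤ 220 * (2 * p) ^ 2 / ((p ^ 15 : ℕ) : ℝ) := by gcongr
        _ = 880 / (p : ℝ) ^ (12 + 1) := by
            push_cast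
            field_simp
            norm_num
        _ ≤ 1 / (p : ℝ) ^ 12 := hinv _ _ (by norm_num)
    linarith
  · linarith
  · have e1 : 3 / (p : ℝ) ^ 13 = 3 * (1 / (p : ℝ) ^ 13) := by ring
    linarith
  · have h1 : (2 : ℝ) ^ (2 + p ^ 16 + p ^ 17) ≤ 2 ^ p ^ 18 := pow_le_pow_right₀ (by norm_num) (by omega)
    rw [pow_add, pow_add] at h1
    rw [one_div, inv_mul_eq_div, le_div_iff₀ (by positivity)]
    refine le_trans ?_ h1
    have e1 : (2 : ℝ) ^ 2 = 4 := by norm_num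
    rw [e1]
    gcongr
  · rw [div_le_one (by positivity)]
    exact one_le_pow₀ (by norm_num)
  · have h1 : (2 * p ^ 18 + 2) * (2 * (p - 4 * n) + 2) ≤ (4 * p ^ 18) * (4 * p) :=
      Nat.mul_le_mul (by omega) (by omega)
    have e1 : (4 * p ^ 18) * (4 * p) = 16 * p ^ 19 := by ring
    omega

end Pool.Agent.P.MP_b75a1e_co.EG
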