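import Pool.Agent.P.MP_b75a1e_co.EGBasic

set_option autoImplicit false

open Finset
open scoped BigOperators ComplexConjugate

namespace Pool.Agent.P.MP_b75a1e_co.EG

variable {m r : ℕ}

/-- A sum of `k` elements with the norm of `c`, congruent to `k * c` modulo `a`. -/
def Gd_EGFam (a c : O m) (k : ℕ) (y : O m) : Prop := SumOf c.norm k y ∧ a ∣ y - (k : O m) * c

theorem gd_add_EGFam {a c y y' : O m} {k k' : ℕ} (h : Gd_EGFam a c k y) (h' : Gd_EGFam a c k' y') :
    Gd_EGFam a c (k + k') (y + y') := by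
  refine ⟨h.1.add h'.1, ?_⟩
  have e : y + y' - ((k + k' : ℕ) : O m) * c = (y - k * c) + (y' - k' * c) := by
    push_cast
    ring
  rw [e]
  exact dvd_add h.2 h'.2

theorem gd_one_EGFam {a c y : O m} (h : y.norm = c.norm) (h' : a ∣ y - c) : Gd_EGFam a c 1 y :=
  ⟨SumOf.single h, by simpa using h'⟩

theorem gd_msum_EGFam {α : Type} {a c : O m} {k : ℕ} (L : Multiset α) (f : α → O m)
    (h : ∀ x ∈ L, Gd_EGFam a c k (f x)) : Gd_EGFam a c (Multiset.card L * k) (L.map f).sum := by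
  induction L using Multiset.induction_on with
  | empty => exact ⟨⟨0, by simp, by simp, by simp⟩, by simp⟩
  | cons x L ih =>
    rw [Multiset.card_cons, Multiset.map_cons, Multiset.sum_cons, add_mul, one_mul, add_comm _ k]
    exact gd_add_EGFam (h x (Multiset.mem_cons_self _ _))
      (ih fun y hy => h y (Multiset.mem_cons_of_mem hy))

theorem gd_sum_EGFam {α : Type} {a c : O m} {k : ℕ} (s : Finset α) (f : α → O m)
    (h : ∀ x ∈ s, Gd_EGFam a c k (f x)) : Gd_EGFam a c (s.card * k) (∑ x ∈ s, f x) :=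
  gd_msum_EGFam s.val f h

theorem SumRes.norm_le {e u : O m} {s : ℕ} {lam : ℝ} (h : SumRes e s u) (hl : 0 ≤ lam)
    (he : (e.norm : ℝ) = lam ^ 100) : ‖ph m u‖ ≤ s * lam ^ 50 := by
  obtain ⟨L, h1, h2, h3⟩ := h
  have h4 : SumOf e.norm s u := ⟨L, h1, fun a ha => (h2 a ha).1, h3⟩
  have h5 := h4.norm_le
  rwa [he, show lam ^ 100 = (lam ^ 50) ^ 2 by ring, Real.sqrt_sq (pow_nonneg hl _)] at h5

/-- One big block is a sum of `s ^ 2` elements in the class of the base point. -/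
theorem block_sum {e g u u' : O m} {s : ℕ} (h : SumRes e s u) (h' : SumRes e s u') :
    SumOf (g * e ^ 2).norm (s ^ 2) (g * (u * u')) ∧
      mu m ∣ g * (u * u') - ((s ^ 2 : ℕ) : O m) * (g * e ^ 2) := by
  obtain ⟨L, h1, h2, rfl⟩ := h
  obtain ⟨L', h1', h2', rfl⟩ := h'
  have key := gd_msum_EGFam (a := mu m) (c := g * e ^ 2) L
    (fun x => (L'.map fun y => g * (x * y)).sum) fun x hx =>
      gd_msum_EGFam L' (fun y => g * (x * y)) fun y hy => gd_one_EGFam
        (by rw [Zsqrtd.norm_mul, Zsqrtd.norm_mul, Zsqrtd.norm_mul, norm_pow', (h2 x hx).1,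
          (h2' y hy).1, sq])
        (by
          rw [show g * (x * y) - g * e ^ 2 = g * x * (y - e) + g * e * (x - e) by ring]
          exact dvd_add ((mu_dvd_sq.trans (h2' y hy).2).mul_left _)
            ((mu_dvd_sq.trans (h2 x hx).2).mul_left _))
  rw [h1, h1', mul_one, ← sq] at key
  have e1 : (L.map fun x => (L'.map fun y => g * (x * y)).sum).sum = g * (L.sum * L'.sum) := by
    have e2 : ∀ x, (L'.map fun y => g * (x * y)).sum = g * (x * L'.sum) := fun x => by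
      rw [Multiset.sum_map_mul_left, Multiset.sum_map_mul_left, Multiset.map_id']
    rw [Multiset.map_congr rfl fun x _ => e2 x, Multiset.sum_map_mul_left,
      Multiset.sum_map_mul_right, Multiset.map_id']
  rw [e1] at key
  exact key

theorem psi_sum (J s : ℕ) (g e : ℕ → O m) (U : ℕ → Finset (O m)) (Γ : O m) (zI zII : Fin r → O m)
    (hg : ∀ j ≤ J, g j * e j ^ 2 = Γ * (base zI * base zII))
    (hU : ∀ j ≤ J, ∀ u ∈ U j, SumRes (e j) s u) (hI : ∀ i, mu m ∣ zI i - star (zI i))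
    (hII : ∀ i, mu m ∣ zII i - star (zII i)) (b : OmB J U) (ε2 ε1 : Fin r → Bool) :
    SumOf (Γ * (base zI * base zII)).norm ((J + 1) * 600 * s ^ 2 + 2) (psiA J g U Γ zI zII b ε2 ε1) ∧
      mu m ∣ psiA J g U Γ zI zII b ε2 ε1 -
        (((J + 1) * 600 * s ^ 2 + 2 : ℕ) : O m) * (Γ * (base zI * base zII)) := by
  have h1 : Gd_EGFam (mu m) (Γ * (base zI * base zII)) _ _ :=
    gd_sum_EGFam univ (fun j : Fin (J + 1) =>
      ∑ c : Fin 600, g j * (((b j c).1 : O m) * ((b j c).2 : O m))) fun j _ =>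
      gd_sum_EGFam univ _ fun c _ => by
        have hj : (j : ℕ) ≤ J := Nat.lt_succ_iff.1 j.2
        rw [← hg j hj]
        exact block_sum (hU j hj _ (b j c).1.2) (hU j hj _ (b j c).2.2)
  have h2 : Gd_EGFam (mu m) (Γ * (base zI * base zII)) 1 (Γ * base zI * cube zII ε2) :=
    gd_one_EGFam (by simp only [Zsqrtd.norm_mul, norm_cube, mul_assoc]) (by
      rw [show Γ * base zI * cube zII ε2 - Γ * (base zI * base zII) =
        Γ * base zI * (cube zII ε2 - base zII) by ring]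
      exact (dvd_cube_sub zII _ hII ε2).mul_left _)
  have h3 : Gd_EGFam (mu m) (Γ * (base zI * base zII)) 1 (Γ * base zII * cube zI ε1) :=
    gd_one_EGFam (by simp only [Zsqrtd.norm_mul, norm_cube]; ring) (by
      rw [show Γ * base zII * cube zI ε1 - Γ * (base zI * base zII) =
        Γ * base zII * (cube zI ε1 - base zI) by ring]
      exact (dvd_cube_sub zI _ hI ε1).mul_left _)
  have h4 := gd_add_EGFam (gd_add_EGFam h1 h2) h3
  rw [card_univ, card_univ, Fintype.card_fin, Fintype.card_fin,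
    ← mul_assoc (J + 1)] at h4
  exact h4

theorem ch_big_EGFam (J : ℕ) (g : ℕ → O m) (U : ℕ → Finset (O m)) (θ : ℂ) :
    ch (fun b : OmB J U => ∑ j : Fin (J + 1), ∑ c : Fin 600,
      g j * (((b j c).1 : O m) * ((b j c).2 : O m))) (θ / ph m (mu m)) =
      ∏ j : Fin (J + 1), blk (U j) (g j) θ ^ 600 := by
  refine (ch_pi (fun (j : Fin (J + 1)) (b : Fin 600 → U j × U j) => ∑ c : Fin 600,
    g j * (((b c).1 : O m) * ((b c).2 : O m))) _).trans (prod_congr rfl fun j _ => ?_)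
  refine (ch_pi (fun (_ : Fin 600) (q : U j × U j) => g j * ((q.1 : O m) * (q.2 : O m))) _).trans ?_
  rw [prod_const, card_univ, Fintype.card_fin, ch_mul]
  rfl

theorem psi_ch (J : ℕ) (g : ℕ → O m) (U : ℕ → Finset (O m)) (h Γ : O m) (zI zII : Fin r → O m)
    (θ : ℂ) :
    ‖ch (fun ω : OmP J r U => h * psiA J g U Γ zI zII ω.1.1 ω.2.1.1 ω.2.2 +
        star (h * psiA J g U Γ zI zII ω.1.2 ω.2.1.2 ω.2.2)) (θ / ph m (mu m))‖ ≤
        ∏ j : Fin (J + 1), (‖blk (U j) (h * g j) θ‖ * ‖blk (U j) (h * g j) (conj θ)‖) ^ 600 ∧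
      ‖ch (fun ω : OmP J r U => h * psiA J g U Γ zI zII ω.1.1 ω.2.1.1 ω.2.2 +
        star (h * psiA J g U Γ zI zII ω.1.2 ω.2.1.2 ω.2.2)) (θ / ph m (mu m))‖ ≤
        ‖FI (h * Γ) zI zII θ‖ * ‖FII (h * Γ) zI zII θ‖ := by
  set A : OmB J U → O m := fun b => ∑ j : Fin (J + 1), ∑ c : Fin 600,
    (h * g j) * (((b j c).1 : O m) * ((b j c).2 : O m)) with hA
  set B : (Fin r → Bool) → O m := fun ε => h * Γ * base zI * cube zII ε with hB
  set C : (Fin r → Bool) → O m := fun ε => h * Γ * base zII * cube zI ε with hC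
  have e1 : ∀ b ε2 ε1, h * psiA J g U Γ zI zII b ε2 ε1 = A b + B ε2 + C ε1 := fun b ε2 ε1 => by
    simp only [psiA, hA, hB, hC, mul_add, mul_sum, mul_assoc]
  have e2 : (fun ω : OmP J r U => h * psiA J g U Γ zI zII ω.1.1 ω.2.1.1 ω.2.2 +
      star (h * psiA J g U Γ zI zII ω.1.2 ω.2.1.2 ω.2.2)) = fun ω : OmP J r U =>
      A ω.1.1 + star (A ω.1.2) +
        (B ω.2.1.1 + star (B ω.2.1.2) + (C ω.2.2 + star (C ω.2.2))) := by
    funext ω
    simp only [e1, star_add]
    ring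
  have a1 := ch_big_EGFam J (fun j => h * g j) U θ
  have a2 := ch_big_EGFam J (fun j => h * g j) U (conj θ)
  have b1 : ch B (θ / ph m (mu m)) = FII (h * Γ) zI zII θ := rfl
  have c1 : ch (fun ε => C ε + star (C ε)) (θ / ph m (mu m)) = FI (h * Γ) zI zII θ := rfl
  have q1 := ch_prod A (fun b => star (A b)) (θ / ph m (mu m))
  have q2 := ch_prod B (fun ε => star (B ε)) (θ / ph m (mu m))
  have q3 := ch_prod (fun q : (Fin r → Bool) × (Fin r → Bool) => B q.1 + star (B q.2))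
    (fun ε => C ε + star (C ε)) (θ / ph m (mu m))
  have q4 := ch_prod (fun q : OmB J U × OmB J U => A q.1 + star (A q.2))
    (fun q : ((Fin r → Bool) × (Fin r → Bool)) × (Fin r → Bool) =>
      B q.1.1 + star (B q.1.2) + (C q.2 + star (C q.2))) (θ / ph m (mu m))
  rw [e2, q4, q3, q2, q1, ch_star_mu A, norm_mul, norm_mul, norm_mul, norm_mul]
  have n1 := norm_ch_le A (θ / ph m (mu m))
  have n2 := norm_ch_le A (conj θ / ph m (mu m))
  have n3 := norm_ch_le B (θ / ph m (mu m))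
  have n4 := norm_ch_le (fun ε => star (B ε)) (θ / ph m (mu m))
  have n5 := norm_ch_le (fun ε => C ε + star (C ε)) (θ / ph m (mu m))
  constructor
  · refine (mul_le_of_le_one_right (by positivity)
      (mul_le_one₀ (mul_le_one₀ n3 (norm_nonneg _) n4) (norm_nonneg _) n5)).trans (le_of_eq ?_)
    rw [a1, a2, norm_prod, norm_prod, ← prod_mul_distrib]
    simp only [norm_pow, mul_pow]
  · refine (mul_le_of_le_one_left (by positivity) (mul_le_one₀ n1 (norm_nonneg _) n2)).trans ?_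
    rw [← b1, ← c1, mul_comm]
    exact mul_le_mul_of_nonneg_left (mul_le_of_le_one_right (norm_nonneg _) n4) (norm_nonneg _)

theorem midY_mul (h Γ : O m) (z : Fin 100 × Fin 300 → Fin 3 → Fin r → O m) (ω : OmM r) :
    h * midY Γ z ω = midY (h * Γ) z ω := by
  simp only [midY, mul_sum, mul_assoc]

theorem two_cube_EGFam (P a : O m) (x y : Fin r → O m) (η : ℝ) (hη : 0 ≤ η)
    (hx : ∀ i, a ∣ x i - star (x i) ∧ ‖ph m (x i - star (x i))‖ ≤ η * ‖ph m (x i)‖)
    (hy : ∀ i, a ∣ y i - star (y i) ∧ ‖ph m (y i - star (y i))‖ ≤ η * ‖ph m (y i)‖)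
    (ε ε' : Fin r → Bool) {c : O m} (hc : c = P * (base x * base y)) :
    Gd_EGFam a c 1 (P * (cube x ε * cube y ε')) ∧
      ‖ph m (P * (cube x ε * cube y ε') - c)‖ ≤ 2 * r * η * ‖ph m c‖ := by
  have e : P * (cube x ε * cube y ε') - c =
      P * cube x ε * (cube y ε' - base y) + P * base y * (cube x ε - base x) := by
    rw [hc]
    ring
  refine ⟨gd_one_EGFam (by simp only [hc, Zsqrtd.norm_mul, norm_cube]) ?_, ?_⟩
  · rw [e]
    exact dvd_add ((dvd_cube_sub y a (fun i => (hy i).1) ε').mul_left _)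
      ((dvd_cube_sub x a (fun i => (hx i).1) ε).mul_left _)
  · have h1 := cube_close x η hη (fun i => (hx i).2) ε
    have h2 := cube_close y η hη (fun i => (hy i).2) ε'
    have h3 : ‖ph m (cube x ε)‖ = ‖ph m (base x)‖ := by
      rw [← sq_eq_sq₀ (norm_nonneg _) (norm_nonneg _), norm_sq_ph, norm_sq_ph, norm_cube]
    rw [e, map_add]
    refine (norm_add_le _ _).trans ?_
    simp only [hc, map_mul, norm_mul, h3]
    calc _ ≤ ‖ph m P‖ * ‖ph m (base x)‖ * (r * η * ‖ph m (base y)‖) +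
          ‖ph m P‖ * ‖ph m (base y)‖ * (r * η * ‖ph m (base x)‖) := by gcongr
      _ = _ := by ring

theorem mid_sum (Γ a : O m) (z : Fin 100 × Fin 300 → Fin 3 → Fin r → O m) (η : ℝ) (hη : 0 ≤ η)
    (hz : ∀ b c i, a ∣ z b c i - star (z b c i) ∧
      ‖ph m (z b c i - star (z b c i))‖ ≤ η * ‖ph m (z b c i)‖) (ω : OmM r) :
    SumOf (Γ * midC z).norm 60000 (midY Γ z ω) ∧ a ∣ midY Γ z ω - ((60000 : ℕ) : O m) * (Γ * midC z) ∧
      ‖ph m (midY Γ z ω - ((60000 : ℕ) : O m) * (Γ * midC z))‖ ≤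
        (60000 : ℕ) * (2 * r * η) * ‖ph m (Γ * midC z)‖ := by
  have key : ∀ b, Gd_EGFam a (Γ * midC z) 2 ((Γ * ∏ b' ∈ univ.erase b, blockB (z b')) *
      (cube (z b 2) (ω b).2 * yy (z b 0) (z b 1) (ω b).1)) ∧
      ‖ph m ((Γ * ∏ b' ∈ univ.erase b, blockB (z b')) *
        (cube (z b 2) (ω b).2 * yy (z b 0) (z b 1) (ω b).1) - 2 * (Γ * midC z))‖ ≤
        2 * (2 * r * η * ‖ph m (Γ * midC z)‖) := fun b => by
    have e : midC z = blockB (z b) * ∏ b' ∈ univ.erase b, blockB (z b') :=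
      (mul_prod_erase univ (fun b => blockB (z b)) (mem_univ b)).symm
    generalize ∏ b' ∈ univ.erase b, blockB (z b') = P at e ⊢
    obtain ⟨h1, h2⟩ := two_cube_EGFam (Γ * P * base (z b 1)) a (z b 2) (z b 0) η hη (hz b 2)
      (hz b 0) (ω b).2 (ω b).1.1 (c := Γ * midC z) (by rw [e, blockB]; ring)
    obtain ⟨h3, h4⟩ := two_cube_EGFam (Γ * P * base (z b 0)) a (z b 2) (z b 1) η hη (hz b 2)
      (hz b 1) (ω b).2 (ω b).1.2 (c := Γ * midC z) (by rw [e, blockB]; ring)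
    have e2 : Γ * P * (cube (z b 2) (ω b).2 * yy (z b 0) (z b 1) (ω b).1) =
        Γ * P * base (z b 1) * (cube (z b 2) (ω b).2 * cube (z b 0) (ω b).1.1) +
        Γ * P * base (z b 0) * (cube (z b 2) (ω b).2 * cube (z b 1) (ω b).1.2) := by
      rw [yy]
      ring
    rw [e2]
    refine ⟨gd_add_EGFam h1 h3, ?_⟩
    rw [two_mul, add_sub_add_comm, map_add, two_mul]
    exact (norm_add_le _ _).trans (add_le_add h2 h4)
  have hc : (univ : Finset (Fin 100 × Fin 300)).card = 30000 := by simp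
  have h1 := gd_sum_EGFam univ _ fun b _ => (key b).1
  rw [hc] at h1
  refine ⟨h1.1, h1.2, ?_⟩
  have e : midY Γ z ω - ((60000 : ℕ) : O m) * (Γ * midC z) =
      ∑ b, ((Γ * ∏ b' ∈ univ.erase b, blockB (z b')) *
        (cube (z b 2) (ω b).2 * yy (z b 0) (z b 1) (ω b).1) - 2 * (Γ * midC z)) := by
    rw [sum_sub_distrib, sum_const, hc, midY, nsmul_eq_mul]
    push_cast
    ring
  rw [e, map_sum]
  refine (norm_sum_le _ _).trans ((sum_le_sum fun b _ => (key b).2).trans (le_of_eq ?_))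
  rw [sum_const, hc, nsmul_eq_mul]
  push_cast
  ring

end Pool.Agent.P.MP_b75a1e_co.EG
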