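import Pool.Agent.P.MP_b75a1e_co.EGBlock
import Pool.Agent.P.MP_b75a1e_co.EGHeight

set_option autoImplicit false

open Finset
open scoped BigOperators ComplexConjugate

namespace Pool.Agent.P.MP_b75a1e_co.EG

theorem mono_EGMinor {m : ℕ} {θ : ℂ} {H H' X : ℝ} (h : Low m θ H X) (hH : H ≤ H') :
    Low m θ H' X := by
  obtain ⟨w, a, h1, h2, h3⟩ := h
  exact ⟨w, a, h1, h2.trans hH, h3.trans hH⟩

theorem prod_EGMinor {m J : ℕ} (g : ℕ → O m) (U : ℕ → Finset (O m)) (θ : ℂ) {j : ℕ} (hj : j ≤ J)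
    {c : ℝ} (h : ‖blk (U j) (g j) θ‖ ≤ c ∨ ‖blk (U j) (g j) (conj θ)‖ ≤ c) :
    ∏ i : Fin (J + 1), (‖blk (U i) (g i) θ‖ * ‖blk (U i) (g i) (conj θ)‖) ^ 600 ≤ c ^ 600 := by
  have h1 : ∀ i θ, ‖blk (U i) (g i) θ‖ ≤ 1 := fun i θ => norm_ch_le _ _
  rw [← mul_prod_erase univ _ (mem_univ (⟨j, Nat.lt_succ_of_le hj⟩ : Fin (J + 1)))]
  refine (mul_le_of_le_one_right (by positivity) (prod_le_one (fun _ _ => by positivity)
    fun i _ => pow_le_one₀ (by positivity) (mul_le_one₀ (h1 _ _) (norm_nonneg _) (h1 _ _)))).trans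
    (pow_le_pow_left₀ (by positivity) ?_ 600)
  rcases h with h | h
  · exact (mul_le_of_le_one_right (norm_nonneg _) (h1 _ _)).trans h
  · exact (mul_le_of_le_one_left (norm_nonneg _) (h1 _ _)).trans h

open Classical in
/-- L7: the minor arcs. -/
theorem minor (m p J Mg : ℕ) (hm : 1 ≤ m) (hp : 1 ≤ p) (lam : ℕ → ℝ) (g : ℕ → O m)
    (U : ℕ → Finset (O m)) (s NN0 : ℝ) (hs : 1 ≤ s) (h0 : 0 < NN0)
    (hMg : (Mg : ℝ) ≤ 9 * p * Real.sqrt NN0)
    (hj : ∀ j ≤ J, IsCoprime (g j) (star (g j)) ∧ NN0 ≤ (g j).norm * lam j ^ 200 ∧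
      (g j).norm * lam j ^ 200 ≤ 2 * NN0 ∧ 10 ^ 4 * s ^ 2 * m ≤ lam j ∧ 100 * (m : ℝ) ^ 3 ≤ lam j ∧
      400 * (p : ℝ) ^ 2 ≤ lam j ∧ 10 * ((J : ℝ) + 1) ≤ lam j ∧
      (∀ u ∈ U j, ‖ph m u‖ ≤ s * lam j ^ 50) ∧ lam j ^ 99 ≤ (U j).card)
    (hch : ∀ j < J, lam (j + 1) ^ 121 ≤ lam j ^ 139) (htop : ((g J).norm : ℝ) ≤ lam J ^ 50) :
    ∑ n ∈ (grid Mg).filter (fun n => ¬ Low m (gp m Mg n) (lam 0 ^ 121) NN0),
      ∏ j : Fin (J + 1), (‖blk (U j) (g j) (gp m Mg n)‖ * ‖blk (U j) (g j) (conj (gp m Mg n))‖) ^ 600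
        ≤ 1 / 10 := by
  obtain ⟨φ, hφ⟩ : ∃ φ : ℤ × ℤ → ℕ, ∀ n, ¬ Low m (gp m Mg n) (lam 0 ^ 121) NN0 → φ n ≤ J ∧
      ¬ Low m (gp m Mg n) (lam (φ n) ^ 121) NN0 ∧
        (φ n < J → Low m (gp m Mg n) (lam (φ n) ^ 139) NN0) :=
    ⟨fun n => Nat.findGreatest (fun j => ¬ Low m (gp m Mg n) (lam j ^ 121) NN0) J, fun n hn =>
      ⟨Nat.findGreatest_le J, Nat.findGreatest_spec
        (P := fun j => ¬ Low m (gp m Mg n) (lam j ^ 121) NN0) (Nat.zero_le J) hn, fun h =>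
          mono_EGMinor (not_not.1 (Nat.findGreatest_is_greatest
            (P := fun j => ¬ Low m (gp m Mg n) (lam j ^ 121) NN0) (Nat.lt_succ_self _) h))
            (hch _ h)⟩⟩
  rw [← sum_fiberwise_of_maps_to (t := range (J + 1)) (g := φ) fun n hn =>
    mem_range.2 (Nat.lt_succ_of_le (hφ n (mem_filter.1 hn).2).1)]
  refine (sum_le_card_nsmul _ _ (1 / (10 * ((J : ℝ) + 1))) fun j hj' => ?_).trans (le_of_eq ?_)
  swap
  · rw [card_range, nsmul_eq_mul]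
    push_cast
    field_simp
  have hJ := Nat.le_of_lt_succ (mem_range.1 hj')
  obtain ⟨a1, a2, a3, a4, a5, a6, a7, a8, a9⟩ := hj j hJ
  have hJ0 : (0 : ℝ) ≤ J := Nat.cast_nonneg J
  have hl1 : 1 ≤ lam j := by linarith
  have hl0 : 0 < lam j := by linarith
  have hb := fun β => block m hm (U j) s (lam j) β hs a4 a8 a9
  refine (sum_le_card_nsmul _ _ ((1 / lam j) ^ 600) fun n hn => ?_).trans ?_
  · obtain ⟨h1, rfl⟩ := mem_filter.1 hn
    obtain ⟨-, h2, h3⟩ := hφ n (mem_filter.1 h1).2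
    refine prod_EGMinor g U _ hJ ?_
    rcases hJ.lt_or_eq with h | h
    · exact (versions m hm _ a1 _ _ NN0 a5 h0 a2 a3 (h3 h) h2).imp (hb _) (hb _)
    · exact Or.inl (hb _ (version_top m hm _ _ _ NN0 a5 h0 a2 (h ▸ htop) h2))
  have hc : ((((grid Mg).filter fun n => ¬ Low m (gp m Mg n) (lam 0 ^ 121) NN0).filter
      fun n => φ n = j).card : ℝ) ≤ lam j ^ 599 := by
    rcases hJ.lt_or_eq with h | h
    · refine le_trans (Nat.cast_le.2 (card_le_card fun n hn => ?_))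
        ((count_near m p Mg hm hp (lam j ^ 139) NN0 (one_le_pow₀ hl1) h0 hMg).trans ?_)
      · obtain ⟨h1, rfl⟩ := mem_filter.1 hn
        exact mem_filter.2 ⟨(mem_filter.1 h1).1,
          near_of_low m hm _ _ _ h0.le ((hφ n (mem_filter.1 h1).2).2.2 h)⟩
      · rw [← pow_mul]
        refine (mul_le_mul_of_nonneg_right a6 (by positivity)).trans ?_
        rw [← pow_succ']
        exact pow_le_pow_right₀ hl1 (by norm_num)
    · refine le_trans (Nat.cast_le.2 ((card_filter_le _ _).trans (card_filter_le _ _))) ?_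
      have h1 : ((grid Mg).card : ℝ) = (Mg : ℝ) ^ 2 := by
        simp [grid, sq]
      have h2 := pow_le_pow_left₀ (Nat.cast_nonneg Mg) hMg 2
      rw [mul_pow, Real.sq_sqrt h0.le] at h2
      have h3 : NN0 ≤ lam j ^ 50 * lam j ^ 200 :=
        a2.trans (mul_le_mul_of_nonneg_right (h ▸ htop) (by positivity))
      have h4 : (9 * (p : ℝ)) ^ 2 ≤ lam j := by nlinarith [sq_nonneg (p : ℝ)]
      rw [h1]
      refine (h2.trans (mul_le_mul h4 h3 h0.le hl0.le)).trans ?_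
      rw [← pow_add, ← pow_succ']
      exact pow_le_pow_right₀ hl1 (by norm_num)
  rw [nsmul_eq_mul]
  refine (mul_le_mul_of_nonneg_right hc (by positivity)).trans ?_
  have e : lam j ^ 599 * (1 / lam j) ^ 600 = 1 / lam j := by field_simp
  rw [e]
  exact one_div_le_one_div_of_le (by positivity) a7

end Pool.Agent.P.MP_b75a1e_co.EG
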