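import Pool.Agent.P.MP_b75a1e_co.EGArith

set_option autoImplicit false

open Finset
open scoped BigOperators ComplexConjugate

namespace Pool.Agent.P.MP_b75a1e_co.EG

theorem card_res_EGStage (l len : ℕ) (R : Finset (ZMod l)) (S : Finset ℕ)
    (hS : ∀ t ∈ S, t < len ∧ (t : ZMod l) ∈ R) : S.card ≤ R.card * (len / l + 1) := by
  classical
  have h := Finset.card_le_card_of_injOn (s := S) (t := R ×ˢ range (len / l + 1))
    (fun t : ℕ => ((t : ZMod l), t / l)) (by
      intro t ht
      have h1 := hS t ht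
      simp only [coe_product, Set.mem_prod, mem_coe, mem_range]
      exact ⟨h1.2, Nat.lt_succ_of_le (Nat.div_le_div_right h1.1.le)⟩) (by
      intro t _ t' _ h
      simp only [Prod.mk.injEq] at h
      have h1 : t % l = t' % l := (ZMod.natCast_eq_natCast_iff' t t' l).1 h.1
      rw [← Nat.div_add_mod t l, ← Nat.div_add_mod t' l, h1, h.2])
  simpa using h

theorem quad_EGStage (Y len : ℕ) (a b c : ℤ) (f : ℕ → ℤ) (hf : ∀ t, f t = a * t ^ 2 + b * t + c)
    (h : ∀ l : ℕ, l.Prime → Y < l → ¬ (l : ℤ) ∣ a ∨ ¬ (l : ℤ) ∣ b) : Roots Y len f := by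
  classical
  intro l hl hY
  have := Fact.mk hl
  set P : Polynomial (ZMod l) :=
    Polynomial.C (a : ZMod l) * Polynomial.X ^ 2 + Polynomial.C (b : ZMod l) * Polynomial.X +
      Polynomial.C (c : ZMod l) with hP
  have hP0 : P ≠ 0 := by
    intro h0
    have h2 : P.coeff 2 = (a : ZMod l) := by
      simp only [hP, Polynomial.coeff_add, Polynomial.coeff_C_mul, Polynomial.coeff_X_pow,
        Polynomial.coeff_X, Polynomial.coeff_C]
      norm_num
    have h1 : P.coeff 1 = (b : ZMod l) := by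
      simp only [hP, Polynomial.coeff_add, Polynomial.coeff_C_mul, Polynomial.coeff_X_pow,
        Polynomial.coeff_X, Polynomial.coeff_C]
      norm_num
    rw [h0, Polynomial.coeff_zero] at h1 h2
    rcases h l hl hY with h' | h'
    · exact h' ((ZMod.intCast_zmod_eq_zero_iff_dvd a l).1 h2.symm)
    · exact h' ((ZMod.intCast_zmod_eq_zero_iff_dvd b l).1 h1.symm)
  have hc : P.roots.toFinset.card ≤ 2 :=
    (Multiset.toFinset_card_le _).trans ((Polynomial.card_roots' P).trans
      Polynomial.natDegree_quadratic_le)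
  refine (card_res_EGStage l len P.roots.toFinset _ ?_).trans (Nat.mul_le_mul_right _ hc)
  intro t ht
  rw [mem_filter, mem_range] at ht
  refine ⟨ht.1, ?_⟩
  rw [Multiset.mem_toFinset, Polynomial.mem_roots hP0, Polynomial.IsRoot.def]
  have h0 := (ZMod.intCast_zmod_eq_zero_iff_dvd (f t) l).2 ht.2
  rw [hf] at h0
  push_cast at h0
  simpa [hP] using h0

theorem roots_norm {m : ℕ} (Y len : ℕ) (z0 v : O m)
    (hv : ∀ l : ℕ, l.Prime → Y < l → ¬ (l : ℤ) ∣ v.norm) :
    Roots Y len fun t => (z0 + (t : O m) * v).norm := by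
  refine quad_EGStage Y len v.norm (2 * (z0.re * v.re + m * z0.im * v.im)) z0.norm _ ?_
    fun l hl hY => Or.inl (hv l hl hY)
  intro t
  simp only [norm_eq, Zsqrtd.re_add, Zsqrtd.im_add, Zsqrtd.re_mul, Zsqrtd.im_mul,
    Zsqrtd.re_natCast, Zsqrtd.im_natCast]
  ring

theorem roots_lin (Y len : ℕ) (b0 E : ℤ) (hE : ∀ l : ℕ, l.Prime → Y < l → ¬ (l : ℤ) ∣ E) :
    Roots Y len fun t => b0 + E * t :=
  quad_EGStage Y len 0 E b0 _ (fun t => by ring) fun l hl hY => Or.inr (hE l hl hY)

theorem expect_fin_EGStage (len : ℕ) (g : ℕ → ℝ) :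
    𝔼 t : Fin len, g t = (∑ t ∈ range len, g t) / len := by
  rw [Fintype.expect_eq_sum_div_card, Fintype.card_fin, Fin.sum_univ_eq_sum_range]

/-- Density of the multiples of one prime. -/
theorem dens_EGStage (Y len l : ℕ) (f : ℕ → ℤ) (hlen1 : 1 ≤ len) (hr : Roots Y len f)
    (hl : l.Prime) (hY : Y < l) :
    (∑ t ∈ range len, if (l : ℤ) ∣ f t then (1 : ℝ) else 0) / len ≤ 2 * (1 / l + 1 / len) := by
  have hlen : (0 : ℝ) < len := by exact_mod_cast hlen1
  have h1 : ((((range len).filter fun t => (l : ℤ) ∣ f t).card : ℕ) : ℝ) ≤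
      ((2 * (len / l + 1) : ℕ) : ℝ) := by exact_mod_cast hr l hl hY
  have h2 : ((len / l : ℕ) : ℝ) ≤ len / l := Nat.cast_div_le
  rw [Finset.sum_boole, div_le_iff₀ hlen]
  push_cast at h1
  have h3 : 2 * (1 / (l : ℝ) + 1 / len) * len = 2 * (len / l + 1) := by field_simp
  rw [h3]
  linarith

theorem card_pf_EGStage (n w : ℕ) (hn : n ≠ 0) (hw : n ≤ 2 ^ w) : n.primeFactors.card ≤ w := by
  have h1 : 2 ^ n.primeFactors.card ≤ ∏ p ∈ n.primeFactors, p :=
    Finset.pow_card_le_prod _ _ _ fun p hp => (Nat.prime_of_mem_primeFactors hp).two_le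
  have h2 : ∏ p ∈ n.primeFactors, p ≤ n :=
    Nat.le_of_dvd (Nat.pos_of_ne_zero hn) (Nat.prod_primeFactors_dvd n)
  exact (Nat.pow_le_pow_iff_right (by norm_num : 1 < 2)).1 (h1.trans (h2.trans hw))

theorem tail_EGStage (Y len : ℕ) (hY : 1 ≤ Y) :
    ∑ l ∈ Ioc Y len, (1 : ℝ) / (l : ℝ) ^ 2 ≤ 1 / Y := by
  rcases le_or_gt Y len with h | h
  · have h1 := sum_Ioc_inv_sq_le_sub (α := ℝ) (k := Y) (n := len) (by omega) h
    simp only [one_div]
    have h2 : (0 : ℝ) ≤ (len : ℝ)⁻¹ := by positivity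
    linarith
  · rw [Finset.Ioc_eq_empty (by omega)]
    simp

theorem wt_split_EGStage (Y len w : ℕ) (a : ℤ) (hlen1 : 1 ≤ len) (ha : a ≠ 0) (hw : |a| ≤ 2 ^ w) :
    wt Y len a ≤ (∑ l ∈ (Ioc Y len).filter Nat.Prime, 2 / (l : ℝ) * if (l : ℤ) ∣ a then 1 else 0) +
      w * (2 / len) := by
  classical
  have hlen : (0 : ℝ) < len := by exact_mod_cast hlen1
  unfold wt
  rw [← Finset.sum_filter_add_sum_filter_not _ (fun l => l ≤ len)]
  refine add_le_add ?_ ?_
  · calc _ ≤ ∑ l ∈ (a.natAbs.primeFactors.filter (fun l => Y < l)).filter (fun l => l ≤ len),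
          2 / (l : ℝ) * (if (l : ℤ) ∣ a then 1 else 0) := by
          refine Finset.sum_le_sum fun l hl => ?_
          simp only [mem_filter] at hl
          have hp := Nat.prime_of_mem_primeFactors hl.1.1
          have hd : (l : ℤ) ∣ a := Int.natCast_dvd.2 (Nat.dvd_of_mem_primeFactors hl.1.1)
          have hl0 : (0 : ℝ) < l := by exact_mod_cast hp.pos
          have h1 : (1 : ℝ) / len ≤ 1 / l :=
            one_div_le_one_div_of_le hl0 (by exact_mod_cast hl.2)
          rw [if_pos hd, mul_one]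
          have h2 : 2 / (l : ℝ) = 1 / l + 1 / l := by ring
          linarith
      _ ≤ _ := by
          refine Finset.sum_le_sum_of_subset_of_nonneg ?_ fun l _ _ => by positivity
          intro l hl
          simp only [mem_filter, mem_Ioc] at hl ⊢
          exact ⟨⟨hl.1.2, hl.2⟩, Nat.prime_of_mem_primeFactors hl.1.1⟩
  · have hc : a.natAbs.primeFactors.card ≤ w := by
      refine card_pf_EGStage _ _ (Int.natAbs_ne_zero.2 ha) ?_
      have : ((a.natAbs : ℕ) : ℤ) ≤ ((2 ^ w : ℕ) : ℤ) := by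
        rw [Int.natCast_natAbs]; exact_mod_cast hw
      exact_mod_cast this
    calc _ ≤ ∑ _l ∈ (a.natAbs.primeFactors.filter (fun l => Y < l)).filter (fun l => ¬ l ≤ len),
          2 / (len : ℝ) := by
          refine Finset.sum_le_sum fun l hl => ?_
          simp only [mem_filter] at hl
          have h1 : (1 : ℝ) / l ≤ 1 / len :=
            one_div_le_one_div_of_le hlen (by exact_mod_cast (not_le.1 hl.2).le)
          have h2 : 2 / (len : ℝ) = 1 / len + 1 / len := by ring
          linarith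
      _ ≤ _ := by
          rw [Finset.sum_const, nsmul_eq_mul]
          refine mul_le_mul_of_nonneg_right ?_ (by positivity)
          exact_mod_cast ((card_filter_le _ _).trans (card_filter_le _ _)).trans hc

/-- The expected weight of a value. -/
theorem exp_wt (Y len w : ℕ) (f : ℕ → ℤ) (hY : 2 ≤ Y) (hlen1 : 1 ≤ len) (hlen : Y * w ≤ len)
    (hf0 : ∀ t < len, f t ≠ 0 ∧ |f t| ≤ 2 ^ w) (hr : Roots Y len f) :
    𝔼 t : Fin len, wt Y len (f t) ≤ 10 / Y := by
  classical
  have hl0 : (0 : ℝ) < len := by exact_mod_cast hlen1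
  have hY0 : (0 : ℝ) < Y := by exact_mod_cast (by omega : 0 < Y)
  rw [expect_fin_EGStage len fun t => wt Y len (f t)]
  have h1 : ∑ t ∈ range len, wt Y len (f t) ≤ ∑ t ∈ range len,
      ((∑ l ∈ (Ioc Y len).filter Nat.Prime, 2 / (l : ℝ) * if (l : ℤ) ∣ f t then 1 else 0) +
        w * (2 / len)) :=
    Finset.sum_le_sum fun t ht =>
      wt_split_EGStage Y len w _ hlen1 (hf0 t (mem_range.1 ht)).1 (hf0 t (mem_range.1 ht)).2
  rw [Finset.sum_add_distrib, Finset.sum_comm, Finset.sum_const, card_range, nsmul_eq_mul] at h1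
  have h2 : ∑ l ∈ (Ioc Y len).filter Nat.Prime,
      ∑ t ∈ range len, (2 / (l : ℝ) * if (l : ℤ) ∣ f t then 1 else 0) ≤
      ∑ l ∈ (Ioc Y len).filter Nat.Prime, 8 * len * (1 / (l : ℝ) ^ 2) := by
    refine Finset.sum_le_sum fun l hl => ?_
    simp only [mem_filter, mem_Ioc] at hl
    have hp0 : (0 : ℝ) < l := by exact_mod_cast hl.2.pos
    have h3 := dens_EGStage Y len l f hlen1 hr hl.2 hl.1.1
    have h4 : (1 : ℝ) / len ≤ 1 / l := one_div_le_one_div_of_le hp0 (by exact_mod_cast hl.1.2)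
    rw [← Finset.mul_sum]
    rw [div_le_iff₀ hl0] at h3
    have h5 : 2 * (1 / (l : ℝ) + 1 / len) * len ≤ 2 * (1 / l + 1 / l) * len := by gcongr
    calc _ ≤ 2 / (l : ℝ) * (2 * (1 / l + 1 / l) * len) := by gcongr; exact h3.trans h5
      _ = _ := by ring
  have h6 : ∑ l ∈ (Ioc Y len).filter Nat.Prime, 8 * (len : ℝ) * (1 / (l : ℝ) ^ 2) ≤
      8 * (len : ℝ) * (1 / (Y : ℝ)) := by
    rw [← Finset.mul_sum]
    refine mul_le_mul_of_nonneg_left (le_trans ?_ (tail_EGStage Y len (by omega))) (by positivity)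
    exact Finset.sum_le_sum_of_subset_of_nonneg (filter_subset _ _) fun l _ _ => by positivity
  have h7 : (w : ℝ) * (2 / len) ≤ 2 / Y := by
    have h8 : (Y : ℝ) * w ≤ len := by exact_mod_cast hlen
    rw [← mul_div_assoc, div_le_div_iff₀ hl0 hY0]
    nlinarith
  rw [div_le_iff₀ hl0]
  have h9 : (len : ℝ) * (w * (2 / len)) ≤ len * (2 / Y) := by gcongr
  have h10 : 10 / (Y : ℝ) * len = 8 * len * (1 / Y) + len * (2 / Y) := by ring
  linarith

open Classical in
theorem bad_EGStage (Y len : ℕ) (a : ℤ) (g : ℕ → ℤ) (hlen1 : 1 ≤ len) (ha : a ≠ 0)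
    (hr : Roots Y len g) :
    𝔼 t : Fin len, (if Cop Y a (g t) then (0 : ℝ) else 1) ≤ 2 * wt Y len a := by
  have hl0 : (0 : ℝ) < len := by exact_mod_cast hlen1
  rw [expect_fin_EGStage len fun t => if Cop Y a (g t) then (0 : ℝ) else 1]
  have h1 : ∑ t ∈ range len, (if Cop Y a (g t) then (0 : ℝ) else 1) ≤ ∑ t ∈ range len,
      ∑ l ∈ a.natAbs.primeFactors.filter (fun l => Y < l),
        (if (l : ℤ) ∣ g t then (1 : ℝ) else 0) := by
    refine Finset.sum_le_sum fun t _ => ?_
    by_cases h : Cop Y a (g t)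
    · rw [if_pos h]
      exact Finset.sum_nonneg fun l _ => by positivity
    · rw [if_neg h]
      unfold Cop at h
      push Not at h
      obtain ⟨l, hl, hY, h1, h2⟩ := h
      have hm : l ∈ a.natAbs.primeFactors.filter (fun l => Y < l) :=
        mem_filter.2 ⟨Nat.mem_primeFactors.2 ⟨hl, Int.natCast_dvd.1 h1, Int.natAbs_ne_zero.2 ha⟩, hY⟩
      have h3 := Finset.single_le_sum (f := fun l : ℕ => if (l : ℤ) ∣ g t then (1 : ℝ) else 0)
        (fun l _ => by positivity) hm
      rwa [if_pos h2] at h3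
  rw [Finset.sum_comm] at h1
  calc _ ≤ (∑ l ∈ a.natAbs.primeFactors.filter (fun l => Y < l), ∑ t ∈ range len,
        (if (l : ℤ) ∣ g t then (1 : ℝ) else 0)) / len := by gcongr
    _ ≤ _ := by
      unfold wt
      rw [Finset.sum_div, Finset.mul_sum]
      refine Finset.sum_le_sum fun l hl => ?_
      rw [mem_filter] at hl
      exact dens_EGStage Y len l g hlen1 hr (Nat.prime_of_mem_primeFactors hl.1) hl.2

theorem coord_EGStage {I α : Type} [Fintype I] [DecidableEq I] [Fintype α] [Nonempty α]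
    (g : α → ℝ) (i : I) : 𝔼 t : I → α, g (t i) = 𝔼 v, g v := by
  rw [expect_update (fun t : I → α => g (t i)) i]
  simp only [Function.update_self]
  exact Finset.expect_const univ_nonempty _

/-- L12: one random stage. -/
theorem stage {I : Type} [Fintype I] [DecidableEq I] (Y len w : ℕ) (f : I → ℕ → ℤ) (DD : ℤ) (σ : ℝ)
    (Err : (I → Fin len) → ℝ) (hY : 2 ≤ Y) (hlen1 : 1 ≤ len) (hlen : Y * w ≤ len)
    (hf0 : ∀ i, ∀ t < len, f i t ≠ 0 ∧ |f i t| ≤ 2 ^ w) (hr : ∀ i, Roots Y len (f i)) (hD : DD ≠ 0)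
    (hσ : wt Y len DD ≤ σ)
    (hI : 2 * (Fintype.card I : ℝ) * σ + 20 * (Fintype.card I : ℝ) ^ 2 / Y ≤ 1 / 2)
    (hE0 : ∀ t, 0 ≤ Err t) (hE : 𝔼 t, Err t ≤ 1 / 4) :
    ∃ t : I → Fin len, Err t < 1 ∧ (∀ i, Cop Y DD (f i (t i))) ∧
      (∀ i k, i ≠ k → Cop Y (f i (t i)) (f k (t k))) ∧
      ∑ i, wt Y len (f i (t i)) ≤ 100 * (Fintype.card I : ℝ) / Y := by
  classical
  have : Nonempty (Fin len) := ⟨⟨0, hlen1⟩⟩
  have hY0 : (0 : ℝ) < Y := by exact_mod_cast (by omega : 0 < Y)
  set N : ℝ := (Fintype.card I : ℝ) with hN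
  have hN0 : 0 ≤ N := by positivity
  set A : (I → Fin len) → ℝ := fun t => ∑ i, if Cop Y DD (f i (t i)) then 0 else 1 with hA
  set B : (I → Fin len) → ℝ := fun t =>
    ∑ i, ∑ k, if i = k then 0 else if Cop Y (f i (t i)) (f k (t k)) then 0 else 1 with hB
  set S : (I → Fin len) → ℝ := fun t => ∑ i, wt Y len (f i (t i)) with hS
  have hw : ∀ i, 𝔼 t : I → Fin len, wt Y len (f i (t i)) ≤ 10 / Y := fun i => by
    rw [coord_EGStage (fun v : Fin len => wt Y len (f i v)) i]
    exact exp_wt Y len w (f i) hY hlen1 hlen (hf0 i) (hr i)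
  have hA1 : 𝔼 t, A t ≤ 2 * N * σ := by
    rw [hA, Finset.expect_sum_comm]
    calc _ ≤ ∑ _i : I, 2 * σ := by
          refine Finset.sum_le_sum fun i _ => ?_
          rw [coord_EGStage (fun v : Fin len => if Cop Y DD (f i v) then (0 : ℝ) else 1) i]
          exact (bad_EGStage Y len DD (f i) hlen1 hD (hr i)).trans (by linarith)
      _ = _ := by rw [Finset.sum_const, card_univ, nsmul_eq_mul]; ring
  have hB1 : 𝔼 t, B t ≤ 20 * N ^ 2 / Y := by
    rw [hB, Finset.expect_sum_comm]
    calc _ ≤ ∑ _i : I, ∑ _k : I, 20 / (Y : ℝ) := by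
          refine Finset.sum_le_sum fun i _ => ?_
          rw [Finset.expect_sum_comm]
          refine Finset.sum_le_sum fun k _ => ?_
          by_cases hik : i = k
          · simp only [if_pos hik, Finset.expect_const_zero]
            positivity
          · simp only [if_neg hik]
            rw [expect_update _ k]
            simp only [Function.update_self, Function.update_of_ne hik]
            calc _ ≤ 𝔼 t : I → Fin len, 2 * wt Y len (f i (t i)) :=
                  Finset.expect_le_expect fun t _ =>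
                    bad_EGStage Y len _ (f k) hlen1 (hf0 i _ (t i).2).1 (hr k)
              _ ≤ _ := by
                  rw [← Finset.mul_expect]
                  have := hw i
                  have h2 : 20 / (Y : ℝ) = 2 * (10 / Y) := by ring
                  linarith
      _ = _ := by simp only [Finset.sum_const, card_univ, nsmul_eq_mul]; ring
  have hS1 : 𝔼 t, S t ≤ N * (10 / Y) := by
    rw [hS, Finset.expect_sum_comm]
    calc _ ≤ ∑ _i : I, 10 / (Y : ℝ) := Finset.sum_le_sum fun i _ => hw i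
      _ = _ := by rw [Finset.sum_const, card_univ, nsmul_eq_mul]
  have hS2 : 𝔼 t, Y / (100 * N) * S t ≤ 1 / 10 := by
    rw [← Finset.mul_expect]
    rcases hN0.eq_or_lt with h | h
    · rw [← h]; norm_num
    · calc _ ≤ Y / (100 * N) * (N * (10 / Y)) := by gcongr
        _ = _ := by field_simp; norm_num
  have hT : 𝔼 t, (Err t + A t + B t + Y / (100 * N) * S t) < 1 := by
    rw [Finset.expect_add_distrib, Finset.expect_add_distrib, Finset.expect_add_distrib]
    linarith
  obtain ⟨t, -, ht⟩ := Finset.exists_lt_of_expect_lt univ_nonempty hT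
  have hA0 : 0 ≤ A t := Finset.sum_nonneg fun i _ => by positivity
  have hB0 : 0 ≤ B t := Finset.sum_nonneg fun i _ => Finset.sum_nonneg fun k _ => by positivity
  have hS0 : 0 ≤ S t := Finset.sum_nonneg fun i _ => wt_nonneg _ _ _
  have hS3 : 0 ≤ Y / (100 * N) * S t := by positivity
  have hE1 := hE0 t
  refine ⟨t, by linarith, fun i => ?_, fun i k hik => ?_, ?_⟩
  · by_contra h
    have h1 := Finset.single_le_sum
      (f := fun i => if Cop Y DD (f i (t i)) then (0 : ℝ) else 1) (fun i _ => by positivity)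
      (mem_univ i)
    rw [if_neg h] at h1
    have h2 : 1 ≤ A t := h1
    linarith
  · by_contra h
    have h1 := Finset.single_le_sum (f := fun k => if i = k then (0 : ℝ) else
      if Cop Y (f i (t i)) (f k (t k)) then 0 else 1) (fun i _ => by positivity) (mem_univ k)
    have h2 := Finset.single_le_sum (f := fun i => ∑ k, if i = k then (0 : ℝ) else
      if Cop Y (f i (t i)) (f k (t k)) then 0 else 1)
      (fun i _ => Finset.sum_nonneg fun k _ => by positivity) (mem_univ i)
    rw [if_neg hik, if_neg h] at h1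
    have h3 : 1 ≤ B t := h1.trans h2
    linarith
  · change S t ≤ _
    rcases hN0.eq_or_lt with h | h
    · have hc : Fintype.card I = 0 := Nat.cast_eq_zero.1 (hN.symm.trans h.symm)
      have := Fintype.card_eq_zero_iff.1 hc
      rw [← h, hS]
      simp
    · have h1 : Y / (100 * N) * S t < 1 := by linarith
      rw [div_mul_eq_mul_div, div_lt_one (by positivity)] at h1
      rw [le_div_iff₀ hY0]
      linarith

end Pool.Agent.P.MP_b75a1e_co.EG
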