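import Pool.Agent.P.MP_b75a1e_co.EGHErr
import Pool.Agent.P.MP_b75a1e_co.EGStage

set_option autoImplicit false

open Finset
open scoped BigOperators ComplexConjugate

namespace Pool.Agent.P.MP_b75a1e_co.EG

theorem ex_EGRLift {p : ℕ} (hp : 10 ^ 20 ≤ p) :
    33 * p + 2 ≤ p ^ 7 ∧ 6 * p + 21 + 4 * p ^ 15 + 2 * p ^ 18 ≤ 3 * p ^ 18 ∧
    p ^ 5 + p ^ 6 ≤ p ^ 7 ∧ 29 + 4 * p + 8 * p ^ 5 ≤ p ^ 6 ∧ 7 + 2 * p ^ 5 ≤ p ^ 18 ∧
    3 + 6 * p + p ^ 7 ≤ p ^ 18 ∧ 17 + 2 * p ^ 15 + p + p ^ 5 ≤ p ^ 18 ∧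
    3 * p ^ 18 * (2 * p ^ 6) ≤ p ^ 25 ∧ p ≤ p ^ 15 := by
  have h100 : 100 ≤ p := le_trans (by norm_num) hp
  have h1 : ∀ a, 100 * p ^ a ≤ p ^ (a + 1) := fun a => by
    rw [pow_succ, mul_comm]; exact Nat.mul_le_mul_left _ h100
  have h2 : ∀ a b, a ≤ b → p ^ a ≤ p ^ b := fun a b h => Nat.pow_le_pow_right (by omega) h
  have a1 : 100 * p ≤ p ^ 2 := by simpa using h1 1
  have a2 := h2 2 5 (by norm_num)
  have a3 := h1 5
  have a4 := h1 6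
  have a5 := h2 7 14 (by norm_num)
  have a6 := h1 14
  have a7 := h1 15
  have a8 := h2 16 18 (by norm_num)
  have a9 := h1 24
  have a10 : 3 * p ^ 18 * (2 * p ^ 6) = 6 * p ^ 24 := by ring
  rw [a10]
  norm_num at a3 a4 a6 a7 a9
  generalize p ^ 2 = x2 at *
  generalize p ^ 5 = x5 at *
  generalize p ^ 6 = x6 at *
  generalize p ^ 7 = x7 at *
  generalize p ^ 14 = x14 at *
  generalize p ^ 15 = x15 at *
  generalize p ^ 16 = x16 at *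
  generalize p ^ 18 = x18 at *
  generalize p ^ 24 = x24 at *
  generalize p ^ 25 = x25 at *
  omega

theorem two_EGRLift {a b : ℕ} (h : a ≤ b) : 2 ^ a ≤ 2 ^ b := Nat.pow_le_pow_right (by norm_num) h

theorem pp_EGRLift (p k : ℕ) : p ^ k ≤ 2 ^ (k * p) := by
  rw [mul_comm, pow_mul]
  exact Nat.pow_le_pow_left Nat.lt_two_pow_self.le k

theorem nz_EGRLift (m M t : ℕ) : (hz m M t).norm = ((1 + m * (M * t) ^ 2 : ℕ) : ℤ) := by
  rw [norm_eq]; simp [hz]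

theorem val_EGRLift {m p M t : ℕ} (hp : 10 ^ 20 ≤ p) (hmp : m ≤ 4 ^ p) (hM : M ≤ M2 m (p ^ 15))
    (ht : t < 2 ^ p ^ 7) : 1 + m * (M * (2 ^ p ^ 18 + t)) ^ 2 ≤ 2 ^ (3 * p ^ 18) := by
  obtain ⟨-, e2, -, -, -, e6, -⟩ := ex_EGRLift hp
  have h1 : m ≤ 2 ^ (2 * p) := by rw [pow_mul]; exact hmp
  have h2 : M ≤ 2 ^ (9 + 2 * p ^ 15 + 2 * p) := by
    refine hM.trans ((M2_le m _).trans ?_)
    rw [pow_add, pow_add, pow_mul 2 2 (p ^ 15)]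
    exact Nat.mul_le_mul (Nat.mul_le_mul (by norm_num) le_rfl) h1
  have h3 : 2 ^ p ^ 18 + t ≤ 2 ^ (p ^ 18 + 1) := by
    have := two_EGRLift (show p ^ 7 ≤ p ^ 18 by omega)
    rw [pow_succ 2 (p ^ 18)]; omega
  have h4 : m * (M * (2 ^ p ^ 18 + t)) ^ 2 ≤
      2 ^ (2 * p + (9 + 2 * p ^ 15 + 2 * p + (p ^ 18 + 1)) * 2) := by
    rw [pow_add, pow_mul 2 (9 + 2 * p ^ 15 + 2 * p + (p ^ 18 + 1)), pow_add 2 (9 + 2 * p ^ 15 + 2 * p)]
    exact Nat.mul_le_mul h1 (Nat.pow_le_pow_left (Nat.mul_le_mul h2 h3) 2)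
  have h5 := two_EGRLift
    (show 2 * p + (9 + 2 * p ^ 15 + 2 * p + (p ^ 18 + 1)) * 2 + 1 ≤ 3 * p ^ 18 by omega)
  have h6 : 1 ≤ 2 ^ (2 * p + (9 + 2 * p ^ 15 + 2 * p + (p ^ 18 + 1)) * 2) := Nat.one_le_two_pow
  rw [pow_succ 2 (2 * p + (9 + 2 * p ^ 15 + 2 * p + (p ^ 18 + 1)) * 2)] at h5
  omega

theorem base_EGRLift {m r : ℕ} (z : Bool × Fin r → O m) :
    base (fun i => z (false, i)) * base (fun i => z (true, i)) = ∏ x, star (z x) := by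
  rw [Fintype.prod_prod_type, Fintype.prod_bool, mul_comm]
  simp [base, cube]

theorem ratio_EGRLift {m M A t len : ℕ} (hA : 1 ≤ A) (ht : t < len) :
    ((hz m M (A + t)).norm : ℝ) ≤ (1 + (len : ℝ) / A) ^ 2 * (hz m M (A + 0)).norm := by
  rw [nz_EGRLift, nz_EGRLift]
  push_cast
  have h0 : (0 : ℝ) < A := by exact_mod_cast hA
  have h1 : (t : ℝ) ≤ len := by exact_mod_cast ht.le
  have h2 : (0 : ℝ) ≤ len / A := by positivity
  have h3 : (A : ℝ) + t ≤ (1 + (len : ℝ) / A) * A := by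
    rw [add_mul, div_mul_cancel₀ _ h0.ne']; linarith
  have h4 : ((M : ℝ) * (A + t)) ^ 2 ≤ (M * ((1 + (len : ℝ) / A) * A)) ^ 2 := by gcongr
  have h5 : (1 : ℝ) ≤ (1 + (len : ℝ) / A) ^ 2 := one_le_pow₀ (by linarith)
  have h6 : (m : ℝ) * (M * (A + t)) ^ 2 ≤ m * (M * ((1 + (len : ℝ) / A) * A)) ^ 2 := by gcongr
  have h7 : (1 + (len : ℝ) / A) ^ 2 * (1 + m * (M * (A + 0)) ^ 2) =
      (1 + (len : ℝ) / A) ^ 2 + m * (M * ((1 + (len : ℝ) / A) * A)) ^ 2 := by ring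
  rw [h7]
  linarith

theorem pw_EGRLift {x : ℝ} {N : ℕ} (hx : 0 ≤ x) (h : N * x ≤ 1 / 2) : (1 + x) ^ N ≤ 2 := by
  have h1 : (1 + x) ^ N ≤ Real.exp x ^ N := by
    gcongr
    linarith [Real.add_one_le_exp x]
  rw [← Real.exp_nat_mul] at h1
  have h2 : Real.exp (N * x) ≤ Real.exp (1 / 2) := Real.exp_le_exp.2 h
  have h3 := Real.exp_bound_div_one_sub_of_interval (x := 1 / 2) (by norm_num) (by norm_num)
  norm_num at h3 h2 h1 ⊢
  linarith [Real.exp_le_exp.2 h2]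

theorem err_EGRLift {p : ℕ} (hp : 10 ^ 20 ≤ p) {H : ℝ} (hH1 : 1 ≤ H) (hH : H ≤ 2 ^ p ^ 5) :
    10 * (400 * (p : ℝ) ^ 2 * H ^ 4 * Real.sqrt (1 / 2 ^ p ^ 6 + H / (2 ^ p ^ 7 : ℕ))) ≤ 1 / 4 := by
  obtain ⟨-, -, e3, e4, -⟩ := ex_EGRLift hp
  have hp0 : (0 : ℝ) < p := by exact_mod_cast lt_of_lt_of_le (by norm_num) hp
  have h1 : H * 2 ^ p ^ 6 ≤ 2 ^ p ^ 7 := by
    calc H * 2 ^ p ^ 6 ≤ 2 ^ p ^ 5 * 2 ^ p ^ 6 := by gcongr
      _ = 2 ^ (p ^ 5 + p ^ 6) := (pow_add _ _ _).symm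
      _ ≤ 2 ^ p ^ 7 := pow_le_pow_right₀ (by norm_num) e3
  have h2 : (16000 * (p : ℝ) ^ 2 * H ^ 4) ^ 2 * 2 ≤ 2 ^ p ^ 6 := by
    have h3 : (p : ℝ) ^ 4 ≤ 2 ^ (4 * p) := by exact_mod_cast pp_EGRLift p 4
    have h4 : H ^ 8 ≤ 2 ^ (8 * p ^ 5) := by
      rw [mul_comm, pow_mul]; gcongr
    calc (16000 * (p : ℝ) ^ 2 * H ^ 4) ^ 2 * 2 = 512000000 * (p : ℝ) ^ 4 * H ^ 8 := by ring
      _ ≤ 2 ^ 29 * 2 ^ (4 * p) * 2 ^ (8 * p ^ 5) := by gcongr; norm_num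
      _ = 2 ^ (29 + 4 * p + 8 * p ^ 5) := by rw [pow_add, pow_add]
      _ ≤ 2 ^ p ^ 6 := pow_le_pow_right₀ (by norm_num) e4
  push_cast
  have h6 : (0 : ℝ) < 2 ^ p ^ 6 := by positivity
  have h7 : (0 : ℝ) < 2 ^ p ^ 7 := by positivity
  generalize (2 : ℝ) ^ p ^ 6 = a at *
  generalize (2 : ℝ) ^ p ^ 7 = b at *
  have h8 : (0 : ℝ) < 16000 * (p : ℝ) ^ 2 * H ^ 4 := by positivity
  have h9 : 10 * (400 * (p : ℝ) ^ 2 * H ^ 4 * Real.sqrt (1 / a + H / b)) =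
      16000 * (p : ℝ) ^ 2 * H ^ 4 * Real.sqrt (1 / a + H / b) / 4 := by ring
  rw [h9]
  generalize 16000 * (p : ℝ) ^ 2 * H ^ 4 = c at *
  have h10 : H / b ≤ 1 / a := by rw [div_le_div_iff₀ h7 h6]; linarith
  have h11 : 1 / a + H / b ≤ (1 / c) ^ 2 := by
    have : 2 / a ≤ (1 / c) ^ 2 := by
      rw [div_pow, div_le_div_iff₀ h6 (by positivity)]; linarith
    have h12 : 2 / a = 1 / a + 1 / a := by ring
    linarith
  have h12 : Real.sqrt (1 / a + H / b) ≤ 1 / c := Real.sqrt_le_iff.2 ⟨by positivity, h11⟩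
  have h13 : c * Real.sqrt (1 / a + H / b) ≤ c * (1 / c) := by gcongr
  rw [mul_one_div_cancel h8.ne'] at h13
  linarith

theorem hI_EGRLift {p : ℕ} (hp : 10 ^ 20 ≤ p) :
    2 * ((2 * p ^ 6 : ℕ) : ℝ) * (10 ^ 8 / (p : ℝ) ^ 9) + 20 * ((2 * p ^ 6 : ℕ) : ℝ) ^ 2 / (p ^ 15 : ℕ) ≤
      1 / 2 := by
  have hp1 : (10 : ℝ) ^ 20 ≤ p := by exact_mod_cast hp
  have hp0 : (0 : ℝ) < p := lt_of_lt_of_le (by norm_num) hp1
  have h1 : 2 * ((2 * p ^ 6 : ℕ) : ℝ) * (10 ^ 8 / (p : ℝ) ^ 9) +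
      20 * ((2 * p ^ 6 : ℕ) : ℝ) ^ 2 / (p ^ 15 : ℕ) = (4 * 10 ^ 8 + 80) / (p : ℝ) ^ 3 := by
    push_cast; field_simp; ring
  rw [h1, div_le_iff₀ (by positivity)]
  have h2 : (p : ℝ) ≤ (p : ℝ) ^ 3 := le_self_pow₀ (le_trans (by norm_num) hp1) (by norm_num)
  have h3 : (10 : ℝ) ^ 20 = 100000000000000000000 := by norm_num
  have h4 : (4 * 10 ^ 8 + 80 : ℝ) = 400000080 := by norm_num
  rw [h3] at hp1
  rw [h4]
  linarith

theorem big_EGRLift {m p : ℕ} (hp : 10 ^ 20 ≤ p) {H : ℝ} (hH1 : 1 ≤ H) (hH : H ≤ 2 ^ p ^ 5) :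
    100 * (QQ m (p ^ 15) : ℝ) * p * H ≤ (2 ^ p ^ 18 : ℕ) ∧ 100 * H ^ 2 ≤ (2 ^ p ^ 18 : ℕ) ∧
      ((2 * p ^ 6 * 2 : ℕ) : ℝ) * (((2 ^ p ^ 7 : ℕ) : ℝ) / (2 ^ p ^ 18 : ℕ)) ≤ 1 / 2 := by
  obtain ⟨-, -, -, -, e5, e6, e7, -⟩ := ex_EGRLift hp
  refine ⟨?_, ?_, ?_⟩
  · have h1 : (QQ m (p ^ 15) : ℝ) ≤ 2 ^ 10 * 2 ^ (2 * p ^ 15) := by
      have := QQ_le m (p ^ 15)
      have h2 : 864 * 4 ^ p ^ 15 ≤ 2 ^ 10 * 2 ^ (2 * p ^ 15) := by
        rw [pow_mul]; exact Nat.mul_le_mul (by norm_num) le_rfl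
      exact_mod_cast this.trans h2
    have h2 : (p : ℝ) ≤ 2 ^ p := by exact_mod_cast Nat.lt_two_pow_self.le
    push_cast
    calc 100 * (QQ m (p ^ 15) : ℝ) * p * H ≤ 2 ^ 7 * (2 ^ 10 * 2 ^ (2 * p ^ 15)) * 2 ^ p * 2 ^ p ^ 5 := by
          gcongr; norm_num
      _ = 2 ^ (17 + 2 * p ^ 15 + p + p ^ 5) := by rw [pow_add, pow_add, pow_add]; ring
      _ ≤ 2 ^ p ^ 18 := pow_le_pow_right₀ (by norm_num) e7
  · push_cast
    calc 100 * H ^ 2 ≤ 2 ^ 7 * (2 ^ p ^ 5) ^ 2 := by gcongr; norm_num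
      _ = 2 ^ (7 + 2 * p ^ 5) := by rw [pow_add, ← pow_mul, mul_comm (p ^ 5)]
      _ ≤ 2 ^ p ^ 18 := pow_le_pow_right₀ (by norm_num) e5
  · rw [← mul_div_assoc, div_le_div_iff₀ (by positivity) (by norm_num)]
    have h1 : 2 * p ^ 6 * 2 * 2 ^ p ^ 7 * 2 ≤ 1 * 2 ^ p ^ 18 := by
      have h2 := pp_EGRLift p 6
      have h3 := two_EGRLift e6
      rw [pow_add, pow_add] at h3
      calc 2 * p ^ 6 * 2 * 2 ^ p ^ 7 * 2 = 2 ^ 3 * p ^ 6 * 2 ^ p ^ 7 := by ring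
        _ ≤ 2 ^ 3 * 2 ^ (6 * p) * 2 ^ p ^ 7 := by gcongr
        _ ≤ 1 * 2 ^ p ^ 18 := by omega
    exact_mod_cast h1

open Classical in
/-- The choice of the lifting coordinates and of the grid. -/
theorem random_lift (m p : ℕ) (hm : 1 ≤ m) (hmax : ∀ q, q.Prime → q ∣ m → q ≤ p) (hmp : m ≤ 4 ^ p)
    (hp : 10 ^ 20 ≤ p) (H : ℝ) (hH1 : 1 ≤ H) (hH : H ≤ 2 ^ p ^ 5) (Γ : O m)
    (h0 : Shape m (p ^ 15) Γ) (h1 : Prim (p ^ 15) Γ) (h2 : Pure (p ^ 15) Γ.norm)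
    (h3 : wt (p ^ 15) (2 ^ p ^ 7) Γ.norm ≤ 10 ^ 8 / (p : ℝ) ^ 9) :
    ∃ (zI zII : Fin (p ^ 6) → O m) (NN0 : ℝ) (Mg : ℕ),
      IsCoprime (Γ * (base zI * base zII)) (star (Γ * (base zI * base zII))) ∧
      NN0 ≤ (Γ * (base zI * base zII)).norm ∧ ((Γ * (base zI * base zII)).norm : ℝ) ≤ 2 * NN0 ∧
      (M1 m (p ^ 15) : O m) ∣ base zI * base zII - 1 ∧ (base zI * base zII).norm ≤ 2 ^ p ^ 25 ∧
      (∀ i, mu m ∣ zI i - star (zI i)) ∧ (∀ i, mu m ∣ zII i - star (zII i)) ∧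
      QQ m (p ^ 15) ∣ Mg ∧ 8 * p * Real.sqrt NN0 ≤ Mg ∧ (Mg : ℝ) ≤ 9 * p * Real.sqrt NN0 ∧
      (100 * (QQ m (p ^ 15) : ℝ) * p * H) ^ 2 ≤ NN0 ∧
      ∑ n ∈ (grid Mg).filter (fun n => ∃ (β : O m) (d : ℕ),
          Near m (gp m Mg n) β d H NN0 ∧ Deep (p ^ 15) (QQ m (p ^ 15)) d),
        ‖FI Γ zI zII (gp m Mg n)‖ * ‖FII Γ zI zII (gp m Mg n)‖ ≤ 1 / 10 := by
  obtain ⟨e1, -, -, -, -, -, -, e8, e9⟩ := ex_EGRLift hp
  obtain ⟨b1, b2, b3⟩ := big_EGRLift (m := m) hp hH1 hH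
  have herr := err_EGRLift hp hH1 hH
  have hI := hI_EGRLift hp
  have hval := fun M t => val_EGRLift (m := m) (M := M) (t := t) hp hmp
  have hp3 : 3 ≤ p := le_trans (by norm_num) hp
  have hlen : p ^ 15 * (3 * p ^ 18) ≤ 2 ^ p ^ 7 := by
    have h4 := pp_EGRLift p 33
    have h5 := two_EGRLift e1
    rw [pow_add] at h5
    calc p ^ 15 * (3 * p ^ 18) = 3 * p ^ 33 := by ring
      _ ≤ 2 ^ p ^ 7 := by omega
  have hw : (2 ^ (3 * p ^ 18)) ^ (2 * p ^ 6) ≤ 2 ^ p ^ 25 := by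
    rw [← pow_mul]; exact two_EGRLift e8
  have hr0 : 0 < p ^ 6 := by positivity
  have hA1 : 1 ≤ 2 ^ p ^ 18 := Nat.one_le_two_pow
  have hl1 : 1 ≤ 2 ^ p ^ 7 := Nat.one_le_two_pow
  have hc : ((2 : ℤ) ^ p ^ 25) = ((2 ^ p ^ 25 : ℕ) : ℤ) := by push_cast; rfl
  rw [hc]
  generalize 2 ^ p ^ 25 = W at *
  generalize 2 ^ p ^ 18 = A at *
  generalize 2 ^ p ^ 7 = len at *
  generalize 3 * p ^ 18 = w at *
  generalize p ^ 15 = Y at *
  generalize p ^ 6 = r at *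
  have hY3 : 3 ≤ Y := by omega
  have hsm : Smo Y m := fun l hl h => (hmax l hl h).trans e9
  obtain ⟨Mb, hMf, hMt⟩ : ∃ Mb : Bool → ℕ, Mb false = M1 m Y ∧ Mb true = M2 m Y :=
    ⟨fun b => if b then M2 m Y else M1 m Y, rfl, rfl⟩
  have hM : ∀ b, 1 ≤ Mb b ∧ Mb b ≤ M2 m Y ∧ Smo Y (Mb b) ∧ M1 m Y ∣ Mb b := by
    rintro (_ | _)
    · rw [hMf]; exact ⟨M1_pos hm Y, M1_le m Y, smo_M1 hY3 hsm, dvd_rfl⟩
    · rw [hMt]; exact ⟨M2_pos hm Y, le_rfl, smo_M2 hY3 hsm, by rw [M2_eq]; exact dvd_mul_left _ _⟩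
  have hG1 : 1 ≤ Γ.norm := by
    have h4 := norm_nonneg' Γ
    have h5 : Γ.norm ≠ 0 := fun h => h2 2 Nat.prime_two (by omega) (by rw [h]; exact dvd_zero _)
    omega
  have hG1' : (1 : ℝ) ≤ Γ.norm := by exact_mod_cast hG1
  have hf1 : ∀ M t, (1 : ℤ) ≤ (hz m M t).norm := fun M t => by
    rw [nz_EGRLift]; exact_mod_cast Nat.le_add_right _ _
  have hf1' : ∀ M t, (1 : ℝ) ≤ (hz m M t).norm := fun M t => by exact_mod_cast hf1 M t
  have hnorm : ∀ t : Bool × Fin r → Fin len,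
      (base (fun i => hz m (M1 m Y) (A + t (false, i))) *
        base fun i => hz m (M2 m Y) (A + t (true, i))) = ∏ x, star (hz m (Mb x.1) (A + t x)) := by
    intro t
    rw [← base_EGRLift fun x => hz m (Mb x.1) (A + t x)]
    simp only [hMf, hMt]
  have hnorm2 : ∀ t : Bool × Fin r → Fin len,
      (∏ x, star (hz m (Mb x.1) (A + t x))).norm = ∏ x, (hz m (Mb x.1) (A + t x)).norm := by
    intro t
    rw [norm_prod']
    simp only [Zsqrtd.norm_conj]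
  obtain ⟨NN0, hNN⟩ : ∃ NN0 : ℝ,
      NN0 = Γ.norm * ∏ x : Bool × Fin r, ((hz m (Mb x.1) (A + 0)).norm : ℝ) := ⟨_, rfl⟩
  have hcard : Fintype.card (Bool × Fin r) = 2 * r := by simp
  have hup : ∀ t : Bool × Fin r → Fin len,
      ((Γ * ∏ x, star (hz m (Mb x.1) (A + t x))).norm : ℝ) ≤ 2 * NN0 := by
    intro t
    rw [Zsqrtd.norm_mul, hnorm2, hNN]
    push_cast
    have h4 : ∏ x : Bool × Fin r, ((hz m (Mb x.1) (A + t x)).norm : ℝ) ≤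
        ∏ x : Bool × Fin r, (1 + (len : ℝ) / A) ^ 2 * ((hz m (Mb x.1) (A + 0)).norm : ℝ) :=
      prod_le_prod (fun x _ => le_trans zero_le_one (hf1' _ _)) fun x _ => ratio_EGRLift hA1 (t x).2
    rw [prod_mul_distrib, prod_const, card_univ, hcard, ← pow_mul, mul_comm 2 (2 * r)] at h4
    have h5 := pw_EGRLift (x := (len : ℝ) / A) (N := 2 * r * 2) (by positivity) b3
    have h6 : (0 : ℝ) ≤ ∏ x : Bool × Fin r, ((hz m (Mb x.1) (A + 0)).norm : ℝ) :=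
      prod_nonneg fun x _ => le_trans zero_le_one (hf1' _ _)
    have h7 := h4.trans (mul_le_mul_of_nonneg_right h5 h6)
    have h8 := mul_le_mul_of_nonneg_left h7 (le_trans zero_le_one hG1')
    simp only [add_zero] at h8 ⊢
    linarith
  have hlo : ∀ t : Bool × Fin r → Fin len,
      NN0 ≤ ((Γ * ∏ x, star (hz m (Mb x.1) (A + t x))).norm : ℝ) := by
    intro t
    rw [Zsqrtd.norm_mul, hnorm2, hNN]
    push_cast
    refine mul_le_mul_of_nonneg_left (prod_le_prod (fun x _ => le_trans zero_le_one (hf1' _ _))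
      fun x _ => ?_) (le_trans zero_le_one hG1')
    rw [nz_EGRLift, nz_EGRLift]
    push_cast
    gcongr
    positivity
  have hbig : (100 * (QQ m Y : ℝ) * p * H) ^ 2 ≤ NN0 := by
    have h4 : ((hz m (Mb false) (A + 0)).norm : ℝ) ≤
        ∏ x : Bool × Fin r, ((hz m (Mb x.1) (A + 0)).norm : ℝ) := by
      rw [← mul_prod_erase univ _ (mem_univ (false, (⟨0, hr0⟩ : Fin r)))]
      refine le_mul_of_one_le_right (le_trans zero_le_one (hf1' _ _)) ?_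
      exact le_trans (by simp) (prod_le_prod (f := fun _ => (1 : ℝ)) (fun _ _ => zero_le_one)
        fun x _ => hf1' _ _)
    have h5 : (A : ℝ) ^ 2 ≤ (hz m (Mb false) (A + 0)).norm := by
      rw [nz_EGRLift]
      have h6 : A ^ 2 ≤ 1 + m * (Mb false * (A + 0)) ^ 2 := by
        have h7 : A ≤ Mb false * (A + 0) := Nat.le_mul_of_pos_left _ (hM false).1
        have h8 := Nat.pow_le_pow_left h7 2
        have h9 := Nat.le_mul_of_pos_left ((Mb false * (A + 0)) ^ 2) hm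
        omega
      exact_mod_cast h6
    have h6 : (100 * (QQ m Y : ℝ) * p * H) ^ 2 ≤ (A : ℝ) ^ 2 := by gcongr
    rw [hNN]
    exact (h6.trans (h5.trans h4)).trans
      (le_mul_of_one_le_left (le_trans zero_le_one ((hf1' _ _).trans h4)) hG1')
  have hQ1 : (1 : ℝ) ≤ QQ m Y := by exact_mod_cast QQ_pos m Y
  have hp1 : (1 : ℝ) ≤ p := by exact_mod_cast (by omega : 1 ≤ p)
  have hN0 : 0 < NN0 := lt_of_lt_of_le (by positivity) hbig
  have hQs : (QQ m Y : ℝ) ≤ p * Real.sqrt NN0 := by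
    have h4 := Real.le_sqrt_of_sq_le hbig
    have h5 : (QQ m Y : ℝ) ≤ 100 * (QQ m Y : ℝ) * p * H := by
      calc (QQ m Y : ℝ) = 1 * (QQ m Y : ℝ) * 1 * 1 := by ring
        _ ≤ 100 * (QQ m Y : ℝ) * p * H := by gcongr; norm_num
    exact (h5.trans h4).trans (le_mul_of_one_le_left (Real.sqrt_nonneg _) hp1)
  obtain ⟨Mg, hMg⟩ : ∃ Mg : ℕ, Mg = QQ m Y * (⌊8 * p * Real.sqrt NN0 / QQ m Y⌋₊ + 1) := ⟨_, rfl⟩
  have hMg1 : 8 * p * Real.sqrt NN0 ≤ Mg := by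
    have h4 := (Nat.lt_floor_add_one (8 * p * Real.sqrt NN0 / QQ m Y)).le
    rw [div_le_iff₀ (by linarith)] at h4
    rw [hMg]; push_cast; linarith
  have hMg2 : (Mg : ℝ) ≤ 9 * p * Real.sqrt NN0 := by
    have h4 := Nat.floor_le (a := 8 * p * Real.sqrt NN0 / QQ m Y) (by positivity)
    rw [le_div_iff₀ (by linarith)] at h4
    rw [hMg]; push_cast; linarith
  have hE := hensel_err m p Y r A len Mg H NN0 Γ hm (by omega) hN0 hH1 h0 hl1 b2 hMg2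
    fun t => by rw [hnorm]; exact hup t
  obtain ⟨t, t1, t2, t3, -⟩ := stage (I := Bool × Fin r) Y len w
    (fun x t => (hz m (Mb x.1) (A + t)).norm) Γ.norm (10 ^ 8 / (p : ℝ) ^ 9)
    (fun t => 10 * ∑ n ∈ (grid Mg).filter
      (fun n => ∃ (β : O m) (d : ℕ), Near m (gp m Mg n) β d H NN0 ∧ Deep Y (QQ m Y) d),
      ‖FI Γ (fun i => hz m (M1 m Y) (A + t (false, i))) (fun i => hz m (M2 m Y) (A + t (true, i)))
          (gp m Mg n)‖ *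
        ‖FII Γ (fun i => hz m (M1 m Y) (A + t (false, i))) (fun i => hz m (M2 m Y) (A + t (true, i)))
          (gp m Mg n)‖) (by omega) hl1 hlen
    (fun x t ht => ⟨by have := hf1 (Mb x.1) (A + t); omega, by
      rw [abs_of_nonneg (norm_nonneg' _), nz_EGRLift]
      exact_mod_cast hval _ _ (hM x.1).2.1 ht⟩)
    (fun x => by
      have h4 := roots_norm (m := m) Y len ⟨1, Mb x.1 * A⟩ ⟨0, Mb x.1⟩ (fun l hl hY h => by
        rw [norm_eq] at h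
        have h5 : l ∣ m * Mb x.1 ^ 2 := by
          have : ((l : ℕ) : ℤ) ∣ ((m * Mb x.1 ^ 2 : ℕ) : ℤ) := by simpa using h
          exact_mod_cast this
        rcases (Nat.Prime.dvd_mul hl).1 h5 with h6 | h6
        · exact absurd (hsm l hl h6) (by omega)
        · exact absurd ((hM x.1).2.2.1 l hl (hl.dvd_of_dvd_pow h6)) (by omega))
      have h5 : ∀ t : ℕ, (⟨1, Mb x.1 * A⟩ + (t : O m) * ⟨0, Mb x.1⟩ : O m) = hz m (Mb x.1) (A + t) := by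
        intro t
        ext <;> simp [hz]
        ring
      simpa only [h5] using h4)
    (by omega) h3 (by rw [hcard]; exact hI)
    (fun t => mul_nonneg (by norm_num) (sum_nonneg fun n _ => by positivity))
    (by rw [← mul_expect]; linarith)
  have hdv : (M1 m Y : O m) ∣ (base (fun i => hz m (M1 m Y) (A + t (false, i))) *
      base fun i => hz m (M2 m Y) (A + t (true, i))) - 1 := by
    have key : ∀ b s, (M1 m Y : O m) ∣ hz m (Mb b) s - 1 := fun b s => by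
      rw [nat_dvd_iff]
      refine ⟨by simp [hz], ?_⟩
      have : (M1 m Y : ℤ) ∣ (Mb b : ℤ) := by exact_mod_cast (hM b).2.2.2
      simpa [hz] using this.mul_right _
    have h4 := dvd_base_sub_one (fun i => hz m (M1 m Y) (A + t (false, i))) (M1 m Y)
      fun i => by have := key false (A + t (false, i)); rwa [hMf] at this
    have h5 := dvd_base_sub_one (fun i => hz m (M2 m Y) (A + t (true, i))) (M1 m Y)
      fun i => by have := key true (A + t (true, i)); rwa [hMt] at this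
    have h6 : ∀ a b : O m, a * b - 1 = (a - 1) * b + (b - 1) := fun a b => by ring
    rw [h6]
    exact (h4.mul_right _).add h5
  have hmu : ∀ b s, mu m ∣ hz m (Mb b) s - star (hz m (Mb b) s) := fun b s => by
    rw [mu_dvd_iff]
    refine ⟨by simp [hz], ?_⟩
    have h4 : m ∣ Mb b := (show m ∣ M1 m Y from dvd_mul_left _ _).trans (hM b).2.2.2
    have h5 : (m : ℤ) ∣ (Mb b : ℤ) * s := Dvd.dvd.mul_right (by exact_mod_cast h4) _
    simpa [hz] using h5.add h5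
  refine ⟨fun i => hz m (M1 m Y) (A + t (false, i)), fun i => hz m (M2 m Y) (A + t (true, i)), NN0, Mg,
    ?_, by rw [hnorm]; exact hlo t, by rw [hnorm]; exact hup t, hdv, ?_, fun i => hMf ▸ hmu false _,
    fun i => hMt ▸ hmu true _, hMg ▸ dvd_mul_right _ _, hMg1, hMg2, hbig, by linarith⟩
  · refine coprime_star (Y := Y) (by omega) hsm ?_ ?_
    · rw [hnorm]
      refine h1.mul (Prim.prod _ _ (fun x _ => Prim.conj fun l hl _ h => ?_) fun x _ y _ h => ?_) ?_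
      · have h4 := ((nat_dvd_iff l _).1 h).1
        have h5 : l ∣ 1 := by
          have : (l : ℤ) ∣ ((1 : ℕ) : ℤ) := by simpa [hz] using h4
          exact_mod_cast this
        exact hl.one_lt.ne' (Nat.dvd_one.1 h5)
      · simpa only [Zsqrtd.norm_conj] using t3 x y h
      · rw [hnorm2]
        exact (Cop.prod_left _ _ _ fun x _ => (t2 x).symm).symm
    · rw [Zsqrtd.norm_mul]
      exact h2.mul (pure_of_one hdv)
  · rw [hnorm, hnorm2]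
    have h4 : ∏ x : Bool × Fin r, (hz m (Mb x.1) (A + t x)).norm ≤
        ∏ _x : Bool × Fin r, ((2 ^ w : ℕ) : ℤ) :=
      prod_le_prod (fun x _ => norm_nonneg' _) fun x _ => by
        rw [nz_EGRLift]; exact_mod_cast hval _ _ (hM x.1).2.1 (t x).2
    rw [prod_const, card_univ, hcard] at h4
    exact h4.trans (by exact_mod_cast hw)

end Pool.Agent.P.MP_b75a1e_co.EG
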