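import Pool.Agent.P.MP_b75a1e_co.EGMExp
import Pool.Agent.P.MP_b75a1e_co.EGStage

set_option autoImplicit false

open Finset
open scoped BigOperators ComplexConjugate

namespace Pool.Agent.P.MP_b75a1e_co.EG

lemma block_eq_EGRMid {m r : ℕ} (z : Fin 3 → Fin r → O m) :
    blockB z = ∏ j : Fin 3 × Fin r, star (z j.1 j.2) := by
  rw [Fintype.prod_prod_type, Fin.prod_univ_three]
  rfl

lemma midC_eq_EGRMid {m r : ℕ} (Z : (Fin 100 × Fin 300) × Fin 3 × Fin r → O m) :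
    midC (fun b a i => Z (b, a, i)) = ∏ j, star (Z j) := by
  rw [Fintype.prod_prod_type]
  exact prod_congr rfl fun b _ => block_eq_EGRMid _

lemma mz_add_EGRMid (m M A t : ℕ) : mz m M (A + t) = mz m M A + (t : O m) * (M : O m) := by
  ext <;> simp [mz]
  ring

lemma mz_prim_EGRMid {m M Y : ℕ} (hM : Smo Y M) (t : ℕ) : Prim Y (mz m M t) := by
  intro l hl hY h
  have h2 : (l : ℤ) ∣ (M : ℤ) := ((nat_dvd_iff l _).1 h).2
  exact absurd (hM l hl (Int.natCast_dvd_natCast.1 h2)) (not_le.2 hY)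

lemma mz_one_EGRMid {m M n : ℕ} (h : n ∣ M) (t : ℕ) : (n : O m) ∣ star (mz m M t) - 1 := by
  have h' : (n : ℤ) ∣ (M : ℤ) := Int.natCast_dvd_natCast.2 h
  refine (nat_dvd_iff n _).2 ⟨?_, ?_⟩
  · simpa [mz] using h'.mul_right _
  · simpa [mz] using h'

lemma exps_EGRMid {p : ℕ} (hp : 10 ^ 20 ≤ p) :
    9 + 2 * p ^ 15 + 2 * p ≤ p ^ 16 ∧ 2 * p ^ 16 + 5 ≤ p ^ 18 ∧ 34 * p ≤ p ^ 7 ∧
      8 * p ^ 5 ≤ p ^ 6 ∧ p ^ 5 ≤ p ^ 7 ∧ 3 * p ^ 18 * (90000 * p ^ 6) ≤ p ^ 25 ∧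
      7 * p + 2 + p ^ 17 ≤ p ^ 18 ∧ p ≤ p ^ 16 := by
  have h1 : 1 ≤ p := by omega
  have a : ∀ i j : ℕ, i ≤ j → p ^ i ≤ p ^ j := fun i j h => Nat.pow_le_pow_right h1 h
  have b : ∀ i : ℕ, 10 ^ 20 * p ^ i ≤ p ^ (i + 1) := fun i => by
    rw [pow_succ p i, mul_comm (p ^ i)]
    exact Nat.mul_le_mul_right _ hp
  have e1 : p ^ 1 = p := pow_one p
  have e2 : 3 * p ^ 18 * (90000 * p ^ 6) = 270000 * p ^ 24 := by ring
  have := a 1 15 (by norm_num)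
  have := a 1 6 (by norm_num)
  have := a 1 17 (by norm_num)
  have := a 16 17 (by norm_num)
  have := a 5 7 (by norm_num)
  have := a 15 16 (by norm_num)
  have := b 15
  have := b 17
  have := b 6
  have := b 5
  have := b 24
  norm_num at *
  omega

lemma M2_le_EGRMid {m p : ℕ} (hmp : m ≤ 4 ^ p) (hp : 10 ^ 20 ≤ p) : M2 m (p ^ 15) ≤ 2 ^ p ^ 16 := by
  have h4 : ∀ n : ℕ, 4 ^ n = 2 ^ (2 * n) := fun n => by rw [pow_mul]; rfl
  calc M2 m (p ^ 15) ≤ 432 * 4 ^ p ^ 15 * m := M2_le _ _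
    _ ≤ 2 ^ 9 * 4 ^ p ^ 15 * 4 ^ p := by gcongr; norm_num
    _ = 2 ^ (9 + 2 * p ^ 15 + 2 * p) := by rw [h4, h4, pow_add, pow_add]
    _ ≤ 2 ^ p ^ 16 := Nat.pow_le_pow_right (by norm_num) (exps_EGRMid hp).1

lemma mz_norm_EGRMid {m M A t a b : ℕ} (hM1 : 1 ≤ M) (hM : M ≤ 2 ^ a) (hm : m ≤ 2 ^ (2 * b))
    (hA : A = 2 ^ b) (ht : t ≤ A) :
    (mz m M (A + t)).norm ≠ 0 ∧ |(mz m M (A + t)).norm| ≤ 2 ^ (2 * a + 5 + 2 * b) := by
  have e : (mz m M (A + t)).norm = (((1 + M * (A + t)) ^ 2 + m * M ^ 2 : ℕ) : ℤ) := by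
    rw [norm_eq]
    simp [mz]
  have h1 : 1 ≤ A := hA ▸ Nat.one_le_two_pow
  have h2 : 1 + M * (A + t) ≤ 3 * (M * A) := by nlinarith
  have h3 : m * M ^ 2 ≤ (M * A) ^ 2 := by
    rw [mul_pow, hA, ← pow_mul, mul_comm b 2, mul_comm]
    exact Nat.mul_le_mul_left _ hm
  have h4 : M * A ≤ 2 ^ (a + b) := by
    rw [pow_add, hA]
    exact Nat.mul_le_mul_right _ hM
  have h5 : (1 + M * (A + t)) ^ 2 + m * M ^ 2 ≤ 2 ^ (2 * a + 5 + 2 * b) :=
    calc (1 + M * (A + t)) ^ 2 + m * M ^ 2 ≤ (3 * (M * A)) ^ 2 + (M * A) ^ 2 := by gcongr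
      _ = 10 * (M * A) ^ 2 := by ring
      _ ≤ 2 ^ 5 * (2 ^ (a + b)) ^ 2 := by gcongr; norm_num
      _ = 2 ^ (2 * a + 5 + 2 * b) := by ring
  rw [e, Nat.abs_cast]
  exact ⟨Nat.cast_ne_zero.2 (by positivity), by exact_mod_cast h5⟩

lemma mz_close_EGRMid {m M A t c : ℕ} {K : ℝ} (hm : m ≤ c ^ 2) (hK : 0 < K)
    (hA : 2 * c * K ≤ A) :
    ‖ph m (mz m M (A + t) - star (mz m M (A + t)))‖ ≤ 1 / K * ‖ph m (mz m M (A + t))‖ := by
  have h1 : ‖ph m (mz m M (A + t) - star (mz m M (A + t)))‖ ≤ 2 * c * M := by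
    refine (sq_le_sq₀ (norm_nonneg _) (by positivity)).1 ?_
    rw [norm_sq_ph, norm_eq]
    have hm' : (m : ℝ) ≤ (c : ℝ) ^ 2 := by exact_mod_cast hm
    have := mul_le_mul_of_nonneg_right hm' (sq_nonneg (2 * (M : ℝ)))
    simp [mz]
    nlinarith
  have h2 : (M : ℝ) * A ≤ ‖ph m (mz m M (A + t))‖ := by
    refine le_trans (le_trans ?_ (le_abs_self _)) (abs_re_le _)
    have : (0 : ℝ) ≤ M * t := by positivity
    simp only [mz]
    push_cast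
    linarith
  rw [one_div, ← div_eq_inv_mul, le_div_iff₀ hK]
  have h3 := mul_le_mul_of_nonneg_right h1 hK.le
  have h4 := mul_le_mul_of_nonneg_left hA (Nat.cast_nonneg (α := ℝ) M)
  linarith

open Classical in
/-- The choice of the middle coordinates. -/
theorem random_mid (m p : ℕ) (hm : 1 ≤ m) (hmax : ∀ q, q.Prime → q ∣ m → q ≤ p) (hmp : m ≤ 4 ^ p)
    (hp : 10 ^ 20 ≤ p) (H : ℝ) (hH : H ≤ 2 ^ p ^ 5) (Γ : O m) (h1 : Prim (p ^ 15) Γ)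
    (h2 : Pure (p ^ 15) Γ.norm) (h3 : wt (p ^ 15) (2 ^ p ^ 7) Γ.norm ≤ 1 / (p : ℝ) ^ 12) :
    ∃ z : Fin 100 × Fin 300 → Fin 3 → Fin (p ^ 6) → O m,
      Prim (p ^ 15) (Γ * midC z) ∧ Pure (p ^ 15) (Γ * midC z).norm ∧
      wt (p ^ 15) (2 ^ p ^ 7) (Γ * midC z).norm ≤ 10 ^ 8 / (p : ℝ) ^ 9 ∧
      (M1 m (p ^ 15) : O m) ∣ midC z - 1 ∧ (midC z).norm ≤ 2 ^ p ^ 25 ∧
      (∀ b a i, (QQ m (p ^ 15) : O m) * mu m ∣ z b a i - star (z b a i) ∧
        ‖ph m (z b a i - star (z b a i))‖ ≤ 1 / (2 * (p : ℝ) ^ 6 * 2 ^ p ^ 17) * ‖ph m (z b a i)‖) ∧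
      (∀ b b', b ≠ b' → Cop (p ^ 15) (blockB (z b)).norm (blockB (z b')).norm) ∧
      ∑ d ∈ (Icc 2 ⌊H⌋₊).filter (Rough (p ^ 15)), (d : ℝ) ^ 2 * WW z d ≤ 1 / 100 := by
  obtain ⟨-, x2, x3, x4, x5, x6, x7, x8⟩ := exps_EGRMid hp
  have hp1 : 1 ≤ p := by omega
  have hpY : p ≤ p ^ 15 := Nat.le_self_pow (by norm_num) p
  have hY : 10 ^ 200 ≤ p ^ 15 :=
    le_trans (by norm_num) (Nat.pow_le_pow_left hp 15)
  have hsm : Smo (p ^ 15) m := fun l hl h => (hmax l hl h).trans hpY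
  have hsM : Smo (p ^ 15) (M2 m (p ^ 15)) := smo_M2 (by omega) hsm
  have hM := M2_le_EGRMid hmp hp
  have hM1 := M2_pos hm (p ^ 15)
  have hdv : M1 m (p ^ 15) ∣ M2 m (p ^ 15) := M2_eq m _ ▸ Dvd.intro_left _ rfl
  have hQ := QQ_mul m (p ^ 15)
  generalize M2 m (p ^ 15) = M at hsM hM hM1 hdv hQ
  have two : ∀ {a b : ℕ}, a ≤ b → 2 ^ a ≤ 2 ^ b := fun h => Nat.pow_le_pow_right (by norm_num) h
  have hp2 : p ≤ 2 ^ p := Nat.lt_two_pow_self.le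
  have hm4 : m ≤ 2 ^ (2 * p) := by rwa [pow_mul]
  have hP : (10 : ℝ) ^ 20 ≤ p := by exact_mod_cast hp
  have hP0 : (0 : ℝ) < p := lt_of_lt_of_le (by norm_num) hP
  have hP3 : (10 : ℝ) ^ 20 ≤ (p : ℝ) ^ 3 := hP.trans (le_self_pow₀ (by linarith) (by norm_num))
  have hP6 : (10 : ℝ) ^ 20 ≤ (p : ℝ) ^ 6 := hP.trans (le_self_pow₀ (by linarith) (by norm_num))
  have hP15 : (10 : ℝ) ^ 20 ≤ (p : ℝ) ^ 15 := hP.trans (le_self_pow₀ (by linarith) (by norm_num))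
  have hc : (Fintype.card ((Fin 100 × Fin 300) × Fin 3 × Fin (p ^ 6)) : ℝ) = 90000 * (p : ℝ) ^ 6 := by
    simp only [Fintype.card_prod, Fintype.card_fin]
    push_cast
    ring
  have hf : ∀ t < 2 ^ p ^ 7, (mz m M (2 ^ p ^ 18 + t)).norm ≠ 0 ∧
      |(mz m M (2 ^ p ^ 18 + t)).norm| ≤ 2 ^ (3 * p ^ 18) := by
    intro t ht
    obtain ⟨a1, a2⟩ := mz_norm_EGRMid (m := m) (b := p ^ 18) (t := t) hM1 hM
      (hm4.trans (two (by omega))) rfl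
      (ht.le.trans (two (Nat.pow_le_pow_right hp1 (by norm_num))))
    exact ⟨a1, a2.trans (pow_le_pow_right₀ (by norm_num) (by omega))⟩
  have hE := mid_exp m (p ^ 15) M (2 ^ p ^ 18) (2 ^ p ^ 7) (p ^ 6) H hY
    (fun l hl h => by
      rcases (Nat.Prime.dvd_mul hl).1 h with h | h
      · rcases (Nat.Prime.dvd_mul hl).1 h with h | h
        · exact (Nat.le_of_dvd two_pos h).trans (by omega)
        · exact hsm l hl h
      · exact hsM l hl h) Nat.one_le_two_pow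
    (by
      push_cast
      exact hH.trans (pow_le_pow_right₀ (by norm_num) x5))
    (calc H ^ 3 ≤ (2 ^ p ^ 5) ^ 3 := (by decide : Odd 3).pow_le_pow.2 hH
      _ = (2 ^ 3) ^ p ^ 5 := by rw [← pow_mul, ← pow_mul, mul_comm]
      _ ≤ ((4 / 3 : ℝ) ^ 8) ^ p ^ 5 := pow_le_pow_left₀ (by norm_num) (by norm_num) _
      _ ≤ (4 / 3 : ℝ) ^ p ^ 6 := by
        rw [← pow_mul]
        exact pow_le_pow_right₀ (by norm_num) x4)
  obtain ⟨t, t1, t2, t3, t4⟩ := stage (I := (Fin 100 × Fin 300) × Fin 3 × Fin (p ^ 6)) (p ^ 15)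
    (2 ^ p ^ 7) (3 * p ^ 18) (fun _ t => (mz m M (2 ^ p ^ 18 + t)).norm) Γ.norm (1 / (p : ℝ) ^ 12)
    (fun t => 100 * ∑ d ∈ (Icc 2 ⌊H⌋₊).filter (Rough (p ^ 15)),
      (d : ℝ) ^ 2 * WW (fun b a i => mz m M (2 ^ p ^ 18 + t (b, a, i))) d)
    (by omega) Nat.one_le_two_pow
    (calc p ^ 15 * (3 * p ^ 18) = 3 * p ^ 33 := by ring
      _ ≤ p * p ^ 33 := Nat.mul_le_mul_right _ (by omega)
      _ = p ^ 34 := by ring
      _ ≤ (2 ^ p) ^ 34 := Nat.pow_le_pow_left hp2 _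
      _ = 2 ^ (34 * p) := by rw [← pow_mul, mul_comm]
      _ ≤ 2 ^ p ^ 7 := two x3)
    (fun _ => hf)
    (fun _ => by
      simp only [mz_add_EGRMid]
      refine roots_norm _ _ _ _ fun l hl hl' h => ?_
      rw [Zsqrtd.norm_natCast] at h
      have h' : l ∣ M * M := by exact_mod_cast h
      exact absurd (hsM l hl (((Nat.Prime.dvd_mul hl).1 h').elim id id)) (not_le.2 hl'))
    (fun h => h2 2 Nat.prime_two (by omega) (h ▸ dvd_zero _)) h3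
    (by
      rw [hc]
      push_cast
      have e1 : 2 * (90000 * (p : ℝ) ^ 6) * (1 / (p : ℝ) ^ 12) = 180000 / (p : ℝ) ^ 6 := by
        field_simp
        ring
      have e2 : 20 * (90000 * (p : ℝ) ^ 6) ^ 2 / (p : ℝ) ^ 15 = 162000000000 / (p : ℝ) ^ 3 := by
        field_simp
        ring
      have a1 : 180000 / (p : ℝ) ^ 6 ≤ 1 / 4 := by
        rw [div_le_iff₀ (by positivity)]
        linarith
      have a2 : 162000000000 / (p : ℝ) ^ 3 ≤ 1 / 4 := by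
        rw [div_le_iff₀ (by positivity)]
        linarith
      rw [e1, e2]
      linarith)
    (fun t => mul_nonneg (by norm_num)
      (sum_nonneg fun d _ => mul_nonneg (sq_nonneg _) (WW_nonneg _ _)))
    (by
      rw [← mul_expect]
      have a1 : 2 / ((p ^ 15 : ℕ) : ℝ) ≤ 1 / 400 := by
        push_cast
        rw [div_le_iff₀ (by positivity)]
        linarith
      linarith)
  generalize hZ : (fun j => mz m M (2 ^ p ^ 18 + t j)) = Z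
  have hZ' : ∀ j, mz m M (2 ^ p ^ 18 + t j) = Z j := fun j => congrFun hZ j
  have hn : (midC fun b a i => Z (b, a, i)).norm = ∏ j, (Z j).norm := by
    rw [midC_eq_EGRMid, norm_prod']
    simp only [Zsqrtd.norm_conj]
  have hone : (M1 m (p ^ 15) : O m) ∣ midC (fun b a i => Z (b, a, i)) - 1 := by
    rw [midC_eq_EGRMid]
    refine prod_induction _ (fun x => (M1 m (p ^ 15) : O m) ∣ x - 1) (fun x y hx hy => ?_)
      (by simp) fun j _ => hZ' j ▸ mz_one_EGRMid hdv _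
    have e : x * y - 1 = (x - 1) * y + (y - 1) := by ring
    rw [e]
    exact (hx.mul_right y).add hy
  simp only [hZ'] at t1 t2 t3 t4
  refine ⟨fun b a i => Z (b, a, i), Prim.mul h1 ?_ ?_, ?_, ?_, hone, ?_, fun b a i => ⟨?_, ?_⟩,
    fun b b' hb => ?_, by linarith⟩
  · rw [midC_eq_EGRMid]
    refine Prim.prod _ _ (fun j _ => Prim.conj (hZ' j ▸ mz_prim_EGRMid hsM _)) fun i _ k _ h => ?_
    simpa only [Zsqrtd.norm_conj] using t3 i k h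
  · rw [hn]
    exact (Cop.prod_left _ _ _ fun j _ => (t2 j).symm).symm
  · rw [Zsqrtd.norm_mul]
    exact h2.mul (pure_of_one hone)
  · rw [Zsqrtd.norm_mul, hn]
    have a1 := wt_mul (p ^ 15) (2 ^ p ^ 7) Γ.norm (∏ j, (Z j).norm)
    have a2 := wt_prod (p ^ 15) (2 ^ p ^ 7) univ fun j => (Z j).norm
    rw [hc] at t4
    push_cast at t4
    have e1 : 100 * (90000 * (p : ℝ) ^ 6) / (p : ℝ) ^ 15 = 9000000 / (p : ℝ) ^ 9 := by
      field_simp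
      ring
    have a3 : 1 / (p : ℝ) ^ 12 ≤ 1 / (p : ℝ) ^ 9 :=
      one_div_le_one_div_of_le (by positivity) (pow_le_pow_right₀ (by linarith) (by norm_num))
    have a4 : 0 ≤ 1 / (p : ℝ) ^ 9 := by positivity
    have e2 : 9000000 / (p : ℝ) ^ 9 = 9000000 * (1 / (p : ℝ) ^ 9) := by ring
    have e3 : 10 ^ 8 / (p : ℝ) ^ 9 = 100000000 * (1 / (p : ℝ) ^ 9) := by ring
    rw [e1, e2] at t4
    rw [e3]
    linarith
  · rw [hn]
    calc ∏ j, (Z j).norm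
        ≤ ∏ _j : (Fin 100 × Fin 300) × Fin 3 × Fin (p ^ 6), (2 : ℤ) ^ (3 * p ^ 18) :=
          prod_le_prod (fun j _ => norm_nonneg' _) fun j _ =>
            hZ' j ▸ (le_abs_self _).trans (hf _ (t j).2).2
      _ = 2 ^ (3 * p ^ 18 * (90000 * p ^ 6)) := by
          rw [prod_const, card_univ, ← pow_mul]
          simp only [Fintype.card_prod, Fintype.card_fin]
          rw [show 100 * 300 * (3 * p ^ 6) = 90000 * p ^ 6 by ring]
      _ ≤ 2 ^ p ^ 25 := pow_le_pow_right₀ (by norm_num) x6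
  · have hQ' : (QQ m (p ^ 15) : ℤ) * m = 2 * M := by exact_mod_cast hQ
    refine Dvd.intro 1 ?_
    beta_reduce
    rw [← hZ']
    ext <;> simp [mz, mu]
    linarith
  · beta_reduce
    rw [← hZ']
    refine mz_close_EGRMid (c := 2 ^ p) (by rwa [← pow_mul, mul_comm]) (by positivity) ?_
    have a1 : 2 * 2 ^ p * (2 * p ^ 6 * 2 ^ p ^ 17) ≤ 2 ^ p ^ 18 :=
      calc 2 * 2 ^ p * (2 * p ^ 6 * 2 ^ p ^ 17) ≤ 2 * 2 ^ p * (2 * (2 ^ p) ^ 6 * 2 ^ p ^ 17) := by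
            gcongr
        _ = 2 ^ (7 * p + 2 + p ^ 17) := by ring
        _ ≤ 2 ^ p ^ 18 := two x7
    exact_mod_cast a1
  · simp only [block_eq_EGRMid, norm_prod', Zsqrtd.norm_conj]
    exact Cop.prod_left _ _ _ fun j _ => (Cop.prod_left _ _ _ fun j' _ =>
      t3 (b', j') (b, j) fun e => hb (congrArg Prod.fst e).symm).symm

end Pool.Agent.P.MP_b75a1e_co.EG
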