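import Mathlib

set_option autoImplicit false

open Finset
open scoped BigOperators ComplexConjugate

namespace Pool.Agent.P.MP_b75a1e_co.EG

/-- The order generated by a square root of `-m`. -/
abbrev O (m : ℕ) : Type := Zsqrtd (-(m : ℤ))

/-- The square root of `-m`. -/
def rt (m : ℕ) : O m := ⟨0, 1⟩

/-- The embedding into the complex numbers. -/
noncomputable def ph (m : ℕ) : O m →+* ℂ :=
  Zsqrtd.lift ⟨(Real.sqrt m : ℂ) * Complex.I, by
    have h : (Real.sqrt m : ℂ) * (Real.sqrt m : ℂ) = (m : ℂ) := by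
      exact_mod_cast Real.mul_self_sqrt (Nat.cast_nonneg (α := ℝ) m)
    have h2 := Complex.I_mul_I
    push_cast
    linear_combination (Complex.I * Complex.I) * h + (m : ℂ) * h2⟩

/-- The element `m * rt m`. -/
def mu (m : ℕ) : O m := ⟨0, m⟩

/-- Division by `mu m` (exact when `mu m` divides). -/
def dv {m : ℕ} (y : O m) : O m := ⟨y.im / m, -(y.re / (m : ℤ) ^ 2)⟩

/-- The additive character. -/
noncomputable def ee (t : ℝ) : ℂ := Complex.exp (2 * Real.pi * t * Complex.I)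

/-- The pairing: the second coordinate of the product. -/
noncomputable def pr (m : ℕ) (θ z : ℂ) : ℝ := (θ * z).im / Real.sqrt m

/-- Characteristic function of a uniformly sampled lattice point. -/
noncomputable def ch {m : ℕ} {Ω : Type} [Fintype Ω] (X : Ω → O m) (θ : ℂ) : ℂ :=
  𝔼 ω, ee (pr m θ (ph m (X ω)))

/-- `θ` has a good rational approximation. -/
def Low (m : ℕ) (θ : ℂ) (H X : ℝ) : Prop :=
  ∃ w a : O m, w ≠ 0 ∧ (w.norm : ℝ) ≤ H ∧ ‖θ * ph m w - ph m a‖ ^ 2 * X ≤ H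

/-- No prime factor of `d` divides `β`. -/
def PrimAt {m : ℕ} (β : O m) (d : ℕ) : Prop := ∀ l : ℕ, l.Prime → l ∣ d → ¬ (l : O m) ∣ β

/-- `θ` is close to the reduced fraction `β / d`. -/
def Near (m : ℕ) (θ : ℂ) (β : O m) (d : ℕ) (H X : ℝ) : Prop :=
  1 ≤ d ∧ (d : ℝ) ≤ H ∧ PrimAt β d ∧ ‖θ - ph m β / d‖ ^ 2 * X ≤ H

/-- Index set of the grid. -/
noncomputable def grid (Mg : ℕ) : Finset (ℤ × ℤ) := Ico (0 : ℤ) Mg ×ˢ Ico (0 : ℤ) Mg

/-- Grid point. -/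
noncomputable def gp (m Mg : ℕ) (n : ℤ × ℤ) : ℂ := ph m ⟨n.1, n.2⟩ / Mg

/-- Some prime `l ≤ Y` divides `d` more often than it divides `Q`. -/
def Deep (Y Q d : ℕ) : Prop := ∃ l j : ℕ, l.Prime ∧ l ≤ Y ∧ l ^ j ∣ d ∧ ¬ l ^ j ∣ Q

/-- All prime factors exceed `Y`. -/
def Rough (Y d : ℕ) : Prop := ∀ l : ℕ, l.Prime → l ∣ d → Y < l

/-- All prime factors are at most `Y`. -/
def Smo (Y d : ℕ) : Prop := ∀ l : ℕ, l.Prime → l ∣ d → l ≤ Y

/-- No prime `l ≤ Y` divides `a`. -/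
def Pure (Y : ℕ) (a : ℤ) : Prop := ∀ l : ℕ, l.Prime → l ≤ Y → ¬ (l : ℤ) ∣ a

/-- No common prime factor above `Y`. -/
def Cop (Y : ℕ) (a b : ℤ) : Prop := ∀ l : ℕ, l.Prime → Y < l → (l : ℤ) ∣ a → ¬ (l : ℤ) ∣ b

/-- No prime above `Y` divides `x`. -/
def Prim {m : ℕ} (Y : ℕ) (x : O m) : Prop := ∀ l : ℕ, l.Prime → Y < l → ¬ (l : O m) ∣ x

/-- Weight of the large prime factors. -/
noncomputable def wt (Y len : ℕ) (a : ℤ) : ℝ :=
  ∑ l ∈ a.natAbs.primeFactors.filter (fun l => Y < l), ((1 : ℝ) / l + 1 / len)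

/-- Each large prime divides few values. -/
def Roots (Y len : ℕ) (f : ℕ → ℤ) : Prop :=
  ∀ l : ℕ, l.Prime → Y < l → ((range len).filter fun t => (l : ℤ) ∣ f t).card ≤ 2 * (len / l + 1)

/-- `y` is a sum of `k` elements of norm `n`. -/
def SumOf {m : ℕ} (n : ℤ) (k : ℕ) (y : O m) : Prop :=
  ∃ L : Multiset (O m), Multiset.card L = k ∧ (∀ a ∈ L, a.norm = n) ∧ L.sum = y

/-- `y` is a sum of `k` elements with the norm of `e` and congruent to `e` modulo `m ^ 2`. -/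
def SumRes {m : ℕ} (e : O m) (k : ℕ) (y : O m) : Prop :=
  ∃ L : Multiset (O m), Multiset.card L = k ∧
    (∀ a ∈ L, a.norm = e.norm ∧ (m : O m) ^ 2 ∣ a - e) ∧ L.sum = y

/-- `y` is a sum of `k` field elements of squared length `N`. -/
def Rep (m : ℕ) (N : ℝ) (k : ℕ) (y : ℂ) : Prop :=
  ∃ L : Multiset ℂ, Multiset.card L = k ∧
    (∀ a ∈ L, (∃ (x : O m) (n : ℕ), n ≠ 0 ∧ a = ph m x / n) ∧ ‖a‖ ^ 2 = N) ∧ L.sum = y

/-- A prime that splits. -/
def Split (m l : ℕ) : Prop := l.Prime ∧ ¬ l ∣ 2 * m ∧ ∃ r : ℤ, (l : ℤ) ∣ r ^ 2 + m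

/-- Elements of one squarefree norm in one rational class modulo `m ^ 2`. -/
structure Box (m : ℕ) (D : Finset ℕ) (ρ : ℤ) (V : Finset (O m)) : Prop where
  nrm : ∀ x ∈ V, x.norm = ∏ l ∈ D, (l : ℤ)
  res : ∀ x ∈ V, (m : O m) ^ 2 ∣ x - (ρ : O m)

/-- A state of the tower. -/
structure St (m : ℕ) where
  D : Finset ℕ
  ρ : ℤ
  V : Finset (O m)
  e : O m
  U : ℕ → Finset (O m)

/-- The invariants of the tower after `i` steps. -/
structure St.Ok {m : ℕ} (S : St m) (PP : Finset ℕ) (k i : ℕ) : Prop where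
  sub : S.D ⊆ PP
  box : Box m S.D S.ρ S.V
  big : 2 ^ (999 * S.D.card) ≤ S.V.card ^ 1000
  mem : S.e ∈ S.V
  sum : ∀ j, ∀ u ∈ S.U j, SumRes S.e j u
  crd : ∀ j ≤ i, (2 : ℝ) ^ ((998 / 1000 : ℝ) * k * S.D.card * (1 - ((k : ℝ) / (k + 1)) ^ j) - 2 * j)
    ≤ (S.U j).card

/-- A vertex of the cube spanned by the coordinates `z`. -/
def cube {m r : ℕ} (z : Fin r → O m) (ε : Fin r → Bool) : O m :=
  ∏ i, if ε i then z i else star (z i)

/-- The base vertex of the cube. -/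
def base {m r : ℕ} (z : Fin r → O m) : O m := cube z fun _ => false

/-- The bilinear block. -/
noncomputable def blk {m : ℕ} (U : Finset (O m)) (g : O m) (θ : ℂ) : ℂ :=
  ch (fun q : U × U => (q.1 : O m) * (q.2 : O m)) (θ / ph m (mu m) * ph m g)

/-- The special factor at `2` and `3`. -/
def cc (m : ℕ) : ℕ := if 3 ∣ m then 2 else 6

/-- Product of the unramified primes in `[5, Y]`. -/
def Q1 (m Y : ℕ) : ℕ := ∏ l ∈ (range (Y + 1)).filter (fun l => l.Prime ∧ 5 ≤ l ∧ ¬ l ∣ m), l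

def M1 (m Y : ℕ) : ℕ := cc m ^ 2 * Q1 m Y * m

def M2 (m Y : ℕ) : ℕ := 2 * cc m ^ 3 * Q1 m Y * m

def QQ (m Y : ℕ) : ℕ := 4 * cc m ^ 3 * Q1 m Y

/-- The residue class that the base point must have. -/
def Shape (m Y : ℕ) (Γ : O m) : Prop :=
  ∃ a b : ℤ, Pure Y a ∧ Pure Y b ∧ (m : ℤ) ∣ cc m * b - 1 ∧
    (M1 m Y : O m) ∣ Γ - (⟨a, a * (cc m * b)⟩ : O m)

/-- Coordinates of the lifting families. -/
def hz (m M t : ℕ) : O m := ⟨1, M * t⟩

/-- Coordinates of the middle families. -/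
def mz (m M t : ℕ) : O m := ⟨1 + M * t, M⟩

/-- The first lifting family: a summand together with its conjugate. -/
noncomputable def FI {m r : ℕ} (Γ : O m) (zI zII : Fin r → O m) (θ : ℂ) : ℂ :=
  ch (fun ε : Fin r → Bool => Γ * base zII * cube zI ε + star (Γ * base zII * cube zI ε))
    (θ / ph m (mu m))

/-- The second lifting family. -/
noncomputable def FII {m r : ℕ} (Γ : O m) (zI zII : Fin r → O m) (θ : ℂ) : ℂ :=
  ch (fun ε : Fin r → Bool => Γ * base zI * cube zII ε) (θ / ph m (mu m))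

open Classical in
/-- Collision probability of a cube. -/
noncomputable def cX {m r : ℕ} (d : ℕ) (z : Fin r → O m) : ℝ :=
  if IsCoprime (d : ℤ) (base z).norm then
    𝔼 q : (Fin r → Bool) × (Fin r → Bool), if (d : O m) ∣ cube z q.1 - cube z q.2 then (1 : ℝ) else 0
  else 0

/-- Sum of two cube vertices with a common norm. -/
def yy {m r : ℕ} (z1 z2 : Fin r → O m) (ε : (Fin r → Bool) × (Fin r → Bool)) : O m :=
  cube z1 ε.1 * base z2 + base z1 * cube z2 ε.2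

open Classical in
/-- Collision probability of the sum of two cubes. -/
noncomputable def cY {m r : ℕ} (d : ℕ) (z1 z2 : Fin r → O m) : ℝ :=
  if IsCoprime (d : ℤ) ((base z1).norm * (base z2).norm) then
    𝔼 q : ((Fin r → Bool) × (Fin r → Bool)) × ((Fin r → Bool) × (Fin r → Bool)),
      if (d : O m) ∣ yy z1 z2 q.1 - yy z1 z2 q.2 then (1 : ℝ) else 0
  else 0

/-- The collision weight of one block. -/
noncomputable def Zc {m r : ℕ} (d : ℕ) (z : Fin 3 → Fin r → O m) : ℝ :=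
  ∑ d1 ∈ d.divisors.filter (fun d1 => d ^ 49 ≤ d1 ^ 100), (d1 : ℝ) ^ 2 * cY d1 (z 0) (z 1) * cX d1 (z 2)

/-- The bound for the middle families at denominator `d`. -/
noncomputable def WW {m r : ℕ} (z : Fin 100 × Fin 300 → Fin 3 → Fin r → O m) (d : ℕ) : ℝ :=
  1 / (d : ℝ) ^ 4 + (d : ℝ) ^ 4 * ∑ g : Fin 100, ∏ c : Fin 300, ((d : ℝ) ^ (1 / 50 : ℝ) * Zc d (z (g, c)))

/-- Base point of one block. -/
def blockB {m r : ℕ} (z : Fin 3 → Fin r → O m) : O m := base (z 0) * base (z 1) * base (z 2)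

/-- Base point of all blocks. -/
def midC {m r : ℕ} (z : Fin 100 × Fin 300 → Fin 3 → Fin r → O m) : O m := ∏ b, blockB (z b)

/-- Sample space of the middle families. -/
abbrev OmM (r : ℕ) : Type :=
  Fin 100 × Fin 300 → ((Fin r → Bool) × (Fin r → Bool)) × (Fin r → Bool)

/-- The sum of the middle summands. -/
def midY {m r : ℕ} (Γ : O m) (z : Fin 100 × Fin 300 → Fin 3 → Fin r → O m) (ω : OmM r) : O m :=
  ∑ b, (Γ * ∏ b' ∈ univ.erase b, blockB (z b')) *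
    (cube (z b 2) (ω b).2 * yy (z b 0) (z b 1) (ω b).1)

/-- Sample space of the big blocks. -/
abbrev OmB {m : ℕ} (J : ℕ) (U : ℕ → Finset (O m)) : Type :=
  (j : Fin (J + 1)) → Fin 600 → U j × U j

/-- Sample space of the paired families. -/
abbrev OmP {m : ℕ} (J r : ℕ) (U : ℕ → Finset (O m)) : Type :=
  (OmB J U × OmB J U) × ((Fin r → Bool) × (Fin r → Bool)) × (Fin r → Bool)

/-- The sum of the big blocks and of the two lifting summands. -/
def psiA {m r : ℕ} (J : ℕ) (g : ℕ → O m) (U : ℕ → Finset (O m)) (Γ : O m) (zI zII : Fin r → O m)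
    (b : OmB J U) (ε2 ε1 : Fin r → Bool) : O m :=
  (∑ j : Fin (J + 1), ∑ c : Fin 600, g j * (((b j c).1 : O m) * ((b j c).2 : O m))) +
    Γ * base zI * cube zII ε2 + Γ * base zII * cube zI ε1

/-- A sublattice given coordinatewise. -/
def Lat {m : ℕ} (a b : ℕ) (x : O m) : Prop := (a : ℤ) ∣ x.re ∧ (b : ℤ) ∣ x.im

/-- Local data at the prime `l`. -/
def Loc (m Nf l e0 e1 : ℕ) (x0 : ℤ) : Prop :=
  ∃ (ζ w : ℕ → O m) (j : ℕ → ℕ),
    (∀ i < Nf, j i ≤ 3 ∧ (l : ℤ) ^ j i ∣ (ζ i).norm ∧ ¬ (l : ℤ) ^ (j i + 1) ∣ (ζ i).norm ∧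
      Lat (l ^ (j i + e0)) (l ^ (j i + e1)) (4 * ζ i ^ 2 - ((ζ i).norm : O m) * w i)) ∧
    (∀ G : O m, (l ∣ m → (l : ℤ) ∣ G.im - G.re) →
      Lat (l ^ e0) (l ^ e1) (((x0 * G.re : ℤ) : O m) + G * ∑ i ∈ range Nf, w i)) ∧
    ∀ z : ℕ → O m, (∀ i < Nf, (l : O m) ^ 10 ∣ z i - ζ i) →
      (l : O m) ^ (∑ i ∈ range Nf, j i) ∣ ∏ i ∈ range Nf, star (z i) ^ 2

/-- Directions of the fixed coordinates. -/
noncomputable def dir (i : ℕ) : ℂ :=
  if i = 0 then ⟨1 / 2, Real.sqrt 3 / 2⟩ else if i = 1 then ⟨-1 / 2, Real.sqrt 3 / 2⟩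
  else if i = 3 then Complex.I else if i ≤ 4 then 1 else if i % 2 = 1 then 1 else Complex.I

/-- The number of split primes up to `x`. -/
noncomputable def nsplit (m : ℕ) (x : ℝ) : ℕ :=
  {l : ℕ | l.Prime ∧ (l : ℝ) ≤ x ∧ ¬ l ∣ 2 * m ∧ IsSquare (-(m : ZMod l))}.ncard

end Pool.Agent.P.MP_b75a1e_co.EG
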