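import Pool.Agent.P.MP_b75a1e_co.EGBasic

set_option autoImplicit false

open Finset
open scoped BigOperators ComplexConjugate

namespace Pool.Agent.P.MP_b75a1e_co.EG

def Gd_EGLocB {m : ℕ} (l : ℕ) (ζ w : O m) : Prop :=
  ¬ (l : ℤ) ∣ ζ.norm ∧ Lat l l (4 * ζ ^ 2 - (ζ.norm : O m) * w)

theorem one_EGLocB (m l : ℕ) (hl : l.Prime) : Gd_EGLocB l (1 : O m) 4 := by
  refine ⟨fun h => hl.one_lt.ne' ?_, ?_⟩
  · rw [Zsqrtd.norm_one] at h
    exact_mod_cast Int.eq_one_of_dvd_one (by positivity) h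
  · simp [Lat]

theorem rt_norm_EGLocB (m : ℕ) : (rt m).norm = m := by simp [norm_eq, rt]

theorem rt_eq_EGLocB (m : ℕ) : 4 * rt m ^ 2 - ((rt m).norm : O m) * (-4) = 0 := by
  rw [rt_norm_EGLocB, sq, rt_sq]; push_cast; ring

theorem rt_EGLocB (m l : ℕ) (hlm : ¬ l ∣ m) : Gd_EGLocB l (rt m) (-4) := by
  refine ⟨by rw [rt_norm_EGLocB]; exact_mod_cast hlm, ?_⟩
  rw [rt_eq_EGLocB]; simp [Lat]

theorem half_EGLocB (m l : ℕ) (hl : l.Prime) (b c : ℤ) (h : (l : ℤ) ∣ 1 - (1 + m * b ^ 2) * c) :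
    Gd_EGLocB l (⟨1, b⟩ : O m) ⟨4 * (1 - m * b ^ 2) * c, 8 * b * c⟩ := by
  have hn : (⟨1, b⟩ : O m).norm = 1 + m * b ^ 2 := by simp [norm_eq]
  refine ⟨fun h' => hl.one_lt.ne' ?_, ?_⟩
  · rw [hn] at h'
    have := h.add (h'.mul_right c)
    rw [sub_add_cancel] at this
    exact_mod_cast Int.eq_one_of_dvd_one (by positivity) this
  · rw [hn]
    obtain ⟨k, hk⟩ := h
    refine ⟨⟨4 * (1 - m * b ^ 2) * k, ?_⟩, ⟨8 * b * k, ?_⟩⟩
    · simp [sq, Zsqrtd.re_mul, Zsqrtd.im_mul]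
      linear_combination 4 * (1 - m * b ^ 2) * hk
    · simp [sq, Zsqrtd.re_mul, Zsqrtd.im_mul]
      linear_combination 8 * b * hk

theorem pair_EGLocB (m l : ℕ) [hl : Fact l.Prime] (hlm : ¬ l ∣ m) (β : ZMod l) :
    ∃ (ζ ζ' w w' : O m) (x : ℤ), Gd_EGLocB l ζ w ∧ Gd_EGLocB l ζ' w' ∧ w + w' = (x : O m) ∧
      (x : ZMod l) = 16 * (1 + m * β ^ 2)⁻¹ - 8 := by
  by_cases h : (1 + m * β ^ 2 : ZMod l) = 0
  · exact ⟨_, _, _, _, -8, rt_EGLocB m l hlm, rt_EGLocB m l hlm, by push_cast; ring, by simp [h]⟩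
  obtain ⟨b, rfl⟩ := ZMod.intCast_surjective β
  obtain ⟨c, hc⟩ := ZMod.intCast_surjective ((1 + (m : ZMod l) * (b : ZMod l) ^ 2)⁻¹)
  have h1 : (1 + m * (b : ZMod l) ^ 2) * c = 1 := by rw [hc, mul_inv_cancel₀ h]
  have hd : (l : ℤ) ∣ 1 - (1 + m * b ^ 2) * c := by
    rw [← ZMod.intCast_zmod_eq_zero_iff_dvd]; push_cast; rw [h1, sub_self]
  refine ⟨_, _, _, _, 8 * (1 - m * b ^ 2) * c, half_EGLocB m l hl.out b c hd,
    half_EGLocB m l hl.out (-b) c (by simpa using hd), ?_, ?_⟩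
  · generalize hx : 8 * (1 - m * b ^ 2) * c = x
    ext
    · simp [← hx, -Int.cast_mul]; ring
    · simp
  · rw [← hc]; push_cast; linear_combination (-8) * h1

theorem solve_EGLocB (m l : ℕ) [hl : Fact l.Prime] (h5 : 5 ≤ l) (hlm : ¬ l ∣ m) :
    ∃ β β' : ZMod l, 4 * (1 + m * β ^ 2)⁻¹ + 4 * (1 + m * β' ^ 2)⁻¹ = 3 := by
  have hm : (m : ZMod l) ≠ 0 := by rwa [Ne, ZMod.natCast_eq_zero_iff]
  have h2 : (2 : ZMod l) ≠ 0 := by
    intro h
    have : l ∣ 2 := (ZMod.natCast_eq_zero_iff 2 l).1 (by exact_mod_cast h)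
    have := Nat.le_of_dvd two_pos this
    omega
  have h4 : (4 : ZMod l) ≠ 0 := by
    have := mul_ne_zero h2 h2
    rwa [show (2 : ZMod l) * 2 = 4 by norm_num] at this
  have hodd := hl.out.eq_two_or_odd
  set f : ZMod l → ZMod l := fun β => 4 * (1 + m * β ^ 2)⁻¹ with hf
  have hc : l ≤ 2 * (univ.image f).card := by
    have := Finset.card_le_mul_card_image (f := f) univ 2 fun a ha => by
      obtain ⟨β, -, rfl⟩ := mem_image.1 ha
      refine (card_le_card (t := {β, -β}) fun γ hγ => ?_).trans card_le_two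
      have e := inv_injective (mul_left_cancel₀ h4 (mem_filter.1 hγ).2)
      have e2 := mul_left_cancel₀ hm (add_left_cancel e)
      simpa using sq_eq_sq_iff_eq_or_eq_neg.1 e2
    simpa using this
  by_contra hn
  push Not at hn
  have hd : Disjoint (univ.image f) ((univ.image f).image fun x => 3 - x) := by
    rw [disjoint_left]
    intro a ha hb
    obtain ⟨β, -, rfl⟩ := mem_image.1 ha
    obtain ⟨x, hx, e⟩ := mem_image.1 hb
    obtain ⟨β', -, rfl⟩ := mem_image.1 hx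
    exact hn β β' (by simp only [hf] at e; linear_combination -e)
  have h1 := card_le_univ ((univ.image f) ∪ ((univ.image f).image fun x => 3 - x))
  rw [card_union_of_disjoint hd, card_image_of_injective _ sub_right_injective, ZMod.card] at h1
  omega

/-- L14 at an unramified prime `l ≥ 5`. -/
theorem loc_big (m Nf l : ℕ) (hl : l.Prime) (h5 : 5 ≤ l) (hlm : ¬ l ∣ m) (h9 : 9 ≤ Nf)
    (hodd : Nf % 2 = 1) : Loc m Nf l 1 1 0 := by
  have := Fact.mk hl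
  obtain ⟨β, β', hβ⟩ := solve_EGLocB m l h5 hlm
  obtain ⟨ζ0, ζ1, w0, w1, x, g0, g1, e, hx⟩ := pair_EGLocB m l hlm β
  obtain ⟨ζ2, ζ3, w2, w3, x', g2, g3, e', hx'⟩ := pair_EGLocB m l hlm β'
  let P : ℕ → O m × O m := fun i => if i = 0 then (ζ0, w0) else if i = 1 then (ζ1, w1) else
    if i = 2 then (ζ2, w2) else if i = 3 then (ζ3, w3) else if i % 2 = 0 then (1, 4) else (rt m, -4)
  have hP : ∀ i, Gd_EGLocB l (P i).1 (P i).2 := fun i => by
    simp only [P]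
    split_ifs
    exacts [g0, g1, g2, g3, one_EGLocB m l hl, rt_EGLocB m l hlm]
  have hs : ∀ k, ∑ i ∈ range (5 + 2 * k), (P i).2 = ((x + x' + 4 : ℤ) : O m) := fun k => by
    induction k with
    | zero =>
      simp only [P, sum_range_succ, Nat.mul_zero, Nat.add_zero]
      push_cast
      simp
      linear_combination e + e'
    | succ k ih =>
      rw [show 5 + 2 * (k + 1) = 5 + 2 * k + 1 + 1 by ring, sum_range_succ, sum_range_succ, ih]
      simp only [P]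
      rw [if_neg (by omega), if_neg (by omega), if_neg (by omega), if_neg (by omega),
        if_neg (by omega), if_neg (by omega), if_neg (by omega), if_neg (by omega),
        if_neg (by omega), if_pos (by omega)]
      ring
  have hd : (l : ℤ) ∣ x + x' + 4 := by
    rw [← ZMod.intCast_zmod_eq_zero_iff_dvd]; push_cast; rw [hx, hx']; linear_combination 4 * hβ
  refine ⟨fun i => (P i).1, fun i => (P i).2, fun _ => 0, fun i _ => ⟨by simp, by simp, ?_, ?_⟩,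
    fun G _ => ?_, fun z _ => by simp⟩
  · simpa using (hP i).1
  · simpa using (hP i).2
  · obtain ⟨k, rfl⟩ : ∃ k, Nf = 5 + 2 * k := ⟨(Nf - 5) / 2, by omega⟩
    rw [hs]
    generalize x + x' + 4 = y at hd
    simpa [Lat] using ⟨hd.mul_left _, hd.mul_left _⟩

theorem ram_EGLocB (m q : ℕ) (hq : q.Prime) (hqm : q ∣ m) (y : ℤ) :
    ¬ (q : ℤ) ∣ (⟨1, y⟩ : O m).norm ∧ Lat (q ^ 2) q (4 * (⟨1, y⟩ : O m) ^ 2 -
      ((⟨1, y⟩ : O m).norm : O m) * ⟨4 * (1 - 2 * m * y ^ 2), 8 * y⟩) := by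
  have hn : (⟨1, y⟩ : O m).norm = 1 + m * y ^ 2 := by simp [norm_eq]
  obtain ⟨k, rfl⟩ := hqm
  rw [hn]
  refine ⟨fun h => hq.one_lt.ne' ?_, ⟨8 * k ^ 2 * y ^ 4, ?_⟩, ⟨-8 * k * y ^ 3, ?_⟩⟩
  · have := (Int.dvd_add_left (a := q) (b := 1) (c := ((q * k : ℕ) : ℤ) * y ^ 2)
      ⟨k * y ^ 2, by push_cast; ring⟩).1 h
    exact_mod_cast Int.eq_one_of_dvd_one (by positivity) this
  · simp [sq, Zsqrtd.re_mul, Zsqrtd.im_mul]; ring
  · simp [sq, Zsqrtd.re_mul, Zsqrtd.im_mul]; ring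

/-- L14 at a ramified prime. -/
theorem loc_ram (m Nf n p q : ℕ) (hq : q.Prime) (hq2 : q ≠ 2) (hqm : q ∣ m) (hq1 : ¬ q ^ 2 ∣ m)
    (hqp : q ≤ p) (hodd : p % 2 = 1) (hN : Nf + 4 * n = p) (hn : 16 * n ≤ p) (hp : 100 ≤ p) :
    Loc m Nf q 2 1 (16 * n) := by
  have := Fact.mk hq
  obtain ⟨m', hm'⟩ := hqm
  have hqm : q ∣ m := ⟨m', hm'⟩
  have hm0 : (m' : ZMod q) ≠ 0 := by
    rw [Ne, ZMod.natCast_eq_zero_iff]
    rintro ⟨k, rfl⟩
    exact hq1 ⟨k, by rw [hm']; ring⟩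
  have h2 : (2 : ZMod q) ≠ 0 := by
    intro h
    have : q ∣ 2 := (ZMod.natCast_eq_zero_iff 2 q).1 (by exact_mod_cast h)
    exact hq2 ((Nat.prime_dvd_prime_iff_eq hq Nat.prime_two).1 this)
  obtain ⟨a, a', ha⟩ := ZMod.sq_add_sq q ((1 - m' * (8 * n ^ 2 + 4 * n)) / (2 * 2 * m'))
  obtain ⟨y, rfl⟩ := ZMod.intCast_surjective a
  obtain ⟨y', rfl⟩ := ZMod.intCast_surjective a'
  have hy : (q : ℤ) ∣ 1 - m' * (8 * n ^ 2 + 4 * n) - 4 * m' * (y ^ 2 + y' ^ 2) := by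
    rw [← ZMod.intCast_zmod_eq_zero_iff_dvd]; push_cast; rw [ha]; field_simp; ring
  have hqo := hq.eq_two_or_odd
  obtain ⟨k, hk⟩ : ∃ k, p = q + 2 * k := ⟨(p - q) / 2, by omega⟩
  obtain ⟨r, hr⟩ : ∃ r, Nf = 5 + k + r := ⟨Nf - 5 - k, by omega⟩
  let Y : ℕ → ℤ := fun i => if i = 0 then y else if i = 1 then -y else if i = 2 then y' else
    if i = 3 then -y' else if i = 4 then 2 * n else 0
  let ζ : ℕ → O m := fun i => if 5 ≤ i ∧ i < 5 + k then rt m else ⟨1, Y i⟩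
  let w : ℕ → O m := fun i => if 5 ≤ i ∧ i < 5 + k then -4 else ⟨4 * (1 - 2 * m * Y i ^ 2), 8 * Y i⟩
  let j : ℕ → ℕ := fun i => if 5 ≤ i ∧ i < 5 + k then 1 else 0
  have hs : ∑ i ∈ range Nf, w i =
      ⟨4 * q - 16 * n - 8 * m * (2 * y ^ 2 + 2 * y' ^ 2 + 4 * n ^ 2), 16 * n⟩ := by
    have e1 : ∑ i ∈ range k, w (5 + i) = k * -4 := by
      rw [sum_congr rfl (g := fun _ => -4) fun i hi => if_pos ⟨by omega, by simpa using hi⟩]
      simp
    have e2 : ∑ i ∈ range r, w (5 + k + i) = r * 4 := by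
      rw [sum_congr rfl (g := fun _ => 4) fun i _ => ?_]
      · simp
      simp only [w, Y]
      rw [if_neg (by omega), if_neg (by omega), if_neg (by omega), if_neg (by omega),
        if_neg (by omega), if_neg (by omega)]
      ext <;> simp
    have e3 : (r : ℤ) = q + k - 4 * n - 5 := by omega
    rw [hr, sum_range_add, sum_range_add, e1, e2]
    ext
    · simp [sum_range_succ, w, Y, e3]; ring
    · simp [sum_range_succ, w, Y]; ring
  refine ⟨ζ, w, j, fun i _ => ?_, fun G hG => ?_, fun z hz => ?_⟩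
  · simp only [ζ, w, j]
    split_ifs
    · rw [rt_eq_EGLocB, rt_norm_EGLocB]
      refine ⟨by omega, by simpa using Int.natCast_dvd_natCast.2 hqm, by exact_mod_cast hq1, ?_⟩
      simp [Lat]
    · have := ram_EGLocB m q hq hqm (Y i)
      exact ⟨by omega, by simp, by simpa using this.1, by simpa using this.2⟩
  · obtain ⟨t, ht⟩ := hG hqm
    obtain ⟨u, hu⟩ := hy
    have hm : (m : ℤ) = q * m' := by exact_mod_cast hm'
    rw [hs]
    refine ⟨⟨4 * G.re * u - 16 * m' * n * t, ?_⟩,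
      ⟨-16 * n * t + G.im * (4 - 8 * m' * (2 * y ^ 2 + 2 * y' ^ 2 + 4 * n ^ 2)), ?_⟩⟩
    · simp [Zsqrtd.re_mul]
      linear_combination 4 * q * G.re * hu - 16 * q * m' * n * ht -
        (8 * G.re * (2 * y ^ 2 + 2 * y' ^ 2 + 4 * n ^ 2) + 16 * n * G.im) * hm
    · simp [Zsqrtd.im_mul]
      linear_combination -16 * n * ht - 8 * G.im * (2 * y ^ 2 + 2 * y' ^ 2 + 4 * n ^ 2) * hm
  · rw [← prod_pow_eq_pow_sum]
    refine prod_dvd_prod_of_dvd _ _ fun i hi => ?_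
    have h := hz i (mem_range.1 hi)
    simp only [ζ, j] at h ⊢
    split_ifs at h ⊢
    · obtain ⟨c, hc⟩ := h
      have e : z i ^ 2 = q * (-m' + 2 * q ^ 9 * c * rt m + q ^ 19 * c ^ 2) := by
        have hm : (m : O m) = q * m' := by exact_mod_cast congrArg (Nat.cast (R := O m)) hm'
        rw [eq_add_of_sub_eq hc]
        linear_combination rt_sq (m := m) - hm
      have := dvd_star (⟨_, e⟩ : (q : O m) ∣ z i ^ 2)
      simpa using this
    · simp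

end Pool.Agent.P.MP_b75a1e_co.EG
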