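import Pool.Agent.P.MP_b75a1e_co.EGLocA
import Pool.Agent.P.MP_b75a1e_co.EGLocB
import Pool.Agent.P.MP_b75a1e_co.EGArith

set_option autoImplicit false

open Finset
open scoped BigOperators ComplexConjugate

namespace Pool.Agent.P.MP_b75a1e_co.EG

theorem cop_EGFixed {R : Type} [CommRing R] {l l' : ℕ} (hl : l.Prime) (hl' : l'.Prime)
    (h : l ≠ l') (a b : ℕ) : IsCoprime ((l : R) ^ a) ((l' : R) ^ b) :=
  ((Nat.coprime_primes hl hl').2 h).cast.pow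

theorem prod_dvd_EGFixed {R : Type} [CommRing R] {P : Finset ℕ} (hP : ∀ l ∈ P, l.Prime)
    (k : ℕ → ℕ) {x : R} (h : ∀ l ∈ P, (l : R) ^ k l ∣ x) : ∏ l ∈ P, (l : R) ^ k l ∣ x :=
  Finset.prod_dvd_of_coprime (fun l hl l' hl' e => cop_EGFixed (hP l hl) (hP l' hl') e _ _) h

/-- Chinese remainders for families of elements. -/
theorem crt_family (m Y : ℕ) (ζ : ℕ → ℕ → O m) :
    ∃ ξ : ℕ → O m, ∀ l : ℕ, l.Prime → l ≤ Y → ∀ i, (l : O m) ^ 10 ∣ ξ i - ζ l i := by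
  have : Finite {l : ℕ // l.Prime ∧ l ≤ Y} := (Set.finite_Iic Y).subset fun l hl => hl.2
  choose ξ h using fun i => Ideal.exists_forall_sub_mem_ideal
    (I := fun l : {l : ℕ // l.Prime ∧ l ≤ Y} => Ideal.span {(l.1 : O m) ^ 10})
    (fun l l' e => (Ideal.isCoprime_span_singleton_iff _ _).2
      (cop_EGFixed l.2.1 l'.2.1 (fun h => e (Subtype.ext h)) _ _)) fun l => ζ l.1 i
  exact ⟨ξ, fun l hl hY i => Ideal.mem_span_singleton.1 (h i ⟨l, hl, hY⟩)⟩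

theorem four_EGFixed {l : ℕ} (hl : l.Prime) (h2 : l ≠ 2) {k : ℕ} {x : ℤ}
    (h : ((l ^ k : ℕ) : ℤ) ∣ 4 * x) : (l : ℤ) ^ k ∣ x := by
  have := cop_EGFixed (R := ℤ) hl Nat.prime_two h2 k 2
  push_cast at h
  exact this.dvd_of_dvd_mul_left (by simpa using h)

theorem qq_EGFixed (m Y : ℕ) {x : ℤ} (h2 : ((2 ^ 7 : ℕ) : ℤ) ∣ 4 * x)
    (h3 : ¬ 3 ∣ m → ((3 ^ 3 : ℕ) : ℤ) ∣ 4 * x)
    (h5 : ∀ l : ℕ, l.Prime → 5 ≤ l → l ≤ Y → ¬ l ∣ m → ((l ^ 1 : ℕ) : ℤ) ∣ 4 * x) :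
    (QQ m Y : ℤ) ∣ x := by
  have hP : ∀ l ∈ (range (Y + 1)).filter (fun l => l.Prime ∧ 5 ≤ l ∧ ¬ l ∣ m),
      l.Prime ∧ 5 ≤ l ∧ l ≤ Y ∧ ¬ l ∣ m := fun l hl => by
    obtain ⟨a, b, c, d⟩ := mem_filter.1 hl
    exact ⟨b, c, Nat.lt_succ_iff.1 (mem_range.1 a), d⟩
  have h1 : (Q1 m Y : ℤ) ∣ x := by
    have := prod_dvd_EGFixed (fun l hl => (hP l hl).1) (fun _ => 1) fun l hl =>
      four_EGFixed (hP l hl).1 (by have := (hP l hl).2.1; omega)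
        (h5 l (hP l hl).1 (hP l hl).2.1 (hP l hl).2.2.1 (hP l hl).2.2.2)
    simpa [Q1] using this
  have hc : ∀ q a : ℕ, q.Prime → q < 5 → IsCoprime ((q : ℤ) ^ a) (Q1 m Y) := fun q a hq h => by
    rw [Q1, Nat.cast_prod]
    refine IsCoprime.prod_right fun l hl => ?_
    simpa using cop_EGFixed (R := ℤ) hq (hP l hl).1 (by have := (hP l hl).2.1; omega) a 1
  have c2 := hc 2 5 Nat.prime_two (by norm_num)
  have c3 := hc 3 3 Nat.prime_three (by norm_num)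
  rcases cc_cases m with ⟨-, e⟩ | ⟨h, e⟩
  · have := c2.mul_dvd (by push_cast at h2 ⊢; omega) h1
    simpa [QQ, e] using this
  · have h4 := h3 h
    have := (c2.mul_left c3).mul_dvd (by push_cast at h2 h4 ⊢; omega) h1
    simpa [QQ, e] using this

theorem sqf_EGFixed {m : ℕ} (hsq : Squarefree m) (hodd : m % 2 = 1) (k : ℕ) {x : ℤ}
    (h : ∀ q : ℕ, q.Prime → q ∣ m → ((q ^ k : ℕ) : ℤ) ∣ 4 * x) : (m : ℤ) ^ k ∣ x := by
  rw [← Nat.prod_primeFactors_of_squarefree hsq, Nat.cast_prod, ← prod_pow]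
  refine prod_dvd_EGFixed (fun l hl => Nat.prime_of_mem_primeFactors hl) (fun _ => k) fun l hl => ?_
  have h1 := Nat.dvd_of_mem_primeFactors hl
  exact four_EGFixed (Nat.prime_of_mem_primeFactors hl) (by rintro rfl; omega)
    (h l (Nat.prime_of_mem_primeFactors hl) h1)

/-- Gluing of the local congruences. -/
theorem glue (m Y n : ℕ) (hY : 3 ≤ Y) (hsq : Squarefree m) (hodd : m % 2 = 1) (hsm : Smo Y m)
    (F : O m) (a : ℤ) (h2 : Lat (2 ^ 7) (2 ^ 7) F) (h3 : ¬ 3 ∣ m → Lat (3 ^ 3) (3 ^ 3) F)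
    (h5 : ∀ l : ℕ, l.Prime → 5 ≤ l → l ≤ Y → ¬ l ∣ m → Lat (l ^ 1) (l ^ 1) F)
    (hq : ∀ q : ℕ, q.Prime → q ∣ m → Lat (q ^ 2) (q ^ 1) ((((16 * n : ℤ) * a : ℤ) : O m) + F)) :
    ∃ S : O m, F = 4 * S ∧ (QQ m Y : O m) ∣ S ∧ mu m ∣ S + ((4 * n * a : ℤ) : O m) := by
  obtain ⟨S, rfl⟩ : ((4 : ℕ) : O m) ∣ F :=
    (nat_dvd_iff 4 F).2 ⟨Dvd.dvd.trans (by norm_num) h2.1, Dvd.dvd.trans (by norm_num) h2.2⟩
  have e1 : (((4 : ℕ) : O m) * S).re = 4 * S.re := by simp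
  have e2 : (((4 : ℕ) : O m) * S).im = 4 * S.im := by simp
  refine ⟨S, by simp, (nat_dvd_iff _ _).2 ⟨?_, ?_⟩, (mu_dvd_iff _).2 ⟨?_, ?_⟩⟩
  · exact qq_EGFixed m Y (e1 ▸ h2.1) (fun h => e1 ▸ (h3 h).1) fun l a b c d => e1 ▸ (h5 l a b c d).1
  · exact qq_EGFixed m Y (e2 ▸ h2.2) (fun h => e2 ▸ (h3 h).2) fun l a b c d => e2 ▸ (h5 l a b c d).2
  · refine sqf_EGFixed hsq hodd 2 fun q c d => ?_
    have := (hq q c d).1
    rw [Zsqrtd.re_add, e1, Zsqrtd.re_intCast] at this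
    rwa [Zsqrtd.re_add, Zsqrtd.re_intCast, show 4 * (S.re + 4 * n * a) = 16 * n * a + 4 * S.re by ring]
  · refine (pow_one (m : ℤ)).symm.dvd.trans (sqf_EGFixed hsq hodd 1 fun q c d => ?_)
    have := (hq q c d).2
    rw [Zsqrtd.im_add, e2, Zsqrtd.im_intCast, zero_add] at this
    rwa [Zsqrtd.im_add, Zsqrtd.im_intCast, add_zero]

section
variable {m l a b j : ℕ} {x y : O m}

theorem lat_add_EGFixed (h : Lat a b x) (h' : Lat a b y) : Lat a b (x + y) :=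
  ⟨dvd_add h.1 h'.1, dvd_add h.2 h'.2⟩

theorem lat_sum_EGFixed (s : Finset ℕ) {f : ℕ → O m} (h : ∀ i ∈ s, Lat a b (f i)) :
    Lat a b (∑ i ∈ s, f i) :=
  Finset.sum_induction f (Lat a b) (fun _ _ => lat_add_EGFixed) ⟨dvd_zero _, dvd_zero _⟩ h

theorem lat_of_EGFixed (h : (l : O m) ^ j ∣ x) (ha : a ≤ j) (hb : b ≤ j) : Lat (l ^ a) (l ^ b) x := by
  rw [← Nat.cast_pow, nat_dvd_iff] at h
  exact ⟨(Int.natCast_dvd_natCast.2 (pow_dvd_pow l ha)).trans h.1,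
    (Int.natCast_dvd_natCast.2 (pow_dvd_pow l hb)).trans h.2⟩

theorem lat_dvd_EGFixed (h : Lat (l ^ (j + a)) (l ^ (j + b)) x) : (l : O m) ^ j ∣ x := by
  rw [← Nat.cast_pow, nat_dvd_iff]
  exact ⟨(Int.natCast_dvd_natCast.2 (pow_dvd_pow l (Nat.le_add_right _ _))).trans h.1,
    (Int.natCast_dvd_natCast.2 (pow_dvd_pow l (Nat.le_add_right _ _))).trans h.2⟩

theorem lat_mul_EGFixed (e : a = b ∨ l ∣ m ∧ a = b + 1) (h : Lat (l ^ a) (l ^ b) x) (G : O m) :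
    Lat (l ^ a) (l ^ b) (G * x) := by
  refine ⟨?_, ?_⟩
  · rw [Zsqrtd.re_mul]
    refine dvd_add (h.1.mul_left _) ?_
    rcases e with rfl | ⟨e, rfl⟩
    · exact h.2.mul_left _
    · rw [pow_succ', Nat.cast_mul]
      exact mul_dvd_mul ((dvd_neg.2 (Int.natCast_dvd_natCast.2 e)).mul_right _) h.2
  · rw [Zsqrtd.im_mul]
    exact dvd_add (h.2.mul_left _)
      (((Int.natCast_dvd_natCast.2 (pow_dvd_pow l (by omega))).trans h.1).mul_left _)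

theorem lat_cancel_EGFixed (hl : l ≠ 0) {c : ℤ} (hc : IsCoprime (l : ℤ) c)
    (h : Lat (l ^ (j + a)) (l ^ (j + b)) ((((l : ℤ) ^ j * c : ℤ) : O m) * x)) :
    Lat (l ^ a) (l ^ b) x := by
  have key : ∀ (a : ℕ) (t : ℤ), ((l ^ (j + a) : ℕ) : ℤ) ∣ (l : ℤ) ^ j * c * t → ((l ^ a : ℕ) : ℤ) ∣ t := by
    intro a t ht
    rw [Nat.cast_pow, pow_add, mul_assoc,
      mul_dvd_mul_iff_left (pow_ne_zero _ (Int.natCast_ne_zero.2 hl))] at ht
    rw [Nat.cast_pow]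
    exact hc.pow_left.dvd_of_dvd_mul_left ht
  obtain ⟨h1, h2⟩ := h
  rw [Zsqrtd.re_mul, Zsqrtd.re_intCast, Zsqrtd.im_intCast, mul_zero, zero_mul, add_zero] at h1
  rw [Zsqrtd.im_mul, Zsqrtd.re_intCast, Zsqrtd.im_intCast, zero_mul, add_zero] at h2
  exact ⟨key a _ h1, key b _ h2⟩

theorem norm_sub_EGFixed (h : (l : O m) ^ j ∣ x - y) : (l : ℤ) ^ j ∣ x.norm - y.norm := by
  rw [← Nat.cast_pow, nat_dvd_iff, Nat.cast_pow, Zsqrtd.re_sub, Zsqrtd.im_sub] at h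
  rw [norm_eq, norm_eq, show x.re ^ 2 + m * x.im ^ 2 - (y.re ^ 2 + m * y.im ^ 2) =
    (x.re - y.re) * (x.re + y.re) + (x.im - y.im) * (m * (x.im + y.im)) by ring]
  exact dvd_add (h.1.mul_right _) (h.2.mul_right _)

theorem cast_dvd_EGFixed {s : ℤ} (h : (l : ℤ) ^ j ∣ s) : (l : O m) ^ j ∣ (s : O m) := by
  simpa using map_dvd (Int.castRingHom (O m)) h

end

theorem loc_all_EGFixed (m p n Nf : ℕ) (hsq : Squarefree m) (h4 : m % 4 = 3)
    (hmax : ∀ q, q.Prime → q ∣ m → q ≤ p) (hodd : p % 2 = 1) (hN : Nf + 4 * n = p)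
    (hn : 16 * n ≤ p) (hp : 100 ≤ p) (l : ℕ) : ∃ (e0 e1 : ℕ) (x0 : ℤ), l.Prime →
      Loc m Nf l e0 e1 x0 ∧ e0 ≤ 7 ∧ (e0 = e1 ∨ l ∣ m ∧ e0 = e1 + 1) ∧
        (l ∣ m → e0 = 2 ∧ e1 = 1 ∧ x0 = 16 * n) ∧ (¬ l ∣ m → x0 = 0 ∧ e1 = e0 ∧
          (l = 2 → e0 = 7) ∧ (l = 3 → e0 = 3) ∧ (5 ≤ l → e0 = 1)) := by
  by_cases hm : l ∣ m
  · refine ⟨2, 1, 16 * n, fun hl => ⟨loc_ram m Nf n p l hl (by rintro rfl; omega) hm (fun h => ?_)
      (hmax l hl hm) hodd hN hn hp, by norm_num, Or.inr ⟨hm, rfl⟩, fun _ => ⟨rfl, rfl, rfl⟩,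
      fun h => absurd hm h⟩⟩
    exact hl.one_lt.ne' (Nat.isUnit_iff.1 (hsq l (by rwa [← sq])))
  by_cases h2 : l = 2
  · subst h2
    exact ⟨7, 7, 0, fun _ => ⟨loc_two m Nf h4 (by omega) (by omega), le_rfl, Or.inl rfl,
      fun h => absurd h hm, fun _ => by norm_num⟩⟩
  by_cases h3 : l = 3
  · subst h3
    exact ⟨3, 3, 0, fun _ => ⟨loc_three m Nf hm (by omega) (by omega), by norm_num, Or.inl rfl,
      fun h => absurd h hm, fun _ => by norm_num⟩⟩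
  refine ⟨1, 1, 0, fun hl => ⟨loc_big m Nf l hl (hl.five_le_of_ne_two_of_ne_three h2 h3) hm
    (by omega) (by omega), by norm_num, Or.inl rfl, fun h => absurd h hm, fun _ => by simp [h2, h3]⟩⟩

/-- L15: the fixed summands. -/
theorem fixed_part (m p Y n Nf : ℕ) (hsq : Squarefree m) (h4 : m % 4 = 3)
    (hmax : ∀ q, q.Prime → q ∣ m → q ≤ p) (hodd : p % 2 = 1) (hpY : p ≤ Y) (hN : Nf + 4 * n = p)
    (hn : 16 * n ≤ p) (hp : 100 ≤ p) :
    ∃ ζ : ℕ → O m, ∀ z : ℕ → O m, (∀ i < Nf, ((primorial Y ^ 10 : ℕ) : O m) ∣ z i - ζ i) →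
      ∃ (Gf : O m) (D : ℕ), D ≠ 0 ∧ (D : O m) * Gf = ∏ i ∈ range Nf, star (z i) ^ 2 ∧
        Pure Y Gf.norm ∧
        ∀ Γ : O m, (m : ℤ) ∣ (Γ * Gf).im - (Γ * Gf).re →
          ∃ S : O m, ph m S = ∑ i ∈ range Nf, ph m (Γ * Gf) * (ph m (z i) / conj (ph m (z i))) ∧
            (QQ m Y : O m) ∣ S ∧ mu m ∣ S + ((4 * n * (Γ * Gf).re : ℤ) : O m) := by
  choose e0 e1 x0 hL using loc_all_EGFixed m p n Nf hsq h4 hmax hodd hN hn hp
  choose! ζ w j h1 h2 h3 using fun l (hl : l.Prime) => (hL l hl).1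
  obtain ⟨ξ, hξ⟩ := crt_family m Y ζ
  refine ⟨ξ, fun z hz => ?_⟩
  set P := (range (Y + 1)).filter Nat.Prime with hPd
  have hP : ∀ l, l ∈ P ↔ l.Prime ∧ l ≤ Y := fun l => by
    rw [hPd, mem_filter, mem_range, Nat.lt_succ_iff, and_comm]
  have hP' : ∀ l ∈ P, l.Prime := fun l hl => ((hP l).1 hl).1
  have a1 : ∀ l ∈ P, ∀ i < Nf, (l : O m) ^ 10 ∣ z i - ζ l i := fun l hl i hi => by
    obtain ⟨b1, b2⟩ := (hP l).1 hl
    rw [← sub_add_sub_cancel (z i) (ξ i)]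
    refine dvd_add (Dvd.dvd.trans ?_ (hz i hi)) (hξ l b1 b2 i)
    rw [Nat.cast_pow]
    exact pow_dvd_pow_of_dvd (Nat.cast_dvd_cast (b1.dvd_primorial_iff.2 b2)) _
  have a2 : ∀ l ∈ P, ∀ i < Nf, ∀ k ≤ 10, ((l : ℤ) ^ k ∣ (z i).norm ↔ (l : ℤ) ^ k ∣ (ζ l i).norm) :=
    fun l hl i hi k hk => dvd_iff_dvd_of_dvd_sub
      ((pow_dvd_pow _ hk).trans (norm_sub_EGFixed (a1 l hl i hi)))
  have a3 : ∀ l ∈ P, ∀ i < Nf, Lat (l ^ (j l i + e0 l)) (l ^ (j l i + e1 l))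
      (4 * z i ^ 2 - ((z i).norm : O m) * w l i) := fun l hl i hi => by
    obtain ⟨b1, -, -, b4⟩ := h1 l (hP' l hl) i hi
    obtain ⟨-, b5, b6, -⟩ := hL l (hP' l hl)
    have b7 := cast_dvd_EGFixed (m := m) (norm_sub_EGFixed (a1 l hl i hi))
    rw [show 4 * z i ^ 2 - ((z i).norm : O m) * w l i = 4 * ζ l i ^ 2 - ((ζ l i).norm : O m) * w l i +
      ((z i - ζ l i) * (4 * (z i + ζ l i)) - (((z i).norm - (ζ l i).norm : ℤ) : O m) * w l i) by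
        push_cast; ring]
    exact lat_add_EGFixed b4 (lat_of_EGFixed
      (dvd_sub ((a1 l hl i hi).mul_right _) (b7.mul_right _)) (by omega) (by omega))
  have a4 : ∀ l ∈ P, ∀ i < Nf, (l : ℤ) ^ j l i ∣ (z i).norm := fun l hl i hi =>
    (a2 l hl i hi _ (by have := (h1 l (hP' l hl) i hi).1; omega)).2 (h1 l (hP' l hl) i hi).2.1
  choose! N hN' using fun i (hi : i < Nf) =>
    prod_dvd_EGFixed hP' (fun l => j l i) fun l hl => a4 l hl i hi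
  choose! x hx using fun i (hi : i < Nf) =>
    prod_dvd_EGFixed hP' (fun l => j l i) (x := 4 * z i ^ 2) fun l hl => by
      have := dvd_add (lat_dvd_EGFixed (a3 l hl i hi))
        ((cast_dvd_EGFixed (a4 l hl i hi)).mul_right (w l i))
      rwa [sub_add_cancel] at this
  obtain ⟨Gf, hG⟩ := prod_dvd_EGFixed hP' (fun l => ∑ i ∈ range Nf, j l i) fun l hl =>
    h3 l (hP' l hl) z (a1 l hl)
  have a5 : ∀ l ∈ P, ∀ i < Nf, ¬ (l : ℤ) ∣ N i := fun l hl i hi h =>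
    (h1 l (hP' l hl) i hi).2.2.1 ((a2 l hl i hi _ (by
      have := (h1 l (hP' l hl) i hi).1; omega)).1 (by
        rw [hN' i hi, pow_succ]
        exact mul_dvd_mul (dvd_prod_of_mem (fun l : ℕ => (l : ℤ) ^ j l i) hl) h))
  have a6 : ∀ l ∈ P, ∀ i < Nf, IsCoprime (l : ℤ) (N i) := fun l hl i hi =>
    (Nat.prime_iff_prime_int.1 (hP' l hl)).irreducible.coprime_iff_not_dvd.2 (a5 l hl i hi)
  have a7 : ∀ i < Nf, ((z i).norm : O m) = (∏ l ∈ P, (l : O m) ^ j l i) * N i := fun i hi => by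
    rw [hN' i hi]
    push_cast
    rfl
  have a8 : ∀ i < Nf, (N i : O m) ∣ Gf * x i := fun i hi => by
    have c : ∀ k : ℕ → ℕ, IsCoprime (N i : O m) (∏ l ∈ P, (l : O m) ^ k l) := fun k =>
      IsCoprime.prod_right fun l hl => by
        simpa using ((a6 l hl i hi).symm.pow_right (n := k l)).map (Int.castRingHom (O m))
    refine ((c fun l => ∑ i ∈ range Nf, j l i).mul_right (c fun l => j l i)).dvd_of_dvd_mul_left ?_
    rw [mul_mul_mul_comm, ← hG, ← hx i hi, ← mul_prod_erase _ _ (mem_range.2 hi)]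
    refine ⟨(∏ l ∈ P, (l : O m) ^ j l i) * (z i * star (z i)) * 4 *
      ∏ k ∈ (range Nf).erase i, star (z k) ^ 2, ?_⟩
    have := a7 i hi
    rw [Zsqrtd.norm_eq_mul_conj] at this
    linear_combination ((z i * star (z i)) * 4 * ∏ k ∈ (range Nf).erase i, star (z k) ^ 2) * this
  choose! y hy using a8
  have hD : (∏ l ∈ P, l ^ ∑ i ∈ range Nf, j l i) ≠ 0 :=
    prod_ne_zero_iff.2 fun l hl => pow_ne_zero _ (hP' l hl).ne_zero
  refine ⟨Gf, ∏ l ∈ P, l ^ ∑ i ∈ range Nf, j l i, hD, by rw [hG]; push_cast; rfl, ?_, fun Γ hΓ => ?_⟩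
  · have b1 : Gf.norm = ∏ i ∈ range Nf, N i ^ 2 := by
      have b2 := congrArg Zsqrtd.norm hG
      rw [Zsqrtd.norm_mul, norm_prod', norm_prod', prod_congr rfl fun i hi => by
        rw [norm_pow', Zsqrtd.norm_conj, hN' i (mem_range.1 hi), mul_pow], prod_mul_distrib] at b2
      refine (mul_left_cancel₀ (prod_ne_zero_iff.2 fun l hl => ?_) (b2.symm.trans ?_))
      · rw [norm_pow', Zsqrtd.norm_natCast]
        exact pow_ne_zero _ (mul_self_ne_zero.2 (Int.natCast_ne_zero.2 (hP' l hl).ne_zero))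
      · congr 1
        simp only [norm_pow', Zsqrtd.norm_natCast]
        simp only [← prod_pow, ← prod_pow_eq_pow_sum]
        rw [prod_comm]
        exact prod_congr rfl fun l _ => prod_congr rfl fun i _ => by ring
    intro l hl hY h
    rw [b1] at h
    obtain ⟨i, hi, h⟩ := ((Nat.prime_iff_prime_int.1 hl).dvd_finsetProd_iff _).1 h
    exact a5 l ((hP l).2 ⟨hl, hY⟩) i (mem_range.1 hi)
      ((Nat.prime_iff_prime_int.1 hl).dvd_of_dvd_pow h)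
  have a9 : ∀ l ∈ P, Lat (l ^ e0 l) (l ^ e1 l)
      (((x0 l * (Γ * Gf).re : ℤ) : O m) + ∑ i ∈ range Nf, Γ * y i) := fun l hl => by
    have b0 := (hP' l hl).ne_zero
    rw [show ((x0 l * (Γ * Gf).re : ℤ) : O m) + ∑ i ∈ range Nf, Γ * y i =
      ((x0 l * (Γ * Gf).re : ℤ) : O m) + Γ * Gf * ∑ i ∈ range Nf, w l i +
        ∑ i ∈ range Nf, (Γ * y i - Γ * Gf * w l i) by rw [sum_sub_distrib, mul_sum]; ring]
    refine lat_add_EGFixed (h2 l (hP' l hl) _ fun h => (Int.natCast_dvd_natCast.2 h).trans hΓ)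
      (lat_sum_EGFixed _ fun i hi => ?_)
    rw [mem_range] at hi
    have b1 : Lat (l ^ e0 l) (l ^ e1 l) (x i - (N i : O m) * w l i) := by
      refine lat_cancel_EGFixed (j := j l i) b0 (c := ∏ k ∈ P.erase l, (k : ℤ) ^ j k i)
        (IsCoprime.prod_right fun k hk => ?_) ?_
      · simpa using cop_EGFixed (R := ℤ) (hP' l hl) (hP' k (mem_of_mem_erase hk))
          (ne_of_mem_erase hk).symm 1 (j k i)
      · have b2 := a3 l hl i hi
        rw [hx i hi, a7 i hi, mul_assoc, ← mul_sub] at b2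
        rw [mul_prod_erase P (fun k : ℕ => (k : ℤ) ^ j k i) hl]
        push_cast
        exact b2
    refine lat_cancel_EGFixed (j := 0) b0 (a6 l hl i hi) ?_
    have b3 := lat_mul_EGFixed (hL l (hP' l hl)).2.2.1 b1 (Γ * Gf)
    rw [zero_add, zero_add, pow_zero, one_mul, show (N i : O m) * (Γ * y i - Γ * Gf * w l i) =
      Γ * Gf * (x i - (N i : O m) * w l i) by linear_combination (-Γ) * hy i hi]
    exact b3
  have a10 : ∀ l : ℕ, l.Prime → l ≤ Y → ¬ l ∣ m →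
      Lat (l ^ e0 l) (l ^ e0 l) (∑ i ∈ range Nf, Γ * y i) := fun l hl hY h => by
    have b1 := a9 l ((hP l).2 ⟨hl, hY⟩)
    obtain ⟨b2, b3, -⟩ := (hL l hl).2.2.2.2 h
    rwa [b2, b3, zero_mul, Int.cast_zero, zero_add] at b1
  obtain ⟨S, hS, b1, b2⟩ := glue m Y n (by omega) hsq (by omega)
    (fun l hl h => (hmax l hl h).trans hpY) (∑ i ∈ range Nf, Γ * y i) (Γ * Gf).re
    (by
      have := a10 2 Nat.prime_two (by omega) (by omega)
      rwa [((hL 2 Nat.prime_two).2.2.2.2 (by omega)).2.2.1 rfl] at this)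
    (fun h => by
      have := a10 3 Nat.prime_three (by omega) h
      rwa [((hL 3 Nat.prime_three).2.2.2.2 h).2.2.2.1 rfl] at this)
    (fun l hl h5 hY h => by
      have := a10 l hl hY h
      rwa [((hL l hl).2.2.2.2 h).2.2.2.2 h5] at this)
    fun q hq h => by
      have := a9 q ((hP q).2 ⟨hq, (hmax q hq h).trans hpY⟩)
      obtain ⟨c1, c2, c3⟩ := (hL q hq).2.2.2.1 h
      rwa [c1, c2, c3] at this
  refine ⟨S, mul_left_cancel₀ (by norm_num : (4 : ℂ) ≠ 0) ?_, b1, b2⟩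
  rw [← map_ofNat (ph m) 4, ← map_mul, ← hS, map_sum, mul_sum]
  refine sum_congr rfl fun i hi => ?_
  rw [mem_range] at hi
  have c0 : ph m (z i) ≠ 0 := fun h => by
    have c1 := norm_sq_ph (z i)
    rw [h, norm_zero, zero_pow two_ne_zero, eq_comm, Int.cast_eq_zero] at c1
    exact (h1 2 Nat.prime_two i hi).2.2.1 ((a2 2 ((hP 2).2 ⟨Nat.prime_two, by omega⟩) i hi _ (by
      have := (h1 2 Nat.prime_two i hi).1; omega)).1 (c1 ▸ dvd_zero _))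
  have c2 : Γ * y i * star (z i) * z i = 4 * (Γ * Gf) * z i * z i := by
    have := a7 i hi
    rw [Zsqrtd.norm_eq_mul_conj] at this
    linear_combination (Γ * y i) * this - (Γ * ∏ l ∈ P, (l : O m) ^ j l i) * hy i hi -
      (Γ * Gf) * hx i hi
  have c3 := congrArg (ph m) c2
  rw [map_mul _ _ (z i), map_mul _ _ (z i), map_mul _ _ (star (z i)), map_mul _ _ (z i),
    map_mul _ 4, ph_star] at c3
  rw [← mul_div_assoc, ← mul_div_assoc, eq_div_iff ((map_ne_zero _).2 c0),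
    mul_right_cancel₀ c0 c3, mul_assoc]

end Pool.Agent.P.MP_b75a1e_co.EG
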