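import Pool.Agent.P.MP_b75a1e_co.EGBasic

set_option autoImplicit false

open Finset
open scoped BigOperators ComplexConjugate

namespace Pool.Agent.P.MP_b75a1e_co.EG

theorem phmk_EGFour (m : ℕ) (a b : ℤ) : ph m ⟨a, b⟩ = a + b * ph m (rt m) := by
  have : (⟨a, b⟩ : O m) = (a : O m) + (b : O m) * rt m := by ext <;> simp [rt]
  rw [this, map_add, map_mul, map_intCast, map_intCast]

theorem kernel_EGFour {m q : ℕ} (hm : 1 ≤ m) (hq : 1 ≤ q) (D : O m) :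
    ∑ k ∈ grid q, ee (pr m (gp m q k) (ph m D)) =
      if (q : ℤ) ∣ D.im ∧ (q : ℤ) ∣ D.re then (q : ℂ) ^ 2 else 0 := by
  have h : ∀ k : ℤ × ℤ, ee (pr m (gp m q k) (ph m D)) =
      ee ((k.1 * D.im : ℤ) / q) * ee ((k.2 * D.re : ℤ) / q) := by
    intro k
    rw [gp, ← Complex.ofReal_natCast, pr_ph_div hm, ← ee_add, Zsqrtd.im_mul, ← add_div]
    push_cast
    rfl
  simp only [h]
  rw [grid, sum_product]
  dsimp only
  rw [← sum_mul_sum, sum_ee_range q hq, sum_ee_range q hq]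
  by_cases h1 : (q : ℤ) ∣ D.im <;> by_cases h2 : (q : ℤ) ∣ D.re <;> simp [h1, h2, sq]

/-- Finite Fourier inversion at the origin. -/
theorem inversion (m Mg : ℕ) (hm : 1 ≤ m) (hMg : 1 ≤ Mg) {Ω : Type} [Fintype Ω] (A : Ω → O m)
    (hA : ∀ ω, ‖ph m (A ω)‖ < Mg) (h0 : ∀ ω, A ω ≠ 0) :
    ∑ n ∈ grid Mg, ch A (gp m Mg n) = 0 := by
  unfold ch
  rw [← expect_sum_comm]
  refine expect_eq_zero fun ω _ => ?_
  rw [kernel_EGFour hm hMg, if_neg]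
  rintro ⟨h1, h2⟩
  have a1 : |(A ω).im| < Mg := by exact_mod_cast (abs_im_le hm (A ω)).trans_lt (hA ω)
  have a2 : |(A ω).re| < Mg := by exact_mod_cast (abs_re_le (A ω)).trans_lt (hA ω)
  exact h0 ω (Zsqrtd.ext (Int.eq_zero_of_abs_lt_dvd h2 a2) (Int.eq_zero_of_abs_lt_dvd h1 a1))

/-- The point `k / Q + c / Mg`. -/
noncomputable def mp (m Q Mg : ℕ) (k c : ℤ × ℤ) : ℂ := gp m Q k + gp m Mg c

/-- The square of radius `V`. -/
noncomputable def sqr (V : ℕ) : Finset (ℤ × ℤ) := Icc (-(V : ℤ)) V ×ˢ Icc (-(V : ℤ)) V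

theorem inj_EGFour {α β : Type} [DecidableEq β] {s : Finset α} {t : Finset β} (e : α → β)
    (he : Set.InjOn e s) (ht : ∀ a ∈ s, e a ∈ t) (f : β → ℝ) (hf : ∀ b, 0 ≤ f b) :
    ∑ a ∈ s, f (e a) ≤ ∑ b ∈ t, f b := by
  rw [← sum_image he]
  exact sum_le_sum_of_subset_of_nonneg (image_subset_iff.2 ht) fun b _ _ => hf b

/-- The square with a corner at the origin. -/
noncomputable def box_EGFour (L : ℕ) : Finset (ℤ × ℤ) := Icc (0 : ℤ) L ×ˢ Icc (0 : ℤ) L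

theorem card_EGFour (L : ℕ) : ((box_EGFour L).card : ℝ) = (L + 1) ^ 2 := by
  have : (Icc (0 : ℤ) L).card = L + 1 := by
    rw [Int.card_Icc]
    omega
  rw [box_EGFour, card_product, this]
  push_cast
  ring

theorem count_EGFour (V : ℕ) (g g0 : ℤ × ℤ → ℝ) (hg : ∀ c, 0 ≤ g c) (hg0 : ∀ c, 0 ≤ g0 c)
    (h : ∑ p ∈ box_EGFour (2 * V) ×ˢ box_EGFour (2 * V), g (p.1 - p.2) ≤
      ∑ p ∈ box_EGFour (2 * V) ×ˢ box_EGFour (2 * V), g0 (p.1 - p.2)) :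
    ∑ c ∈ sqr V, g c ≤ 4 * ∑ c ∈ sqr (2 * V), g0 c := by
  have h1 : (V + 1 : ℝ) ^ 2 * ∑ c ∈ sqr V, g c ≤
      ∑ p ∈ box_EGFour (2 * V) ×ˢ box_EGFour (2 * V), g (p.1 - p.2) := by
    refine le_trans (le_of_eq ?_) (inj_EGFour (s := sqr V ×ˢ box_EGFour V)
      (fun q => ((q.2.1 + max q.1.1 0, q.2.2 + max q.1.2 0),
        (q.2.1 + max (-q.1.1) 0, q.2.2 + max (-q.1.2) 0))) ?_ ?_ (fun p => g (p.1 - p.2))
      fun _ => hg _)
    · rw [sum_product, mul_sum]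
      refine sum_congr rfl fun c _ => ?_
      rw [← card_EGFour, ← nsmul_eq_mul, ← sum_const]
      refine sum_congr rfl fun t _ => congrArg g ?_
      ext <;> simp only [Prod.fst_sub, Prod.snd_sub] <;> omega
    · rintro ⟨⟨a, b⟩, c, d⟩ _ ⟨⟨a', b'⟩, c', d'⟩ _ e
      simp only [Prod.mk.injEq] at e ⊢
      omega
    · rintro ⟨⟨a, b⟩, c, d⟩ e
      simp only [sqr, box_EGFour, mem_product, mem_Icc] at e ⊢
      push_cast
      omega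
  have h2 : ∑ p ∈ box_EGFour (2 * V) ×ˢ box_EGFour (2 * V), g0 (p.1 - p.2) ≤
      (2 * V + 1 : ℝ) ^ 2 * ∑ c ∈ sqr (2 * V), g0 c := by
    have e := card_EGFour (2 * V)
    push_cast at e
    rw [sum_product_right, ← e, ← nsmul_eq_mul, ← sum_const]
    refine sum_le_sum fun a ha => inj_EGFour (fun x => x - a)
      (fun x _ y _ e => sub_left_injective e) ?_ g0 hg0
    rintro ⟨x, y⟩ e
    simp only [sqr, box_EGFour, mem_product, mem_Icc, Prod.fst_sub, Prod.snd_sub] at e ha ⊢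
    omega
  have h3 : 0 ≤ ∑ c ∈ sqr (2 * V), g0 c := sum_nonneg fun c _ => hg0 c
  have h4 : (2 * V + 1 : ℝ) ^ 2 ≤ (V + 1) ^ 2 * 4 := by nlinarith [Nat.cast_nonneg (α := ℝ) V]
  refine le_of_mul_le_mul_left ?_ (by positivity : (0 : ℝ) < (V + 1) ^ 2)
  calc _ ≤ (2 * V + 1 : ℝ) ^ 2 * ∑ c ∈ sqr (2 * V), g0 c := h1.trans (h.trans h2)
    _ ≤ (V + 1) ^ 2 * 4 * ∑ c ∈ sqr (2 * V), g0 c := mul_le_mul_of_nonneg_right h4 h3
    _ = _ := mul_assoc _ _ _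

theorem weight_EGFour {m Q : ℕ} (Mg : ℕ) (hm : 1 ≤ m) (hQ : 1 ≤ Q) (B : Finset (ℤ × ℤ)) (D : O m) :
    ∃ w : ℝ, 0 ≤ w ∧ ∀ θ : ℂ, ∑ p ∈ B ×ˢ B, ∑ k ∈ grid Q,
      ee (pr m (θ + mp m Q Mg k (p.1 - p.2)) (ph m D)) = ee (pr m θ (ph m D)) * w := by
  refine ⟨(if (Q : ℤ) ∣ D.im ∧ (Q : ℤ) ∣ D.re then (Q : ℝ) ^ 2 else 0) *
    ‖∑ a ∈ B, ee (pr m (gp m Mg a) (ph m D))‖ ^ 2, by positivity, fun θ => ?_⟩
  have h : ∀ (p : (ℤ × ℤ) × ℤ × ℤ) (k : ℤ × ℤ), ee (pr m (θ + mp m Q Mg k (p.1 - p.2)) (ph m D)) =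
      ee (pr m θ (ph m D)) * (ee (pr m (gp m Q k) (ph m D)) *
        (ee (pr m (gp m Mg p.1) (ph m D)) * conj (ee (pr m (gp m Mg p.2) (ph m D))))) := by
    intro p k
    have e : gp m Mg p.1 = gp m Mg (p.1 - p.2) + gp m Mg p.2 := by
      simp only [gp, phmk_EGFour, Prod.fst_sub, Prod.snd_sub]
      push_cast
      ring
    rw [← ee_neg, ← ee_add, ← ee_add, ← ee_add, mp, e, pr_add_left, pr_add_left, pr_add_left]
    congr 1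
    ring
  simp only [h, ← mul_sum, ← sum_mul]
  rw [kernel_EGFour hm hQ, sum_product]
  dsimp only
  rw [← sum_mul_sum, ← map_sum, Complex.mul_conj, Complex.normSq_eq_norm_sq]
  split_ifs <;> push_cast <;> ring

/-- Positivity: a shifted neighbourhood carries at most four times the mass of the main one. -/
theorem compare (m Q Mg V : ℕ) (hm : 1 ≤ m) (hQ : 1 ≤ Q) {Ω : Type} [Fintype Ω] (X : Ω → O m)
    (θ : ℂ) :
    ∑ k ∈ grid Q, ∑ c ∈ sqr V, ‖ch X (θ + mp m Q Mg k c)‖ ^ 2 ≤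
      4 * ∑ k ∈ grid Q, ∑ c ∈ sqr (2 * V), ‖ch X (mp m Q Mg k c)‖ ^ 2 := by
  choose w w0 hw using weight_EGFour Mg hm hQ (box_EGFour (2 * V))
  have key : ∀ θ : ℂ, ∑ p ∈ box_EGFour (2 * V) ×ˢ box_EGFour (2 * V), ∑ k ∈ grid Q,
      ‖ch X (θ + mp m Q Mg k (p.1 - p.2))‖ ^ 2 =
      𝔼 q : Ω × Ω, (ee (pr m θ (ph m (X q.1 - X q.2))) * w (X q.1 - X q.2)).re := by
    intro θ
    rw [← Complex.re_expect, ← Complex.ofReal_re (∑ p ∈ _, _)]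
    congr 1
    simp only [Complex.ofReal_sum, norm_ch_sq, ← expect_sum_comm, hw]
  rw [sum_comm, sum_comm (s := grid Q)]
  refine count_EGFour V _ _ (fun c => by positivity) (fun c => by positivity) ?_
  have k0 := key 0
  simp only [zero_add] at k0
  rw [key, k0]
  refine expect_le_expect fun q _ => ?_
  have e : pr m 0 (ph m (X q.1 - X q.2)) = 0 := by simp [pr]
  rw [e, ee_zero, one_mul, Complex.ofReal_re]
  refine (Complex.re_le_norm _).trans ?_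
  rw [norm_mul, norm_ee, one_mul, Complex.norm_real, Real.norm_of_nonneg (w0 _)]

/-- Reduction of an index modulo `Mg`. -/
def red (Mg : ℕ) (n : ℤ × ℤ) : ℤ × ℤ := (n.1 % Mg, n.2 % Mg)

/-- The index of a main point. -/
def mi (Q Mg : ℕ) (q : (ℤ × ℤ) × (ℤ × ℤ)) : ℤ × ℤ :=
  red Mg (q.1.1 * (Mg / Q : ℕ) + q.2.1, q.1.2 * (Mg / Q : ℕ) + q.2.2)

theorem mi_mem (Q Mg : ℕ) (hMg : 1 ≤ Mg) (q : (ℤ × ℤ) × (ℤ × ℤ)) : mi Q Mg q ∈ grid Mg := by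
  have h : (0 : ℤ) < Mg := by exact_mod_cast hMg
  simp only [mi, red, grid, mem_product, mem_Ico]
  exact ⟨⟨Int.emod_nonneg _ h.ne', Int.emod_lt_of_pos _ h⟩,
    Int.emod_nonneg _ h.ne', Int.emod_lt_of_pos _ h⟩

theorem mi_inj (Q Mg V : ℕ) (hQ : 1 ≤ Q) (hQM : Q ∣ Mg) (hV : 2 * V < Mg / Q) :
    Set.InjOn (mi Q Mg) (grid Q ×ˢ sqr V : Finset _) := by
  obtain ⟨N, rfl⟩ := hQM
  rw [Nat.mul_div_cancel_left _ hQ] at hV
  have key : ∀ k k' c c' : ℤ, 0 ≤ k → k < Q → 0 ≤ k' → k' < Q → -(V : ℤ) ≤ c → c ≤ V →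
      -(V : ℤ) ≤ c' → c' ≤ V → (k * N + c) % (Q * N : ℕ) = (k' * N + c') % (Q * N : ℕ) →
      k = k' ∧ c = c' := by
    intro k k' c c' a1 a2 a3 a4 a5 a6 a7 a8 h
    have h1 : (Q : ℤ) * N ∣ (k' - k) * N + (c' - c) := by
      have := Int.ModEq.dvd h
      push_cast at this
      rwa [show k' * N + c' - (k * N + c) = (k' - k) * N + (c' - c) by ring] at this
    have h2 : c' - c = 0 := Int.eq_zero_of_abs_lt_dvd
      ((dvd_add_right (dvd_mul_left _ _)).1 ((dvd_mul_left _ _).trans h1)) (abs_lt.2 (by omega))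
    rw [h2, add_zero, mul_dvd_mul_iff_right (by omega)] at h1
    have h3 := Int.eq_zero_of_abs_lt_dvd h1 (abs_lt.2 (by omega))
    omega
  rintro ⟨⟨a, b⟩, c, d⟩ h ⟨⟨a', b'⟩, c', d'⟩ h' e
  simp only [coe_product, Set.mem_prod, mem_coe, grid, sqr, mem_Ico, mem_Icc] at h h'
  simp only [mi, red, Nat.mul_div_cancel_left _ hQ, Prod.mk.injEq] at e ⊢
  have k1 := key a a' c c' h.1.1.1 h.1.1.2 h'.1.1.1 h'.1.1.2 h.2.1.1 h.2.1.2 h'.2.1.1 h'.2.1.2 e.1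
  have k2 := key b b' d d' h.1.2.1 h.1.2.2 h'.1.2.1 h'.1.2.2 h.2.2.1 h.2.2.2 h'.2.2.1 h'.2.2.2 e.2
  exact ⟨⟨k1.1, k2.1⟩, k1.2, k2.2⟩

theorem gp_mi (m Q Mg : ℕ) (hQ : 1 ≤ Q) (hMg : 1 ≤ Mg) (hQM : Q ∣ Mg) (q : (ℤ × ℤ) × (ℤ × ℤ)) :
    ∃ a : O m, gp m Mg (mi Q Mg q) = mp m Q Mg q.1 q.2 + ph m a := by
  obtain ⟨N, rfl⟩ := hQM
  have h1 : (Q : ℂ) ≠ 0 := Nat.cast_ne_zero.2 (by omega)
  have h2 : (N : ℂ) ≠ 0 := Nat.cast_ne_zero.2 (by rintro rfl; simp at hMg)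
  refine ⟨⟨-((q.1.1 * N + q.2.1) / (Q * N : ℕ)), -((q.1.2 * N + q.2.2) / (Q * N : ℕ))⟩, ?_⟩
  simp only [mp, gp, mi, red, Nat.mul_div_cancel_left _ hQ, phmk_EGFour, Int.emod_def]
  generalize (q.1.1 * N + q.2.1) / (Q * N : ℕ) = x
  generalize (q.1.2 * N + q.2.2) / (Q * N : ℕ) = y
  push_cast
  field_simp
  ring

end Pool.Agent.P.MP_b75a1e_co.EG
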