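import Pool.Agent.P.MP_b75a1e_co.EGHensel
import Pool.Agent.P.MP_b75a1e_co.EGHeight

set_option autoImplicit false

open Finset
open scoped BigOperators ComplexConjugate

namespace Pool.Agent.P.MP_b75a1e_co.EG

theorem split_EGHErr {r len : ℕ} (g : (Fin r → Fin len) → (Fin r → Fin len) → ℝ) :
    𝔼 t : Bool × Fin r → Fin len, g (fun i => t (false, i)) (fun i => t (true, i)) =
      𝔼 a, 𝔼 b, g a b := by
  let e : (Bool × Fin r → Fin len) ≃ (Fin r → Fin len) × (Fin r → Fin len) :=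
    { toFun := fun t => (fun i => t (false, i), fun i => t (true, i))
      invFun := fun q x => cond x.1 (q.2 x.2) (q.1 x.2)
      left_inv := fun t => funext fun ⟨b, i⟩ => by cases b <;> rfl
      right_inv := fun q => rfl }
  refine (Fintype.expect_equiv e _ (fun q => g q.1 q.2) fun _ => rfl).trans ?_
  rw [← univ_product_univ, expect_product]

theorem sqrt_EGHErr {ι : Type} [Fintype ι] [Nonempty ι] {f g : ι → ℝ} {c : ℝ} (hc : 0 < c)
    (hfg : ∀ i, f i ≤ g i) (h : 𝔼 i, g i ^ 2 ≤ c) : 𝔼 i, f i ≤ √c := by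
  have h0 := Real.sqrt_pos.2 hc
  have h1 := Real.mul_self_sqrt hc.le
  refine le_of_mul_le_mul_right ?_ h0
  rw [expect_mul]
  refine (expect_le_expect (g := fun i => (g i ^ 2 + c) * (1 / 2)) fun i _ => ?_).trans ?_
  · have := mul_le_mul_of_nonneg_right (hfg i) h0.le
    nlinarith [sq_nonneg (g i - √c)]
  · rw [← expect_mul, expect_add_distrib, Fintype.expect_const]
    linarith

theorem one_EGHErr {m r : ℕ} {M M' : ℕ} (h : M ∣ M') (t : Fin r → ℕ) :
    (M : O m) ∣ base (fun i => hz m M' (t i)) - 1 :=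
  dvd_base_sub_one _ _ fun i => (nat_dvd_iff _ _).2
    ⟨by simp [hz], by simpa [hz] using (Int.natCast_dvd_natCast.2 h).mul_right _⟩

open Classical in
/-- The expected contribution of the deep denominators. -/
theorem hensel_err (m p Y r A len Mg : ℕ) (H NN0 : ℝ) (Γ : O m) (hm : 1 ≤ m) (hp : 1 ≤ p)
    (h0 : 0 < NN0) (hH : 1 ≤ H) (hΓ : Shape m Y Γ) (hlen : 1 ≤ len) (hA : 100 * H ^ 2 ≤ A)
    (hMg : (Mg : ℝ) ≤ 9 * p * Real.sqrt NN0)
    (hN : ∀ t : Bool × Fin r → Fin len,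
      ((Γ * (base (fun i => hz m (M1 m Y) (A + t (false, i))) *
        base fun i => hz m (M2 m Y) (A + t (true, i)))).norm : ℝ) ≤ 2 * NN0) :
    𝔼 t : Bool × Fin r → Fin len, ∑ n ∈ (grid Mg).filter
      (fun n => ∃ (β : O m) (d : ℕ), Near m (gp m Mg n) β d H NN0 ∧ Deep Y (QQ m Y) d),
      ‖FI Γ (fun i => hz m (M1 m Y) (A + t (false, i))) (fun i => hz m (M2 m Y) (A + t (true, i)))
          (gp m Mg n)‖ *
        ‖FII Γ (fun i => hz m (M1 m Y) (A + t (false, i))) (fun i => hz m (M2 m Y) (A + t (true, i)))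
          (gp m Mg n)‖ ≤ 400 * (p : ℝ) ^ 2 * H ^ 4 * Real.sqrt (1 / 2 ^ r + H / len) := by
  have : Nonempty (Fin len) := ⟨⟨0, hlen⟩⟩
  have hc : (0 : ℝ) < 1 / 2 ^ r + H / len := by positivity
  have hN' : ∀ a b : Fin r → Fin len, ((Γ * (base (fun i => hz m (M1 m Y) (A + a i)) *
      base fun i => hz m (M2 m Y) (A + b i))).norm : ℝ) ≤ 2 * NN0 :=
    fun a b => hN fun x => cond x.1 (b x.2) (a x.2)
  rw [expect_sum_comm]
  refine (sum_le_card_nsmul _ _ (√(1 / 2 ^ r + H / len)) fun n hn => ?_).trans ?_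
  · obtain ⟨β, d, h1, l, j, hl, hlY, hld, hlQ⟩ := (mem_filter.1 hn).2
    by_cases hβ : (l : ℤ) ∣ β.re
    · refine sqrt_EGHErr hc (fun t => mul_le_of_le_one_left (norm_nonneg _) (norm_ch_le _ _)) ?_
      refine (split_EGHErr fun a b => ‖FII Γ (fun i => hz m (M1 m Y) (A + a i))
        (fun i => hz m (M2 m Y) (A + b i)) (gp m Mg n)‖ ^ 2).trans_le
        (expect_le univ_nonempty fun a _ => ?_)
      exact henselII m Y r A len H NN0 _ _ β d l j hm h0
        (hΓ.mul (one_EGHErr dvd_rfl fun i => A + a i)) h1 hl hlY hld hlQ hβ hlen hA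
        fun b => by simpa only [mul_assoc] using hN' a b
    · refine sqrt_EGHErr hc (fun t => mul_le_of_le_one_right (norm_nonneg _) (norm_ch_le _ _)) ?_
      refine (split_EGHErr fun a b => ‖FI Γ (fun i => hz m (M1 m Y) (A + a i))
        (fun i => hz m (M2 m Y) (A + b i)) (gp m Mg n)‖ ^ 2).trans_le ?_
      rw [expect_comm]
      refine expect_le univ_nonempty fun b _ => ?_
      exact henselI m Y r A len H NN0 _ _ β d l j hm h0
        (hΓ.mul (one_EGHErr ((M2_eq m Y).symm ▸ dvd_mul_left _ _) fun i => A + b i))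
        h1 hl hlY hld hlQ hβ hlen hA fun a => by
          rw [mul_right_comm, mul_assoc]
          exact hN' a b
  · rw [nsmul_eq_mul]
    refine mul_le_mul_of_nonneg_right (le_trans ?_ (count_near m p Mg hm hp H NN0 hH h0 hMg))
      (Real.sqrt_nonneg _)
    exact Nat.cast_le.2 (card_le_card fun n hn => mem_filter.2 ⟨(mem_filter.1 hn).1,
      (mem_filter.1 hn).2.imp fun β h => h.imp fun d h => h.1⟩)

end Pool.Agent.P.MP_b75a1e_co.EG
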