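import Pool.Agent.P.MP_b75a1e_co.EGArith

set_option autoImplicit false

open Finset
open scoped BigOperators ComplexConjugate

namespace Pool.Agent.P.MP_b75a1e_co.EG

/-- Second moment over a random cube with phases that are linear in each coordinate. -/
theorem second_moment (r len : ℕ) (hlen : 1 ≤ len) (H : ℝ) (hH : 0 < H)
    (f : (Fin r → Fin len) → (Fin r → Bool) → ℝ)
    (hf : ∀ ε ε' : Fin r → Bool, ε ≠ ε' → ∃ j, ∀ t, ∃ a b : ℝ, (∀ z : ℤ, 1 / (2 * H) ≤ |b - z|) ∧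
      ∀ v : Fin len, f (Function.update t j v) ε - f (Function.update t j v) ε' = a + b * (v : ℕ)) :
    𝔼 t : Fin r → Fin len, ‖𝔼 ε : Fin r → Bool, ee (f t ε)‖ ^ 2 ≤ 1 / 2 ^ r + H / len := by
  have hl : (0 : ℝ) < len := by exact_mod_cast hlen
  have : Nonempty (Fin len) := ⟨⟨0, hlen⟩⟩
  have key : ∀ ε ε' : Fin r → Bool, ‖𝔼 t : Fin r → Fin len, ee (f t ε - f t ε')‖ ≤
      (if ε = ε' then (1 : ℝ) else 0) + H / len := by
    intro ε ε'
    split_ifs with h
    · subst h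
      simp only [sub_self, ee_zero, Fintype.expect_const, norm_one, le_add_iff_nonneg_right]
      positivity
    obtain ⟨j, hj⟩ := hf ε ε' h
    rw [expect_update_c _ j, zero_add]
    refine (RCLike.norm_expect_le (K := ℂ)).trans (expect_le univ_nonempty fun t _ => ?_)
    obtain ⟨a, b, hb, hv⟩ := hj t
    simp only [hv]
    have h1 := geom_ee a b (1 / (2 * H)) (by positivity) hb len
    rw [Fintype.expect_eq_sum_div_card, Fintype.card_fin, norm_div, Complex.norm_natCast,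
      Fin.sum_univ_eq_sum_range (fun v => ee (a + b * (v : ℕ))) len]
    refine div_le_div_of_nonneg_right (h1.trans_eq ?_) hl.le
    field_simp
  have h1 : ∀ t, ((‖𝔼 ε : Fin r → Bool, ee (f t ε)‖ ^ 2 : ℝ) : ℂ) =
      𝔼 ε : Fin r → Bool, 𝔼 ε' : Fin r → Bool, ee (f t ε - f t ε') := fun t => by
    rw [Complex.ofReal_pow, ← Complex.mul_conj', map_expect, expect_mul_expect]
    simp only [sub_eq_add_neg, ee_add, ee_neg]
  have h2 : ((𝔼 t : Fin r → Fin len, ‖𝔼 ε : Fin r → Bool, ee (f t ε)‖ ^ 2 : ℝ) : ℂ) =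
      𝔼 ε : Fin r → Bool, 𝔼 ε' : Fin r → Bool, 𝔼 t : Fin r → Fin len, ee (f t ε - f t ε') := by
    rw [Complex.ofReal_expect]
    simp only [h1]
    rw [expect_comm]
    exact expect_congr rfl fun ε _ => expect_comm _ _ _
  refine (le_abs_self _).trans ?_
  rw [← Real.norm_eq_abs, ← Complex.norm_real, h2]
  refine (RCLike.norm_expect_le (K := ℂ)).trans (expect_le univ_nonempty fun ε _ => ?_)
  refine (RCLike.norm_expect_le (K := ℂ)).trans
    ((expect_le_expect fun ε' _ => key ε ε').trans_eq ?_)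
  rw [expect_add_distrib, Fintype.expect_const, Fintype.expect_eq_sum_div_card]
  simp

theorem dvd_prod_EGHensel {R ι : Type} [CommRing R] (s : Finset ι) (a : R) (f g : ι → R)
    (h : ∀ i ∈ s, a ∣ f i - g i) : a ∣ ∏ i ∈ s, f i - ∏ i ∈ s, g i := by
  classical
  induction s using Finset.induction_on with
  | empty => simp
  | insert i s hi ih =>
    rw [prod_insert hi, prod_insert hi, show f i * ∏ i ∈ s, f i - g i * ∏ i ∈ s, g i =
      f i * (∏ i ∈ s, f i - ∏ i ∈ s, g i) + (f i - g i) * ∏ i ∈ s, g i by ring]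
    exact ((ih fun k hk => h k (mem_insert_of_mem hk)).mul_left _).add
      ((h i (mem_insert_self _ _)).mul_right _)

theorem hz_EGHensel (m M t : ℕ) (b : Bool) : (if b then hz m M t else star (hz m M t)) =
    1 + (((if b then 1 else -1 : ℤ) : O m)) * ((M : O m) * (t : O m) * rt m) := by
  cases b <;> ext <;> simp [hz, rt]

theorem phase_EGHensel {m : ℕ} (hm : 1 ≤ m) (θ : ℂ) (y y' P V : O m) (v : ℕ)
    (h : y - y' = P + (v : O m) * (mu m * V)) :
    pr m (θ / ph m (mu m)) (ph m y) - pr m (θ / ph m (mu m)) (ph m y') =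
      pr m (θ / ph m (mu m)) (ph m P) + pr m θ (ph m V) * v := by
  have h0 := ph_ne_zero hm (mu_ne_zero hm)
  rw [← pr_sub_right, ← map_sub, h, map_add, pr_add_right, map_mul, map_mul, map_natCast]
  unfold pr
  rw [show θ / ph m (mu m) * ((v : ℂ) * (ph m (mu m) * ph m V)) = θ * ph m V * ((v : ℝ) : ℂ) by
    push_cast
    field_simp, Complex.im_mul_ofReal]
  ring

/-- Two vertices that differ in the coordinate `j`. -/
theorem split_EGHensel {m r len : ℕ} (hm : 1 ≤ m) (k A : ℕ) (Γ : O m) (NN0 : ℝ)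
    (hN : ∀ t : Fin r → Fin len,
      ((Γ * base fun i => hz m (k * m) (A + t i)).norm : ℝ) ≤ 2 * NN0)
    {ε ε' : Fin r → Bool} {j : Fin r} (hj : ε j ≠ ε' j) (t : Fin r → Fin len) :
    ∃ (P D : O m) (s : ℤ), (s = 1 ∨ s = -1) ∧ ((k * m : ℕ) : O m) ∣ D - 1 ∧
      ‖ph m (2 * k * (Γ * D))‖ * A ≤ 2 * √(2 * NN0) ∧ ∀ v : Fin len,
        Γ * cube (fun i => hz m (k * m) (A + Function.update t j v i)) ε -
          Γ * cube (fun i => hz m (k * m) (A + Function.update t j v i)) ε' =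
            P + ((v : ℕ) : O m) * (mu m * (s * (2 * k * (Γ * D)))) := by
  let C : (Fin r → Bool) → O m := fun e =>
    ∏ i ∈ univ.erase j, if e i then hz m (k * m) (A + t i) else star (hz m (k * m) (A + t i))
  have hc : ∀ (e : Fin r → Bool) (v : Fin len),
      cube (fun i => hz m (k * m) (A + Function.update t j v i)) e =
        (if e j then hz m (k * m) (A + v) else star (hz m (k * m) (A + v))) * C e := fun e v => by
    rw [cube, ← mul_prod_erase _ _ (mem_univ j), Function.update_self]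
    exact congrArg _ (prod_congr rfl fun i hi => by rw [Function.update_of_ne (ne_of_mem_erase hi)])
  have h1 : ((k * m : ℕ) : O m) ∣ C ε' - 1 := by
    have := dvd_prod_EGHensel (univ.erase j) ((k * m : ℕ) : O m) (fun i =>
      if ε' i then hz m (k * m) (A + t i) else star (hz m (k * m) (A + t i))) (fun _ => 1)
      fun i _ => by
        rw [hz_EGHensel, add_sub_cancel_left]
        exact ((dvd_mul_right _ _).mul_right _).mul_left _
    rwa [prod_const_one] at this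
  obtain ⟨w, hw⟩ : 2 * ((k * m : ℕ) : O m) ∣ C ε - C ε' :=
    dvd_prod_EGHensel _ _ _ _ fun i _ => by
      rw [hz_EGHensel, hz_EGHensel]
      cases ε i <;> cases ε' i
      · simp
      · exact ⟨-(((A + t i : ℕ) : O m) * rt m), by push_cast; simp; ring⟩
      · exact ⟨((A + t i : ℕ) : O m) * rt m, by push_cast; simp; ring⟩
      · simp
  have h2 : ∀ e, ‖ph m (k * (Γ * C e))‖ * A ≤ √(2 * NN0) := fun e => by
    have h3 := hN t
    have h4 := hc e (t j)
    rw [Function.update_eq_self] at h4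
    rw [Zsqrtd.norm_mul, ← norm_cube _ e, ← Zsqrtd.norm_mul, h4, ← norm_sq_ph, mul_left_comm,
      map_mul, norm_mul] at h3
    refine le_trans ?_ (Real.le_sqrt_of_sq_le h3)
    rw [map_mul, norm_mul, map_natCast, Complex.norm_natCast, mul_right_comm]
    refine mul_le_mul_of_nonneg_right (le_trans ?_ (abs_im_le hm _)) (norm_nonneg _)
    have h5 : (k : ℝ) * A ≤ k * m * (A + (t j : ℕ)) := by
      have : (1 : ℝ) ≤ m := by exact_mod_cast hm
      have h6 : (0 : ℝ) ≤ k := Nat.cast_nonneg k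
      exact mul_le_mul (le_mul_of_one_le_right h6 this)
        (le_add_of_nonneg_right (Nat.cast_nonneg _)) (Nat.cast_nonneg _) (by positivity)
    refine h5.trans ?_
    cases e j
    · refine le_trans (le_of_eq ?_) (neg_le_abs _)
      simp [hz]
    · refine le_trans (le_of_eq ?_) (le_abs_self _)
      simp [hz]
  have h7 : C ε = C ε' + 2 * ((k * m : ℕ) : O m) * w := by rw [← hw]; ring
  refine ⟨Γ * (C ε - C ε') + ((if ε j then 1 else -1 : ℤ) : O m) *
    (((k * m : ℕ) : O m) * A * rt m) * (Γ * (C ε + C ε')), C ε' + ((k * m : ℕ) : O m) * w,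
    if ε j then 1 else -1, by split_ifs <;> simp, ?_, ?_, fun v => ?_⟩
  · rw [add_sub_right_comm]
    exact h1.add (dvd_mul_right _ _)
  · rw [show 2 * (k : O m) * (Γ * (C ε' + ((k * m : ℕ) : O m) * w)) =
      k * (Γ * C ε) + k * (Γ * C ε') by rw [h7]; ring, map_add]
    have := mul_le_mul_of_nonneg_right (norm_add_le (ph m (k * (Γ * C ε))) (ph m (k * (Γ * C ε'))))
      (Nat.cast_nonneg (α := ℝ) A)
    linarith [h2 ε, h2 ε']
  · have h8 : ((if ε' j then 1 else -1 : ℤ) : O m) = -((if ε j then 1 else -1 : ℤ) : O m) := by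
      revert hj
      cases ε j <;> cases ε' j <;> simp
    rw [hc, hc, hz_EGHensel, hz_EGHensel, h8, h7, mu_eq]
    push_cast
    ring

/-- The slope stays away from the integers. -/
theorem slope_EGHensel {m d l j Q A : ℕ} {H NN0 : ℝ} {θ : ℂ} {β V : O m} {N0 : ℤ} (hm : 1 ≤ m)
    (h0 : 0 < NN0) (hn : Near m θ β d H NN0) (hl : l.Prime) (hld : l ^ j ∣ d) (hlQ : ¬ l ^ j ∣ Q)
    (hA : 100 * H ^ 2 ≤ A) (hV : (β * V).im = Q * N0) (hN : ¬ (l : ℤ) ∣ N0)
    (hb : ‖ph m V‖ * A ≤ 4 * √(2 * NN0)) (z : ℤ) : 1 / (2 * H) ≤ |pr m θ (ph m V) - z| := by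
  obtain ⟨hd, hdH, -, hη⟩ := hn
  have hd' : (1 : ℝ) ≤ d := by exact_mod_cast hd
  have hH : 1 ≤ H := hd'.trans hdH
  have h1 : pr m θ (ph m V) = ((Q * N0 : ℤ) : ℝ) / d + pr m (θ - ph m β / d) (ph m V) := by
    rw [← hV, ← pr_ph_div hm, ← pr_add_left, Complex.ofReal_natCast, add_sub_cancel]
  have h2 : (Q * N0 - z * d : ℤ) ≠ 0 := fun h => by
    have h3 : ((l : ℤ)) ^ j ∣ Q * N0 := by
      rw [sub_eq_zero.1 h]
      exact Dvd.dvd.mul_left (by exact_mod_cast hld) _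
    have h4 : IsCoprime ((l : ℤ) ^ j) N0 :=
      ((Nat.prime_iff_prime_int.1 hl).irreducible.coprime_iff_not_dvd.2 hN).pow_left
    exact hlQ (by exact_mod_cast h4.dvd_of_dvd_mul_right h3)
  have h3 : 1 / H ≤ |((Q * N0 : ℤ) : ℝ) / d - z| := by
    have h4 : (1 : ℝ) ≤ |((Q * N0 - z * d : ℤ) : ℝ)| := by exact_mod_cast Int.one_le_abs h2
    rw [show ((Q * N0 : ℤ) : ℝ) / d - z = ((Q * N0 - z * d : ℤ) : ℝ) / d by
      push_cast
      field_simp, abs_div, Nat.abs_cast]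
    exact div_le_div₀ (abs_nonneg _) h4 (by linarith) hdH
  have h4 : |pr m (θ - ph m β / d) (ph m V)| ≤ 1 / (2 * H) := by
    refine (abs_pr_le hm _ _).trans ?_
    generalize ‖θ - ph m β / d‖ = e at hη
    have hp := norm_nonneg (ph m V)
    generalize ‖ph m V‖ = u at hb hp
    have hA0 : (0 : ℝ) < A := lt_of_lt_of_le (by positivity) hA
    have h5 : (u * A) ^ 2 ≤ 32 * NN0 := by
      have := pow_le_pow_left₀ (by positivity) hb 2
      rw [mul_pow 4, Real.sq_sqrt (by positivity)] at this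
      linarith
    have h6 : (e * u * A) ^ 2 ≤ 32 * H := by
      have := mul_le_mul_of_nonneg_left h5 (sq_nonneg e)
      nlinarith
    have h7 : e * u * A ≤ 50 * H := by
      refine (abs_le_of_sq_le_sq' (h6.trans ?_) (by positivity)).2
      nlinarith
    rw [le_div_iff₀ (by positivity)]
    refine le_of_mul_le_mul_right ?_ hA0
    nlinarith
  have h5 := abs_sub_abs_le_abs_add (((Q * N0 : ℤ) : ℝ) / d - z) (pr m (θ - ph m β / d) (ph m V))
  rw [h1, add_sub_right_comm]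
  have h6 : 1 / H = 1 / (2 * H) + 1 / (2 * H) := by
    field_simp
    ring
  linarith

/-- L9, second family. -/
theorem henselII (m Y r A len : ℕ) (H NN0 : ℝ) (Γ : O m) (θ : ℂ) (β : O m) (d l j : ℕ) (hm : 1 ≤ m)
    (h0 : 0 < NN0) (hΓ : Shape m Y Γ) (hn : Near m θ β d H NN0) (hl : l.Prime) (hlY : l ≤ Y)
    (hld : l ^ j ∣ d) (hlQ : ¬ l ^ j ∣ QQ m Y) (hβ : (l : ℤ) ∣ β.re) (hlen : 1 ≤ len)
    (hA : 100 * H ^ 2 ≤ A)
    (hN : ∀ t : Fin r → Fin len,
      ((Γ * base fun i => hz m (M2 m Y) (A + t i)).norm : ℝ) ≤ 2 * NN0) :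
    𝔼 t : Fin r → Fin len, ‖ch (fun ε : Fin r → Bool => Γ * cube (fun i => hz m (M2 m Y) (A + t i)) ε)
      (θ / ph m (mu m))‖ ^ 2 ≤ 1 / 2 ^ r + H / len := by
  have hH : 0 < H := lt_of_lt_of_le (by exact_mod_cast hn.1) hn.2.1
  refine second_moment r len hlen H hH (fun t ε => pr m (θ / ph m (mu m))
    (ph m (Γ * cube (fun i => hz m (M2 m Y) (A + t i)) ε))) fun ε ε' h => ?_
  obtain ⟨i, hi⟩ := Function.ne_iff.1 h
  refine ⟨i, fun t => ?_⟩
  obtain ⟨P, D, s, hs, h1, h2, h3⟩ := split_EGHensel hm (2 * cc m ^ 3 * Q1 m Y) A Γ NN0 hN hi t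
  have hG : Shape m Y (Γ * D) := hΓ.mul (Dvd.dvd.trans
    (Nat.cast_dvd_cast ((M2_eq m Y).symm ▸ dvd_mul_left _ _ : M1 m Y ∣ M2 m Y)) h1)
  have hp := Nat.prime_iff_prime_int.1 hl
  have hj : j ≠ 0 := fun h => hlQ (by simp [h])
  have hβ' : ¬ (l : ℤ) ∣ β.im := fun h =>
    hn.2.2.1 l hl ((dvd_pow_self l hj).trans hld) ((nat_dvd_iff l β).2 ⟨hβ, h⟩)
  refine ⟨_, _, slope_EGHensel (N0 := s * (β * (Γ * D)).im) hm h0 hn hl hld hlQ hA ?_ ?_ ?_,
    fun v => phase_EGHensel hm θ _ _ _ _ _ (h3 v)⟩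
  · generalize Γ * D = G
    rw [show β * ((s : O m) * (2 * ((2 * cc m ^ 3 * Q1 m Y : ℕ) : O m) * G)) =
      (((QQ m Y * s : ℤ)) : O m) * (β * G) by
        unfold QQ
        push_cast
        ring, Zsqrtd.im_mul, Zsqrtd.re_intCast, Zsqrtd.im_intCast]
    ring
  · intro h
    have h4 : (l : ℤ) ∣ (β * (Γ * D)).im := by
      generalize (β * (Γ * D)).im = x at h
      rcases hs with rfl | rfl <;> simpa using h
    rw [Zsqrtd.im_mul] at h4
    exact (hp.dvd_or_dvd ((dvd_add_right (hβ.mul_right _)).1 h4)).elim hβ' (hG.re l hl hlY)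
  · rw [map_mul, norm_mul, map_intCast, Complex.norm_intCast,
      show |(s : ℝ)| = 1 by rcases hs with rfl | rfl <;> simp, one_mul]
    linarith [Real.sqrt_nonneg (2 * NN0)]

/-- L9, first family. -/
theorem henselI (m Y r A len : ℕ) (H NN0 : ℝ) (Γ : O m) (θ : ℂ) (β : O m) (d l j : ℕ) (hm : 1 ≤ m)
    (h0 : 0 < NN0) (hΓ : Shape m Y Γ) (hn : Near m θ β d H NN0) (hl : l.Prime) (hlY : l ≤ Y)
    (hld : l ^ j ∣ d) (hlQ : ¬ l ^ j ∣ QQ m Y) (hβ : ¬ (l : ℤ) ∣ β.re) (hlen : 1 ≤ len)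
    (hA : 100 * H ^ 2 ≤ A)
    (hN : ∀ t : Fin r → Fin len,
      ((Γ * base fun i => hz m (M1 m Y) (A + t i)).norm : ℝ) ≤ 2 * NN0) :
    𝔼 t : Fin r → Fin len, ‖ch (fun ε : Fin r → Bool =>
      Γ * cube (fun i => hz m (M1 m Y) (A + t i)) ε +
        star (Γ * cube (fun i => hz m (M1 m Y) (A + t i)) ε)) (θ / ph m (mu m))‖ ^ 2 ≤
      1 / 2 ^ r + H / len := by
  have hH : 0 < H := lt_of_lt_of_le (by exact_mod_cast hn.1) hn.2.1
  refine second_moment r len hlen H hH (fun t ε => pr m (θ / ph m (mu m))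
    (ph m (Γ * cube (fun i => hz m (M1 m Y) (A + t i)) ε +
      star (Γ * cube (fun i => hz m (M1 m Y) (A + t i)) ε)))) fun ε ε' h => ?_
  obtain ⟨i, hi⟩ := Function.ne_iff.1 h
  refine ⟨i, fun t => ?_⟩
  obtain ⟨P, D, s, hs, h1, h2, h3⟩ := split_EGHensel hm (cc m ^ 2 * Q1 m Y) A Γ NN0 hN hi t
  obtain ⟨b, hb, hb'⟩ := (hΓ.mul h1).im hm
  have hp := Nat.prime_iff_prime_int.1 hl
  generalize Γ * D = G at h2 h3 hb
  refine ⟨pr m (θ / ph m (mu m)) (ph m (P + star P)), _, slope_EGHensel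
    (V := (s : O m) * (2 * ((cc m ^ 2 * Q1 m Y : ℕ) : O m) * G -
      star (2 * ((cc m ^ 2 * Q1 m Y : ℕ) : O m) * G)))
    (N0 := s * (b * β.re)) hm h0 hn hl hld hlQ hA ?_ ?_ ?_,
    fun v => phase_EGHensel hm θ _ _ _ _ _ ?_⟩
  · have h4 : 2 * ((cc m ^ 2 * Q1 m Y : ℕ) : O m) = ((2 * (cc m ^ 2 * Q1 m Y) : ℕ) : O m) := by
      push_cast
      ring
    simp only [h4, Zsqrtd.im_mul, Zsqrtd.re_mul, Zsqrtd.re_intCast, Zsqrtd.im_intCast,
      Zsqrtd.re_sub, Zsqrtd.im_sub, Zsqrtd.re_star, Zsqrtd.im_star, Zsqrtd.re_natCast,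
      Zsqrtd.im_natCast, hb, QQ]
    push_cast
    ring
  · intro h
    have h4 : (l : ℤ) ∣ b * β.re := by
      rcases hs with rfl | rfl <;> simpa using h
    exact (hp.dvd_or_dvd h4).elim (hb' l hl hlY) hβ
  · rw [map_mul, norm_mul, map_intCast, Complex.norm_intCast,
      show |(s : ℝ)| = 1 by rcases hs with rfl | rfl <;> simp, one_mul, map_sub, ph_star]
    generalize ph m (2 * ((cc m ^ 2 * Q1 m Y : ℕ) : O m) * G) = u at h2
    have := mul_le_mul_of_nonneg_right (norm_sub_le u (conj u)) (Nat.cast_nonneg (α := ℝ) A)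
    rw [Complex.norm_conj] at this
    linarith
  · have h4 := h3 v
    have h5 := congrArg star h4
    rw [star_sub, star_add, star_mul' ((v : ℕ) : O m), star_mul' (mu m), star_mul' (s : O m),
      star_mu, star_natCast, star_intCast] at h5
    rw [add_sub_add_comm]
    refine (congrArg₂ (· + ·) h4 h5).trans ?_
    ring

end Pool.Agent.P.MP_b75a1e_co.EG
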