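import Pool.Agent.P.MP_b75a1e_co.EGAtom

set_option autoImplicit false

open Finset
open scoped BigOperators ComplexConjugate

namespace Pool.Agent.P.MP_b75a1e_co.EG

/-- The potential of a set of primes. -/
def Phi_EGLevel {ι : Type} (I : Finset ι) (a : ι → Finset ℕ) (lam : ℕ) (D : Finset ℕ) : ℕ :=
  ∑ q ∈ I, lam ^ (D ∩ a q).card

theorem mono_EGLevel {ι : Type} (I : Finset ι) (a : ι → Finset ℕ) {lam : ℕ} (hl : 1 ≤ lam)
    {D D' : Finset ℕ} (h : D ⊆ D') : Phi_EGLevel I a lam D ≤ Phi_EGLevel I a lam D' :=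
  sum_le_sum fun _ _ => Nat.pow_le_pow_right hl (card_le_card (inter_subset_inter_right h))

theorem one_EGLevel {ι : Type} (I : Finset ι) (a : ι → Finset ℕ) {lam ρ0 : ℕ} (hl : 1 ≤ lam)
    (ha : ∀ q ∈ I, (a q).card ≤ ρ0) (D R : Finset ℕ) (hR : lam * ρ0 ≤ R.card) (hne : R.Nonempty) :
    ∃ l ∈ R, Phi_EGLevel I a lam (insert l D) ≤ 2 * Phi_EGLevel I a lam D := by
  refine exists_le_of_sum_le hne ?_
  unfold Phi_EGLevel
  rw [sum_comm, sum_const, smul_eq_mul, mul_sum, mul_sum]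
  refine sum_le_sum fun q hq => ?_
  have h1 : ∀ l ∈ R, lam ^ (insert l D ∩ a q).card ≤
      lam ^ (D ∩ a q).card * (1 + if l ∈ a q then lam else 0) := by
    intro l _
    split_ifs with h
    · rw [insert_inter_of_mem h]
      refine (Nat.pow_le_pow_right hl (card_insert_le _ _)).trans ?_
      rw [pow_succ]
      exact Nat.mul_le_mul_left _ (by omega)
    · rw [insert_inter_of_notMem h]
      simp
  refine (sum_le_sum h1).trans ?_
  rw [← mul_sum, sum_add_distrib, sum_const, smul_eq_mul, mul_one, sum_ite_mem, sum_const,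
    smul_eq_mul]
  have h2 : (R ∩ a q).card * lam ≤ R.card := by
    refine le_trans ?_ hR
    rw [mul_comm]
    exact Nat.mul_le_mul_left _ ((card_le_card inter_subset_right).trans (ha q hq))
  calc _ ≤ lam ^ (D ∩ a q).card * (R.card + R.card) := Nat.mul_le_mul_left _ (by omega)
    _ = _ := by ring

theorem many_EGLevel {ι : Type} (I : Finset ι) (a : ι → Finset ℕ) {lam ρ0 n' : ℕ} (hl : 1 ≤ lam)
    (ha : ∀ q ∈ I, (a q).card ≤ ρ0) (hn : lam * ρ0 ≤ n') (hn1 : 1 ≤ n') (PP D : Finset ℕ) (t : ℕ)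
    (ht : n' + D.card + t ≤ PP.card) : ∃ C ⊆ PP, Disjoint D C ∧ C.card = t ∧
      Phi_EGLevel I a lam (D ∪ C) ≤ 2 ^ t * Phi_EGLevel I a lam D := by
  induction t with
  | zero => exact ⟨∅, empty_subset _, disjoint_empty_right _, rfl, by simp⟩
  | succ t ih =>
    obtain ⟨C, h1, h2, h3, h4⟩ := ih (by omega)
    have h5 : n' ≤ (PP \ (D ∪ C)).card := by
      have := le_card_sdiff (D ∪ C) PP
      have := card_union_le D C
      omega
    obtain ⟨l, h6, h7⟩ := one_EGLevel I a hl ha (D ∪ C) (PP \ (D ∪ C)) (hn.trans h5)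
      (card_pos.1 (by omega))
    rw [mem_sdiff, mem_union, not_or] at h6
    refine ⟨insert l C, insert_subset h6.1 h1, disjoint_insert_right.2 ⟨h6.2.1, h2⟩,
      by rw [card_insert_of_notMem h6.2.2, h3], ?_⟩
    rw [union_insert, pow_succ]
    calc _ ≤ 2 * (2 ^ t * Phi_EGLevel I a lam D) := h7.trans (Nat.mul_le_mul_left _ h4)
      _ = _ := by ring

theorem box_EGLevel (m p : ℕ) (hm : 2 ≤ m) (hmp : m ≤ 4 ^ p) (hp : 10 ^ 6 ≤ p) (PP : Finset ℕ)
    (hPP : ∀ l ∈ PP, Split m l) {ι : Type} (I : Finset ι) (a : ι → Finset ℕ) {lam ρ0 n' : ℕ}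
    (hl : 1 ≤ lam) (ha : ∀ q ∈ I, (a q).card ≤ ρ0) (hn : lam * ρ0 ≤ n') (hn1 : 1 ≤ n') (τ : ℕ)
    (hcard : n' + τ + 2 * p ^ 2 ≤ PP.card) :
    ∃ D ⊆ PP, ∃ (ρ : ℤ) (E : Finset (O m)), Box m D ρ E ∧ τ ≤ D.card ∧ D.card ≤ τ + p ^ 2 ∧
      2 ^ (999 * D.card) ≤ E.card ^ 1000 ∧ Phi_EGLevel I a lam D ≤ 16 ^ D.card * I.card := by
  induction τ with
  | zero =>
    refine ⟨∅, empty_subset _, 1, {1}, ⟨?_, ?_⟩, le_rfl, by simp, by simp, ?_⟩
    · simp
    · simp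
    · simp [Phi_EGLevel]
  | succ τ ih =>
    obtain ⟨D, h1, ρ, E, h2, h3, h4, h5, h6⟩ := ih (by omega)
    by_cases hc : τ + 1 ≤ D.card
    · exact ⟨D, h1, ρ, E, h2, hc, by omega, h5, h6⟩
    obtain ⟨C, c1, c2, c3, c4⟩ := many_EGLevel I a hl ha hn hn1 PP D (p ^ 2) (by omega)
    obtain ⟨D', d1, ρ', E', d2, d3, d4⟩ := atom m p hm hmp hp C (fun l h => hPP l (c1 h)) c3
    have hd : Disjoint D D' := c2.mono_right d1
    obtain ⟨b1, b2⟩ := h2.mul hm d2 hd (fun l h => hPP l (h1 h)) fun l h => hPP l (c1 (d1 h))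
    have e1 : (D ∪ D').card = D.card + D'.card := card_union_of_disjoint hd
    have e2 : D'.card ≤ p ^ 2 := c3 ▸ card_le_card d1
    have e3 : 1 ≤ p ^ 2 := Nat.one_le_pow _ _ (by omega)
    refine ⟨D ∪ D', union_subset h1 (d1.trans c1), ρ * ρ', _, b1, by omega, by omega, ?_, ?_⟩
    · rw [b2, e1, mul_add, pow_add, mul_pow]
      exact Nat.mul_le_mul h5 d4
    · have e4 : 2 ^ p ^ 2 ≤ 16 ^ D'.card := by
        rw [show (16 : ℕ) = 2 ^ 4 by norm_num, ← pow_mul]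
        exact Nat.pow_le_pow_right (by norm_num) d3
      calc _ ≤ Phi_EGLevel I a lam (D ∪ C) := mono_EGLevel I a hl (union_subset_union_right d1)
        _ ≤ 16 ^ D'.card * (16 ^ D.card * I.card) := c4.trans (Nat.mul_le_mul e4 h6)
        _ = _ := by rw [e1, pow_add]; ring

/-- L2: a box whose norm separates half of a given set. -/
theorem level (m p : ℕ) (hm : 2 ≤ m) (hmp : m ≤ 4 ^ p) (hp : 10 ^ 6 ≤ p) (PP : Finset ℕ)
    (hPP : ∀ l ∈ PP, Split m l) (W : Finset (O m)) (k ρ0 n' τ r : ℕ)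
    (hcard : n' + τ + 2 * p ^ 2 ≤ PP.card) (hρ0 : 1 ≤ ρ0) (hlam : 2 ^ (k + 5) * ρ0 ≤ n')
    (hW : ∀ v ∈ W, ∀ v' ∈ W, v ≠ v' → (v - v').norm.natAbs.primeFactors.card ≤ ρ0)
    (hr : W.card ≤ 2 ^ r) (hτ : r + 1 ≤ (k + 1) * τ) :
    ∃ D ⊆ PP, ∃ (ρ : ℤ) (E : Finset (O m)), Box m D ρ E ∧ τ ≤ D.card ∧ D.card ≤ τ + p ^ 2 ∧
      2 ^ (999 * D.card) ≤ E.card ^ 1000 ∧
      ∃ W' ⊆ W, W.card ≤ 2 * W'.card ∧
        ∀ v ∈ W', ∀ v' ∈ W', v ≠ v' → ¬ (∏ l ∈ D, (l : ℤ)) ∣ (v - v').norm := by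
  have hl : 1 ≤ 2 ^ (k + 5) := Nat.one_le_two_pow
  obtain ⟨D, h1, ρ, E, h2, h3, h4, h5, h6⟩ := box_EGLevel m p hm hmp hp PP hPP W.offDiag
    (fun q => (q.1 - q.2).norm.natAbs.primeFactors) hl
    (fun q hq => hW _ (mem_offDiag.1 hq).1 _ (mem_offDiag.1 hq).2.1 (mem_offDiag.1 hq).2.2) hlam
    ((Nat.mul_pos hl hρ0).trans_le hlam) τ hcard
  refine ⟨D, h1, ρ, E, h2, h3, h4, h5, ?_⟩
  set Bd := W.offDiag.filter fun q => D ⊆ (q.1 - q.2).norm.natAbs.primeFactors with hBd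
  have b1 : Bd.card * (2 ^ (k + 5)) ^ D.card ≤ 16 ^ D.card * W.offDiag.card := by
    refine le_trans ?_ h6
    rw [← smul_eq_mul, ← sum_const]
    refine le_trans (sum_le_sum fun q hq => ?_) (sum_le_sum_of_subset (filter_subset _ _))
    rw [inter_eq_left.2 (mem_filter.1 hq).2]
  have b2 : Bd.card * 2 ^ ((k + 1) * D.card) ≤ W.card * W.card := by
    have e : (2 ^ (k + 5)) ^ D.card = 16 ^ D.card * 2 ^ ((k + 1) * D.card) := by
      rw [pow_mul, ← mul_pow]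
      congr 1
      ring
    rw [e, mul_left_comm] at b1
    refine (Nat.le_of_mul_le_mul_left b1 (by positivity)).trans ?_
    rw [offDiag_card]
    omega
  have b3 : 2 * W.card ≤ 2 ^ ((k + 1) * D.card) := by
    refine le_trans ?_ (Nat.pow_le_pow_right (by norm_num) (hτ.trans (Nat.mul_le_mul_left _ h3)))
    rw [pow_succ]
    omega
  have b4 : 2 * Bd.card ≤ W.card := by
    rcases Nat.eq_zero_or_pos W.card with h | h
    · have : Bd.card ≤ W.offDiag.card := card_filter_le _ _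
      rw [offDiag_card, h] at this
      omega
    · refine Nat.le_of_mul_le_mul_right ?_ h
      calc 2 * Bd.card * W.card = Bd.card * (2 * W.card) := by ring
        _ ≤ _ := (Nat.mul_le_mul_left _ b3).trans b2
  refine ⟨W \ Bd.image Prod.fst, sdiff_subset, ?_, fun v hv v' hv' hne hd => ?_⟩
  · have := le_card_sdiff (Bd.image Prod.fst) W
    have := card_image_le (s := Bd) (f := Prod.fst)
    omega
  · refine (mem_sdiff.1 hv).2 (mem_image.2 ⟨(v, v'), mem_filter.2 ⟨mem_offDiag.2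
      ⟨(mem_sdiff.1 hv).1, (mem_sdiff.1 hv').1, hne⟩, fun l hl => ?_⟩, rfl⟩)
    have h0 := norm_pos' (m := m) (by omega) (sub_ne_zero.2 hne)
    refine Nat.mem_primeFactors.2 ⟨(hPP l (h1 hl)).1, ?_,
      Int.natAbs_ne_zero.2 (zero_lt_one.trans_le h0).ne'⟩
    exact Int.natCast_dvd.1 ((dvd_prod_of_mem (fun l : ℕ => (l : ℤ)) hl).trans hd)

end Pool.Agent.P.MP_b75a1e_co.EG
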