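import Pool.Agent.P.MP_b75a1e_co.EGBasic

set_option autoImplicit false

open Finset
open scoped BigOperators ComplexConjugate

namespace Pool.Agent.P.MP_b75a1e_co.EG

theorem sum_alt_EGLocA {m : ℕ} (w : ℕ → O m) (n : ℕ) :
    ∑ i ∈ range (9 + 2 * n), (if i < 9 then w i else if i % 2 = 1 then (4 : O m) else -4) =
      ∑ i ∈ range 9, w i := by
  induction n with
  | zero => exact sum_congr rfl fun i hi => if_pos (mem_range.1 hi)
  | succ n ih =>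
    rw [show 9 + 2 * (n + 1) = 9 + 2 * n + 1 + 1 by ring, sum_range_succ, sum_range_succ, ih,
      if_neg (by omega), if_pos (by omega), if_neg (by omega), if_neg (by omega)]
    ring

theorem sum_j_EGLocA (j : ℕ → ℕ) (n : ℕ) :
    ∑ i ∈ range (9 + n), (if i < 9 then j i else 0) = ∑ i ∈ range 9, j i := by
  induction n with
  | zero => exact sum_congr rfl fun i hi => if_pos (mem_range.1 hi)
  | succ n ih => rw [← add_assoc, sum_range_succ, ih, if_neg (by omega), add_zero]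

/-- The condition at one position. -/
def Pos_EGLocA (m l e : ℕ) (ζ w : O m) (j : ℕ) : Prop :=
  j ≤ 3 ∧ (l : ℤ) ^ j ∣ ζ.norm ∧ ¬ (l : ℤ) ^ (j + 1) ∣ ζ.norm ∧
    Lat (l ^ (j + e)) (l ^ (j + e)) (4 * ζ ^ 2 - (ζ.norm : O m) * w)

theorem pos_one_EGLocA (m l e : ℕ) (hl : l ≠ 1) : Pos_EGLocA m l e 1 4 0 := by
  refine ⟨by omega, by simp, ?_, ?_⟩
  · rw [Zsqrtd.norm_one, zero_add, pow_one]
    intro h
    exact hl (Nat.dvd_one.1 (by exact_mod_cast h))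
  · rw [Zsqrtd.norm_one]
    simp [Lat]

theorem pos_rt_EGLocA (m l e : ℕ) (hl : ¬ l ∣ m) : Pos_EGLocA m l e (rt m) (-4) 0 := by
  have hn : (rt m).norm = m := by rw [norm_eq]; simp [rt]
  refine ⟨by omega, by simp, ?_, ?_⟩
  · rw [hn, zero_add, pow_one]
    intro h
    exact hl (by exact_mod_cast h)
  · have : 4 * rt m ^ 2 - (((rt m).norm : ℤ) : O m) * (-4) = 0 := by
      rw [hn, sq, rt_sq]; push_cast; ring
    rw [this]
    simp [Lat]

theorem pos_gen_EGLocA (m l e j : ℕ) (a y c d : ℤ) (hj : j ≤ 3)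
    (h1 : (l : ℤ) ^ j ∣ a ^ 2 + m * y ^ 2) (h2 : ¬ (l : ℤ) ^ (j + 1) ∣ a ^ 2 + m * y ^ 2)
    (h3 : (l : ℤ) ^ (j + e) ∣ 4 * (a ^ 2 - m * y ^ 2) - (a ^ 2 + m * y ^ 2) * c)
    (h4 : (l : ℤ) ^ (j + e) ∣ 8 * a * y - (a ^ 2 + m * y ^ 2) * d) :
    Pos_EGLocA m l e ⟨a, y⟩ ⟨c, d⟩ j ∧ Pos_EGLocA m l e ⟨a, -y⟩ ⟨c, -d⟩ j := by
  have key : ∀ y d : ℤ,
      (4 * (⟨a, y⟩ : O m) ^ 2 - (((⟨a, y⟩ : O m).norm : ℤ) : O m) * ⟨c, d⟩) =
        ⟨4 * (a ^ 2 - m * y ^ 2) - (a ^ 2 + m * y ^ 2) * c,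
          8 * a * y - (a ^ 2 + m * y ^ 2) * d⟩ := by
    intro y d
    rw [norm_eq]
    ext <;> simp [sq, Zsqrtd.re_mul, Zsqrtd.im_mul] <;> ring
  refine ⟨⟨hj, by rwa [norm_eq], by rwa [norm_eq], ?_⟩, ⟨hj, ?_, ?_, ?_⟩⟩
  · rw [key]
    exact ⟨by exact_mod_cast h3, by exact_mod_cast h4⟩
  · rw [norm_eq]; simpa using h1
  · rw [norm_eq]; simpa using h2
  · rw [key]
    refine ⟨?_, ?_⟩
    · push_cast
      simpa using h3
    · push_cast
      have : 8 * a * -y - (a ^ 2 + m * (-y) ^ 2) * -d = -(8 * a * y - (a ^ 2 + m * y ^ 2) * d) := by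
        ring
      rw [this]
      exact h4.neg_right

theorem loc_ext_EGLocA (m Nf l e : ℕ) (hl : l ≠ 1) (hlm : ¬ l ∣ m) (h9 : 9 ≤ Nf)
    (hodd : Nf % 2 = 1) (ζ w : ℕ → O m) (j : ℕ → ℕ)
    (h1 : ∀ i < 9, Pos_EGLocA m l e (ζ i) (w i) (j i)) (h2 : ∑ i ∈ range 9, w i = 0)
    (h3 : ∀ z : ℕ → O m, (∀ i < 9, (l : O m) ^ 10 ∣ z i - ζ i) →
      (l : O m) ^ (∑ i ∈ range 9, j i) ∣ ∏ i ∈ range 9, star (z i) ^ 2) :
    Loc m Nf l e e 0 := by
  obtain ⟨n, rfl⟩ : ∃ n, Nf = 9 + 2 * n := ⟨(Nf - 9) / 2, by omega⟩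
  refine ⟨fun i => if i < 9 then ζ i else if i % 2 = 1 then 1 else rt m,
    fun i => if i < 9 then w i else if i % 2 = 1 then 4 else -4,
    fun i => if i < 9 then j i else 0, ?_, ?_, ?_⟩
  · intro i _
    by_cases hi : i < 9
    · simp only [if_pos hi]
      exact h1 i hi
    · simp only [if_neg hi]
      by_cases h2 : i % 2 = 1
      · simp only [if_pos h2]
        exact pos_one_EGLocA m l e hl
      · simp only [if_neg h2]
        exact pos_rt_EGLocA m l e hlm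
  · intro G _
    rw [sum_alt_EGLocA, h2]
    simp [Lat]
  · intro z hz
    rw [sum_j_EGLocA, prod_range_add]
    refine Dvd.dvd.mul_right (h3 z fun i hi => ?_) _
    have := hz i (by omega)
    simpa only [if_pos hi] using this

theorem pair_EGLocA {m : ℕ} (l j : ℕ) (hj : j ≤ 10) (a y : ℤ) (z z' : O m)
    (h : (l : ℤ) ^ j ∣ a ^ 2 + m * y ^ 2) (hz : (l : O m) ^ 10 ∣ z - ⟨a, y⟩)
    (hz' : (l : O m) ^ 10 ∣ z' - ⟨a, -y⟩) :
    (l : O m) ^ (j + j) ∣ star z ^ 2 * star z' ^ 2 := by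
  have h0 : (l : O m) ^ j ∣ (⟨a, y⟩ : O m) * ⟨a, -y⟩ := by
    have : (⟨a, y⟩ : O m) * ⟨a, -y⟩ = ((a ^ 2 + m * y ^ 2 : ℤ) : O m) := by
      ext <;> simp [sq, Zsqrtd.re_mul, Zsqrtd.im_mul] <;> ring
    rw [this]
    obtain ⟨k, hk⟩ := h
    exact ⟨k, by rw [hk]; push_cast; ring⟩
  have h1 : (l : O m) ^ j ∣ z * z' := by
    have : z * z' = (z - ⟨a, y⟩) * z' + ⟨a, y⟩ * (z' - ⟨a, -y⟩) + (⟨a, y⟩ : O m) * ⟨a, -y⟩ := by
      ring
    rw [this]
    exact ((((pow_dvd_pow _ hj).trans hz).mul_right _).add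
      (((pow_dvd_pow _ hj).trans hz').mul_left _)).add h0
  have h2 := dvd_star h1
  rw [star_pow, star_natCast, star_mul'] at h2
  rw [pow_add, show star z ^ 2 * star z' ^ 2 = star z * star z' * (star z * star z') by ring]
  exact mul_dvd_mul h2 h2

theorem root_EGLocA (m q r c : ℕ) {b : ℕ} (hq : 0 < q)
    (h : ∀ s < q, s % r = m % r → ∃ y < b, s * (y * y) % q = c) (hr : r ∣ q) :
    ∃ y k : ℤ, (m : ℤ) * y ^ 2 = c + q * k := by
  obtain ⟨y, -, hy⟩ := h (m % q) (Nat.mod_lt _ hq) (Nat.mod_mod_of_dvd _ hr)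
  have h2 : m * (y * y) % q = c := by rw [← hy]; simp [Nat.mul_mod]
  refine ⟨y, (m * (y * y) / q : ℕ), ?_⟩
  have := Nat.mod_add_div (m * (y * y)) q
  rw [h2] at this
  rw [sq]
  exact_mod_cast this.symm

theorem tab7_EGLocA : ∀ s < 1024, s % 8 = 7 → ∃ y < 256, s * (y * y) % 1024 = 15 := by
  decide +kernel

theorem tab3_EGLocA : ∀ s < 1024, s % 8 = 3 → ∃ y < 256, s * (y * y) % 1024 = 3 := by
  decide +kernel

theorem tab1_EGLocA : ∀ s < 27, s % 3 = 1 → ∃ y < 27, s * (y * y) % 27 = 7 := by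
  decide +kernel

/-- L14 at the prime two. -/
theorem loc_two (m Nf : ℕ) (h4 : m % 4 = 3) (h9 : 9 ≤ Nf) (hodd : Nf % 2 = 1) : Loc m Nf 2 7 7 0 := by
  have hm : ¬ 2 ∣ m := by omega
  have p1 := pos_one_EGLocA m 2 7 (by norm_num)
  have ps := pos_rt_EGLocA m 2 7 hm
  rcases (show m % 8 = 7 ∨ m % 8 = 3 by omega) with h8 | h8
  · obtain ⟨y, k, hy⟩ := root_EGLocA m 1024 8 15 (by norm_num) (by rw [h8]; exact tab7_EGLocA)
      (by norm_num)
    push_cast at hy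
    have hN : ((2 : ℕ) : ℤ) ^ 3 ∣ 3 ^ 2 + m * y ^ 2 := by rw [hy]; push_cast; omega
    obtain ⟨pa, pb⟩ := pos_gen_EGLocA m 2 7 3 3 y (-1) y le_rfl hN
      (by rw [hy]; push_cast; omega) (by rw [hy]; push_cast; omega)
      (by rw [hy]; exact ⟨-(k * y), by push_cast; ring⟩)
    refine loc_ext_EGLocA m Nf 2 7 (by norm_num) hm h9 hodd
      (fun i => [⟨3, y⟩, ⟨3, -y⟩, ⟨3, y⟩, ⟨3, -y⟩, 1, 1, rt m, 1, rt m].getD i 0)
      (fun i => [⟨-1, y⟩, ⟨-1, -y⟩, ⟨-1, y⟩, ⟨-1, -y⟩, 4, 4, -4, 4, -4].getD i 0)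
      (fun i => [3, 3, 3, 3, 0, 0, 0, 0, 0].getD i 0) ?_ ?_ ?_
    · intro i hi
      interval_cases i <;> assumption
    · simp only [sum_range_succ, sum_range_zero, List.getD_cons_zero, List.getD_cons_succ]
      ext <;> simp
    · intro z hz
      have ha := pair_EGLocA 2 3 (by norm_num) 3 y _ _ hN (hz 0 (by norm_num)) (hz 1 (by norm_num))
      have hb := pair_EGLocA 2 3 (by norm_num) 3 y _ _ hN (hz 2 (by norm_num)) (hz 3 (by norm_num))
      have hc := mul_dvd_mul ha hb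
      rw [← pow_add] at hc
      simp only [sum_range_succ, sum_range_zero, prod_range_succ, prod_range_zero,
        List.getD_cons_zero, List.getD_cons_succ]
      refine hc.trans ⟨star (z 4) ^ 2 * star (z 5) ^ 2 * star (z 6) ^ 2 * star (z 7) ^ 2 *
        star (z 8) ^ 2, by ring⟩
  · obtain ⟨y, k, hy⟩ := root_EGLocA m 1024 8 3 (by norm_num) (by rw [h8]; exact tab3_EGLocA)
      (by norm_num)
    push_cast at hy
    have hN : ((2 : ℕ) : ℤ) ^ 2 ∣ 1 ^ 2 + m * y ^ 2 := by rw [hy]; push_cast; omega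
    obtain ⟨pa, pb⟩ := pos_gen_EGLocA m 2 7 2 1 y (-2) (2 * y) (by norm_num) hN
      (by rw [hy]; push_cast; omega) (by rw [hy]; push_cast; omega)
      (by rw [hy]; exact ⟨-(4 * k * y), by push_cast; ring⟩)
    refine loc_ext_EGLocA m Nf 2 7 (by norm_num) hm h9 hodd
      (fun i => [⟨1, y⟩, ⟨1, -y⟩, 1, rt m, 1, 1, rt m, 1, rt m].getD i 0)
      (fun i => [⟨-2, 2 * y⟩, ⟨-2, -(2 * y)⟩, 4, -4, 4, 4, -4, 4, -4].getD i 0)
      (fun i => [2, 2, 0, 0, 0, 0, 0, 0, 0].getD i 0) ?_ ?_ ?_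
    · intro i hi
      interval_cases i <;> assumption
    · simp only [sum_range_succ, sum_range_zero, List.getD_cons_zero, List.getD_cons_succ]
      ext <;> simp
    · intro z hz
      have ha := pair_EGLocA 2 2 (by norm_num) 1 y _ _ hN (hz 0 (by norm_num)) (hz 1 (by norm_num))
      simp only [sum_range_succ, sum_range_zero, prod_range_succ, prod_range_zero,
        List.getD_cons_zero, List.getD_cons_succ]
      refine ha.trans ⟨star (z 2) ^ 2 * star (z 3) ^ 2 * star (z 4) ^ 2 * star (z 5) ^ 2 *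
        star (z 6) ^ 2 * star (z 7) ^ 2 * star (z 8) ^ 2, by ring⟩

/-- L14 at the prime three, unramified. -/
theorem loc_three (m Nf : ℕ) (h3 : ¬ 3 ∣ m) (h9 : 9 ≤ Nf) (hodd : Nf % 2 = 1) : Loc m Nf 3 3 3 0 := by
  have p1 := pos_one_EGLocA m 3 3 (by norm_num)
  have ps := pos_rt_EGLocA m 3 3 h3
  rcases (show m % 3 = 2 ∨ m % 3 = 1 by omega) with h8 | h8
  · obtain ⟨pa, pb⟩ := pos_gen_EGLocA m 3 3 0 (-1) 3 (-5) 3 (by norm_num) (by simp)
      (by push_cast; omega) (by push_cast; omega) (by push_cast; omega)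
    refine loc_ext_EGLocA m Nf 3 3 (by norm_num) h3 h9 hodd
      (fun i => [⟨-1, 3⟩, ⟨-1, -3⟩, ⟨-1, 3⟩, ⟨-1, -3⟩, 1, 1, 1, 1, 1].getD i 0)
      (fun i => [⟨-5, 3⟩, ⟨-5, -3⟩, ⟨-5, 3⟩, ⟨-5, -3⟩, 4, 4, 4, 4, 4].getD i 0)
      (fun _ => 0) ?_ ?_ ?_
    · intro i hi
      interval_cases i <;> assumption
    · simp only [sum_range_succ, sum_range_zero, List.getD_cons_zero, List.getD_cons_succ]
      ext <;> simp
    · intro z _
      simp
  · obtain ⟨y, k, hy⟩ := root_EGLocA m 27 3 7 (by norm_num) (by rw [h8]; exact tab1_EGLocA)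
      (by norm_num)
    push_cast at hy
    obtain ⟨pa, pb⟩ := pos_gen_EGLocA m 3 3 0 1 y (-3) y (by norm_num) (by simp)
      (by rw [hy]; push_cast; omega) (by rw [hy]; push_cast; omega)
      (by rw [hy]; exact ⟨-(k * y), by push_cast; ring⟩)
    refine loc_ext_EGLocA m Nf 3 3 (by norm_num) h3 h9 hodd
      (fun i => [⟨1, y⟩, ⟨1, -y⟩, ⟨1, y⟩, ⟨1, -y⟩, 1, 1, 1, 1, rt m].getD i 0)
      (fun i => [⟨-3, y⟩, ⟨-3, -y⟩, ⟨-3, y⟩, ⟨-3, -y⟩, 4, 4, 4, 4, -4].getD i 0)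
      (fun _ => 0) ?_ ?_ ?_
    · intro i hi
      interval_cases i <;> assumption
    · simp only [sum_range_succ, sum_range_zero, List.getD_cons_zero, List.getD_cons_succ]
      ext <;> simp
    · intro z _
      simp

end Pool.Agent.P.MP_b75a1e_co.EG
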