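import Pool.Agent.P.MP_b75a1e_co.EGBilin

set_option autoImplicit false

open Finset
open scoped BigOperators ComplexConjugate

namespace Pool.Agent.P.MP_b75a1e_co.EG

theorem split_EGMid (N : ℤ) (d : ℕ) (hd : d ≠ 0) : ∃ D B : ℕ, d = D * B ∧ IsCoprime (D : ℤ) N ∧
    ∀ l : ℕ, l.Prime → l ∣ B → (l : ℤ) ∣ N := by
  induction d using induction_on_primes with
  | zero => exact absurd rfl hd
  | one => exact ⟨1, 1, rfl, by simpa using isCoprime_one_left, fun l hl h =>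
      absurd (Nat.dvd_one.1 h) hl.ne_one⟩
  | prime_mul p a hp ih =>
    obtain ⟨D, B, h1, h2, h3⟩ := ih (by rintro rfl; simp at hd)
    by_cases h : (p : ℤ) ∣ N
    · refine ⟨D, p * B, by rw [h1]; ring, h2, fun l hl hl' => ?_⟩
      rcases (Nat.Prime.dvd_mul hl).1 hl' with e | e
      · rwa [(Nat.prime_dvd_prime_iff_eq hl hp).1 e]
      · exact h3 l hl e
    · refine ⟨p * D, B, by rw [h1]; ring, ?_, h3⟩
      push_cast
      exact IsCoprime.mul_left
        ((Nat.prime_iff_prime_int.1 hp).irreducible.coprime_iff_not_dvd.2 h) h2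

/-- Some group of blocks meets `d` only in small parts. -/
theorem good_group (Y d : ℕ) (hd : 1 ≤ d) (hR : Rough Y d) (N : Fin 100 × Fin 300 → ℤ)
    (hN : ∀ b b', b ≠ b' → Cop Y (N b) (N b')) :
    ∃ g : Fin 100, ∀ c : Fin 300, ∃ b : ℕ, b ^ 100 ≤ d ∧
      ∀ d2, d2 ∣ d → ∃ d1, d1 ∣ d2 ∧ d2 ≤ d1 * b ∧ IsCoprime (d1 : ℤ) (N (g, c)) := by
  choose D B h1 h2 h3 using fun b => split_EGMid (N b) d (by omega)
  have hB : ∀ b, B b ∣ d := fun b => ⟨D b, (h1 b).trans (mul_comm _ _)⟩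
  have key : ∃ g : Fin 100, ∀ c : Fin 300, B (g, c) ^ 100 ≤ d := by
    by_contra hn
    push Not at hn
    choose c hc using hn
    have h4 : ∏ g, B (g, c g) ∣ d := by
      refine Finset.prod_dvd_of_isRelPrime (fun g _ g' _ hg => ?_) fun g _ => hB _
      refine Nat.coprime_iff_isRelPrime.1 (Nat.coprime_of_dvd fun l hl a b => ?_)
      exact hN _ _ (fun e => hg (congrArg Prod.fst e)) l hl (hR l hl (a.trans (hB _)))
        (h3 _ l hl a) (h3 _ l hl b)
    have h5 : ∏ _g : Fin 100, d < ∏ g, B (g, c g) ^ 100 :=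
      Finset.prod_lt_prod_of_nonempty (fun _ _ => hd) (fun g _ => hc g) univ_nonempty
    rw [Finset.prod_pow, Finset.prod_const, card_univ, Fintype.card_fin] at h5
    exact absurd (Nat.pow_le_pow_left (Nat.le_of_dvd hd h4) 100) (not_le.2 h5)
  obtain ⟨g, hg⟩ := key
  refine ⟨g, fun c => ⟨_, hg c, fun d2 h => ?_⟩⟩
  rw [h1 (g, c)] at h
  obtain ⟨d1, b, e1, e2, rfl⟩ := exists_dvd_and_dvd_of_dvd_mul h
  exact ⟨d1, dvd_mul_right _ _, Nat.mul_le_mul_left _
    (Nat.le_of_dvd (Nat.pos_of_dvd_of_pos (hB _) hd) e2),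
    (h2 _).of_isCoprime_of_dvd_left (Int.natCast_dvd_natCast.2 e1)⟩

theorem Zc_nonneg_EGMid {m r : ℕ} (d : ℕ) (z : Fin 3 → Fin r → O m) : 0 ≤ Zc d z := by
  refine sum_nonneg fun d1 _ => mul_nonneg (mul_nonneg (by positivity) ?_) ?_
  · unfold cY
    split_ifs
    · exact expect_nonneg fun q _ => by split_ifs <;> norm_num
    · exact le_rfl
  · unfold cX
    split_ifs
    · exact expect_nonneg fun q _ => by split_ifs <;> norm_num
    · exact le_rfl

theorem P_nonneg_EGMid {m r : ℕ} (z : Fin 100 × Fin 300 → Fin 3 → Fin r → O m) (d : ℕ)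
    (g : Fin 100) : 0 ≤ ∏ c : Fin 300, ((d : ℝ) ^ (1 / 50 : ℝ) * Zc d (z (g, c))) :=
  prod_nonneg fun c _ => mul_nonneg (by positivity) (Zc_nonneg_EGMid _ _)

theorem one_EGMid {m Y r d e : ℕ} (hm : 1 ≤ m) (hc : Nat.Coprime d (2 * m)) (Γ : O m)
    (z : Fin 100 × Fin 300 → Fin 3 → Fin r → O m)
    (hN : ∀ b b', b ≠ b' → Cop Y (blockB (z b)).norm (blockB (z b')).norm)
    (hd : 1 ≤ d) (hR : Rough Y d) (γ : O m) (he : d ≤ e ^ 2)
    (heγ : ∀ f : ℕ, 1 ≤ f → (d : O m) ∣ (f : O m) * (γ * (Γ * midC z)) → e ≤ f) :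
    ‖ch (midY Γ z) (ph m γ / d)‖ ≤ WW z d := by
  obtain ⟨g, hg⟩ := good_group Y d hd hR _ hN
  let F : Fin 100 × Fin 300 → ℝ := fun b =>
    ‖ch (fun q : ((Fin r → Bool) × (Fin r → Bool)) × (Fin r → Bool) =>
      cube (z b 2) q.2 * yy (z b 0) (z b 1) q.1)
      (ph m (γ * (Γ * ∏ b' ∈ univ.erase b, blockB (z b'))) / d)‖
  have h1 : ‖ch (midY Γ z) (ph m γ / d)‖ = ∏ b, F b := by
    have := ch_pi (ι := Fin 100 × Fin 300)
      (Ω := fun _ => ((Fin r → Bool) × (Fin r → Bool)) × (Fin r → Bool))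
      (fun b q => (Γ * ∏ b' ∈ univ.erase b, blockB (z b')) *
        (cube (z b 2) q.2 * yy (z b 0) (z b 1) q.1)) (ph m γ / d)
    refine (congrArg norm this).trans ?_
    rw [norm_prod]
    refine prod_congr rfl fun b _ => ?_
    rw [ch_mul, div_mul_eq_mul_div, ← map_mul]
  have h2 : ∀ c, F (g, c) ^ 2 ≤ (d : ℝ) ^ (1 / 50 : ℝ) * Zc d (z (g, c)) := fun c => by
    obtain ⟨b, b1, b2⟩ := hg c
    refine block_mid m r d b e hm hd hc _ _ b1 b2 he fun f hf h => heγ f hf (h.trans ?_)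
    refine ⟨blockB (z (g, c)), ?_⟩
    rw [midC, ← mul_prod_erase univ (fun b => blockB (z b)) (mem_univ (g, c))]
    ring
  have h0 : ∀ b, 0 ≤ F b := fun b => norm_nonneg _
  have h3 : ∏ b, F b ≤ ∏ c, F (g, c) := by
    rw [Fintype.prod_prod_type, ← mul_prod_erase univ _ (mem_univ g)]
    exact mul_le_of_le_one_right (prod_nonneg fun c _ => h0 _) (prod_le_one
      (fun a _ => prod_nonneg fun c _ => h0 _) fun a _ =>
        prod_le_one (fun c _ => h0 _) fun c _ => norm_ch_le _ _)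
  have h4 : (∏ c, F (g, c)) ^ 2 ≤
      ∑ g : Fin 100, ∏ c : Fin 300, ((d : ℝ) ^ (1 / 50 : ℝ) * Zc d (z (g, c))) := by
    rw [← prod_pow]
    exact (prod_le_prod (fun c _ => sq_nonneg _) fun c _ => h2 c).trans
      (single_le_sum (fun a _ => P_nonneg_EGMid z d a) (mem_univ g))
  rw [h1, WW]
  refine h3.trans ?_
  generalize ∏ c, F (g, c) = x at h4 ⊢
  generalize ∑ g : Fin 100, ∏ c : Fin 300, ((d : ℝ) ^ (1 / 50 : ℝ) * Zc d (z (g, c))) = P at h4 ⊢
  have h5 : (0 : ℝ) < (d : ℝ) ^ 4 := by positivity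
  generalize (d : ℝ) ^ 4 = a at h5 ⊢
  rw [div_add' _ _ _ h5.ne', le_div_iff₀ h5]
  nlinarith [mul_le_mul_of_nonneg_right h4 (sq_nonneg a), sq_nonneg (x * a - 1), sq_nonneg (x * a)]

theorem dvd_EGMid {m r : ℕ} (Γ : O m) (z : Fin 100 × Fin 300 → Fin 3 → Fin r → O m)
    (hz : ∀ b a i, mu m ∣ z b a i - star (z b a i)) (ω : OmM r) :
    mu m ∣ midY Γ z ω - 60000 * (Γ * midC z) := by
  have h : (60000 : O m) * (Γ * midC z) = ∑ _b : Fin 100 × Fin 300, 2 * (Γ * midC z) := by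
    rw [sum_const, card_univ, Fintype.card_prod, Fintype.card_fin, Fintype.card_fin, nsmul_eq_mul]
    push_cast
    ring
  rw [h, midY, ← sum_sub_distrib]
  refine dvd_sum fun b _ => ?_
  obtain ⟨u0, h0⟩ := dvd_cube_sub (z b 0) _ (hz b 0) (ω b).1.1
  obtain ⟨u1, h1⟩ := dvd_cube_sub (z b 1) _ (hz b 1) (ω b).1.2
  obtain ⟨u2, h2⟩ := dvd_cube_sub (z b 2) _ (hz b 2) (ω b).2
  rw [midC, ← mul_prod_erase univ (fun b => blockB (z b)) (mem_univ b), yy, eq_add_of_sub_eq h0,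
    eq_add_of_sub_eq h1, eq_add_of_sub_eq h2]
  generalize ∏ b' ∈ univ.erase b, blockB (z b') = P
  rw [blockB]
  exact ⟨Γ * P * (u2 * ((mu m * u0 + base (z b 0)) * base (z b 1) +
    base (z b 0) * (mu m * u1 + base (z b 1))) +
      base (z b 2) * (u0 * base (z b 1) + base (z b 0) * u1)), by ring⟩

theorem ch_dv_EGMid {m d : ℕ} (hm : 1 ≤ m) (hd : 1 ≤ d) {Ω : Type} [Fintype Ω] (X : Ω → O m)
    (h : ∀ ω, mu m ∣ X ω) (β ν : O m) (hν : (d : O m) ∣ ν * mu m - 1) :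
    ch (fun ω => dv (X ω)) (ph m β / d) = ch X (ph m (β * ν) / d) := by
  refine expect_congr rfl fun ω _ => ?_
  obtain ⟨k, hk⟩ := hν
  have e : β * ν * X ω = β * dv (X ω) + (d : O m) * (k * (β * dv (X ω))) := by
    conv_lhs => rw [← mu_mul_dv (h ω)]
    linear_combination (β * dv (X ω)) * hk
  have hd' : (d : ℝ) ≠ 0 := by positivity
  have := pr_ph_div hm β (dv (X ω)) d
  have := pr_ph_div hm (β * ν) (X ω) d
  simp only [Complex.ofReal_natCast] at *
  simp only [*]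
  rw [Zsqrtd.im_add, Zsqrtd.im_mul (d : O m), Zsqrtd.re_natCast, Zsqrtd.im_natCast, zero_mul,
    add_zero]
  push_cast
  rw [add_div, mul_div_cancel_left₀ _ hd', ee_add, ee_int, mul_one]

theorem prim_EGMid {m d n : ℕ} {β : O m} (hβ : PrimAt β d) (h : (d : O m) ∣ (n : O m) * β) :
    d ∣ n := by
  obtain ⟨h1, h2⟩ := (nat_dvd_iff d _).1 h
  simp only [Zsqrtd.re_mul, Zsqrtd.im_mul, Zsqrtd.re_natCast, Zsqrtd.im_natCast, mul_zero,
    zero_mul, add_zero] at h1 h2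
  have h3 : d ∣ n * Int.gcd β.re β.im := by
    rw [← Int.natCast_dvd_natCast]
    push_cast
    rw [Int.gcd_eq_gcd_ab, mul_add, ← mul_assoc, ← mul_assoc]
    exact (h1.mul_right _).add (h2.mul_right _)
  refine Nat.Coprime.dvd_of_dvd_mul_right (Nat.coprime_of_dvd fun l hl a b => ?_) h3
  have b' := Int.natCast_dvd_natCast.2 b
  exact hβ l hl a ((nat_dvd_iff l β).2
    ⟨b'.trans (Int.gcd_dvd_left ..), b'.trans (Int.gcd_dvd_right ..)⟩)

/-- L11: the pointwise bound for the middle families. -/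
theorem mid_bound (m Y r d : ℕ) (hm : 1 ≤ m) (hY : 2 ≤ Y) (hsm : Smo Y m) (Γ : O m)
    (z : Fin 100 × Fin 300 → Fin 3 → Fin r → O m)
    (hG : IsCoprime (Γ * midC z) (star (Γ * midC z)))
    (hz : ∀ b a i, mu m ∣ z b a i - star (z b a i))
    (hN : ∀ b b', b ≠ b' → Cop Y (blockB (z b)).norm (blockB (z b')).norm)
    (hd : 1 < d) (hR : Rough Y d) (β : O m) (hβ : PrimAt β d) :
    ‖ch (fun ω : OmM r × OmM r => dv (midY Γ z ω.1 + star (midY Γ z ω.2) -
      (60000 : O m) * (Γ * midC z + star (Γ * midC z)))) (ph m β / d)‖ ≤ WW z d := by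
  classical
  have hc : Nat.Coprime d (2 * m) := Nat.coprime_of_dvd fun l hl a b => by
    have h1 := hR l hl a
    rcases (Nat.Prime.dvd_mul hl).1 b with e | e
    · have := Nat.le_of_dvd two_pos e
      omega
    · have := hsm l hl e
      omega
  obtain ⟨a, b, hab⟩ : IsCoprime (d : ℤ) ((m : ℤ) ^ 2) :=
    (Nat.isCoprime_iff_coprime.2 (hc.coprime_dvd_right (dvd_mul_left m 2))).pow_right
  have hν : (d : O m) ∣ -rt m * (b : O m) * mu m - 1 := by
    have h1 : ((a * d + b * (m : ℤ) ^ 2 : ℤ) : O m) = 1 := by rw [hab, Int.cast_one]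
    push_cast at h1
    refine ⟨-(a : O m), ?_⟩
    rw [mu_eq]
    linear_combination h1 - (b : O m) * (m : O m) * rt_sq (m := m)
  generalize -rt m * (b : O m) = ν at hν
  rw [ch_dv_EGMid hm hd.le _ (fun ω => ?_) β ν hν]
  swap
  · have h1 := dvd_EGMid Γ z hz ω.1
    have h2 := dvd_star (dvd_EGMid Γ z hz ω.2)
    rw [star_mu, neg_dvd, star_sub, star_mul', star_ofNat] at h2
    have := h1.add h2
    rwa [show midY Γ z ω.1 - 60000 * (Γ * midC z) + (star (midY Γ z ω.2) -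
      60000 * star (Γ * midC z)) = midY Γ z ω.1 + star (midY Γ z ω.2) -
        60000 * (Γ * midC z + star (Γ * midC z)) by ring] at this
  rw [norm_ch_sub_const (fun ω : OmM r × OmM r => midY Γ z ω.1 + star (midY Γ z ω.2)),
    ch_prod (midY Γ z) fun ω => star (midY Γ z ω), ch_star, norm_mul,
    show -conj (ph m (β * ν) / d) = ph m (-star (β * ν)) / d by
      rw [map_neg, ph_star, map_div₀, map_natCast, neg_div]]
  have ex : ∀ γ : O m, ∃ f : ℕ, 1 ≤ f ∧ (d : O m) ∣ (f : O m) * (γ * (Γ * midC z)) := fun γ =>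
    ⟨d, hd.le, dvd_mul_right _ _⟩
  have h1 := Nat.find_spec (ex (β * ν))
  have h2 := Nat.find_spec (ex (-star (β * ν)))
  have h3 := fun γ he => one_EGMid hm hc Γ z hN hd.le hR γ (e := Nat.find (ex γ)) he
    fun f hf h => Nat.find_min' (ex γ) ⟨hf, h⟩
  have h4 : d ∣ Nat.find (ex (β * ν)) * Nat.find (ex (-star (β * ν))) := by
    refine prim_EGMid hβ ?_
    generalize Nat.find (ex (β * ν)) = e1 at h1 ⊢
    generalize Nat.find (ex (-star (β * ν))) = e2 at h2 ⊢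
    generalize Γ * midC z = G at h1 h2 hG
    have h5 := dvd_star h2.2
    rw [star_natCast, star_mul', star_natCast, star_mul', star_neg, star_star] at h5
    obtain ⟨u, v, huv⟩ := hG
    obtain ⟨k1, e1'⟩ := h1.2
    obtain ⟨k2, e2'⟩ := h5
    obtain ⟨k, hk⟩ := hν
    refine ⟨mu m * (u * e2 * k1 - v * e1 * k2) - e1 * e2 * β * k, ?_⟩
    push_cast
    linear_combination (mu m * u * e2) * e1' - (mu m * v * e1) * e2' - (e1 * e2 * β) * hk -
      (e1 * e2 * β * ν * mu m) * huv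
  have h5 := Nat.le_of_dvd (Nat.mul_pos h1.1 h2.1) h4
  rcases le_total (Nat.find (ex (β * ν))) (Nat.find (ex (-star (β * ν)))) with h | h
  · exact (mul_le_of_le_one_left (norm_nonneg _) (norm_ch_le _ _)).trans
      (h3 _ (h5.trans (by rw [sq]; exact Nat.mul_le_mul_right _ h)))
  · exact (mul_le_of_le_one_right (norm_nonneg _) (norm_ch_le _ _)).trans
      (h3 _ (h5.trans (by rw [sq]; exact Nat.mul_le_mul_left _ h)))

theorem WW_nonneg {m r : ℕ} (z : Fin 100 × Fin 300 → Fin 3 → Fin r → O m) (d : ℕ) : 0 ≤ WW z d :=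
  add_nonneg (by positivity)
    (mul_nonneg (by positivity) (sum_nonneg fun g _ => P_nonneg_EGMid z d g))

end Pool.Agent.P.MP_b75a1e_co.EG
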