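import Pool.Agent.P.MP_b75a1e_co.EGCollY
import Pool.Agent.P.MP_b75a1e_co.EGMid

set_option autoImplicit false

open Finset
open scoped BigOperators ComplexConjugate

namespace Pool.Agent.P.MP_b75a1e_co.EG

theorem card_pow_le_EGMExp (Y : ℕ) (hY : 2 ^ 200 ≤ Y) (d : ℕ) :
    1 ≤ d → Rough Y d → d.divisors.card ^ 200 ≤ d := by
  induction d using induction_on_primes with
  | zero => intro h; omega
  | one => intro _ _; simp
  | prime_mul p a hp ih =>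
    intro hd hR
    have ha : 1 ≤ a := by
      rcases Nat.eq_zero_or_pos a with h | h
      · simp [h] at hd
      · exact h
    have hRa : Rough Y a := fun l hl hla => hR l hl (Dvd.dvd.mul_left hla p)
    have hp' : Y < p := hR p hp (Dvd.intro a rfl)
    have h1 : (p * a).divisors.card ≤ 2 * a.divisors.card := by
      rw [Nat.divisors_mul]
      refine Finset.card_mul_le.trans ?_
      rw [hp.divisors, Finset.card_pair hp.one_lt.ne]
    calc (p * a).divisors.card ^ 200 ≤ (2 * a.divisors.card) ^ 200 := Nat.pow_le_pow_left h1 _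
      _ = 2 ^ 200 * a.divisors.card ^ 200 := mul_pow _ _ _
      _ ≤ p * a := Nat.mul_le_mul (hY.trans hp'.le) (ih ha hRa)

theorem card_divisors_rough (Y d : ℕ) (hY : 2 ^ 200 ≤ Y) (hd : 1 ≤ d) (hR : Rough Y d) :
    (d.divisors.card : ℝ) ≤ (d : ℝ) ^ (1 / 200 : ℝ) := by
  have h := card_pow_le_EGMExp Y hY d hd hR
  have h' : ((d.divisors.card : ℝ)) ^ 200 ≤ d := by exact_mod_cast h
  have h0 : (0 : ℝ) ≤ d.divisors.card := Nat.cast_nonneg _
  calc (d.divisors.card : ℝ) = (((d.divisors.card : ℝ)) ^ 200) ^ (1 / 200 : ℝ) := by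
        rw [← Real.rpow_natCast, ← Real.rpow_mul h0]; norm_num
    _ ≤ (d : ℝ) ^ (1 / 200 : ℝ) := Real.rpow_le_rpow (by positivity) h' (by norm_num)

theorem cX_nonneg_EGMExp {m r : ℕ} (d : ℕ) (z : Fin r → O m) : 0 ≤ cX d z := by
  unfold cX
  split_ifs
  · exact Finset.expect_nonneg fun q _ => by split_ifs <;> norm_num
  · exact le_rfl

theorem cY_nonneg_EGMExp {m r : ℕ} (d : ℕ) (z1 z2 : Fin r → O m) : 0 ≤ cY d z1 z2 := by
  unfold cY
  split_ifs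
  · exact Finset.expect_nonneg fun q _ => by split_ifs <;> norm_num
  · exact le_rfl

theorem Zc_nonneg_EGMExp {m r : ℕ} (d : ℕ) (z : Fin 3 → Fin r → O m) : 0 ≤ Zc d z :=
  Finset.sum_nonneg fun d1 _ =>
    mul_nonneg (mul_nonneg (by positivity) (cY_nonneg_EGMExp _ _ _)) (cX_nonneg_EGMExp _ _)

/-- Three coordinates as a pair and a point. -/
def three_EGMExp (α : Type) : (Fin 3 → α) ≃ (α × α) × α where
  toFun t := ((t 0, t 1), t 2)
  invFun q := ![q.1.1, q.1.2, q.2]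
  left_inv t := by
    funext i
    fin_cases i <;> rfl
  right_inv q := rfl

theorem expect_three_EGMExp {α : Type} [Fintype α] (F : α × α → ℝ) (G : α → ℝ) :
    𝔼 t : Fin 3 → α, F (t 0, t 1) * G (t 2) = (𝔼 q, F q) * 𝔼 x, G x := by
  rw [Finset.expect_mul_expect, ← Finset.expect_product', Finset.univ_product_univ]
  exact Fintype.expect_equiv (three_EGMExp α) _ _ fun t => rfl

theorem expect_eval_EGMExp {ι α : Type} [Fintype ι] [DecidableEq ι] [Fintype α] [Nonempty α]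
    (f : α → ℝ) (g : ι) : 𝔼 ω : ι → α, f (ω g) = 𝔼 x, f x := by
  have h := expect_pi_prod (ι := ι) (Ω := fun _ => α) (fun i x => if i = g then f x else 1)
  simp only [Finset.prod_ite_eq', Finset.mem_univ, if_true] at h
  have h1 : ∀ ω : ι → α, (∏ i, if i = g then f (ω i) else 1) = f (ω g) := fun ω => by
    rw [Finset.prod_ite_eq']; simp
  have h2 : (∏ i : ι, 𝔼 x : α, if i = g then f x else 1) = 𝔼 x, f x := by
    rw [Finset.prod_eq_single g]
    · simp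
    · intro b _ hb
      simp [hb]
    · simp
  rw [← h2, ← h]

theorem coprime_EGMExp {Y d n : ℕ} (hR : Rough Y d) (hs : Smo Y n) : Nat.Coprime d n := by
  apply Nat.coprime_of_dvd
  intro l hl h1 h2
  have := hR l hl h1
  have := hs l hl h2
  omega

theorem lt_of_rough_EGMExp {Y d : ℕ} (hd : 1 < d) (hR : Rough Y d) : Y < d := by
  obtain ⟨l, hl, hld⟩ := Nat.exists_prime_and_dvd hd.ne'
  exact (hR l hl hld).trans_le (Nat.le_of_dvd (by omega) hld)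

theorem term_EGMExp (m Y M A len r d d1 : ℕ) (hsm : Smo Y (2 * m * M)) (hd : 1 < d)
    (hR : Rough Y d) (hlen : d ≤ len) (hr : (d : ℝ) ^ 3 ≤ (4 / 3 : ℝ) ^ r) (h1 : d1 ∣ d)
    (h2 : d ^ 49 ≤ d1 ^ 100) :
    𝔼 t : Fin 3 → Fin r → Fin len,
      (d1 : ℝ) ^ 2 * cY d1 (fun i => mz m M (A + t 0 i)) (fun i => mz m M (A + t 1 i)) *
        cX d1 (fun i => mz m M (A + t 2 i)) ≤
      90 * (d.divisors.card : ℝ) * (d : ℝ) ^ (-49 / 600 : ℝ) := by
  have hd1 : 1 ≤ d1 := Nat.pos_of_dvd_of_pos h1 (by omega)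
  have hle : d1 ≤ d := Nat.le_of_dvd (by omega) h1
  have hR1 : Rough Y d1 := fun l hl hla => hR l hl (hla.trans h1)
  have hc := coprime_EGMExp hR1 hsm
  have hd1R : (1 : ℝ) ≤ d1 := by exact_mod_cast hd1
  have hleR : (d1 : ℝ) ≤ d := by exact_mod_cast hle
  have hr1 : (d1 : ℝ) ^ 3 ≤ (4 / 3 : ℝ) ^ r := (pow_le_pow_left₀ (by positivity) hleR 3).trans hr
  have hr2 : d1 ≤ 2 ^ r := by
    have : (d1 : ℝ) ≤ 2 ^ r := by
      calc (d1 : ℝ) ≤ (d1 : ℝ) ^ 3 := le_self_pow₀ hd1R (by norm_num)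
        _ ≤ (4 / 3 : ℝ) ^ r := hr1
        _ ≤ 2 ^ r := pow_le_pow_left₀ (by norm_num) (by norm_num) r
    exact_mod_cast this
  have hY := collY m M A len r d1 hd1 hc (hle.trans hlen) hr1
  have hX := collX m M A len r d1 hd1 hc (hle.trans hlen) hr2
  have e := expect_three_EGMExp (α := Fin r → Fin len)
    (fun q => cY d1 (fun i => mz m M (A + q.1 i)) (fun i => mz m M (A + q.2 i)))
    (fun x => cX d1 (fun i => mz m M (A + x i)))
  have hcard : (d1.divisors.card : ℝ) ≤ d.divisors.card := by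
    exact_mod_cast Finset.card_le_card (Nat.divisors_subset_of_dvd (by omega) h1)
  have hX0 : 0 ≤ 𝔼 x : Fin r → Fin len, cX d1 (fun i => mz m M (A + x i)) :=
    Finset.expect_nonneg fun _ _ => cX_nonneg_EGMExp _ _
  have hpos : (0 : ℝ) < d1 := by linarith
  have hpow : (d1 : ℝ) ^ (-1 / 6 : ℝ) ≤ (d : ℝ) ^ (-49 / 600 : ℝ) := by
    have h2R : (d : ℝ) ^ 49 ≤ (d1 : ℝ) ^ 100 := by exact_mod_cast h2
    have hdpos : (0 : ℝ) < d := by linarith
    calc (d1 : ℝ) ^ (-1 / 6 : ℝ) = ((d1 : ℝ) ^ 100) ^ (-1 / 600 : ℝ) := by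
          rw [← Real.rpow_natCast, ← Real.rpow_mul hpos.le]; norm_num
      _ ≤ ((d : ℝ) ^ 49) ^ (-1 / 600 : ℝ) :=
          Real.rpow_le_rpow_of_nonpos (by positivity) h2R (by norm_num)
      _ = (d : ℝ) ^ (-49 / 600 : ℝ) := by
          rw [← Real.rpow_natCast, ← Real.rpow_mul hdpos.le]; norm_num
  have hid : (d1 : ℝ) ^ 2 * (d1 : ℝ) ^ (-7 / 6 : ℝ) / d1 = (d1 : ℝ) ^ (-1 / 6 : ℝ) := by
    have : (d1 : ℝ) ^ (-1 / 6 : ℝ) = (d1 : ℝ) ^ (1 : ℝ) * (d1 : ℝ) ^ (-7 / 6 : ℝ) := by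
      rw [← Real.rpow_add hpos]; norm_num
    rw [this, Real.rpow_one]; field_simp
  calc 𝔼 t : Fin 3 → Fin r → Fin len,
        (d1 : ℝ) ^ 2 * cY d1 (fun i => mz m M (A + t 0 i)) (fun i => mz m M (A + t 1 i)) *
          cX d1 (fun i => mz m M (A + t 2 i))
      = (d1 : ℝ) ^ 2 * 𝔼 t : Fin 3 → Fin r → Fin len,
        cY d1 (fun i => mz m M (A + t 0 i)) (fun i => mz m M (A + t 1 i)) *
          cX d1 (fun i => mz m M (A + t 2 i)) := by
        rw [Finset.mul_expect]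
        exact Finset.expect_congr rfl fun t _ => mul_assoc _ _ _
    _ ≤ (d1 : ℝ) ^ 2 * ((30 * (d1.divisors.card : ℝ) * (d1 : ℝ) ^ (-7 / 6 : ℝ)) * (3 / d1)) := by
        refine mul_le_mul_of_nonneg_left ?_ (by positivity)
        refine e.trans_le ?_
        exact mul_le_mul hY hX hX0 (by positivity)
    _ = 90 * (d1.divisors.card : ℝ) * ((d1 : ℝ) ^ 2 * (d1 : ℝ) ^ (-7 / 6 : ℝ) / d1) := by ring
    _ ≤ 90 * (d.divisors.card : ℝ) * (d : ℝ) ^ (-49 / 600 : ℝ) := by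
        rw [hid]
        exact mul_le_mul (by linarith) hpow (by positivity) (by positivity)

/-- The expected weight of one block. -/
theorem exp_Zc (m Y M A len r d : ℕ) (hY : 10 ^ 200 ≤ Y) (hsm : Smo Y (2 * m * M)) (hd : 1 < d)
    (hR : Rough Y d) (hlen : d ≤ len) (hr : (d : ℝ) ^ 3 ≤ (4 / 3 : ℝ) ^ r) :
    𝔼 t : Fin 3 → Fin r → Fin len,
      (d : ℝ) ^ (1 / 50 : ℝ) * Zc d (fun a i => mz m M (A + t a i)) ≤ (d : ℝ) ^ (-1 / 25 : ℝ) := by
  have hY2 : 2 ^ 200 ≤ Y := (Nat.pow_le_pow_left (by norm_num) 200).trans hY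
  have hτ := card_divisors_rough Y d hY2 hd.le hR
  have hYd : 10 ^ 200 ≤ d := hY.trans (lt_of_rough_EGMExp hd hR).le
  have hdpos : (0 : ℝ) < d := by exact_mod_cast (by omega : 0 < d)
  have h90 : (90 : ℝ) ≤ (d : ℝ) ^ (7 / 600 : ℝ) := by
    have h1 : ((10 : ℝ) ^ 200) ≤ d := by exact_mod_cast hYd
    calc (90 : ℝ) ≤ (10 : ℝ) ^ (2 : ℝ) := by norm_num
      _ ≤ (10 : ℝ) ^ ((200 : ℕ) * (7 / 600 : ℝ)) :=
          Real.rpow_le_rpow_of_exponent_le (by norm_num) (by norm_num)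
      _ = ((10 : ℝ) ^ 200) ^ (7 / 600 : ℝ) := by
          rw [Real.rpow_mul (by norm_num), Real.rpow_natCast]
      _ ≤ (d : ℝ) ^ (7 / 600 : ℝ) := Real.rpow_le_rpow (by positivity) h1 (by norm_num)
  rw [← Finset.mul_expect]
  have hZ : 𝔼 t : Fin 3 → Fin r → Fin len, Zc d (fun a i => mz m M (A + t a i)) ≤
      (d.divisors.card : ℝ) * (90 * (d.divisors.card : ℝ) * (d : ℝ) ^ (-49 / 600 : ℝ)) := by
    unfold Zc
    rw [Finset.expect_sum_comm]
    refine (Finset.sum_le_card_nsmul _ _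
      (90 * (d.divisors.card : ℝ) * (d : ℝ) ^ (-49 / 600 : ℝ)) ?_).trans ?_
    · intro d1 h1
      rw [Finset.mem_filter] at h1
      exact term_EGMExp m Y M A len r d d1 hsm hd hR hlen hr (Nat.dvd_of_mem_divisors h1.1) h1.2
    · rw [nsmul_eq_mul]
      refine mul_le_mul_of_nonneg_right ?_ (by positivity)
      exact_mod_cast Finset.card_filter_le _ _
  calc (d : ℝ) ^ (1 / 50 : ℝ) *
        𝔼 t : Fin 3 → Fin r → Fin len, Zc d (fun a i => mz m M (A + t a i))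
      ≤ (d : ℝ) ^ (1 / 50 : ℝ) *
        ((d.divisors.card : ℝ) * (90 * (d.divisors.card : ℝ) * (d : ℝ) ^ (-49 / 600 : ℝ))) :=
        mul_le_mul_of_nonneg_left hZ (by positivity)
    _ ≤ (d : ℝ) ^ (1 / 50 : ℝ) * ((d : ℝ) ^ (1 / 200 : ℝ) *
        ((d : ℝ) ^ (7 / 600 : ℝ) * (d : ℝ) ^ (1 / 200 : ℝ) * (d : ℝ) ^ (-49 / 600 : ℝ))) := by
        gcongr
    _ = (d : ℝ) ^ (-1 / 25 : ℝ) := by
        rw [← Real.rpow_add hdpos, ← Real.rpow_add hdpos, ← Real.rpow_add hdpos,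
          ← Real.rpow_add hdpos]
        norm_num

/-- Currying of the sample space. -/
def cur_EGMExp (r : ℕ) (α : Type) :
    ((Fin 100 × Fin 300) × Fin 3 × Fin r → α) ≃ (Fin 100 → Fin 300 → Fin 3 → Fin r → α) where
  toFun t := fun g c a i => t ((g, c), a, i)
  invFun s := fun q => s q.1.1 q.1.2 q.2.1 q.2.2
  left_inv _ := rfl
  right_inv _ := rfl

theorem group_EGMExp {r len : ℕ} (hlen1 : 1 ≤ len) (X : (Fin 3 → Fin r → Fin len) → ℝ)
    (g : Fin 100) :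
    𝔼 t : (Fin 100 × Fin 300) × Fin 3 × Fin r → Fin len,
      ∏ c : Fin 300, X (fun a i => t ((g, c), a, i)) = (𝔼 x, X x) ^ 300 := by
  have : Nonempty (Fin len) := ⟨⟨0, hlen1⟩⟩
  have h1 := Fintype.expect_equiv (cur_EGMExp r (Fin len))
    (fun t => ∏ c : Fin 300, X (fun a i => t ((g, c), a, i)))
    (fun s => ∏ c : Fin 300, X (s g c)) fun t => rfl
  have h2 := expect_eval_EGMExp (ι := Fin 100)
    (fun u : Fin 300 → Fin 3 → Fin r → Fin len => ∏ c, X (u c)) g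
  have h3 := expect_pi_prod (ι := Fin 300) (Ω := fun _ => Fin 3 → Fin r → Fin len) (fun _ => X)
  rw [Finset.prod_const, Finset.card_univ, Fintype.card_fin] at h3
  exact h1.trans (h2.trans h3)

theorem one_d_EGMExp (m Y M A len r d : ℕ) (hY : 10 ^ 200 ≤ Y) (hsm : Smo Y (2 * m * M))
    (hd : 1 < d) (hR : Rough Y d) (hlen : d ≤ len) (hr : (d : ℝ) ^ 3 ≤ (4 / 3 : ℝ) ^ r) :
    𝔼 t : (Fin 100 × Fin 300) × Fin 3 × Fin r → Fin len,
      (d : ℝ) ^ 2 * WW (fun b a i => mz m M (A + t (b, a, i))) d ≤ 2 / (d : ℝ) ^ 2 := by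
  have hlen1 : 1 ≤ len := by omega
  have : Nonempty (Fin len) := ⟨⟨0, hlen1⟩⟩
  have hE := exp_Zc m Y M A len r d hY hsm hd hR hlen hr
  have hdpos : (0 : ℝ) < d := by exact_mod_cast (by omega : 0 < d)
  have hd10 : (10 : ℝ) ≤ d := by
    have h1 : 10 ≤ 10 ^ 200 := by norm_num
    have := lt_of_rough_EGMExp hd hR
    exact_mod_cast (by omega : 10 ≤ d)
  have hE0 : 0 ≤ 𝔼 t : Fin 3 → Fin r → Fin len,
      (d : ℝ) ^ (1 / 50 : ℝ) * Zc d (fun a i => mz m M (A + t a i)) :=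
    Finset.expect_nonneg fun _ _ => mul_nonneg (by positivity) (Zc_nonneg_EGMExp _ _)
  have hg : ∀ g : Fin 100, 𝔼 t : (Fin 100 × Fin 300) × Fin 3 × Fin r → Fin len,
      ∏ c : Fin 300, ((d : ℝ) ^ (1 / 50 : ℝ) * Zc d (fun a i => mz m M (A + t ((g, c), a, i))))
        ≤ 1 / (d : ℝ) ^ 12 := by
    intro g
    refine (group_EGMExp hlen1
      (fun x => (d : ℝ) ^ (1 / 50 : ℝ) * Zc d (fun a i => mz m M (A + x a i))) g).trans_le ?_
    refine (pow_le_pow_left₀ hE0 hE 300).trans_eq ?_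
    rw [← Real.rpow_natCast, ← Real.rpow_mul hdpos.le, one_div ((d : ℝ) ^ 12), ← Real.rpow_natCast,
      ← Real.rpow_neg hdpos.le]
    norm_num
  rw [← Finset.mul_expect]
  unfold WW
  rw [Finset.expect_add_distrib, Fintype.expect_const, ← Finset.mul_expect, Finset.expect_sum_comm]
  have hs := Finset.sum_le_card_nsmul (univ : Finset (Fin 100)) _ _ fun g _ => hg g
  rw [Finset.card_univ, Fintype.card_fin, nsmul_eq_mul] at hs
  have h4 : (100 : ℝ) ≤ (d : ℝ) ^ 4 := by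
    calc (100 : ℝ) ≤ 10 ^ 4 := by norm_num
      _ ≤ (d : ℝ) ^ 4 := pow_le_pow_left₀ (by norm_num) hd10 4
  refine (mul_le_mul_of_nonneg_left (add_le_add_right
    (mul_le_mul_of_nonneg_left hs (by positivity)) _) (by positivity)).trans ?_
  calc (d : ℝ) ^ 2 * (1 / (d : ℝ) ^ 4 + (d : ℝ) ^ 4 * (((100 : ℕ) : ℝ) * (1 / (d : ℝ) ^ 12)))
      ≤ (d : ℝ) ^ 2 * (1 / (d : ℝ) ^ 4 + (d : ℝ) ^ 4 * ((d : ℝ) ^ 4 * (1 / (d : ℝ) ^ 12))) := by
        gcongr
        exact_mod_cast h4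
    _ = 2 / (d : ℝ) ^ 2 := by field_simp; ring

theorem tail_EGMExp (Y N : ℕ) (hY : 1 ≤ Y) :
    ∑ d ∈ Ioc Y N, (1 : ℝ) / (d : ℝ) ^ 2 ≤ 1 / Y := by
  have h := sum_Ioc_inv_sq_le_sub (α := ℝ) (k := Y) (n := max Y N) (by omega) (le_max_left _ _)
  have h0 : (0 : ℝ) ≤ ((max Y N : ℕ) : ℝ)⁻¹ := by positivity
  calc ∑ d ∈ Ioc Y N, (1 : ℝ) / (d : ℝ) ^ 2 ≤ ∑ d ∈ Ioc Y (max Y N), ((d : ℝ) ^ 2)⁻¹ := by
        simp only [one_div]
        exact Finset.sum_le_sum_of_subset_of_nonneg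
          (Finset.Ioc_subset_Ioc_right (le_max_right _ _)) fun _ _ _ => by positivity
    _ ≤ 1 / Y := by rw [one_div]; linarith

open Classical in
/-- The expected total weight. -/
theorem mid_exp (m Y M A len r : ℕ) (H : ℝ) (hY : 10 ^ 200 ≤ Y) (hsm : Smo Y (2 * m * M))
    (hlen1 : 1 ≤ len) (hlen : H ≤ len) (hr : H ^ 3 ≤ (4 / 3 : ℝ) ^ r) :
    𝔼 t : (Fin 100 × Fin 300) × Fin 3 × Fin r → Fin len,
      ∑ d ∈ (Icc 2 ⌊H⌋₊).filter (Rough Y),
        (d : ℝ) ^ 2 * WW (fun b a i => mz m M (A + t (b, a, i))) d ≤ 2 / Y := by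
  have hY1 : 1 ≤ Y := le_trans (Nat.one_le_pow _ _ (by norm_num)) hY
  rw [Finset.expect_sum_comm]
  have hsub : (Icc 2 ⌊H⌋₊).filter (Rough Y) ⊆ Ioc Y ⌊H⌋₊ := by
    intro d hd
    rw [Finset.mem_filter, Finset.mem_Icc] at hd
    exact Finset.mem_Ioc.2 ⟨lt_of_rough_EGMExp (by omega) hd.2, hd.1.2⟩
  calc _ ≤ ∑ d ∈ (Icc 2 ⌊H⌋₊).filter (Rough Y), 2 * ((1 : ℝ) / (d : ℝ) ^ 2) := by
        refine Finset.sum_le_sum fun d hd => ?_
        rw [Finset.mem_filter, Finset.mem_Icc] at hd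
        have hH : 0 ≤ H := by
          by_contra hn
          rw [Nat.floor_of_nonpos (le_of_not_ge hn)] at hd
          omega
        have hdH : (d : ℝ) ≤ H := (Nat.le_floor_iff hH).1 hd.1.2
        have h1 : d ≤ len := by exact_mod_cast hdH.trans hlen
        have h2 : (d : ℝ) ^ 3 ≤ (4 / 3 : ℝ) ^ r := (pow_le_pow_left₀ (by positivity) hdH 3).trans hr
        refine (one_d_EGMExp m Y M A len r d hY hsm (by omega) hd.2 h1 h2).trans_eq ?_
        ring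
    _ ≤ ∑ d ∈ Ioc Y ⌊H⌋₊, 2 * ((1 : ℝ) / (d : ℝ) ^ 2) :=
        Finset.sum_le_sum_of_subset_of_nonneg hsub fun _ _ _ => by positivity
    _ ≤ 2 / Y := by
        rw [← Finset.mul_sum]
        have := tail_EGMExp Y ⌊H⌋₊ hY1
        calc 2 * ∑ d ∈ Ioc Y ⌊H⌋₊, (1 : ℝ) / (d : ℝ) ^ 2 ≤ 2 * (1 / Y) := by linarith
          _ = 2 / Y := by ring

end Pool.Agent.P.MP_b75a1e_co.EG
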