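import Pool.Agent.P.MP_b75a1e_co.EGFour

set_option autoImplicit false

open Finset
open scoped BigOperators ComplexConjugate

namespace Pool.Agent.P.MP_b75a1e_co.EG

lemma split_EGRegion (Y d : ℕ) (hd : d ≠ 0) : ∃ u v, d = u * v ∧ Smo Y u ∧ Rough Y v := by
  induction d using induction_on_primes with
  | zero => exact absurd rfl hd
  | one =>
    refine ⟨1, 1, rfl, fun l hl h => ?_, fun l hl h => ?_⟩ <;>
      exact absurd (Nat.dvd_one.1 h) hl.ne_one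
  | prime_mul p a hp ih =>
    obtain ⟨u, v, e, hu, hv⟩ := ih (fun h => hd (by rw [h, mul_zero]))
    rcases le_or_gt p Y with g | g
    · refine ⟨p * u, v, by rw [e]; ring, fun l hl h => ?_, hv⟩
      rcases (Nat.Prime.dvd_mul hl).1 h with h | h
      · rw [(Nat.prime_dvd_prime_iff_eq hl hp).1 h]; exact g
      · exact hu l hl h
    · refine ⟨u, p * v, by rw [e]; ring, hu, fun l hl h => ?_⟩
      rcases (Nat.Prime.dvd_mul hl).1 h with h | h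
      · rw [(Nat.prime_dvd_prime_iff_eq hl hp).1 h]; exact g
      · exact hv l hl h

lemma mem_grid_EGRegion {N : ℕ} {n : ℤ × ℤ} :
    n ∈ grid N ↔ (0 ≤ n.1 ∧ n.1 < N) ∧ (0 ≤ n.2 ∧ n.2 < N) := by
  simp [grid, mem_product, mem_Ico]

lemma mem_sqr_EGRegion {V : ℕ} {c : ℤ × ℤ} : c ∈ sqr V ↔ |c.1| ≤ V ∧ |c.2| ≤ V := by
  simp [sqr, mem_product, mem_Icc, abs_le]

/-- Reduction of a numerator modulo the denominator. -/
lemma reduce_EGRegion (m N : ℕ) (hN : 1 ≤ N) (x : O m) :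
    ∃ k ∈ grid N, ∃ a : O m, x = ⟨k.1, k.2⟩ + (N : O m) * a := by
  have h : (0 : ℤ) < N := by exact_mod_cast hN
  refine ⟨(x.re % N, x.im % N), mem_grid_EGRegion.2
    ⟨⟨Int.emod_nonneg _ h.ne', Int.emod_lt_of_pos _ h⟩, Int.emod_nonneg _ h.ne',
      Int.emod_lt_of_pos _ h⟩, ⟨x.re / N, x.im / N⟩, ?_⟩
  ext
  · simp [Int.emod_add_mul_ediv]
  · simp [Int.emod_add_mul_ediv]

lemma gp_re_EGRegion (m N : ℕ) (n : ℤ × ℤ) : (gp m N n).re = n.1 / N := by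
  unfold gp
  rw [Complex.div_natCast_re, ph_re]

lemma gp_im_EGRegion (m N : ℕ) (n : ℤ × ℤ) : (gp m N n).im = n.2 / N * Real.sqrt m := by
  unfold gp
  rw [Complex.div_natCast_im, ph_im]
  ring

/-- A fraction that is not deep is the sum of a rough fraction and a fraction with denominator `Q`. -/
lemma frac_EGRegion (m Y Q : ℕ) (hQ : 1 ≤ Q) (β : O m) (d : ℕ) (h1 : 1 ≤ d) (hp : PrimAt β d)
    (hd : ¬ Deep Y Q d) : ∃ (v : ℕ) (b k : ℤ × ℤ) (a : O m), 1 ≤ v ∧ v ≤ d ∧ Rough Y v ∧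
      b ∈ grid v ∧ PrimAt (⟨b.1, b.2⟩ : O m) v ∧ k ∈ grid Q ∧
      ph m β / d = gp m v b + gp m Q k + ph m a := by
  obtain ⟨u, v, e, hu, hv⟩ := split_EGRegion Y d (by omega)
  have u0 : u ≠ 0 := fun h => by rw [h, zero_mul] at e; omega
  have v0 : v ≠ 0 := fun h => by rw [h, mul_zero] at e; omega
  have uQ : u ∣ Q := by
    refine (Nat.dvd_iff_prime_pow_dvd_dvd Q u).2 fun l j hl h => ?_
    rcases Nat.eq_zero_or_pos j with rfl | j0
    · simp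
    · by_contra g
      exact hd ⟨l, j, hl, hu l hl ((dvd_pow_self l j0.ne').trans h), h.trans ⟨v, e⟩, g⟩
  obtain ⟨t, ht⟩ := uQ
  have cop : Nat.Coprime u v := by
    refine Nat.coprime_of_dvd fun l hl a b => ?_
    have := hu l hl a
    have := hv l hl b
    omega
  obtain ⟨x, y, hxy⟩ := Nat.isCoprime_iff_coprime.2 cop
  obtain ⟨b, hb, a1, e1⟩ := reduce_EGRegion m v (by omega) (β * (x : O m))
  obtain ⟨k, hk, a2, e2⟩ := reduce_EGRegion m Q hQ (β * (y : O m) * (t : O m))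
  refine ⟨v, b, k, a1 + a2, by omega, by rw [e]; exact Nat.le_mul_of_pos_left v (by omega), hv, hb,
    fun l hl h g => ?_, hk, ?_⟩
  · refine hp l hl (h.trans ⟨u, by rw [e]; ring⟩) ?_
    have g1 : (l : O m) ∣ β * (x : O m) := by
      rw [e1]
      exact dvd_add g (Dvd.dvd.mul_right (Nat.cast_dvd_cast h) _)
    have g2 : (l : O m) ∣ β * (y : O m) * (v : O m) := Dvd.dvd.mul_left (Nat.cast_dvd_cast h) _
    have g3 : ((x * u + y * v : ℤ) : O m) = 1 := by rw [hxy]; simp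
    push_cast at g3
    have : β = β * (x : O m) * (u : O m) + β * (y : O m) * (v : O m) := by
      linear_combination (-β) * g3
    rw [this]
    exact dvd_add (g1.mul_right _) g2
  · have f1 := congrArg (ph m) e1
    have f2 := congrArg (ph m) e2
    have g3 : ((x * u + y * v : ℤ) : ℂ) = 1 := by rw [hxy]; simp
    simp only [map_add, map_mul, map_natCast, map_intCast] at f1 f2 ⊢
    push_cast at g3
    have u1 : (u : ℂ) ≠ 0 := by exact_mod_cast u0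
    have v1 : (v : ℂ) ≠ 0 := by exact_mod_cast v0
    have t1 : (t : ℂ) ≠ 0 := by
      have : t ≠ 0 := fun h => by rw [h, mul_zero] at ht; omega
      exact_mod_cast this
    unfold gp
    rw [e, ht] at *
    push_cast at *
    field_simp
    linear_combination (-(t : ℂ) * u) * f1 * (-1) + (-(v : ℂ)) * f2 * (-1) - ph m β * t * g3

lemma small_EGRegion {z : ℂ} {H N : ℝ} (h0 : 0 < N) (h : ‖z‖ ^ 2 * N ≤ H) :
    ‖z‖ ≤ Real.sqrt (H / N) :=
  Real.le_sqrt_of_sq_le (by rwa [le_div_iff₀ h0])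

lemma coord_EGRegion {Mg V : ℕ} {E x y : ℝ} {c : ℤ} (hMg : 1 ≤ Mg) (hV : Mg * E + 1 ≤ V)
    (hx : |x| ≤ E) (e : (c : ℝ) = Mg * x + (y - round y)) : |c| ≤ V := by
  have a := abs_sub_round y
  have b : |(c : ℝ)| ≤ V := by
    have M0 : (0 : ℝ) < Mg := by exact_mod_cast hMg
    have := abs_add_le (Mg * x) (y - round y)
    rw [abs_mul, abs_of_pos M0] at this
    have := mul_le_mul_of_nonneg_left hx M0.le
    rw [e]
    linarith
  exact_mod_cast b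

/-- A grid point near a fraction whose denominator is not deep is a main point, or it lies next to a
fraction with a rough denominator. -/
theorem classify (m Y Q Mg V : ℕ) (H NN0 : ℝ) (hm : 1 ≤ m) (hQ : 1 ≤ Q) (hMg : 1 ≤ Mg) (hQM : Q ∣ Mg)
    (h0 : 0 < NN0) (hV : Mg * Real.sqrt (H / NN0) + 1 ≤ V) (n : ℤ × ℤ) (hn : n ∈ grid Mg) (β : O m)
    (d : ℕ) (h : Near m (gp m Mg n) β d H NN0) (hd : ¬ Deep Y Q d) :
    (∃ q ∈ grid Q ×ˢ sqr V, mi Q Mg q = n) ∨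
      ∃ (d' : ℕ) (b : ℤ × ℤ) (k c : ℤ × ℤ) (a a' : O m), 1 < d' ∧ (d' : ℝ) ≤ H ∧ Rough Y d' ∧
        b ∈ grid d' ∧ PrimAt (⟨b.1, b.2⟩ : O m) d' ∧ k ∈ grid Q ∧ c ∈ sqr V ∧
        gp m Mg n = gp m Mg (round ((Mg : ℝ) * b.1 / d'), round ((Mg : ℝ) * b.2 / d')) +
          mp m Q Mg k c + ph m a ∧
        ‖gp m Mg n - (gp m d' b + gp m Q k + ph m a')‖ ^ 2 * NN0 ≤ H := by
  obtain ⟨d1, dH, hp, hz⟩ := h
  obtain ⟨v, b, k, a, v1, vd, hv, hb, hpb, hk, e⟩ := frac_EGRegion m Y Q hQ β d d1 hp hd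
  rw [e] at hz
  obtain ⟨s, hs⟩ := hQM
  have sm := small_EGRegion h0 hz
  have M0 : (Mg : ℝ) ≠ 0 := by exact_mod_cast (show Mg ≠ 0 by omega)
  have Q0 : (Q : ℝ) ≠ 0 := by exact_mod_cast (show Q ≠ 0 by omega)
  have hs' : (Mg : ℝ) = Q * s := by exact_mod_cast hs
  have sq1 : 1 ≤ Real.sqrt m := Real.one_le_sqrt.2 (by exact_mod_cast hm)
  set ρ1 : ℤ := round ((Mg : ℝ) * b.1 / v) with hρ1
  set ρ2 : ℤ := round ((Mg : ℝ) * b.2 / v) with hρ2
  set c : ℤ × ℤ := (n.1 - ρ1 - k.1 * s - Mg * a.re, n.2 - ρ2 - k.2 * s - Mg * a.im) with hc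
  have kq : ∀ x : ℝ, (Mg : ℝ) * (x / Q) = x * s := fun x => by rw [hs']; field_simp
  have km : ∀ x : ℝ, (Mg : ℝ) * (x / Mg) = x := fun x => by field_simp
  have hcV : c ∈ sqr V := by
    refine mem_sqr_EGRegion.2 ⟨?_, ?_⟩
    · have r := (Complex.abs_re_le_norm _).trans sm
      simp only [Complex.sub_re, Complex.add_re, gp_re_EGRegion, ph_re] at r
      refine coord_EGRegion (y := (Mg : ℝ) * b.1 / v) hMg hV r ?_
      simp only [hc, ← hρ1, mul_sub, mul_add, kq, km]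
      push_cast
      ring
    · have r := (Complex.abs_im_le_norm _).trans sm
      simp only [Complex.sub_im, Complex.add_im, gp_im_EGRegion, ph_im] at r
      have r' : |(n.2 : ℝ) / Mg - (b.2 / v + k.2 / Q + a.im)| ≤ Real.sqrt (H / NN0) := by
        refine le_trans ?_ r
        rw [show (n.2 : ℝ) / Mg * Real.sqrt m - (b.2 / v * Real.sqrt m + k.2 / Q * Real.sqrt m +
          a.im * Real.sqrt m) = (n.2 / Mg - (b.2 / v + k.2 / Q + a.im)) * Real.sqrt m by ring,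
          abs_mul, abs_of_nonneg (Real.sqrt_nonneg _)]
        exact le_mul_of_one_le_right (abs_nonneg _) sq1
      refine coord_EGRegion (y := (Mg : ℝ) * b.2 / v) hMg hV r' ?_
      simp only [hc, ← hρ2, mul_sub, mul_add, kq, km]
      push_cast
      ring
  rcases eq_or_lt_of_le v1 with g | g
  · left
    refine ⟨(k, c), mem_product.2 ⟨hk, hcV⟩, ?_⟩
    subst g
    obtain ⟨⟨b1, b2⟩, b3, b4⟩ := mem_grid_EGRegion.1 hb
    obtain ⟨⟨n1, n2⟩, n3, n4⟩ := mem_grid_EGRegion.1 hn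
    have z1 : ρ1 = 0 := by rw [hρ1, show b.1 = 0 by omega]; simp
    have z2 : ρ2 = 0 := by rw [hρ2, show b.2 = 0 by omega]; simp
    have es : Mg / Q = s := by rw [hs]; exact Nat.mul_div_cancel_left s (by omega)
    unfold mi red
    simp only [es, hc, z1, z2]
    ext
    · show (k.1 * s + (n.1 - 0 - k.1 * s - Mg * a.re)) % Mg = n.1
      rw [show k.1 * s + (n.1 - 0 - k.1 * s - Mg * a.re) = n.1 + Mg * (-a.re) by ring,
        Int.add_mul_emod_self_left, Int.emod_eq_of_lt n1 n2]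
    · show (k.2 * s + (n.2 - 0 - k.2 * s - Mg * a.im)) % Mg = n.2
      rw [show k.2 * s + (n.2 - 0 - k.2 * s - Mg * a.im) = n.2 + Mg * (-a.im) by ring,
        Int.add_mul_emod_self_left, Int.emod_eq_of_lt n3 n4]
  · right
    refine ⟨v, b, k, c, a, a, g, le_trans (by exact_mod_cast vd) dH, hv, hb, hpb, hk, hcV, ?_, hz⟩
    have s0 : (s : ℝ) ≠ 0 := fun x => M0 (by rw [hs', x, mul_zero])
    unfold mp
    apply Complex.ext
    · simp only [Complex.add_re, gp_re_EGRegion, ph_re, hc, ← hρ1]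
      push_cast
      rw [hs']
      field_simp
      ring
    · simp only [Complex.add_im, gp_im_EGRegion, ph_im, hc, ← hρ2]
      push_cast
      rw [hs']
      field_simp
      ring

lemma norm_expect_EGRegion {Ω : Type} [Fintype Ω] (f : Ω → ℂ) {C : ℝ} (hC : 0 ≤ C)
    (h : ∀ ω, ‖f ω‖ ≤ C) : ‖𝔼 ω, f ω‖ ≤ C := by
  rcases isEmpty_or_nonempty Ω with e | e
  · simp [hC]
  · exact (RCLike.norm_expect_le (K := ℂ)).trans (expect_le univ_nonempty fun ω _ => h ω)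

/-- The characteristic function of a small multiple of `Q` near a shifted fraction. -/
lemma chZ_EGRegion (m Q : ℕ) (hm : 1 ≤ m) (hQ : 1 ≤ Q) {Ω : Type} [Fintype Ω] (Z : Ω → O m)
    {R E : ℝ} (hR : 0 ≤ R) (hZ : ∀ ω, (Q : O m) ∣ Z ω ∧ ‖ph m (Z ω)‖ ≤ R) (θ θ0 : ℂ) (k : ℤ × ℤ)
    (a : O m) (h : ‖θ - (θ0 + gp m Q k + ph m a)‖ ≤ E) : ‖ch Z θ‖ ≤ ‖ch Z θ0‖ + 7 * (E * R) := by
  have E0 : 0 ≤ E := (norm_nonneg _).trans h
  have key : ‖ch Z θ - ch Z θ0‖ ≤ 7 * (E * R) := by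
    unfold ch
    rw [← expect_sub_distrib]
    refine norm_expect_EGRegion _ (by positivity) fun ω => ?_
    obtain ⟨⟨y, hy⟩, hn⟩ := hZ ω
    have Q0 : (Q : ℝ) ≠ 0 := by exact_mod_cast (show Q ≠ 0 by omega)
    have e1 : pr m (gp m Q k) (ph m (Z ω)) = (((⟨k.1, k.2⟩ : O m) * y).im : ℤ) := by
      have := pr_ph_div hm (⟨k.1, k.2⟩ : O m) (Z ω) Q
      unfold gp
      rw [Complex.ofReal_natCast] at this
      rw [this, hy, show (⟨k.1, k.2⟩ : O m) * ((Q : O m) * y) = (Q : O m) * (⟨k.1, k.2⟩ * y) by ring,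
        div_eq_iff Q0]
      generalize (⟨k.1, k.2⟩ : O m) * y = w
      simp [mul_comm]
    have e2 : pr m (ph m a) (ph m (Z ω)) = ((a * Z ω).im : ℤ) := by
      have := pr_ph_div hm a (Z ω) 1
      simpa using this
    have e3 : ee (pr m θ0 (ph m (Z ω))) = ee (pr m (θ0 + gp m Q k + ph m a) (ph m (Z ω))) := by
      rw [pr_add_left, pr_add_left, ee_add, ee_add, e1, e2, ee_int, ee_int, mul_one, mul_one]
    rw [e3]
    refine (norm_ee_sub _ _).trans ?_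
    have e4 := pr_add_left (m := m) (θ - (θ0 + gp m Q k + ph m a)) (θ0 + gp m Q k + ph m a)
      (ph m (Z ω))
    rw [sub_add_cancel] at e4
    rw [e4, add_sub_cancel_right]
    have := (abs_pr_le hm (θ - (θ0 + gp m Q k + ph m a)) (ph m (Z ω))).trans
      (mul_le_mul h hn (norm_nonneg _) E0)
    linarith
  have := norm_sub_norm_le (ch Z θ) (ch Z θ0)
  linarith

lemma gp_uniq_EGRegion {m Mg : ℕ} (hm : 1 ≤ m) (hMg : 1 ≤ Mg) {n n' : ℤ × ℤ} (hn : n ∈ grid Mg)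
    (hn' : n' ∈ grid Mg) {A : ℂ} {a a' : O m} (h : gp m Mg n = A + ph m a)
    (h' : gp m Mg n' = A + ph m a') : n = n' := by
  obtain ⟨⟨n1, n2⟩, n3, n4⟩ := mem_grid_EGRegion.1 hn
  obtain ⟨⟨p1, p2⟩, p3, p4⟩ := mem_grid_EGRegion.1 hn'
  have M0 : (Mg : ℂ) ≠ 0 := by exact_mod_cast (show Mg ≠ 0 by omega)
  have e : (⟨n.1, n.2⟩ : O m) = ⟨n'.1, n'.2⟩ + (Mg : O m) * (a - a') := by
    apply ph_inj hm
    unfold gp at h h'
    rw [div_eq_iff M0] at h h'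
    simp only [map_add, map_mul, map_sub, map_natCast]
    rw [h, h']
    ring
  generalize a - a' = w at e
  have e1 := congrArg Zsqrtd.re e
  have e2 := congrArg Zsqrtd.im e
  simp at e1 e2
  have key : ∀ x y t : ℤ, 0 ≤ x → x < Mg → 0 ≤ y → y < Mg → x = y + Mg * t → x = y := by
    intro x y t a1 a2 a3 a4 a5
    have := congrArg (· % (Mg : ℤ)) a5
    simp only [Int.add_mul_emod_self_left] at this
    rwa [Int.emod_eq_of_lt a1 a2, Int.emod_eq_of_lt a3 a4] at this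
  exact Prod.ext (key _ _ _ n1 n2 p1 p2 e1) (key _ _ _ n3 n4 p3 p4 e2)

lemma sum_le_EGRegion {α β : Type} (S : Finset α) (T : Finset β) (f : α → ℝ) (F : β → ℝ)
    (R : β → α → Prop) (h : ∀ n ∈ S, ∃ t ∈ T, R t n ∧ f n ≤ F t)
    (hu : ∀ t, ∀ n ∈ S, ∀ n' ∈ S, R t n → R t n' → n = n') (hF : ∀ t ∈ T, 0 ≤ F t) :
    ∑ n ∈ S, f n ≤ ∑ t ∈ T, F t := by
  classical
  choose! τ h1 h2 h3 using fun n : S => h n.1 n.2
  have inj : Function.Injective τ := fun x y e =>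
    Subtype.ext (hu (τ x) _ x.2 _ y.2 (h2 x) (e ▸ h2 y))
  calc ∑ n ∈ S, f n = ∑ n : S, f n := (sum_coe_sort S f).symm
    _ ≤ ∑ n : S, F (τ n) := sum_le_sum fun n _ => h3 n
    _ = ∑ t ∈ univ.image τ, F t := (sum_image fun x _ y _ e => inj e).symm
    _ ≤ ∑ t ∈ T, F t := by
      refine sum_le_sum_of_subset_of_nonneg (fun t ht => ?_) fun t ht _ => hF t ht
      obtain ⟨x, -, rfl⟩ := mem_image.1 ht
      exact h1 x

open Classical in
/-- The contribution of the points next to fractions with rough denominators. -/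
theorem mid_region (m Y Q Mg V : ℕ) (H NN0 δ Mn : ℝ) {Ω Ω' : Type} [Fintype Ω] [Fintype Ω']
    (X Xt : Ω → O m) (Z : Ω' → O m) (W : ℕ → ℝ) (hm : 1 ≤ m) (hQ : 1 ≤ Q) (hMg : 1 ≤ Mg)
    (hQM : Q ∣ Mg) (hH : 1 ≤ H) (h0 : 0 < NN0) (hδ0 : 0 ≤ δ) (hδ : δ * H ^ 4 ≤ 1 / 10 ^ 4)
    (hV : Mg * Real.sqrt (H / NN0) + 1 ≤ V)
    (hZ : ∀ ω, (Q : O m) ∣ Z ω ∧ ‖ph m (Z ω)‖ ≤ δ * Real.sqrt NN0)
    (hX : ∑ k ∈ grid Q, ∑ c ∈ sqr (2 * V), ‖ch X (mp m Q Mg k c)‖ ^ 2 ≤ Mn)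
    (hXt : ∑ k ∈ grid Q, ∑ c ∈ sqr (2 * V), ‖ch Xt (mp m Q Mg k c)‖ ^ 2 ≤ 2 * Mn)
    (h3 : ∀ (d : ℕ) (β : O m), 1 < d → (d : ℝ) ≤ H → Rough Y d → PrimAt β d →
      ‖ch Z (ph m β / d)‖ ≤ W d) (hW0 : ∀ d, 0 ≤ W d)
    (h4 : ∑ d ∈ (Icc 2 ⌊H⌋₊).filter (Rough Y), (d : ℝ) ^ 2 * W d ≤ 1 / 100) :
    ∑ n ∈ (grid Mg).filter (fun n => (∃ (β : O m) (d : ℕ), Near m (gp m Mg n) β d H NN0 ∧ ¬ Deep Y Q d) ∧
        ¬ ∃ q ∈ grid Q ×ˢ sqr V, mi Q Mg q = n),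
      ‖ch X (gp m Mg n)‖ * ‖ch Xt (gp m Mg n)‖ * ‖ch Z (gp m Mg n)‖ ≤ Mn / 10 := by
  set D := (Icc 2 ⌊H⌋₊).filter (Rough Y) with hD
  set ε : ℝ := 7 * (δ * H) with hε
  have ε0 : 0 ≤ ε := by positivity
  set st : ℕ → ℤ × ℤ → ℂ := fun d b =>
    gp m Mg (round ((Mg : ℝ) * b.1 / d), round ((Mg : ℝ) * b.2 / d)) with hst
  set P : (Σ _ : ℕ, (ℤ × ℤ) × (ℤ × ℤ) × (ℤ × ℤ)) → ℂ := fun t =>
    st t.1 t.2.1 + mp m Q Mg t.2.2.1 t.2.2.2 with hP
  have Mn0 : 0 ≤ Mn := le_trans (by positivity) hX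
  have sH : Real.sqrt (H / NN0) * (δ * Real.sqrt NN0) ≤ δ * H := by
    have a : Real.sqrt (H / NN0) * Real.sqrt NN0 = Real.sqrt H := by
      rw [← Real.sqrt_mul (by positivity), div_mul_cancel₀ _ h0.ne']
    have b : Real.sqrt H ≤ H := Real.sqrt_le_iff.2 ⟨by linarith, by nlinarith⟩
    rw [mul_left_comm, a]
    exact mul_le_mul_of_nonneg_left b hδ0
  refine (sum_le_EGRegion _ (D.sigma fun d => grid d ×ˢ grid Q ×ˢ sqr V) _
    (fun t => ‖ch X (P t)‖ * ‖ch Xt (P t)‖ * (W t.1 + ε))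
    (fun t n => ∃ a : O m, gp m Mg n = P t + ph m a) ?_ ?_ ?_).trans ?_
  · intro n hn
    obtain ⟨hg, ⟨β, d, hN, hd⟩, hq⟩ := mem_filter.1 hn
    obtain ⟨v, b, k, c, a, a', v1, vH, hv, hb, hpb, hk, hc, e, hz⟩ :=
      (classify m Y Q Mg V H NN0 hm hQ hMg hQM h0 hV n hg β d hN hd).resolve_left hq
    refine ⟨⟨v, b, k, c⟩, mem_sigma.2 ⟨mem_filter.2 ⟨mem_Icc.2 ⟨v1, Nat.le_floor vH⟩, hv⟩,
      mem_product.2 ⟨hb, mem_product.2 ⟨hk, hc⟩⟩⟩, ⟨a, e⟩, ?_⟩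
    have z := chZ_EGRegion m Q hm hQ Z (by positivity) hZ _ _ k a' (small_EGRegion h0 hz)
    have w : ‖ch Z (gp m v b)‖ ≤ W v := h3 v _ v1 vH hv hpb
    have e' : gp m Mg n = P ⟨v, b, k, c⟩ + ph m a := e
    have x1 : ch X (gp m Mg n) = ch X (P ⟨v, b, k, c⟩) := by rw [e', ch_period hm]
    have x2 : ch Xt (gp m Mg n) = ch Xt (P ⟨v, b, k, c⟩) := by rw [e', ch_period hm]
    rw [x1, x2]
    exact mul_le_mul_of_nonneg_left (by simp only [hε]; linarith) (by positivity)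
  · rintro t n hn n' hn' ⟨a, e⟩ ⟨a', e'⟩
    exact gp_uniq_EGRegion hm hMg (mem_filter.1 hn).1 (mem_filter.1 hn').1 e e'
  · intro t _
    have := hW0 t.1
    positivity
  rw [sum_sigma]
  have one : ∀ d ∈ D, ∑ s ∈ grid d ×ˢ grid Q ×ˢ sqr V,
      ‖ch X (P ⟨d, s⟩)‖ * ‖ch Xt (P ⟨d, s⟩)‖ * (W d + ε) ≤
        6 * Mn * ((d : ℝ) ^ 2 * W d) + 6 * Mn * (H ^ 2 * ε) := by
    intro d hd
    have dH : (d : ℝ) ≤ H :=
      le_trans (by exact_mod_cast (mem_Icc.1 (mem_filter.1 hd).1).2) (Nat.floor_le (by linarith))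
    have w0 : 0 ≤ W d + ε := add_nonneg (hW0 d) ε0
    have cd : ((grid d).card : ℝ) = (d : ℝ) ^ 2 := by
      simp [grid, card_product, sq]
    rw [← sum_mul, sum_product]
    have in1 : ∀ b ∈ grid d, ∑ s ∈ grid Q ×ˢ sqr V,
        ‖ch X (P ⟨d, b, s⟩)‖ * ‖ch Xt (P ⟨d, b, s⟩)‖ ≤ 6 * Mn := by
      intro b _
      have c1 := compare m Q Mg V hm hQ X (st d b)
      have c2 := compare m Q Mg V hm hQ Xt (st d b)
      rw [← sum_product'] at c1 c2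
      have c3 : ∑ s ∈ grid Q ×ˢ sqr V, 2 * (‖ch X (P ⟨d, b, s⟩)‖ * ‖ch Xt (P ⟨d, b, s⟩)‖) ≤
          ∑ s ∈ grid Q ×ˢ sqr V, (‖ch X (st d b + mp m Q Mg s.1 s.2)‖ ^ 2 +
            ‖ch Xt (st d b + mp m Q Mg s.1 s.2)‖ ^ 2) := sum_le_sum fun s _ => by
        simp only [hP]
        nlinarith [sq_nonneg (‖ch X (st d b + mp m Q Mg s.1 s.2)‖ -
          ‖ch Xt (st d b + mp m Q Mg s.1 s.2)‖)]
      rw [← mul_sum, sum_add_distrib] at c3
      linarith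
    have in2 := sum_le_card_nsmul _ _ _ in1
    rw [nsmul_eq_mul, cd] at in2
    have d2 : (d : ℝ) ^ 2 ≤ H ^ 2 := pow_le_pow_left₀ (by positivity) dH 2
    have := mul_le_mul_of_nonneg_right in2 w0
    have := mul_le_mul_of_nonneg_left (mul_le_mul_of_nonneg_right d2 ε0)
      (show 0 ≤ 6 * Mn by positivity)
    linarith
  refine (sum_le_sum one).trans ?_
  rw [sum_add_distrib, ← mul_sum, sum_const, nsmul_eq_mul]
  have cD : (D.card : ℝ) ≤ H := by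
    have a : D.card ≤ ⌊H⌋₊ := (card_filter_le _ _).trans (by rw [Nat.card_Icc]; omega)
    exact le_trans (by exact_mod_cast a) (Nat.floor_le (by linarith))
  have a1 := mul_le_mul_of_nonneg_left h4 (show 0 ≤ 6 * Mn by positivity)
  have a2 := mul_le_mul_of_nonneg_right cD (show 0 ≤ 6 * Mn * (H ^ 2 * ε) by positivity)
  have a3 := mul_le_mul_of_nonneg_left hδ (show 0 ≤ 42 * Mn by positivity)
  have a4 : H * (6 * Mn * (H ^ 2 * ε)) = 42 * Mn * (δ * H ^ 4) := by rw [hε]; ring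
  linarith

end Pool.Agent.P.MP_b75a1e_co.EG
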