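import Pool.Agent.P.MP_b75a1e_co.EGLevel

set_option autoImplicit false

open Finset
open scoped BigOperators ComplexConjugate

namespace Pool.Agent.P.MP_b75a1e_co.EG

theorem pf_card_EGStep (N b : ℕ) (h : N ≤ 2 ^ b) : N.primeFactors.card ≤ b := by
  rcases Nat.eq_zero_or_pos N with h0 | h0
  · simp [h0]
  have h1 : 2 ^ N.primeFactors.card ≤ ∏ l ∈ N.primeFactors, l :=
    Finset.pow_card_le_prod _ _ _ fun l hl => (Nat.prime_of_mem_primeFactors hl).two_le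
  have h2 : ∏ l ∈ N.primeFactors, l ≤ N := Nat.le_of_dvd h0 (Nat.prod_primeFactors_dvd N)
  exact (Nat.pow_le_pow_iff_right (by norm_num : 1 < 2)).1 (h1.trans (h2.trans h))

theorem norm_sub_le_EGStep {m : ℕ} (v w : O m) : (v - w).norm ≤ 2 * v.norm + 2 * w.norm := by
  rw [norm_eq, norm_eq, norm_eq, Zsqrtd.re_sub, Zsqrtd.im_sub]
  have hm : (0 : ℤ) ≤ m := Int.natCast_nonneg m
  nlinarith [sq_nonneg (v.re + w.re), mul_nonneg hm (sq_nonneg (v.im + w.im))]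

theorem sumRes_zero_EGStep {m : ℕ} (e : O m) : SumRes e 0 0 :=
  ⟨0, by simp, by simp, by simp⟩

theorem kappa_EGStep (p κ : ℕ) (hp : 10 ^ 20 ≤ p) (hκ2 : κ ^ 2 ≤ p) : 1002 * κ ≤ p := by
  rcases le_total 1002 κ with h | h
  · calc 1002 * κ ≤ κ * κ := Nat.mul_le_mul_right _ h
      _ = κ ^ 2 := by ring
      _ ≤ p := hκ2
  · omega

theorem kappa_pos_EGStep (p κ : ℕ) (hp : 10 ^ 20 ≤ p) (hκ1 : p ^ 20 ≤ 2 ^ κ) : 1 ≤ κ := by
  rcases Nat.eq_zero_or_pos κ with h | h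
  · subst h
    have h2 : 2 ^ 20 ≤ p ^ 20 := Nat.pow_le_pow_left (by omega) 20
    omega
  · exact h

theorem sq_EGStep (p κ : ℕ) (hκ1 : p ^ 20 ≤ 2 ^ κ) : p ^ 40 ≤ 2 ^ (2 * κ) := by
  calc p ^ 40 = (p ^ 20) ^ 2 := by ring
    _ ≤ (2 ^ κ) ^ 2 := Nat.pow_le_pow_left hκ1 2
    _ = 2 ^ (2 * κ) := by ring

theorem expo_EGStep (k r r' j w : ℕ) (hk : 1 ≤ k) (h1 : r ≤ k * r') (h2 : 1000 * k * r' ≤ 1001 * r)
    (hw : 999 * r ≤ 1000 * w + 1000) :
    (998 / 1000 : ℝ) * k * ((r + r' : ℕ) : ℝ) * (1 - ((k : ℝ) / (k + 1)) ^ (j + 1)) - 2 * ((j + 1 : ℕ) : ℝ)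
      ≤ ((w : ℝ) - 1) + ((998 / 1000 : ℝ) * k * r * (1 - ((k : ℝ) / (k + 1)) ^ j) - 2 * j) := by
  have hk' : (1 : ℝ) ≤ k := by exact_mod_cast hk
  have h1' : (r : ℝ) ≤ k * r' := by exact_mod_cast h1
  have h2' : (1000 : ℝ) * k * r' ≤ 1001 * r := by exact_mod_cast h2
  have hw' : (999 : ℝ) * r ≤ 1000 * w + 1000 := by exact_mod_cast hw
  have hr0 : (0 : ℝ) ≤ r := Nat.cast_nonneg r
  have hq : (0 : ℝ) ≤ ((k : ℝ) / (k + 1)) ^ j := by positivity
  have hq1 : (r : ℝ) ≤ ((r : ℝ) + r') * ((k : ℝ) / (k + 1)) := by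
    rw [mul_div_assoc', le_div_iff₀ (by linarith)]
    nlinarith
  rw [pow_succ]
  generalize ((k : ℝ) / (k + 1)) ^ j = x at hq ⊢
  generalize ((k : ℝ) / (k + 1)) = q at hq1 ⊢
  push_cast
  have h3 : (k : ℝ) * x * r ≤ k * x * (((r : ℝ) + r') * q) :=
    mul_le_mul_of_nonneg_left hq1 (mul_nonneg (by linarith) hq)
  nlinarith

/-- The first state of the tower. -/
theorem start (m p κ : ℕ) (hm : 2 ≤ m) (hmp : m ≤ 4 ^ p) (hp : 10 ^ 20 ≤ p) (hκ1 : p ^ 20 ≤ 2 ^ κ)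
    (PP : Finset ℕ) (hPP : ∀ l ∈ PP, Split m l) (hc : 2 ^ (998 * κ) ≤ PP.card) :
    ∃ S : St m, S.Ok PP (996 * κ) 0 ∧ p ^ 4 ≤ S.D.card ∧ S.D.card ≤ p ^ 4 + p ^ 2 := by
  have hp6 : 10 ^ 6 ≤ p := le_trans (by norm_num) hp
  have hκ : 1 ≤ κ := kappa_pos_EGStep p κ hp hκ1
  have hcard : 2 ^ (0 + 5) * 1 + p ^ 4 + 2 * p ^ 2 ≤ PP.card := by
    have h1 : 2 ^ κ ≤ 2 ^ (998 * κ) := Nat.pow_le_pow_right (by norm_num) (by omega)
    have h2 : p ^ 5 ≤ p ^ 20 := Nat.pow_le_pow_right (by omega) (by norm_num)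
    have h3 : p ^ 2 ≤ p ^ 4 := Nat.pow_le_pow_right (by omega) (by norm_num)
    have h4 : 1 ≤ p ^ 4 := Nat.one_le_pow _ _ (by omega)
    have h5 : 100 * p ^ 4 ≤ p ^ 5 := by
      calc 100 * p ^ 4 ≤ p * p ^ 4 := Nat.mul_le_mul_right _ (by omega)
        _ = p ^ 5 := by ring
    omega
  have h4 : 1 ≤ p ^ 4 := Nat.one_le_pow _ _ (by omega)
  obtain ⟨D, hD, ρ, E, hB, hτ1, hτ2, hbig, -⟩ := level m p hm hmp hp6 PP hPP ∅ 0 1
    (2 ^ (0 + 5) * 1) (p ^ 4) 0 hcard le_rfl le_rfl (by simp) (by simp) (by omega)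
  have hE : E.Nonempty := by
    rw [← Finset.card_pos]
    rcases Nat.eq_zero_or_pos E.card with h0 | h0
    · rw [h0] at hbig
      simp at hbig
    · exact h0
  obtain ⟨e, he⟩ := hE
  refine ⟨⟨D, ρ, E, e, fun j => if j = 0 then {0} else ∅⟩, ⟨hD, hB, hbig, he, ?_, ?_⟩, hτ1, hτ2⟩
  · intro j u hu
    by_cases hj : j = 0
    · subst hj
      simp only [if_true, Finset.mem_singleton] at hu
      subst hu
      exact sumRes_zero_EGStep e
    · simp [hj] at hu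
  · intro j hj
    obtain rfl : j = 0 := by omega
    simp

/-- One step of the tower. -/
theorem step (m p κ i : ℕ) (hm : 2 ≤ m) (hmp : m ≤ 4 ^ p) (hp : 10 ^ 20 ≤ p) (hκ1 : p ^ 20 ≤ 2 ^ κ)
    (hκ2 : κ ^ 2 ≤ p) (PP : Finset ℕ) (hPP : ∀ l ∈ PP, Split m l ∧ l ≤ 2 ^ (1001 * κ))
    (hc : 2 ^ (998 * κ) ≤ PP.card) (S : St m) (hS : S.Ok PP (996 * κ) i) (h1 : p ^ 4 ≤ S.D.card)
    (h2 : S.D.card ≤ p ^ 37) :
    ∃ S' : St m, S'.Ok PP (996 * κ) (i + 1) ∧ S.e ∣ S'.e ∧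
      (996 * κ + 1) * S.D.card ≤ 996 * κ * S'.D.card ∧
      1000 * (996 * κ) * S'.D.card ≤ (1000 * (996 * κ) + 1001) * S.D.card := by
  classical
  have hp6 : 10 ^ 6 ≤ p := le_trans (by norm_num) hp
  have hκ : 1 ≤ κ := kappa_pos_EGStep p κ hp hκ1
  have hκp : 1002 * κ ≤ p := kappa_EGStep p κ hp hκ2
  have hsq := sq_EGStep p κ hκ1
  have hm1 : 1 ≤ m := by omega
  obtain ⟨k, hk⟩ : ∃ k, k = 996 * κ := ⟨_, rfl⟩
  obtain ⟨r, hr⟩ : ∃ r, r = S.D.card := ⟨_, rfl⟩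
  obtain ⟨w, hw⟩ : ∃ w, w = 999 * r / 1000 := ⟨_, rfl⟩
  have hk1 : 1 ≤ k := by omega
  rw [← hk] at hS ⊢
  rw [← hr] at h1 h2 ⊢
  have hwV : 2 ^ w ≤ S.V.card := by
    have h3 : (2 ^ w) ^ 1000 ≤ S.V.card ^ 1000 := by
      calc (2 ^ w) ^ 1000 = 2 ^ (w * 1000) := (pow_mul 2 w 1000).symm
        _ ≤ 2 ^ (999 * S.D.card) := Nat.pow_le_pow_right (by norm_num) (by omega)
        _ ≤ _ := hS.big
    exact (Nat.pow_le_pow_iff_left (by norm_num)).1 h3
  obtain ⟨W, hWV, hWc⟩ := Finset.exists_subset_card_eq hwV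
  have hp37 : 1 ≤ p ^ 37 := Nat.one_le_pow _ _ (by omega)
  have hp2 : p ^ 2 ≤ p ^ 37 := Nat.pow_le_pow_right (by omega) (by norm_num)
  have hp38 : 100 * p ^ 37 ≤ p ^ 38 := by
    calc 100 * p ^ 37 ≤ p * p ^ 37 := Nat.mul_le_mul_right _ (by omega)
      _ = p ^ 38 := by ring
  have hp40 : 64 * p ^ 38 ≤ p ^ 40 := by
    calc 64 * p ^ 38 ≤ p * p ^ 38 := Nat.mul_le_mul_right _ (by omega)
      _ = p ^ 39 := by ring
      _ ≤ p ^ 40 := Nat.pow_le_pow_right (by omega) (by norm_num)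
  have hpow : 2 ^ (998 * κ) = 2 * 2 ^ (998 * κ - 1) := by
    rw [← pow_succ']
    congr 1
    omega
  have hpow2 : 2 ^ (2 * κ) ≤ 2 ^ (998 * κ - 1) := Nat.pow_le_pow_right (by norm_num) (by omega)
  have hdiv : r / k ≤ r := Nat.div_le_self _ _
  have hcard : 2 ^ (998 * κ - 1) + (r / k + 1) + 2 * p ^ 2 ≤ (PP \ S.D).card := by
    have h3 := Finset.le_card_sdiff S.D PP
    omega
  have hlam : 2 ^ (k + 5) * p ^ 38 ≤ 2 ^ (998 * κ - 1) := by
    have h3 : 2 ^ (998 * κ) = 2 ^ k * 2 ^ (2 * κ) := by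
      rw [← pow_add]
      congr 1
      omega
    have h4 : 2 ^ k * (64 * p ^ 38) ≤ 2 ^ k * 2 ^ (2 * κ) :=
      Nat.mul_le_mul_left _ (hp40.trans hsq)
    have h5 : 2 ^ k * (64 * p ^ 38) = 2 * (2 ^ (k + 5) * p ^ 38) := by ring
    omega
  have hn : (∏ l ∈ S.D, (l : ℤ)) ≤ 2 ^ (1001 * κ * r) := by
    have h3 : ∏ l ∈ S.D, l ≤ (2 ^ (1001 * κ)) ^ S.D.card :=
      Finset.prod_le_pow_card _ _ _ fun l hl => (hPP l (hS.sub hl)).2
    rw [← pow_mul, ← hr] at h3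
    have h4 : ((∏ l ∈ S.D, l : ℕ) : ℤ) ≤ ((2 ^ (1001 * κ * r) : ℕ) : ℤ) := Int.ofNat_le.2 h3
    rw [Nat.cast_prod, Nat.cast_pow] at h4
    exact h4
  have hW : ∀ v ∈ W, ∀ v' ∈ W, v ≠ v' → (v - v').norm.natAbs.primeFactors.card ≤ p ^ 38 := by
    intro v hv v' hv' _
    have h3 := norm_sub_le_EGStep v v'
    rw [hS.box.nrm v (hWV hv), hS.box.nrm v' (hWV hv')] at h3
    have h4 : (v - v').norm.natAbs ≤ 2 ^ (1001 * κ * r + 2) := by
      have h5 : (((v - v').norm.natAbs : ℕ) : ℤ) ≤ 2 ^ (1001 * κ * r + 2) := by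
        rw [Int.natAbs_of_nonneg (norm_nonneg' _), pow_add]
        linarith
      exact_mod_cast h5
    refine (pf_card_EGStep _ _ h4).trans ?_
    have h6 : 1001 * κ * r ≤ 1001 * κ * p ^ 37 := Nat.mul_le_mul_left _ h2
    have h7 : 1002 * κ * p ^ 37 ≤ p * p ^ 37 := Nat.mul_le_mul_right _ hκp
    have h8 : p * p ^ 37 = p ^ 38 := by ring
    have h9 : 1 * p ^ 37 ≤ κ * p ^ 37 := Nat.mul_le_mul_right _ hκ
    have h10 : 2 ≤ p ^ 37 := le_trans (by nlinarith) hp2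
    have h11 : 1002 * κ * p ^ 37 = 1001 * κ * p ^ 37 + κ * p ^ 37 := by ring
    omega
  have hτ0 : r + 1 ≤ k * (r / k + 1) := Nat.lt_mul_div_succ r hk1
  have hτ : r + 1 ≤ (k + 1) * (r / k + 1) := hτ0.trans (Nat.mul_le_mul_right _ (by omega))
  have hWr : W.card ≤ 2 ^ r := by
    rw [hWc]
    exact Nat.pow_le_pow_right (by norm_num) (by omega)
  obtain ⟨D, hD, ρ, E, hB, hτ1, hτ2, hbig, W', hW'W, hW'c, hsep⟩ := level m p hm hmp hp6 (PP \ S.D)
    (fun l hl => (hPP l (Finset.mem_sdiff.1 hl).1).1) W k (p ^ 38) (2 ^ (998 * κ - 1)) (r / k + 1) r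
    hcard (by omega) hlam hW hWr hτ
  have hE : E.Nonempty := by
    rw [← Finset.card_pos]
    rcases Nat.eq_zero_or_pos E.card with h0 | h0
    · rw [h0] at hbig
      simp at hbig
    · exact h0
  obtain ⟨e, he⟩ := hE
  have hDs : ∀ l ∈ D, Split m l := fun l hl => (hPP l (Finset.mem_sdiff.1 (hD hl)).1).1
  have hSs : ∀ l ∈ S.D, Split m l := fun l hl => (hPP l (hS.sub hl)).1
  have hdisj : Disjoint S.D D :=
    Finset.disjoint_left.2 fun l hl hl' => (Finset.mem_sdiff.1 (hD hl')).2 hl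
  obtain ⟨hBm, hBc⟩ := Box.mul hm hS.box hB hdisj hSs hDs
  have hcu : (S.D ∪ D).card = r + D.card := by rw [Finset.card_union_of_disjoint hdisj, hr]
  have hlow : r ≤ k * D.card := le_trans (by omega) (hτ0.trans (Nat.mul_le_mul_left _ hτ1))
  have hup : 1000 * k * D.card ≤ 1001 * r := by
    have h3 : k * D.card ≤ k * (r / k + 1 + p ^ 2) := Nat.mul_le_mul_left _ hτ2
    have h4 : k * (r / k) ≤ r := Nat.mul_div_le _ _
    have h5 : k ≤ p := by omega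
    have h6 : 1 ≤ p ^ 2 := Nat.one_le_pow _ _ (by omega)
    have h7 : k * (1 + p ^ 2) ≤ p * (2 * p ^ 2) := Nat.mul_le_mul h5 (by omega)
    have h8 : 2000 * p ^ 3 ≤ p ^ 4 := by
      calc 2000 * p ^ 3 ≤ p * p ^ 3 := Nat.mul_le_mul_right _ (by omega)
        _ = p ^ 4 := by ring
    have h9 : p * (2 * p ^ 2) = 2 * p ^ 3 := by ring
    have h10 : k * (r / k + 1 + p ^ 2) = k * (r / k) + k * (1 + p ^ 2) := by ring
    have h11 : 1000 * k * D.card = 1000 * (k * D.card) := by ring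
    omega
  have hen : e.norm = ∏ l ∈ D, (l : ℤ) := hB.nrm e he
  have he0 : e ≠ 0 := by
    intro h0
    rw [h0, Zsqrtd.norm_zero] at hen
    exact Finset.prod_ne_zero_iff.2
      (fun l hl => Int.natCast_ne_zero.2 (hDs l hl).1.ne_zero) hen.symm
  have hcop : IsCoprime e (star e) := hB.coprime_star hDs he
  have hres : (m : O m) ^ 2 ∣ star e - e := by
    have h3 := dvd_star (hB.res e he)
    rw [star_pow, star_natCast, star_sub, star_intCast] at h3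
    have h4 : star e - e = (star e - (ρ : O m)) - (e - (ρ : O m)) := by ring
    rw [h4]
    exact dvd_sub h3 (hB.res e he)
  refine ⟨⟨S.D ∪ D, S.ρ * ρ, image₂ (· * ·) S.V E, S.e * e, fun j => match j with
      | 0 => {0}
      | j + 1 => image₂ (fun v u => star e * v + e * u) W' (S.U j)⟩,
    ⟨?_, hBm, ?_, Finset.mem_image₂_of_mem hS.mem he, ?_, ?_⟩, Dvd.intro _ rfl, ?_, ?_⟩
  · exact Finset.union_subset hS.sub fun l hl => (Finset.mem_sdiff.1 (hD hl)).1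
  · show 2 ^ (999 * (S.D ∪ D).card) ≤ (image₂ (· * ·) S.V E).card ^ 1000
    rw [hBc, hcu, mul_add, pow_add, mul_pow, hr]
    exact Nat.mul_le_mul hS.big hbig
  · intro j u hu
    cases j with
    | zero =>
      obtain rfl : u = 0 := Finset.mem_singleton.1 hu
      exact sumRes_zero_EGStep _
    | succ j =>
      obtain ⟨v, hv, u0, hu0, rfl⟩ := Finset.mem_image₂.1 hu
      obtain ⟨L, hL1, hL2, hL3⟩ := hS.sum j u0 hu0
      have hvV : v ∈ S.V := hWV (hW'W hv)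
      refine ⟨(star e * v) ::ₘ L.map (fun a => e * a), by simp [hL1], ?_, ?_⟩
      · intro a ha
        rcases Multiset.mem_cons.1 ha with rfl | ha
        · constructor
          · show (star e * v).norm = (S.e * e).norm
            rw [Zsqrtd.norm_mul, Zsqrtd.norm_mul, Zsqrtd.norm_conj, hS.box.nrm v hvV,
              hS.box.nrm _ hS.mem, mul_comm]
          · show (m : O m) ^ 2 ∣ star e * v - S.e * e
            have h3 : star e * v - S.e * e =
                (star e - e) * v + e * ((v - (S.ρ : O m)) - (S.e - (S.ρ : O m))) := by ring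
            rw [h3]
            exact dvd_add (hres.mul_right _)
              ((dvd_sub (hS.box.res v hvV) (hS.box.res _ hS.mem)).mul_left _)
        · obtain ⟨a0, ha0, rfl⟩ := Multiset.mem_map.1 ha
          constructor
          · show (e * a0).norm = (S.e * e).norm
            rw [Zsqrtd.norm_mul, Zsqrtd.norm_mul, (hL2 a0 ha0).1, mul_comm]
          · show (m : O m) ^ 2 ∣ e * a0 - S.e * e
            have h3 : e * a0 - S.e * e = e * (a0 - S.e) := by ring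
            rw [h3]
            exact (hL2 a0 ha0).2.mul_left _
      · rw [Multiset.sum_cons, Multiset.sum_map_mul_left, Multiset.map_id', hL3]
  · intro j hj
    cases j with
    | zero => simp
    | succ j =>
      have hinj : Set.InjOn (fun x : O m × O m => star e * x.1 + e * x.2)
          ((W' : Set (O m)) ×ˢ (S.U j : Set (O m))) := by
        rintro ⟨v, u⟩ ⟨hv, -⟩ ⟨v', u'⟩ ⟨hv', -⟩ h
        have h3 : star e * v + e * u = star e * v' + e * u' := h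
        have h4 : e ∣ star e * (v - v') := ⟨u' - u, by linear_combination h3⟩
        have h5 : e ∣ v - v' := hcop.dvd_of_dvd_mul_left h4
        have h6 : v = v' := by
          by_contra hne
          exact hsep v hv v' hv' hne (hen ▸ norm_dvd_norm h5)
        subst h6
        have h7 : u = u' := o_cancel hm1 he0 (by linear_combination h3)
        rw [h7]
      have hcardU : (image₂ (fun v u => star e * v + e * u) W' (S.U j)).card =
          W'.card * (S.U j).card := Finset.card_image₂_iff.2 hinj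
      show (2 : ℝ) ^ ((998 / 1000 : ℝ) * k * ((S.D ∪ D).card : ℕ) *
          (1 - ((k : ℝ) / (k + 1)) ^ (j + 1)) - 2 * ((j + 1 : ℕ) : ℝ)) ≤
        ((image₂ (fun v u => star e * v + e * u) W' (S.U j)).card : ℝ)
      rw [hcardU, hcu, Nat.cast_mul]
      have h3 := hS.crd j (by omega)
      rw [← hr] at h3
      have h4 : (2 : ℝ) ^ ((w : ℝ) - 1) ≤ W'.card := by
        rw [Real.rpow_sub (by norm_num), Real.rpow_natCast, Real.rpow_one, div_le_iff₀ (by norm_num)]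
        rw [hWc] at hW'c
        have h5 : ((2 ^ w : ℕ) : ℝ) ≤ ((2 * W'.card : ℕ) : ℝ) := by exact_mod_cast hW'c
        push_cast at h5
        linarith
      calc _ ≤ (2 : ℝ) ^ (((w : ℝ) - 1) + ((998 / 1000 : ℝ) * k * r *
              (1 - ((k : ℝ) / (k + 1)) ^ j) - 2 * j)) :=
            Real.rpow_le_rpow_of_exponent_le (by norm_num)
              (expo_EGStep k r D.card j w hk1 hlow hup (by omega))
        _ = (2 : ℝ) ^ ((w : ℝ) - 1) * (2 : ℝ) ^ ((998 / 1000 : ℝ) * k * r *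
              (1 - ((k : ℝ) / (k + 1)) ^ j) - 2 * j) := Real.rpow_add (by norm_num) _ _
        _ ≤ _ := mul_le_mul h4 h3 (by positivity) (Nat.cast_nonneg _)
  · show (k + 1) * r ≤ k * (S.D ∪ D).card
    rw [hcu]
    nlinarith
  · show 1000 * k * (S.D ∪ D).card ≤ (1000 * k + 1001) * r
    rw [hcu]
    nlinarith

end Pool.Agent.P.MP_b75a1e_co.EG
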