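import Mathlib

set_option autoImplicit false

/-! Few moduli have few split primes in a long range. -/

open Finset

namespace Pool.Agent.P.MP_b75a1e_co.EG

/-- The Jacobi symbol as a multiplicative map in the numerator. -/
def egtJ (d : ℕ) : ℤ →* ℤ where
  toFun a := jacobiSym a d
  map_one' := jacobiSym.one_left d
  map_mul' a b := jacobiSym.mul_left a b d

theorem egt_abs (a : ℤ) (d : ℕ) : |jacobiSym a d| ≤ 1 := by
  rcases jacobiSym.trichotomy a d with h | h | h <;> simp [h]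

theorem egt_neg {m m' q : ℕ} (hm : Squarefree m) (h0 : m' ≠ 0) (ho : Odd m) (hq : q.Prime)
    (h1 : q ∣ m) (h2 : ¬ q ∣ m') : ∃ a : ℕ, jacobiSym a (m * m') = -1 := by
  obtain ⟨c, rfl⟩ := h1
  have := Fact.mk hq
  have hc : c ≠ 0 := fun h => by simp [h] at hm
  have hq2 : q ≠ 2 := fun h => by
    rw [h] at ho
    exact (Nat.not_odd_iff_even.2 (even_two_mul c)) ho
  have hco : q.Coprime (c * m') := Nat.Coprime.mul_right (Nat.coprime_of_squarefree_mul hm)
    (hq.coprime_iff_not_dvd.2 h2)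
  obtain ⟨b, hb⟩ := FiniteField.exists_nonsquare (F := ZMod q) (by rwa [ZMod.ringChar_zmod_n])
  obtain ⟨a, ha1, ha2⟩ := Nat.chineseRemainder hco b.val 1
  refine ⟨a, ?_⟩
  have e1 : jacobiSym a q = -1 := by
    rw [← jacobiSym.legendreSym.to_jacobiSym, legendreSym.eq_neg_one_iff']
    rwa [(ZMod.natCast_eq_natCast_iff _ _ _).2 ha1, ZMod.natCast_zmod_val]
  have e2 : jacobiSym a (c * m') = 1 := by
    rw [jacobiSym.mod_left' (a₂ := 1) (by exact_mod_cast Int.natCast_modEq_iff.2 ha2),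
      jacobiSym.one_left]
  rw [mul_assoc, jacobiSym.mul_right' _ hq.ne_zero (mul_ne_zero hc h0), e1, e2, mul_one]

theorem egt_period {d : ℕ} (hd : d ≠ 0) {a : ℕ} (ha : jacobiSym a d = -1) :
    ∑ n ∈ range d, jacobiSym n d = 0 := by
  have : NeZero d := ⟨hd⟩
  have h1 : ∑ n ∈ range d, jacobiSym n d = ∑ x : ZMod d, jacobiSym (x.val : ℕ) d :=
    sum_bij' (fun n _ => (n : ZMod d)) (fun x _ => x.val) (fun _ _ => mem_univ _)
      (fun x _ => mem_range.2 (ZMod.val_lt x)) (fun n hn => ZMod.val_cast_of_lt (mem_range.1 hn))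
      (fun x _ => ZMod.natCast_zmod_val x)
      fun n hn => by rw [ZMod.val_cast_of_lt (mem_range.1 hn)]
  have hc : a.Coprime d := by
    by_contra h
    rw [(jacobiSym.eq_zero_iff_not_coprime).2 (by simpa using h)] at ha
    exact absurd ha (by norm_num)
  have h2 := Equiv.sum_comp (ZMod.unitOfCoprime a hc).mulLeft
    fun x : ZMod d => jacobiSym (x.val : ℕ) d
  have h3 : ∀ x : ZMod d, jacobiSym (((ZMod.unitOfCoprime a hc).mulLeft x).val : ℕ) d =
      -jacobiSym (x.val : ℕ) d := fun x => by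
    rw [Units.mulLeft_apply, ZMod.coe_unitOfCoprime, ZMod.val_mul, ZMod.val_natCast,
      Nat.mod_mul_mod, Int.natCast_mod, ← jacobiSym.mod_left, Nat.cast_mul, jacobiSym.mul_left, ha,
      neg_one_mul]
  simp only [h3, sum_neg_distrib] at h2
  omega

theorem egt_part {d : ℕ} (hd : d ≠ 0) (h0 : ∑ n ∈ range d, jacobiSym n d = 0) (X : ℕ) :
    ∑ n ∈ range X, jacobiSym n d ≤ d := by
  induction X using Nat.strong_induction_on with
  | _ X ih =>
    rcases lt_or_ge X d with h | h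
    · refine (sum_le_card_nsmul _ _ 1 fun n _ => (le_abs_self _).trans (egt_abs _ _)).trans ?_
      simpa using h.le
    · obtain ⟨Y, rfl⟩ := Nat.exists_eq_add_of_le h
      rw [sum_range_add, h0, zero_add]
      refine le_trans (le_of_eq (sum_congr rfl fun n _ => ?_)) (ih Y (by omega))
      exact jacobiSym.mod_left' (by push_cast; simp)

theorem egt_gram {B : Finset ℕ} {M : ℕ} (hB : ∀ m ∈ B, Squarefree m ∧ Odd m ∧ m ≤ M) (X : ℕ) :
    ∑ n ∈ range X, (∑ m ∈ B, jacobiSym n m) ^ 2 ≤ B.card * X + B.card ^ 2 * M ^ 2 := by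
  have h1 : ∀ m ∈ B, ∀ m' ∈ B, ∑ n ∈ range X, jacobiSym n m * jacobiSym n m' ≤
      (if m = m' then (X : ℤ) else 0) + M ^ 2 := by
    intro m hm m' hm'
    obtain ⟨a1, a2, a3⟩ := hB m hm
    obtain ⟨b1, b2, b3⟩ := hB m' hm'
    simp only [← jacobiSym.mul_right' _ a1.ne_zero b1.ne_zero]
    split_ifs with h
    · refine (sum_le_card_nsmul _ _ 1 fun n _ => (le_abs_self _).trans (egt_abs _ _)).trans ?_
      simp
    · have h2 : ∃ a : ℕ, jacobiSym a (m * m') = -1 := by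
        by_contra h3
        refine h ((Nat.Squarefree.ext_iff a1 b1).2 fun q hq => ⟨fun h4 => ?_, fun h4 => ?_⟩)
        · by_contra h5
          exact h3 (egt_neg a1 b1.ne_zero a2 hq h4 h5)
        · by_contra h5
          exact h3 (mul_comm m m' ▸ egt_neg b1 a1.ne_zero b2 hq h4 h5)
      obtain ⟨a, ha⟩ := h2
      have h0 := mul_ne_zero a1.ne_zero b1.ne_zero
      refine (egt_part h0 (egt_period h0 ha) X).trans ?_
      rw [zero_add, sq]
      exact_mod_cast Nat.mul_le_mul a3 b3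
  simp only [sq (∑ m ∈ B, _), sum_mul_sum]
  rw [sum_comm]
  refine (sum_le_sum fun m hm => (sum_comm.trans_le (sum_le_sum (h1 m hm)))).trans (le_of_eq ?_)
  simp only [sum_add_distrib, sum_ite_eq, sum_const, nsmul_eq_mul]
  rw [sum_congr rfl fun m hm => if_pos hm, sum_const, nsmul_eq_mul]
  ring

theorem egt_fib {PP : Finset ℕ} (hP : ∀ l ∈ PP, l.Prime) (u n : ℕ) :
    ((Fintype.piFinset fun _ : Fin u => PP).filter fun t => ∏ i, t i = n).card ≤ u ^ u := by
  rcases eq_empty_or_nonempty {t ∈ Fintype.piFinset fun _ : Fin u => PP | ∏ i, t i = n} with h | h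
  · rw [h, card_empty]
    exact Nat.zero_le _
  obtain ⟨t₀, ht₀⟩ := h
  obtain ⟨h1, h2⟩ := mem_filter.1 ht₀
  refine (card_le_card (t := Fintype.piFinset fun _ : Fin u => univ.image t₀)
    fun t ht => ?_).trans ?_
  · obtain ⟨h3, h4⟩ := mem_filter.1 ht
    refine Fintype.mem_piFinset.2 fun i => ?_
    have h5 := hP _ (Fintype.mem_piFinset.1 h3 i)
    obtain ⟨j, -, hj⟩ := (h5.prime.dvd_finsetProd_iff t₀).1
      ((h4.trans h2.symm) ▸ dvd_prod_of_mem t (mem_univ i))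
    exact mem_image.2 ⟨j, mem_univ _, ((Nat.prime_dvd_prime_iff_eq h5
      (hP _ (Fintype.mem_piFinset.1 h1 j))).1 hj).symm⟩
  · rw [Fintype.card_piFinset_const]
    exact Nat.pow_le_pow_left (card_image_le.trans (by simp)) u

/-- The counting lemma. -/
theorem egt_count {PP B : Finset ℕ} {M x u s : ℕ} (hP : ∀ l ∈ PP, l.Prime ∧ l ≤ x)
    (hB : ∀ m ∈ B, Squarefree m ∧ Odd m ∧ m ≤ M)
    (hs : ∀ m ∈ B, (PP.filter fun l : ℕ => jacobiSym l m ≠ -1).card ≤ s)
    (h1 : 4 * s * u ≤ PP.card) (hu : 1 ≤ u)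
    (h2 : 8 * u ^ u * M ^ 2 ≤ PP.card ^ u) (h3 : 0 < PP.card) :
    B.card * PP.card ^ u ≤ 8 * u ^ u * (x ^ u + 1) := by
  set F := Fintype.piFinset fun _ : Fin u => PP with hF
  set T : ℕ → ℤ := fun n => ∑ m ∈ B, jacobiSym n m with hT
  have hc : F.card = PP.card ^ u := Fintype.card_piFinset_const _ _
  have a1 : ∀ m ∈ B, (PP.card : ℤ) ^ u ≤ 2 * ∑ t ∈ F, (-1) ^ u * jacobiSym (∏ i, t i : ℕ) m := by
    intro m hm
    have e1 : ∑ t ∈ F, (-1) ^ u * jacobiSym (∏ i, t i : ℕ) m = (∑ l ∈ PP, -jacobiSym l m) ^ u := by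
      rw [sum_pow']
      refine sum_congr rfl fun t _ => ?_
      rw [prod_neg, card_univ, Fintype.card_fin, Nat.cast_prod]
      exact congrArg _ (map_prod (egtJ m) _ _)
    have e2 : (PP.card : ℤ) - 2 * s ≤ ∑ l ∈ PP, -jacobiSym l m := by
      have : ∑ l ∈ PP, (1 - if jacobiSym l m ≠ -1 then 2 else 0 : ℤ) ≤
          ∑ l ∈ PP, -jacobiSym l m := sum_le_sum fun l _ => by
        have := (abs_le.1 (egt_abs l m)).2
        split_ifs with h
        · omega
        · omega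
      rw [sum_sub_distrib, ← sum_filter, sum_const, sum_const] at this
      have h4 : ((PP.filter fun l : ℕ => jacobiSym l m ≠ -1).card : ℤ) ≤ s := by
        exact_mod_cast hs m hm
      simp only [nsmul_eq_mul] at this
      linarith
    have h4 : (4 : ℝ) * s * u ≤ PP.card := by exact_mod_cast h1
    have h5 : (1 : ℝ) ≤ u := by exact_mod_cast hu
    have h6 : (0 : ℝ) < PP.card := by exact_mod_cast h3
    have h7 : (0 : ℝ) ≤ s := Nat.cast_nonneg s
    have h8 : 2 * s / (PP.card : ℝ) ≤ 1 := by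
      rw [div_le_one h6]
      nlinarith
    have h9 := one_add_mul_le_pow (a := -(2 * s / (PP.card : ℝ))) (by linarith) u
    have h10 : u * (2 * s / (PP.card : ℝ)) ≤ 1 / 2 := by
      rw [← mul_div_assoc, div_le_iff₀ h6]
      linarith
    have h11 : (PP.card : ℝ) ^ u ≤ 2 * ((PP.card : ℝ) - 2 * s) ^ u := by
      have : (PP.card : ℝ) - 2 * s = PP.card * (1 + -(2 * s / (PP.card : ℝ))) := by
        field_simp
        ring
      rw [this, mul_pow]
      nlinarith [pow_pos h6 u]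
    have h12 : (PP.card : ℤ) ^ u ≤ 2 * ((PP.card : ℤ) - 2 * s) ^ u := by exact_mod_cast h11
    have h13 : (0 : ℤ) ≤ PP.card - 2 * s := by
      have : 2 * s ≤ PP.card := by nlinarith
      omega
    rw [e1]
    linarith [pow_le_pow_left₀ h13 e2 u]
  have a2 : (B.card : ℤ) * PP.card ^ u ≤ 2 * ∑ t ∈ F, (-1) ^ u * T (∏ i, t i) := by
    simp only [hT, mul_sum B]
    rw [sum_comm, mul_sum, ← nsmul_eq_mul]
    exact card_nsmul_le_sum _ _ _ a1
  have a3 : (∑ t ∈ F, (-1) ^ u * T (∏ i, t i)) ^ 2 ≤ PP.card ^ u * ∑ t ∈ F, T (∏ i, t i) ^ 2 := by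
    have := sq_sum_le_card_mul_sum_sq (s := F) (f := fun t => (-1) ^ u * T (∏ i, t i))
    simp only [mul_pow, ← pow_mul, mul_comm u 2, pow_mul (-1 : ℤ) 2, neg_one_sq, one_pow, one_mul,
      hc] at this
    exact_mod_cast this
  have a4 : ∑ t ∈ F, T (∏ i, t i) ^ 2 ≤ u ^ u * ∑ n ∈ range (x ^ u + 1), T n ^ 2 := by
    rw [← sum_fiberwise_of_maps_to (t := range (x ^ u + 1)) (g := fun t => ∏ i, t i) fun t ht =>
      mem_range.2 (Nat.lt_succ_of_le ((prod_le_pow_card _ _ x fun i _ =>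
        (hP _ (Fintype.mem_piFinset.1 ht i)).2).trans (by simp))), mul_sum]
    refine sum_le_sum fun n _ => ?_
    rw [sum_congr rfl fun t ht => by rw [(mem_filter.1 ht).2], sum_const, nsmul_eq_mul]
    exact mul_le_mul_of_nonneg_right (by exact_mod_cast egt_fib (fun l hl => (hP l hl).1) u n)
      (sq_nonneg _)
  have a5 := egt_gram hB (x ^ u + 1)
  have h4 : (8 : ℤ) * u ^ u * M ^ 2 ≤ PP.card ^ u := by exact_mod_cast h2
  have h5 : (0 : ℤ) < PP.card ^ u := by positivity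
  rcases Nat.eq_zero_or_pos B.card with h6 | h6
  · rw [h6, zero_mul]
    exact Nat.zero_le _
  have h7 : (0 : ℤ) < B.card := by exact_mod_cast h6
  zify
  push_cast at a5
  generalize (PP.card : ℤ) ^ u = Q at *
  generalize (B.card : ℤ) = R at *
  generalize (x : ℤ) ^ u + 1 = X at *
  have a6 := pow_le_pow_left₀ (mul_pos h7 h5).le a2 2
  have a7 := mul_le_mul_of_nonneg_left
    (a4.trans (mul_le_mul_of_nonneg_left a5 (by positivity))) h5.le
  have a8 := mul_le_mul_of_nonneg_left h4 (mul_pos (mul_pos h7 h7) h5).le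
  refine le_of_mul_le_mul_left ?_ (mul_pos h7 h5)
  nlinarith

theorem egt_split {m l : ℕ} (hm : m % 4 = 3) (hl : l.Prime) (h2 : l ≠ 2)
    (h : jacobiSym l m ≠ -1) : ∃ r : ℕ, l ∣ r ^ 2 + m := by
  have := Fact.mk hl
  have ho := hl.odd_of_ne_two h2
  have hmo : Odd m := Nat.odd_iff.2 (by omega)
  have e : jacobiSym (-(m : ℤ)) l = jacobiSym l m := by
    rw [jacobiSym.neg _ ho]
    rcases Nat.odd_mod_four_iff.1 (Nat.odd_iff.1 ho) with h1 | h1
    · rw [ZMod.χ₄_nat_one_mod_four h1, jacobiSym.quadratic_reciprocity_one_mod_four' hmo h1, one_mul]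
    · rw [ZMod.χ₄_nat_three_mod_four h1, jacobiSym.quadratic_reciprocity_three_mod_four hm h1]
      ring
  rw [← e, ← jacobiSym.legendreSym.to_jacobiSym, Ne, legendreSym.eq_neg_one_iff, not_not] at h
  obtain ⟨r, hr⟩ := h
  refine ⟨r.val, (ZMod.natCast_eq_zero_iff _ _).1 ?_⟩
  push_cast at hr ⊢
  rw [ZMod.natCast_zmod_val, sq, ← hr, neg_add_cancel]

theorem egt_primes {k : ℕ} (hk : 2 ≤ k) :
    2 ^ (1001 * k) ≤ 2002 * k * ((Ioc (2 ^ (990 * k)) (2 ^ (1001 * k))).filter Nat.Prime).card := by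
  set n := 2 ^ (1001 * k) with hn
  set y := 2 ^ (990 * k) with hy
  set P := ((Ioc y n).filter Nat.Prime).card with hP
  have h0 : 0 < n := by positivity
  have h1 : (Nat.primesLE n).card ≤ P + y := by
    refine (card_le_card (t := (Ioc y n).filter Nat.Prime ∪ Ioc 0 y) fun q hq => ?_).trans
      ((card_union_le _ _).trans (by simp [hP]))
    obtain ⟨h2, h3⟩ := Nat.mem_primesLE.1 hq
    have := h3.pos
    simp only [mem_union, mem_filter, mem_Ioc, h3, and_true]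
    omega
  have h2 : Nat.lcmUpto n ≤ n ^ (P + y) := by
    rw [Nat.lcmUpto_eq_prod_pow_log]
    exact (prod_le_pow_card _ _ n fun q _ => Nat.pow_log_le_self q h0.ne').trans
      (Nat.pow_le_pow_right h0 h1)
  have h3 : 2 ^ n ≤ 2 ^ (1001 * k + 1 + 1001 * k * (P + y)) := by
    refine (Chebyshev.two_pow_le_mul_lcmUpto n).trans ?_
    rw [pow_add, pow_succ, pow_mul 2 (1001 * k), ← hn]
    exact Nat.mul_le_mul (by omega) h2
  have h4 := (Nat.pow_le_pow_iff_right one_lt_two).1 h3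
  have h5 : 8008 * k ≤ 2 ^ (11 * k) := by
    have h6 : k ≤ 2 ^ k := Nat.lt_two_pow_self.le
    have h7 : 2 ^ 20 ≤ 2 ^ (10 * k) := Nat.pow_le_pow_right two_pos (by omega)
    rw [show 11 * k = 10 * k + k by ring, pow_add]
    exact Nat.mul_le_mul (le_trans (by norm_num) h7) h6
  have h6 : 8008 * k * y ≤ n := by
    rw [hn, show 1001 * k = 11 * k + 990 * k by ring, pow_add]
    exact Nat.mul_le_mul_right _ h5
  have h7 : k * 1 ≤ k * y := Nat.mul_le_mul_left _ Nat.one_le_two_pow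
  nlinarith

theorem egt_log {j : ℕ} (hj : 100 ≤ j) : 400 * 10 ^ 15 * (j + 1) ^ 3 ≤ 2 ^ j := by
  induction j, hj using Nat.le_induction with
  | base => norm_num
  | succ j hj ih =>
    have : (j + 1 + 1) ^ 3 ≤ 2 * (j + 1) ^ 3 := by
      obtain ⟨i, rfl⟩ := Nat.exists_eq_add_of_le hj
      ring_nf
      omega
    rw [pow_succ]
    omega

theorem few_sparse : ∃ (C : ℝ) (p₀ : ℕ), ∀ p ≥ p₀, ∃ k : ℕ, 20 * (Nat.log 2 p + 1) ≤ k ∧
    10 ^ 15 * k ^ 2 * (Nat.log 2 p + 1) ≤ p ∧ ∀ B : Finset ℕ,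
      (∀ m ∈ B, Squarefree m ∧ m % 4 = 3 ∧ (∀ q, q.Prime → q ∣ m → q ≤ p) ∧
        ∀ PP : Finset ℕ, (∀ l ∈ PP, l.Prime ∧ 2 ^ (990 * k) < l ∧ l ≤ 2 ^ (1001 * k) ∧
          ∃ r : ℕ, l ∣ r ^ 2 + m) → PP.card < 2 ^ (998 * k)) →
      (B.card : ℝ) ≤ Real.exp (C * √(p * Real.log p ^ 3)) := by
  refine ⟨10 ^ 9, 2 ^ 100, fun p hp => ?_⟩
  have hp0 : p ≠ 0 := by omega
  have hj : 100 ≤ Nat.log 2 p := Nat.le_log_of_pow_le one_lt_two hp
  have hl1 := (egt_log hj).trans (Nat.pow_log_le_self 2 hp0)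
  have hl2 : p < 2 ^ (Nat.log 2 p + 1) := Nat.lt_pow_succ_log_self one_lt_two p
  set j := Nat.log 2 p + 1 with hjd
  set k := Nat.sqrt (p / (10 ^ 15 * j)) with hk
  have hj0 : 0 < 10 ^ 15 * j := by positivity
  have k1 : 20 * j ≤ k := Nat.le_sqrt'.2 ((Nat.le_div_iff_mul_le hj0).2
    (le_trans (le_of_eq (by ring)) hl1))
  have k2 : 10 ^ 15 * k ^ 2 * j ≤ p :=
    le_trans (le_of_eq (by ring)) ((Nat.le_div_iff_mul_le hj0).1 (Nat.sqrt_le' _))
  have k3 : p < (k + 1) ^ 2 * (10 ^ 15 * j) :=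
    (Nat.div_lt_iff_lt_mul hj0).1 (Nat.lt_succ_sqrt' _)
  refine ⟨k, k1, k2, fun B hB => ?_⟩
  have k0 : 2020 ≤ k := by omega
  have kp : k ≤ p := by nlinarith
  have hP := egt_primes (by omega : 2 ≤ k)
  set PP := (Ioc (2 ^ (990 * k)) (2 ^ (1001 * k))).filter Nat.Prime with hPP
  set u := p / k + 1 with hu
  have u0 : 1 ≤ u := Nat.le_add_left _ _
  have u1 : p < k * u := Nat.lt_mul_div_succ p (by omega)
  have u2 : k * u ≤ 2 * p := by
    have := Nat.mul_div_le p k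
    rw [hu, mul_add]
    omega
  have u3 : u ≤ 2 ^ j := by
    have := Nat.div_le_self p k
    omega
  have hP1 : 2 ^ (1000 * k) ≤ PP.card := by
    have h1 : 2002 * k ≤ 2 ^ k := by
      obtain ⟨i, hi⟩ := Nat.exists_eq_add_of_le (by omega : 22 ≤ k)
      have h2 : i < 2 ^ i := Nat.lt_two_pow_self
      rw [hi, pow_add]
      omega
    refine Nat.le_of_mul_le_mul_left ?_ (by positivity : 0 < 2 ^ k)
    rw [← pow_add, show k + 1000 * k = 1001 * k by ring]
    exact hP.trans (Nat.mul_le_mul_right _ h1)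
  have hP0 : 0 < PP.card := lt_of_lt_of_le (by positivity) hP1
  have key := egt_count (PP := PP) (B := B) (M := 4 ^ p) (x := 2 ^ (1001 * k)) (u := u)
    (s := 2 ^ (998 * k)) (fun l hl => ⟨(mem_filter.1 hl).2, (mem_Ioc.1 (mem_filter.1 hl).1).2⟩)
    (fun m hm => ?_) (fun m hm => ?_) ?_ u0 ?_ hP0
  rotate_left
  · obtain ⟨h1, h2, h3, -⟩ := hB m hm
    refine ⟨h1, Nat.odd_iff.2 (by omega), le_trans ?_ (primorial_le_four_pow p)⟩
    rw [← Nat.prod_primeFactors_of_squarefree h1]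
    refine Nat.le_of_dvd (primorial_pos p) (prod_dvd_prod_of_subset _ _ _ fun q hq => ?_)
    have h4 := Nat.prime_of_mem_primeFactors hq
    exact mem_filter.2 ⟨mem_range.2 (Nat.lt_succ_of_le (h3 q h4 (Nat.dvd_of_mem_primeFactors hq))), h4⟩
  · obtain ⟨-, h2, -, h3⟩ := hB m hm
    refine (h3 _ fun l hl => ?_).le
    obtain ⟨h4, h5⟩ := mem_filter.1 hl
    obtain ⟨h6, h7⟩ := mem_filter.1 h4
    obtain ⟨h8, h9⟩ := mem_Ioc.1 h6
    refine ⟨h7, h8, h9, egt_split h2 h7 (fun h => ?_) h5⟩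
    have : 2 ^ 1 ≤ 2 ^ (990 * k) := Nat.pow_le_pow_right two_pos (by omega)
    omega
  · refine le_trans ?_ hP1
    refine (Nat.mul_le_mul_left _ u3).trans ?_
    rw [show 4 = 2 ^ 2 by norm_num, ← pow_add, ← pow_add]
    exact Nat.pow_le_pow_right two_pos (by omega)
  · refine le_trans ?_ (Nat.pow_le_pow_left hP1 u)
    refine (Nat.mul_le_mul_right _ (Nat.mul_le_mul_left _ (Nat.pow_le_pow_left
      (u3.trans (Nat.pow_le_pow_right two_pos (by omega : j ≤ k))) u))).trans ?_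
    rw [show 8 = 2 ^ 3 by norm_num, show 4 = 2 ^ 2 by norm_num, ← pow_mul, ← pow_mul, ← pow_mul,
      ← pow_mul, ← pow_add, ← pow_add]
    refine Nat.pow_le_pow_right two_pos ?_
    rw [mul_assoc 1000]
    omega
  have a1 : B.card ≤ p ^ (2 * u + 1) := by
    refine Nat.le_of_mul_le_mul_right (key.trans ?_) (pow_pos hP0 u)
    have h1 : 0 < (2 ^ (1001 * k)) ^ u := by positivity
    have h2 := Nat.pow_le_pow_left hP u
    have h3 : (u * (2002 * k)) ^ u ≤ (p ^ 2) ^ u := Nat.pow_le_pow_left (by nlinarith) u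
    calc _ ≤ 8 * u ^ u * (2 * (2002 * k * PP.card) ^ u) := Nat.mul_le_mul_left _ (by omega)
      _ = 16 * (u * (2002 * k)) ^ u * PP.card ^ u := by simp only [mul_pow]; ring
      _ ≤ p * (p ^ 2) ^ u * PP.card ^ u :=
        Nat.mul_le_mul_right _ (Nat.mul_le_mul (by omega) h3)
      _ = _ := by ring
  have hp1 : (3 : ℝ) ≤ p := by exact_mod_cast (by omega : 3 ≤ p)
  have l1 : 1 ≤ Real.log p := by
    rw [Real.le_log_iff_exp_le (by linarith)]
    linarith [Real.exp_one_lt_d9]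
  have l2 : (j : ℝ) ≤ 3 * Real.log p := by
    have h1 : ((2 : ℝ) ^ Nat.log 2 p) ≤ p := by exact_mod_cast Nat.pow_log_le_self 2 hp0
    have h2 := Real.log_le_log (by positivity) h1
    rw [Real.log_pow] at h2
    have h3 : (0 : ℝ) ≤ Nat.log 2 p := Nat.cast_nonneg _
    rw [hjd]
    push_cast
    nlinarith [Real.log_two_gt_d9]
  have a2 : (2 * u + 1) ^ 2 ≤ 10 ^ 17 * p * j := by
    have h1 : k * (2 * u + 1) ≤ 5 * p := by nlinarith
    have h2 : p ≤ (2 * k) ^ 2 * (10 ^ 15 * j) :=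
      k3.le.trans (Nat.mul_le_mul_right _ (Nat.pow_le_pow_left (by omega) 2))
    refine Nat.le_of_mul_le_mul_left ?_ (by positivity : 0 < k ^ 2)
    calc _ = (k * (2 * u + 1)) ^ 2 := by ring
      _ ≤ (5 * p) ^ 2 := Nat.pow_le_pow_left h1 2
      _ = 25 * p * p := by ring
      _ ≤ 25 * p * ((2 * k) ^ 2 * (10 ^ 15 * j)) := Nat.mul_le_mul_left _ h2
      _ = _ := by ring
  have a3 : ((2 * u + 1 : ℕ) : ℝ) ^ 2 ≤ 10 ^ 17 * p * j := by exact_mod_cast a2
  have a4 : (B.card : ℝ) ≤ (p : ℝ) ^ (2 * u + 1) := by exact_mod_cast a1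
  refine a4.trans ?_
  rw [← Real.exp_log (by positivity : (0 : ℝ) < (p : ℝ) ^ (2 * u + 1)), Real.log_pow,
    Real.exp_le_exp]
  refine abs_le_of_sq_le_sq' ?_ (by positivity) |>.2
  rw [mul_pow, mul_pow, Real.sq_sqrt (by positivity)]
  have a5 := mul_le_mul_of_nonneg_left l2 (by positivity : (0 : ℝ) ≤ 10 ^ 17 * p)
  have a6 := mul_le_mul_of_nonneg_right (a3.trans a5) (sq_nonneg (Real.log p))
  have a7 : (0 : ℝ) ≤ p * Real.log p ^ 3 := by positivity
  nlinarith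

end Pool.Agent.P.MP_b75a1e_co.EG
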