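import Pool.Agent.P.MP_b75a1e_co.EGCore
import Pool.Agent.P.MP_b75a1e_co.EGT1a

set_option autoImplicit false

open Finset
open scoped BigOperators ComplexConjugate

namespace Pool.Agent.P.MP_b75a1e_co.EG

theorem fin_EGT1 (p : ℕ) :
    {m : ℕ | Squarefree m ∧ m % 4 = 3 ∧ p ∣ m ∧ ∀ q, q.Prime → q ∣ m → q ≤ p}.Finite :=
  (Set.finite_Iic (4 ^ p)).subset fun _ hm => m_le_four_pow hm.1 hm.2.2.2

/-- The prime factors that fix the class modulo four. -/
def ext_EGT1 (p : ℕ) (S : Finset ℕ) : Finset ℕ :=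
  if (p * ∏ q ∈ S, q) % 4 = 3 then insert p S else insert 3 (insert p S)

/-- The number of admissible `m`. -/
theorem card_admissible (p : ℕ) (hp : p.Prime) (h5 : 5 ≤ p) :
    {m : ℕ | Squarefree m ∧ m % 4 = 3 ∧ p ∣ m ∧ ∀ q, q.Prime → q ∣ m → q ≤ p}.Finite ∧
      {m : ℕ | Squarefree m ∧ m % 4 = 3 ∧ p ∣ m ∧ ∀ q, q.Prime → q ∣ m → q ≤ p}.ncard =
        2 ^ (Nat.primeCounting p - 3) := by
  refine ⟨fin_EGT1 p, ?_⟩
  set P := (range p).filter fun q => q.Prime ∧ 5 ≤ q with hP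
  have hm : ∀ q, q ∈ P ↔ q < p ∧ q.Prime ∧ 5 ≤ q := fun q => by simp [hP]
  have h4 : ∀ q : ℕ, q.Prime → q < 5 → q = 2 ∨ q = 3 := fun q hq h => by
    interval_cases q <;> simp_all (config := {decide := true})
  have hc : Nat.primeCounting p - 3 = P.card := by
    have e : (range (p + 1)).filter Nat.Prime = insert 2 (insert 3 (insert p P)) := by
      ext q
      simp only [mem_filter, mem_range, mem_insert, hm]
      refine ⟨fun ⟨h1, h2⟩ => ?_, ?_⟩
      · have := h4 q h2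
        simp only [h2, true_and]
        omega
      · rintro (rfl | rfl | rfl | ⟨h1, h2, -⟩)
        exacts [⟨by omega, Nat.prime_two⟩, ⟨by omega, Nat.prime_three⟩, ⟨by omega, hp⟩,
          ⟨by omega, h2⟩]
    rw [Nat.primeCounting, Nat.primeCounting', Nat.count_eq_card_filter_range, e,
      card_insert_of_notMem, card_insert_of_notMem, card_insert_of_notMem]
    · omega
    all_goals
      simp only [mem_insert, hm]
      omega
  have hn : ∀ S ⊆ P, p ∉ S ∧ 3 ∉ insert p S := fun S hS =>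
    ⟨fun h => lt_irrefl _ ((hm _).1 (hS h)).1, fun h => by
      rcases mem_insert.1 h with h | h
      · omega
      · have := ((hm _).1 (hS h)).2.2
        omega⟩
  have ho : ∀ S ⊆ P, (p * ∏ q ∈ S, q) % 2 = 1 := fun S hS => Nat.odd_iff.1
    ((hp.odd_of_ne_two (by omega)).mul (prod_induction _ Odd (fun _ _ => Odd.mul) odd_one
      fun q hq => by
        obtain ⟨-, h1, h2⟩ := (hm _).1 (hS hq)
        exact h1.odd_of_ne_two (by omega)))
  have he : ∀ S ⊆ P, (∀ q ∈ ext_EGT1 p S, q.Prime ∧ q ≤ p) ∧ p ∈ ext_EGT1 p S ∧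
      (∏ q ∈ ext_EGT1 p S, q) % 4 = 3 ∧ ext_EGT1 p S ∩ P = S := fun S hS => by
    have a1 : ∀ q ∈ insert p S, q.Prime ∧ q ≤ p := fun q hq => by
      rcases mem_insert.1 hq with rfl | h
      · exact ⟨hp, le_rfl⟩
      · exact ⟨((hm _).1 (hS h)).2.1, ((hm _).1 (hS h)).1.le⟩
    have a2 : insert p S ∩ P = S := by
      rw [insert_inter_of_notMem (hn P Subset.rfl).1, inter_eq_left.2 hS]
    have a3 := ho S hS
    rw [ext_EGT1]
    split_ifs with h
    · exact ⟨a1, mem_insert_self _ _, by rwa [prod_insert (hn S hS).1], a2⟩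
    · refine ⟨fun q hq => ?_, mem_insert_of_mem (mem_insert_self _ _), ?_, ?_⟩
      · rcases mem_insert.1 hq with rfl | h
        · exact ⟨Nat.prime_three, by omega⟩
        · exact a1 q h
      · rw [prod_insert (hn S hS).2, prod_insert (hn S hS).1]
        omega
      · rw [insert_inter_of_notMem fun h => (hn P Subset.rfl).2 (mem_insert_of_mem h), a2]
  have hf : ∀ S ⊆ P, (∏ q ∈ ext_EGT1 p S, q).primeFactors = ext_EGT1 p S := fun S hS =>
    Nat.primeFactors_prod fun q hq => ((he S hS).1 q hq).1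
  rw [hc, ← card_powerset, ← card_image_of_injOn (f := fun S => ∏ q ∈ ext_EGT1 p S, q)
    fun S hS T hT h => ?_, ← Set.ncard_coe_finset]
  swap
  · have h1 := mem_powerset.1 hS
    have h2 := mem_powerset.1 hT
    rw [← (he S h1).2.2.2, ← (he T h2).2.2.2, ← hf S h1, ← hf T h2]
    exact congrArg (fun n => Nat.primeFactors n ∩ P) h
  congr 1
  ext m
  simp only [Set.mem_ofPred_eq, coe_image, Set.mem_image, mem_coe, mem_powerset]
  refine ⟨fun ⟨h1, h2, h3, h6⟩ => ⟨m.primeFactors ∩ P, inter_subset_right, ?_⟩, ?_⟩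
  · have hS : m.primeFactors ∩ P ⊆ P := inter_subset_right
    have a1 := Nat.prod_primeFactors_of_squarefree h1
    have a2 : m.primeFactors.erase 3 = insert p (m.primeFactors ∩ P) := by
      ext q
      simp only [mem_erase, mem_insert, mem_inter, hm, Nat.mem_primeFactors]
      refine ⟨fun ⟨b1, b2, b3, b4⟩ => ?_, ?_⟩
      · have b5 := h6 q b2 b3
        have b6 := h4 q b2
        have b7 : q ≠ 2 := by
          rintro rfl
          omega
        simp only [b2, b3, b4, true_and, ne_eq, not_false_eq_true]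
        omega
      · rintro (rfl | ⟨b1, -, -, b2⟩)
        exacts [⟨by omega, hp, h3, h1.ne_zero⟩, ⟨by omega, b1⟩]
    have a3 := ho _ hS
    rw [ext_EGT1, ← prod_insert (f := fun q => q) (hn _ hS).1, ← a2]
    rw [← prod_insert (f := fun q => q) (hn _ hS).1, ← a2] at a3
    by_cases h : 3 ∈ m.primeFactors
    · have a4 := mul_prod_erase _ (fun q => q) h
      rw [if_neg (by omega), insert_erase h, a1]
    · rw [erase_eq_of_notMem h, a1, if_pos h2, a1]
  · rintro ⟨S, hS, rfl⟩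
    obtain ⟨a1, a2, a3, -⟩ := he S hS
    refine ⟨Finset.squarefree_prod_of_pairwise_isCoprime (fun q hq q' hq' h => ?_)
      fun q hq => (a1 q hq).1.squarefree, a3, dvd_prod_of_mem _ a2, fun q hq h => ?_⟩
    · exact Nat.coprime_iff_isRelPrime.1 ((Nat.coprime_primes (a1 q hq).1 (a1 q' hq').1).2 h)
    · obtain ⟨l, hl, h1⟩ := (hq.prime.dvd_finsetProd_iff _).1 h
      exact (Nat.le_of_dvd (a1 l hl).1.pos h1).trans (a1 l hl).2

/-- T1: few exceptions. -/
theorem few_bad : ∃ (C : ℝ) (p0 : ℕ), ∀ p : ℕ, p.Prime → p0 ≤ p →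
    (({m : ℕ | (Squarefree m ∧ m % 4 = 3 ∧ p ∣ m ∧ ∀ q, q.Prime → q ∣ m → q ≤ p) ∧
      ¬ HasGon m p}.ncard : ℕ) : ℝ) ≤ Real.exp (C * Real.sqrt p * Real.log p ^ (3 / 2 : ℝ)) := by
  obtain ⟨C, p₀, h⟩ := few_sparse
  refine ⟨C, max p₀ (10 ^ 20), fun p hp h0 => ?_⟩
  obtain ⟨k, k1, k2, h1⟩ := h p (le_of_max_le_left h0)
  have hf : {m : ℕ | (Squarefree m ∧ m % 4 = 3 ∧ p ∣ m ∧ ∀ q, q.Prime → q ∣ m → q ≤ p) ∧
      ¬ HasGon m p}.Finite := (fin_EGT1 p).subset fun _ hm => hm.1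
  have hl := Nat.lt_pow_succ_log_self one_lt_two p
  rw [Set.ncard_eq_toFinset_card _ hf]
  refine (h1 _ fun m hm => ?_).trans (le_of_eq ?_)
  · obtain ⟨⟨a1, a2, a3, a4⟩, a5⟩ := hf.mem_toFinset.1 hm
    refine ⟨a1, a2, a4, fun PP hPP => not_le.1 fun hc => a5 (core m p k (Nat.log 2 p + 1) a1 a2 hp
      a3 a4 (le_of_max_le_right h0) hl ?_ k1 k2 PP (fun l hl' => ?_) hc)⟩
    · have := Nat.pow_log_le_self 2 hp.ne_zero
      rw [pow_succ]
      omega
    · obtain ⟨b1, b2, b3, r, b4⟩ := hPP l hl'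
      refine ⟨⟨b1, fun b5 => ?_, r, by exact_mod_cast b4⟩, b2, b3⟩
      have b6 : p < l := (hl.trans_le (Nat.pow_le_pow_right two_pos (by omega))).trans b2
      rcases (Nat.Prime.dvd_mul b1).1 b5 with b7 | b7
      · have := Nat.le_of_dvd two_pos b7
        have := hp.two_le
        omega
      · exact absurd (a4 l b1 b7) (by omega)
  · have hl0 : 0 ≤ Real.log p := Real.log_natCast_nonneg p
    rw [Real.sqrt_mul (Nat.cast_nonneg p), Real.sqrt_eq_rpow (Real.log p ^ 3), ← Real.rpow_natCast,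
      ← Real.rpow_mul hl0, mul_assoc]
    norm_num

end Pool.Agent.P.MP_b75a1e_co.EG
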