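import Pool.Agent.P.MP_b75a1e_co.EGCore

set_option autoImplicit false

open Finset
open scoped BigOperators ComplexConjugate

namespace Pool.Agent.P.MP_b75a1e_co.EG

theorem primes_EGT2 (m a b : ℕ) (x : ℝ) (hx : x ≤ (b : ℝ)) : ∃ PP : Finset ℕ,
    (∀ l ∈ PP, Split m l ∧ a < l ∧ l ≤ b) ∧ nsplit m x ≤ PP.card + a := by
  have hf : {l : ℕ | l.Prime ∧ (l : ℝ) ≤ x ∧ ¬ l ∣ 2 * m ∧ IsSquare (-(m : ZMod l))}.Finite :=
    (Set.finite_Iic b).subset fun l hl => by exact_mod_cast hl.2.1.trans hx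
  refine ⟨hf.toFinset.filter fun l => a < l, fun l hl => ?_, ?_⟩
  · obtain ⟨h, ha⟩ := mem_filter.1 hl
    obtain ⟨h1, h2, h3, r, hr⟩ := hf.mem_toFinset.1 h
    obtain ⟨r, rfl⟩ := ZMod.intCast_surjective r
    refine ⟨⟨h1, h3, r, ?_⟩, ha, by exact_mod_cast h2.trans hx⟩
    rw [← ZMod.intCast_zmod_eq_zero_iff_dvd]
    push_cast
    linear_combination -hr
  · rw [nsplit, Set.ncard_eq_toFinset_card _ hf]
    refine (card_le_card (t := hf.toFinset.filter (fun l => a < l) ∪ Icc 1 a) fun l hl => ?_).trans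
      ((card_union_le _ _).trans (by simp))
    have := (hf.mem_toFinset.1 hl).1.one_le
    rw [mem_union, mem_filter, mem_Icc]
    by_cases h : a < l
    · exact Or.inl ⟨hl, h⟩
    · exact Or.inr ⟨this, by omega⟩

theorem size_EGT2 (p n k : ℕ) (x : ℝ) (hn : 1 ≤ n) (hk : 1 ≤ k) (hp : 2 ^ k ≤ p)
    (h1 : (2 : ℝ) ^ (1001 * n) ≤ x)
    (h2 : x ≤ Real.exp (1 / 10 ^ 8 * Real.sqrt (p / Real.log p))) :
    10 ^ 15 * (n + 1) ^ 2 * (k + 1) ≤ p := by
  have l2 := Real.log_two_gt_d9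
  have hn' : (1 : ℝ) ≤ n := by exact_mod_cast hn
  have hk' : (1 : ℝ) ≤ k := by exact_mod_cast hk
  have hlp : k * Real.log 2 ≤ Real.log p := by
    rw [← Real.log_pow]
    exact Real.log_le_log (by positivity) (by exact_mod_cast hp)
  have hl0 : 0 < Real.log p := by nlinarith
  have h3 : (k + 1 : ℝ) ≤ 3 * Real.log p := by nlinarith
  have h4 := Real.log_le_log (by positivity) (h1.trans h2)
  rw [Real.log_pow, Real.log_exp] at h4
  push_cast at h4
  have h5 : (n + 1 : ℝ) ≤ 1 / 10 ^ 8 * Real.sqrt (p / Real.log p) := by nlinarith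
  have h6 := pow_le_pow_left₀ (by positivity) h5 2
  rw [mul_pow, Real.sq_sqrt (by positivity)] at h6
  have h7 := mul_le_mul h6 h3 (by positivity) (by positivity)
  have h8 : (1 / 10 ^ 8 : ℝ) ^ 2 * (p / Real.log p) * (3 * Real.log p) = 3 / 10 ^ 16 * p := by
    field_simp
  have h9 : (0 : ℝ) ≤ p := by positivity
  have : (10 : ℝ) ^ 15 * (n + 1) ^ 2 * (k + 1) ≤ p := by
    rw [h8] at h7
    rw [mul_assoc]
    linarith
  exact_mod_cast this

/-- T2: enough split primes below some `x` in a wide range give the polygon. -/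
theorem split_primes : ∃ (A : ℕ) (c : ℝ), 0 < c ∧ ∃ p0 : ℕ, ∀ (m p : ℕ) (x : ℝ), Squarefree m →
    m % 4 = 3 → p.Prime → p ∣ m → (∀ q, q.Prime → q ∣ m → q ≤ p) → p0 ≤ p → (p : ℝ) ^ A ≤ x →
    x ≤ Real.exp (c * Real.sqrt (p / Real.log p)) → x ^ (999 / 1000 : ℝ) ≤ (nsplit m x : ℝ) →
    HasGon m p := by
  refine ⟨40040, 1 / 10 ^ 8, by positivity, 10 ^ 20,
    fun m p x hsq h4 hp hpm hmax hp0 hA hx hs => ?_⟩
  obtain ⟨k, hk1, hk2⟩ : ∃ k, 2 ^ k ≤ p ∧ p < 2 ^ (k + 1) :=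
    ⟨Nat.log 2 p, Nat.pow_log_le_self 2 hp.ne_zero, Nat.lt_pow_succ_log_self one_lt_two p⟩
  have hk : 60 ≤ k := by
    by_contra h
    have : 2 ^ (k + 1) ≤ 2 ^ 60 := Nat.pow_le_pow_right two_pos (by omega)
    omega
  have hex : ∃ κ : ℕ, x ≤ (2 : ℝ) ^ (1001 * κ) := by
    obtain ⟨n, hn⟩ := pow_unbounded_of_one_lt x (one_lt_two (α := ℝ))
    exact ⟨n, hn.le.trans (pow_le_pow_right₀ one_le_two (by omega))⟩
  have hκ := Nat.find_spec hex
  have hlow : k * 40040 ≤ 1001 * Nat.find hex := by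
    refine (pow_le_pow_iff_right₀ (one_lt_two (α := ℝ))).1 (le_trans ?_ (hA.trans hκ))
    rw [pow_mul]
    exact pow_le_pow_left₀ (by positivity) (by exact_mod_cast hk1) _
  obtain ⟨n, hn⟩ : ∃ n, Nat.find hex = n + 1 := ⟨Nat.find hex - 1, by omega⟩
  have hmin : (2 : ℝ) ^ (1001 * n) ≤ x := (not_le.1 (Nat.find_min hex (by omega))).le
  rw [hn] at hκ hlow
  obtain ⟨PP, hPP, hc⟩ := primes_EGT2 m (2 ^ (990 * (n + 1))) (2 ^ (1001 * (n + 1))) x
    (by exact_mod_cast hκ)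
  refine core m p (n + 1) (k + 1) hsq h4 hp hpm hmax hp0 hk2 (by rw [pow_succ]; omega) (by omega)
    (size_EGT2 p n k x (by omega) (by omega) hk1 hmin hx) PP hPP ?_
  have h1 : (2 : ℝ) ^ (999 * n) ≤ x ^ (999 / 1000 : ℝ) := by
    refine le_trans ?_ (Real.rpow_le_rpow (by positivity) hmin (by norm_num))
    rw [← Real.rpow_natCast, ← Real.rpow_natCast, ← Real.rpow_mul zero_le_two]
    refine Real.rpow_le_rpow_of_exponent_le one_le_two ?_
    have : (0 : ℝ) ≤ n := Nat.cast_nonneg n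
    push_cast
    linarith
  have h2 : 2 ^ (999 * n) ≤ nsplit m x := by exact_mod_cast h1.trans hs
  have h3 : 2 ^ (998 * (n + 1) + 1) ≤ 2 ^ (999 * n) := Nat.pow_le_pow_right two_pos (by omega)
  have h5 : 2 ^ (990 * (n + 1)) ≤ 2 ^ (998 * (n + 1)) := Nat.pow_le_pow_right two_pos (by omega)
  rw [pow_succ] at h3
  omega

end Pool.Agent.P.MP_b75a1e_co.EG
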