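import Pool.Agent.P.MP_b75a1e_co.EGStep

set_option autoImplicit false

open Finset
open scoped BigOperators ComplexConjugate

namespace Pool.Agent.P.MP_b75a1e_co.EG

theorem chain_EGTower {α : Type} (P : ℕ → α → Prop) (R : α → α → Prop) (N : ℕ) (a0 : α)
    (h0 : P 0 a0) (hs : ∀ i, i < N → ∀ a, P i a → ∃ b, P (i + 1) b ∧ R a b) :
    ∃ f : ℕ → α, (∀ i ≤ N, P i (f i)) ∧ ∀ i < N, R (f i) (f (i + 1)) := by
  have : Nonempty α := ⟨a0⟩
  choose! g hg using hs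
  let f : ℕ → α := fun n => Nat.rec a0 (fun i a => g i a) n
  have hf : ∀ i, f (i + 1) = g i (f i) := fun _ => rfl
  have hP : ∀ i ≤ N, P i (f i) := by
    intro i
    induction i with
    | zero => intro _; exact h0
    | succ i ih =>
      intro hi
      rw [hf]
      exact (hg i (by omega) _ (ih (by omega))).1
  refine ⟨f, hP, fun i hi => ?_⟩
  rw [hf]
  exact (hg i hi _ (hP i hi.le)).2

theorem exp_ten_EGTower : Real.exp 10 ≤ 30000 := by
  have h := Real.exp_one_lt_d9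
  have h2 : Real.exp 10 = Real.exp 1 ^ 10 := by
    rw [← Real.exp_nat_mul]; norm_num
  rw [h2]
  calc Real.exp 1 ^ 10 ≤ (2.7182818286 : ℝ) ^ 10 :=
        pow_le_pow_left₀ (Real.exp_pos 1).le h.le 10
    _ ≤ 30000 := by norm_num

theorem exp_22_EGTower : Real.exp 22 ≤ 2 ^ 32 := by
  have h := Real.exp_one_lt_d9
  have h2 : Real.exp 22 = Real.exp 1 ^ 22 := by
    rw [← Real.exp_nat_mul]; norm_num
  rw [h2]
  calc Real.exp 1 ^ 22 ≤ (2.7182818286 : ℝ) ^ 22 :=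
        pow_le_pow_left₀ (Real.exp_pos 1).le h.le 22
    _ ≤ 2 ^ 32 := by norm_num

theorem pow_le_exp_EGTower (x : ℝ) (hx : 0 ≤ x) (n : ℕ) : (1 + x) ^ n ≤ Real.exp (n * x) := by
  rw [Real.exp_nat_mul]
  apply pow_le_pow_left₀ (by linarith)
  have := Real.add_one_le_exp x
  linarith

/-- The upper growth factor over at most `9 k` steps. -/
theorem up9_EGTower (k n : ℕ) (hk : 1 ≤ k) (hn : n ≤ 9 * k) :
    (1 + (1001 / 1000 : ℝ) / k) ^ n ≤ 30000 := by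
  have hk' : (0 : ℝ) < k := by exact_mod_cast hk
  have hn' : (n : ℝ) ≤ 9 * k := by exact_mod_cast hn
  refine (pow_le_exp_EGTower _ (by positivity) n).trans (le_trans ?_ exp_ten_EGTower)
  apply Real.exp_le_exp.mpr
  rw [← mul_div_assoc, div_le_iff₀ hk']
  linarith

/-- The upper growth factor over `k / 10` steps. -/
theorem upsig_EGTower (k : ℕ) (hk : 1 ≤ k) :
    (1 + (1001 / 1000 : ℝ) / k) ^ (k / 10) ≤ 9 / 8 := by
  have hk' : (0 : ℝ) < k := by exact_mod_cast hk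
  have hn : 10 * (k / 10) ≤ k := Nat.mul_div_le k 10
  have hn' : (10 : ℝ) * ((k / 10 : ℕ) : ℝ) ≤ k := by exact_mod_cast hn
  refine (pow_le_exp_EGTower _ (by positivity) _).trans ?_
  have h1 : ((k / 10 : ℕ) : ℝ) * ((1001 / 1000 : ℝ) / k) ≤ 1 / 9 := by
    rw [← mul_div_assoc, div_le_iff₀ hk']
    linarith
  refine (Real.exp_le_exp.mpr h1).trans ?_
  refine (Real.exp_bound_div_one_sub_of_interval (by norm_num) (by norm_num)).trans ?_
  norm_num

/-- The upper growth factor over the whole tower. -/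
theorem upall_EGTower (k lp n : ℕ) (hk : 1 ≤ k) (hn : n ≤ 9 * k + 216 * lp * (k / 10)) :
    (1 + (1001 / 1000 : ℝ) / k) ^ n ≤ 30000 * (2 ^ lp) ^ 32 := by
  have hk' : (0 : ℝ) < k := by exact_mod_cast hk
  have hs : 10 * (k / 10) ≤ k := Nat.mul_div_le k 10
  have hn2 : 10 * n ≤ 90 * k + 216 * lp * k := by
    have : 216 * lp * (10 * (k / 10)) ≤ 216 * lp * k := Nat.mul_le_mul_left _ hs
    nlinarith
  have hn' : (10 : ℝ) * n ≤ 90 * k + 216 * lp * k := by exact_mod_cast hn2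
  refine (pow_le_exp_EGTower _ (by positivity) n).trans ?_
  have h1 : (n : ℝ) * ((1001 / 1000 : ℝ) / k) ≤ 10 + lp * 22 := by
    rw [← mul_div_assoc, div_le_iff₀ hk']
    have : (0 : ℝ) ≤ lp * k := by positivity
    nlinarith
  refine (Real.exp_le_exp.mpr h1).trans ?_
  rw [Real.exp_add, Real.exp_nat_mul, ← pow_mul, mul_comm lp 32, pow_mul]
  exact mul_le_mul exp_ten_EGTower (pow_le_pow_left₀ (Real.exp_pos _).le exp_22_EGTower lp)
    (by positivity) (by norm_num)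

theorem two_le_EGTower (k : ℕ) (hk : 1 ≤ k) : (2 : ℝ) ≤ (1 + 1 / k) ^ k := by
  have hk' : (0 : ℝ) < k := by exact_mod_cast hk
  have h := one_add_mul_le_pow (a := (1 / k : ℝ)) (by
    have : (0 : ℝ) ≤ 1 / k := by positivity
    linarith) k
  have h2 : (k : ℝ) * (1 / k) = 1 := by field_simp
  linarith

theorem q_small_EGTower (k : ℕ) (hk : 1 ≤ k) : ((k : ℝ) / (k + 1)) ^ (9 * k) ≤ 1 / 512 := by
  have hk' : (0 : ℝ) < k := by exact_mod_cast hk
  have h := two_le_EGTower k hk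
  have h1 : ((k : ℝ) / (k + 1)) = (1 + 1 / (k : ℝ))⁻¹ := by field_simp
  have h2 : ((k : ℝ) / (k + 1)) ^ k ≤ 1 / 2 := by
    rw [h1, inv_pow, one_div (2 : ℝ)]
    exact inv_anti₀ (by norm_num) h
  rw [mul_comm 9 k, pow_mul]
  calc (((k : ℝ) / (k + 1)) ^ k) ^ 9 ≤ (1 / 2 : ℝ) ^ 9 := pow_le_pow_left₀ (by positivity) h2 9
    _ = 1 / 512 := by norm_num

/-- The lower growth factor over the scales. -/
theorem lowall_EGTower (k lp : ℕ) (hk : 100 ≤ k) :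
    ((2 : ℝ) ^ lp) ^ 24 ≤ (1 + 1 / k) ^ (216 * lp * (k / 10)) := by
  have hk' : (0 : ℝ) < k := by
    have : 0 < k := by omega
    exact_mod_cast this
  have hs : 9 * k ≤ 100 * (k / 10) := by omega
  have hs' : (9 : ℝ) * k ≤ 100 * ((k / 10 : ℕ) : ℝ) := by exact_mod_cast hs
  have h := one_add_mul_le_pow (a := (1 / k : ℝ)) (by
    have : (0 : ℝ) ≤ 1 / k := by positivity
    linarith) (k / 10)
  have h1 : (109 / 100 : ℝ) ≤ (1 + 1 / k) ^ (k / 10) := by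
    refine le_trans ?_ h
    have : (9 / 100 : ℝ) ≤ ((k / 10 : ℕ) : ℝ) * (1 / k) := by
      rw [← mul_div_assoc, le_div_iff₀ hk']
      linarith
    linarith
  have h2 : (2 : ℝ) ≤ ((1 + 1 / k) ^ (k / 10)) ^ 9 :=
    le_trans (by norm_num) (pow_le_pow_left₀ (by norm_num) h1 9)
  have h3 : 216 * lp * (k / 10) = (k / 10) * 9 * (lp * 24) := by ring
  rw [h3, pow_mul _ (k / 10 * 9), pow_mul _ (k / 10), ← pow_mul (2 : ℝ)]
  exact pow_le_pow_left₀ (by norm_num) h2 _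

theorem prod_bounds_EGTower (D : Finset ℕ) (a b : ℕ) (h : ∀ l ∈ D, 2 ^ a < l ∧ l ≤ 2 ^ b) :
    (2 : ℝ) ^ (a * D.card) ≤ ((∏ l ∈ D, (l : ℤ) : ℤ) : ℝ) ∧
      ((∏ l ∈ D, (l : ℤ) : ℤ) : ℝ) ≤ (2 : ℝ) ^ (b * D.card) := by
  have h1 : (2 ^ a) ^ D.card ≤ ∏ l ∈ D, l :=
    Finset.pow_card_le_prod D (fun l => l) _ fun l hl => (h l hl).1.le
  have h2 : ∏ l ∈ D, l ≤ (2 ^ b) ^ D.card :=
    Finset.prod_le_pow_card D (fun l => l) _ fun l hl => (h l hl).2
  rw [← pow_mul] at h1 h2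
  have h3 : ((∏ l ∈ D, (l : ℤ) : ℤ) : ℝ) = ((∏ l ∈ D, l : ℕ) : ℝ) := by push_cast; rfl
  rw [h3]
  exact ⟨by exact_mod_cast h1, by exact_mod_cast h2⟩

/-- The chain of states. -/
theorem states_EGTower (m p κ lp : ℕ) (hm : 2 ≤ m) (hmp : m ≤ 4 ^ p) (hp : 10 ^ 20 ≤ p)
    (hlp : p < 2 ^ lp) (hlp2 : 2 ^ lp ≤ 2 * p) (hκ1 : 20 * lp ≤ κ) (hκ2 : κ ^ 2 ≤ p) (hκ0 : 1 ≤ κ)
    (PP : Finset ℕ) (hPP : ∀ l ∈ PP, Split m l ∧ 2 ^ (990 * κ) < l ∧ l ≤ 2 ^ (1001 * κ))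
    (hc : 2 ^ (998 * κ) ≤ PP.card) :
    ∃ S : ℕ → St m,
      (∀ i ≤ 9 * (996 * κ) + 216 * lp * (996 * κ / 10), (S i).Ok PP (996 * κ) i ∧
        p ^ 4 ≤ (S i).D.card ∧ (S i).D.card ≤ p ^ 37 ∧
        ((S i).D.card : ℝ) ≤ 2 * (p : ℝ) ^ 4 * (1 + (1001 / 1000 : ℝ) / (996 * κ : ℕ)) ^ i) ∧
      ∀ i < 9 * (996 * κ) + 216 * lp * (996 * κ / 10), (S i).e ∣ (S (i + 1)).e ∧
        (1 + 1 / ((996 * κ : ℕ) : ℝ)) * (S i).D.card ≤ (S (i + 1)).D.card ∧
        ((S (i + 1)).D.card : ℝ) ≤ (1 + (1001 / 1000 : ℝ) / (996 * κ : ℕ)) * (S i).D.card := by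
  have hκ3 : p ^ 20 ≤ 2 ^ κ := by
    calc p ^ 20 ≤ (2 ^ lp) ^ 20 := Nat.pow_le_pow_left hlp.le 20
      _ = 2 ^ (20 * lp) := by rw [← pow_mul, mul_comm]
      _ ≤ 2 ^ κ := Nat.pow_le_pow_right (by norm_num) hκ1
  obtain ⟨S0, hS0, h01, h02⟩ := start m p κ hm hmp hp hκ3 PP (fun l hl => (hPP l hl).1) hc
  have hk : 1 ≤ 996 * κ := by omega
  have hp1 : 1 ≤ p := le_trans (by norm_num) hp
  have hp' : (10 : ℝ) ^ 20 ≤ p := by exact_mod_cast hp
  have hlp' : (2 : ℝ) ^ lp ≤ 2 * p := by exact_mod_cast hlp2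
  have hcap : ∀ i ≤ 9 * (996 * κ) + 216 * lp * (996 * κ / 10), ∀ r : ℕ,
      (r : ℝ) ≤ 2 * (p : ℝ) ^ 4 * (1 + (1001 / 1000 : ℝ) / (996 * κ : ℕ)) ^ i → r ≤ p ^ 37 := by
    intro i hi r hr
    have h1 := upall_EGTower (996 * κ) lp i hk hi
    have h2 : ((2 : ℝ) ^ lp) ^ 32 ≤ (2 * p) ^ 32 := pow_le_pow_left₀ (by positivity) hlp' 32
    have h3 : (r : ℝ) ≤ (p : ℝ) ^ 37 := by
      calc (r : ℝ) ≤ 2 * (p : ℝ) ^ 4 * (30000 * (2 * p) ^ 32) := by
            refine hr.trans (mul_le_mul_of_nonneg_left (h1.trans ?_) (by positivity))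
            exact mul_le_mul_of_nonneg_left h2 (by norm_num)
        _ = (60000 * 2 ^ 32) * (p : ℝ) ^ 36 := by ring
        _ ≤ p * (p : ℝ) ^ 36 := by
            apply mul_le_mul_of_nonneg_right _ (by positivity)
            exact le_trans (by norm_num) hp'
        _ = (p : ℝ) ^ 37 := by ring
    exact_mod_cast h3
  generalize hK : 996 * κ = K at *
  have hK' : (0 : ℝ) < K := by exact_mod_cast hk
  refine chain_EGTower
    (fun i (S : St m) => S.Ok PP K i ∧ p ^ 4 ≤ S.D.card ∧ S.D.card ≤ p ^ 37 ∧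
      (S.D.card : ℝ) ≤ 2 * (p : ℝ) ^ 4 * (1 + (1001 / 1000 : ℝ) / K) ^ i)
    (fun S S' => S.e ∣ S'.e ∧ (1 + 1 / (K : ℝ)) * S.D.card ≤ S'.D.card ∧
      (S'.D.card : ℝ) ≤ (1 + (1001 / 1000 : ℝ) / K) * S.D.card) _ S0 ?_ ?_
  · have h1 : p ^ 2 ≤ p ^ 4 := Nat.pow_le_pow_right hp1 (by norm_num)
    have h2 : S0.D.card ≤ 2 * p ^ 4 := by omega
    have h3 : (S0.D.card : ℝ) ≤ 2 * (p : ℝ) ^ 4 * (1 + (1001 / 1000 : ℝ) / K) ^ 0 := by
      rw [pow_zero, mul_one]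
      exact_mod_cast h2
    exact ⟨hS0, h01, hcap 0 (Nat.zero_le _) _ h3, h3⟩
  · rintro i hi S ⟨hS, h1, h2, h3⟩
    obtain ⟨S', hS', hd, h4, h5⟩ := step m p κ i hm hmp hp hκ3 hκ2 PP
      (fun l hl => ⟨(hPP l hl).1, (hPP l hl).2.2⟩) hc S (hK ▸ hS) h1 h2
    rw [hK] at hS' h4 h5
    have h4' : ((K : ℝ) + 1) * S.D.card ≤ K * S'.D.card := by exact_mod_cast h4
    have h5' : 1000 * (K : ℝ) * S'.D.card ≤ (1000 * K + 1001) * S.D.card := by exact_mod_cast h5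
    have h6 : (1 + 1 / (K : ℝ)) * S.D.card ≤ S'.D.card := by
      have : (1 + 1 / (K : ℝ)) * S.D.card = ((K : ℝ) + 1) * S.D.card / K := by field_simp
      rw [this, div_le_iff₀ hK']
      linarith
    have h7 : (S'.D.card : ℝ) ≤ (1 + (1001 / 1000 : ℝ) / K) * S.D.card := by
      have : (1 + (1001 / 1000 : ℝ) / K) * S.D.card
          = (1000 * (K : ℝ) + 1001) * S.D.card / (1000 * K) := by field_simp
      rw [this, le_div_iff₀ (by positivity)]
      linarith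
    have h8 : S.D.card ≤ S'.D.card := by
      have : K * S.D.card ≤ K * S'.D.card := by nlinarith
      exact Nat.le_of_mul_le_mul_left this hk
    have h9 : (S'.D.card : ℝ) ≤ 2 * (p : ℝ) ^ 4 * (1 + (1001 / 1000 : ℝ) / K) ^ (i + 1) := by
      refine h7.trans ?_
      calc (1 + (1001 / 1000 : ℝ) / K) * S.D.card
          ≤ (1 + (1001 / 1000 : ℝ) / K) * (2 * (p : ℝ) ^ 4 * (1 + (1001 / 1000 : ℝ) / K) ^ i) :=
            mul_le_mul_of_nonneg_left h3 (by positivity)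
        _ = _ := by ring
    exact ⟨S', ⟨hS', h1.trans h8, hcap (i + 1) hi _ h9, h9⟩, hd, h6, h7⟩

theorem iter_EGTower {m : ℕ} (S : ℕ → St m) (N : ℕ) (x y : ℝ) (hx : 0 ≤ x) (hy : 0 ≤ y)
    (h : ∀ i < N, (S i).e ∣ (S (i + 1)).e ∧ x * (S i).D.card ≤ (S (i + 1)).D.card ∧
      ((S (i + 1)).D.card : ℝ) ≤ y * (S i).D.card) (a n : ℕ) (hn : a + n ≤ N) :
    (S a).e ∣ (S (a + n)).e ∧ x ^ n * (S a).D.card ≤ (S (a + n)).D.card ∧
      ((S (a + n)).D.card : ℝ) ≤ y ^ n * (S a).D.card := by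
  induction n with
  | zero => simp
  | succ n ih =>
    obtain ⟨h1, h2, h3⟩ := ih (by omega)
    obtain ⟨h4, h5, h6⟩ := h (a + n) (by omega)
    refine ⟨h1.trans h4, ?_, ?_⟩
    · calc x ^ (n + 1) * (S a).D.card = x * (x ^ n * (S a).D.card) := by ring
        _ ≤ x * (S (a + n)).D.card := mul_le_mul_of_nonneg_left h2 hx
        _ ≤ _ := h5
    · calc ((S (a + (n + 1))).D.card : ℝ) ≤ y * (S (a + n)).D.card := h6
        _ ≤ y * (y ^ n * (S a).D.card) := mul_le_mul_of_nonneg_left h3 hy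
        _ = _ := by ring

/-- L3: the scales. -/
theorem tower (m p κ lp : ℕ) (hm : 2 ≤ m) (hmp : m ≤ 4 ^ p) (hp : 10 ^ 20 ≤ p) (hlp : p < 2 ^ lp)
    (hlp2 : 2 ^ lp ≤ 2 * p) (hκ1 : 20 * lp ≤ κ) (hκ2 : κ ^ 2 ≤ p) (PP : Finset ℕ)
    (hPP : ∀ l ∈ PP, Split m l ∧ 2 ^ (990 * κ) < l ∧ l ≤ 2 ^ (1001 * κ))
    (hc : 2 ^ (998 * κ) ≤ PP.card) :
    ∃ (lam : ℕ → ℝ) (e : ℕ → O m) (U : ℕ → Finset (O m)) (D : Finset ℕ),
      D ⊆ PP ∧ D.card ≤ p ^ 37 ∧ (e (216 * lp)).norm = ∏ l ∈ D, (l : ℤ) ∧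
      (∀ j ≤ 216 * lp, ((e j).norm : ℝ) = lam j ^ 100 ∧ (2 : ℝ) ^ (p ^ 4) ≤ lam j ∧
        e j ∣ e (216 * lp) ∧ lam j ^ 99 ≤ (U j).card ∧ ∀ u ∈ U j, SumRes (e j) (8964 * κ) u) ∧
      (∀ j < 216 * lp, lam (j + 1) ^ 121 ≤ lam j ^ 139) ∧ lam 0 ^ 121 ≤ (2 : ℝ) ^ (p ^ 5) ∧
      (2 : ℝ) ^ (p ^ 28) ≤ lam (216 * lp) := by
  have hp1 : 1 ≤ p := le_trans (by norm_num) hp
  have hlp0 : 1 ≤ lp := by
    rcases Nat.eq_zero_or_pos lp with h | h
    · rw [h] at hlp; omega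
    · exact h
  have hκ0 : 1 ≤ κ := by omega
  obtain ⟨S, hS, hR⟩ := states_EGTower m p κ lp hm hmp hp hlp hlp2 hκ1 hκ2 hκ0 PP hPP hc
  have hk : 100 ≤ 996 * κ := by omega
  have hs0 : 8964 * κ = 9 * (996 * κ) := by ring
  have hKR : ((996 * κ : ℕ) : ℝ) = 996 * κ := by push_cast; ring
  rw [hs0]
  generalize hK : 996 * κ = K at *
  have hK' : (0 : ℝ) < K := by
    have : 0 < K := by omega
    exact_mod_cast this
  have hit := iter_EGTower S _ _ _ (by positivity) (by positivity) hR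
  have hle : ∀ j ≤ 216 * lp, 9 * K + j * (K / 10) ≤ 9 * K + 216 * lp * (K / 10) := fun j hj =>
    Nat.add_le_add_left (Nat.mul_le_mul_right _ hj) _
  have hnorm : ∀ j ≤ 216 * lp, (S (9 * K + j * (K / 10))).e.norm
      = ∏ l ∈ (S (9 * K + j * (K / 10))).D, (l : ℤ) := fun j hj =>
    (hS _ (hle j hj)).1.box.nrm _ (hS _ (hle j hj)).1.mem
  have hb : ∀ j ≤ 216 * lp,
      (2 : ℝ) ^ (990 * κ * (S (9 * K + j * (K / 10))).D.card)
        ≤ ((S (9 * K + j * (K / 10))).e.norm : ℝ) ∧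
      ((S (9 * K + j * (K / 10))).e.norm : ℝ)
        ≤ (2 : ℝ) ^ (1001 * κ * (S (9 * K + j * (K / 10))).D.card) := by
    intro j hj
    rw [hnorm j hj]
    exact prod_bounds_EGTower _ _ _ fun l hl => (hPP l ((hS _ (hle j hj)).1.sub hl)).2
  obtain ⟨lam, hlam0, hlam⟩ : ∃ lam : ℕ → ℝ, (∀ j, 0 ≤ lam j) ∧
      ∀ j, ((S (9 * K + j * (K / 10))).e.norm : ℝ) = lam j ^ 100 := by
    have hn : ∀ j, (0 : ℝ) ≤ ((S (9 * K + j * (K / 10))).e.norm : ℝ) := fun j => by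
      exact_mod_cast Zsqrtd.norm_nonneg (by omega) _
    refine ⟨fun j => ((S (9 * K + j * (K / 10))).e.norm : ℝ) ^ ((100 : ℕ) : ℝ)⁻¹,
      fun j => Real.rpow_nonneg (hn j) _, fun j => ?_⟩
    exact (Real.rpow_inv_natCast_pow (hn j) (by norm_num)).symm
  have hlow : ∀ j ≤ 216 * lp, ∀ n : ℕ, n ≤ (S (9 * K + j * (K / 10))).D.card →
      (2 : ℝ) ^ n ≤ lam j := by
    intro j hj n hn
    refine le_of_pow_le_pow_left₀ (n := 100) (by norm_num) (hlam0 j) ?_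
    rw [← hlam j, ← pow_mul]
    refine le_trans (pow_le_pow_right₀ (by norm_num) ?_) (hb j hj).1
    calc n * 100 ≤ (S (9 * K + j * (K / 10))).D.card * (990 * κ) :=
          Nat.mul_le_mul hn (by omega)
      _ = _ := mul_comm _ _
  have hp' : (10 : ℝ) ^ 20 ≤ p := by exact_mod_cast hp
  refine ⟨lam, fun j => (S (9 * K + j * (K / 10))).e, fun j => (S (9 * K + j * (K / 10))).U (9 * K),
    (S (9 * K + 216 * lp * (K / 10))).D, (hS _ le_rfl).1.sub, (hS _ le_rfl).2.2.1,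
    hnorm _ le_rfl, fun j hj => ⟨hlam j, hlow j hj _ (hS _ (hle j hj)).2.1, ?_, ?_,
      (hS _ (hle j hj)).1.sum _⟩, fun j hj => ?_, ?_, ?_⟩
  · obtain ⟨n, hn⟩ := Nat.exists_eq_add_of_le (hle j hj)
    have h1 := (hit _ n hn.symm.le).1
    rw [← hn] at h1
    exact h1
  · have h1 := (hS _ (hle j hj)).1.crd (9 * K) (Nat.le_add_right _ _)
    have h2 := q_small_EGTower K (by omega)
    have h3 := (hb j hj).2
    have h4 : 100000 ≤ (S (9 * K + j * (K / 10))).D.card := by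
      refine le_trans ?_ (hS _ (hle j hj)).2.1
      calc 100000 ≤ p := le_trans (by norm_num) hp
        _ = p ^ 1 := (pow_one p).symm
        _ ≤ p ^ 4 := Nat.pow_le_pow_right hp1 (by norm_num)
    refine le_trans ?_ h1
    rw [hlam j] at h3
    generalize (S (9 * K + j * (K / 10))).D.card = r at *
    have h4' : (100000 : ℝ) ≤ r := by exact_mod_cast h4
    refine le_of_pow_le_pow_left₀ (n := 100) (by norm_num) (by positivity) ?_
    rw [← pow_mul, mul_comm 99 100, pow_mul]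
    refine (pow_le_pow_left₀ (by positivity) h3 99).trans ?_
    rw [← pow_mul, ← Real.rpow_natCast, ← Real.rpow_natCast, ← Real.rpow_mul (by norm_num)]
    apply Real.rpow_le_rpow_of_exponent_le (by norm_num)
    generalize ((K : ℝ) / (K + 1)) ^ (9 * K) = q at *
    have hκ' : (0 : ℝ) < κ := by exact_mod_cast hκ0
    push_cast
    rw [hKR]
    have h5 : (0 : ℝ) ≤ κ * r * (1 / 512 - q) := by
      apply mul_nonneg (by positivity); linarith
    have h6 : (0 : ℝ) ≤ κ * (r - 100000) := by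
      apply mul_nonneg hκ'.le; linarith
    nlinarith
  · have hj1 : 9 * K + (j + 1) * (K / 10) = 9 * K + j * (K / 10) + K / 10 := by ring
    have h1 := (hit (9 * K + j * (K / 10)) (K / 10) (by rw [← hj1]; exact hle _ hj)).2.2
    rw [← hj1] at h1
    have h2 := upsig_EGTower K (by omega)
    have h3 := (hb (j + 1) hj).2
    have h4 := (hb j hj.le).1
    rw [hlam] at h3 h4
    generalize (S (9 * K + (j + 1) * (K / 10))).D.card = r' at *
    generalize (S (9 * K + j * (K / 10))).D.card = r at *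
    have h5 : (r' : ℝ) ≤ 9 / 8 * r := h1.trans (mul_le_mul_of_nonneg_right h2 (by positivity))
    have h6 : 8 * r' ≤ 9 * r := by
      have : (8 : ℝ) * r' ≤ 9 * r := by linarith
      exact_mod_cast this
    refine le_of_pow_le_pow_left₀ (n := 100) (by norm_num) (pow_nonneg (hlam0 j) _) ?_
    rw [← pow_mul, ← pow_mul, mul_comm 121 100, mul_comm 139 100, pow_mul, pow_mul]
    refine (pow_le_pow_left₀ (pow_nonneg (hlam0 _) _) h3 121).trans
      (le_trans ?_ (pow_le_pow_left₀ (by positivity) h4 139))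
    rw [← pow_mul, ← pow_mul]
    apply pow_le_pow_right₀ (by norm_num)
    have h7 : 1001 * 121 * r' ≤ 990 * 139 * r := by omega
    calc 1001 * κ * r' * 121 = κ * (1001 * 121 * r') := by ring
      _ ≤ κ * (990 * 139 * r) := Nat.mul_le_mul_left _ h7
      _ = 990 * κ * r * 139 := by ring
  · have h1 := (hS _ (hle 0 (Nat.zero_le _))).2.2.2
    have h2 := up9_EGTower K (9 * K + 0 * (K / 10)) (by omega) (by omega)
    have h3 := (hb 0 (Nat.zero_le _)).2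
    rw [hlam] at h3
    generalize (S (9 * K + 0 * (K / 10))).D.card = r at *
    have h4 : r ≤ 60000 * p ^ 4 := by
      have : (r : ℝ) ≤ 60000 * (p : ℝ) ^ 4 := by
        refine h1.trans ((mul_le_mul_of_nonneg_left h2 (by positivity)).trans (le_of_eq ?_))
        ring
      exact_mod_cast this
    have h5 : κ * 10 ^ 10 ≤ p := by
      refine le_of_pow_le_pow_left₀ (n := 2) (by norm_num) (Nat.zero_le _) ?_
      calc (κ * 10 ^ 10) ^ 2 = κ ^ 2 * 10 ^ 20 := by ring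
        _ ≤ p * p := Nat.mul_le_mul hκ2 hp
        _ = p ^ 2 := by ring
    refine le_of_pow_le_pow_left₀ (n := 100) (by norm_num) (by positivity) ?_
    rw [← pow_mul, mul_comm 121 100, pow_mul]
    refine (pow_le_pow_left₀ (pow_nonneg (hlam0 _) _) h3 121).trans ?_
    rw [← pow_mul, ← pow_mul]
    apply pow_le_pow_right₀ (by norm_num)
    calc 1001 * κ * r * 121 ≤ 1001 * κ * (60000 * p ^ 4) * 121 :=
          Nat.mul_le_mul_right _ (Nat.mul_le_mul_left _ h4)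
      _ = (κ * (1001 * 600 * 121)) * (p ^ 4 * 100) := by ring
      _ ≤ p * (p ^ 4 * 100) :=
          Nat.mul_le_mul_right _ (le_trans (Nat.mul_le_mul_left κ (by norm_num)) h5)
      _ = p ^ 5 * 100 := by ring
  · apply hlow _ le_rfl
    have h1 := (hit (9 * K) (216 * lp * (K / 10)) le_rfl).2.1
    have h2 := lowall_EGTower K lp hk
    have h3 := (hS (9 * K) (Nat.le_add_right _ _)).2.1
    have h3' : (p : ℝ) ^ 4 ≤ (S (9 * K)).D.card := by exact_mod_cast h3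
    have h4 : (p : ℝ) ≤ 2 ^ lp := by exact_mod_cast hlp.le
    have h5 : (p : ℝ) ^ 28 ≤ (S (9 * K + 216 * lp * (K / 10))).D.card := by
      refine le_trans ?_ h1
      calc (p : ℝ) ^ 28 = (p : ℝ) ^ 24 * (p : ℝ) ^ 4 := by ring
        _ ≤ _ := mul_le_mul ((pow_le_pow_left₀ (by positivity) h4 24).trans h2) h3'
            (by positivity) (by positivity)
    exact_mod_cast h5

end Pool.Agent.P.MP_b75a1e_co.EG
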