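import Pool.Agent.P.MP_b75a1e_co.FLBase

set_option autoImplicit false

open Finset
open scoped BigOperators ComplexConjugate

namespace Pool.Agent.P.MP_b75a1e_co.EG

section

variable {m : ℕ}

theorem cast_norm_FLAdm (g : O m) : ((g.norm.natAbs : ℕ) : ℤ) = g.norm :=
  Int.natAbs_of_nonneg (norm_nonneg' g)

theorem mul_star_FLAdm (g : O m) : g * star g = ((g.norm.natAbs : ℕ) : O m) := by
  rw [← Zsqrtd.norm_eq_mul_conj, ← Int.cast_natCast g.norm.natAbs, cast_norm_FLAdm]

theorem mul_conj_FLAdm (g : O m) : ph m g * conj (ph m g) = ((g.norm.natAbs : ℕ) : ℂ) := by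
  rw [← ph_star, ← map_mul, mul_star_FLAdm, map_natCast]

theorem rep_rot_FLAdm (hm : 1 ≤ m) {N : ℝ} {k : ℕ} {y : ℂ} (h : Rep m N k y) {g : O m}
    (hg : g ≠ 0) : Rep m N k (rot g * y) := by
  obtain ⟨L, rfl, a, rfl⟩ := h
  have h1 : conj (ph m g) ≠ 0 := (map_ne_zero _).2 (ph_ne_zero hm hg)
  have h2 := mul_conj_FLAdm g
  have h3 : g.norm.natAbs ≠ 0 := by
    have := norm_pos' hm hg
    omega
  refine ⟨L.map fun x => rot g * x, Multiset.card_map _ _, fun x hx => ?_, ?_⟩
  · obtain ⟨u, hu, rfl⟩ := Multiset.mem_map.1 hx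
    obtain ⟨⟨x, n, hn, rfl⟩, h4⟩ := a u hu
    refine ⟨⟨g * g * x, g.norm.natAbs * n, mul_ne_zero h3 hn, ?_⟩, ?_⟩
    · have h5 : (n : ℂ) ≠ 0 := Nat.cast_ne_zero.2 hn
      have h6 := ph_ne_zero hm hg
      rw [rot, Nat.cast_mul, ← h2, map_mul, map_mul]
      field_simp
    · rw [norm_mul, norm_rot hm hg, one_mul, h4]
  · rw [Multiset.sum_map_mul_left, Multiset.map_id']

theorem res_FLAdm {e u : O m} {s : ℕ} (h : SumRes e s u) :
    SumOf e.norm s u ∧ mu m ∣ u - (s : O m) * e := by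
  obtain ⟨L, rfl, a, rfl⟩ := h
  refine ⟨⟨L, rfl, fun x hx => (a x hx).1, rfl⟩, mu_dvd_sq.trans ?_⟩
  induction L using Multiset.induction_on with
  | empty => simp
  | cons x L ih =>
    have h1 := (a x (Multiset.mem_cons_self x L)).2
    have h2 := ih fun z hz => a z (Multiset.mem_cons_of_mem hz)
    have h3 : (x ::ₘ L).sum - ((Multiset.card (x ::ₘ L) : ℕ) : O m) * e =
        (x - e) + (L.sum - ((Multiset.card L : ℕ) : O m) * e) := by
      rw [Multiset.sum_cons, Multiset.card_cons]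
      push_cast
      ring
    rw [h3]
    exact dvd_add h1 h2

theorem mu_star_FLAdm {x : O m} (h : (m : ℤ) ∣ x.im) : mu m ∣ x - star x := by
  rw [mu_dvd_iff]
  refine ⟨by simp, ?_⟩
  rw [Zsqrtd.im_sub, Zsqrtd.im_star]
  exact dvd_sub h (dvd_neg.2 h)

theorem ne_FLAdm {Δ : ℕ} {α δ : O m} (h : Good m Δ α δ) : α * δ ≠ 0 := by
  intro h0
  have := h.sq
  rw [h0] at this
  simp at this

theorem point_FLAdm (hm : 1 ≤ m) {Δ s : ℕ} {α δ e u u' W : O m} (h : Good m Δ α δ)
    (hu : SumRes e s u) (hu' : SumRes e s u') (hW : Yb e s δ u u' = star (α * δ) * W) :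
    Rep m e.norm (6 * s) (ph m (α * W)) ∧ mu m ∣ α * W - ((6 * s : ℕ) : O m) * e := by
  have h0 := ne_FLAdm h
  have hα : α ≠ 0 := left_ne_zero_of_mul h0
  have hδ : δ ≠ 0 := right_ne_zero_of_mul h0
  obtain ⟨r1, c1⟩ := res_FLAdm hu
  obtain ⟨r2, c2⟩ := res_FLAdm hu'
  constructor
  · have h1 := (rep_rot_FLAdm hm (r1.add r2).rep h0).add
      (rep_rot_FLAdm hm (SumOf.smul (y := e) rfl (4 * s)).rep hα)
    have h2 : s + s + 4 * s = 6 * s := by ring
    have h3 : rot (α * δ) * ph m (u + u') + rot α * ph m (((4 * s : ℕ) : O m) * e) =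
        ph m (α * W) := by
      have h4 := congrArg (ph m) hW
      have h5 : conj (ph m α) ≠ 0 := (map_ne_zero _).2 (ph_ne_zero hm hα)
      have h6 : conj (ph m δ) ≠ 0 := (map_ne_zero _).2 (ph_ne_zero hm hδ)
      simp only [Yb, map_add, map_mul, ph_star] at h4
      simp only [rot, map_add, map_mul]
      field_simp
      linear_combination ph m α * h4
    rwa [h2, h3] at h1
  · have c3 := mu_star_FLAdm h.ima
    have c4 := mu_star_FLAdm h.imd
    have h1 : star (α * δ) * (α * W - ((6 * s : ℕ) : O m) * e) =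
        α * δ * (u - s * e) + α * δ * (u' - s * e) + 2 * s * e * α * (δ - star δ) +
          6 * s * e * star δ * (α - star α) := by
      have h2 : star (α * δ) * (α * W) = α * Yb e s δ u u' := by rw [hW]; ring
      rw [mul_sub, h2, Yb, star_mul]
      push_cast
      ring
    have h3 : mu m ∣ star (α * δ) * (α * W - ((6 * s : ℕ) : O m) * e) := by
      rw [h1]
      exact dvd_add (dvd_add (dvd_add (c1.mul_left _) (c2.mul_left _)) (c4.mul_left _))
        (c3.mul_left _)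
    have h4 := h3.mul_left (α * δ)
    rw [← mul_assoc, mul_star_FLAdm] at h4
    have h5 : Nat.Coprime (m ^ 2) (α * δ).norm.natAbs :=
      Nat.Coprime.pow_left 2 (Nat.Coprime.coprime_mul_left_right h.cop).symm
    have h6 : IsCoprime ((m : O m) ^ 2) (((α * δ).norm.natAbs : ℕ) : O m) := by
      have := Nat.Coprime.cast (R := O m) h5
      rwa [Nat.cast_pow] at this
    exact (h6.of_isCoprime_of_dvd_left mu_dvd_sq).dvd_of_dvd_mul_left h4

theorem range_FLAdm (q : ℕ) (hq : 1 ≤ q) (x : ℤ) :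
    ∑ c ∈ range q, ee ((((c : ℤ) * x : ℤ) : ℝ) / q) = if (q : ℤ) ∣ x then (q : ℂ) else 0 := by
  rw [← sum_ee_range q hq x]
  refine sum_nbij' (fun c => (c : ℤ)) Int.toNat (fun c hc => ?_) (fun z hz => ?_) (fun c _ => ?_)
    (fun z hz => ?_) fun c _ => rfl
  · have := mem_range.1 hc
    exact mem_Ico.2 ⟨by omega, by omega⟩
  · have := mem_Ico.1 hz
    exact mem_range.2 (by omega)
  · simp
  · have := mem_Ico.1 hz
    omega

open Classical in
/-- The rotated point. -/
noncomputable def Xo_FLAdm (α ε Y : O m) : O m := if h : star ε ∣ Y then α * h.choose else 0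

open Classical in
theorem sum_FLAdm (hm : 1 ≤ m) {Δ : ℕ} {α δ : O m} (h : Good m Δ α δ) (Y : O m) (b : ℂ) :
    ∑ c ∈ range (α * δ).norm.natAbs,
        ee (pr m ((b * ph m α + c) / conj (ph m (α * δ))) (ph m Y)) =
      if star (α * δ) ∣ Y then
        ((α * δ).norm.natAbs : ℂ) * ee (pr m b (ph m (Xo_FLAdm α (α * δ) Y))) else 0 := by
  have h0 := ne_FLAdm h
  have hsq := h.sq
  generalize α * δ = ε at h0 hsq ⊢
  have h1 : conj (ph m ε) ≠ 0 := (map_ne_zero _).2 (ph_ne_zero hm h0)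
  have h2 := mul_conj_FLAdm ε
  have h3 : 1 ≤ ε.norm.natAbs := by
    have := norm_pos' hm h0
    omega
  have h4 : ∀ c : ℕ, pr m ((b * ph m α + c) / conj (ph m ε)) (ph m Y) =
      pr m (b * ph m α / conj (ph m ε)) (ph m Y) +
        (((c : ℤ) * (Y * ε).im : ℤ) : ℝ) / (ε.norm.natAbs : ℕ) := by
    intro c
    have h5 : (c : ℂ) / conj (ph m ε) = ph m ((c : O m) * ε) / ((ε.norm.natAbs : ℝ) : ℂ) := by
      have h6 := ph_ne_zero hm h0
      rw [Complex.ofReal_natCast, ← h2, map_mul, map_natCast]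
      field_simp
    have h7 : ((c : O m) * ε * Y).im = (c : ℤ) * (Y * ε).im := by
      rw [mul_assoc, mul_comm ε, Zsqrtd.im_mul]
      simp
    rw [add_div, pr_add_left, h5, pr_ph_div hm, h7]
  simp only [h4, ee_add]
  rw [← mul_sum, range_FLAdm _ h3, cast_norm_FLAdm]
  by_cases hd : star ε ∣ Y
  · rw [if_pos hd, if_pos ((star_dvd_iff hm hsq Y).1 hd), mul_comm, Xo_FLAdm, dif_pos hd]
    have h5 := congrArg (ph m) hd.choose_spec
    rw [map_mul, ph_star] at h5
    have h6 : b * ph m α / conj (ph m ε) * ph m Y = b * ph m (α * hd.choose) := by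
      rw [map_mul]
      generalize ph m hd.choose = w at h5 ⊢
      rw [h5]
      field_simp
    rw [pr, pr, h6]
  · rw [if_neg hd, if_neg fun h' => hd ((star_dvd_iff hm hsq Y).2 h'), mul_zero]

end

/-- A block is the characteristic function of a random rotated pile. -/
theorem block_adm {m : ℕ} {ι : Type} (hm : 1 ≤ m) (I : Finset ι) (α δ : ι → O m) (e : O m) (s Δ : ℕ)
    (U : Finset (O m)) (hG : ∀ i ∈ I, Good m Δ (α i) (δ i)) (hU : ∀ u ∈ U, SumRes e s u)
    (h0 : Tb I α δ e s U 0 ≠ 0) :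
    Adm e (6 * s) fun b => Tb I α δ e s U b / Tb I α δ e s U 0 := by
  classical
  let S : Finset (Σ _ : ι, (O m × O m) × ℕ) := I.sigma fun i =>
    ((U ×ˢ U).filter fun q => star (α i * δ i) ∣ Yb e s (δ i) q.1 q.2) ×ˢ
      range (α i * δ i).norm.natAbs
  let X : (Σ _ : ι, (O m × O m) × ℕ) → O m := fun q =>
    Xo_FLAdm (α q.1) (α q.1 * δ q.1) (Yb e s (δ q.1) q.2.1.1 q.2.1.2)
  have hs : ∀ b, ∑ q ∈ S, ee (pr m b (ph m (X q))) = Tb I α δ e s U b := by
    intro b
    rw [sum_sigma, Tb]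
    refine sum_congr rfl fun i hi => ?_
    rw [sum_product, sum_filter, sum_product]
    simp only [trm]
    rw [sum_comm (s := range _)]
    refine sum_congr rfl fun u _ => ?_
    rw [sum_comm (s := range _)]
    refine sum_congr rfl fun u' _ => ?_
    rw [sum_FLAdm hm (hG i hi)]
    simp only [X, sum_const, card_range, nsmul_eq_mul]
  have hc : (S.card : ℂ) = Tb I α δ e s U 0 := by
    rw [← hs 0]
    simp [pr, ee_zero]
  have hne : S.Nonempty := by
    rw [← card_pos, Nat.pos_iff_ne_zero]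
    intro h1
    rw [h1, Nat.cast_zero] at hc
    exact h0 hc.symm
  refine ⟨S, inferInstance, hne.to_subtype, fun ω => X ω.1, fun ω => ?_, fun b => ?_⟩
  · obtain ⟨h1, h2⟩ := mem_sigma.1 ω.2
    obtain ⟨h3, h4⟩ := mem_filter.1 (mem_product.1 h2).1
    obtain ⟨h5, h6⟩ := mem_product.1 h3
    simp only [X, Xo_FLAdm, dif_pos h4]
    exact point_FLAdm hm (hG _ h1) (hU _ h5) (hU _ h6) h4.choose_spec
  · rw [ch, Fintype.expect_eq_sum_div_card, Fintype.card_coe, hc,
      sum_coe_sort S fun q => ee (pr m b (ph m (X q))), hs]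

end Pool.Agent.P.MP_b75a1e_co.EG
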