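import Pool.Agent.P.MP_b75a1e_co.FLQuad
import Pool.Agent.P.MP_b75a1e_co.EGBilin

set_option autoImplicit false

open Finset
open scoped BigOperators ComplexConjugate

namespace Pool.Agent.P.MP_b75a1e_co.EG

variable {m s y J : ℕ} {k ν : ℝ} {F U : Finset (O m)} {e : O m}

theorem exp_sub_FLArith {M : Type} [AddCommMonoid M] [Module ℚ≥0 M] (F : Finset (O m))
    (f : O m → M) : 𝔼 δ ∈ F, f δ = 𝔼 δ : F, f δ := by
  rw [Finset.expect, Finset.expect, Finset.card_univ, Fintype.card_coe, Finset.sum_coe_sort]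

theorem norm_exp_le_FLArith {ι : Type} (T : Finset ι) (f : ι → ℂ) (c : ℝ) (hc : 0 ≤ c)
    (h : ∀ i ∈ T, ‖f i‖ ≤ c) : ‖𝔼 i ∈ T, f i‖ ≤ c := by
  refine (RCLike.norm_expect_le (K := ℂ)).trans ?_
  rcases T.eq_empty_or_nonempty with rfl | hT
  · simpa using hc
  · exact Finset.expect_le hT h

theorem sq_exp_le_FLArith {Ω : Type} [Fintype Ω] (f : Ω → ℂ) :
    ‖𝔼 i, f i‖ ^ 2 ≤ 𝔼 i, ‖f i‖ ^ 2 := by
  have h1 : ‖𝔼 i, f i‖ ≤ 𝔼 i, ‖f i‖ := RCLike.norm_expect_le (K := ℂ)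
  have h2 := Finset.expect_mul_sq_le_sq_mul_sq (univ : Finset Ω) (fun i => ‖f i‖) (fun _ => (1 : ℝ))
  have h3 : 𝔼 _i : Ω, (1 : ℝ) ^ 2 ≤ 1 := by
    rcases isEmpty_or_nonempty Ω with hΩ | hΩ
    · simp
    · simp
  have h4 : 0 ≤ 𝔼 i, ‖f i‖ ^ 2 := Finset.expect_nonneg fun i _ => by positivity
  simp only [mul_one] at h2
  calc ‖𝔼 i, f i‖ ^ 2 ≤ (𝔼 i, ‖f i‖) ^ 2 := pow_le_pow_left₀ (norm_nonneg _) h1 2
    _ ≤ (𝔼 i, ‖f i‖ ^ 2) * 𝔼 _i : Ω, (1 : ℝ) ^ 2 := h2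
    _ ≤ (𝔼 i, ‖f i‖ ^ 2) * 1 := mul_le_mul_of_nonneg_left h3 h4
    _ = _ := mul_one _

open Classical in
theorem coll_FLArith (hS : Sml m k) (h : Fam m y J k F) (D D' : ℕ) (hD1 : 1 ≤ D) (hD : D ≤ y)
    (hd : D' ∣ D) (γ : O m) (hγ : ∀ f : ℕ, f ∣ D' → (f : O m) ∣ γ → (f : ℝ) ≤ 1) :
    (𝔼 q : F × F, if (D' : O m) ∣ γ * (tb D (q.1 : O m) - tb D (q.2 : O m)) then (1 : ℝ) else 0) ≤
      10 * k ^ 4 * (D' : ℝ) ^ (-999 / 1000 : ℝ) := by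
  have hne := h.ne hS.m1
  have hpos : (0 : ℝ) < F.card := by exact_mod_cast hne.card_pos
  have : Nonempty F := hne.to_subtype
  rw [← Finset.univ_product_univ, Finset.expect_product, Finset.expect_comm]
  refine Finset.expect_le Finset.univ_nonempty fun δ2 _ => ?_
  have h1 := tb_lin hS h D D' hD1 hD hd γ (-(γ * tb D (δ2 : O m))) 1 fun f a b _ => hγ f a b
  rw [← exp_sub_FLArith F fun δ =>
    if (D' : O m) ∣ γ * (tb D δ - tb D (δ2 : O m)) then (1 : ℝ) else 0]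
  rw [Finset.expect_eq_sum_div_card, div_le_iff₀ hpos, Finset.sum_boole]
  have e1 : ∀ δ : O m, γ * (tb D δ - tb D (δ2 : O m)) = γ * tb D δ + -(γ * tb D (δ2 : O m)) := by
    intro δ; ring
  simp only [e1]
  simpa only [mul_one] using h1

theorem num_FLArith {k d : ℝ} (hk : 10 ^ 10 ≤ k) (hd : k ^ 1000 ≤ d) :
    d ^ 2 * (2000 * k ^ 9 * d ^ (-111 / 100 : ℝ)) * (10 * k ^ 4 * d ^ (-999 / 1000 : ℝ)) ≤
      d ^ (-1 / 16 : ℝ) := by
  have hk1 : (1 : ℝ) ≤ k := le_trans (by norm_num) hk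
  have hk0 : (0 : ℝ) < k := by linarith
  have hd1 : (1 : ℝ) ≤ d := le_trans (one_le_pow₀ hk1) hd
  have hd0 : (0 : ℝ) < d := by linarith
  have h1 : k ^ 14 ≤ d ^ (14 / 1000 : ℝ) := by
    have := Real.rpow_le_rpow (by positivity) hd (show (0 : ℝ) ≤ 14 / 1000 by norm_num)
    rw [← Real.rpow_natCast k 1000, ← Real.rpow_mul hk0.le] at this
    have e : ((1000 : ℕ) : ℝ) * (14 / 1000) = ((14 : ℕ) : ℝ) := by norm_num
    rwa [e, Real.rpow_natCast] at this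
  have h2 : 20000 * k ^ 13 ≤ k ^ 14 := by
    have : k ^ 14 = k * k ^ 13 := by ring
    rw [this]
    exact mul_le_mul_of_nonneg_right (le_trans (by norm_num) hk) (by positivity)
  have e2 : d ^ 2 = d ^ (2 : ℝ) := by
    rw [← Real.rpow_natCast]; norm_num
  have e3 : d ^ (2 : ℝ) * d ^ (-111 / 100 : ℝ) * d ^ (-999 / 1000 : ℝ) = d ^ (-109 / 1000 : ℝ) := by
    rw [← Real.rpow_add hd0, ← Real.rpow_add hd0]; norm_num
  calc d ^ 2 * (2000 * k ^ 9 * d ^ (-111 / 100 : ℝ)) * (10 * k ^ 4 * d ^ (-999 / 1000 : ℝ))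
      = 20000 * k ^ 13 * (d ^ (2 : ℝ) * d ^ (-111 / 100 : ℝ) * d ^ (-999 / 1000 : ℝ)) := by
        rw [e2]; ring
    _ = 20000 * k ^ 13 * d ^ (-109 / 1000 : ℝ) := by rw [e3]
    _ ≤ d ^ (14 / 1000 : ℝ) * d ^ (-109 / 1000 : ℝ) :=
        mul_le_mul_of_nonneg_right (h2.trans h1) (by positivity)
    _ = d ^ (-95 / 1000 : ℝ) := by rw [← Real.rpow_add hd0]; norm_num
    _ ≤ d ^ (-1 / 16 : ℝ) := Real.rpow_le_rpow_of_exponent_le hd1 (by norm_num)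

theorem prim_FLArith (hS : Sml m k) (h : Fam m y J k F) (D D' : ℕ) (hD1 : 1 ≤ D) (hD : D ≤ y)
    (hd : D' ∣ D) (hk : k ^ 1000 ≤ D') (γ : O m)
    (hγ : ∀ f : ℕ, f ∣ D' → (f : O m) ∣ γ → (f : ℝ) ≤ 1) :
    ‖𝔼 δ1 : F, 𝔼 δ2 : F, ee (((γ * (tb D (δ1 : O m) * tb D (δ2 : O m))).im : ℝ) / D')‖ ^ 4 ≤
      (D' : ℝ) ^ (-1 / 16 : ℝ) := by
  have hm := hS.m1
  have hD' : 1 ≤ D' := Nat.pos_of_dvd_of_pos hd hD1
  have a1 : ∀ δ1 : F, 𝔼 δ2 : F, ee (((γ * (tb D (δ1 : O m) * tb D (δ2 : O m))).im : ℝ) / D') =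
      ch (fun δ2 : F => tb D (δ2 : O m)) (ph m (γ * tb D (δ1 : O m)) / ((D' : ℝ) : ℂ)) := by
    intro δ1
    unfold ch
    refine Finset.expect_congr rfl fun δ2 _ => ?_
    rw [pr_ph_div hm, mul_assoc]
  simp only [a1]
  set c : F → ℂ := fun δ1 =>
    ch (fun δ2 : F => tb D (δ2 : O m)) (ph m (γ * tb D (δ1 : O m)) / ((D' : ℝ) : ℂ)) with hc
  have a2 : (((𝔼 δ1 : F, ‖c δ1‖ ^ 2 : ℝ)) : ℂ) =
      ch (fun q : (F × F) × F => tb D (q.2 : O m) * (tb D (q.1.1 : O m) - tb D (q.1.2 : O m)))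
        (ph m γ / D') := by
    rw [Complex.ofReal_expect]
    unfold ch
    rw [← Finset.univ_product_univ (α := F × F), Finset.expect_product, Finset.expect_comm]
    refine Finset.expect_congr rfl fun δ1 _ => ?_
    rw [hc, norm_ch_sq]
    refine Finset.expect_congr rfl fun q _ => ?_
    have b1 := pr_ph_div hm γ (tb D (δ1 : O m) * (tb D (q.1 : O m) - tb D (q.2 : O m))) (D' : ℝ)
    rw [Complex.ofReal_natCast] at b1
    rw [pr_ph_div hm, b1, mul_assoc]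
  have a3 := bilin m D' hm hD' γ (fun δ : F => tb D (δ : O m))
    (fun q : F × F => tb D (q.1 : O m) - tb D (q.2 : O m))
  have a4 := energy hS h D D' hD1 hD hd hk
  have a5 := coll_FLArith hS h D D' hD1 hD hd γ hγ
  have a6 := sq_exp_le_FLArith c
  have a7 : 0 ≤ 𝔼 δ1 : F, ‖c δ1‖ ^ 2 := Finset.expect_nonneg fun i _ => by positivity
  have hk0 : (0 : ℝ) ≤ k := le_trans (by norm_num) hS.k1
  rw [← a2, Complex.norm_real, Real.norm_of_nonneg a7] at a3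
  calc ‖𝔼 δ1, c δ1‖ ^ 4 = (‖𝔼 δ1, c δ1‖ ^ 2) ^ 2 := by ring
    _ ≤ (𝔼 δ1 : F, ‖c δ1‖ ^ 2) ^ 2 := pow_le_pow_left₀ (by positivity) a6 2
    _ ≤ _ := a3
    _ ≤ (D' : ℝ) ^ 2 * (2000 * k ^ 9 * (D' : ℝ) ^ (-111 / 100 : ℝ)) *
        (10 * k ^ 4 * (D' : ℝ) ^ (-999 / 1000 : ℝ)) := by
        refine mul_le_mul (mul_le_mul_of_nonneg_left a4 (by positivity)) a5 ?_ (by positivity)
        exact Finset.expect_nonneg fun i _ => by split_ifs <;> norm_num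
    _ ≤ _ := num_FLArith hS.k1 hk

theorem Sm_arith (hS : Sml m k) (h : Fam m y J k F) (D : ℕ) (hD1 : 1 ≤ D) (hD : D ≤ y) (γ : O m)
    (R : ℝ) (hR : k ^ 1000 ≤ R) (hγ : ∀ g : ℕ, g ∣ D → (g : O m) ∣ γ → g * R ≤ D) :
    ‖Sm F D γ 0‖ ≤ R ^ (-1 / 64 : ℝ) := by
  obtain ⟨g, hg⟩ : ∃ g : ℕ, g = Nat.gcd D (Int.gcd γ.re γ.im) := ⟨_, rfl⟩
  have g1 : g ∣ D := hg ▸ Nat.gcd_dvd_left _ _
  have g2 : g ∣ Int.gcd γ.re γ.im := hg ▸ Nat.gcd_dvd_right _ _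
  have g3 : (g : O m) ∣ γ := by
    rw [nat_dvd_iff]
    have := Int.natCast_dvd_natCast.mpr g2
    exact ⟨this.trans (Int.gcd_dvd_left _ _), this.trans (Int.gcd_dvd_right _ _)⟩
  have g0 : 0 < g := Nat.pos_of_dvd_of_pos g1 hD1
  have g0' : (0 : ℝ) < g := by exact_mod_cast g0
  have hgR := hγ g g1 g3
  obtain ⟨D', hD'⟩ := g1
  obtain ⟨γ', hγ'⟩ := g3
  have hRD : R ≤ D' := by
    rw [hD'] at hgR
    push_cast at hgR
    exact le_of_mul_le_mul_left hgR g0'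
  have hd : D' ∣ D := ⟨g, by rw [hD', mul_comm]⟩
  have hp : ∀ f : ℕ, f ∣ D' → (f : O m) ∣ γ' → (f : ℝ) ≤ 1 := by
    intro f f1 f2
    have b1 : g * f ∣ D := hD' ▸ Nat.mul_dvd_mul_left g f1
    have b2 : ((g * f : ℕ) : O m) ∣ γ := by
      rw [hγ']; push_cast; exact mul_dvd_mul_left _ f2
    rw [nat_dvd_iff] at b2
    have b3 : g * f ∣ Int.gcd γ.re γ.im := Int.dvd_gcd b2.1 b2.2
    have b4 : g * f ∣ g := by
      have := Nat.dvd_gcd b1 b3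
      rwa [← hg] at this
    have b5 : g * f ≤ g * 1 := by simpa using Nat.le_of_dvd g0 b4
    exact_mod_cast Nat.le_of_mul_le_mul_left b5 g0
  have hk1 : (1 : ℝ) ≤ k := le_trans (by norm_num) hS.k1
  have hR0 : (0 : ℝ) < R := lt_of_lt_of_le (by positivity) hR
  have a1 := prim_FLArith hS h D D' hD1 hD hd (hR.trans hRD) γ' hp
  have a2 : Sm F D γ 0 =
      𝔼 δ1 : F, 𝔼 δ2 : F, ee (((γ' * (tb D (δ1 : O m) * tb D (δ2 : O m))).im : ℝ) / D') := by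
    unfold Sm
    rw [exp_sub_FLArith]
    refine Finset.expect_congr rfl fun δ1 _ => ?_
    rw [exp_sub_FLArith]
    refine Finset.expect_congr rfl fun δ2 _ => ?_
    have b1 : ∀ x : O m, ((γ * x).im : ℝ) / D = ((γ' * x).im : ℝ) / D' := by
      intro x
      have : (γ * x).im = g * (γ' * x).im := by
        rw [hγ', mul_assoc]; simp
      rw [this]
      have b2 : (D : ℝ) = g * D' := by exact_mod_cast hD'
      rw [b2]
      push_cast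
      exact mul_div_mul_left _ _ g0'.ne'
    rw [b1]
    simp [pr]
  rw [a2]
  have a3 : (D' : ℝ) ^ (-1 / 16 : ℝ) ≤ R ^ (-1 / 16 : ℝ) :=
    Real.rpow_le_rpow_of_nonpos hR0 hRD (by norm_num)
  have a4 : R ^ (-1 / 16 : ℝ) = (R ^ (-1 / 64 : ℝ)) ^ 4 := by
    rw [← Real.rpow_natCast, ← Real.rpow_mul hR0.le]; norm_num
  exact le_of_pow_le_pow_left₀ (by norm_num) (by positivity) (a1.trans (a3.trans a4.le))

theorem norm_Sm_le (F : Finset (O m)) (D : ℕ) (γ : O m) (ζ : ℂ) : ‖Sm F D γ ζ‖ ≤ 1 := by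
  unfold Sm
  exact norm_exp_le_FLArith _ _ 1 zero_le_one fun δ1 _ =>
    norm_exp_le_FLArith _ _ 1 zero_le_one fun δ2 _ => (norm_ee _).le

theorem Sm_narrow (hm : 1 ≤ m) (h : Fam m y J k F) (D : ℕ) (γ : O m) (ζ : ℂ) :
    ‖Sm F D γ ζ‖ ≤ ‖Sm F D γ 0‖ + 60 * (m : ℝ) ^ 2 * J / y * ‖ζ‖ := by
  have key : ‖Sm F D γ ζ - Sm F D γ 0 * ee (pr m ζ 1)‖ ≤ 60 * (m : ℝ) ^ 2 * J / y * ‖ζ‖ := by
    unfold Sm
    rw [Finset.expect_mul, ← Finset.expect_sub_distrib]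
    refine norm_exp_le_FLArith _ _ _ (by positivity) fun δ1 h1 => ?_
    rw [Finset.expect_mul, ← Finset.expect_sub_distrib]
    refine norm_exp_le_FLArith _ _ _ (by positivity) fun δ2 h2 => ?_
    rw [← ee_add]
    refine (norm_ee_sub _ _).trans ?_
    have b0 : pr m 0 (rot δ1 * rot δ2) = 0 := by simp [pr]
    rw [b0, add_zero, add_sub_add_left_eq_sub, ← pr_sub_right]
    have b1 := abs_pr_le hm ζ (rot δ1 * rot δ2 - 1)
    have b2 : ‖rot δ1 * rot δ2 - 1‖ ≤ 4 * (m : ℝ) ^ 2 * J / y := by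
      have c1 := h.rot_one hm h1
      have c2 := h.rot_one hm h2
      have c3 := norm_rot hm (h.ne_zero h2)
      have c4 : rot δ1 * rot δ2 - 1 = (rot δ1 - 1) * rot δ2 + (rot δ2 - 1) := by ring
      have c5 := norm_add_le ((rot δ1 - 1) * rot δ2) (rot δ2 - 1)
      rw [norm_mul, c3, mul_one] at c5
      rw [c4]
      calc _ ≤ _ := c5
        _ ≤ 2 * (m : ℝ) ^ 2 * J / y + 2 * (m : ℝ) ^ 2 * J / y := add_le_add c1 c2
        _ = _ := by ring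
    have b3 : (0 : ℝ) ≤ (m : ℝ) ^ 2 * J / y * ‖ζ‖ := by positivity
    calc 7 * |pr m ζ (rot δ1 * rot δ2 - 1)| ≤ 7 * (‖ζ‖ * (4 * (m : ℝ) ^ 2 * J / y)) :=
          mul_le_mul_of_nonneg_left
            (b1.trans (mul_le_mul_of_nonneg_left b2 (norm_nonneg _))) (by norm_num)
      _ = 28 * ((m : ℝ) ^ 2 * J / y * ‖ζ‖) := by ring
      _ ≤ 60 * ((m : ℝ) ^ 2 * J / y * ‖ζ‖) := mul_le_mul_of_nonneg_right (by norm_num) b3
      _ = _ := by ring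
  have h2 := norm_add_le (Sm F D γ 0 * ee (pr m ζ 1)) (Sm F D γ ζ - Sm F D γ 0 * ee (pr m ζ 1))
  rw [add_sub_cancel, norm_mul, norm_ee, mul_one] at h2
  linarith

end Pool.Agent.P.MP_b75a1e_co.EG
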