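import Pool.Agent.P.MP_b75a1e_co.FLBase0

set_option autoImplicit false

open Finset
open scoped BigOperators ComplexConjugate

namespace Pool.Agent.P.MP_b75a1e_co.EG

variable {m : ℕ}

theorem Rep.mul_left {N : ℝ} {k : ℕ} {y : ℂ} (h : Rep m N k y) (g : O m) :
    Rep m (g.norm * N) k (ph m g * y) := by
  obtain ⟨L, rfl, a, rfl⟩ := h
  refine ⟨L.map fun x => ph m g * x, Multiset.card_map _ _, fun x hx => ?_, ?_⟩
  · obtain ⟨u, hu, rfl⟩ := Multiset.mem_map.1 hx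
    obtain ⟨⟨z, n, hn, rfl⟩, h2⟩ := a u hu
    refine ⟨⟨g * z, n, hn, by rw [map_mul, mul_div_assoc]⟩, ?_⟩
    rw [norm_mul, mul_pow, norm_sq_ph, h2]
  · rw [Multiset.sum_map_mul_left, Multiset.map_id']

theorem Rep.conj {N : ℝ} {k : ℕ} {y : ℂ} (h : Rep m N k y) : Rep m N k (conj y) := by
  obtain ⟨L, rfl, a, rfl⟩ := h
  refine ⟨L.map (starRingEnd ℂ), Multiset.card_map _ _, fun x hx => ?_,
    (map_multiset_sum (starRingEnd ℂ) L).symm⟩
  obtain ⟨u, hu, rfl⟩ := Multiset.mem_map.1 hx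
  obtain ⟨⟨z, n, hn, rfl⟩, h2⟩ := a u hu
  refine ⟨⟨star z, n, hn, by rw [ph_star, map_div₀, map_natCast]⟩, ?_⟩
  rw [Complex.norm_conj, h2]

theorem Rep.norm_le {N : ℝ} {k : ℕ} {y : ℂ} (h : Rep m N k y) : ‖y‖ ≤ k * Real.sqrt N := by
  obtain ⟨L, rfl, a, rfl⟩ := h
  induction L using Multiset.induction_on with
  | empty => simp
  | cons x L ih =>
    have h1 := (a x (Multiset.mem_cons_self _ _)).2
    have h2 := ih fun z hz => a z (Multiset.mem_cons_of_mem hz)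
    have h3 : ‖x‖ = Real.sqrt N := by rw [← h1, Real.sqrt_sq (norm_nonneg _)]
    rw [Multiset.sum_cons, Multiset.card_cons]
    refine (norm_add_le _ _).trans ?_
    push_cast
    linarith

theorem Adm.mul {e : O m} {n n' : ℕ} {φ φ' : ℂ → ℂ} (h : Adm e n φ) (h' : Adm e n' φ') :
    Adm e (n + n') fun b => φ b * φ' b := by
  obtain ⟨Ω, i1, i2, X, hX, hc⟩ := h
  obtain ⟨Ω', i1', i2', X', hX', hc'⟩ := h'
  refine ⟨Ω × Ω', inferInstance, inferInstance, fun q => X q.1 + X' q.2, fun q => ⟨?_, ?_⟩,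
    fun b => ?_⟩
  · rw [map_add]
    exact (hX q.1).1.add (hX' q.2).1
  · have e1 : X q.1 + X' q.2 - ((n + n' : ℕ) : O m) * e =
        (X q.1 - (n : O m) * e) + (X' q.2 - (n' : O m) * e) := by
      push_cast
      ring
    rw [e1]
    exact dvd_add (hX q.1).2 (hX' q.2).2
  · rw [ch_prod, hc, hc']

theorem Adm.pow {e : O m} {n : ℕ} {φ : ℂ → ℂ} (h : Adm e n φ) (N : ℕ) :
    Adm e (N * n) fun b => φ b ^ N := by
  induction N with
  | zero =>
    refine ⟨Unit, inferInstance, inferInstance, fun _ => 0, fun _ => ⟨?_, by simp⟩, fun b => ?_⟩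
    · exact ⟨0, by simp, by simp, by simp⟩
    · simp [ch, pr, ee_zero]
  | succ N ih =>
    have := ih.mul h
    simpa only [Nat.succ_mul, pow_succ] using this

theorem Adm.norm_le {e : O m} {n : ℕ} {φ : ℂ → ℂ} (h : Adm e n φ) (b : ℂ) : ‖φ b‖ ≤ 1 := by
  obtain ⟨Ω, i1, i2, X, -, hc⟩ := h
  rw [← hc]
  exact norm_ch_le X b

theorem ee_im_congr {D : ℕ} (hD : 1 ≤ D) {x x' : O m} (h : (D : O m) ∣ x - x') (t : ℝ) :
    ee ((x.im : ℝ) / D + t) = ee ((x'.im : ℝ) / D + t) := by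
  obtain ⟨c, hc⟩ := ((nat_dvd_iff D _).1 h).2
  have hD0 : (D : ℝ) ≠ 0 := by positivity
  have h1 : (x.im : ℝ) = x'.im + D * c := by
    rw [Zsqrtd.im_sub] at hc
    have : x.im = x'.im + D * c := by linarith
    exact_mod_cast this
  have h2 : (x.im : ℝ) / D + t = ((x'.im : ℝ) / D + t) + (c : ℝ) := by
    rw [h1]
    field_simp
    ring
  rw [h2, ee_add _ (c : ℝ), ee_int, mul_one]

theorem norm_rot (hm : 1 ≤ m) {δ : O m} (hδ : δ ≠ 0) : ‖rot δ‖ = 1 := by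
  have h0 := norm_ne_zero_iff.2 (ph_ne_zero hm hδ)
  rw [rot, norm_div, Complex.norm_conj, div_self h0]

theorem norm_rot_sub (hm : 1 ≤ m) {δ δ' : O m} (hδ : δ ≠ 0) (hδ' : δ' ≠ 0) :
    ‖rot δ - rot δ'‖ * (‖ph m δ‖ * ‖ph m δ'‖) = 2 * |(ph m δ * conj (ph m δ')).im| := by
  have h0 : conj (ph m δ) ≠ 0 := (map_ne_zero _).2 (ph_ne_zero hm hδ)
  have h0' : conj (ph m δ') ≠ 0 := (map_ne_zero _).2 (ph_ne_zero hm hδ')
  have e1 : (rot δ - rot δ') * (conj (ph m δ) * conj (ph m δ')) =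
      ((2 * (ph m δ * conj (ph m δ')).im : ℝ) : ℂ) * Complex.I := by
    rw [← Complex.sub_conj, map_mul, Complex.conj_conj, rot, rot]
    field_simp
  have e2 := congrArg norm e1
  rw [norm_mul, norm_mul, Complex.norm_conj, Complex.norm_conj, norm_mul, Complex.norm_I, mul_one,
    Complex.norm_real, Real.norm_eq_abs, abs_mul, abs_two] at e2
  exact e2

theorem Pile.norm_le {e : O m} {s : ℕ} {ν : ℝ} {U : Finset (O m)} (h : Pile e s ν U) (hν : 0 ≤ ν)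
    {u : O m} (hu : u ∈ U) : ‖ph m u‖ ≤ s * ν ^ 1000 := by
  have := (h.sum u hu).norm_le (lam := ν ^ 20) (pow_nonneg hν _) (by rw [h.nrm, ← pow_mul])
  rwa [← pow_mul] at this

theorem Pile.norm_e {e : O m} {s : ℕ} {ν : ℝ} {U : Finset (O m)} (h : Pile e s ν U) (hν : 0 ≤ ν) :
    ‖ph m e‖ = ν ^ 1000 := by
  have h1 := norm_sq_ph e
  rw [h.nrm, show ν ^ 2000 = (ν ^ 1000) ^ 2 by rw [← pow_mul]] at h1
  exact (pow_left_inj₀ (norm_nonneg _) (pow_nonneg hν _) two_ne_zero).1 h1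

variable {y J : ℕ} {k : ℝ} {F : Finset (O m)}

theorem Fam.rot_one (h : Fam m y J k F) (hm : 1 ≤ m) {δ : O m} (hδ : δ ∈ F) :
    ‖rot δ - 1‖ ≤ 2 * (m : ℝ) ^ 2 * J / y := by
  have h1 := norm_rot_sub hm (h.ne_zero hδ) (one_ne_zero : (1 : O m) ≠ 0)
  have r1 : rot (1 : O m) = 1 := by simp [rot]
  rw [r1, map_one, map_one, mul_one, norm_one, mul_one, ph_im, abs_mul,
    abs_of_nonneg (Real.sqrt_nonneg _)] at h1
  have h2 := (h.abs hδ).1
  have h3 : |(δ.im : ℝ)| ≤ m * J := by exact_mod_cast (h.box δ hδ).2.2.2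
  have hm1 : (1 : ℝ) ≤ m := by exact_mod_cast hm
  have h4 : Real.sqrt m ≤ m := by
    rw [Real.sqrt_le_left (by linarith)]
    nlinarith
  have hy : (0 : ℝ) < y := by
    have h5 := h.thin
    have h6 := h.pos
    have : 0 < 10 * m ^ 2 * J := by positivity
    exact_mod_cast this.trans_le h5
  rw [le_div_iff₀ hy]
  have h7 : ‖rot δ - 1‖ * y ≤ ‖rot δ - 1‖ * ‖ph m δ‖ :=
    mul_le_mul_of_nonneg_left h2.le (norm_nonneg _)
  have h8 : |(δ.im : ℝ)| * Real.sqrt m ≤ (m * J) * m :=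
    mul_le_mul h3 h4 (Real.sqrt_nonneg _) (by positivity)
  nlinarith

end Pool.Agent.P.MP_b75a1e_co.EG
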