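import Pool.Agent.P.MP_b75a1e_co.FLDefs
import Pool.Agent.P.MP_b75a1e_co.EGFam

set_option autoImplicit false

open Finset
open scoped BigOperators ComplexConjugate

namespace Pool.Agent.P.MP_b75a1e_co.EG

variable {m : ℕ}

theorem copr_FLBase0 {a b : ℤ} (h : ∀ p : ℕ, p.Prime → (p : ℤ) ∣ a → (p : ℤ) ∣ b → False) :
    IsCoprime a b := by
  rw [Int.isCoprime_iff_gcd_eq_one]
  by_contra hne
  obtain ⟨p, hp, hd⟩ := Nat.exists_prime_and_dvd hne
  have hd' : (p : ℤ) ∣ (Int.gcd a b : ℤ) := Int.natCast_dvd_natCast.2 hd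
  exact h p hp (hd'.trans (Int.gcd_dvd_left a b)) (hd'.trans (Int.gcd_dvd_right a b))

theorem sq_FLBase0 {n : ℤ} (h1 : Squarefree n.natAbs) {p : ℕ} (hp : p.Prime)
    (h : (p : ℤ) ^ 2 ∣ n) : False := by
  have h2 : p * p ∣ n.natAbs := by
    have := Int.natAbs_dvd_natAbs.2 h
    rwa [Int.natAbs_pow, Int.natAbs_natCast, sq] at this
  exact hp.prime.not_isUnit (h1 p h2)

theorem cop_im {ε : O m} (h1 : Squarefree ε.norm.natAbs) : IsCoprime ε.norm ε.im := by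
  refine copr_FLBase0 fun p hp ha hb => sq_FLBase0 h1 hp ?_
  have hP : Prime (p : ℤ) := Nat.prime_iff_prime_int.1 hp
  have h3 : (p : ℤ) ∣ ε.re ^ 2 := by
    have h4 : (p : ℤ) ∣ m * ε.im ^ 2 := Dvd.dvd.mul_left (dvd_pow hb two_ne_zero) _
    rw [norm_eq] at ha
    exact (dvd_add_left h4).1 ha
  have h5 := hP.dvd_of_dvd_pow h3
  rw [norm_eq]
  exact dvd_add (pow_dvd_pow_of_dvd h5 2) (Dvd.dvd.mul_left (pow_dvd_pow_of_dvd hb 2) _)

theorem cop_star {ε : O m} (h1 : Squarefree ε.norm.natAbs)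
    (h2 : Nat.Coprime ε.norm.natAbs (2 * m)) : IsCoprime ε (star ε) := by
  have h3 : IsCoprime ε.norm (2 * ε.re) := by
    refine copr_FLBase0 fun p hp ha hb => ?_
    have hP : Prime (p : ℤ) := Nat.prime_iff_prime_int.1 hp
    have ha' : p ∣ ε.norm.natAbs := Int.natCast_dvd.1 ha
    have hn : ¬ p ∣ 2 * m := fun hd => hp.one_lt.ne' (Nat.eq_one_of_dvd_coprimes h2 ha' hd)
    have h4 : (p : ℤ) ∣ ε.re := by
      rcases hP.dvd_or_dvd hb with h | h
      · exact absurd (Dvd.dvd.mul_right (by exact_mod_cast h) _) hn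
      · exact h
    have h5 : (p : ℤ) ∣ m * ε.im ^ 2 := by
      rw [norm_eq] at ha
      exact (dvd_add_right (dvd_pow h4 two_ne_zero)).1 ha
    rcases hP.dvd_or_dvd h5 with h | h
    · exact hn (Dvd.dvd.mul_left (by exact_mod_cast h) _)
    · exact hP.not_isUnit ((cop_im h1).isUnit_of_dvd' ha (hP.dvd_of_dvd_pow h))
  obtain ⟨a, b, hab⟩ := h3
  have h6 : ((2 * ε.re : ℤ) : O m) = ε + star ε := by
    ext
    · simp; ring
    · simp
  have h7 : (a : O m) * (ε * star ε) + (b : O m) * (ε + star ε) = 1 := by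
    rw [← h6, ← Zsqrtd.norm_eq_mul_conj]
    exact_mod_cast congrArg (fun z : ℤ => (z : O m)) hab
  exact ⟨a * star ε + b, b, by rw [← h7]; ring⟩

theorem star_dvd_iff (hm : 1 ≤ m) {ε : O m} (h1 : Squarefree ε.norm.natAbs) (Y : O m) :
    star ε ∣ Y ↔ ε.norm ∣ (Y * ε).im := by
  constructor
  · rintro ⟨c, rfl⟩
    have h2 : star ε * c * ε = (ε.norm : O m) * c := by
      rw [Zsqrtd.norm_eq_mul_conj]; ring
    rw [h2]
    exact ⟨c.im, by simp⟩
  · intro h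
    have h2 : Y * ε * star ε = (ε.norm : O m) * Y := by
      rw [Zsqrtd.norm_eq_mul_conj]; ring
    have h3 := congrArg Zsqrtd.im h2
    generalize hZ : Y * ε = Z at h h3
    have h4 : Z.re * ε.im = Z.im * ε.re - ε.norm * Y.im := by
      simp at h3
      linarith
    have h5 : ε.norm ∣ Z.re := by
      refine (cop_im h1).dvd_of_dvd_mul_right ?_
      rw [h4]
      exact dvd_sub (Dvd.dvd.mul_right h _) (Dvd.intro _ rfl)
    obtain ⟨W, hW⟩ := (Zsqrtd.intCast_dvd ε.norm Z).2 ⟨h5, h⟩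
    have h0 : ε ≠ 0 := by
      rintro rfl
      simp at h1
    refine ⟨W, o_cancel hm h0 ?_⟩
    rw [mul_comm ε Y, hZ, hW, Zsqrtd.norm_eq_mul_conj]; ring

theorem cancel_unit {g : ℕ} {δ x : O m} (h : IsCoprime (g : ℤ) δ.norm) :
    ((g : O m) ∣ δ * x → (g : O m) ∣ x) ∧ ((g : O m) ∣ star δ * x → (g : O m) ∣ x) := by
  have h1 : IsCoprime (g : O m) (δ * star δ) := by
    rw [← Zsqrtd.norm_eq_mul_conj]
    have := h.intCast (R := O m)
    rwa [Int.cast_natCast] at this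
  exact ⟨fun hd => h1.of_mul_right_left.dvd_of_dvd_mul_left hd,
    fun hd => h1.of_mul_right_right.dvd_of_dvd_mul_left hd⟩

theorem inv_spec {D : ℕ} (hD : 1 ≤ D) {n : ℤ} (h : IsCoprime (D : ℤ) n) :
    (D : ℤ) ∣ n * ((((n : ZMod D)⁻¹).val : ℕ) : ℤ) - 1 := by
  have : NeZero D := ⟨by omega⟩
  rw [← ZMod.intCast_zmod_eq_zero_iff_dvd]
  have h1 : IsUnit (n : ZMod D) := (ZMod.coe_int_isUnit_iff_isCoprime n D).2 h
  push_cast
  rw [ZMod.natCast_val, ZMod.cast_id', id, ZMod.mul_inv_of_unit _ h1, sub_self]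

theorem tb_spec {D : ℕ} (hD : 1 ≤ D) {δ : O m} (h : IsCoprime (D : ℤ) δ.norm) :
    (D : O m) ∣ star δ * tb D δ - δ := by
  obtain ⟨c, hc⟩ := inv_spec hD h
  unfold tb
  generalize ((δ.norm : ZMod D)⁻¹).val = i at hc ⊢
  have h2 : (δ * star δ) * (i : O m) - 1 = (D : O m) * (c : O m) := by
    rw [← Zsqrtd.norm_eq_mul_conj]
    exact_mod_cast congrArg (fun z : ℤ => (z : O m)) hc
  refine ⟨δ * c, ?_⟩
  linear_combination δ * h2

theorem tb_norm {D : ℕ} (hD : 1 ≤ D) {δ : O m} (h : IsCoprime (D : ℤ) δ.norm) :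
    (D : ℤ) ∣ (tb D δ).norm - 1 := by
  obtain ⟨c, hc⟩ := inv_spec hD h
  unfold tb
  generalize ((δ.norm : ZMod D)⁻¹).val = i at hc ⊢
  rw [Zsqrtd.norm_mul, norm_pow', Zsqrtd.norm_natCast]
  refine ⟨c * (δ.norm * i + 1), ?_⟩
  linear_combination (δ.norm * i + 1) * hc

theorem tb_shift (D : ℕ) (δ v : O m) : (D : O m) ∣ tb D (δ + (D : O m) * v) - tb D δ := by
  have h1 : (((δ + (D : O m) * v).norm : ℤ) : ZMod D) = (δ.norm : ZMod D) := by
    rw [norm_eq, norm_eq]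
    simp
  unfold tb
  rw [h1]
  generalize ((δ.norm : ZMod D)⁻¹).val = i
  exact ⟨(2 * δ * v + D * v ^ 2) * i, by ring⟩

variable {y J : ℕ} {k : ℝ} {F : Finset (O m)}

theorem Fam.ne (h : Fam m y J k F) (hm : 1 ≤ m) : F.Nonempty := by
  rw [Finset.nonempty_iff_ne_empty]
  rintro rfl
  have h1 := h.big
  have h2 := h.pos
  have h3 := h.thin
  have h4 : 1 ≤ 10 * m ^ 2 * J := Nat.one_le_iff_ne_zero.2 (by positivity)
  have h5 : (0 : ℝ) < (y : ℝ) * J := by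
    have : 0 < y * J := Nat.mul_pos (by omega) (by omega)
    exact_mod_cast this
  simp only [Finset.card_empty, Nat.cast_zero, mul_zero] at h1
  linarith

theorem Fam.im_ne (h : Fam m y J k F) {δ : O m} (hδ : δ ∈ F) : δ.im ≠ 0 := by
  intro h0
  obtain ⟨l, l', hl, hl', hne, -, -, -, -, hn⟩ := h.nrm δ hδ
  rw [norm_eq, h0] at hn
  have hP : Prime (l : ℤ) := Nat.prime_iff_prime_int.1 hl
  have h1 : δ.re ^ 2 = l * l' := by simpa using hn
  have h2 : (l : ℤ) ∣ δ.re := hP.dvd_of_dvd_pow (n := 2) ⟨l', h1⟩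
  have h3 : (l : ℤ) * l ∣ l * l' := by
    rw [← h1, sq]; exact mul_dvd_mul h2 h2
  have h4 : (l : ℤ) ∣ l' := (mul_dvd_mul_iff_left hP.ne_zero).1 h3
  exact hne ((Nat.prime_dvd_prime_iff_eq hl hl').1 (by exact_mod_cast h4))

theorem Fam.ne_zero (h : Fam m y J k F) {δ : O m} (hδ : δ ∈ F) : δ ≠ 0 := by
  rintro rfl
  exact h.im_ne hδ rfl

theorem Fam.abs (h : Fam m y J k F) {δ : O m} (hδ : δ ∈ F) :
    (y : ℝ) < ‖ph m δ‖ ∧ ‖ph m δ‖ ≤ 2 * y := by
  obtain ⟨l, l', -, -, -, h1, h2, h3, h4, hn⟩ := h.nrm δ hδ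
  have h5 := norm_sq_ph δ
  rw [hn] at h5
  push_cast at h5
  have e1 : (y : ℝ) < l := by exact_mod_cast h1
  have e2 : (y : ℝ) < l' := by exact_mod_cast h2
  have e3 : (l : ℝ) ≤ 2 * y := by exact_mod_cast h3
  have e4 : (l' : ℝ) ≤ 2 * y := by exact_mod_cast h4
  have e0 : (0 : ℝ) ≤ y := Nat.cast_nonneg _
  constructor
  · refine lt_of_pow_lt_pow_left₀ 2 (norm_nonneg _) ?_
    rw [h5]; nlinarith
  · refine le_of_pow_le_pow_left₀ two_ne_zero (by positivity) ?_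
    rw [h5]; nlinarith

theorem Fam.cop (h : Fam m y J k F) {δ : O m} (hδ : δ ∈ F) {D : ℕ} (h1 : 1 ≤ D) (hD : D ≤ y) :
    IsCoprime (D : ℤ) δ.norm := by
  obtain ⟨l, l', hl, hl', -, h2, h3, -, -, hn⟩ := h.nrm δ hδ
  rw [hn]
  have key : ∀ q : ℕ, q.Prime → y < q → IsCoprime (D : ℤ) (q : ℤ) := fun q hq hy =>
    Nat.isCoprime_iff_coprime.2
      (((Nat.Prime.coprime_iff_not_dvd hq).2 fun hd => by
        have := Nat.le_of_dvd (by omega) hd
        omega).symm)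
  exact (key l hl h2).mul_right (key l' hl' h3)

theorem Fam.sqf (h : Fam m y J k F) {δ : O m} (hδ : δ ∈ F) : Squarefree δ.norm.natAbs := by
  obtain ⟨l, l', hl, hl', hne, -, -, -, -, hn⟩ := h.nrm δ hδ
  rw [hn, Int.natAbs_mul, Int.natAbs_natCast, Int.natAbs_natCast,
    Nat.squarefree_mul ((Nat.coprime_primes hl hl').2 hne)]
  exact ⟨hl.prime.squarefree, hl'.prime.squarefree⟩

theorem Fam.cop2 (h : Fam m y J k F) (hm : 1 ≤ m) {δ : O m} (hδ : δ ∈ F) :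
    Nat.Coprime δ.norm.natAbs (2 * m) := by
  have h2 := h.pos
  have h3 := h.thin
  have h4 : 2 * m ≤ y := by nlinarith [Nat.mul_le_mul hm hm, Nat.mul_le_mul (le_refl (m ^ 2)) h2]
  have h5 := h.cop hδ (D := 2 * m) (by omega) h4
  rw [Int.isCoprime_iff_gcd_eq_one] at h5
  exact Nat.Coprime.symm h5

theorem Fam.nat_le (h : Fam m y J k F) {δ : O m} (hδ : δ ∈ F) : δ.norm.natAbs ≤ 4 * y ^ 2 := by
  obtain ⟨l, l', -, -, -, -, -, h3, h4, hn⟩ := h.nrm δ hδ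
  rw [hn, Int.natAbs_mul, Int.natAbs_natCast, Int.natAbs_natCast]
  calc l * l' ≤ (2 * y) * (2 * y) := Nat.mul_le_mul h3 h4
    _ = 4 * y ^ 2 := by ring

end Pool.Agent.P.MP_b75a1e_co.EG
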