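import Pool.Agent.P.MP_b75a1e_co.FLErr

set_option autoImplicit false

open Finset
open scoped BigOperators ComplexConjugate

namespace Pool.Agent.P.MP_b75a1e_co.EG

theorem uniq_FLBlock {n : ℕ} (hn : 0 < n) (A B : ℤ) (h : IsCoprime (n : ℤ) B) :
    ∃ c0 < n, ∀ c < n, ((n : ℤ) ∣ A + c * B ↔ c = c0) := by
  obtain ⟨a, b, hab⟩ := id h
  have hn' : (0 : ℤ) < n := by exact_mod_cast hn
  have h0 := Int.emod_nonneg (-b * A) hn'.ne'
  have h1 := Int.emod_lt_of_pos (-b * A) hn'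
  have h2 := Int.emod_add_mul_ediv (-b * A) n
  obtain ⟨c0, hc0⟩ := Int.eq_ofNat_of_zero_le h0
  rw [hc0] at h1 h2
  have h3 : (n : ℤ) ∣ A + c0 * B :=
    ⟨a * A - (-b * A) / n * B, by linear_combination (-A) * hab + B * h2⟩
  refine ⟨c0, by exact_mod_cast h1, fun c hc => ⟨fun h4 => ?_, fun h4 => h4 ▸ h3⟩⟩
  have h5 : (n : ℤ) ∣ ((c : ℤ) - c0) * B := by
    have := dvd_sub h4 h3
    rwa [show A + c * B - (A + c0 * B) = ((c : ℤ) - c0) * B by ring] at this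
  have h6 := Int.eq_zero_of_abs_lt_dvd (h.dvd_of_dvd_mul_right h5) (by rw [abs_lt]; omega)
  omega

theorem cast_FLBlock {m : ℕ} (ε : O m) : ((ε.norm.natAbs : ℕ) : ℤ) = ε.norm :=
  Int.natAbs_of_nonneg (norm_nonneg' ε)

theorem ne_FLBlock {m Δ : ℕ} {α δ : O m} (h : Good m Δ α δ) : α * δ ≠ 0 := fun h0 => by
  have := h.sq.ne_zero
  rw [h0] at this
  simp at this

theorem one_FLBlock {m Δ D : ℕ} (hm : 1 ≤ m) {α δ : O m} (h : Good m Δ α δ) (γ : O m)
    (hc : IsCoprime (D : ℤ) (α * δ).norm) :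
    ∃ c0 < (α * δ).norm.natAbs, ∀ c < (α * δ).norm.natAbs,
      (star (α * δ) ∣ γ * α + (c : O m) * D ↔ c = c0) := by
  obtain ⟨c0, h1, h2⟩ := uniq_FLBlock (Nat.pos_of_ne_zero h.sq.ne_zero) (γ * α * (α * δ)).im
    (D * (α * δ).im) (by rw [cast_FLBlock]; exact hc.symm.mul_right (cop_im h.sq))
  refine ⟨c0, h1, fun c hc => ?_⟩
  rw [← h2 c hc, star_dvd_iff hm h.sq, cast_FLBlock]
  generalize α * δ = ε
  have : ((γ * α + (c : O m) * D) * ε).im = (γ * α * ε).im + c * (D * ε.im) := by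
    rw [add_mul, Zsqrtd.im_add, mul_assoc (c : O m)]
    simp
  rw [this]

theorem main_FLBlock {m D : ℕ} (hm : 1 ≤ m) (hD : 1 ≤ D) {α ε γ κ : O m} (h0 : ε ≠ 0) {c : ℕ}
    (hκ : (D : O m) ∣ star ε * κ - 1) (h : star ε ∣ γ * α + (c : O m) * D) (η : ℂ) (Y : O m) :
    ee (pr m (((ph m γ / D + η) * ph m α + c) / conj (ph m ε)) (ph m Y)) =
      ee (((γ * α * κ * Y).im : ℝ) / D + pr m η (ph m (α * Y) / conj (ph m ε))) := by
  obtain ⟨w, hw⟩ := h
  obtain ⟨v, hv⟩ := hκ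
  have h1 : conj (ph m ε) ≠ 0 := (map_ne_zero _).2 (ph_ne_zero hm h0)
  have h2 : (D : ℂ) ≠ 0 := by exact_mod_cast (by omega : D ≠ 0)
  have h3 := congrArg (ph m) hw
  rw [map_add, map_mul, map_mul, map_mul, map_natCast, map_natCast, ph_star] at h3
  have h4 : ((ph m γ / D + η) * ph m α + c) / conj (ph m ε)
      = ph m w / ((D : ℝ) : ℂ) + η * (ph m α / conj (ph m ε)) := by
    push_cast
    field_simp
    linear_combination h3
  have h5 : pr m (η * (ph m α / conj (ph m ε))) (ph m Y)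
      = pr m η (ph m (α * Y) / conj (ph m ε)) := by
    rw [← pr_mul, map_mul, div_mul_eq_mul_div]
  rw [h4, pr_add_left, pr_ph_div hm, h5]
  exact ee_im_congr hD ⟨((c : O m) * κ - w * v) * Y, by
    linear_combination (-κ * Y) * hw + (-w * Y) * hv⟩ _

theorem pt_FLBlock {m D : ℕ} (hm : 1 ≤ m) (hD : 1 ≤ D) {α δ : O m} (h0 : α * δ ≠ 0) (γ : O m)
    (η : ℂ) (c : ℕ) :
    ph m ((γ * α + (c : O m) * D) * δ) = D * conj (ph m (α * δ)) *
      (pt α δ (ph m γ / D + η) c - η * rot (α * δ)) := by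
  have h1 : conj (ph m (α * δ)) ≠ 0 := (map_ne_zero _).2 (ph_ne_zero hm h0)
  have h2 : (D : ℂ) ≠ 0 := by exact_mod_cast (by omega : D ≠ 0)
  rw [pt, rot]
  generalize conj (ph m (α * δ)) = z at h1
  simp only [map_add, map_mul, map_natCast]
  field_simp
  ring

theorem near_FLBlock {m D Δ : ℕ} (hm : 1 ≤ m) (hD : 1 ≤ D) {α δ α' δ' : O m} (h : Good m Δ α δ)
    (h' : Good m Δ α' δ') (γ a : O m) (η : ℂ) (c c' : ℕ) {r : ℝ}
    (hs : (D : ℝ) * Δ * (r + 2 * ‖η‖) < 1)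
    (hn : ‖pt α' δ' (ph m γ / D + η) c' - pt α δ (ph m γ / D + η) c - ph m a‖ ≤ r)
    (hc : Nat.Coprime (α * δ).norm.natAbs (α' * δ').norm.natAbs) :
    star (α * δ) ∣ γ * α + (c : O m) * D := by
  have e1 := pt_FLBlock hm hD (ne_FLBlock h) γ η c
  have e2 := pt_FLBlock hm hD (ne_FLBlock h') γ η c'
  have r1 := norm_rot hm (ne_FLBlock h)
  have r2 := norm_rot hm (ne_FLBlock h')
  have b : ∀ {α δ : O m}, Good m Δ α δ → ‖ph m (α * δ)‖ ^ 2 ≤ Δ := fun {α δ} h => by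
    rw [norm_sq_ph, ← cast_FLBlock]
    exact_mod_cast h.le
  have b1 := b h
  have b2 := b h'
  have k1 : IsCoprime (star (α * δ)) δ := (cop_star h.sq h.cop).of_mul_left_right.symm
  have k2 : IsCoprime (star (α * δ)) (star (α' * δ')) := by
    have h1 : IsCoprime (α * δ).norm (α' * δ').norm := by
      rw [← cast_FLBlock, ← cast_FLBlock (α' * δ')]
      exact Nat.isCoprime_iff_coprime.2 hc
    have h2 := h1.map (Int.castRingHom (O m))
    rw [eq_intCast, eq_intCast, Zsqrtd.norm_eq_mul_conj, Zsqrtd.norm_eq_mul_conj] at h2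
    exact h2.of_mul_left_right.of_mul_right_right
  generalize α * δ = ε at *
  generalize α' * δ' = ε' at *
  generalize γ * α + (c : O m) * D = x at *
  generalize γ * α' + (c' : O m) * D = x' at *
  generalize pt α δ (ph m γ / D + η) c = P at *
  generalize pt α' δ' (ph m γ / D + η) c' = P' at *
  have hZ : x' * δ' * star ε - x * δ * star ε' - a * D * star ε * star ε' = 0 := by
    refine eq_zero_of_norm_lt hm (lt_of_le_of_lt ?_ hs)
    have e3 : ph m (x' * δ' * star ε - x * δ * star ε' - a * D * star ε * star ε')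
        = D * (conj (ph m ε) * conj (ph m ε')) * ((P' - P - ph m a) - η * (rot ε' - rot ε)) := by
      rw [map_sub, map_sub, map_mul _ _ (star ε), map_mul _ _ (star ε'), e1, e2]
      simp only [map_mul, map_natCast, ph_star]
      ring
    have n1 : ‖conj (ph m ε) * conj (ph m ε')‖ ≤ Δ := by
      rw [norm_mul, Complex.norm_conj, Complex.norm_conj]
      nlinarith [sq_nonneg (‖ph m ε‖ - ‖ph m ε'‖)]
    have n2 : ‖(P' - P - ph m a) - η * (rot ε' - rot ε)‖ ≤ r + 2 * ‖η‖ := by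
      refine (norm_sub_le _ _).trans (add_le_add hn ?_)
      rw [norm_mul, mul_comm]
      refine mul_le_mul_of_nonneg_right ((norm_sub_le _ _).trans ?_) (norm_nonneg _)
      rw [r1, r2]
      norm_num
    rw [e3, norm_mul, norm_mul, Complex.norm_natCast]
    gcongr
  have h3 : star ε ∣ x * δ * star ε' :=
    ⟨x' * δ' - a * D * star ε', by linear_combination (-1 : O m) * hZ⟩
  exact k1.dvd_of_dvd_mul_right (k2.dvd_of_dvd_mul_right h3)

open Classical in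
/-- Main term and error term near a fraction with small denominator. -/
theorem split {m : ℕ} {ι : Type} (hm : 1 ≤ m) (I : Finset ι) (α δ κ : ι → O m) (e : O m) (s Δ : ℕ)
    (U : Finset (O m)) (L μ : ℝ) (γ : O m) (D : ℕ) (η : ℂ) (hG : ∀ i ∈ I, Good m Δ (α i) (δ i))
    (hL : 1 ≤ L) (hμ : 0 ≤ μ) (hU : ∀ u ∈ U, ‖ph m u‖ ≤ L) (hD : 1 ≤ D)
    (hc : ∀ i ∈ I, IsCoprime (D : ℤ) (α i * δ i).norm)
    (hκ : ∀ i ∈ I, (D : O m) ∣ star (α i * δ i) * κ i - 1)
    (hs : (D : ℝ) * Δ * (4 * Real.sqrt m / L + 2 * ‖η‖) < 1)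
    (h : ∀ i ∈ I, ((I.filter fun j =>
      ¬ Nat.Coprime (α i * δ i).norm.natAbs (α j * δ j).norm.natAbs).card : ℝ) ≤ μ) :
    ‖Tb I α δ e s U (ph m γ / D + η) - ∑ i ∈ I, ∑ u ∈ U, ∑ u' ∈ U,
      ee (((γ * α i * κ i * Yb e s (δ i) u u').im : ℝ) / D +
        pr m η (ph m (α i * Yb e s (δ i) u u') / conj (ph m (α i * δ i))))‖ ≤
      10 ^ 4 * μ * L ^ 2 * U.card := by
  obtain ⟨E, hE⟩ : ∃ E : ι → ℕ → Prop, ∀ i c, E i c ↔ ¬ star (α i * δ i) ∣ γ * α i + (c : O m) * D :=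
    ⟨_, fun _ _ => Iff.rfl⟩
  have hL0 : 0 < L := by linarith
  have hD1 : (1 : ℝ) ≤ D := by exact_mod_cast hD
  have hq : 0 ≤ Real.sqrt m / L := by positivity
  have hΔ : 4 * Real.sqrt m * Δ < L := by
    rw [← div_lt_one hL0]
    refine lt_of_le_of_lt ?_ hs
    calc 4 * Real.sqrt m * Δ / L = 1 * Δ * (4 * Real.sqrt m / L + 0) := by ring
      _ ≤ _ := by gcongr; positivity
  have hs' : (D : ℝ) * Δ * (2 * Real.sqrt m / L + 2 * ‖η‖) < 1 := by
    refine lt_of_le_of_lt ?_ hs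
    gcongr
    norm_num
  refine le_trans (le_of_eq ?_) (err_le hm I α δ e s Δ U L μ (ph m γ / D + η) E hG hL hμ hU hΔ ?_)
  · congr 1
    rw [Tb, ← sum_sub_distrib]
    refine sum_congr rfl fun i hi => ?_
    obtain ⟨c0, h1, h2⟩ := one_FLBlock hm (hG i hi) γ (hc i hi)
    have h3 : (range (α i * δ i).norm.natAbs).filter (fun c => ¬ E i c) = {c0} := by
      ext c
      rw [mem_filter, mem_range, mem_singleton, hE, not_not]
      exact ⟨fun h => (h2 c h.1).1 h.2, fun h => h ▸ ⟨h1, (h2 c0 h1).2 rfl⟩⟩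
    rw [← sum_filter_add_sum_filter_not (range (α i * δ i).norm.natAbs) (E i), h3, sum_singleton,
      sub_eq_iff_eq_add, add_right_inj, trm]
    exact sum_congr rfl fun u _ => sum_congr rfl fun u' _ =>
      main_FLBlock hm hD (ne_FLBlock (hG i hi)) (hκ i hi) ((h2 c0 h1).2 rfl) η _
  · intro i hi c hEc
    refine le_trans ?_ (h i hi)
    refine Nat.cast_le.2 (card_le_card fun j hj => ?_)
    rw [mem_filter] at hj ⊢
    obtain ⟨hj, c', a, -, hn⟩ := hj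
    exact ⟨hj, fun hc => (hE i c).1 hEc
      (near_FLBlock hm hD (hG i hi) (hG j hj) γ a η c c' hs' hn hc)⟩

open Classical in
theorem Tb_zero {m : ℕ} {ι : Type} (hm : 1 ≤ m) (I : Finset ι) (α δ : ι → O m) (e : O m) (s Δ : ℕ)
    (U : Finset (O m)) (L μ : ℝ) (hG : ∀ i ∈ I, Good m Δ (α i) (δ i))
    (hL : 1 ≤ L) (hμ : 0 ≤ μ) (hU : ∀ u ∈ U, ‖ph m u‖ ≤ L) (hΔ : 4 * Real.sqrt m * Δ < L)
    (h : ∀ i ∈ I, ((I.filter fun j =>
      ¬ Nat.Coprime (α i * δ i).norm.natAbs (α j * δ j).norm.natAbs).card : ℝ) ≤ μ) :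
    ‖Tb I α δ e s U 0 - (I.card : ℂ) * (U.card : ℂ) ^ 2‖ ≤ 10 ^ 4 * μ * L ^ 2 * U.card := by
  have hL0 : 0 < L := by linarith
  have := split hm I α δ (fun _ => 0) e s Δ U L μ 0 1 0 hG hL hμ hU le_rfl
    (fun i _ => by rw [Nat.cast_one]; exact isCoprime_one_left)
    (fun i _ => by rw [Nat.cast_one]; exact one_dvd _)
    (by
      rw [← div_lt_one hL0] at hΔ
      refine lt_of_eq_of_lt ?_ hΔ
      rw [norm_zero]
      push_cast
      ring) h
  simpa [pr, ee_zero, sq] using this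

end Pool.Agent.P.MP_b75a1e_co.EG
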