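import Pool.Agent.P.MP_b75a1e_co.FLDefs

set_option autoImplicit false

open Finset
open scoped BigOperators ComplexConjugate

namespace Pool.Agent.P.MP_b75a1e_co.EG

theorem nonneg_FLVdc {G : Type} [AddCommGroup G] [Fintype G] (r : ℕ) :
    ∀ g : G → ℝ, 0 ≤ TT r g := by
  induction r with
  | zero => exact fun g => abs_nonneg _
  | succ r ih => exact fun g => expect_nonneg fun h _ => expect_nonneg fun h' _ => ih _

theorem cs_FLVdc {ι : Type} (s : Finset ι) (hs : s.Nonempty) (w f : ι → ℝ)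
    (hw : ∀ i, |w i| ≤ 1) : (𝔼 i ∈ s, w i * f i) ^ 2 ≤ 𝔼 i ∈ s, f i ^ 2 := by
  refine (expect_mul_sq_le_sq_mul_sq s w f).trans ?_
  refine mul_le_of_le_one_left (expect_nonneg fun i _ => sq_nonneg _) ?_
  exact expect_le hs fun i _ => (sq_le_one_iff_abs_le_one _).2 (hw i)

theorem pm_FLVdc {ι : Type} (s : Finset ι) (hs : s.Nonempty) (f : ι → ℝ) (hf : ∀ i, 0 ≤ f i)
    (r : ℕ) : (𝔼 i ∈ s, f i) ^ 2 ^ r ≤ 𝔼 i ∈ s, f i ^ 2 ^ r := by
  induction r with
  | zero => simp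
  | succ r ih =>
    have h := cs_FLVdc s hs (fun _ => 1) (fun i => f i ^ 2 ^ r) fun _ => by simp
    simp only [one_mul, ← pow_mul] at h
    rw [pow_succ 2 r, pow_mul]
    exact (pow_le_pow_left₀ (pow_nonneg (expect_nonneg fun i _ => hf i) _) ih 2).trans h

theorem shift_FLVdc (F : ℕ → ℝ) (hF : ∀ n, |F n| ≤ 1) (M t : ℕ) :
    |∑ n ∈ range M, F n - ∑ n ∈ range M, F (n + t)| ≤ 2 * t := by
  have h1 := sum_range_add F M t
  have h2 := sum_range_add F t M
  rw [add_comm t M, h1] at h2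
  have h3 : ∀ u : ℕ → ℝ, (∀ n, |u n| ≤ 1) → |∑ n ∈ range t, u n| ≤ t := fun u hu =>
    (abs_sum_le_sum_abs _ _).trans (by simpa using sum_le_card_nsmul (range t) _ 1 fun n _ => hu n)
  have h4 := abs_le.1 (h3 F hF)
  have h5 := abs_le.1 (h3 (fun n => F (M + n)) fun n => hF _)
  simp only [add_comm t] at h2
  rw [abs_le]
  constructor <;> linarith [h4.1, h4.2, h5.1, h5.2]

theorem period_FLVdc (q0 : ℕ) [NeZero q0] (γ : ZMod q0 → ℝ) (b : ℕ) :
    ∑ n ∈ range q0, γ ((b + n : ℕ) : ZMod q0) = ∑ x, γ x := by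
  refine sum_nbij' (fun n => ((b + n : ℕ) : ZMod q0)) (fun x => (x - b).val) ?_ ?_ ?_ ?_ ?_
  · simp
  · exact fun x _ => mem_range.2 (ZMod.val_lt _)
  · intro n hn
    simp only [Nat.cast_add, add_sub_cancel_left]
    exact ZMod.val_cast_of_lt (mem_range.1 hn)
  · intro x _
    simp
  · simp

theorem periods_FLVdc (q0 : ℕ) [NeZero q0] (γ : ZMod q0 → ℝ) (a N : ℕ) :
    ∑ n ∈ range (N * q0), γ ((a + n : ℕ) : ZMod q0) = N * ∑ x, γ x := by
  induction N with
  | zero => simp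
  | succ N ih =>
    rw [Nat.succ_mul, sum_range_add, ih, Nat.cast_succ, add_mul, one_mul,
      ← period_FLVdc q0 γ (a + N * q0)]
    simp only [add_assoc]

theorem per_FLVdc (g : ℕ → ℝ) (q : ℕ) (h : ∀ n, g (n + q) = g n) (n k : ℕ) :
    g (n + q * k) = g n := by
  induction k with
  | zero => simp
  | succ k ih => rw [Nat.mul_succ, ← add_assoc, h, ih]

theorem abs_prod_FLVdc {r : ℕ} (u : Fin r → ℝ) (hu : ∀ i, |u i| ≤ 1) : |∏ i, u i| ≤ 1 := by
  rw [abs_prod]
  exact prod_le_one (fun i _ => abs_nonneg _) fun i _ => hu i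

theorem abs_mul_FLVdc {x y : ℝ} (hx : |x| ≤ 1) (hy : |y| ≤ 1) : |x * y| ≤ 1 := by
  rw [abs_mul]
  exact mul_le_one₀ hx (abs_nonneg _) hy

theorem main_FLVdc (r : ℕ) : ∃ K : ℝ, 1 ≤ K ∧ ∀ (q0 : ℕ) [NeZero q0] (Z N a : ℕ) (q : Fin r → ℕ)
    (γ : ZMod q0 → ℝ) (g : Fin r → ℕ → ℝ), 1 ≤ N → (∀ x, |γ x| ≤ 1) → (∀ i n, |g i n| ≤ 1) →
    (∀ i n, g i (n + q i) = g i n) → (∀ i, Nat.Coprime (q i) q0) → (∀ i, q i ≤ Z) →
    |𝔼 n ∈ range (N * q0), γ ((a + n : ℕ) : ZMod q0) * ∏ i, g i (a + n)| ^ 2 ^ r ≤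
      K * (TT r γ + Z / N) := by
  induction r with
  | zero =>
    refine ⟨1, le_rfl, fun q0 _ Z N a q γ g hN _ _ _ _ _ => ?_⟩
    have hN' : (N : ℝ) ≠ 0 := by exact_mod_cast (by omega : N ≠ 0)
    simp only [univ_eq_empty, prod_empty, mul_one, pow_zero, pow_one, one_mul, TT]
    rw [expect_eq_sum_div_card, expect_eq_sum_div_card, periods_FLVdc, card_range, card_univ,
      ZMod.card, Nat.cast_mul, mul_div_mul_left _ _ hN']
    exact le_add_of_nonneg_right (by positivity)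
  | succ r ih =>
    obtain ⟨K, hK, ih⟩ := ih
    have hP : (1 : ℝ) ≤ 2 ^ 2 ^ (r + 1) := one_le_pow₀ (by norm_num)
    have hK' : (1 : ℝ) ≤ 2 ^ 2 ^ (r + 1) * (K + 2 ^ 2 ^ (r + 1)) :=
      one_le_mul_of_one_le_of_one_le hP (by linarith)
    refine ⟨_, hK', fun q0 _ Z N a q γ g hN hγ hg hper hcop hZ => ?_⟩
    have hq0 : 0 < q0 := Nat.pos_of_ne_zero (NeZero.ne q0)
    have hN' : (0 : ℝ) < N := by exact_mod_cast hN
    have hq0' : (0 : ℝ) < q0 := by exact_mod_cast hq0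
    have hs : (range (N * q0)).Nonempty := nonempty_range_iff.2 (by positivity)
    have hT := nonneg_FLVdc (r + 1) γ
    have hZN : (0 : ℝ) ≤ Z / N := by positivity
    let G : ℕ → ℝ := fun m => γ (m : ZMod q0) * ∏ i : Fin r, g i.succ m
    let F : ℕ → ℝ := fun n => γ ((a + n : ℕ) : ZMod q0) * ∏ i, g i (a + n)
    have hF : ∀ n, |F n| ≤ 1 := fun n => abs_mul_FLVdc (hγ _) (abs_prod_FLVdc _ fun i => hg i _)
    change |𝔼 n ∈ range (N * q0), F n| ^ 2 ^ (r + 1) ≤ _
    by_cases hbig : (1 : ℝ) ≤ Z / N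
    · have h1 : |𝔼 n ∈ range (N * q0), F n| ≤ 1 :=
        (abs_expect_le _ _).trans (expect_le hs fun n _ => hF n)
      exact (pow_le_one₀ (abs_nonneg _) h1).trans
        (one_le_mul_of_one_le_of_one_le hK' (by linarith))
    have hsm : (Z : ℝ) / N ≤ 1 := (not_le.1 hbig).le
    have hFG : ∀ n k, F (n + q 0 * k) = g 0 (a + n) * G (a + n + q 0 * k) := by
      intro n k
      simp only [F, G, Fin.prod_univ_succ, ← add_assoc, per_FLVdc (g 0) (q 0) (hper 0)]
      ring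
    set E' : ℝ := 𝔼 n ∈ range (N * q0), g 0 (a + n) * 𝔼 h : ZMod q0, G (a + n + q 0 * h.val)
      with hE'
    have h1 : |(𝔼 n ∈ range (N * q0), F n) - E'| ≤ 2 * (Z / N) := by
      have e : E' = 𝔼 h : ZMod q0, 𝔼 n ∈ range (N * q0), F (n + q 0 * h.val) := by
        rw [hE', expect_comm]
        simp only [mul_expect, hFG]
      rw [e, ← Fintype.expect_const (ι := ZMod q0) (𝔼 n ∈ range (N * q0), F n),
        ← expect_sub_distrib]
      refine (abs_expect_le _ _).trans (expect_le univ_nonempty fun h _ => ?_)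
      rw [expect_eq_sum_div_card, expect_eq_sum_div_card, ← sub_div, abs_div, card_range,
        Nat.abs_cast, Nat.cast_mul, div_le_iff₀ (by positivity)]
      refine (shift_FLVdc F hF _ _).trans ?_
      have a1 : ((q 0 * h.val : ℕ) : ℝ) ≤ Z * q0 := by
        exact_mod_cast Nat.mul_le_mul (hZ 0) (ZMod.val_lt h).le
      have a2 : 2 * ((Z : ℝ) / N) * (N * q0) = 2 * (Z * q0) := by field_simp
      rw [a2]
      linarith
    have h2 : |E'| ^ 2 ^ (r + 1) ≤ K * (TT (r + 1) γ + Z / N) := by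
      let B : ZMod q0 → ZMod q0 → ℝ := fun h h' =>
        𝔼 n ∈ range (N * q0), G (a + n + q 0 * h.val) * G (a + n + q 0 * h'.val)
      have b1 : E' ^ 2 ≤ 𝔼 h, 𝔼 h', |B h h'| := by
        refine (cs_FLVdc _ hs _ _ fun n => hg 0 _).trans ?_
        simp only [sq, expect_mul_expect]
        rw [expect_comm]
        refine expect_le_expect fun h _ => ?_
        rw [expect_comm]
        exact expect_le_expect fun h' _ => le_abs_self _
      have b2 : ∀ h h', |B h h'| ^ 2 ^ r ≤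
          K * (TT r (fun x => γ (x + q 0 * h) * γ (x + q 0 * h')) + Z / N) := by
        intro h h'
        have := ih q0 Z N a (fun i => q i.succ) (fun x => γ (x + q 0 * h) * γ (x + q 0 * h'))
          (fun i m => g i.succ (m + q 0 * h.val) * g i.succ (m + q 0 * h'.val)) hN
          (fun x => abs_mul_FLVdc (hγ _) (hγ _)) (fun i m => abs_mul_FLVdc (hg _ _) (hg _ _))
          (fun i m => by
            rw [add_right_comm m, hper, add_right_comm m, hper])
          (fun i => hcop _) fun i => hZ _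
        refine le_of_eq_of_le ?_ this
        congr 2
        refine expect_congr rfl fun n _ => ?_
        simp only [G, prod_mul_distrib, Nat.cast_add, Nat.cast_mul, ZMod.natCast_val,
          ZMod.cast_id', id]
        ring
      have hu : Function.Bijective fun h : ZMod q0 => (q 0 : ZMod q0) * h :=
        (ZMod.unitOfCoprime _ (hcop 0)).mulLeft_bijective
      have b3 : (𝔼 h, 𝔼 h', TT r fun x => γ (x + q 0 * h) * γ (x + q 0 * h')) = TT (r + 1) γ := by
        refine Fintype.expect_bijective _ hu _ _ fun h => ?_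
        exact Fintype.expect_bijective _ hu _ _ fun h' => rfl
      rw [pow_succ' 2 r, pow_mul, sq_abs]
      refine (pow_le_pow_left₀ (sq_nonneg _) b1 _).trans ?_
      refine (pm_FLVdc _ univ_nonempty _ (fun h => expect_nonneg fun h' _ => abs_nonneg _) r).trans ?_
      refine (expect_le_expect fun h _ => (pm_FLVdc _ univ_nonempty _ (fun h' => abs_nonneg _)
        r).trans (expect_le_expect fun h' _ => b2 h h')).trans (le_of_eq ?_)
      simp only [← mul_expect, expect_add_distrib, Fintype.expect_const, b3]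
    have h3 : |𝔼 n ∈ range (N * q0), F n| ≤ |E'| + 2 * (Z / N) := by
      have := abs_add_le E' ((𝔼 n ∈ range (N * q0), F n) - E')
      rw [add_sub_cancel] at this
      linarith
    have h4 : (2 * ((Z : ℝ) / N)) ^ 2 ^ (r + 1) ≤ 2 ^ 2 ^ (r + 1) * (TT (r + 1) γ + Z / N) := by
      rw [mul_pow]
      refine mul_le_mul_of_nonneg_left ?_ (by positivity)
      exact (pow_le_of_le_one hZN hsm (by positivity)).trans (by linarith)
    have h5 : (2 : ℝ) ^ (2 ^ (r + 1) - 1) ≤ 2 ^ 2 ^ (r + 1) :=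
      pow_le_pow_right₀ (by norm_num) (Nat.sub_le _ _)
    refine (pow_le_pow_left₀ (abs_nonneg _) h3 _).trans ?_
    refine (add_pow_le (abs_nonneg _) (by positivity) _).trans ?_
    rw [mul_assoc, add_mul]
    exact mul_le_mul h5 (add_le_add h2 h4) (by positivity) (by positivity)

/-- Repeated van der Corput differencing along the moduli `q i`. -/
theorem vdc (r : ℕ) : ∃ K : ℝ, 1 ≤ K ∧ ∀ (q0 : ℕ) [NeZero q0] (Z N a : ℕ) (q : Fin r → ℕ)
    (γ : ZMod q0 → ℝ) (g : Fin r → ℕ → ℝ), 1 ≤ N → (∀ x, |γ x| ≤ 1) → (∀ i n, |g i n| ≤ 1) →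
    (∀ i n, g i (n + q i) = g i n) → (∀ i, Nat.Coprime (q i) q0) → (∀ i, q i ≤ Z) →
    |(∑ n ∈ range (N * q0), γ ((a + n : ℕ) : ZMod q0) * ∏ i, g i (a + n)) / (N * q0 : ℕ)| ^ 2 ^ r ≤
      K * (TT r γ + Z / N) := by
  obtain ⟨K, hK, h⟩ := main_FLVdc r
  refine ⟨K, hK, fun q0 _ Z N a q γ g h1 h2 h3 h4 h5 h6 => ?_⟩
  have := h q0 Z N a q γ g h1 h2 h3 h4 h5 h6
  rwa [expect_eq_sum_div_card, card_range] at this

end Pool.Agent.P.MP_b75a1e_co.EG
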