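import Pool.Agent.P.MP_b75a1e_co.FLCube
import Pool.Agent.P.MP_b75a1e_co.FLVdc
import Pool.Agent.P.MP_b75a1e_co.EGT1a

set_option autoImplicit false

open Finset
open scoped BigOperators ComplexConjugate

namespace Pool.Agent.P.MP_b75a1e_co.EG

theorem big_div (Z m : ℕ) (hZ : 1 ≤ Z) (hm : Z < m) (h : ∀ l, l.Prime → l ∣ m → l ≤ Z) :
    ∃ q, q ∣ m ∧ Z < q ∧ q ≤ Z ^ 2 := by
  induction m using Nat.strong_induction_on with
  | _ m ih =>
    have hp : (m.minFac).Prime := Nat.minFac_prime (by omega)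
    obtain ⟨c, hc⟩ := Nat.minFac_dvd m
    have hl := h _ hp (Nat.minFac_dvd m)
    by_cases hcZ : Z < c
    · have h2 := hp.two_le
      obtain ⟨q, h1, h3⟩ := ih c (by nlinarith) hcZ
        fun l hl' hd => h l hl' (hc ▸ Dvd.dvd.mul_left hd _)
      exact ⟨q, hc ▸ Dvd.dvd.mul_left h1 _, h3⟩
    · refine ⟨m, dvd_rfl, hm, ?_⟩
      rw [hc, sq]
      exact Nat.mul_le_mul hl (by omega)

theorem split_mod (Z r : ℕ) (hZ : 1 ≤ Z) : ∀ m : ℕ, 1 ≤ m → (∀ l, l.Prime → l ∣ m → l ≤ Z) →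
    m ≤ Z ^ r → ∃ q : Fin r → ℕ, ∏ i, q i = m ∧ ∀ i, q i ≤ Z ^ 2 := by
  have hZ2 : Z ≤ Z ^ 2 := by nlinarith
  induction r with
  | zero =>
    intro m h1 _ h3
    exact ⟨Fin.elim0, by simp at h3 ⊢; omega, fun i => i.elim0⟩
  | succ r ih =>
    intro m h1 h2 h3
    by_cases hm : Z < m
    · obtain ⟨q0, ⟨c, rfl⟩, h4, h5⟩ := big_div Z m hZ hm h2
      have hc : 1 ≤ c := Nat.pos_of_mul_pos_left h1
      have hc2 : c ≤ Z ^ r := by
        refine Nat.le_of_mul_le_mul_left (c := Z) ?_ hZ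
        calc Z * c ≤ q0 * c := Nat.mul_le_mul_right _ h4.le
          _ ≤ Z ^ (r + 1) := h3
          _ = Z * Z ^ r := pow_succ' Z r
      obtain ⟨q, e1, e2⟩ := ih c hc (fun l hl hd => h2 l hl (Dvd.dvd.mul_left hd _)) hc2
      refine ⟨Fin.cons q0 q, by rw [Fin.prod_univ_succ]; simp [e1], fun i => ?_⟩
      refine Fin.cases ?_ (fun j => ?_) i
      · exact h5
      · exact e2 j
    · refine ⟨Fin.cons m fun _ => 1, by rw [Fin.prod_univ_succ]; simp, fun i => ?_⟩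
      refine Fin.cases ?_ (fun j => ?_) i
      · show m ≤ Z ^ 2
        omega
      · show 1 ≤ Z ^ 2
        omega

theorem jac_prod_FLChar {ι : Type} (s : Finset ι) (q : ι → ℕ) (hq : ∀ i, q i ≠ 0) (a : ℤ) :
    jacobiSym a (∏ i ∈ s, q i) = ∏ i ∈ s, jacobiSym a (q i) := by
  classical
  induction s using Finset.induction_on with
  | empty => simp
  | insert i s hi ih =>
    rw [prod_insert hi, prod_insert hi,
      jacobiSym.mul_right' a (hq i) (prod_ne_zero_iff.2 fun j _ => hq j), ih]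

theorem jac_abs_FLChar (a : ℤ) (d : ℕ) : |(jacobiSym a d : ℝ)| ≤ 1 := by
  exact_mod_cast egt_abs a d

theorem part_FLChar {d : ℕ} (hd : d ≠ 0) (h0 : ∑ n ∈ range d, jacobiSym n d = 0) (X : ℕ) :
    |∑ n ∈ range X, jacobiSym n d| ≤ d := by
  induction X using Nat.strong_induction_on with
  | _ X ih =>
    rcases lt_or_ge X d with h | h
    · refine (abs_sum_le_sum_abs _ _).trans
        ((sum_le_card_nsmul _ _ 1 fun n _ => egt_abs _ _).trans ?_)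
      simpa using h.le
    · obtain ⟨Y, rfl⟩ := Nat.exists_eq_add_of_le h
      rw [sum_range_add, h0, zero_add]
      refine le_trans (le_of_eq (congrArg abs (sum_congr rfl fun n _ => ?_))) (ih Y (by omega))
      exact jacobiSym.mod_left' (by push_cast; simp)

theorem blocks_FLChar (f : ℕ → ℝ) (hf : ∀ n, |f n| ≤ 1) (L s : ℕ) (B : ℝ)
    (hB : ∀ a, |∑ n ∈ range L, f (a + n)| ≤ B) (t : ℕ) :
    |∑ n ∈ range (s + L * t), f n| ≤ s + t * B := by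
  induction t with
  | zero =>
    simp only [mul_zero, add_zero, Nat.cast_zero, zero_mul]
    calc |∑ n ∈ range s, f n| ≤ ∑ n ∈ range s, |f n| := abs_sum_le_sum_abs _ _
      _ ≤ ∑ n ∈ range s, (1 : ℝ) := sum_le_sum fun n _ => hf n
      _ = s := by simp
  | succ t ih =>
    rw [mul_add_one, ← add_assoc, sum_range_add]
    have := abs_add_le (∑ n ∈ range (s + L * t), f n) (∑ n ∈ range L, f (s + L * t + n))
    have := hB (s + L * t)
    push_cast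
    linarith

/-- A power saving in short character sums to smooth moduli. -/
theorem charsum (r : ℕ) : ∃ C η : ℝ, 1 ≤ C ∧ 0 < η ∧ η ≤ 1 ∧ ∀ m Z N : ℕ, Odd m → Squarefree m →
    1 < m → 2 ≤ Z → (∀ l, l.Prime → l ∣ m → l ≤ Z) → m ≤ Z ^ r → Z ^ 10 ≤ N →
    |∑ n ∈ range N, (jacobiSym n m : ℝ)| ≤ C * N * (Z : ℝ) ^ (-η) := by
  obtain ⟨K, hK, hv⟩ := vdc r
  obtain ⟨C, hC, ht⟩ := TT_jac r
  have hD : 1 ≤ K * (C + 1) := by nlinarith
  have h2r : (1 : ℝ) ≤ 2 ^ r := one_le_pow₀ (by norm_num)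
  have hη0 : (0 : ℝ) < 1 / (4 * 2 ^ r) := by positivity
  have hη1 : (1 : ℝ) / (4 * 2 ^ r) ≤ 1 := by
    rw [div_le_one (by positivity)]
    linarith
  have hηr : -(1 / (4 * 2 ^ r) : ℝ) * ((2 ^ r : ℕ) : ℝ) = -1 / 4 := by
    push_cast
    field_simp
  generalize (1 / (4 * 2 ^ r) : ℝ) = η at hη0 hη1 hηr
  refine ⟨K * (C + 1) + 1, η, by linarith, hη0, hη1, fun m Z N ho hs h1 hZ hl hr hN => ?_⟩
  have hZ1 : (1 : ℝ) ≤ Z := by exact_mod_cast (by omega : 1 ≤ Z)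
  have hZ0 : (0 : ℝ) < Z := by linarith
  have hw : (0 : ℝ) < (Z : ℝ) ^ (-η) := Real.rpow_pos_of_pos hZ0 _
  have h8 : (Z : ℝ) ^ 8 ≤ N * (Z : ℝ) ^ (-η) := by
    have a1 : (Z : ℝ) ^ (-1 : ℝ) ≤ (Z : ℝ) ^ (-η) :=
      Real.rpow_le_rpow_of_exponent_le hZ1 (by linarith)
    rw [Real.rpow_neg_one] at a1
    have a2 : (Z : ℝ) ^ 10 ≤ N := by exact_mod_cast hN
    calc (Z : ℝ) ^ 8 ≤ (Z : ℝ) ^ 9 := pow_le_pow_right₀ hZ1 (by norm_num)
      _ = (Z : ℝ) ^ 10 * (Z : ℝ)⁻¹ := by field_simp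
      _ ≤ N * (Z : ℝ) ^ (-η) := mul_le_mul a2 a1 (by positivity) (by positivity)
  have hNw : (0 : ℝ) ≤ N * (Z : ℝ) ^ (-η) := by positivity
  by_cases hm : Z < m
  swap
  · have hp : (m.minFac).Prime := Nat.minFac_prime (by omega)
    obtain ⟨a, ha⟩ := egt_neg (m' := 1) hs one_ne_zero ho hp (Nat.minFac_dvd m) hp.not_dvd_one
    rw [mul_one] at ha
    have a1 := part_FLChar (by omega) (egt_period (by omega) ha) N
    have a2 : |∑ n ∈ range N, (jacobiSym n m : ℝ)| ≤ m := by exact_mod_cast a1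
    have a3 : (m : ℝ) ≤ Z := by exact_mod_cast (by omega : m ≤ Z)
    have a4 : (Z : ℝ) ≤ (Z : ℝ) ^ 8 := le_self_pow₀ hZ1 (by norm_num)
    nlinarith
  obtain ⟨q0, ⟨c, rfl⟩, h4, h5⟩ := big_div Z m (by omega) hm hl
  have hc : 1 ≤ c := Nat.pos_of_mul_pos_left (by omega : 0 < q0 * c)
  have hq0 : q0 ≠ 0 := by omega
  have : NeZero q0 := ⟨hq0⟩
  obtain ⟨q, e1, e2⟩ := split_mod Z r (by omega) c hc
    (fun l hl' hd => hl l hl' (Dvd.dvd.mul_left hd _))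
    (le_trans (Nat.le_mul_of_pos_left _ (by omega)) hr)
  have hqc : ∀ i, q i ∣ c := fun i => e1 ▸ dvd_prod_of_mem q (mem_univ i)
  have hq : ∀ i, q i ≠ 0 := fun i h => by
    have := hqc i
    rw [h, zero_dvd_iff] at this
    omega
  have hcop : ∀ i, Nat.Coprime (q i) q0 := fun i =>
    ((Nat.coprime_of_squarefree_mul hs).symm).coprime_dvd_left (hqc i)
  have hT := ht q0 (Nat.Odd.of_mul_left ho) (hs.of_mul_left)
  have hq4 : (q0 : ℝ) ^ (-1 / 4 : ℝ) ≤ (Z : ℝ) ^ (-1 / 4 : ℝ) :=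
    Real.rpow_le_rpow_of_nonpos hZ0 (by exact_mod_cast h4.le) (by norm_num)
  have hZ4 : ((Z ^ 2 : ℕ) : ℝ) / ((Z ^ 6 : ℕ) : ℝ) ≤ (Z : ℝ) ^ (-1 / 4 : ℝ) := by
    have a1 : (Z : ℝ) ^ (-1 : ℝ) ≤ (Z : ℝ) ^ (-1 / 4 : ℝ) :=
      Real.rpow_le_rpow_of_exponent_le hZ1 (by norm_num)
    rw [Real.rpow_neg_one] at a1
    refine le_trans ?_ a1
    push_cast
    rw [div_le_iff₀ (by positivity)]
    calc (Z : ℝ) ^ 2 ≤ (Z : ℝ) ^ 5 := pow_le_pow_right₀ hZ1 (by norm_num)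
      _ = (Z : ℝ)⁻¹ * (Z : ℝ) ^ 6 := by field_simp
  have hL0 : (0 : ℝ) < (Z ^ 6 * q0 : ℕ) := by
    exact_mod_cast Nat.mul_pos (by positivity) (by omega)
  have hB : ∀ a : ℕ, |∑ n ∈ range (Z ^ 6 * q0), (jacobiSym ((a + n : ℕ) : ℤ) (q0 * c) : ℝ)| ≤
      (Z ^ 6 * q0 : ℕ) * (K * (C + 1) * (Z : ℝ) ^ (-η)) := by
    intro a
    have a1 := hv q0 (Z ^ 2) (Z ^ 6) a q (fun x => (jacobiSym x.val q0 : ℝ))
      (fun i n => (jacobiSym n (q i) : ℝ)) (Nat.one_le_pow _ _ (by omega))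
      (fun x => jac_abs_FLChar _ _) (fun i n => jac_abs_FLChar _ _)
      (fun i n => by
        rw [jacobiSym.mod_left' (a₂ := (n : ℤ)) (by push_cast; exact Int.add_emod_right _ _)])
      hcop e2
    have a2 : ∀ n : ℕ, (jacobiSym ((n : ZMod q0).val) q0 : ℝ) * ∏ i, (jacobiSym n (q i) : ℝ) =
        (jacobiSym (n : ℤ) (q0 * c) : ℝ) := fun n => by
      rw [jacobiSym.mul_right' _ hq0 (by omega), ← e1, jac_prod_FLChar _ _ hq, ZMod.val_natCast,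
        jacobiSym.mod_left' (a₂ := (n : ℤ)) (by push_cast; exact Int.emod_emod_of_dvd _ dvd_rfl)]
      push_cast
      rfl
    simp only [a2] at a1
    have a3 : (K * (C + 1) * (Z : ℝ) ^ (-η)) ^ 2 ^ r =
        (K * (C + 1)) ^ 2 ^ r * (Z : ℝ) ^ (-1 / 4 : ℝ) := by
      rw [mul_pow, ← Real.rpow_natCast ((Z : ℝ) ^ (-η)), ← Real.rpow_mul hZ0.le, hηr]
    have a4 : K * (C + 1) ≤ (K * (C + 1)) ^ 2 ^ r := le_self_pow₀ hD (by positivity)
    have a5 : (0 : ℝ) ≤ (Z : ℝ) ^ (-1 / 4 : ℝ) := by positivity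
    have a6 := mul_le_mul_of_nonneg_left hq4 (by linarith : 0 ≤ C)
    have a7 := le_of_pow_le_pow_left₀ (n := 2 ^ r) (by positivity)
      (by positivity : 0 ≤ K * (C + 1) * (Z : ℝ) ^ (-η)) (a1.trans (by
        rw [a3]
        refine le_trans ?_ (mul_le_mul_of_nonneg_right a4 a5)
        rw [mul_assoc]
        refine mul_le_mul_of_nonneg_left ?_ (by linarith)
        linarith))
    rwa [abs_div, abs_of_pos hL0, div_le_iff₀' hL0] at a7
  have hL8 : Z ^ 6 * q0 ≤ Z ^ 8 := by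
    calc Z ^ 6 * q0 ≤ Z ^ 6 * Z ^ 2 := Nat.mul_le_mul_left _ h5
      _ = Z ^ 8 := by ring
  have hL1 : 0 < Z ^ 6 * q0 := by exact_mod_cast hL0
  generalize Z ^ 6 * q0 = L at hB hL8 hL1
  have b1 := blocks_FLChar (fun n => (jacobiSym (n : ℤ) (q0 * c) : ℝ)) (fun n => jac_abs_FLChar _ _)
    L (N % L) _ hB (N / L)
  rw [Nat.mod_add_div] at b1
  have b2 : ((N % L : ℕ) : ℝ) ≤ (Z : ℝ) ^ 8 := by
    exact_mod_cast (Nat.mod_lt N hL1).le.trans hL8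
  have b3 : ((N / L : ℕ) : ℝ) * L ≤ N := by exact_mod_cast Nat.div_mul_le_self N L
  have b4 := mul_le_mul_of_nonneg_right b3
    (by positivity : 0 ≤ K * (C + 1) * (Z : ℝ) ^ (-η))
  refine b1.trans ?_
  nlinarith

end Pool.Agent.P.MP_b75a1e_co.EG
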