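import Pool.Agent.P.MP_b75a1e_co.FLCheb0

set_option autoImplicit false

open Finset
open scoped BigOperators ComplexConjugate

namespace Pool.Agent.P.MP_b75a1e_co.EG

theorem key_FLCheb {q a b a' b' a0 b0 m e : ℤ} (h0 : q ∣ a0 ^ 2 + m * b0 ^ 2)
    (hc : IsCoprime q b0) (he : e ^ 2 = 1) (h1 : q ∣ a * b0 - e * a0 * b)
    (h2 : q ∣ a' * b0 - e * a0 * b') : q ∣ (a - a') ^ 2 + m * (b - b') ^ 2 := by
  have h3 := (dvd_sub h1 h2).mul_right ((a - a') * b0 + e * a0 * (b - b'))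
  have h4 := h0.mul_right ((b - b') ^ 2)
  have h5 : b0 ^ 2 * ((a - a') ^ 2 + m * (b - b') ^ 2) =
      (a * b0 - e * a0 * b - (a' * b0 - e * a0 * b')) * ((a - a') * b0 + e * a0 * (b - b')) +
        (a0 ^ 2 + m * b0 ^ 2) * (b - b') ^ 2 := by
    linear_combination (a0 ^ 2 * (b - b') ^ 2) * he
  have h6 : q ∣ b0 ^ 2 * ((a - a') ^ 2 + m * (b - b') ^ 2) := by
    rw [h5]; exact dvd_add h3 h4
  exact (hc.pow_right (n := 2)).dvd_of_dvd_mul_left h6

theorem cell_FLCheb {x y h : ℕ} (e : x / (h + 1) = y / (h + 1)) :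
    ((x : ℤ) - y) ^ 2 ≤ (h : ℤ) ^ 2 := by
  have h1 := Nat.div_add_mod x (h + 1)
  have h2 := Nat.div_add_mod y (h + 1)
  have h3 : x % (h + 1) < h + 1 := Nat.mod_lt x (Nat.succ_pos h)
  have h4 : y % (h + 1) < h + 1 := Nat.mod_lt y (Nat.succ_pos h)
  rw [e] at h1
  generalize (h + 1) * (y / (h + 1)) = c at h1 h2
  generalize x % (h + 1) = a at h1 h3
  generalize y % (h + 1) = b at h2 h4
  refine sq_le_sq' ?_ ?_ <;> omega

theorem cp_large (m B q : ℕ) (hm : 1 ≤ m) (hB : 1 ≤ B) (hq : IsPrimePow q)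
    (hqB : q ≤ (1200 * m * B) ^ 2) :
    (((cp m B).filter fun z => q ∣ nv m z).card : ℝ) ≤ 12 * 10 ^ 6 * (m : ℝ) ^ 2 * (B : ℝ) ^ 2 / q := by
  classical
  obtain ⟨l, j, hl, hj, hqe⟩ := (isPrimePow_nat_iff q).1 hq
  have hq0 : 0 < q := hq.pos
  have hlq : l ∣ q := by rw [← hqe]; exact dvd_pow_self l hj.ne'
  have hqz : (q : ℤ) = (l : ℤ) ^ j := by rw [← hqe]; push_cast; rfl
  have hlz : Prime (l : ℤ) := Nat.prime_iff_prime_int.1 hl
  obtain ⟨S, hS⟩ : ∃ S, S = (cp m B).filter fun z => q ∣ nv m z := ⟨_, rfl⟩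
  rw [← hS]
  obtain ⟨h, hh⟩ : ∃ h, h = Nat.sqrt q / 2 := ⟨_, rfl⟩
  obtain ⟨K, hK⟩ : ∃ K, K = 421 * (m * B) / (h + 1) + 1 := ⟨_, rfl⟩
  have hmB : 1 ≤ m * B := Nat.mul_pos hm hB
  have hr1 : Nat.sqrt q * Nat.sqrt q ≤ q := Nat.sqrt_le q
  have hr2 : q < (Nat.sqrt q + 1) * (Nat.sqrt q + 1) := Nat.lt_succ_sqrt q
  have hr3 : Nat.sqrt q ≤ 1200 * (m * B) := by
    have h1 := Nat.sqrt_le_sqrt hqB
    rwa [Nat.sqrt_eq', mul_assoc] at h1
  have hh1 : 2 * h ≤ Nat.sqrt q := by omega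
  have hh2 : Nat.sqrt q + 1 ≤ 2 * (h + 1) := by omega
  have hsm : 2 * h ^ 2 < q := by nlinarith [Nat.mul_le_mul hh1 hh1]
  have hbg : q ≤ 4 * ((h + 1) * (h + 1)) := by nlinarith [Nat.mul_le_mul hh2 hh2]
  have hKt : K * (h + 1) ≤ 1022 * (m * B) := by
    have h1 := Nat.div_mul_le_self (421 * (m * B)) (h + 1)
    rw [hK, add_mul, one_mul]
    omega
  have hmem : ∀ z ∈ S, z ∈ cp m B ∧ q ∣ nv m z := fun z hz => by
    rw [hS] at hz; exact mem_filter.1 hz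
  have hdv : ∀ z ∈ S, (q : ℤ) ∣ (1 + 210 * m * z.1 : ℤ) ^ 2 + m * (210 * z.2 : ℤ) ^ 2 := fun z hz => by
    have h1 := Int.natCast_dvd_natCast.2 (hmem z hz).2
    unfold nv at h1
    push_cast at h1
    exact h1
  have hnb : ∀ z ∈ S, ¬ (l : ℤ) ∣ m * 210 ∧ ¬ (l : ℤ) ∣ (210 * z.2 : ℤ) := fun z hz => by
    obtain ⟨-, h1, h2⟩ := cp_split m B hm (hmem z hz).1 hl (hlq.trans (hmem z hz).2)
    have h3 : ¬ (l : ℤ) ∣ m * 210 := fun h4 => h1 (by rw [mul_comm]; exact_mod_cast h4)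
    refine ⟨h3, fun h4 => ?_⟩
    rcases hlz.dvd_or_dvd h4 with h5 | h5
    · exact h3 (h5.mul_left _)
    · exact h2 (by exact_mod_cast h5)
  have hna : ∀ z ∈ S, ¬ (l : ℤ) ∣ (1 + 210 * m * z.1 : ℤ) := fun z hz h1 => by
    have h3 : (l : ℤ) ∣ (q : ℤ) := by exact_mod_cast hlq
    have h4 : (l : ℤ) ∣ m * (210 * z.2 : ℤ) ^ 2 :=
      (dvd_add_right (h1.trans (dvd_pow_self _ two_ne_zero))).1 (h3.trans (hdv z hz))
    rcases hlz.dvd_or_dvd h4 with h5 | h5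
    · exact (hnb z hz).1 (h5.mul_right _)
    · exact (hnb z hz).2 (hlz.dvd_of_dvd_pow h5)
  have hcard : S.card ≤ 2 * (K * K) := by
    rcases S.eq_empty_or_nonempty with h0 | ⟨z0, hz0⟩
    · rw [h0]; exact Nat.zero_le _
    have hl2 : l ≠ 2 := fun h1 => (hnb z0 hz0).1 (by rw [h1]; exact Dvd.dvd.mul_left (by norm_num) _)
    have hcop : IsCoprime (q : ℤ) (210 * z0.2 : ℤ) := by
      rw [hqz]
      exact ((hlz.coprime_iff_not_dvd).2 (hnb z0 hz0).2).pow_left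
    have hsg : ∀ z ∈ S, (q : ℤ) ∣ (1 + 210 * m * z.1 : ℤ) * (210 * z0.2) -
        1 * (1 + 210 * m * z0.1 : ℤ) * (210 * z.2) ∨ (q : ℤ) ∣ (1 + 210 * m * z.1 : ℤ) * (210 * z0.2) -
        (-1) * (1 + 210 * m * z0.1 : ℤ) * (210 * z.2) := fun z hz => by
      have h1 : ¬ (l : ℤ) ∣ (1 + 210 * m * z.1 : ℤ) * (210 * z0.2) := fun h2 =>
        (hlz.dvd_or_dvd h2).elim (hna z hz) (hnb z0 hz0).2
      have h2 := dvd_sub ((hdv z hz).mul_right ((210 * z0.2 : ℤ) ^ 2))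
        ((hdv z0 hz0).mul_right ((210 * z.2 : ℤ) ^ 2))
      have h3 : (l : ℤ) ^ j ∣ ((1 + 210 * m * z.1 : ℤ) * (210 * z0.2)) ^ 2 -
          ((1 + 210 * m * z0.1 : ℤ) * (210 * z.2)) ^ 2 := by
        rw [← hqz]
        refine h2.trans (dvd_of_eq ?_)
        ring
      rw [hqz]
      rcases two_roots hl hl2 h1 h3 with h4 | h4
      · left; rwa [one_mul]
      · right; rwa [mul_assoc (-1 : ℤ), neg_one_mul, sub_neg_eq_add]
    let f : ℕ × ℕ → Bool × ℕ × ℕ := fun z =>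
      (decide ((q : ℤ) ∣ (1 + 210 * m * z.1 : ℤ) * (210 * z0.2) -
        1 * (1 + 210 * m * z0.1 : ℤ) * (210 * z.2)),
        (1 + 210 * m * z.1) / (h + 1), (m * (210 * z.2)) / (h + 1))
    have hf : ∀ z ∈ S, f z ∈ (univ : Finset Bool) ×ˢ (range K ×ˢ range K) := fun z hz => by
      have h1 := (mem_filter.1 (hmem z hz).1).1
      obtain ⟨h2, h3⟩ := mem_product.1 h1
      have h4 := Nat.mul_le_mul_left m (mem_Ioc.1 h2).2
      have h5 := Nat.mul_le_mul_left m (mem_Ioc.1 h3).2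
      refine mem_product.2 ⟨mem_univ _, mem_product.2 ⟨mem_range.2 ?_, mem_range.2 ?_⟩⟩
      · rw [hK]
        refine Nat.lt_succ_of_le (Nat.div_le_div_right ?_)
        show 1 + 210 * m * z.1 ≤ 421 * (m * B)
        nlinarith
      · rw [hK]
        refine Nat.lt_succ_of_le (Nat.div_le_div_right ?_)
        show m * (210 * z.2) ≤ 421 * (m * B)
        nlinarith
    have hinj : Set.InjOn f S := fun z hz z' hz' e => by
      have hz : z ∈ S := hz
      have hz' : z' ∈ S := hz'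
      have e1 := decide_eq_decide.1 (congrArg Prod.fst e)
      have e2 : (1 + 210 * m * z.1) / (h + 1) = (1 + 210 * m * z'.1) / (h + 1) :=
        congrArg (fun w => w.2.1) e
      have e3 : (m * (210 * z.2)) / (h + 1) = (m * (210 * z'.2)) / (h + 1) :=
        congrArg (fun w => w.2.2) e
      have c2 := cell_FLCheb e2
      have c3 := cell_FLCheb e3
      push_cast at c2 c3
      have hd : (q : ℤ) ∣ ((1 + 210 * m * z.1 : ℤ) - (1 + 210 * m * z'.1)) ^ 2 +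
          m * ((210 * z.2 : ℤ) - 210 * z'.2) ^ 2 := by
        rcases hsg z hz with h1 | h1
        · exact key_FLCheb (hdv z0 hz0) hcop (by norm_num) h1 (e1.1 h1)
        · rcases hsg z' hz' with h2 | h2
          · exact key_FLCheb (hdv z0 hz0) hcop (by norm_num) (e1.2 h2) h2
          · exact key_FLCheb (hdv z0 hz0) hcop (by norm_num) h1 h2
      have hm1 : (1 : ℤ) ≤ m := by exact_mod_cast hm
      have hsm' : 2 * (h : ℤ) ^ 2 < q := by exact_mod_cast hsm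
      generalize hu : (1 + 210 * m * z.1 : ℤ) - (1 + 210 * m * z'.1) = u at hd c2
      generalize hv : (210 * z.2 : ℤ) - 210 * z'.2 = v at hd
      have c4 : (m * v) ^ 2 ≤ (h : ℤ) ^ 2 := by
        rw [← hv, mul_sub]; exact c3
      have c5 : (m : ℤ) * v ^ 2 ≤ (m * v) ^ 2 := by
        have h1 : (m : ℤ) * v ^ 2 * 1 ≤ m * v ^ 2 * m :=
          mul_le_mul_of_nonneg_left hm1 (by positivity)
        nlinarith
      have c6 : 0 ≤ (m : ℤ) * v ^ 2 := by positivity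
      have c7 : u ^ 2 + m * v ^ 2 = 0 :=
        Int.eq_zero_of_dvd_of_nonneg_of_lt (by positivity) (by linarith) hd
      have c8 : u ^ 2 = 0 := by nlinarith [sq_nonneg u]
      have c9 : (m : ℤ) * v ^ 2 = 0 := by linarith
      have hu0 : u = 0 := pow_eq_zero_iff two_ne_zero |>.1 c8
      have hv0 : v = 0 := by
        rcases mul_eq_zero.1 c9 with h1 | h1
        · omega
        · exact pow_eq_zero_iff two_ne_zero |>.1 h1
      have g1 : (210 * m : ℤ) * ((z.1 : ℤ) - z'.1) = 0 := by rw [← hu0, ← hu]; ring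
      have g2 : (z.1 : ℤ) - z'.1 = 0 := (mul_eq_zero.1 g1).resolve_left (by omega)
      exact Prod.ext (by omega) (by omega)
    have h1 := card_le_card_of_injOn f hf hinj
    rwa [card_product, card_product, card_range, card_univ, Fintype.card_bool] at h1
  have hfin : S.card * q ≤ 12 * 10 ^ 6 * m ^ 2 * B ^ 2 := by
    calc S.card * q ≤ 2 * (K * K) * (4 * ((h + 1) * (h + 1))) := Nat.mul_le_mul hcard hbg
      _ = 8 * ((K * (h + 1)) * (K * (h + 1))) := by ring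
      _ ≤ 8 * ((1022 * (m * B)) * (1022 * (m * B))) := Nat.mul_le_mul_left _ (Nat.mul_le_mul hKt hKt)
      _ = 8355872 * (m ^ 2 * B ^ 2) := by ring
      _ ≤ 12 * 10 ^ 6 * (m ^ 2 * B ^ 2) := Nat.mul_le_mul_right _ (by norm_num)
      _ = 12 * 10 ^ 6 * m ^ 2 * B ^ 2 := by ring
  rw [le_div_iff₀ (by exact_mod_cast hq0)]
  exact_mod_cast hfin

end Pool.Agent.P.MP_b75a1e_co.EG
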