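import Pool.Agent.P.MP_b75a1e_co.FLDefs

set_option autoImplicit false

open Finset
open scoped BigOperators ComplexConjugate

namespace Pool.Agent.P.MP_b75a1e_co.EG

theorem mertens_vm (N : ℕ) (hN : 1 ≤ N) :
    ∑ q ∈ Icc 1 N, ArithmeticFunction.vonMangoldt q / q ≤ Real.log N + 6 := by
  have hN' : (0 : ℝ) < N := by exact_mod_cast hN
  have h1 : ∑ n ∈ Ioc 0 N, Real.log n =
      ∑ q ∈ Ioc 0 N, ArithmeticFunction.vonMangoldt q * ((N / q : ℕ) : ℝ) := by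
    have e : ∀ n ∈ Ioc 0 N, Real.log n =
        ∑ q ∈ Ioc 0 N, if q ∣ n then ArithmeticFunction.vonMangoldt q else 0 := by
      intro n hn
      rw [← ArithmeticFunction.vonMangoldt_sum, ← sum_filter]
      refine sum_congr ?_ fun _ _ => rfl
      ext q
      have := mem_Ioc.1 hn
      simp only [Nat.mem_divisors, mem_filter, mem_Ioc]
      exact ⟨fun h => ⟨⟨Nat.pos_of_dvd_of_pos h.1 this.1, (Nat.le_of_dvd this.1 h.1).trans this.2⟩,
        h.1⟩, fun h => ⟨h.2, this.1.ne'⟩⟩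
    rw [sum_congr rfl e, sum_comm]
    refine sum_congr rfl fun q _ => ?_
    rw [← sum_filter, sum_const, Nat.Ioc_filter_dvd_card_eq_div, nsmul_eq_mul, mul_comm]
  have h2 : ∑ n ∈ Ioc 0 N, Real.log n ≤ N * Real.log N := by
    have := sum_le_card_nsmul (Ioc 0 N) (fun n : ℕ => Real.log n) (Real.log N) fun n hn =>
      Real.log_le_log (by exact_mod_cast (mem_Ioc.1 hn).1) (by exact_mod_cast (mem_Ioc.1 hn).2)
    simpa using this
  have h3 : ∑ q ∈ Ioc 0 N, ArithmeticFunction.vonMangoldt q ≤ 6 * N := by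
    have h := Chebyshev.psi_le_const_mul_self hN'.le
    rw [Chebyshev.psi, Nat.floor_natCast] at h
    have h4 : Real.log 4 ≤ 2 := by
      have : Real.log 4 = 2 * Real.log 2 := by
        rw [show (4 : ℝ) = 2 ^ 2 by norm_num, Real.log_pow]; norm_num
      linarith [Real.log_two_lt_d9]
    nlinarith
  have h4 : N * ∑ q ∈ Ioc 0 N, ArithmeticFunction.vonMangoldt q / q ≤
      ∑ q ∈ Ioc 0 N, ArithmeticFunction.vonMangoldt q * ((N / q : ℕ) : ℝ) +
        ∑ q ∈ Ioc 0 N, ArithmeticFunction.vonMangoldt q := by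
    rw [mul_sum, ← sum_add_distrib]
    refine sum_le_sum fun q hq => ?_
    have hq' : (0 : ℝ) < q := by exact_mod_cast (mem_Ioc.1 hq).1
    have h5 : (N : ℝ) / q ≤ ((N / q : ℕ) : ℝ) + 1 := by
      rw [div_le_iff₀ hq']
      have := Nat.lt_mul_div_succ N (mem_Ioc.1 hq).1
      have h6 : (N : ℝ) < q * (((N / q : ℕ) : ℝ) + 1) := by exact_mod_cast this
      linarith
    calc (N : ℝ) * (ArithmeticFunction.vonMangoldt q / q)
        = ArithmeticFunction.vonMangoldt q * ((N : ℝ) / q) := by ring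
      _ ≤ ArithmeticFunction.vonMangoldt q * (((N / q : ℕ) : ℝ) + 1) :=
          mul_le_mul_of_nonneg_left h5 ArithmeticFunction.vonMangoldt_nonneg
      _ = _ := by ring
  have e : Icc 1 N = Ioc 0 N := rfl
  rw [e]
  refine le_of_mul_le_mul_left ?_ hN'
  linarith

/-- The values of the form used to produce split primes. -/
def nv (m : ℕ) (z : ℕ × ℕ) : ℕ := (1 + 210 * m * z.1) ^ 2 + m * (210 * z.2) ^ 2

/-- The coprime pairs in the box. -/
def cp (m B : ℕ) : Finset (ℕ × ℕ) :=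
  (Ioc B (2 * B) ×ˢ Ioc B (2 * B)).filter fun z => Nat.Coprime (1 + 210 * m * z.1) z.2

theorem cls_card_FLCheb0 (B q : ℕ) (hq : 1 ≤ q) (S : Finset ℕ) (hS : S ⊆ Ioc B (2 * B))
    (h : ∀ t ∈ S, ∀ t' ∈ S, (q : ℤ) ∣ (t : ℤ) - t') : (S.card : ℝ) ≤ (B : ℝ) / q + 1 := by
  have h1 : S.card ≤ (range (B / q + 1)).card := by
    refine card_le_card_of_injOn (fun t => (t - B) / q) (fun t ht => ?_) fun t ht t' ht' e => ?_
    · have := mem_Ioc.1 (hS ht)
      exact mem_coe.2 (mem_range.2 (Nat.lt_succ_of_le (Nat.div_le_div_right (by omega))))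
    · have h2 := mem_Ioc.1 (hS ht)
      have h3 := mem_Ioc.1 (hS ht')
      have h4 : (t - B) % q = (t' - B) % q := by
        refine (Nat.modEq_iff_dvd.2 ?_ : t - B ≡ t' - B [MOD q])
        rw [Nat.cast_sub h2.1.le, Nat.cast_sub h3.1.le, sub_sub_sub_cancel_right]
        exact h t' ht' t ht
      have h5 := Nat.div_add_mod (t - B) q
      have h6 := Nat.div_add_mod (t' - B) q
      have e' : (t - B) / q = (t' - B) / q := e
      rw [e', h4] at h5
      omega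
  rw [card_range] at h1
  calc (S.card : ℝ) ≤ ((B / q + 1 : ℕ) : ℝ) := by exact_mod_cast h1
    _ ≤ _ := by push_cast; linarith [Nat.cast_div_le (α := ℝ) (m := B) (n := q)]

theorem lin_FLCheb0 {M q : ℕ} (hc : Nat.Coprime q M) {t t' : ℕ}
    (h : (q : ℤ) ∣ (1 + M * t) - (1 + M * t')) : (q : ℤ) ∣ (t : ℤ) - t' := by
  refine (Nat.isCoprime_iff_coprime.2 hc).dvd_of_dvd_mul_left ?_
  rwa [show (M : ℤ) * (t - t') = (1 + M * t) - (1 + M * t') by ring]

theorem cp_card (m B : ℕ) (hB : 10 ^ 6 ≤ B) : (89 / 100 : ℝ) * (B : ℝ) ^ 2 ≤ (cp m B).card := by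
  have hB' : (10 : ℝ) ^ 6 ≤ B := by exact_mod_cast hB
  have h0 := card_filter_add_card_filter_not (s := Ioc B (2 * B) ×ˢ Ioc B (2 * B))
    fun z : ℕ × ℕ => Nat.Coprime (1 + 210 * m * z.1) z.2
  rw [card_product, Nat.card_Ioc, show 2 * B - B = B by omega] at h0
  have h1 : ((Ioc B (2 * B) ×ˢ Ioc B (2 * B)).filter
      fun z : ℕ × ℕ => ¬ Nat.Coprime (1 + 210 * m * z.1) z.2) ⊆ (Ioc 10 (2 * B)).biUnion fun l =>
        ((Ioc B (2 * B)).filter fun t => l ∣ 1 + 210 * m * t) ×ˢ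
          (Ioc B (2 * B)).filter fun t => l ∣ t := by
    intro z hz
    obtain ⟨h2, h3⟩ := mem_filter.1 hz
    obtain ⟨h4, h5⟩ := mem_product.1 h2
    obtain ⟨l, hl, h6, h7⟩ := Nat.Prime.not_coprime_iff_dvd.1 h3
    refine mem_biUnion.2 ⟨l, mem_Ioc.2 ⟨?_, ?_⟩,
      mem_product.2 ⟨mem_filter.2 ⟨h4, h6⟩, mem_filter.2 ⟨h5, h7⟩⟩⟩
    · by_contra hn
      have h8 : l ∣ 210 := by
        have := hl.two_le
        have h9 : l ≤ 10 := by omega
        interval_cases l <;> first | decide | exact absurd hl (by decide)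
      exact hl.one_lt.ne' (Nat.dvd_one.1
        ((Nat.dvd_add_left ((h8.mul_right m).mul_right z.1)).1 h6))
    · have := mem_Ioc.1 h5
      exact (Nat.le_of_dvd (by omega) h7).trans this.2
  have h2 : ∀ l ∈ Ioc 10 (2 * B), (((((Ioc B (2 * B)).filter fun t => l ∣ 1 + 210 * m * t) ×ˢ
      (Ioc B (2 * B)).filter fun t => l ∣ t).card : ℕ) : ℝ) ≤
        21 / 20 * (B : ℝ) ^ 2 * ((l : ℝ) ^ 2)⁻¹ + 21 := by
    intro l hl
    have hl' : 1 ≤ l := by have := mem_Ioc.1 hl; omega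
    have a1 := cls_card_FLCheb0 B l hl' _ (filter_subset (fun t => l ∣ 1 + 210 * m * t) _)
      fun t ht t' ht' => by
        have b1 := (mem_filter.1 ht).2
        have b2 := (mem_filter.1 ht').2
        have b3 : Nat.Coprime l (210 * m) := Nat.dvd_one.1 ((Nat.dvd_add_left
          ((Nat.gcd_dvd_right l (210 * m)).mul_right t)).1 ((Nat.gcd_dvd_left _ _).trans b1))
        exact lin_FLCheb0 b3 (dvd_sub (by exact_mod_cast b1) (by exact_mod_cast b2))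
    have a2 := cls_card_FLCheb0 B l hl' _ (filter_subset (fun t => l ∣ t) _) fun t ht t' ht' =>
      dvd_sub (by exact_mod_cast (mem_filter.1 ht).2) (by exact_mod_cast (mem_filter.1 ht').2)
    rw [card_product, Nat.cast_mul]
    refine (mul_le_mul a1 a2 (Nat.cast_nonneg _) (by positivity)).trans ?_
    have e : 21 / 20 * (B : ℝ) ^ 2 * ((l : ℝ) ^ 2)⁻¹ = 21 / 20 * ((B : ℝ) / l) ^ 2 := by
      rw [div_pow]; ring
    rw [e]
    nlinarith [sq_nonneg ((B : ℝ) / l - 20)]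
  have h3 : ∑ l ∈ Ioc 10 (2 * B), ((l : ℝ) ^ 2)⁻¹ ≤ 1 / 10 := by
    have := sum_Ioc_inv_sq_le_sub (α := ℝ) (k := 10) (n := 2 * B) (by norm_num) (by omega)
    have h4 : (0 : ℝ) ≤ ((2 * B : ℕ) : ℝ)⁻¹ := by positivity
    have h5 : ((10 : ℕ) : ℝ)⁻¹ = 1 / 10 := by norm_num
    linarith
  have h4 : ((((Ioc B (2 * B) ×ˢ Ioc B (2 * B)).filter
      fun z : ℕ × ℕ => ¬ Nat.Coprime (1 + 210 * m * z.1) z.2).card : ℕ) : ℝ) ≤
        21 / 20 * (B : ℝ) ^ 2 * (1 / 10) + 21 * (2 * B) := by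
    refine le_trans (Nat.cast_le.2 ((card_le_card h1).trans card_biUnion_le)) ?_
    rw [Nat.cast_sum]
    refine (sum_le_sum h2).trans ?_
    rw [sum_add_distrib, ← mul_sum, sum_const, Nat.card_Ioc, nsmul_eq_mul]
    have h5 : ((2 * B - 10 : ℕ) : ℝ) ≤ 2 * B := by exact_mod_cast Nat.sub_le _ _
    have h6 := mul_le_mul_of_nonneg_left h3 (show 0 ≤ 21 / 20 * (B : ℝ) ^ 2 by positivity)
    linarith
  have h5 := congrArg (Nat.cast : ℕ → ℝ) h0
  rw [Nat.cast_add, Nat.cast_mul] at h5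
  unfold cp
  nlinarith

theorem cp_split (m B : ℕ) (hm : 1 ≤ m) {z : ℕ × ℕ} (hz : z ∈ cp m B) {l : ℕ} (hl : l.Prime)
    (h : l ∣ nv m z) : Split m l ∧ ¬ l ∣ 210 * m ∧ ¬ l ∣ z.2 := by
  have h1 : ¬ l ∣ 210 * m := fun h1 => by
    have e : nv m z = 1 + 210 * m * (2 * z.1 + 210 * m * z.1 ^ 2 + 210 * z.2 ^ 2) := by
      unfold nv; ring
    rw [e] at h
    exact hl.one_lt.ne' (Nat.dvd_one.1 ((Nat.dvd_add_left (h1.mul_right _)).1 h))
  have h2 : ¬ l ∣ z.2 := fun h2 => by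
    have h3 : l ∣ m * (210 * z.2) ^ 2 := (dvd_pow (h2.mul_left 210) two_ne_zero).mul_left m
    have h4 := hl.dvd_of_dvd_pow ((Nat.dvd_add_left h3).1 h)
    exact hl.one_lt.ne' (Nat.eq_one_of_dvd_coprimes (mem_filter.1 hz).2 h4 h2)
  refine ⟨⟨hl, fun h3 => h1 (h3.trans ⟨105, by ring⟩), ?_⟩, h1, h2⟩
  have h3 : ¬ l ∣ 210 * z.2 := fun h3 =>
    (hl.dvd_mul.1 h3).elim (fun h4 => h1 (h4.mul_right m)) h2
  obtain ⟨v, u, e⟩ := Nat.isCoprime_iff_coprime.2 (hl.coprime_iff_not_dvd.2 h3)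
  have h4 : (l : ℤ) ∣ ((nv m z : ℕ) : ℤ) := Int.natCast_dvd_natCast.2 h
  refine ⟨(1 + 210 * m * z.1) * u, ?_⟩
  have e' : ((1 + 210 * m * z.1) * u : ℤ) ^ 2 + m = u ^ 2 * ((nv m z : ℕ) : ℤ) +
      l * (m * v * (1 + u * ((210 * z.2 : ℕ) : ℤ))) := by
    unfold nv
    push_cast at e ⊢
    linear_combination (-(m : ℤ)) * (1 + u * (210 * z.2)) * e
  rw [e']
  exact dvd_add (h4.mul_left _) (dvd_mul_right _ _)

theorem two_roots {l j : ℕ} (hl : l.Prime) (h2 : l ≠ 2) {x x' : ℤ} (hx : ¬ (l : ℤ) ∣ x)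
    (h : ((l : ℤ) ^ j) ∣ x ^ 2 - x' ^ 2) : ((l : ℤ) ^ j) ∣ x - x' ∨ ((l : ℤ) ^ j) ∣ x + x' := by
  have hp : Prime (l : ℤ) := Nat.prime_iff_prime_int.1 hl
  rw [sq_sub_sq] at h
  by_cases h1 : (l : ℤ) ∣ x + x'
  · have h3 : ¬ (l : ℤ) ∣ x - x' := fun h3 => by
      have h4 : (l : ℤ) ∣ 2 * x := by
        rw [show 2 * x = (x + x') + (x - x') by ring]; exact dvd_add h1 h3
      rcases hp.dvd_mul.1 h4 with h5 | h5
      · exact h2 ((Nat.prime_dvd_prime_iff_eq hl Nat.prime_two).1 (by exact_mod_cast h5))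
      · exact hx h5
    exact Or.inr (hp.pow_dvd_of_dvd_mul_right j h3 h)
  · exact Or.inl (hp.pow_dvd_of_dvd_mul_left j h1 h)

theorem cp_small (m B q : ℕ) (hm : 1 ≤ m) (hq : IsPrimePow q) :
    (((cp m B).filter fun z => q ∣ nv m z).card : ℝ) ≤ B * (2 * ((B : ℝ) / q + 1)) := by
  obtain ⟨l, j, hl, hj, rfl⟩ := (isPrimePow_nat_iff q).1 hq
  have hq1 : 1 ≤ l ^ j := Nat.pow_pos hl.pos
  have key : ∀ b ∈ Ioc B (2 * B), (((((cp m B).filter fun z => l ^ j ∣ nv m z).filter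
      fun z => z.2 = b).card : ℕ) : ℝ) ≤ 2 * ((B : ℝ) / (l ^ j : ℕ) + 1) := by
    intro b _
    rcases (((cp m B).filter fun z => l ^ j ∣ nv m z).filter
      fun z => z.2 = b).eq_empty_or_nonempty with e | ⟨z0, hz0⟩
    · rw [e, card_empty, Nat.cast_zero]; positivity
    obtain ⟨h1, h2⟩ := mem_filter.1 hz0
    obtain ⟨h3, h4⟩ := mem_filter.1 h1
    have h5 : l ∣ nv m z0 := (dvd_pow_self l hj.ne').trans h4
    obtain ⟨-, h6, h7⟩ := cp_split m B hm h3 hl h5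
    have hc : Nat.Coprime (l ^ j) (210 * m) := (hl.coprime_iff_not_dvd.2 h6).pow_left j
    have h8 : ¬ (l : ℤ) ∣ 1 + (210 * m : ℕ) * (z0.1 : ℤ) := fun h8 => by
      have h9 : l ∣ 1 + 210 * m * z0.1 := by exact_mod_cast h8
      have h10 := (Nat.dvd_add_right (dvd_pow h9 two_ne_zero)).1 h5
      rcases hl.dvd_mul.1 h10 with g | g
      · exact h6 (g.mul_left _)
      · exact (hl.dvd_mul.1 (hl.dvd_of_dvd_pow g)).elim (fun g => h6 (g.mul_right m)) h7
    have a1 := cls_card_FLCheb0 B _ hq1 _ (filter_subset (fun t : ℕ => ((l ^ j : ℕ) : ℤ) ∣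
      (1 + (210 * m : ℕ) * (z0.1 : ℤ)) - (1 + (210 * m : ℕ) * (t : ℤ))) (Ioc B (2 * B)))
      fun t ht t' ht' => lin_FLCheb0 hc (by
        have := dvd_sub (mem_filter.1 ht').2 (mem_filter.1 ht).2
        rwa [sub_sub_sub_cancel_left] at this)
    have a2 := cls_card_FLCheb0 B _ hq1 _ (filter_subset (fun t : ℕ => ((l ^ j : ℕ) : ℤ) ∣
      (1 + (210 * m : ℕ) * (z0.1 : ℤ)) + (1 + (210 * m : ℕ) * (t : ℤ))) (Ioc B (2 * B)))
      fun t ht t' ht' => lin_FLCheb0 hc (by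
        have := dvd_sub (mem_filter.1 ht).2 (mem_filter.1 ht').2
        rwa [add_sub_add_left_eq_sub] at this)
    rw [two_mul]
    refine le_trans ?_ (add_le_add a1 a2)
    rw [← Nat.cast_add]
    refine Nat.cast_le.2 (le_trans (card_le_card_of_injOn Prod.fst (fun z hz => ?_)
      fun z hz z' hz' e => ?_) (card_union_le _ _))
    · obtain ⟨g1, g2⟩ := mem_filter.1 (mem_coe.1 hz)
      obtain ⟨g3, g4⟩ := mem_filter.1 g1
      have g5 := (mem_product.1 (mem_filter.1 g3).1).1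
      have g6 : ((l : ℤ) ^ j) ∣ (1 + (210 * m : ℕ) * (z0.1 : ℤ)) ^ 2 -
          (1 + (210 * m : ℕ) * (z.1 : ℤ)) ^ 2 := by
        have := dvd_sub (Int.natCast_dvd_natCast.2 h4) (Int.natCast_dvd_natCast.2 g4)
        unfold nv at this
        rw [h2, g2] at this
        push_cast at this ⊢
        rwa [add_sub_add_right_eq_sub] at this
      refine mem_coe.2 (mem_union.2 ((two_roots hl (fun e => h6 (e ▸ ⟨105 * m, by ring⟩)) h8
        g6).imp (fun g => mem_filter.2 ⟨g5, ?_⟩) fun g => mem_filter.2 ⟨g5, ?_⟩))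
      · exact_mod_cast g
      · exact_mod_cast g
    · exact Prod.ext e ((mem_filter.1 (mem_coe.1 hz)).2.trans
        (mem_filter.1 (mem_coe.1 hz')).2.symm)
  rw [card_eq_sum_card_fiberwise (s := (cp m B).filter fun z => l ^ j ∣ nv m z) (f := Prod.snd)
    (t := Ioc B (2 * B)) fun z hz =>
    mem_coe.2 (mem_product.1 (mem_filter.1 (mem_filter.1 (mem_coe.1 hz)).1).1).2, Nat.cast_sum]
  refine (sum_le_card_nsmul _ _ _ key).trans (le_of_eq ?_)
  rw [Nat.card_Ioc, show 2 * B - B = B by omega, nsmul_eq_mul]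

end Pool.Agent.P.MP_b75a1e_co.EG
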