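import Pool.Agent.P.MP_b75a1e_co.EGEnd
import Pool.Agent.P.MP_b75a1e_co.FLBase

set_option autoImplicit false

open Finset
open scoped BigOperators ComplexConjugate

namespace Pool.Agent.P.MP_b75a1e_co.EG

lemma dev_FLEnd {m n : ℕ} {G2 A : O m} (h : Rep m G2.norm n (ph m A)) :
    ‖ph m (A - (n : O m) * G2)‖ ≤ 2 * n * ‖ph m G2‖ := by
  have h1 := h.norm_le
  rw [nsqrt_EGEnd] at h1
  have h2 := nsub_EGEnd A ((n : O m) * G2)
  rw [nnat_EGEnd] at h2
  linarith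

lemma pair_sum_FLEnd {m : ℕ} (g G2 A A' : O m) (n : ℕ) (N : ℤ) (hN : g.norm * G2.norm = N)
    (h : Rep m G2.norm n (ph m A)) (h' : Rep m G2.norm n (ph m A')) :
    Rep m N (n + n) (ph m (g * A + star (g * A'))) := by
  have a := h.mul_left g
  have b := (h'.mul_left g).conj
  have hN' : (g.norm : ℝ) * G2.norm = N := by exact_mod_cast hN
  rw [hN', ← map_mul] at a b
  rw [← ph_star] at b
  rw [map_add]
  exact a.add b

open Classical in
/-- From the families of summands to a closed walk. -/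
theorem endgame_FLEnd (m p Y Q Mg n1 n2 Nf : ℕ) (H NN0 ε : ℝ) {Ω Ω' : Type} [Fintype Ω] [Fintype Ω']
    [Nonempty Ω] [Nonempty Ω'] (zg G2 S : O m) (A A' : Ω → O m) (B B' : Ω' → O m) (W : ℕ → ℝ)
    (hm : 1 ≤ m) (hp1 : 1 ≤ p) (hQ : 1 ≤ Q) (hQm : Nat.Coprime Q m) (hQM : Q ∣ Mg) (hH : 1 ≤ H)
    (hM1 : 8 * p * Real.sqrt NN0 ≤ Mg) (hM2 : (Mg : ℝ) ≤ 9 * p * Real.sqrt NN0)
    (hN : (100 * Q * p * H) ^ 2 ≤ NN0) (hε0 : 0 ≤ ε)
    (hε : 10 * p * ε * (Q : ℝ) ^ 2 * (p : ℝ) ^ 2 * H ^ 5 ≤ 1 / 10 ^ 9)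
    (hp : 4 * (n1 + n2) + Nf = p) (hNN : ((star zg * G2).norm : ℝ) ≤ 2 * NN0)
    (hg1 : (Q : O m) ∣ zg + star zg) (hg2 : (m : O m) ^ 2 ∣ zg - 1)
    (hg3 : ‖ph m (zg + star zg)‖ ≤ ε * ‖ph m zg‖)
    (hA : ∀ ω, Rep m G2.norm n1 (ph m (A ω)) ∧ mu m ∣ A ω - (n1 : O m) * G2)
    (hA' : ∀ ω, Rep m G2.norm n1 (ph m (A' ω)) ∧ mu m ∣ A' ω - (n1 : O m) * G2)
    (hB : ∀ ω, SumOf G2.norm n2 (B ω) ∧ (Q : O m) * mu m ∣ B ω - (n2 : O m) * G2 ∧
      ‖ph m (B ω - (n2 : O m) * G2)‖ ≤ n2 * ε * ‖ph m G2‖)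
    (hB' : ∀ ω, SumOf G2.norm n2 (B' ω) ∧ (Q : O m) * mu m ∣ B' ω - (n2 : O m) * G2 ∧
      ‖ph m (B' ω - (n2 : O m) * G2)‖ ≤ n2 * ε * ‖ph m G2‖)
    (hS : Rep m (star zg * G2).norm Nf (ph m S) ∧ (Q : O m) ∣ S ∧
      mu m ∣ S + ((4 * (n1 + n2 : ℕ) * (star zg * G2).re : ℤ) : O m) ∧
      ‖ph m S‖ ≤ p * ε * ‖ph m (star zg * G2)‖)
    (h1 : ∑ n ∈ (grid Mg).filter (fun n => ¬ Low m (gp m Mg n) H NN0),
      ‖ch (fun ω => star zg * A ω + star (star zg * A' ω)) (gp m Mg n / ph m (mu m))‖ ≤ 1 / 10)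
    (h2 : ∑ n ∈ (grid Mg).filter
      (fun n => ∃ (β : O m) (d : ℕ), Near m (gp m Mg n) β d H NN0 ∧ Deep Y Q d),
      ‖ch (fun ω => star zg * A ω + star (star zg * A' ω)) (gp m Mg n / ph m (mu m))‖ ≤ 1 / 10)
    (h3 : ∀ (d : ℕ) (β : O m), 1 < d → (d : ℝ) ≤ H → Rough Y d → PrimAt β d →
      ‖ch (fun ω => dv (star zg * B ω + star (star zg * B' ω) -
        (n2 : O m) * (star zg * G2 + star (star zg * G2)))) (ph m β / d)‖ ≤ W d)
    (hW0 : ∀ d, 0 ≤ W d)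
    (h4 : ∑ d ∈ (Icc 2 ⌊H⌋₊).filter (Rough Y), (d : ℝ) ^ 2 * W d ≤ 1 / 100) :
    Rep m (star zg * G2).norm p 0 := by
  have hnz : (star zg).norm = zg.norm := Zsqrtd.norm_conj zg
  have hN1 : (star zg).norm * G2.norm = (star zg * G2).norm := (Zsqrtd.norm_mul _ _).symm
  have hN2 : zg.norm * G2.norm = (star zg * G2).norm := by rw [← hN1, hnz]
  set s := Real.sqrt NN0 with hs
  have hs0 : 0 ≤ s := Real.sqrt_nonneg _
  have hNN0 : 0 ≤ NN0 := le_trans (sq_nonneg _) hN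
  set a := ‖ph m zg‖ with ha
  set b := ‖ph m G2‖ with hb
  have a0 : 0 ≤ a := norm_nonneg _
  have b0 : 0 ≤ b := norm_nonneg _
  have hsa : ‖ph m (star zg)‖ = a := nstar_EGEnd zg
  have hG : ‖ph m (star zg * G2)‖ = a * b := by rw [nmul_EGEnd, hsa]
  have hab : a * b ≤ 2 * s := by
    have e1 : (a * b) ^ 2 ≤ (2 * s) ^ 2 := by
      have e2 : s ^ 2 = NN0 := Real.sq_sqrt hNN0
      rw [← hG, norm_sq_ph, mul_pow, e2]
      linarith
    exact (sq_le_sq₀ (mul_nonneg a0 b0) (by positivity)).1 e1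
  have ab0 : 0 ≤ a * b := mul_nonneg a0 b0
  have hn1 : (4 : ℝ) * n1 ≤ p := by exact_mod_cast (show 4 * n1 ≤ p by omega)
  have hn2 : (4 : ℝ) * n2 ≤ p := by exact_mod_cast (show 4 * n2 ≤ p by omega)
  have hn : (4 : ℝ) * (n1 + n2 : ℕ) ≤ p := by exact_mod_cast (show 4 * (n1 + n2) ≤ p by omega)
  have p0 : (0 : ℝ) ≤ p := Nat.cast_nonneg _
  have pe : 0 ≤ (p : ℝ) * ε := mul_nonneg p0 hε0
  have key : (p : ℝ) * ε * (a * b) ≤ p * ε * (2 * s) := mul_le_mul_of_nonneg_left hab pe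
  have pes : 0 ≤ (p : ℝ) * ε * s := mul_nonneg pe hs0
  choose x hx using fun ω => (hA ω).2
  choose x' hx' using fun ω => (hA' ω).2
  choose y hy using fun ω => (hB ω).2.1
  choose y' hy' using fun ω => (hB' ω).2.1
  have eX := fun ω => pair_mu_EGEnd (star zg) G2 (A ω) (A' ω) (x ω) (x' ω) n1 (hx ω) (hx' ω)
  have eXt := fun ω => pair_mu_EGEnd zg G2 (A ω) (A' ω) (x ω) (x' ω) n1 (hx ω) (hx' ω)
  have eZ := fun ω => pair_mu_EGEnd (star zg) G2 (B ω) (B' ω) ((Q : O m) * y ω) ((Q : O m) * y' ω) n2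
    (by rw [hy ω]; ring) (by rw [hy' ω]; ring)
  have hT : mu m ∣ ((n1 + n2 : ℕ) : O m) * ((zg + star zg) * (G2 + star G2)) + S := by
    have d1 : (m : O m) ^ 2 ∣ star zg - 1 := by
      have := dvd_star hg2
      simpa using this
    have d2 : mu m ∣ zg - star zg := by
      have := dvd_sub hg2 d1
      rw [show zg - 1 - (star zg - 1) = zg - star zg by ring] at this
      exact mu_dvd_sq.trans this
    have e : ((n1 + n2 : ℕ) : O m) * ((zg + star zg) * (G2 + star G2)) + S =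
        (S + ((4 * (n1 + n2 : ℕ) * (star zg * G2).re : ℤ) : O m)) +
          (zg - star zg) * (((n1 + n2 : ℕ) : O m) * (G2 - star G2)) := by
      have e1 : ((4 * (n1 + n2 : ℕ) * (star zg * G2).re : ℤ) : O m) =
          2 * ((n1 + n2 : ℕ) : O m) * ((2 * (star zg * G2).re : ℤ) : O m) := by
        push_cast
        ring
      rw [e1, two_re_EGEnd]
      simp only [star_mul', star_star]
      ring
    rw [e]
    exact dvd_add hS.2.2.1 (Dvd.dvd.mul_right d2 _)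
  obtain ⟨t, ht⟩ := hT
  have hQt : (Q : O m) ∣ t := by
    have c1 : IsCoprime (Q : O m) (m : O m) := hQm.cast
    have c2 : IsCoprime (Q : O m) (mu m) := (c1.pow_right (n := 2)).of_isCoprime_of_dvd_right mu_dvd_sq
    refine c2.dvd_of_dvd_mul_left ?_
    rw [← ht]
    exact dvd_add (Dvd.dvd.mul_left (Dvd.dvd.mul_right hg1 _) _) hS.2.1
  have main := circle m p Y Q Mg H NN0 (10 * p * ε)
    (fun ω => dv (star zg * A ω + star (star zg * A' ω) -
      (n1 : O m) * (star zg * G2 + star (star zg * G2))))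
    (fun ω => dv (zg * A ω + star (zg * A' ω) - (n1 : O m) * (zg * G2 + star (zg * G2))))
    (fun ω => dv (star zg * B ω + star (star zg * B' ω) -
      (n2 : O m) * (star zg * G2 + star (star zg * G2))))
    (-t) W hm hp1 hQ hQM hH hM1 hM2 hN (by positivity) hε ?_ ?_ ?_ ?_ ?_ ?_ h3 hW0 h4
  · obtain ⟨ω, ω', ω'', hE⟩ := main
    rw [eX, eXt, eZ, dv_mu_EGEnd hm, dv_mu_EGEnd hm, dv_mu_EGEnd hm] at hE
    have s1 := pair_sum_FLEnd (star zg) G2 (A ω) (A' ω) n1 _ hN1 (hA ω).1 (hA' ω).1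
    have s2 := pair_sum_FLEnd zg G2 (A ω') (A' ω') n1 _ hN2 (hA ω').1 (hA' ω').1
    have s3 := pair_sum_EGEnd (star zg) G2 (B ω'') (B' ω'') n2 _ hN1 (hB ω'').1 (hB' ω'').1
    have s0 : SumOf G2.norm n2 ((n2 : O m) * G2) := SumOf.smul rfl n2
    have s4 := pair_sum_EGEnd zg G2 _ _ n2 _ hN2 s0 s0
    have r := (((s1.add s2).add s3.rep).add s4.rep).add hS.1
    rw [show n1 + n1 + (n1 + n1) + (n2 + n2) + (n2 + n2) + Nf = p by omega, ← map_add, ← map_add,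
      ← map_add, ← map_add] at r
    have z : star zg * A ω + star (star zg * A' ω) + (zg * A ω' + star (zg * A' ω')) +
        (star zg * B ω'' + star (star zg * B' ω'')) +
        (zg * ((n2 : O m) * G2) + star (zg * ((n2 : O m) * G2))) + S = 0 := by
      have f1 := eX ω
      have f2 := eXt ω'
      have f3 := eZ ω''
      simp only [star_mul', star_star, star_natCast] at f1 f2 f3 hE ⊢
      push_cast at ht
      linear_combination f1 + f2 + f3 + ht + mu m * hE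
    rw [z, map_zero] at r
    exact r
  · intro ω
    have u := pair_norm_EGEnd (star zg) _ _ _ (dev_FLEnd (hA ω).1) (dev_FLEnd (hA' ω).1)
    rw [← pair_eq_EGEnd, eX, hsa] at u
    rw [eX, dv_mu_EGEnd hm]
    have v := (nle_mu_EGEnd hm _).trans u
    have w1 := mul_le_mul_of_nonneg_right hn1 ab0
    have w2 := mul_le_mul_of_nonneg_left hab p0
    linarith
  · intro ω
    rw [eX, eXt, dv_mu_EGEnd hm, dv_mu_EGEnd hm]
    have e : star zg * x ω - star (star zg * x' ω) + (zg * x ω - star (zg * x' ω)) =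
        (zg + star zg) * (x ω - star (x' ω)) := by
      simp only [star_mul', star_star]
      ring
    refine ⟨by rw [e]; exact Dvd.dvd.mul_right hg1 _, ?_⟩
    have u := pair_norm_EGEnd (zg + star zg) _ _ _ (dev_FLEnd (hA ω).1) (dev_FLEnd (hA' ω).1)
    have e2 : (zg + star zg) * (A ω - (n1 : O m) * G2) +
        star ((zg + star zg) * (A' ω - (n1 : O m) * G2)) =
        mu m * (star zg * x ω - star (star zg * x' ω) + (zg * x ω - star (zg * x' ω))) := by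
      rw [hx, hx']
      simp only [star_mul', star_star, star_add, star_mu]
      ring
    rw [e2] at u
    have v := (nle_mu_EGEnd hm _).trans u
    have w0 : ‖ph m (zg + star zg)‖ * (2 * n1 * b) ≤ ε * a * (2 * n1 * b) :=
      mul_le_mul_of_nonneg_right hg3 (by positivity)
    have w1 := mul_le_mul_of_nonneg_right hn1 (mul_nonneg hε0 ab0)
    linarith
  · intro ω
    have u := pair_norm_EGEnd (star zg) _ _ _ (hB ω).2.2 (hB' ω).2.2
    rw [← pair_eq_EGEnd, eZ, hsa] at u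
    rw [eZ, dv_mu_EGEnd hm]
    refine ⟨?_, ?_⟩
    · refine ⟨star zg * y ω - star (star zg * y' ω), ?_⟩
      simp only [star_mul', star_star, star_natCast]
      ring
    · have v := (nle_mu_EGEnd hm _).trans u
      have w1 := mul_le_mul_of_nonneg_right hn2 (mul_nonneg hε0 ab0)
      linarith
  · refine ⟨(dvd_neg).2 hQt, ?_⟩
    rw [map_neg, norm_neg]
    have v := nle_mu_EGEnd hm t
    rw [← ht] at v
    have u := nadd_EGEnd (((n1 + n2 : ℕ) : O m) * ((zg + star zg) * (G2 + star G2))) S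
    rw [nnat_EGEnd, nmul_EGEnd] at u
    have g := nadd_EGEnd G2 (star G2)
    rw [nstar_EGEnd] at g
    have w0 : ‖ph m (zg + star zg)‖ * ‖ph m (G2 + star G2)‖ ≤ ε * a * (b + b) :=
      mul_le_mul hg3 g (norm_nonneg _) (mul_nonneg hε0 a0)
    have w2 := mul_le_mul_of_nonneg_left w0 (Nat.cast_nonneg (α := ℝ) (n1 + n2))
    have w1 := mul_le_mul_of_nonneg_right hn (mul_nonneg hε0 ab0)
    have w3 := hS.2.2.2
    rw [hG] at w3
    linarith
  · refine le_of_eq_of_le (Finset.sum_congr rfl fun n _ => ?_) h1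
    exact norm_ch_dv hm (fun ω => star zg * A ω + star (star zg * A' ω)) _
      (fun ω => ⟨_, eX ω⟩) _
  · refine le_of_eq_of_le (Finset.sum_congr rfl fun n _ => ?_) h2
    exact norm_ch_dv hm (fun ω => star zg * A ω + star (star zg * A' ω)) _
      (fun ω => ⟨_, eX ω⟩) _

end Pool.Agent.P.MP_b75a1e_co.EG
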