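import Pool.Agent.P.MP_b75a1e_co.FLDefs
import Pool.Agent.P.MP_b75a1e_co.EGBox

set_option autoImplicit false

open Finset
open scoped BigOperators ComplexConjugate

namespace Pool.Agent.P.MP_b75a1e_co.EG

theorem pairs_FLFam {β : Type} [DecidableEq β] (P : Finset ℕ) (T : Finset β) (cl : ℕ → β)
    (h : ∀ l ∈ P, cl l ∈ T) :
    P.card ^ 2 ≤ T.card *
      (((P ×ˢ P).filter fun q => q.1 ≠ q.2 ∧ cl q.1 = cl q.2).card + P.card) := by
  have h1 : P.card = ∑ t ∈ T, (P.filter fun l => cl l = t).card :=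
    card_eq_sum_card_fiberwise h
  have h2 : ((P ×ˢ P).filter fun q => cl q.1 = cl q.2).card
      = ∑ t ∈ T, (P.filter fun l => cl l = t).card ^ 2 := by
    rw [card_eq_sum_card_fiberwise (f := fun q : ℕ × ℕ => cl q.1) (t := T)]
    · refine sum_congr rfl fun t _ => ?_
      rw [sq, ← card_product]
      congr 1
      ext q
      simp only [mem_filter, mem_product]
      constructor
      · rintro ⟨⟨⟨a, b⟩, c⟩, d⟩
        exact ⟨⟨a, d⟩, b, c ▸ d⟩
      · rintro ⟨⟨a, b⟩, c, d⟩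
        exact ⟨⟨⟨a, c⟩, b.trans d.symm⟩, b⟩
    · intro q hq
      exact h _ (mem_product.1 (mem_filter.1 hq).1).1
  have h3 : ((P ×ˢ P).filter fun q => cl q.1 = cl q.2).card ≤
      ((P ×ˢ P).filter fun q => q.1 ≠ q.2 ∧ cl q.1 = cl q.2).card + P.card := by
    calc ((P ×ˢ P).filter fun q => cl q.1 = cl q.2).card
        ≤ (((P ×ˢ P).filter fun q => q.1 ≠ q.2 ∧ cl q.1 = cl q.2) ∪
            P.image fun l => (l, l)).card := by
          refine card_le_card fun q hq => ?_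
          obtain ⟨hq1, hq2⟩ := mem_filter.1 hq
          by_cases he : q.1 = q.2
          · exact mem_union_right _ (mem_image.2 ⟨q.1, (mem_product.1 hq1).1, Prod.ext rfl he⟩)
          · exact mem_union_left _ (mem_filter.2 ⟨hq1, he, hq2⟩)
      _ ≤ _ := (card_union_le _ _).trans (Nat.add_le_add_left card_image_le _)
  calc P.card ^ 2 = (∑ t ∈ T, (P.filter fun l => cl l = t).card) ^ 2 := by rw [← h1]
    _ ≤ T.card * ∑ t ∈ T, (P.filter fun l => cl l = t).card ^ 2 := sq_sum_le_card_mul_sum_sq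
    _ ≤ _ := by
      rw [← h2]
      exact Nat.mul_le_mul_left _ h3

theorem polar_FLFam (a b : ℂ) :
    (a * conj b).re = ‖a‖ * ‖b‖ * Real.cos (a.arg - b.arg) ∧
      (a * conj b).im = ‖a‖ * ‖b‖ * Real.sin (a.arg - b.arg) := by
  have a1 := Complex.norm_mul_cos_arg a
  have a2 := Complex.norm_mul_sin_arg a
  have b1 := Complex.norm_mul_cos_arg b
  have b2 := Complex.norm_mul_sin_arg b
  rw [Real.cos_sub, Real.sin_sub, Complex.mul_re, Complex.mul_im, Complex.conj_re, Complex.conj_im]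
  constructor
  · rw [← a1, ← a2, ← b1, ← b2]
    ring
  · rw [← a1, ← a2, ← b1, ← b2]
    ring

theorem pair_FLFam {m : ℕ} (hm : 1 ≤ m) (y J c l l' : ℕ) (w w' : O m) (hc : 1 ≤ c)
    (hw : w.norm = c * l) (hw' : w'.norm = c * l') (hl : y < l) (hl' : y < l') (hl2 : l ≤ 2 * y)
    (hl2' : l' ≤ 2 * y) (hre : (c * m : ℤ) ∣ w.re - w'.re) (him : (c * m : ℤ) ∣ w.im - w'.im)
    (th : ℝ) (hth : th ≤ 1) (hth2 : 2 * y * th ≤ m * J)
    (harg : |(ph m w).arg - (ph m w').arg| ≤ th) :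
    ∃ δ : O m, InBox m y J δ ∧ δ.norm = l * l' := by
  obtain ⟨t1, ht1⟩ := hre
  obtain ⟨t2, ht2⟩ := him
  set t : O m := ⟨t1, t2⟩ with ht
  have hsub : w = w' + (c : O m) * (m : O m) * t := by
    ext
    · simp [ht]
      linarith
    · simp [ht]
      linarith
  set δ : O m := (l' : O m) + (m : O m) * (t * star w') with hδ
  have hcδ : (c : O m) * δ = w * star w' := by
    have h1 := mul_star_EGBox w'
    rw [hw'] at h1
    push_cast at h1
    rw [hδ]
    linear_combination (-(star w')) * hsub - h1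
  have hc0 : (0 : ℤ) < c := by exact_mod_cast hc
  have hn : δ.norm = l * l' := by
    have h1 := congrArg Zsqrtd.norm hcδ
    rw [Zsqrtd.norm_mul, Zsqrtd.norm_mul, Zsqrtd.norm_conj, Zsqrtd.norm_natCast, hw, hw'] at h1
    have h2 : (c : ℤ) * c ≠ 0 := by positivity
    refine mul_left_cancel₀ h2 ?_
    rw [h1]
    ring
  refine ⟨δ, ?_, hn⟩
  have hcr : (0 : ℝ) < c := by exact_mod_cast hc
  obtain ⟨p1, p2⟩ := polar_FLFam (ph m w) (ph m w')
  have hph : ph m w * conj (ph m w') = (c : ℂ) * ph m δ := by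
    rw [← ph_star, ← map_mul, ← hcδ, map_mul, map_natCast]
  set ρ : ℝ := ‖ph m δ‖ with hρ
  have hρ2 : ρ ^ 2 = (l : ℝ) * l' := by
    rw [hρ, norm_sq_ph, hn]
    push_cast
    ring
  have hρ0 : 0 ≤ ρ := norm_nonneg _
  have hnn : ‖ph m w‖ * ‖ph m w'‖ = c * ρ := by
    have h1 := congrArg norm hph
    rw [norm_mul, norm_mul, Complex.norm_conj, Complex.norm_natCast] at h1
    exact h1
  rw [hph, hnn] at p1 p2
  set s : ℝ := (ph m w).arg - (ph m w').arg with hs
  have q1 : (δ.re : ℝ) = ρ * Real.cos s := by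
    have h1 : ((c : ℂ) * ph m δ).re = c * δ.re := by simp [ph_re]
    rw [h1, mul_assoc] at p1
    exact mul_left_cancel₀ hcr.ne' p1
  have q2 : (δ.im : ℝ) * Real.sqrt m = ρ * Real.sin s := by
    have h1 : ((c : ℂ) * ph m δ).im = c * (δ.im * Real.sqrt m) := by simp [ph_im]
    rw [h1, mul_assoc] at p2
    exact mul_left_cancel₀ hcr.ne' p2
  have y0 : (0 : ℝ) ≤ y := Nat.cast_nonneg y
  have l1 : (y : ℝ) < l := by exact_mod_cast hl
  have l1' : (y : ℝ) < l' := by exact_mod_cast hl'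
  have l2 : (l : ℝ) ≤ 2 * y := by exact_mod_cast hl2
  have l2' : (l' : ℝ) ≤ 2 * y := by exact_mod_cast hl2'
  have r1 : (y : ℝ) < ρ := by
    refine lt_of_pow_lt_pow_left₀ 2 hρ0 ?_
    rw [hρ2, sq]
    exact mul_lt_mul'' l1 l1' y0 y0
  have r2 : ρ ≤ 2 * y := by
    refine le_of_pow_le_pow_left₀ two_ne_zero (by positivity) ?_
    rw [hρ2, sq]
    exact mul_le_mul l2 l2' (by linarith) (by linarith)
  have s2 : s ^ 2 ≤ 1 := by
    rw [← sq_abs]
    exact pow_le_one₀ (abs_nonneg _) (harg.trans hth)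
  have c1 : 1 / 2 ≤ Real.cos s := by
    have := Real.one_sub_sq_div_two_le_cos (x := s)
    linarith
  have c2 := Real.cos_le_one s
  refine ⟨?_, ?_, ⟨(t * star w').im, by simp [hδ]⟩, ?_⟩
  · have : (y : ℝ) < 2 * δ.re := by
      rw [q1]
      nlinarith
    exact_mod_cast this
  · have : (δ.re : ℝ) ≤ 2 * y := by
      rw [q1]
      nlinarith
    exact_mod_cast this
  · have h1 : (1 : ℝ) ≤ Real.sqrt m := Real.one_le_sqrt.2 (by exact_mod_cast hm)
    have h2 : |(δ.im : ℝ)| ≤ |(δ.im : ℝ) * Real.sqrt m| := by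
      rw [abs_mul, abs_of_nonneg (Real.sqrt_nonneg _)]
      exact le_mul_of_one_le_right (abs_nonneg _) h1
    have h3 : |ρ * Real.sin s| ≤ 2 * y * th := by
      rw [abs_mul, abs_of_nonneg hρ0]
      exact mul_le_mul r2 (Real.abs_sin_le_abs.trans harg) (abs_nonneg _) (by positivity)
    have : |(δ.im : ℝ)| ≤ m * J := by
      rw [q2] at h2
      linarith
    exact_mod_cast this

theorem fibre_FLFam {a b c d : ℕ} (ha : a.Prime) (hc : c.Prime) (hd : d.Prime)
    (h : a * b = c * d) : (a, b) = (c, d) ∨ (a, b) = (d, c) := by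
  have h1 : a ∣ c * d := ⟨b, h.symm⟩
  rcases (Nat.Prime.dvd_mul ha).1 h1 with h2 | h2
  · left
    have e := (Nat.prime_dvd_prime_iff_eq ha hc).1 h2
    subst e
    rw [Nat.eq_of_mul_eq_mul_left ha.pos h]
  · right
    have e := (Nat.prime_dvd_prime_iff_eq ha hd).1 h2
    subst e
    rw [mul_comm c a] at h
    rw [Nat.eq_of_mul_eq_mul_left ha.pos h]

/-- Quotients of short vectors in one class give a dense family. -/
theorem family (m y J : ℕ) (K k : ℝ) (hm : 1 ≤ m) (P : Finset ℕ)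
    (hP : ∀ l ∈ P, Split m l ∧ y < l ∧ l ≤ 2 * y) (hc : (y : ℝ) ≤ K * P.card) (hK : 1 ≤ K)
    (hJ1 : 40 * K * ((m : ℝ) + 1) ^ 5 ≤ J) (hJ2 : 10 * m ^ 2 * J ≤ y)
    (hk : 80 * K ^ 2 * ((m : ℝ) + 1) ^ 5 ≤ k) : ∃ F : Finset (O m), Fam m y J k F := by
  classical
  have hex : ∀ l : ℕ, ∃ (w : O m) (c : ℕ), l ∈ P → 1 ≤ c ∧ c ≤ m + 1 ∧ w.norm = c * l := by
    intro l
    by_cases hl : l ∈ P
    · obtain ⟨hp, -, r, hr⟩ := (hP l hl).1
      obtain ⟨w, c, h1, h2, h3, -⟩ := thue hm {l} (by simpa using hp) (fun _ => r) (by simpa using hr)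
      exact ⟨w, c, fun _ => ⟨h1, h2, by simpa using h3⟩⟩
    · exact ⟨0, 0, fun h => absurd h hl⟩
  choose w c hw using hex
  have m1 : (1 : ℝ) ≤ m := by exact_mod_cast hm
  have M1 : (1 : ℝ) ≤ ((m : ℝ) + 1) ^ 5 := one_le_pow₀ (by linarith)
  have J1 : (40 : ℝ) ≤ J := by nlinarith
  have hJ2' : 10 * (m : ℝ) ^ 2 * J ≤ y := by exact_mod_cast hJ2
  have mJ : 10 * ((m : ℝ) * J) ≤ y := by nlinarith [mul_nonneg (sub_nonneg.2 m1) (by positivity : (0 : ℝ) ≤ m * J)]
  have J2 : (J : ℝ) ≤ m * J := le_mul_of_one_le_left (by positivity) m1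
  have y0 : (0 : ℝ) < y := by linarith
  set th : ℝ := J / (2 * y) with hth
  have th0 : 0 < th := by positivity
  have th1 : th ≤ 1 := by
    rw [hth, div_le_one (by positivity)]
    linarith
  have th2 : 2 * y * th ≤ m * J := by
    rw [hth, mul_div_cancel₀ _ (by positivity)]
    exact J2
  set N : ℕ := ⌊8 / th⌋₊ + 1 with hN
  have N1 : (N : ℝ) * J ≤ 20 * y := by
    have h1 : (N : ℝ) ≤ 8 / th + 1 := by
      rw [hN]
      push_cast
      exact add_le_add_left (Nat.floor_le (by positivity)) _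
    have h2 : 8 / th * J = 16 * y := by
      rw [hth]
      field_simp
      norm_num
    nlinarith
  obtain ⟨A, hA⟩ : ∃ A : ℤ, A = (((m + 1) ^ 2 : ℕ) : ℤ) := ⟨_, rfl⟩
  set T : Finset (ℕ × ℤ × ℤ × ℕ) := Icc 1 (m + 1) ×ˢ Ico 0 A ×ˢ Ico 0 A ×ˢ range N with hT
  have T1 : T.card = (m + 1) ^ 5 * N := by
    rw [hT, card_product, card_product, card_product, Nat.card_Icc, Int.card_Ico, card_range, hA,
      sub_zero, Int.toNat_natCast, Nat.add_sub_cancel]
    ring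
  set cl : ℕ → ℕ × ℤ × ℤ × ℕ := fun l => (c l, (w l).re % (c l * m), (w l).im % (c l * m),
    ⌊((ph m (w l)).arg + 4) / th⌋₊) with hcl
  have arg0 : ∀ z : ℂ, 0 ≤ (z.arg + 4) / th := by
    intro z
    have h1 := Complex.neg_pi_lt_arg z
    have h2 := Real.pi_le_four
    exact div_nonneg (by linarith) th0.le
  have hmap : ∀ l ∈ P, cl l ∈ T := by
    intro l hl
    obtain ⟨h1, h2, -⟩ := hw l hl
    have h3 : (0 : ℤ) < c l * m := by positivity
    have h4 : (c l : ℤ) * m ≤ A := by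
      rw [hA, sq]
      exact_mod_cast Nat.mul_le_mul h2 (Nat.le_succ m)
    simp only [hT, hcl, mem_product, mem_Icc, mem_Ico, mem_range]
    refine ⟨⟨h1, h2⟩, ⟨Int.emod_nonneg _ h3.ne', (Int.emod_lt_of_pos _ h3).trans_le h4⟩,
      ⟨Int.emod_nonneg _ h3.ne', (Int.emod_lt_of_pos _ h3).trans_le h4⟩, ?_⟩
    rw [hN]
    refine Nat.lt_succ_of_le (Nat.floor_le_floor (div_le_div_of_nonneg_right ?_ th0.le))
    have h5 := Complex.arg_le_pi (ph m (w l))
    have h6 := Real.pi_le_four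
    linarith
  have hpairs := pairs_FLFam P T cl hmap
  set Q : Finset (ℕ × ℕ) := (P ×ˢ P).filter fun q => q.1 ≠ q.2 ∧ cl q.1 = cl q.2 with hQ
  have hex2 : ∀ q : ℕ × ℕ, ∃ δ : O m, q ∈ Q → InBox m y J δ ∧ δ.norm = q.1 * q.2 := by
    intro q
    by_cases hq : q ∈ Q
    · obtain ⟨h1, -, h2⟩ := mem_filter.1 hq
      obtain ⟨ha, hb⟩ := mem_product.1 h1
      simp only [hcl, Prod.mk.injEq] at h2
      obtain ⟨e1, e2, e3, e4⟩ := h2
      rw [← e1] at e2 e3
      obtain ⟨δ, hδ⟩ := pair_FLFam hm y J (c q.1) q.1 q.2 (w q.1) (w q.2) (hw _ ha).1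
        (hw _ ha).2.2 (by rw [e1]; exact (hw _ hb).2.2) (hP _ ha).2.1 (hP _ hb).2.1 (hP _ ha).2.2
        (hP _ hb).2.2 (Int.ModEq.dvd (Int.ModEq.symm e2)) (Int.ModEq.dvd (Int.ModEq.symm e3)) th th1
        th2 (by
          have a1 := Nat.floor_le (arg0 (ph m (w q.1)))
          have a2 := Nat.lt_floor_add_one (((ph m (w q.1)).arg + 4) / th)
          have b1 := Nat.floor_le (arg0 (ph m (w q.2)))
          have b2 := Nat.lt_floor_add_one (((ph m (w q.2)).arg + 4) / th)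
          rw [e4] at a1 a2
          rw [le_div_iff₀ th0] at a1 b1
          rw [div_lt_iff₀ th0] at a2 b2
          rw [abs_le]
          constructor <;> linarith)
      exact ⟨δ, fun _ => hδ⟩
    · exact ⟨0, fun h => absurd h hq⟩
  choose δ hδ using hex2
  have hQm : ∀ q ∈ Q, q.1 ∈ P ∧ q.2 ∈ P ∧ q.1 ≠ q.2 := fun q hq =>
    ⟨(mem_product.1 (mem_filter.1 hq).1).1, (mem_product.1 (mem_filter.1 hq).1).2,
      (mem_filter.1 hq).2.1⟩
  have hfib : Q.card ≤ 2 * (Q.image δ).card := by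
    refine card_le_mul_card_image Q 2 fun a ha => ?_
    obtain ⟨q0, hq0, rfl⟩ := mem_image.1 ha
    refine le_trans (card_le_card (t := {(q0.1, q0.2), (q0.2, q0.1)}) fun q hq => ?_) card_le_two
    obtain ⟨hq1, hq2⟩ := mem_filter.1 hq
    have h1 : ((q.1 : ℤ)) * q.2 = q0.1 * q0.2 := by
      rw [← (hδ q hq1).2, ← (hδ q0 hq0).2, hq2]
    have h2 : q.1 * q.2 = q0.1 * q0.2 := by exact_mod_cast h1
    have h3 := fibre_FLFam (hP _ (hQm q hq1).1).1.1 (hP _ (hQm q0 hq0).1).1.1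
      (hP _ (hQm q0 hq0).2.1).1.1 h2
    rw [mem_insert, mem_singleton]
    exact h3
  refine ⟨Q.image δ, ⟨?_, ?_, ?_, by exact_mod_cast (by linarith : (1 : ℝ) ≤ J), hJ2⟩⟩
  · intro a ha
    obtain ⟨q, hq, rfl⟩ := mem_image.1 ha
    exact (hδ q hq).1
  · intro a ha
    obtain ⟨q, hq, rfl⟩ := mem_image.1 ha
    obtain ⟨h1, h2, h3⟩ := hQm q hq
    exact ⟨q.1, q.2, (hP _ h1).1.1, (hP _ h2).1.1, h3, (hP _ h1).2.1, (hP _ h2).2.1, (hP _ h1).2.2,
      (hP _ h2).2.2, (hδ q hq).2⟩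
  · have a1 : (P.card : ℝ) ^ 2 ≤ ((m : ℝ) + 1) ^ 5 * N * (Q.card + P.card) := by
      rw [T1] at hpairs
      exact_mod_cast hpairs
    have a2 : (Q.card : ℝ) ≤ 2 * (Q.image δ).card := by exact_mod_cast hfib
    have f0 : (0 : ℝ) ≤ (Q.image δ).card := Nat.cast_nonneg _
    have q0 : (0 : ℝ) ≤ Q.card := Nat.cast_nonneg _
    have p0 : (0 : ℝ) ≤ P.card := Nat.cast_nonneg _
    generalize ((Q.image δ).card : ℝ) = f at a2 f0
    generalize (Q.card : ℝ) = q at a1 a2 q0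
    generalize (P.card : ℝ) = p at a1 hc p0
    generalize ((m : ℝ) + 1) ^ 5 = M at a1 hJ1 hk M1
    have b1 : p ^ 2 * J ≤ 20 * M * y * (q + p) := by
      calc p ^ 2 * J ≤ M * N * (q + p) * J := mul_le_mul_of_nonneg_right a1 (by positivity)
        _ = M * (q + p) * (N * J) := by ring
        _ ≤ M * (q + p) * (20 * y) := mul_le_mul_of_nonneg_left N1 (by positivity)
        _ = _ := by ring
    have b2 : 40 * M * y ≤ J * p := by
      calc 40 * M * y ≤ 40 * M * (K * p) := mul_le_mul_of_nonneg_left hc (by positivity)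
        _ = 40 * K * M * p := by ring
        _ ≤ J * p := mul_le_mul_of_nonneg_right hJ1 p0
    have b3 : p ^ 2 * J ≤ 40 * M * y * q := by
      nlinarith [mul_le_mul_of_nonneg_right b2 p0]
    have b4 : (y : ℝ) * (y * J) ≤ y * (k * f) := by
      calc (y : ℝ) * (y * J) = (y : ℝ) ^ 2 * J := by ring
        _ ≤ (K * p) ^ 2 * J :=
          mul_le_mul_of_nonneg_right (pow_le_pow_left₀ y0.le hc 2) (by positivity)
        _ = K ^ 2 * (p ^ 2 * J) := by ring
        _ ≤ K ^ 2 * (40 * M * y * q) := mul_le_mul_of_nonneg_left b3 (by positivity)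
        _ ≤ K ^ 2 * (40 * M * y * (2 * f)) := by gcongr
        _ = y * (80 * K ^ 2 * M * f) := by ring
        _ ≤ y * (k * f) := by gcongr
    exact le_of_mul_le_mul_left b4 y0

end Pool.Agent.P.MP_b75a1e_co.EG
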