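import Pool.Agent.P.MP_b75a1e_co.FLCount0

set_option autoImplicit false

open Finset
open scoped BigOperators ComplexConjugate

namespace Pool.Agent.P.MP_b75a1e_co.EG

variable {m y J : ℕ} {k : ℝ} {F : Finset (O m)}

theorem cnt_lin_class (X : Finset ℤ) (N q : ℕ) (hq : 1 ≤ q)
    (hX : ∀ x ∈ X, 0 ≤ x ∧ x ≤ N) (hd : ∀ x ∈ X, ∀ x' ∈ X, (q : ℤ) ∣ x - x') :
    (X.card : ℝ) ≤ (N : ℝ) / q + 1 := by
  have hq0 : (0 : ℤ) < q := by exact_mod_cast hq
  have h1 : X.card ≤ (Finset.Icc (0 : ℤ) ((N / q : ℕ) : ℤ)).card := by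
    apply Finset.card_le_card_of_injOn (fun x => x / (q : ℤ))
    · intro x hx
      have hx' := hX x (by simpa using hx)
      simp only [coe_Icc, Set.mem_Icc]
      refine ⟨Int.ediv_nonneg hx'.1 hq0.le, ?_⟩
      rw [Int.natCast_div]
      exact Int.ediv_le_ediv hq0 hx'.2
    · intro x hx x' hx' hxx
      have h2 := hd x (by simpa using hx) x' (by simpa using hx')
      have h3 : x % q = x' % q :=
        Int.emod_eq_emod_iff_emod_sub_eq_zero.mpr (Int.emod_eq_zero_of_dvd h2)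
      have h4 := Int.emod_add_mul_ediv x q
      have h5 := Int.emod_add_mul_ediv x' q
      simp only at hxx
      rw [← h4, ← h5, h3, hxx]
  rw [Int.card_Icc] at h1
  have h2 : X.card ≤ N / q + 1 := by
    generalize N / q = w at h1 ⊢
    omega
  have h3 : ((N / q : ℕ) : ℝ) ≤ (N : ℝ) / q := Nat.cast_div_le
  have h4 : (X.card : ℝ) ≤ ((N / q : ℕ) : ℝ) + 1 := by exact_mod_cast h2
  linarith

theorem cnt_lin_div {h t : ℕ} (hh : 0 < h) {a : ℤ} (ha : (h : ℤ) ∣ (t : ℤ) * a) :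
    ((h / Nat.gcd h t : ℕ) : ℤ) ∣ a := by
  have hg : 0 < Nat.gcd h t := Nat.gcd_pos_of_pos_left _ hh
  have hc : Nat.Coprime (h / Nat.gcd h t) (t / Nat.gcd h t) := Nat.coprime_div_gcd_div_gcd hg
  have e1 : (h : ℤ) = (Nat.gcd h t : ℤ) * ((h / Nat.gcd h t : ℕ) : ℤ) := by
    exact_mod_cast (Nat.mul_div_cancel' (Nat.gcd_dvd_left h t)).symm
  have e2 : (t : ℤ) = (Nat.gcd h t : ℤ) * ((t / Nat.gcd h t : ℕ) : ℤ) := by
    exact_mod_cast (Nat.mul_div_cancel' (Nat.gcd_dvd_right h t)).symm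
  have h1 : (Nat.gcd h t : ℤ) * ((h / Nat.gcd h t : ℕ) : ℤ) ∣
      (Nat.gcd h t : ℤ) * (((t / Nat.gcd h t : ℕ) : ℤ) * a) := by
    rw [← mul_assoc, ← e1, ← e2]; exact ha
  have h2 := (mul_dvd_mul_iff_left (by exact_mod_cast hg.ne' : (Nat.gcd h t : ℤ) ≠ 0)).mp h1
  exact (Nat.isCoprime_iff_coprime.mpr hc).dvd_of_dvd_mul_left h2

theorem cnt_lin_fibre (hm : 1 ≤ m) (g : ℕ) (hg : 1 ≤ g) (A B : O m) (c : ℝ)
    (hc : ∀ f : ℕ, f ∣ g → (f : O m) ∣ A → (f : O m) ∣ B → (f : ℝ) ≤ c)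
    (j : ℤ) (T : Finset (O m))
    (hT : ∀ δ ∈ T, 0 ≤ δ.re ∧ δ.re ≤ 2 * y ∧ δ.im = m * j ∧ (g : O m) ∣ A * δ + B * star δ) :
    (T.card : ℝ) ≤ 4 * y * (m : ℝ) ^ 2 * c * (Nat.gcd j.natAbs g : ℝ) / g + 1 := by
  have hc1 : (1 : ℝ) ≤ c := by simpa using hc 1 (one_dvd _) (by simp) (by simp)
  have hg0 : (0 : ℝ) < g := by exact_mod_cast hg
  rcases T.eq_empty_or_nonempty with rfl | ⟨δ0, h0⟩
  · simp only [card_empty, Nat.cast_zero]; positivity
  have key : ∀ δ ∈ T, (g : ℤ) ∣ (A.re + B.re) * δ.re - (m : ℤ) * (m * j) * (A.im - B.im) ∧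
      (g : ℤ) ∣ (A.im + B.im) * δ.re + (m * j) * (A.re - B.re) := by
    intro δ hδ
    obtain ⟨-, -, h3, h4⟩ := hT δ hδ
    have h5 : ((g : ℤ) : O m) ∣ A * δ + B * star δ := by exact_mod_cast h4
    rw [Zsqrtd.intCast_dvd] at h5
    obtain ⟨h6, h7⟩ := h5
    simp only [Zsqrtd.re_add, Zsqrtd.re_mul, Zsqrtd.re_star, Zsqrtd.im_star, Zsqrtd.im_add,
      Zsqrtd.im_mul, h3] at h6 h7
    constructor
    · have e : (A.re + B.re) * δ.re - (m : ℤ) * (m * j) * (A.im - B.im) =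
          A.re * δ.re + -(m : ℤ) * A.im * (m * j) + (B.re * δ.re + -(m : ℤ) * B.im * -(m * j)) := by
        ring
      rw [e]; exact h6
    · have e : (A.im + B.im) * δ.re + (m * j) * (A.re - B.re) =
          A.re * (m * j) + A.im * δ.re + (B.re * -(m * j) + B.im * δ.re) := by ring
      rw [e]; exact h7
  set h : ℕ := Nat.gcd g (Int.gcd (A.re + B.re) (A.im + B.im)) with hh
  have hh0 : 0 < h := Nat.gcd_pos_of_pos_left _ hg
  have hhg : h ∣ g := Nat.gcd_dvd_left _ _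
  have hhs : (h : ℤ) ∣ (Int.gcd (A.re + B.re) (A.im + B.im) : ℤ) := by
    exact_mod_cast Nat.gcd_dvd_right _ _
  have hh1 : (h : ℤ) ∣ A.re + B.re := hhs.trans (Int.gcd_dvd_left _ _)
  have hh2 : (h : ℤ) ∣ A.im + B.im := hhs.trans (Int.gcd_dvd_right _ _)
  have hhg' : (h : ℤ) ∣ (g : ℤ) := by exact_mod_cast hhg
  have hq : 1 ≤ g / h := Nat.div_pos (Nat.le_of_dvd hg hhg) hh0
  have hcard : T.card = (T.image fun δ => δ.re).card := by
    symm
    apply Finset.card_image_of_injOn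
    intro δ hδ δ' hδ' e
    have a1 := hT δ (by simpa using hδ)
    have a2 := hT δ' (by simpa using hδ')
    exact Zsqrtd.ext e (by rw [a1.2.2.1, a2.2.2.1])
  have hcls := cnt_lin_class (T.image fun δ => δ.re) (2 * y) (g / h) hq
    (by
      intro x hx
      obtain ⟨δ, hδ, rfl⟩ := Finset.mem_image.mp hx
      have a1 := hT δ hδ
      exact ⟨a1.1, by push_cast; exact a1.2.1⟩)
    (by
      intro x hx x' hx'
      obtain ⟨δ, hδ, rfl⟩ := Finset.mem_image.mp hx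
      obtain ⟨δ', hδ', rfl⟩ := Finset.mem_image.mp hx'
      have a1 := key δ hδ
      have a2 := key δ' hδ'
      have b1 : (g : ℤ) ∣ (A.re + B.re) * (δ.re - δ'.re) := by
        have := dvd_sub a1.1 a2.1
        have e : (A.re + B.re) * (δ.re - δ'.re) =
          (A.re + B.re) * δ.re - (m : ℤ) * (m * j) * (A.im - B.im) -
            ((A.re + B.re) * δ'.re - (m : ℤ) * (m * j) * (A.im - B.im)) := by ring
        rw [e]; exact this
      have b2 : (g : ℤ) ∣ (A.im + B.im) * (δ.re - δ'.re) := by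
        have := dvd_sub a1.2 a2.2
        have e : (A.im + B.im) * (δ.re - δ'.re) =
          (A.im + B.im) * δ.re + (m * j) * (A.re - B.re) -
            ((A.im + B.im) * δ'.re + (m * j) * (A.re - B.re)) := by ring
        rw [e]; exact this
      have b3 : (g : ℤ) ∣ (Int.gcd (A.re + B.re) (A.im + B.im) : ℤ) * (δ.re - δ'.re) := by
        rw [Int.gcd_eq_gcd_ab, add_mul]
        apply dvd_add
        · rw [mul_right_comm]; exact b1.mul_right _
        · rw [mul_right_comm]; exact b2.mul_right _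
      exact cnt_lin_div hg b3)
  have k0 := key δ0 h0
  have d1 : (h : ℤ) ∣ (m : ℤ) * (m * j) * (A.im - B.im) := by
    have := dvd_sub (hh1.mul_right δ0.re) (hhg'.trans k0.1)
    have e : (m : ℤ) * (m * j) * (A.im - B.im) = (A.re + B.re) * δ0.re -
      ((A.re + B.re) * δ0.re - (m : ℤ) * (m * j) * (A.im - B.im)) := by ring
    rw [e]; exact this
  have d2 : (h : ℤ) ∣ (m : ℤ) * (m * j) * (A.re - B.re) := by
    have := (dvd_sub (hhg'.trans k0.2) (hh2.mul_right δ0.re)).mul_left (m : ℤ)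
    have e : (m : ℤ) * (m * j) * (A.re - B.re) = m * ((A.im + B.im) * δ0.re +
      (m * j) * (A.re - B.re) - (A.im + B.im) * δ0.re) := by ring
    rw [e]; exact this
  have tr : ∀ a : ℤ, (h : ℤ) ∣ 2 * (m : ℤ) ^ 2 * j * a →
      ((h / Nat.gcd h (2 * m ^ 2 * j.natAbs) : ℕ) : ℤ) ∣ a := by
    intro a ha
    apply cnt_lin_div hh0
    push_cast
    rcases abs_choice j with e | e
    · rw [e]; exact ha
    · rw [e]
      have e2 : 2 * (m : ℤ) ^ 2 * -j * a = -(2 * (m : ℤ) ^ 2 * j * a) := by ring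
      rw [e2]; exact ha.neg_right
  have f1 := tr A.re (by
    have := dvd_add (hh1.mul_left ((m : ℤ) * (m * j))) d2
    have e : 2 * (m : ℤ) ^ 2 * j * A.re =
      (m : ℤ) * (m * j) * (A.re + B.re) + (m : ℤ) * (m * j) * (A.re - B.re) := by ring
    rw [e]; exact this)
  have f2 := tr A.im (by
    have := dvd_add (hh2.mul_left ((m : ℤ) * (m * j))) d1
    have e : 2 * (m : ℤ) ^ 2 * j * A.im =
      (m : ℤ) * (m * j) * (A.im + B.im) + (m : ℤ) * (m * j) * (A.im - B.im) := by ring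
    rw [e]; exact this)
  have f3 := tr B.re (by
    have := dvd_sub (hh1.mul_left ((m : ℤ) * (m * j))) d2
    have e : 2 * (m : ℤ) ^ 2 * j * B.re =
      (m : ℤ) * (m * j) * (A.re + B.re) - (m : ℤ) * (m * j) * (A.re - B.re) := by ring
    rw [e]; exact this)
  have f4 := tr B.im (by
    have := dvd_sub (hh2.mul_left ((m : ℤ) * (m * j))) d1
    have e : 2 * (m : ℤ) ^ 2 * j * B.im =
      (m : ℤ) * (m * j) * (A.im + B.im) - (m : ℤ) * (m * j) * (A.im - B.im) := by ring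
    rw [e]; exact this)
  set t : ℕ := Nat.gcd h (2 * m ^ 2 * j.natAbs) with ht
  have hft : h = t * (h / t) := (Nat.mul_div_cancel' (Nat.gcd_dvd_left _ _)).symm
  have hfc : ((h / t : ℕ) : ℝ) ≤ c := by
    apply hc
    · exact (Nat.div_dvd_of_dvd (Nat.gcd_dvd_left _ _)).trans hhg
    · have : (((h / t : ℕ) : ℤ) : O m) ∣ A := Zsqrtd.intCast_dvd _ _ |>.mpr ⟨f1, f2⟩
      exact_mod_cast this
    · have : (((h / t : ℕ) : ℤ) : O m) ∣ B := Zsqrtd.intCast_dvd _ _ |>.mpr ⟨f3, f4⟩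
      exact_mod_cast this
  have htl : t ≤ 2 * m ^ 2 * Nat.gcd j.natAbs g := by
    have a1 : t ∣ Nat.gcd h (2 * m ^ 2) * Nat.gcd h j.natAbs := gcd_mul_dvd_mul_gcd h (2 * m ^ 2) j.natAbs
    have a2 : Nat.gcd h (2 * m ^ 2) ∣ 2 * m ^ 2 := Nat.gcd_dvd_right _ _
    have a3 : Nat.gcd h j.natAbs ∣ Nat.gcd j.natAbs g :=
      Nat.dvd_gcd (Nat.gcd_dvd_right _ _) ((Nat.gcd_dvd_left _ _).trans hhg)
    have a4 : 0 < 2 * m ^ 2 * Nat.gcd j.natAbs g :=
      Nat.mul_pos (by positivity) (Nat.gcd_pos_of_pos_right _ hg)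
    exact Nat.le_of_dvd a4 (a1.trans (Nat.mul_dvd_mul a2 a3))
  have hhl : (h : ℝ) ≤ 2 * (m : ℝ) ^ 2 * (Nat.gcd j.natAbs g : ℝ) * c := by
    have a1 : (h : ℝ) = (t : ℝ) * ((h / t : ℕ) : ℝ) := by exact_mod_cast hft
    have a2 : (t : ℝ) ≤ 2 * (m : ℝ) ^ 2 * (Nat.gcd j.natAbs g : ℝ) := by exact_mod_cast htl
    rw [a1]
    exact mul_le_mul a2 hfc (by positivity) (by positivity)
  have hdiv : ((g / h : ℕ) : ℝ) = (g : ℝ) / h := Nat.cast_div hhg (by exact_mod_cast hh0.ne')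
  rw [hcard]
  refine hcls.trans ?_
  rw [hdiv, div_div_eq_mul_div]
  push_cast
  have hy0 : (0 : ℝ) ≤ y := by positivity
  have : 2 * (y : ℝ) * h ≤ 4 * y * (m : ℝ) ^ 2 * c * (Nat.gcd j.natAbs g : ℝ) := by
    nlinarith [mul_le_mul_of_nonneg_left hhl hy0]
  gcongr

open Classical in
theorem cnt_lin (h : Fam m y J k F) (hm : 1 ≤ m) (g : ℕ) (hg : 1 ≤ g) (A B : O m) (c : ℝ)
    (hc : ∀ f : ℕ, f ∣ g → (f : O m) ∣ A → (f : O m) ∣ B → (f : ℝ) ≤ c) :
    ((F.filter fun δ => (g : O m) ∣ A * δ + B * star δ).card : ℝ) ≤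
      k * (8 * (m : ℝ) ^ 2 * c * g.divisors.card / g + 2 / y) * F.card := by
  have hc1 : (1 : ℝ) ≤ c := by simpa using hc 1 (one_dvd _) (by simp) (by simp)
  have hg0 : (0 : ℝ) < g := by exact_mod_cast hg
  have hm0 : (0 : ℤ) < m := by exact_mod_cast hm
  have hy : 1 ≤ y := by
    have a1 := h.thin
    have a2 := h.pos
    have a3 : 0 < 10 * m ^ 2 * J := by positivity
    omega
  have hy0 : (0 : ℝ) < y := by exact_mod_cast hy
  set T := F.filter fun δ => (g : O m) ∣ A * δ + B * star δ with hT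
  have hfib : ∀ j : ℤ, ((T.filter fun δ => δ.im = m * j).card : ℝ) ≤
      4 * y * (m : ℝ) ^ 2 * c * (Nat.gcd j.natAbs g : ℝ) / g + 1 := by
    intro j
    apply cnt_lin_fibre hm g hg A B c hc j
    intro δ hδ
    obtain ⟨a1, a2⟩ := Finset.mem_filter.mp hδ
    obtain ⟨a3, a4⟩ := Finset.mem_filter.mp a1
    obtain ⟨b1, b2, -, -⟩ := h.box δ a3
    exact ⟨by omega, b2, a2, a4⟩
  have hsub : T ⊆ (Icc 1 J).biUnion fun j : ℕ =>
      (T.filter fun δ => δ.im = m * (j : ℤ)) ∪ (T.filter fun δ => δ.im = m * (-(j : ℤ))) := by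
    intro δ hδ
    have a3 := (Finset.mem_filter.mp hδ).1
    obtain ⟨-, -, ⟨j, b3⟩, b4⟩ := h.box δ a3
    have b5 := h.im_ne a3
    have b6 : j ≠ 0 := by rintro rfl; simp at b3; exact b5 b3
    have b7 : |j| ≤ J := by
      rw [b3, abs_mul, abs_of_pos hm0] at b4
      exact le_of_mul_le_mul_left b4 hm0
    refine Finset.mem_biUnion.mpr ⟨j.natAbs, Finset.mem_Icc.mpr ⟨by omega, ?_⟩, ?_⟩
    · have : ((j.natAbs : ℕ) : ℤ) ≤ J := by rw [Int.natCast_natAbs]; exact b7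
      exact_mod_cast this
    · rw [Finset.mem_union, Int.natCast_natAbs]
      rcases abs_choice j with e | e
      · left; rw [e]; exact Finset.mem_filter.mpr ⟨hδ, b3⟩
      · right; rw [e, neg_neg]; exact Finset.mem_filter.mpr ⟨hδ, b3⟩
  have h1 : (T.card : ℝ) ≤ ∑ j ∈ Icc 1 J,
      (8 * y * (m : ℝ) ^ 2 * c / g * (Nat.gcd j g : ℝ) + 2) := by
    have a1 := (Finset.card_le_card hsub).trans Finset.card_biUnion_le
    have a2 : (T.card : ℝ) ≤ ∑ j ∈ Icc 1 J, ((((T.filter fun δ => δ.im = m * (j : ℤ)) ∪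
        (T.filter fun δ => δ.im = m * (-(j : ℤ)))).card : ℕ) : ℝ) := by exact_mod_cast a1
    refine a2.trans (Finset.sum_le_sum fun j _ => ?_)
    have a3 : ((((T.filter fun δ => δ.im = m * (j : ℤ)) ∪
        (T.filter fun δ => δ.im = m * (-(j : ℤ)))).card : ℕ) : ℝ) ≤
        ((T.filter fun δ => δ.im = m * (j : ℤ)).card : ℝ) +
          ((T.filter fun δ => δ.im = m * (-(j : ℤ))).card : ℝ) := by
      exact_mod_cast Finset.card_union_le _ _
    have a4 := hfib (j : ℤ)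
    have a5 := hfib (-(j : ℤ))
    rw [Int.natAbs_natCast] at a4
    rw [Int.natAbs_neg, Int.natAbs_natCast] at a5
    have e : 8 * y * (m : ℝ) ^ 2 * c / g * (Nat.gcd j g : ℝ) + 2 =
      2 * (4 * y * (m : ℝ) ^ 2 * c * (Nat.gcd j g : ℝ) / g + 1) := by ring
    rw [e]; linarith
  rw [Finset.sum_add_distrib, ← Finset.mul_sum, Finset.sum_const, Nat.card_Icc] at h1
  have h2 := gcd_sum g J hg
  have h3 : (T.card : ℝ) ≤ (8 * (m : ℝ) ^ 2 * c * g.divisors.card / g + 2 / y) * (y * J) := by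
    have a1 : 8 * y * (m : ℝ) ^ 2 * c / g * ∑ j ∈ Icc 1 J, (Nat.gcd j g : ℝ) ≤
        8 * y * (m : ℝ) ^ 2 * c / g * (g.divisors.card * J) :=
      mul_le_mul_of_nonneg_left h2 (by positivity)
    have e : (8 * (m : ℝ) ^ 2 * c * g.divisors.card / g + 2 / y) * (y * J) =
        8 * y * (m : ℝ) ^ 2 * c / g * (g.divisors.card * J) + J * 2 := by
      field_simp
    rw [e]
    simp only [add_tsub_cancel_right, nsmul_eq_mul] at h1
    linarith
  refine h3.trans ?_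
  have h4 := mul_le_mul_of_nonneg_left h.big
    (by positivity : (0 : ℝ) ≤ 8 * (m : ℝ) ^ 2 * c * g.divisors.card / g + 2 / y)
  linarith

open Classical in
theorem tb_lin (hS : Sml m k) (h : Fam m y J k F) (D g : ℕ) (hD1 : 1 ≤ D) (hD : D ≤ y) (hg : g ∣ D)
    (A B : O m) (c : ℝ) (hc : ∀ f : ℕ, f ∣ g → (f : O m) ∣ A → (f : O m) ∣ B → (f : ℝ) ≤ c) :
    ((F.filter fun δ => (g : O m) ∣ A * tb D δ + B).card : ℝ) ≤
      10 * k ^ 4 * c * (g : ℝ) ^ (-999 / 1000 : ℝ) * F.card := by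
  have hc1 : (1 : ℝ) ≤ c := by simpa using hc 1 (one_dvd _) (by simp) (by simp)
  have hg1 : 1 ≤ g := Nat.pos_of_dvd_of_pos hg hD1
  have hg1' : (1 : ℝ) ≤ g := by exact_mod_cast hg1
  have hg0 : (0 : ℝ) < g := by linarith
  have hgy : (g : ℝ) ≤ y := by exact_mod_cast (Nat.le_of_dvd hD1 hg).trans hD
  have hk1 : (1 : ℝ) ≤ k := le_trans (by norm_num) hS.k1
  have hsub : (F.filter fun δ => (g : O m) ∣ A * tb D δ + B) ⊆
      F.filter fun δ => (g : O m) ∣ A * δ + B * star δ := by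
    intro δ hδ
    obtain ⟨a1, a2⟩ := Finset.mem_filter.mp hδ
    refine Finset.mem_filter.mpr ⟨a1, ?_⟩
    have a3 := tb_spec hD1 (h.cop a1 hD1 hD)
    have a4 : (g : O m) ∣ (D : O m) := Nat.cast_dvd_cast hg
    have a5 := dvd_sub (a2.mul_left (star δ)) ((a4.trans a3).mul_left A)
    have e : A * δ + B * star δ =
      star δ * (A * tb D δ + B) - A * (star δ * tb D δ - δ) := by ring
    rw [e]; exact a5
  have h1 : ((F.filter fun δ => (g : O m) ∣ A * tb D δ + B).card : ℝ) ≤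
      ((F.filter fun δ => (g : O m) ∣ A * δ + B * star δ).card : ℝ) := by
    exact_mod_cast Finset.card_le_card hsub
  refine h1.trans ((cnt_lin h hS.m1 g hg1 A B c hc).trans ?_)
  apply mul_le_mul_of_nonneg_right _ (by positivity)
  set P : ℝ := (g : ℝ) ^ (-999 / 1000 : ℝ) with hP
  have hP0 : 0 < P := Real.rpow_pos_of_pos hg0 _
  have e1 : (g : ℝ) ^ (1 / 1000 : ℝ) / g = P := by
    rw [hP, div_eq_iff hg0.ne', ← Real.rpow_add_one hg0.ne']
    norm_num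
  have e2 : (1 : ℝ) ≤ (g : ℝ) ^ (1 / 1000 : ℝ) := Real.one_le_rpow hg1' (by norm_num)
  have a1 : (g.divisors.card : ℝ) / g ≤ k * P := by
    rw [← e1, ← mul_div_assoc]
    exact div_le_div_of_nonneg_right (hS.tau g hg1) hg0.le
  have a2 : (1 : ℝ) / y ≤ P := by
    rw [← e1]
    exact div_le_div₀ (by positivity) e2 hg0 hgy
  have a3 : (m : ℝ) ^ 2 ≤ k ^ 2 := pow_le_pow_left₀ (by positivity) hS.mk' 2
  have a4 : 8 * (m : ℝ) ^ 2 * c * g.divisors.card / g ≤ 8 * k ^ 2 * c * (k * P) := by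
    rw [mul_div_assoc]
    exact mul_le_mul (by gcongr) a1 (by positivity) (by positivity)
  have a5 : (1 : ℝ) ≤ k ^ 3 * c := one_le_mul_of_one_le_of_one_le (one_le_pow₀ hk1) hc1
  have a6 : 2 / (y : ℝ) ≤ 2 * (k ^ 3 * c) * P := by
    have : 2 / (y : ℝ) = 2 * (1 / y) := by ring
    rw [this]
    nlinarith
  have a7 : 8 * (m : ℝ) ^ 2 * c * g.divisors.card / g + 2 / y ≤ 10 * k ^ 3 * c * P := by
    nlinarith
  calc k * (8 * (m : ℝ) ^ 2 * c * g.divisors.card / g + 2 / y) ≤ k * (10 * k ^ 3 * c * P) :=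
        mul_le_mul_of_nonneg_left a7 (by linarith)
    _ = 10 * k ^ 4 * c * P := by ring

end Pool.Agent.P.MP_b75a1e_co.EG
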