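import Pool.Agent.P.MP_b75a1e_co.FLArith

set_option autoImplicit false

open Finset
open scoped BigOperators ComplexConjugate

namespace Pool.Agent.P.MP_b75a1e_co.EG

variable {m s y J : ℕ} {k ν : ℝ} {F U : Finset (O m)} {e : O m}

theorem cop_part_FLNarrow {f n : ℕ} (hn : 1 ≤ n) :
    ∃ f1 : ℕ, f ≤ f1 * n ∧ ∀ a : ℤ, (f : ℤ) ∣ n * a → (f1 : ℤ) ∣ a := by
  obtain ⟨f1, n1, hc, h1, h2⟩ := Nat.exists_coprime f n
  have hg : 0 < Nat.gcd f n := Nat.gcd_pos_of_pos_right _ hn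
  have hg' : Nat.gcd f n ≤ n := Nat.gcd_le_right _ hn
  generalize Nat.gcd f n = t at *
  refine ⟨f1, h1 ▸ Nat.mul_le_mul_left _ hg', fun a ha => ?_⟩
  rw [h1, h2] at ha
  push_cast at ha
  rw [mul_right_comm] at ha
  have h3 : (f1 : ℤ) ∣ n1 * a :=
    (mul_dvd_mul_iff_right (by exact_mod_cast hg.ne' : (t : ℤ) ≠ 0)).1 ha
  exact (Nat.isCoprime_iff_coprime.2 hc).dvd_of_dvd_mul_left h3

theorem div_le_FLNarrow (hm : 1 ≤ m) (hs : 1 ≤ s) {g β : O m} {d : ℕ}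
    (hd : ∀ f : ℕ, f ∣ d → (f : O m) ∣ β * (g * e) → f ^ 2 ≤ d) {f : ℕ} (h1 : f ∣ d * m ^ 3)
    (h2 : (f : O m) ∣ -(β * g * mu m) * (((4 * s : ℕ) : O m) * e)) :
    (f : ℝ) ≤ 4 * s * m ^ 3 * (d : ℝ) ^ (1 / 2 : ℝ) := by
  have hn : 1 ≤ 4 * s * m ^ 3 := Nat.one_le_iff_ne_zero.2 (by positivity)
  obtain ⟨f1, hf, hf1⟩ := cop_part_FLNarrow (f := f) hn
  have hmu : mu m * mu m = -(m : O m) ^ 3 := by
    rw [mu_eq]; linear_combination (m : O m) ^ 2 * rt_sq (m := m)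
  have h3 : (f : O m) ∣ ((4 * s * m ^ 3 : ℕ) : O m) * (β * (g * e)) := by
    have e1 : ((4 * s * m ^ 3 : ℕ) : O m) * (β * (g * e)) =
        -(β * g * mu m) * (((4 * s : ℕ) : O m) * e) * mu m := by
      push_cast
      linear_combination (4 * (s : O m) * β * g * e) * hmu
    rw [e1]
    exact h2.mul_right _
  rw [nat_dvd_iff] at h3
  have h4 : (f1 : O m) ∣ β * (g * e) := by
    rw [nat_dvd_iff]
    exact ⟨hf1 _ (by simpa only [Zsqrtd.re_mul, Zsqrtd.re_natCast, Zsqrtd.im_natCast, mul_zero,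
      zero_mul, add_zero] using h3.1), hf1 _ (by
      simpa only [Zsqrtd.im_mul, Zsqrtd.re_natCast, Zsqrtd.im_natCast, mul_zero,
        zero_mul, add_zero] using h3.2)⟩
  have h5 : f1 ∣ d := by
    have : f ∣ 4 * s * m ^ 3 * d := h1.trans ⟨4 * s, by ring⟩
    exact_mod_cast hf1 d (by exact_mod_cast this)
  have h6 : (f1 : ℝ) ^ 2 ≤ d := by exact_mod_cast hd f1 h5 h4
  have h7 : (f1 : ℝ) ≤ (d : ℝ) ^ (1 / 2 : ℝ) := by
    rw [← Real.sqrt_eq_rpow]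
    exact Real.le_sqrt_of_sq_le h6
  have h8 : (f : ℝ) ≤ f1 * (4 * s * m ^ 3) := by exact_mod_cast hf
  calc (f : ℝ) ≤ f1 * (4 * s * m ^ 3) := h8
    _ ≤ (d : ℝ) ^ (1 / 2 : ℝ) * (4 * s * m ^ 3) := by gcongr
    _ = _ := mul_comm _ _

open Classical in
/-- The share of rotations at which the numerator has a large common divisor with `D`. -/
theorem bad_FLNarrow (hS : Sml m k) (h : Fam m y J k F) {D : ℕ} (hD1 : 1 ≤ D) (hD : D ≤ y)
    {x : ℝ} (hx : 1 ≤ x) (hk : k ≤ x ^ (1 / 8000 : ℝ)) (hD2 : x ≤ D) (hD3 : (D : ℝ) ≤ x ^ 2)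
    (A B : O m) (hB : ∀ f : ℕ, f ∣ D → (f : O m) ∣ B → (f : ℝ) ≤ 4 * k ^ 4 * x ^ (1 / 2 : ℝ)) :
    ((F.filter fun δ => ∃ g : ℕ, g ∣ D ∧ (g : O m) ∣ A * tb D δ + B ∧
      (D : ℝ) < g * x ^ (1 / 8 : ℝ)).card : ℝ) ≤ x ^ (-1 / 512 : ℝ) * F.card := by
  have hx0 : 0 < x := by linarith
  have hk1 : (40 : ℝ) ≤ k := le_trans (by norm_num) hS.k1
  have hk0 : 0 ≤ k := by linarith
  set G := D.divisors.filter fun g : ℕ => (D : ℝ) < g * x ^ (1 / 8 : ℝ) with hG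
  have hsub : (F.filter fun δ => ∃ g : ℕ, g ∣ D ∧ (g : O m) ∣ A * tb D δ + B ∧
      (D : ℝ) < g * x ^ (1 / 8 : ℝ)) ⊆
      G.biUnion fun g => F.filter fun δ => (g : O m) ∣ A * tb D δ + B := by
    intro δ hδ
    obtain ⟨h1, g, h2, h3, h4⟩ := mem_filter.1 hδ
    exact mem_biUnion.2 ⟨g, mem_filter.2 ⟨Nat.mem_divisors.2 ⟨h2, by omega⟩, h4⟩,
      mem_filter.2 ⟨h1, h3⟩⟩
  have hone : ∀ g ∈ G, ((F.filter fun δ => (g : O m) ∣ A * tb D δ + B).card : ℝ) ≤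
      10 * k ^ 4 * (4 * k ^ 4 * x ^ (1 / 2 : ℝ)) * x ^ (-874 / 1000 : ℝ) * F.card := by
    intro g hg
    obtain ⟨h1, h2⟩ := mem_filter.1 hg
    have h3 := (Nat.mem_divisors.1 h1).1
    refine (tb_lin hS h D g hD1 hD h3 A B _ fun f hf _ hf' => hB f (hf.trans h3) hf').trans ?_
    have h4 : x ^ (7 / 8 : ℝ) ≤ g := by
      have e1 : x ^ (7 / 8 : ℝ) * x ^ (1 / 8 : ℝ) = x := by
        rw [← Real.rpow_add hx0]; norm_num
      exact le_of_mul_le_mul_right (by rw [e1]; exact hD2.trans h2.le)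
        (Real.rpow_pos_of_pos hx0 (1 / 8 : ℝ))
    have h5 : (g : ℝ) ^ (-999 / 1000 : ℝ) ≤ x ^ (-874 / 1000 : ℝ) :=
      calc (g : ℝ) ^ (-999 / 1000 : ℝ) ≤ (x ^ (7 / 8 : ℝ)) ^ (-999 / 1000 : ℝ) :=
            Real.rpow_le_rpow_of_nonpos (Real.rpow_pos_of_pos hx0 _) h4 (by norm_num)
        _ = x ^ ((7 / 8 : ℝ) * (-999 / 1000 : ℝ)) := (Real.rpow_mul hx0.le _ _).symm
        _ ≤ _ := Real.rpow_le_rpow_of_exponent_le hx (by norm_num)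
    gcongr
  have hcard : (G.card : ℝ) ≤ k * x ^ (2 / 1000 : ℝ) :=
    calc (G.card : ℝ) ≤ D.divisors.card := by exact_mod_cast card_filter_le _ _
      _ ≤ k * (D : ℝ) ^ (1 / 1000 : ℝ) := hS.tau D hD1
      _ ≤ k * (x ^ 2) ^ (1 / 1000 : ℝ) := by gcongr
      _ = _ := by
        rw [← Real.rpow_natCast, ← Real.rpow_mul hx0.le]; norm_num
  have hk10 : 40 * k ^ 9 ≤ x ^ (10 / 8000 : ℝ) :=
    calc 40 * k ^ 9 ≤ k * k ^ 9 := by gcongr
      _ = k ^ 10 := by ring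
      _ ≤ (x ^ (1 / 8000 : ℝ)) ^ 10 := by gcongr
      _ = _ := by rw [← Real.rpow_natCast, ← Real.rpow_mul hx0.le]; norm_num
  calc _ ≤ ((G.biUnion fun g => F.filter fun δ => (g : O m) ∣ A * tb D δ + B).card : ℝ) := by
        exact_mod_cast card_le_card hsub
    _ ≤ ∑ g ∈ G, ((F.filter fun δ => (g : O m) ∣ A * tb D δ + B).card : ℝ) := by
        exact_mod_cast card_biUnion_le
    _ ≤ G.card * (10 * k ^ 4 * (4 * k ^ 4 * x ^ (1 / 2 : ℝ)) * x ^ (-874 / 1000 : ℝ) * F.card) := by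
        rw [← nsmul_eq_mul]; exact sum_le_card_nsmul _ _ _ hone
    _ ≤ k * x ^ (2 / 1000 : ℝ) *
        (10 * k ^ 4 * (4 * k ^ 4 * x ^ (1 / 2 : ℝ)) * x ^ (-874 / 1000 : ℝ) * F.card) := by gcongr
    _ = 40 * k ^ 9 * (x ^ (2 / 1000 : ℝ) * x ^ (1 / 2 : ℝ) * x ^ (-874 / 1000 : ℝ)) * F.card := by
        ring
    _ ≤ x ^ (10 / 8000 : ℝ) * (x ^ (2 / 1000 : ℝ) * x ^ (1 / 2 : ℝ) * x ^ (-874 / 1000 : ℝ)) *
        F.card := by gcongr
    _ ≤ _ := by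
        rw [← Real.rpow_add hx0, ← Real.rpow_add hx0, ← Real.rpow_add hx0]
        exact mul_le_mul_of_nonneg_right (Real.rpow_le_rpow_of_exponent_le hx (by norm_num))
          (Nat.cast_nonneg _)

theorem err_FLNarrow (hP : Par m s y k ν) (h : Fam m y J k F) (hJ : (J : ℝ) * ν ^ 25 ≤ y)
    (hU : Pile e s ν U) {η : ℂ} (hη : ‖η‖ * ν ^ 1000 ≤ 2 * ν ^ 22) {δ u u' : O m} (hδ : δ ∈ F)
    (hu : u ∈ U) (hu' : u' ∈ U) :
    60 * (m : ℝ) ^ 2 * J / y * ‖η * (rot δ * ph m (u + u') + ((4 * s : ℕ) : ℂ) * ph m e)‖ ≤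
      1 / ν := by
  have hk1 : (720 : ℝ) ≤ k := le_trans (by norm_num) hP.sml.k1
  have hk4 : 720 * k ^ 3 ≤ ν :=
    calc 720 * k ^ 3 ≤ k * k ^ 3 := by gcongr
      _ = k ^ 4 := by ring
      _ ≤ k ^ 100 := pow_le_pow_right₀ (by linarith) (by norm_num)
      _ ≤ ν := hP.kν
  have hν1 : 1 ≤ ν := (one_le_pow₀ (by linarith)).trans hP.kν
  have hν0 : 0 < ν := by linarith
  have hy : (0 : ℝ) < y := lt_of_lt_of_le (by positivity) hP.y1
  have h1 := hU.norm_le hν0.le hu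
  have h2 := hU.norm_le hν0.le hu'
  have h3 := hU.norm_e hν0.le
  generalize ν ^ 1000 = N at *
  have h4 : ‖rot δ * ph m (u + u') + ((4 * s : ℕ) : ℂ) * ph m e‖ ≤ 6 * s * N := by
    refine (norm_add_le _ _).trans ?_
    rw [norm_mul, norm_mul, norm_rot hP.sml.m1 (h.ne_zero hδ), one_mul, map_add, h3,
      Complex.norm_natCast]
    push_cast
    linarith [norm_add_le (ph m u) (ph m u')]
  have h5 : ‖η * (rot δ * ph m (u + u') + ((4 * s : ℕ) : ℂ) * ph m e)‖ ≤ 12 * k * ν ^ 22 :=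
    calc _ ≤ ‖η‖ * (6 * s * N) := by rw [norm_mul]; gcongr
      _ = 6 * s * (‖η‖ * N) := by ring
      _ ≤ 6 * k * (2 * ν ^ 22) := by
        have := hP.sk
        have h0 : 0 ≤ ‖η‖ * N := by rw [← h3]; positivity
        gcongr
      _ = _ := by ring
  have h6 : 60 * (m : ℝ) ^ 2 * J / y ≤ 60 * k ^ 2 / ν ^ 25 := by
    rw [div_le_div_iff₀ hy (by positivity), mul_assoc]
    have := hP.sml.mk'
    gcongr
  calc _ ≤ 60 * k ^ 2 / ν ^ 25 * (12 * k * ν ^ 22) := by gcongr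
    _ = 720 * k ^ 3 / ν ^ 3 := by field_simp; ring
    _ ≤ ν / ν ^ 2 := by gcongr; norm_num
    _ = 1 / ν := by field_simp

theorem narrow (hP : Par m s y k ν) (h : Fam m y J k F) (hJ : (J : ℝ) * ν ^ 25 ≤ y)
    (hU : Pile e s ν U) {φ : ℂ → ℂ} (hφ : MB F U e s ν φ) : NB e k ν φ := by
  classical
  intro g β d η hd1 hd2 hf hη
  have hm := hP.sml.m1
  have hmk := hP.sml.mk'
  have hk1 : (13 : ℝ) ≤ k := le_trans (by norm_num) hP.sml.k1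
  have hk0 : 0 ≤ k := by linarith
  have hν1 : k ≤ ν := (le_self_pow₀ (by linarith) (by norm_num)).trans hP.kν
  have hν0 : 0 < ν := by linarith
  have hk3 : k ^ 3 ≤ ν := (pow_le_pow_right₀ (by linarith) (by norm_num)).trans hP.kν
  have hk3' : k ^ 3 ≤ d := (pow_le_pow_right₀ (by linarith) (by norm_num)).trans hd1
  have hx : (1 : ℝ) ≤ d := (one_le_pow₀ (by linarith)).trans hk3'
  have hx0 : (0 : ℝ) < d := by linarith
  have hk : k ≤ (d : ℝ) ^ (1 / 8000 : ℝ) := by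
    rw [one_div, Real.le_rpow_inv_iff_of_pos hk0 hx0.le (by norm_num)]
    exact_mod_cast hd1
  have hm3 : (m : ℝ) ^ 3 ≤ k ^ 3 := by gcongr
  have hm1 : (1 : ℝ) ≤ (m : ℝ) ^ 3 := one_le_pow₀ (by exact_mod_cast hm)
  have hDc : ((d * m ^ 3 : ℕ) : ℝ) = d * (m : ℝ) ^ 3 := by push_cast; rfl
  have hD2 : (d : ℝ) ≤ (d * m ^ 3 : ℕ) := by rw [hDc]; exact le_mul_of_one_le_right hx0.le hm1
  have hD3 : ((d * m ^ 3 : ℕ) : ℝ) ≤ (d : ℝ) ^ 2 := by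
    rw [hDc, sq]; exact mul_le_mul_of_nonneg_left (hm3.trans hk3') hx0.le
  have hD4 : ((d * m ^ 3 : ℕ) : ℝ) ≤ ν ^ 23 := by
    rw [hDc, pow_succ ν 22]; exact mul_le_mul hd2 (hm3.trans hk3) (by positivity) (by positivity)
  have hD1 : 1 ≤ d * m ^ 3 := by exact_mod_cast hx.trans hD2
  have hD : d * m ^ 3 ≤ y := by
    exact_mod_cast hD4.trans ((pow_le_pow_right₀ (by linarith) (by norm_num)).trans hP.y1)
  have hB : ∀ f : ℕ, f ∣ d * m ^ 3 →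
      (f : O m) ∣ -(β * g * mu m) * (((4 * s : ℕ) : O m) * e) →
      (f : ℝ) ≤ 4 * k ^ 4 * (d : ℝ) ^ (1 / 2 : ℝ) := fun f h1 h2 => by
    refine (div_le_FLNarrow hm hP.s1 hf h1 h2).trans ?_
    have := hP.sk
    rw [show 4 * k ^ 4 = 4 * k * k ^ 3 by ring]
    gcongr
  generalize d * m ^ 3 = D at *
  generalize -(β * g * mu m) = γ at *
  have hR : k ^ 1000 ≤ (d : ℝ) ^ (1 / 8 : ℝ) :=
    calc k ^ 1000 ≤ ((d : ℝ) ^ (1 / 8000 : ℝ)) ^ 1000 := pow_le_pow_left₀ hk0 hk _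
      _ = _ := by rw [← Real.rpow_natCast, ← Real.rpow_mul hx0.le]; norm_num
  have hRe : ((d : ℝ) ^ (1 / 8 : ℝ)) ^ (-1 / 64 : ℝ) = (d : ℝ) ^ (-1 / 512 : ℝ) := by
    rw [← Real.rpow_mul hx0.le]; norm_num
  have hνL : 1 / ν ≤ (d : ℝ) ^ (-1 / 512 : ℝ) := by
    have h1 : (d : ℝ) ^ (1 / 512 : ℝ) ≤ ν :=
      calc (d : ℝ) ^ (1 / 512 : ℝ) ≤ (d : ℝ) ^ ((22 : ℝ)⁻¹) :=
            Real.rpow_le_rpow_of_exponent_le hx (by norm_num)
        _ ≤ ν := by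
          rw [Real.rpow_inv_le_iff_of_pos hx0.le hν0.le (by norm_num)]
          exact_mod_cast hd2
    rw [neg_div, Real.rpow_neg hx0.le, one_div]
    exact inv_anti₀ (Real.rpow_pos_of_pos hx0 _) h1
  have hL0 : 0 ≤ (d : ℝ) ^ (-1 / 512 : ℝ) := by positivity
  have hfin : 13 * (d : ℝ) ^ (-1 / 512 : ℝ) ≤ (d : ℝ) ^ (-1 / 600 : ℝ) :=
    calc 13 * (d : ℝ) ^ (-1 / 512 : ℝ) ≤ (d : ℝ) ^ (1 / 8000 : ℝ) * (d : ℝ) ^ (-1 / 512 : ℝ) :=
          mul_le_mul_of_nonneg_right (hk1.trans hk) hL0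
      _ ≤ _ := by
        rw [← Real.rpow_add hx0]
        exact Real.rpow_le_rpow_of_exponent_le hx (by norm_num)
  have hbad := fun A => bad_FLNarrow hP.sml h hD1 hD hx hk hD2 hD3 A _ hB
  have hgood := fun γ' => Sm_arith hP.sml h D hD1 hD γ' _ hR
  rw [hRe] at hgood
  generalize (d : ℝ) ^ (-1 / 512 : ℝ) = L at *
  have hUne : U.Nonempty := card_pos.1 (by
    exact_mod_cast lt_of_lt_of_le (pow_pos hν0 _) hU.crd)
  have hFc : (0 : ℝ) < F.card := by exact_mod_cast card_pos.2 (h.ne hm)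
  have key : ∀ u ∈ U, ∀ u' ∈ U, 𝔼 δ ∈ F,
      ‖Sm F D (γ * (tb D δ * (u + u') + ((4 * s : ℕ) : O m) * e))
        (η * (rot δ * ph m (u + u') + ((4 * s : ℕ) : ℂ) * ph m e))‖ ≤ 3 * L := by
    intro u hu u' hu'
    have h1 := hbad (γ * (u + u'))
    rw [expect_eq_sum_div_card, div_le_iff₀ hFc]
    refine (sum_le_sum (g := fun δ => (if ∃ g : ℕ, g ∣ D ∧
      (g : O m) ∣ γ * (u + u') * tb D δ + γ * (((4 * s : ℕ) : O m) * e) ∧
      (D : ℝ) < g * (d : ℝ) ^ (1 / 8 : ℝ) then (1 : ℝ) else 0) + 2 * L) fun δ hδ => ?_).trans ?_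
    · split_ifs with hb
      · linarith [norm_Sm_le F D (γ * (tb D δ * (u + u') + ((4 * s : ℕ) : O m) * e))
          (η * (rot δ * ph m (u + u') + ((4 * s : ℕ) : ℂ) * ph m e))]
      · have h2 := hgood (γ * (tb D δ * (u + u') + ((4 * s : ℕ) : O m) * e)) fun g h3 h4 =>
          not_lt.1 fun h5 => hb ⟨g, h3, by rwa [mul_add, mul_comm (tb D δ), ← mul_assoc] at h4, h5⟩
        linarith [Sm_narrow hm h D (γ * (tb D δ * (u + u') + ((4 * s : ℕ) : O m) * e))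
          (η * (rot δ * ph m (u + u') + ((4 * s : ℕ) : ℂ) * ph m e)),
          err_FLNarrow hP h hJ hU hη hδ hu hu']
    · rw [sum_add_distrib, sum_boole, sum_const, nsmul_eq_mul]
      linarith
  have hη' : ‖η‖ * ν ^ 1000 ≤ ν ^ 23 := by
    refine hη.trans ?_
    rw [pow_succ' ν 22]
    exact mul_le_mul_of_nonneg_right (by linarith) (by positivity)
  have hmain := hφ γ D η hD1 hD4 hη'
  rw [expect_comm] at hmain
  have h3 : 𝔼 u ∈ U, 𝔼 δ ∈ F, 𝔼 u' ∈ U,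
      ‖Sm F D (γ * (tb D δ * (u + u') + ((4 * s : ℕ) : O m) * e))
        (η * (rot δ * ph m (u + u') + ((4 * s : ℕ) : ℂ) * ph m e))‖ ≤ 3 * L :=
    expect_le hUne fun u hu => by
      rw [expect_comm]
      exact expect_le hUne fun u' hu' => key u hu u' hu'
  have h4 : 1 / ν ^ 10 ≤ 1 / ν :=
    one_div_le_one_div_of_le hν0 (le_self_pow₀ (by linarith) (by norm_num))
  linarith

end Pool.Agent.P.MP_b75a1e_co.EG
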