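import Pool.Agent.P.MP_b75a1e_co.FLCheb

set_option autoImplicit false

open Finset
open scoped BigOperators ComplexConjugate

namespace Pool.Agent.P.MP_b75a1e_co.EG

open ArithmeticFunction

theorem pow_ge_FLPrimes (m X : ℕ) (hm : 1 ≤ m) (hX : (10 ^ 4 * m) ^ 200 ≤ X) (a b : ℕ)
    (ha : a ≤ 4 * 200) (hb : b ≤ 200) : 10 ^ a * m ^ b ≤ X := by
  refine le_trans ?_ hX
  generalize 200 = n at ha hb ⊢
  rw [mul_pow, ← pow_mul]
  exact Nat.mul_le_mul (Nat.pow_le_pow_right (by norm_num) ha) (Nat.pow_le_pow_right hm hb)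

theorem log_ge_FLPrimes (m X : ℕ) (hm : 1 ≤ m) (hX : (10 ^ 4 * m) ^ 200 ≤ X) :
    1400 ≤ Real.log X := by
  have h : (2 ^ 13) ^ 200 ≤ X := (Nat.pow_le_pow_left (by omega) 200).trans hX
  have h2 : ((2 : ℝ) ^ 13) ^ 200 ≤ X := by exact_mod_cast h
  have h3 := Real.log_le_log (by positivity) h2
  rw [Real.log_pow, Real.log_pow] at h3
  have := Real.log_two_gt_d9
  push_cast at h3
  linarith

theorem sqrt_ge_FLPrimes (m X y : ℕ) (hm : 1 ≤ m) (hX : (10 ^ 4 * m) ^ 200 ≤ X)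
    (hy : X ^ 2 ≤ y ^ 5) : 6 * 10 ^ 10 * (m : ℝ) ^ 2 * Real.log X ≤ √y := by
  have hX1 : 10 ^ 120 * m ^ 20 ≤ X := pow_ge_FLPrimes m X hm hX 120 20 (by norm_num) (by norm_num)
  have hm' : (1 : ℝ) ≤ m := by exact_mod_cast hm
  have hX0 : (0 : ℝ) < X := by
    have : 0 < X := lt_of_lt_of_le (by positivity) hX1
    exact_mod_cast this
  set u := √(√(y : ℝ)) with hu
  have hu0 : 0 ≤ u := Real.sqrt_nonneg _
  have h2 : u ^ 2 = √y := Real.sq_sqrt (Real.sqrt_nonneg _)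
  have h4 : (u ^ 10) ^ 2 = (y : ℝ) ^ 5 := by
    rw [show (u ^ 10) ^ 2 = ((u ^ 2) ^ 2) ^ 5 by ring, h2, Real.sq_sqrt (Nat.cast_nonneg _)]
  have h5 : (X : ℝ) ≤ u ^ 10 :=
    le_of_pow_le_pow_left₀ two_ne_zero (by positivity) (by rw [h4]; exact_mod_cast hy)
  have h6 : 10 ^ 12 * (m : ℝ) ^ 2 ≤ u := by
    refine le_of_pow_le_pow_left₀ (n := 10) (by norm_num) hu0 (le_trans ?_ h5)
    rw [mul_pow, ← pow_mul, ← pow_mul]
    exact_mod_cast hX1
  have hu1 : 0 < u := lt_of_lt_of_le (by positivity) h6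
  have h7 : Real.log X ≤ 10 * u := by
    have := Real.log_le_log hX0 h5
    rw [Real.log_pow] at this
    have h8 := Real.log_le_sub_one_of_pos hu1
    push_cast at this
    linarith
  rw [← h2]
  have : (0 : ℝ) ≤ (m : ℝ) ^ 2 := by positivity
  nlinarith [mul_le_mul_of_nonneg_left h7 this, mul_le_mul_of_nonneg_right h6 hu0,
    mul_nonneg this hu0]

open Classical in
theorem block_FLPrimes (m X y : ℕ) (hm : 1 ≤ m) (hX : (10 ^ 4 * m) ^ 200 ≤ X)
    (hy : X ^ 2 ≤ y ^ 5) (hyX : y ≤ X) (g : ℕ → Prop) [DecidablePred g]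
    (hg : ∀ l, l.Prime → g l → Split m l)
    (hP : 10 ^ 10 * (m : ℝ) ^ 2 * Real.log X * ((Ioc y (2 * y)).filter (Split m)).card < y) :
    ∑ q ∈ Ioc y (2 * y), (if g q then vonMangoldt q / q else 0) ≤ 4 / (10 ^ 10 * (m : ℝ) ^ 2) := by
  have hL := log_ge_FLPrimes m X hm hX
  have hs := sqrt_ge_FLPrimes m X y hm hX hy
  have hm' : (1 : ℝ) ≤ m := by exact_mod_cast hm
  have hM : (0 : ℝ) < 10 ^ 10 * (m : ℝ) ^ 2 := by positivity
  have hy0 : (0 : ℝ) < y := lt_of_le_of_lt (by positivity) hP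
  have hy1 : (1 : ℝ) ≤ y := by
    have : 0 < y := by exact_mod_cast hy0
    exact_mod_cast this
  have hlog : Real.log (2 * y) ≤ 2 * Real.log X := by
    rw [Real.log_mul two_ne_zero hy0.ne']
    have h1 : Real.log y ≤ Real.log X := Real.log_le_log hy0 (by exact_mod_cast hyX)
    have := Real.log_two_lt_d9
    linarith
  have h1 : ∀ q ∈ Ioc y (2 * y), (if g q then vonMangoldt q / q else 0) ≤
      ((if Split m q then 2 * Real.log X else 0) + if ¬ q.Prime then vonMangoldt q else 0) / y := by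
    intro q hq
    obtain ⟨hq1, hq2⟩ := mem_Ioc.1 hq
    have hq1' : (y : ℝ) ≤ q := by exact_mod_cast hq1.le
    have hq2' : (q : ℝ) ≤ 2 * y := by exact_mod_cast hq2
    have hΛ : 0 ≤ vonMangoldt q := vonMangoldt_nonneg
    have hA : (0 : ℝ) ≤ if Split m q then 2 * Real.log X else 0 := by
      split_ifs
      · linarith
      · exact le_rfl
    have hB : (0 : ℝ) ≤ if ¬ q.Prime then vonMangoldt q else 0 := by
      split_ifs
      · exact le_rfl
      · exact hΛ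
    split_ifs with hgq h1 h2 h2 h1 h2 h2
    all_goals first
      | positivity
      | skip
    · refine div_le_div₀ (by linarith) ?_ hy0 hq1'
      have : vonMangoldt q ≤ Real.log (2 * y) :=
        vonMangoldt_le_log.trans (Real.log_le_log (by linarith) hq2')
      linarith
    · exact div_le_div₀ (by linarith) (by linarith) hy0 hq1'
    · exact absurd (hg q h2 hgq) h1
    · exact div_le_div₀ (by linarith) (by linarith) hy0 hq1'
  refine (sum_le_sum h1).trans ?_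
  rw [← sum_div, sum_add_distrib, ← sum_filter, ← sum_filter, sum_const, nsmul_eq_mul]
  have h2 : ∑ q ∈ Ioc y (2 * y) with ¬ q.Prime, vonMangoldt q ≤
      2 * √(2 * y) * Real.log (2 * y) := by
    refine le_trans ?_ (Chebyshev.psi_sub_theta_le (x := 2 * y) (by linarith))
    rw [Chebyshev.psi_sub_theta_eq_sum_not_prime]
    refine sum_le_sum_of_subset_of_nonneg (filter_subset_filter _ ?_) fun _ _ _ => vonMangoldt_nonneg
    rw [show (2 * y : ℝ) = ((2 * y : ℕ) : ℝ) by push_cast; ring, Nat.floor_natCast]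
    exact Ioc_subset_Ioc_left (Nat.zero_le _)
  have h3 : √(2 * y : ℝ) ≤ 2 * √y := by
    rw [Real.sqrt_le_left (by positivity), mul_pow, Real.sq_sqrt hy0.le]
    linarith
  have h4 : √(y : ℝ) * √y = y := Real.mul_self_sqrt hy0.le
  have h5 : 0 ≤ √(y : ℝ) := Real.sqrt_nonneg _
  have h6 : 2 * √(2 * y : ℝ) * Real.log (2 * y) ≤ 8 * (√y * Real.log X) := by
    have := mul_le_mul h3 hlog (Real.log_nonneg (by linarith)) (by positivity)
    linarith
  have h7 := mul_le_mul_of_nonneg_left hs h5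
  rw [div_le_div_iff₀ hy0 hM]
  nlinarith [mul_le_mul_of_nonneg_right (h2.trans h6) hM.le]

theorem dyadic_FLPrimes (f : ℕ → ℝ) (c : ℝ) (y : ℕ) (h : ∀ z, y ≤ z → ∑ q ∈ Ioc z (2 * z), f q ≤ c)
    (k : ℕ) : ∑ q ∈ Ioc y (2 ^ k * y), f q ≤ k * c := by
  induction k with
  | zero => simp
  | succ k ih =>
    have h1 : y ≤ 2 ^ k * y := Nat.le_mul_of_pos_left _ (by positivity)
    have h2 : 2 ^ (k + 1) * y = 2 * (2 ^ k * y) := by ring
    rw [h2, ← sum_Ioc_consecutive f h1 (by omega)]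
    have := h _ h1
    push_cast
    linarith

theorem count_FLPrimes {α : Type} (s : Finset α) (v : α → ℕ) (X : ℕ)
    (h : ∀ z ∈ s, 1 ≤ v z ∧ v z ≤ X) :
    ∑ z ∈ s, Real.log (v z) =
      ∑ q ∈ Ioc 0 X, vonMangoldt q * ((s.filter fun z => q ∣ v z).card : ℝ) := by
  simp only [card_filter, Nat.cast_sum, mul_sum]
  rw [sum_comm]
  refine sum_congr rfl fun z hz => ?_
  obtain ⟨h1, h2⟩ := h z hz
  rw [← vonMangoldt_sum]
  have : (v z).divisors = (Ioc 0 X).filter (· ∣ v z) := by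
    ext q
    simp only [Nat.mem_divisors, mem_filter, mem_Ioc]
    exact ⟨fun ⟨a, _⟩ => ⟨⟨Nat.pos_of_dvd_of_pos a h1, (Nat.le_of_dvd h1 a).trans h2⟩, a⟩,
      fun ⟨_, a⟩ => ⟨a, by omega⟩⟩
  rw [this, sum_filter]
  refine sum_congr rfl fun q _ => ?_
  split_ifs <;> simp

theorem nv_FLPrimes (m B : ℕ) (hm : 1 ≤ m) {z : ℕ × ℕ} (hz : z ∈ cp m B) (hB : 1 ≤ B) :
    (210 * m * B) ^ 2 ≤ nv m z ∧ nv m z ≤ (600 * m * B) ^ 2 := by
  obtain ⟨h1, -⟩ := mem_filter.1 hz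
  obtain ⟨h1, h2⟩ := mem_product.1 h1
  obtain ⟨h1, h1'⟩ := mem_Ioc.1 h1
  obtain ⟨-, h2'⟩ := mem_Ioc.1 h2
  have hmB : 1 ≤ m * B := Nat.mul_pos hm hB
  have h3 : m * B ≤ m * z.1 := Nat.mul_le_mul_left _ h1.le
  have h4 : m * z.1 ≤ m * (2 * B) := Nat.mul_le_mul_left _ h1'
  unfold nv
  constructor
  · refine le_trans (Nat.pow_le_pow_left ?_ 2) (Nat.le_add_right _ _)
    nlinarith
  · have h5 : (1 + 210 * m * z.1) ^ 2 ≤ (421 * m * B) ^ 2 := Nat.pow_le_pow_left (by nlinarith) 2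
    have h6 : (210 * z.2) ^ 2 ≤ (420 * B) ^ 2 := Nat.pow_le_pow_left (by omega) 2
    have h7 : m * (210 * z.2) ^ 2 ≤ m ^ 2 * (420 * B) ^ 2 := Nat.mul_le_mul (by nlinarith) h6
    nlinarith [Nat.zero_le ((m * B) ^ 2)]

theorem par_FLPrimes (m X : ℕ) (hm : 1 ≤ m) (hX : (10 ^ 4 * m) ^ 200 ≤ X) :
    ∃ B y : ℕ, (600 * m * B) ^ 2 ≤ X ∧ X ≤ (1200 * m * B) ^ 2 ∧ 10 ^ 6 ≤ B ∧ X ^ 2 ≤ y ^ 5 ∧
      y ^ 5 ≤ 32 * X ^ 2 ∧ 100 * y ≤ B ∧ 1 ≤ y := by
  have hp := pow_ge_FLPrimes m X hm hX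
  have h10 : 10 ^ 10 ≤ X := by simpa using hp 10 0 (by norm_num) (by norm_num)
  have hex : ∃ y : ℕ, X ^ 2 ≤ y ^ 5 := ⟨X, Nat.pow_le_pow_right (by omega) (by norm_num)⟩
  have hy := Nat.find_spec hex
  set y := Nat.find hex with hyd
  have hy4 : 10 ^ 4 ≤ y := by
    refine (Nat.pow_le_pow_iff_left (n := 5) (by norm_num)).1 (le_trans ?_ hy)
    exact le_trans (by norm_num) (Nat.pow_le_pow_left h10 2)
  have hy1 : (y - 1) ^ 5 < X ^ 2 := not_le.1 (Nat.find_min hex (by omega))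
  have hy2 : y ^ 5 ≤ 32 * X ^ 2 := by
    calc y ^ 5 ≤ (2 * (y - 1)) ^ 5 := Nat.pow_le_pow_left (by omega) 5
      _ = 32 * (y - 1) ^ 5 := by ring
      _ ≤ _ := by omega
  have hM : 0 < 600 * m := by omega
  set B := X.sqrt / (600 * m) with hB
  have hB1 : 600 * m * B ≤ X.sqrt := Nat.mul_div_le _ _
  have hB2 : X.sqrt < 600 * m * (B + 1) := Nat.lt_mul_div_succ _ hM
  have hB3 : 1 ≤ B := by
    refine (Nat.le_div_iff_mul_le hM).2
      (Nat.le_sqrt'.2 (le_trans ?_ (hp 6 2 (by norm_num) (by norm_num))))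
    nlinarith [Nat.zero_le (m ^ 2)]
  have hB4 : X ≤ (1200 * m * B) ^ 2 := by
    refine (Nat.lt_succ_sqrt' X).le.trans (Nat.pow_le_pow_left ?_ 2)
    have : m * 1 ≤ m * B := Nat.mul_le_mul_left _ hB3
    nlinarith
  have hB5 : 100 * y ≤ B := by
    refine (Nat.pow_le_pow_iff_left (n := 10) (by norm_num)).1 ?_
    refine Nat.le_of_mul_le_mul_left (c := (1200 * m) ^ 10) ?_ (by positivity)
    calc (1200 * m) ^ 10 * (100 * y) ^ 10 = 1200 ^ 10 * 10 ^ 20 * m ^ 10 * (y ^ 5) ^ 2 := by ring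
      _ ≤ 1200 ^ 10 * 10 ^ 20 * m ^ 10 * (32 * X ^ 2) ^ 2 :=
        Nat.mul_le_mul_left _ (Nat.pow_le_pow_left hy2 2)
      _ = (1200 ^ 10 * 10 ^ 20 * 32 ^ 2) * m ^ 10 * X ^ 4 := by ring
      _ ≤ 10 ^ 60 * m ^ 10 * X ^ 4 :=
        Nat.mul_le_mul_right _ (Nat.mul_le_mul_right _ (by norm_num))
      _ ≤ X * X ^ 4 := Nat.mul_le_mul_right _ (hp 60 10 (by norm_num) (by norm_num))
      _ = X ^ 5 := by ring
      _ ≤ ((1200 * m * B) ^ 2) ^ 5 := Nat.pow_le_pow_left hB4 5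
      _ = _ := by ring
  exact ⟨B, y, (Nat.pow_le_pow_left hB1 2).trans (Nat.sqrt_le' X), hB4, by omega, hy, hy2, hB5,
    by omega⟩

/-- Many split primes in some dyadic interval of a prescribed range. -/
theorem big_primes (m X : ℕ) (hm : 1 ≤ m) (hX : (10 ^ 4 * m) ^ 200 ≤ X) :
    ∃ (y : ℕ) (P : Finset ℕ), X ^ 2 ≤ y ^ 5 ∧ y ≤ X ∧ (∀ l ∈ P, Split m l ∧ y < l ∧ l ≤ 2 * y) ∧
      (y : ℝ) ≤ 10 ^ 10 * (m : ℝ) ^ 2 * Real.log X * P.card := by
  classical
  by_contra hc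
  have hP : ∀ y, X ^ 2 ≤ y ^ 5 → y ≤ X →
      10 ^ 10 * (m : ℝ) ^ 2 * Real.log X * ((Ioc y (2 * y)).filter (Split m)).card < y :=
    fun y h1 h2 => not_le.1 fun h => hc ⟨y, _, h1, h2, fun l hl =>
      ⟨(mem_filter.1 hl).2, mem_Ioc.1 (mem_filter.1 hl).1⟩, h⟩
  obtain ⟨B, y, hB1, hB2, hB6, hy1, hy2, hyB, hy0⟩ := par_FLPrimes m X hm hX
  have hL := log_ge_FLPrimes m X hm hX
  have hB : 1 ≤ B := by omega
  have hm' : (1 : ℝ) ≤ m := by exact_mod_cast hm
  have hB' : (1 : ℝ) ≤ B := by exact_mod_cast hB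
  have hBX : B ≤ X := by
    refine le_trans ?_ hB1
    have : 1 * B ≤ m * B := Nat.mul_le_mul_right _ hm
    nlinarith
  have hyX : y ≤ X := by omega
  have hX0 : (0 : ℝ) < X := by
    have : 0 < X := by omega
    exact_mod_cast this
  set L := Real.log X with hLd
  set cnt : ℕ → ℝ := fun q => (((cp m B).filter fun z => q ∣ nv m z).card : ℝ) with hcnt
  have hnv : ∀ z ∈ cp m B, X ≤ 33 * nv m z ∧ nv m z ≤ X := fun z hz => by
    obtain ⟨h1, h2⟩ := nv_FLPrimes m B hm hz hB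
    exact ⟨by nlinarith [Nat.zero_le ((m * B) ^ 2)], h2.trans hB1⟩
  have hsum := count_FLPrimes (cp m B) (nv m) X fun z hz => ⟨by have := (hnv z hz).1; omega,
    (hnv z hz).2⟩
  have hlow : (88 / 100 : ℝ) * (B ^ 2 * L) ≤ ∑ z ∈ cp m B, Real.log (nv m z) := by
    have h1 : ∀ z ∈ cp m B, (99 / 100 : ℝ) * L ≤ Real.log (nv m z) := fun z hz => by
      have h2 : (X : ℝ) ≤ 2 ^ 6 * nv m z := by
        have : X ≤ 2 ^ 6 * nv m z := by have := (hnv z hz).1; omega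
        exact_mod_cast this
      have h3 := Real.log_le_log hX0 h2
      rw [Real.log_mul (by positivity) (fun h => by rw [h] at h2; linarith), Real.log_pow] at h3
      have := Real.log_two_lt_d9
      push_cast at h3
      linarith
    have h2 := card_nsmul_le_sum _ _ _ h1
    rw [nsmul_eq_mul] at h2
    have h3 := mul_le_mul_of_nonneg_right (cp_card m B hB6) (show (0 : ℝ) ≤ 99 / 100 * L by linarith)
    have h4 : (0 : ℝ) ≤ B ^ 2 * L := by positivity
    nlinarith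
  have hsmall : ∑ q ∈ Ioc 0 y, vonMangoldt q * cnt q ≤ (82 / 100 : ℝ) * (B ^ 2 * L) := by
    have h1 : ∀ q ∈ Ioc 0 y, vonMangoldt q * cnt q ≤
        (202 / 100 : ℝ) * B ^ 2 * (vonMangoldt q / q) := fun q hq => by
      obtain ⟨hq1, hq2⟩ := mem_Ioc.1 hq
      by_cases hq3 : IsPrimePow q
      · have hq0 : (0 : ℝ) < q := by exact_mod_cast hq1
        have h2 : (100 : ℝ) ≤ B / q := by
          rw [le_div_iff₀ hq0]
          have : 100 * q ≤ B := by omega
          exact_mod_cast this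
        have h3 : cnt q ≤ (202 / 100 : ℝ) * B * (B / q) :=
          (cp_small m B q hm hq3).trans (by nlinarith)
        calc _ ≤ vonMangoldt q * ((202 / 100 : ℝ) * B * (B / q)) :=
              mul_le_mul_of_nonneg_left h3 vonMangoldt_nonneg
          _ = _ := by ring
      · simp [vonMangoldt_eq_zero_iff.2 hq3]
    refine (sum_le_sum h1).trans ?_
    rw [← mul_sum]
    have h2 := mertens_vm y hy0
    rw [show Icc 1 y = Ioc 0 y from rfl] at h2
    have h3 : Real.log y ≤ 2 / 5 * L + 1 := by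
      have h4 : (y : ℝ) ^ 5 ≤ 2 ^ 5 * X ^ 2 := by exact_mod_cast hy2
      have h5 := Real.log_le_log (by positivity) h4
      rw [Real.log_mul (by positivity) (by positivity), Real.log_pow, Real.log_pow,
        Real.log_pow] at h5
      have := Real.log_two_lt_d9
      push_cast at h5
      linarith
    have h4 : ∑ q ∈ Ioc 0 y, vonMangoldt q / q ≤ 405 / 1000 * L := by linarith
    have h5 : (0 : ℝ) ≤ B ^ 2 * L := by positivity
    nlinarith [mul_le_mul_of_nonneg_left h4 (show (0 : ℝ) ≤ 202 / 100 * B ^ 2 by positivity)]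
  have hbig : ∑ q ∈ Ioc y X, vonMangoldt q * cnt q ≤ (1 / 100 : ℝ) * (B ^ 2 * L) := by
    let g : ℕ → Prop := fun q => q ≤ X ∧ ∃ z ∈ cp m B, q ∣ nv m z
    let f : ℕ → ℝ := fun q => if g q then vonMangoldt q / q else 0
    have hf : ∀ q, 0 ≤ f q := fun q => by
      simp only [f]
      split_ifs
      · exact div_nonneg vonMangoldt_nonneg (Nat.cast_nonneg _)
      · exact le_rfl
    have h1 : ∀ q ∈ Ioc y X, vonMangoldt q * cnt q ≤
        12 * 10 ^ 6 * (m : ℝ) ^ 2 * B ^ 2 * f q := fun q hq => by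
      obtain ⟨hq1, hq2⟩ := mem_Ioc.1 hq
      by_cases hg : g q
      · simp only [f, if_pos hg]
        by_cases hq3 : IsPrimePow q
        · calc _ ≤ vonMangoldt q * (12 * 10 ^ 6 * (m : ℝ) ^ 2 * (B : ℝ) ^ 2 / q) :=
              mul_le_mul_of_nonneg_left (cp_large m B q hm hB hq3 (hq2.trans hB2))
                vonMangoldt_nonneg
            _ = _ := by ring
        · simp [vonMangoldt_eq_zero_iff.2 hq3]
      · have : cnt q = 0 := by
          simp only [hcnt, Nat.cast_eq_zero, card_eq_zero, filter_eq_empty_iff]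
          exact fun z hz h => hg ⟨hq2, z, hz, h⟩
        simp only [f, if_neg hg, this, mul_zero, le_refl]
    refine (sum_le_sum h1).trans ?_
    rw [← mul_sum]
    have h2 := dyadic_FLPrimes f (4 / (10 ^ 10 * (m : ℝ) ^ 2)) y (fun z hz => by
      by_cases hzX : z ≤ X
      · have hz5 := hy1.trans (Nat.pow_le_pow_left hz 5)
        exact block_FLPrimes m X z hm hX hz5 hzX g
          (fun l hl ⟨_, w, hw, h⟩ => (cp_split m B hm hw hl h).1) (hP z hz5 hzX)
      · rw [sum_eq_zero fun q hq => if_neg fun h => hzX ((mem_Ioc.1 hq).1.le.trans h.1)]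
        positivity) (Nat.log 2 X + 1)
    have h3 : X ≤ 2 ^ (Nat.log 2 X + 1) * y :=
      (Nat.lt_pow_succ_log_self one_lt_two X).le.trans (Nat.le_mul_of_pos_right _ hy0)
    have h4 : ∑ q ∈ Ioc y X, f q ≤ _ :=
      (sum_le_sum_of_subset_of_nonneg (Ioc_subset_Ioc_right h3) fun _ _ _ => hf _).trans h2
    have h5 : ((Nat.log 2 X + 1 : ℕ) : ℝ) ≤ 2 * L := by
      have h6 : (2 : ℝ) ^ Nat.log 2 X ≤ X := by
        exact_mod_cast Nat.pow_log_le_self 2 (show X ≠ 0 by omega)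
      have h7 := Real.log_le_log (by positivity) h6
      rw [Real.log_pow] at h7
      have := mul_le_mul_of_nonneg_left Real.log_two_gt_d9.le (Nat.cast_nonneg (Nat.log 2 X))
      push_cast
      linarith
    have h6 : ∑ q ∈ Ioc y X, f q ≤ 2 * L * (4 / (10 ^ 10 * (m : ℝ) ^ 2)) :=
      h4.trans (mul_le_mul_of_nonneg_right h5 (by positivity))
    calc _ ≤ 12 * 10 ^ 6 * (m : ℝ) ^ 2 * B ^ 2 * (2 * L * (4 / (10 ^ 10 * (m : ℝ) ^ 2))) :=
          mul_le_mul_of_nonneg_left h6 (by positivity)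
      _ = 96 / 10000 * (B ^ 2 * L) := by field_simp; norm_num
      _ ≤ _ := mul_le_mul_of_nonneg_right (by norm_num) (by positivity)
  rw [← sum_Ioc_consecutive _ (Nat.zero_le y) hyX] at hsum
  have h5 : (0 : ℝ) < B ^ 2 * L := by positivity
  linarith

end Pool.Agent.P.MP_b75a1e_co.EG
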