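import Pool.Agent.P.MP_b75a1e_co.FLOsc
import Pool.Agent.P.MP_b75a1e_co.FLArith

set_option autoImplicit false

open Finset
open scoped BigOperators ComplexConjugate

namespace Pool.Agent.P.MP_b75a1e_co.EG

variable {m s y J : ℕ} {k ν : ℝ} {F U : Finset (O m)} {e : O m}

theorem cs_FLWide {ι κ β : Type} (F : Finset ι) (G : Finset κ) (B : Finset β) (π : β → ι)
    (hB : ∀ i ∈ F, ∃ b ∈ B, π b = i) (f : ι → κ → ℂ) :
    ‖∑ i ∈ F, ∑ j ∈ G, f i j‖ ^ 2 ≤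
      F.card * ∑ j ∈ G, ∑ j' ∈ G, ‖∑ b ∈ B, f (π b) j * conj (f (π b) j')‖ := by
  classical
  have h1 : ‖∑ i ∈ F, ∑ j ∈ G, f i j‖ ^ 2 ≤ F.card * ∑ i ∈ F, ‖∑ j ∈ G, f i j‖ ^ 2 :=
    le_trans (pow_le_pow_left₀ (norm_nonneg _) (norm_sum_le _ _) 2) sq_sum_le_card_mul_sum_sq
  refine h1.trans (mul_le_mul_of_nonneg_left ?_ (Nat.cast_nonneg _))
  have h2 : ∑ i ∈ F, ‖∑ j ∈ G, f i j‖ ^ 2 ≤ ∑ b ∈ B, ‖∑ j ∈ G, f (π b) j‖ ^ 2 := by
    refine le_trans (sum_le_sum_of_subset_of_nonneg (t := B.image π)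
      (fun i hi => mem_image.2 (hB i hi)) fun _ _ _ => by positivity) ?_
    exact sum_image_le_of_nonneg (f := fun i => ‖∑ j ∈ G, f i j‖ ^ 2) fun _ _ => by positivity
  refine h2.trans ?_
  have h3 : ((∑ b ∈ B, ‖∑ j ∈ G, f (π b) j‖ ^ 2 : ℝ) : ℂ) =
      ∑ j ∈ G, ∑ j' ∈ G, ∑ b ∈ B, f (π b) j * conj (f (π b) j') := by
    push_cast
    simp only [← Complex.mul_conj', map_sum, sum_mul_sum]
    rw [sum_comm]
    exact sum_congr rfl fun j _ => sum_comm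
  calc _ ≤ ‖((∑ b ∈ B, ‖∑ j ∈ G, f (π b) j‖ ^ 2 : ℝ) : ℂ)‖ := by
        rw [Complex.norm_real]; exact le_abs_self _
    _ ≤ _ := by
        rw [h3]
        exact (norm_sum_le _ _).trans (sum_le_sum fun j _ => norm_sum_le _ _)

theorem rp_FLWide {t : ℝ} (ht : 0 < t) (a b : ℕ) (c : ℝ) (h : a * c = -b) :
    (t ^ a) ^ c = (t ^ b)⁻¹ := by
  rw [← Real.rpow_natCast, ← Real.rpow_mul ht.le, h, Real.rpow_neg ht.le, Real.rpow_natCast]

theorem pair_FLWide (hm : 1 ≤ m) (hJ1 : 1 ≤ J) (h1 : 10 * m ^ 2 * J ≤ y) (hJ : y ≤ 20 * m ^ 2 * J)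
    (D : ℕ) (hD : 1 ≤ D) (γ : O m) (ζ : ℂ) {t : ℝ} (ht : 1 ≤ t) (hζ : ‖ζ‖ = t ^ 100)
    (h2 : 20 * D * (m : ℝ) ^ 2 * ‖ζ‖ ≤ y) {δ δ' : O m} (hδ : δ ≠ 0) (hδ' : δ' ≠ 0) :
    ‖∑ b ∈ Ioc ((y : ℤ) / 2) (2 * y) ×ˢ Icc (-(J : ℤ)) J,
      ee (((γ * (tb D (⟨b.1, m * b.2⟩ : O m) * tb D δ)).im : ℝ) / D +
          pr m ζ (rot (⟨b.1, m * b.2⟩ : O m) * rot δ)) *
        conj (ee (((γ * (tb D (⟨b.1, m * b.2⟩ : O m) * tb D δ')).im : ℝ) / D +
          pr m ζ (rot (⟨b.1, m * b.2⟩ : O m) * rot δ')))‖ ≤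
      10 ^ 4 * (m : ℝ) ^ 2 * (t ^ 9)⁻¹ * (y * J) +
        (if ‖rot δ - rot δ'‖ ≤ (t ^ 10)⁻¹ then 6 * ((y : ℝ) * J) else 0) := by
  have ht0 : 0 < t := by linarith
  split_ifs with hn
  · refine le_trans ?_ (le_add_of_nonneg_left (by positivity))
    refine (norm_sum_le _ _).trans ?_
    simp only [norm_mul, Complex.norm_conj, norm_ee, mul_one, sum_const, card_product, nsmul_eq_mul]
    have c1 : (Ioc ((y : ℤ) / 2) (2 * y)).card ≤ 2 * y := by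
      rw [Int.card_Ioc]; omega
    have c2 : (Icc (-(J : ℤ)) J).card ≤ 3 * J := by
      rw [Int.card_Icc]; omega
    have c3 := Nat.mul_le_mul c1 c2
    calc _ ≤ ((2 * y * (3 * J) : ℕ) : ℝ) := by exact_mod_cast c3
      _ = _ := by push_cast; ring
  · rw [add_zero, sum_product]
    have hn' := (not_le.1 hn).le
    have hξ : t ^ 90 ≤ ‖ζ * (rot δ - rot δ')‖ := by
      rw [norm_mul, hζ]
      calc t ^ 90 = t ^ 100 * (t ^ 10)⁻¹ := by field_simp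
        _ ≤ _ := mul_le_mul_of_nonneg_left hn' (by positivity)
    have hξ2 : ‖ζ * (rot δ - rot δ')‖ ≤ ‖ζ‖ * 2 := by
      rw [norm_mul]
      refine mul_le_mul_of_nonneg_left ((norm_sub_le _ _).trans ?_) (norm_nonneg _)
      rw [norm_rot hm hδ, norm_rot hm hδ']; norm_num
    have ho := osc m y J D hm hD h1 hJ
      (fun x j => ee (((γ * (tb D (⟨x, m * j⟩ : O m) * (tb D δ - tb D δ'))).im : ℝ) / D + 0))
      (fun x j => (norm_ee _).le) (fun x j => by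
        refine ee_im_congr hD ?_ 0
        have e1 : (⟨x, m * (j + D)⟩ : O m) = ⟨x, m * j⟩ + (D : O m) * ⟨0, m⟩ := by
          ext <;> simp <;> ring
        rw [e1, ← mul_sub, ← sub_mul]
        exact ((tb_shift D _ _).mul_right _).mul_left _)
      (ζ * (rot δ - rot δ')) ((one_le_pow₀ ht).trans hξ)
      (le_trans (mul_le_mul_of_nonneg_left hξ2 (by positivity)) (by linarith))
    have hp : ‖ζ * (rot δ - rot δ')‖ ^ (-1 / 10 : ℝ) ≤ (t ^ 9)⁻¹ := by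
      rw [← rp_FLWide ht0 90 9 (-1 / 10) (by norm_num)]
      exact Real.rpow_le_rpow_of_nonpos (by positivity) hξ (by norm_num)
    refine le_trans (le_of_eq ?_) (ho.trans ?_)
    · congr 1
      refine sum_congr rfl fun x _ => sum_congr rfl fun j _ => ?_
      rw [← ee_neg, ← ee_add, ← ee_add]
      congr 1
      simp only [pr, mul_sub, Zsqrtd.im_sub]
      have e2 : ∀ a b c : ℂ, (ζ * a - ζ * b) * c = ζ * (c * a) - ζ * (c * b) := fun a b c => by ring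
      rw [e2, Complex.sub_im]
      push_cast
      ring
    · gcongr

theorem Sm_arch (hS : Sml m k) (h : Fam m y J k F) (hJ : y ≤ 20 * m ^ 2 * J) (D : ℕ) (hD : 1 ≤ D)
    (γ : O m) (ζ : ℂ) (h1 : k ^ 1000 ≤ ‖ζ‖) (h2 : 20 * D * (m : ℝ) ^ 2 * ‖ζ‖ ≤ y) :
    ‖Sm F D γ ζ‖ ≤ ‖ζ‖ ^ (-1 / 25 : ℝ) := by
  classical
  have hm := hS.m1
  have hk := hS.k1
  have hmk := hS.mk'
  have hk0 : (1 : ℝ) ≤ k := le_trans (by norm_num) hk
  have hT : 0 < ‖ζ‖ := lt_of_lt_of_le (by positivity) h1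
  obtain ⟨t, ht0, hζ⟩ : ∃ t : ℝ, 0 < t ∧ ‖ζ‖ = t ^ 100 :=
    ⟨‖ζ‖ ^ ((100 : ℕ) : ℝ)⁻¹, by positivity, (Real.rpow_inv_natCast_pow hT.le (by norm_num)).symm⟩
  have htk : k ^ 10 ≤ t := by
    refine le_of_pow_le_pow_left₀ (n := 100) (by norm_num) ht0.le ?_
    rw [← pow_mul, ← hζ]
    exact h1
  have ht : 1 ≤ t := (one_le_pow₀ hk0).trans htk
  have hn : (0 : ℝ) < F.card := by exact_mod_cast (h.ne hm).card_pos
  have hm1 : (1 : ℝ) ≤ m := by exact_mod_cast hm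
  have hD1 : (1 : ℝ) ≤ D := by exact_mod_cast hD
  have hy : t ^ 10 ≤ y := by
    have e1 : t ^ 10 ≤ t ^ 100 := pow_le_pow_right₀ ht (by norm_num)
    have e2 : (1 : ℝ) ≤ 20 * D * (m : ℝ) ^ 2 := by nlinarith [one_le_pow₀ (n := 2) hm1]
    have e3 := mul_le_mul_of_nonneg_right e2 hT.le
    linarith
  have hy0 : (0 : ℝ) < y := lt_of_lt_of_le (by positivity) hy
  have hcs := cs_FLWide F F (Ioc ((y : ℤ) / 2) (2 * y) ×ˢ Icc (-(J : ℤ)) J)
    (fun b => (⟨b.1, m * b.2⟩ : O m)) (fun δ hδ => by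
      obtain ⟨b1, b2, ⟨j, hj⟩, b4⟩ := h.box δ hδ
      refine ⟨(δ.re, j), ?_, ?_⟩
      · rw [hj, abs_mul, abs_of_nonneg (Int.natCast_nonneg m)] at b4
        have b5 := abs_le.1 (le_of_mul_le_mul_left b4 (by exact_mod_cast hm))
        simp only [mem_product, mem_Ioc, mem_Icc]
        omega
      · ext
        · rfl
        · exact hj.symm)
    (fun δ1 δ2 => ee (((γ * (tb D δ1 * tb D δ2)).im : ℝ) / D + pr m ζ (rot δ1 * rot δ2)))
  have hnear : ∀ δ' ∈ F, ((F.filter fun δ => ‖rot δ - rot δ'‖ ≤ (t ^ 10)⁻¹).card : ℝ) ≤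
      280 * k ^ 3 * (t ^ 10)⁻¹ * F.card := by
    intro δ' hδ'
    have c1 := cnt_arc h hm hJ hδ' (2 * (t ^ 10)⁻¹) (by positivity)
    refine le_trans (Nat.cast_le.2 (card_le_card fun δ hδ => ?_)) (c1.trans ?_)
    · rw [mem_filter] at hδ ⊢
      refine ⟨hδ.1, ?_⟩
      have c2 := norm_rot_sub hm (h.ne_zero hδ.1) (h.ne_zero hδ')
      have c3 : ‖rot δ - rot δ'‖ * (‖ph m δ‖ * ‖ph m δ'‖) ≤ (t ^ 10)⁻¹ * (2 * y * (2 * y)) := by
        have := (h.abs hδ.1).2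
        have := (h.abs hδ').2
        have := hδ.2
        gcongr
      linarith
    · have c4 : 1 / (y : ℝ) ≤ (t ^ 10)⁻¹ := by
        rw [one_div]; exact inv_anti₀ (by positivity) hy
      calc _ ≤ 40 * k * k ^ 2 * (3 * (2 * (t ^ 10)⁻¹) + (t ^ 10)⁻¹) * F.card := by gcongr
        _ = _ := by ring
  have hsum := hcs.trans (mul_le_mul_of_nonneg_left (sum_le_sum fun δ hδ => sum_le_sum fun δ' hδ' =>
    pair_FLWide hm h.pos h.thin hJ D hD γ ζ ht hζ h2 (h.ne_zero hδ) (h.ne_zero hδ')) hn.le)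
  have hb : ∑ δ ∈ F, ∑ δ' ∈ F, (10 ^ 4 * (m : ℝ) ^ 2 * (t ^ 9)⁻¹ * (y * J) +
      (if ‖rot δ - rot δ'‖ ≤ (t ^ 10)⁻¹ then 6 * ((y : ℝ) * J) else 0)) ≤
      F.card * (F.card * (10 ^ 4 * k ^ 2 * (t ^ 9)⁻¹ * (k * F.card)) +
        280 * k ^ 3 * (t ^ 9)⁻¹ * F.card * (6 * (k * F.card))) := by
    rw [sum_comm]
    refine (sum_le_card_nsmul _ _ _ fun δ' hδ' => ?_).trans (nsmul_eq_mul _ _).le
    rw [sum_add_distrib, sum_const, nsmul_eq_mul, ← sum_filter, sum_const, nsmul_eq_mul]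
    have c1 := hnear δ' hδ'
    have c2 := h.big
    have c3 : (t ^ 10)⁻¹ ≤ (t ^ 9)⁻¹ :=
      inv_anti₀ (by positivity) (pow_le_pow_right₀ ht (by norm_num))
    have c4 : 280 * k ^ 3 * (t ^ 10)⁻¹ * F.card ≤ 280 * k ^ 3 * (t ^ 9)⁻¹ * F.card := by gcongr
    have c5 := c1.trans c4
    gcongr
  have hfin := hsum.trans (mul_le_mul_of_nonneg_left hb hn.le)
  have hS2 : Sm F D γ ζ = (∑ δ1 ∈ F, ∑ δ2 ∈ F,
      ee (((γ * (tb D δ1 * tb D δ2)).im : ℝ) / D + pr m ζ (rot δ1 * rot δ2))) /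
        ((F.card : ℂ) * F.card) := by
    simp only [Sm, expect_eq_sum_div_card]
    rw [← sum_div, div_div]
  rw [hζ, rp_FLWide ht0 100 4 (-1 / 25) (by norm_num), hS2, norm_div, norm_mul, Complex.norm_natCast,
    div_le_iff₀ (by positivity)]
  refine le_of_pow_le_pow_left₀ (n := 2) (by norm_num) (by positivity) (hfin.trans ?_)
  have c6 : 10 ^ 4 * k ^ 3 + 1680 * k ^ 4 ≤ t := by
    have d1 : k ^ 3 ≤ k ^ 4 := pow_le_pow_right₀ hk0 (by norm_num)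
    have d2 : k ^ 5 ≤ k ^ 10 := pow_le_pow_right₀ hk0 (by norm_num)
    have d3 : 10 ^ 10 * k ^ 4 ≤ k * k ^ 4 := mul_le_mul_of_nonneg_right hk (by positivity)
    have d4 : k * k ^ 4 = k ^ 5 := by ring
    have d5 : 0 ≤ k ^ 4 := by positivity
    linarith
  calc _ = (10 ^ 4 * k ^ 3 + 1680 * k ^ 4) * ((t ^ 9)⁻¹ * (F.card : ℝ) ^ 4) := by ring
    _ ≤ t * ((t ^ 9)⁻¹ * (F.card : ℝ) ^ 4) := by gcongr
    _ = _ := by field_simp

theorem wide (hP : Par m s y k ν) (h : Fam m y J k F) (hJ : y ≤ 20 * m ^ 2 * J)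
    (hU : Pile e s ν U) {φ : ℂ → ℂ} (hφ : MB F U e s ν φ) : WB m k ν φ := by
  intro γ D η hD1 hD h1 h2
  have hm := hP.sml.m1
  have hk := hP.sml.k1
  have hmk := hP.sml.mk'
  have hsk := hP.sk
  have hk0 : (1 : ℝ) ≤ k := le_trans (by norm_num) hk
  have hs1 : (1 : ℝ) ≤ s := by exact_mod_cast hP.s1
  have hν1 : k ^ 7 ≤ ν := (pow_le_pow_right₀ hk0 (by norm_num)).trans hP.kν
  have hν2 : 240 * k ^ 6 ≤ ν := by
    have d1 : 240 * k ^ 6 ≤ k * k ^ 6 :=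
      mul_le_mul_of_nonneg_right (le_trans (by norm_num) hk) (by positivity)
    have d2 : k * k ^ 6 = k ^ 7 := by ring
    linarith
  have hk6 : 1 ≤ k ^ 6 := one_le_pow₀ hk0
  have hν3 : 2 ≤ ν := by linarith
  have hν0 : 0 < ν := by linarith
  have hk3 : k ^ 3 ≤ ν := (pow_le_pow_right₀ hk0 (by norm_num)).trans hν1
  have hT0 : 0 < ‖η‖ * ν ^ 1000 := lt_of_lt_of_le (by positivity) h1
  have e23 : ν ^ 23 = ν ^ 22 * ν := by ring
  have h3 : ‖η‖ * ν ^ 1000 ≤ ν ^ 23 := by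
    rw [e23]
    refine h2.trans ?_
    rw [mul_comm]
    exact mul_le_mul_of_nonneg_left hν3 (by positivity)
  have hUn : U.Nonempty := by
    rw [← card_pos]
    have : (0 : ℝ) < U.card := lt_of_lt_of_le (by positivity) hU.crd
    exact_mod_cast this
  have hb := hφ γ D η hD1 (hD.trans (by rw [e23]; gcongr)) h3
  have hE : (𝔼 δ ∈ F, 𝔼 u ∈ U, 𝔼 u' ∈ U,
      ‖Sm F D (γ * (tb D δ * (u + u') + ((4 * s : ℕ) : O m) * e))
        (η * (rot δ * ph m (u + u') + ((4 * s : ℕ) : ℂ) * ph m e))‖) ≤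
      (‖η‖ * ν ^ 1000) ^ (-1 / 25 : ℝ) := by
    refine expect_le (h.ne hm) fun δ hδ => expect_le hUn fun u hu => expect_le hUn fun u' hu' => ?_
    have a1 : ‖rot δ * ph m (u + u')‖ ≤ 2 * (s * ν ^ 1000) := by
      rw [norm_mul, norm_rot hm (h.ne_zero hδ), one_mul, map_add]
      have := hU.norm_le hν0.le hu
      have := hU.norm_le hν0.le hu'
      have := norm_add_le (ph m u) (ph m u')
      linarith
    have a2 : ‖((4 * s : ℕ) : ℂ) * ph m e‖ = 4 * (s * ν ^ 1000) := by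
      rw [norm_mul, Complex.norm_natCast, hU.norm_e hν0.le]
      push_cast
      ring
    have a3 : ν ^ 1000 ≤ s * ν ^ 1000 := le_mul_of_one_le_left (by positivity) hs1
    have a4 : s * ν ^ 1000 ≤ k * ν ^ 1000 := mul_le_mul_of_nonneg_right hsk (by positivity)
    have a0 : 0 < ν ^ 1000 := by positivity
    generalize rot δ * ph m (u + u') = A at a1 ⊢
    generalize ((4 * s : ℕ) : ℂ) * ph m e = B at a2 ⊢
    have a5 : ‖A + B‖ ≤ 6 * (k * ν ^ 1000) := by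
      have := norm_add_le A B
      linarith
    have a6 : ν ^ 1000 ≤ ‖A + B‖ := by
      have := norm_sub_le (A + B) A
      rw [add_sub_cancel_left] at this
      linarith
    have a7 : ‖η‖ * ν ^ 1000 ≤ ‖η * (A + B)‖ := by
      rw [norm_mul]
      exact mul_le_mul_of_nonneg_left a6 (norm_nonneg _)
    have a8 : ‖η * (A + B)‖ ≤ 6 * k * (2 * ν ^ 22) := by
      rw [norm_mul]
      calc _ ≤ ‖η‖ * (6 * (k * ν ^ 1000)) := mul_le_mul_of_nonneg_left a5 (norm_nonneg _)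
        _ = 6 * k * (‖η‖ * ν ^ 1000) := by ring
        _ ≤ _ := mul_le_mul_of_nonneg_left h2 (by positivity)
    refine (Sm_arch hP.sml h hJ D hD1 _ _ (h1.trans a7) ?_).trans
      (Real.rpow_le_rpow_of_nonpos hT0 a7 (by norm_num))
    calc _ ≤ 20 * (ν ^ 22 * k ^ 3) * k ^ 2 * (6 * k * (2 * ν ^ 22)) := by gcongr
      _ = 240 * k ^ 6 * ν ^ 44 := by ring
      _ ≤ ν * ν ^ 44 := by gcongr
      _ = ν ^ 45 := by ring
      _ ≤ y := hP.y1
  have hL : 1 / ν ^ 10 ≤ (‖η‖ * ν ^ 1000) ^ (-1 / 25 : ℝ) := by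
    rw [one_div, ← rp_FLWide hν0 250 10 (-1 / 25) (by norm_num)]
    exact Real.rpow_le_rpow_of_nonpos hT0
      (h3.trans (pow_le_pow_right₀ (by linarith) (by norm_num))) (by norm_num)
  linarith

end Pool.Agent.P.MP_b75a1e_co.EG
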