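import Pool.Agent.P.MP_b75a1e_co.FLPoint
import Pool.Agent.P.MP_b75a1e_co.FLH
import Pool.Agent.P.MP_b75a1e_co.FLM
import Pool.Agent.P.MP_b75a1e_co.FLNarrow
import Pool.Agent.P.MP_b75a1e_co.FLWide
import Pool.Agent.P.MP_b75a1e_co.FLPrimes
import Pool.Agent.P.MP_b75a1e_co.FLFam

set_option autoImplicit false

open Finset
open scoped BigOperators ComplexConjugate

namespace Pool.Agent.P.MP_b75a1e_co.EG

theorem six_FLFlips {a1 a2 a3 b1 b2 b3 : ℝ} (p1 : 0 ≤ a1) (p2 : 0 ≤ a2) (p3 : 0 ≤ a3)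
    (q1 : 0 ≤ b1) (q2 : 0 ≤ b2) (q3 : 0 ≤ b3) (r1 : a1 ≤ 1) (r2 : a2 ≤ 1) (r3 : a3 ≤ 1)
    (s1 : b1 ≤ 1) (s2 : b2 ≤ 1) (s3 : b3 ≤ 1) :
    a1 * a2 * a3 * (b1 * b2 * b3) ≤ a1 ∧ a1 * a2 * a3 * (b1 * b2 * b3) ≤ a2 ∧
      a1 * a2 * a3 * (b1 * b2 * b3) ≤ b2 ∧ a1 * a2 * a3 * (b1 * b2 * b3) ≤ a3 := by
  refine ⟨?_, ?_, ?_, ?_⟩
  · calc _ ≤ a1 * 1 * 1 * (1 * 1 * 1) := by gcongr
      _ = a1 := by ring
  · calc _ ≤ 1 * a2 * 1 * (1 * 1 * 1) := by gcongr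
      _ = a2 := by ring
  · calc _ ≤ 1 * 1 * 1 * (1 * b2 * 1) := by gcongr
      _ = b2 := by ring
  · calc _ ≤ 1 * 1 * a3 * (1 * 1 * 1) := by gcongr
      _ = a3 := by ring

theorem fam_FLFlips {m y J : ℕ} {k : ℝ} (hS : Sml m k) (P : Finset ℕ)
    (hP : ∀ l ∈ P, Split m l ∧ y < l ∧ l ≤ 2 * y) (hc : (y : ℝ) ≤ k ^ 5 * P.card)
    (hJ1 : k ^ 12 < J + 1) (hJ2 : 10 * m ^ 2 * J ≤ y) :
    ∃ F : Finset (O m), Fam m y J (k ^ 20) F := by
  have hk := hS.k1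
  have hk1 : 1 ≤ k := le_trans (by norm_num) hk
  have hm5 : ((m : ℝ) + 1) ^ 5 ≤ 32 * k ^ 5 := by
    calc ((m : ℝ) + 1) ^ 5 ≤ (2 * k) ^ 5 := by
          gcongr
          linarith [hS.mk']
      _ = 32 * k ^ 5 := by ring
  have h10 : 1 ≤ k ^ 10 := one_le_pow₀ hk1
  refine family m y J (k ^ 5) (k ^ 20) hS.m1 P hP hc (one_le_pow₀ hk1) ?_ hJ2 ?_
  · calc 40 * k ^ 5 * ((m : ℝ) + 1) ^ 5 ≤ 40 * k ^ 5 * (32 * k ^ 5) := by gcongr
      _ = 1280 * k ^ 10 := by ring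
      _ ≤ J := by
        have h1 : 1281 * k ^ 10 ≤ k ^ 2 * k ^ 10 := by
          gcongr
          nlinarith
        have h2 : k ^ 2 * k ^ 10 = k ^ 12 := by ring
        linarith
  · calc 80 * (k ^ 5) ^ 2 * ((m : ℝ) + 1) ^ 5 ≤ 80 * (k ^ 5) ^ 2 * (32 * k ^ 5) := by gcongr
      _ = 2560 * k ^ 15 := by ring
      _ ≤ k ^ 5 * k ^ 15 := by
        gcongr
        exact le_trans (by linarith) (le_self_pow₀ hk1 (by norm_num))
      _ = k ^ 20 := by ring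

theorem fams_FLFlips {m s : ℕ} {k ν : ℝ} (hS : Sml m k) (hs1 : 1 ≤ s) (hs : (s : ℝ) ≤ k)
    (hν : k ^ 2000 ≤ ν) (hlog : Real.log ν ≤ k) :
    ∃ (y J J' : ℕ) (F F' : Finset (O m)), Par m s y (k ^ 20) ν ∧ Fam m y J (k ^ 20) F ∧
      y ≤ 20 * m ^ 2 * J ∧ Fam m y J' (k ^ 20) F' ∧ (J' : ℝ) * ν ^ 25 ≤ y := by
  have hk := hS.k1
  have hk1 : 1 ≤ k := le_trans (by norm_num) hk
  have hm1 := hS.m1
  have hmk := hS.mk'
  have hkK : k ≤ k ^ 20 := le_self_pow₀ hk1 (by norm_num)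
  have hkν : ∀ a : ℕ, a ≤ 2000 → k ^ a ≤ ν := fun a ha => (pow_le_pow_right₀ hk1 ha).trans hν
  have hν1 : k ≤ ν := by simpa using hkν 1 (by norm_num)
  have hν2 : 2 ≤ ν := le_trans (by linarith) hν1
  have hν0 : 1 ≤ ν := by linarith
  obtain ⟨X, hX1, hX2⟩ : ∃ X : ℕ, ν ^ 114 ≤ X ∧ (X : ℝ) ≤ ν ^ 115 := by
    refine ⟨⌊ν ^ 115⌋₊, ?_, Nat.floor_le (by positivity)⟩
    have h1 := Nat.lt_floor_add_one (ν ^ 115)
    have h2 : 1 ≤ ν ^ 114 := one_le_pow₀ hν0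
    have h3 : ν ^ 115 = ν * ν ^ 114 := by ring
    nlinarith
  have hνX : ν ≤ X := (le_self_pow₀ hν0 (by norm_num)).trans hX1
  have hX : (10 ^ 4 * m) ^ 200 ≤ X := by
    have h1 : ((10 ^ 4 * m : ℕ) : ℝ) ≤ k ^ 2 := by
      push_cast
      nlinarith
    have h2 : ((10 ^ 4 * m : ℕ) : ℝ) ^ 200 ≤ X :=
      calc ((10 ^ 4 * m : ℕ) : ℝ) ^ 200 ≤ (k ^ 2) ^ 200 :=
            pow_le_pow_left₀ (Nat.cast_nonneg _) h1 _
        _ = k ^ (2 * 200) := (pow_mul _ _ _).symm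
        _ ≤ X := (hkν _ (by norm_num)).trans hνX
    rw [← Nat.cast_pow] at h2
    exact Nat.cast_le.1 h2
  obtain ⟨y, P, hy1, hy2, hP, hc⟩ := big_primes m X hm1 hX
  have hy45 : ν ^ 45 ≤ y := by
    refine le_of_pow_le_pow_left₀ (n := 5) (by norm_num) (Nat.cast_nonneg _) ?_
    calc (ν ^ 45) ^ 5 = ν ^ (45 * 5) := (pow_mul _ _ _).symm
      _ ≤ ν ^ (114 * 2) := pow_le_pow_right₀ hν0 (by norm_num)
      _ = (ν ^ 114) ^ 2 := pow_mul _ _ _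
      _ ≤ (X : ℝ) ^ 2 := pow_le_pow_left₀ (by positivity) hX1 _
      _ ≤ (y : ℝ) ^ 5 := by exact_mod_cast hy1
  have hνy : ν ≤ y := (le_self_pow₀ hν0 (by norm_num)).trans hy45
  have hlX : Real.log X ≤ k * k := by
    calc Real.log X ≤ Real.log (ν ^ 115) := Real.log_le_log (by linarith) hX2
      _ = 115 * Real.log ν := by rw [Real.log_pow]; norm_num
      _ ≤ 115 * k := by linarith
      _ ≤ k * k := by gcongr; linarith
  have hc' : (y : ℝ) ≤ k ^ 5 * P.card := by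
    refine hc.trans (mul_le_mul_of_nonneg_right ?_ (Nat.cast_nonneg _))
    calc 10 ^ 10 * (m : ℝ) ^ 2 * Real.log X ≤ 10 ^ 10 * (m : ℝ) ^ 2 * (k * k) := by gcongr
      _ ≤ k * k ^ 2 * (k * k) := by gcongr
      _ = k ^ 5 := by ring
  have h10 : 10 * (m : ℝ) ^ 2 ≤ k ^ 3 := by
    calc 10 * (m : ℝ) ^ 2 ≤ k * k ^ 2 := by gcongr; linarith
      _ = k ^ 3 := by ring
  have hpos : 0 < 10 * m ^ 2 := by positivity
  have hw1 : y < 10 * m ^ 2 * (y / (10 * m ^ 2) + 1) := Nat.lt_mul_div_succ y hpos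
  have hw2 : 10 * m ^ 2 * (y / (10 * m ^ 2)) ≤ y := Nat.mul_div_le _ _
  generalize y / (10 * m ^ 2) = J at hw1 hw2
  have hw3 : k ^ 12 < J + 1 := by
    have h1 : (y : ℝ) < 10 * (m : ℝ) ^ 2 * (J + 1) := by exact_mod_cast hw1
    have h2 : 10 * (m : ℝ) ^ 2 * (J + 1) ≤ k ^ 3 * (J + 1) := by gcongr
    have h3 : k ^ 3 * k ^ 12 ≤ y := by
      rw [← pow_add]
      exact (hkν _ (by norm_num)).trans hνy
    exact lt_of_mul_lt_mul_left (a := k ^ 3) (by linarith) (by positivity)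
  have hJ1 : 1 ≤ J := by
    have h1 : (2 : ℝ) ≤ k ^ 12 := le_trans (by linarith) (le_self_pow₀ hk1 (by norm_num))
    have h2 : (1 : ℝ) < J := by linarith
    exact_mod_cast h2.le
  obtain ⟨F, hF⟩ := fam_FLFlips hS P hP hc' hw3 hw2
  have h25 : 0 < ν ^ 25 := by positivity
  have hn1 : (⌊(y : ℝ) / ν ^ 25⌋₊ : ℝ) * ν ^ 25 ≤ y :=
    (le_div_iff₀ h25).1 (Nat.floor_le (by positivity))
  have hn2 : k ^ 12 < ⌊(y : ℝ) / ν ^ 25⌋₊ + 1 := by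
    refine lt_of_le_of_lt ?_ (Nat.lt_floor_add_one _)
    rw [le_div_iff₀ h25]
    calc k ^ 12 * ν ^ 25 ≤ ν ^ 20 * ν ^ 25 := by
          gcongr
          exact (hkν _ (by norm_num)).trans (le_self_pow₀ hν0 (by norm_num))
      _ = ν ^ 45 := by ring
      _ ≤ y := hy45
  generalize ⌊(y : ℝ) / ν ^ 25⌋₊ = J' at hn1 hn2
  have hn3 : 10 * m ^ 2 * J' ≤ y := by
    have h1 : 10 * (m : ℝ) ^ 2 * J' ≤ y := by
      refine le_trans ?_ hn1
      rw [mul_comm]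
      gcongr
      exact h10.trans ((hkν _ (by norm_num)).trans (le_self_pow₀ hν0 (by norm_num)))
    exact_mod_cast h1
  obtain ⟨F', hF'⟩ := fam_FLFlips hS P hP hc' hn2 hn3
  refine ⟨y, J, J', F, F', ⟨⟨hm1, hk.trans hkK, hmk.trans hkK, fun n hn =>
    (hS.tau n hn).trans (by gcongr)⟩, hs1, hs.trans hkK, ?_, hy45,
      le_trans (by exact_mod_cast hy2) hX2⟩, hF, by nlinarith, hF', hn1⟩
  rw [← pow_mul]
  exact hν

open Classical in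
/-- Rotated piles control all minor arcs at linear cost. -/
theorem flips (m p s Mg : ℕ) (k ν H NN0 : ℝ) (e g : O m) (U : Finset (O m)) (hS : Sml m k)
    (hs1 : 1 ≤ s) (hs : (s : ℝ) ≤ k) (hp1 : 1 ≤ p) (hp : (p : ℝ) ≤ k) (hν : k ^ 2000 ≤ ν)
    (hlog : Real.log ν ≤ k) (hH : k ^ 160000 ≤ H) (hU : Pile e s ν U)
    (hg : IsCoprime (g * e) (star (g * e))) (hgn : (g.norm : ℝ) ^ 10 ≤ ν) (h0 : 0 < NN0)
    (h1 : NN0 ≤ (g * e).norm) (h2 : ((g * e).norm : ℝ) ≤ 2 * NN0)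
    (hMg : (Mg : ℝ) ≤ 9 * p * Real.sqrt NN0) :
    ∃ φ : ℂ → ℂ, Adm e (35820 * s) φ ∧
      ∑ n ∈ (grid Mg).filter (fun n => ¬ Low m (gp m Mg n) (H ^ 3) NN0),
        ‖φ (gp m Mg n / ph m (mu m) * ph m g)‖ * ‖φ (conj (gp m Mg n) / ph m (mu m) * ph m g)‖ ≤
        1 / 10 := by
  obtain ⟨y, J, J', F, F', hP, hF, hJ, hF', hJ'⟩ := fams_FLFlips hS hs1 hs hν hlog
  obtain ⟨φ1, a1, p1⟩ := hblock hP hF hJ hU
  obtain ⟨φ2, a2, p2⟩ := mblock hP hF' hU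
  obtain ⟨φ3, a3, p3⟩ := mblock hP hF hU
  have hk := hS.k1
  have hk1 : 1 ≤ k := le_trans (by norm_num) hk
  have hk3 : k ^ 3 ≤ ν := (pow_le_pow_right₀ hk1 (by norm_num)).trans hν
  have hν0 : 1 ≤ ν := (one_le_pow₀ hk1).trans hk3
  have hk2 : k ^ 2 ≤ H := (pow_le_pow_right₀ hk1 (by norm_num)).trans hH
  have hH1 : 1 ≤ H := (one_le_pow₀ hk1).trans hk2
  have hH' : (k ^ 20) ^ 8000 ≤ H := by
    rw [← pow_mul]
    exact hH
  have hA := ((a1.pow 2010).mul (a2.pow 3600)).mul (a3.pow 360)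
  rw [show 2010 * (6 * s) + 3600 * (6 * s) + 360 * (6 * s) = 35820 * s by ring] at hA
  refine ⟨_, hA, ?_⟩
  have hsix := fun b b' : ℂ => six_FLFlips (a1 := ‖φ1 b‖ ^ 2010) (a2 := ‖φ2 b‖ ^ 3600)
    (a3 := ‖φ3 b‖ ^ 360) (b1 := ‖φ1 b'‖ ^ 2010) (b2 := ‖φ2 b'‖ ^ 3600) (b3 := ‖φ3 b'‖ ^ 360)
    (by positivity) (by positivity) (by positivity) (by positivity) (by positivity) (by positivity)
    (pow_le_one₀ (norm_nonneg _) (a1.norm_le b)) (pow_le_one₀ (norm_nonneg _) (a2.norm_le b))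
    (pow_le_one₀ (norm_nonneg _) (a3.norm_le b)) (pow_le_one₀ (norm_nonneg _) (a1.norm_le b'))
    (pow_le_one₀ (norm_nonneg _) (a2.norm_le b')) (pow_le_one₀ (norm_nonneg _) (a3.norm_le b'))
  simp only [norm_mul, norm_pow]
  rw [← sum_filter_add_sum_filter_not _
    fun n => ‖φ1 (gp m Mg n / ph m (mu m) * ph m g)‖ ≤ 1 / ν]
  refine le_trans (add_le_add (b := 1 / 20) (d := 1 / 20) ?_ ?_) (by norm_num)
  · refine le_trans (sum_le_card_nsmul _ _ ((1 / ν) ^ 2010) fun n hn => ?_) ?_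
    · exact (hsix _ _).1.trans (pow_le_pow_left₀ (norm_nonneg _) (mem_filter.1 hn).2 _)
    · have hc : ((((grid Mg).filter fun n => ¬ Low m (gp m Mg n) (H ^ 3) NN0).filter
          fun n => ‖φ1 (gp m Mg n / ph m (mu m) * ph m g)‖ ≤ 1 / ν).card : ℝ) ≤ (Mg : ℝ) ^ 2 := by
        have h3 := (card_filter_le _
          fun n => ‖φ1 (gp m Mg n / ph m (mu m) * ph m g)‖ ≤ 1 / ν).trans
          (card_filter_le (grid Mg) fun n => ¬ Low m (gp m Mg n) (H ^ 3) NN0)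
        have h4 : (grid Mg).card = Mg ^ 2 := by simp [grid, sq]
        rw [h4] at h3
        exact_mod_cast h3
      have hgν : (g.norm : ℝ) ≤ ν := by
        rcases le_total (g.norm : ℝ) 1 with h | h
        · exact h.trans hν0
        · exact (le_self_pow₀ h (by norm_num)).trans hgn
      have hN : NN0 ≤ ν * ν ^ 2000 := by
        refine h1.trans ?_
        rw [Zsqrtd.norm_mul, Int.cast_mul, hU.nrm]
        exact mul_le_mul_of_nonneg_right hgν (by positivity)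
      have hM : (Mg : ℝ) ^ 2 ≤ 81 * k ^ 2 * (ν * ν ^ 2000) :=
        calc (Mg : ℝ) ^ 2 ≤ (9 * p * Real.sqrt NN0) ^ 2 := by gcongr
          _ = 81 * (p : ℝ) ^ 2 * NN0 := by rw [mul_pow, Real.sq_sqrt h0.le]; ring
          _ ≤ _ := by gcongr
      have h5 : 81 * k ^ 2 * 20 ≤ ν ^ 9 := by
        refine le_trans ?_ (hk3.trans (le_self_pow₀ hν0 (by norm_num)))
        calc 81 * k ^ 2 * 20 = 1620 * k ^ 2 := by ring
          _ ≤ k * k ^ 2 := by gcongr; linarith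
          _ = k ^ 3 := by ring
      have h6 : ν ^ 2010 = ν ^ 9 * (ν * ν ^ 2000) := by rw [← pow_succ', ← pow_add]
      rw [nsmul_eq_mul, one_div_pow, mul_one_div, div_le_div_iff₀ (by positivity) (by norm_num),
        one_mul, h6]
      generalize ν * ν ^ 2000 = Z at hM hN
      have hZ : 0 ≤ Z := h0.le.trans hN
      calc _ ≤ 81 * k ^ 2 * Z * 20 := by gcongr; exact hc.trans hM
        _ = 81 * k ^ 2 * 20 * Z := by ring
        _ ≤ ν ^ 9 * Z := by gcongr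
  · refine le_trans (dyadic m p Mg hS.m1 hp1 H NN0 hH1 h0 hMg _
      ((filter_subset _ _).trans (filter_subset _ _)) _ fun n hn => ?_) ?_
    · obtain ⟨hn1, hn2⟩ := mem_filter.1 hn
      obtain ⟨H', β, d, c1, c2, c3⟩ := (point hP e g NN0 H hU.nrm hg hgn h0 h1 h2 hH' φ1 φ2 φ3
        a1.norm_le a2.norm_le a3.norm_le p1 (narrow hP hF' hJ' hU p2) (wide hP hF hJ hU p3) _
        (mem_filter.1 hn1).2).resolve_left hn2
      refine ⟨H', β, d, c1, c2, ?_⟩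
      rcases c3 with c3 | c3 | c3
      · exact (hsix _ _).2.1.trans c3
      · exact (hsix _ _).2.2.1.trans c3
      · exact (hsix _ _).2.2.2.trans c3
    · rw [div_le_div_iff₀ (by positivity) (by norm_num), one_mul]
      calc 10 ^ 4 * (p : ℝ) ^ 2 * 20 ≤ 10 ^ 4 * k ^ 2 * 20 := by gcongr
        _ = 200000 * k ^ 2 := by ring
        _ ≤ k ^ 2 * k ^ 2 := by gcongr; nlinarith
        _ = (k ^ 2) ^ 2 := by ring
        _ ≤ H ^ 2 := by gcongr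

end Pool.Agent.P.MP_b75a1e_co.EG
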