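import Pool.Agent.P.MP_b75a1e_co.EGTower

set_option autoImplicit false

open Finset
open scoped BigOperators ComplexConjugate

namespace Pool.Agent.P.MP_b75a1e_co.EG

theorem step_FLTower (m p κ i : ℕ) (hm : 2 ≤ m) (hmp : m ≤ 4 ^ p) (hp : 10 ^ 20 ≤ p) (hκ1 : p ^ 20 ≤ 2 ^ κ)
    (hκp : 1002 * κ ≤ p) (PP : Finset ℕ) (hPP : ∀ l ∈ PP, Split m l ∧ l ≤ 2 ^ (1001 * κ))
    (hc : 2 ^ (998 * κ) ≤ PP.card) (S : St m) (hS : S.Ok PP (996 * κ) i) (h1 : p ^ 4 ≤ S.D.card)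
    (h2 : S.D.card ≤ p ^ 37) :
    ∃ S' : St m, S'.Ok PP (996 * κ) (i + 1) ∧ S.e ∣ S'.e ∧
      (996 * κ + 1) * S.D.card ≤ 996 * κ * S'.D.card ∧
      1000 * (996 * κ) * S'.D.card ≤ (1000 * (996 * κ) + 1001) * S.D.card := by
  classical
  have hp6 : 10 ^ 6 ≤ p := le_trans (by norm_num) hp
  have hκ : 1 ≤ κ := kappa_pos_EGStep p κ hp hκ1
  have hsq := sq_EGStep p κ hκ1
  have hm1 : 1 ≤ m := by omega
  obtain ⟨k, hk⟩ : ∃ k, k = 996 * κ := ⟨_, rfl⟩
  obtain ⟨r, hr⟩ : ∃ r, r = S.D.card := ⟨_, rfl⟩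
  obtain ⟨w, hw⟩ : ∃ w, w = 999 * r / 1000 := ⟨_, rfl⟩
  have hk1 : 1 ≤ k := by omega
  rw [← hk] at hS ⊢
  rw [← hr] at h1 h2 ⊢
  have hwV : 2 ^ w ≤ S.V.card := by
    have h3 : (2 ^ w) ^ 1000 ≤ S.V.card ^ 1000 := by
      calc (2 ^ w) ^ 1000 = 2 ^ (w * 1000) := (pow_mul 2 w 1000).symm
        _ ≤ 2 ^ (999 * S.D.card) := Nat.pow_le_pow_right (by norm_num) (by omega)
        _ ≤ _ := hS.big
    exact (Nat.pow_le_pow_iff_left (by norm_num)).1 h3
  obtain ⟨W, hWV, hWc⟩ := Finset.exists_subset_card_eq hwV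
  have hp37 : 1 ≤ p ^ 37 := Nat.one_le_pow _ _ (by omega)
  have hp2 : p ^ 2 ≤ p ^ 37 := Nat.pow_le_pow_right (by omega) (by norm_num)
  have hp38 : 100 * p ^ 37 ≤ p ^ 38 := by
    calc 100 * p ^ 37 ≤ p * p ^ 37 := Nat.mul_le_mul_right _ (by omega)
      _ = p ^ 38 := by ring
  have hp40 : 64 * p ^ 38 ≤ p ^ 40 := by
    calc 64 * p ^ 38 ≤ p * p ^ 38 := Nat.mul_le_mul_right _ (by omega)
      _ = p ^ 39 := by ring
      _ ≤ p ^ 40 := Nat.pow_le_pow_right (by omega) (by norm_num)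
  have hpow : 2 ^ (998 * κ) = 2 * 2 ^ (998 * κ - 1) := by
    rw [← pow_succ']
    congr 1
    omega
  have hpow2 : 2 ^ (2 * κ) ≤ 2 ^ (998 * κ - 1) := Nat.pow_le_pow_right (by norm_num) (by omega)
  have hdiv : r / k ≤ r := Nat.div_le_self _ _
  have hcard : 2 ^ (998 * κ - 1) + (r / k + 1) + 2 * p ^ 2 ≤ (PP \ S.D).card := by
    have h3 := Finset.le_card_sdiff S.D PP
    omega
  have hlam : 2 ^ (k + 5) * p ^ 38 ≤ 2 ^ (998 * κ - 1) := by
    have h3 : 2 ^ (998 * κ) = 2 ^ k * 2 ^ (2 * κ) := by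
      rw [← pow_add]
      congr 1
      omega
    have h4 : 2 ^ k * (64 * p ^ 38) ≤ 2 ^ k * 2 ^ (2 * κ) :=
      Nat.mul_le_mul_left _ (hp40.trans hsq)
    have h5 : 2 ^ k * (64 * p ^ 38) = 2 * (2 ^ (k + 5) * p ^ 38) := by ring
    omega
  have hn : (∏ l ∈ S.D, (l : ℤ)) ≤ 2 ^ (1001 * κ * r) := by
    have h3 : ∏ l ∈ S.D, l ≤ (2 ^ (1001 * κ)) ^ S.D.card :=
      Finset.prod_le_pow_card _ _ _ fun l hl => (hPP l (hS.sub hl)).2
    rw [← pow_mul, ← hr] at h3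
    have h4 : ((∏ l ∈ S.D, l : ℕ) : ℤ) ≤ ((2 ^ (1001 * κ * r) : ℕ) : ℤ) := Int.ofNat_le.2 h3
    rw [Nat.cast_prod, Nat.cast_pow] at h4
    exact h4
  have hW : ∀ v ∈ W, ∀ v' ∈ W, v ≠ v' → (v - v').norm.natAbs.primeFactors.card ≤ p ^ 38 := by
    intro v hv v' hv' _
    have h3 := norm_sub_le_EGStep v v'
    rw [hS.box.nrm v (hWV hv), hS.box.nrm v' (hWV hv')] at h3
    have h4 : (v - v').norm.natAbs ≤ 2 ^ (1001 * κ * r + 2) := by
      have h5 : (((v - v').norm.natAbs : ℕ) : ℤ) ≤ 2 ^ (1001 * κ * r + 2) := by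
        rw [Int.natAbs_of_nonneg (norm_nonneg' _), pow_add]
        linarith
      exact_mod_cast h5
    refine (pf_card_EGStep _ _ h4).trans ?_
    have h6 : 1001 * κ * r ≤ 1001 * κ * p ^ 37 := Nat.mul_le_mul_left _ h2
    have h7 : 1002 * κ * p ^ 37 ≤ p * p ^ 37 := Nat.mul_le_mul_right _ hκp
    have h8 : p * p ^ 37 = p ^ 38 := by ring
    have h9 : 1 * p ^ 37 ≤ κ * p ^ 37 := Nat.mul_le_mul_right _ hκ
    have h10 : 2 ≤ p ^ 37 := le_trans (by nlinarith) hp2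
    have h11 : 1002 * κ * p ^ 37 = 1001 * κ * p ^ 37 + κ * p ^ 37 := by ring
    omega
  have hτ0 : r + 1 ≤ k * (r / k + 1) := Nat.lt_mul_div_succ r hk1
  have hτ : r + 1 ≤ (k + 1) * (r / k + 1) := hτ0.trans (Nat.mul_le_mul_right _ (by omega))
  have hWr : W.card ≤ 2 ^ r := by
    rw [hWc]
    exact Nat.pow_le_pow_right (by norm_num) (by omega)
  obtain ⟨D, hD, ρ, E, hB, hτ1, hτ2, hbig, W', hW'W, hW'c, hsep⟩ := level m p hm hmp hp6 (PP \ S.D)
    (fun l hl => (hPP l (Finset.mem_sdiff.1 hl).1).1) W k (p ^ 38) (2 ^ (998 * κ - 1)) (r / k + 1) r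
    hcard (by omega) hlam hW hWr hτ
  have hE : E.Nonempty := by
    rw [← Finset.card_pos]
    rcases Nat.eq_zero_or_pos E.card with h0 | h0
    · rw [h0] at hbig
      simp at hbig
    · exact h0
  obtain ⟨e, he⟩ := hE
  have hDs : ∀ l ∈ D, Split m l := fun l hl => (hPP l (Finset.mem_sdiff.1 (hD hl)).1).1
  have hSs : ∀ l ∈ S.D, Split m l := fun l hl => (hPP l (hS.sub hl)).1
  have hdisj : Disjoint S.D D :=
    Finset.disjoint_left.2 fun l hl hl' => (Finset.mem_sdiff.1 (hD hl')).2 hl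
  obtain ⟨hBm, hBc⟩ := Box.mul hm hS.box hB hdisj hSs hDs
  have hcu : (S.D ∪ D).card = r + D.card := by rw [Finset.card_union_of_disjoint hdisj, hr]
  have hlow : r ≤ k * D.card := le_trans (by omega) (hτ0.trans (Nat.mul_le_mul_left _ hτ1))
  have hup : 1000 * k * D.card ≤ 1001 * r := by
    have h3 : k * D.card ≤ k * (r / k + 1 + p ^ 2) := Nat.mul_le_mul_left _ hτ2
    have h4 : k * (r / k) ≤ r := Nat.mul_div_le _ _
    have h5 : k ≤ p := by omega
    have h6 : 1 ≤ p ^ 2 := Nat.one_le_pow _ _ (by omega)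
    have h7 : k * (1 + p ^ 2) ≤ p * (2 * p ^ 2) := Nat.mul_le_mul h5 (by omega)
    have h8 : 2000 * p ^ 3 ≤ p ^ 4 := by
      calc 2000 * p ^ 3 ≤ p * p ^ 3 := Nat.mul_le_mul_right _ (by omega)
        _ = p ^ 4 := by ring
    have h9 : p * (2 * p ^ 2) = 2 * p ^ 3 := by ring
    have h10 : k * (r / k + 1 + p ^ 2) = k * (r / k) + k * (1 + p ^ 2) := by ring
    have h11 : 1000 * k * D.card = 1000 * (k * D.card) := by ring
    omega
  have hen : e.norm = ∏ l ∈ D, (l : ℤ) := hB.nrm e he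
  have he0 : e ≠ 0 := by
    intro h0
    rw [h0, Zsqrtd.norm_zero] at hen
    exact Finset.prod_ne_zero_iff.2
      (fun l hl => Int.natCast_ne_zero.2 (hDs l hl).1.ne_zero) hen.symm
  have hcop : IsCoprime e (star e) := hB.coprime_star hDs he
  have hres : (m : O m) ^ 2 ∣ star e - e := by
    have h3 := dvd_star (hB.res e he)
    rw [star_pow, star_natCast, star_sub, star_intCast] at h3
    have h4 : star e - e = (star e - (ρ : O m)) - (e - (ρ : O m)) := by ring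
    rw [h4]
    exact dvd_sub h3 (hB.res e he)
  refine ⟨⟨S.D ∪ D, S.ρ * ρ, image₂ (· * ·) S.V E, S.e * e, fun j => match j with
      | 0 => {0}
      | j + 1 => image₂ (fun v u => star e * v + e * u) W' (S.U j)⟩,
    ⟨?_, hBm, ?_, Finset.mem_image₂_of_mem hS.mem he, ?_, ?_⟩, Dvd.intro _ rfl, ?_, ?_⟩
  · exact Finset.union_subset hS.sub fun l hl => (Finset.mem_sdiff.1 (hD hl)).1
  · show 2 ^ (999 * (S.D ∪ D).card) ≤ (image₂ (· * ·) S.V E).card ^ 1000
    rw [hBc, hcu, mul_add, pow_add, mul_pow, hr]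
    exact Nat.mul_le_mul hS.big hbig
  · intro j u hu
    cases j with
    | zero =>
      obtain rfl : u = 0 := Finset.mem_singleton.1 hu
      exact sumRes_zero_EGStep _
    | succ j =>
      obtain ⟨v, hv, u0, hu0, rfl⟩ := Finset.mem_image₂.1 hu
      obtain ⟨L, hL1, hL2, hL3⟩ := hS.sum j u0 hu0
      have hvV : v ∈ S.V := hWV (hW'W hv)
      refine ⟨(star e * v) ::ₘ L.map (fun a => e * a), by simp [hL1], ?_, ?_⟩
      · intro a ha
        rcases Multiset.mem_cons.1 ha with rfl | ha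
        · constructor
          · show (star e * v).norm = (S.e * e).norm
            rw [Zsqrtd.norm_mul, Zsqrtd.norm_mul, Zsqrtd.norm_conj, hS.box.nrm v hvV,
              hS.box.nrm _ hS.mem, mul_comm]
          · show (m : O m) ^ 2 ∣ star e * v - S.e * e
            have h3 : star e * v - S.e * e =
                (star e - e) * v + e * ((v - (S.ρ : O m)) - (S.e - (S.ρ : O m))) := by ring
            rw [h3]
            exact dvd_add (hres.mul_right _)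
              ((dvd_sub (hS.box.res v hvV) (hS.box.res _ hS.mem)).mul_left _)
        · obtain ⟨a0, ha0, rfl⟩ := Multiset.mem_map.1 ha
          constructor
          · show (e * a0).norm = (S.e * e).norm
            rw [Zsqrtd.norm_mul, Zsqrtd.norm_mul, (hL2 a0 ha0).1, mul_comm]
          · show (m : O m) ^ 2 ∣ e * a0 - S.e * e
            have h3 : e * a0 - S.e * e = e * (a0 - S.e) := by ring
            rw [h3]
            exact (hL2 a0 ha0).2.mul_left _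
      · rw [Multiset.sum_cons, Multiset.sum_map_mul_left, Multiset.map_id', hL3]
  · intro j hj
    cases j with
    | zero => simp
    | succ j =>
      have hinj : Set.InjOn (fun x : O m × O m => star e * x.1 + e * x.2)
          ((W' : Set (O m)) ×ˢ (S.U j : Set (O m))) := by
        rintro ⟨v, u⟩ ⟨hv, -⟩ ⟨v', u'⟩ ⟨hv', -⟩ h
        have h3 : star e * v + e * u = star e * v' + e * u' := h
        have h4 : e ∣ star e * (v - v') := ⟨u' - u, by linear_combination h3⟩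
        have h5 : e ∣ v - v' := hcop.dvd_of_dvd_mul_left h4
        have h6 : v = v' := by
          by_contra hne
          exact hsep v hv v' hv' hne (hen ▸ norm_dvd_norm h5)
        subst h6
        have h7 : u = u' := o_cancel hm1 he0 (by linear_combination h3)
        rw [h7]
      have hcardU : (image₂ (fun v u => star e * v + e * u) W' (S.U j)).card =
          W'.card * (S.U j).card := Finset.card_image₂_iff.2 hinj
      show (2 : ℝ) ^ ((998 / 1000 : ℝ) * k * ((S.D ∪ D).card : ℕ) *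
          (1 - ((k : ℝ) / (k + 1)) ^ (j + 1)) - 2 * ((j + 1 : ℕ) : ℝ)) ≤
        ((image₂ (fun v u => star e * v + e * u) W' (S.U j)).card : ℝ)
      rw [hcardU, hcu, Nat.cast_mul]
      have h3 := hS.crd j (by omega)
      rw [← hr] at h3
      have h4 : (2 : ℝ) ^ ((w : ℝ) - 1) ≤ W'.card := by
        rw [Real.rpow_sub (by norm_num), Real.rpow_natCast, Real.rpow_one, div_le_iff₀ (by norm_num)]
        rw [hWc] at hW'c
        have h5 : ((2 ^ w : ℕ) : ℝ) ≤ ((2 * W'.card : ℕ) : ℝ) := by exact_mod_cast hW'c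
        push_cast at h5
        linarith
      calc _ ≤ (2 : ℝ) ^ (((w : ℝ) - 1) + ((998 / 1000 : ℝ) * k * r *
              (1 - ((k : ℝ) / (k + 1)) ^ j) - 2 * j)) :=
            Real.rpow_le_rpow_of_exponent_le (by norm_num)
              (expo_EGStep k r D.card j w hk1 hlow hup (by omega))
        _ = (2 : ℝ) ^ ((w : ℝ) - 1) * (2 : ℝ) ^ ((998 / 1000 : ℝ) * k * r *
              (1 - ((k : ℝ) / (k + 1)) ^ j) - 2 * j) := Real.rpow_add (by norm_num) _ _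
        _ ≤ _ := mul_le_mul h4 h3 (by positivity) (Nat.cast_nonneg _)
  · show (k + 1) * r ≤ k * (S.D ∪ D).card
    rw [hcu]
    nlinarith
  · show 1000 * k * (S.D ∪ D).card ≤ (1000 * k + 1001) * r
    rw [hcu]
    nlinarith

theorem states_FLTower (m p κ lp : ℕ) (hm : 2 ≤ m) (hmp : m ≤ 4 ^ p) (hp : 10 ^ 20 ≤ p)
    (hlp : p < 2 ^ lp) (hlp2 : 2 ^ lp ≤ 2 * p) (hκ1 : 20 * lp ≤ κ) (hκ2 : 1002 * κ ≤ p) (hκ0 : 1 ≤ κ)
    (PP : Finset ℕ) (hPP : ∀ l ∈ PP, Split m l ∧ 2 ^ (990 * κ) < l ∧ l ≤ 2 ^ (1001 * κ))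
    (hc : 2 ^ (998 * κ) ≤ PP.card) :
    ∃ S : ℕ → St m,
      (∀ i ≤ 9 * (996 * κ) + 216 * lp * (996 * κ / 10), (S i).Ok PP (996 * κ) i ∧
        p ^ 4 ≤ (S i).D.card ∧ (S i).D.card ≤ p ^ 37 ∧
        ((S i).D.card : ℝ) ≤ 2 * (p : ℝ) ^ 4 * (1 + (1001 / 1000 : ℝ) / (996 * κ : ℕ)) ^ i) ∧
      ∀ i < 9 * (996 * κ) + 216 * lp * (996 * κ / 10), (S i).e ∣ (S (i + 1)).e ∧
        (1 + 1 / ((996 * κ : ℕ) : ℝ)) * (S i).D.card ≤ (S (i + 1)).D.card ∧
        ((S (i + 1)).D.card : ℝ) ≤ (1 + (1001 / 1000 : ℝ) / (996 * κ : ℕ)) * (S i).D.card := by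
  have hκ3 : p ^ 20 ≤ 2 ^ κ := by
    calc p ^ 20 ≤ (2 ^ lp) ^ 20 := Nat.pow_le_pow_left hlp.le 20
      _ = 2 ^ (20 * lp) := by rw [← pow_mul, mul_comm]
      _ ≤ 2 ^ κ := Nat.pow_le_pow_right (by norm_num) hκ1
  obtain ⟨S0, hS0, h01, h02⟩ := start m p κ hm hmp hp hκ3 PP (fun l hl => (hPP l hl).1) hc
  have hk : 1 ≤ 996 * κ := by omega
  have hp1 : 1 ≤ p := le_trans (by norm_num) hp
  have hp' : (10 : ℝ) ^ 20 ≤ p := by exact_mod_cast hp
  have hlp' : (2 : ℝ) ^ lp ≤ 2 * p := by exact_mod_cast hlp2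
  have hcap : ∀ i ≤ 9 * (996 * κ) + 216 * lp * (996 * κ / 10), ∀ r : ℕ,
      (r : ℝ) ≤ 2 * (p : ℝ) ^ 4 * (1 + (1001 / 1000 : ℝ) / (996 * κ : ℕ)) ^ i → r ≤ p ^ 37 := by
    intro i hi r hr
    have h1 := upall_EGTower (996 * κ) lp i hk hi
    have h2 : ((2 : ℝ) ^ lp) ^ 32 ≤ (2 * p) ^ 32 := pow_le_pow_left₀ (by positivity) hlp' 32
    have h3 : (r : ℝ) ≤ (p : ℝ) ^ 37 := by
      calc (r : ℝ) ≤ 2 * (p : ℝ) ^ 4 * (30000 * (2 * p) ^ 32) := by
            refine hr.trans (mul_le_mul_of_nonneg_left (h1.trans ?_) (by positivity))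
            exact mul_le_mul_of_nonneg_left h2 (by norm_num)
        _ = (60000 * 2 ^ 32) * (p : ℝ) ^ 36 := by ring
        _ ≤ p * (p : ℝ) ^ 36 := by
            apply mul_le_mul_of_nonneg_right _ (by positivity)
            exact le_trans (by norm_num) hp'
        _ = (p : ℝ) ^ 37 := by ring
    exact_mod_cast h3
  generalize hK : 996 * κ = K at *
  have hK' : (0 : ℝ) < K := by exact_mod_cast hk
  refine chain_EGTower
    (fun i (S : St m) => S.Ok PP K i ∧ p ^ 4 ≤ S.D.card ∧ S.D.card ≤ p ^ 37 ∧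
      (S.D.card : ℝ) ≤ 2 * (p : ℝ) ^ 4 * (1 + (1001 / 1000 : ℝ) / K) ^ i)
    (fun S S' => S.e ∣ S'.e ∧ (1 + 1 / (K : ℝ)) * S.D.card ≤ S'.D.card ∧
      (S'.D.card : ℝ) ≤ (1 + (1001 / 1000 : ℝ) / K) * S.D.card) _ S0 ?_ ?_
  · have h1 : p ^ 2 ≤ p ^ 4 := Nat.pow_le_pow_right hp1 (by norm_num)
    have h2 : S0.D.card ≤ 2 * p ^ 4 := by omega
    have h3 : (S0.D.card : ℝ) ≤ 2 * (p : ℝ) ^ 4 * (1 + (1001 / 1000 : ℝ) / K) ^ 0 := by
      rw [pow_zero, mul_one]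
      exact_mod_cast h2
    exact ⟨hS0, h01, hcap 0 (Nat.zero_le _) _ h3, h3⟩
  · rintro i hi S ⟨hS, h1, h2, h3⟩
    obtain ⟨S', hS', hd, h4, h5⟩ := step_FLTower m p κ i hm hmp hp hκ3 hκ2 PP
      (fun l hl => ⟨(hPP l hl).1, (hPP l hl).2.2⟩) hc S (hK ▸ hS) h1 h2
    rw [hK] at hS' h4 h5
    have h4' : ((K : ℝ) + 1) * S.D.card ≤ K * S'.D.card := by exact_mod_cast h4
    have h5' : 1000 * (K : ℝ) * S'.D.card ≤ (1000 * K + 1001) * S.D.card := by exact_mod_cast h5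
    have h6 : (1 + 1 / (K : ℝ)) * S.D.card ≤ S'.D.card := by
      have : (1 + 1 / (K : ℝ)) * S.D.card = ((K : ℝ) + 1) * S.D.card / K := by field_simp
      rw [this, div_le_iff₀ hK']
      linarith
    have h7 : (S'.D.card : ℝ) ≤ (1 + (1001 / 1000 : ℝ) / K) * S.D.card := by
      have : (1 + (1001 / 1000 : ℝ) / K) * S.D.card
          = (1000 * (K : ℝ) + 1001) * S.D.card / (1000 * K) := by field_simp
      rw [this, le_div_iff₀ (by positivity)]
      linarith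
    have h8 : S.D.card ≤ S'.D.card := by
      have : K * S.D.card ≤ K * S'.D.card := by nlinarith
      exact Nat.le_of_mul_le_mul_left this hk
    have h9 : (S'.D.card : ℝ) ≤ 2 * (p : ℝ) ^ 4 * (1 + (1001 / 1000 : ℝ) / K) ^ (i + 1) := by
      refine h7.trans ?_
      calc (1 + (1001 / 1000 : ℝ) / K) * S.D.card
          ≤ (1 + (1001 / 1000 : ℝ) / K) * (2 * (p : ℝ) ^ 4 * (1 + (1001 / 1000 : ℝ) / K) ^ i) :=
            mul_le_mul_of_nonneg_left h3 (by positivity)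
        _ = _ := by ring
    exact ⟨S', ⟨hS', h1.trans h8, hcap (i + 1) hi _ h9, h9⟩, hd, h6, h7⟩

theorem tower_FLTower (m p κ lp : ℕ) (hm : 2 ≤ m) (hmp : m ≤ 4 ^ p) (hp : 10 ^ 20 ≤ p) (hlp : p < 2 ^ lp)
    (hlp2 : 2 ^ lp ≤ 2 * p) (hκ1 : 20 * lp ≤ κ) (hκ2 : κ * 10 ^ 10 ≤ p) (PP : Finset ℕ)
    (hPP : ∀ l ∈ PP, Split m l ∧ 2 ^ (990 * κ) < l ∧ l ≤ 2 ^ (1001 * κ))
    (hc : 2 ^ (998 * κ) ≤ PP.card) :
    ∃ (lam : ℕ → ℝ) (e : ℕ → O m) (U : ℕ → Finset (O m)) (D : Finset ℕ),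
      D ⊆ PP ∧ D.card ≤ p ^ 37 ∧ (e (216 * lp)).norm = ∏ l ∈ D, (l : ℤ) ∧
      (∀ j ≤ 216 * lp, ((e j).norm : ℝ) = lam j ^ 100 ∧ (2 : ℝ) ^ (p ^ 4) ≤ lam j ∧
        e j ∣ e (216 * lp) ∧ lam j ^ 99 ≤ (U j).card ∧ ∀ u ∈ U j, SumRes (e j) (8964 * κ) u) ∧
      (∀ j < 216 * lp, lam (j + 1) ^ 121 ≤ lam j ^ 139) ∧ lam 0 ^ 121 ≤ (2 : ℝ) ^ (p ^ 5) ∧
      (2 : ℝ) ^ (p ^ 28) ≤ lam (216 * lp) := by
  have hp1 : 1 ≤ p := le_trans (by norm_num) hp
  have hlp0 : 1 ≤ lp := by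
    rcases Nat.eq_zero_or_pos lp with h | h
    · rw [h] at hlp; omega
    · exact h
  have hκ0 : 1 ≤ κ := by omega
  obtain ⟨S, hS, hR⟩ := states_FLTower m p κ lp hm hmp hp hlp hlp2 hκ1
    (le_trans (by rw [mul_comm]; exact Nat.mul_le_mul_left _ (by norm_num)) hκ2) hκ0 PP hPP hc
  have hk : 100 ≤ 996 * κ := by omega
  have hs0 : 8964 * κ = 9 * (996 * κ) := by ring
  have hKR : ((996 * κ : ℕ) : ℝ) = 996 * κ := by push_cast; ring
  rw [hs0]
  generalize hK : 996 * κ = K at *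
  have hK' : (0 : ℝ) < K := by
    have : 0 < K := by omega
    exact_mod_cast this
  have hit := iter_EGTower S _ _ _ (by positivity) (by positivity) hR
  have hle : ∀ j ≤ 216 * lp, 9 * K + j * (K / 10) ≤ 9 * K + 216 * lp * (K / 10) := fun j hj =>
    Nat.add_le_add_left (Nat.mul_le_mul_right _ hj) _
  have hnorm : ∀ j ≤ 216 * lp, (S (9 * K + j * (K / 10))).e.norm
      = ∏ l ∈ (S (9 * K + j * (K / 10))).D, (l : ℤ) := fun j hj =>
    (hS _ (hle j hj)).1.box.nrm _ (hS _ (hle j hj)).1.mem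
  have hb : ∀ j ≤ 216 * lp,
      (2 : ℝ) ^ (990 * κ * (S (9 * K + j * (K / 10))).D.card)
        ≤ ((S (9 * K + j * (K / 10))).e.norm : ℝ) ∧
      ((S (9 * K + j * (K / 10))).e.norm : ℝ)
        ≤ (2 : ℝ) ^ (1001 * κ * (S (9 * K + j * (K / 10))).D.card) := by
    intro j hj
    rw [hnorm j hj]
    exact prod_bounds_EGTower _ _ _ fun l hl => (hPP l ((hS _ (hle j hj)).1.sub hl)).2
  obtain ⟨lam, hlam0, hlam⟩ : ∃ lam : ℕ → ℝ, (∀ j, 0 ≤ lam j) ∧
      ∀ j, ((S (9 * K + j * (K / 10))).e.norm : ℝ) = lam j ^ 100 := by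
    have hn : ∀ j, (0 : ℝ) ≤ ((S (9 * K + j * (K / 10))).e.norm : ℝ) := fun j => by
      exact_mod_cast Zsqrtd.norm_nonneg (by omega) _
    refine ⟨fun j => ((S (9 * K + j * (K / 10))).e.norm : ℝ) ^ ((100 : ℕ) : ℝ)⁻¹,
      fun j => Real.rpow_nonneg (hn j) _, fun j => ?_⟩
    exact (Real.rpow_inv_natCast_pow (hn j) (by norm_num)).symm
  have hlow : ∀ j ≤ 216 * lp, ∀ n : ℕ, n ≤ (S (9 * K + j * (K / 10))).D.card →
      (2 : ℝ) ^ n ≤ lam j := by
    intro j hj n hn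
    refine le_of_pow_le_pow_left₀ (n := 100) (by norm_num) (hlam0 j) ?_
    rw [← hlam j, ← pow_mul]
    refine le_trans (pow_le_pow_right₀ (by norm_num) ?_) (hb j hj).1
    calc n * 100 ≤ (S (9 * K + j * (K / 10))).D.card * (990 * κ) :=
          Nat.mul_le_mul hn (by omega)
      _ = _ := mul_comm _ _
  have hp' : (10 : ℝ) ^ 20 ≤ p := by exact_mod_cast hp
  refine ⟨lam, fun j => (S (9 * K + j * (K / 10))).e, fun j => (S (9 * K + j * (K / 10))).U (9 * K),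
    (S (9 * K + 216 * lp * (K / 10))).D, (hS _ le_rfl).1.sub, (hS _ le_rfl).2.2.1,
    hnorm _ le_rfl, fun j hj => ⟨hlam j, hlow j hj _ (hS _ (hle j hj)).2.1, ?_, ?_,
      (hS _ (hle j hj)).1.sum _⟩, fun j hj => ?_, ?_, ?_⟩
  · obtain ⟨n, hn⟩ := Nat.exists_eq_add_of_le (hle j hj)
    have h1 := (hit _ n hn.symm.le).1
    rw [← hn] at h1
    exact h1
  · have h1 := (hS _ (hle j hj)).1.crd (9 * K) (Nat.le_add_right _ _)
    have h2 := q_small_EGTower K (by omega)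
    have h3 := (hb j hj).2
    have h4 : 100000 ≤ (S (9 * K + j * (K / 10))).D.card := by
      refine le_trans ?_ (hS _ (hle j hj)).2.1
      calc 100000 ≤ p := le_trans (by norm_num) hp
        _ = p ^ 1 := (pow_one p).symm
        _ ≤ p ^ 4 := Nat.pow_le_pow_right hp1 (by norm_num)
    refine le_trans ?_ h1
    rw [hlam j] at h3
    generalize (S (9 * K + j * (K / 10))).D.card = r at *
    have h4' : (100000 : ℝ) ≤ r := by exact_mod_cast h4
    refine le_of_pow_le_pow_left₀ (n := 100) (by norm_num) (by positivity) ?_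
    rw [← pow_mul, mul_comm 99 100, pow_mul]
    refine (pow_le_pow_left₀ (by positivity) h3 99).trans ?_
    rw [← pow_mul, ← Real.rpow_natCast, ← Real.rpow_natCast, ← Real.rpow_mul (by norm_num)]
    apply Real.rpow_le_rpow_of_exponent_le (by norm_num)
    generalize ((K : ℝ) / (K + 1)) ^ (9 * K) = q at *
    have hκ' : (0 : ℝ) < κ := by exact_mod_cast hκ0
    push_cast
    rw [hKR]
    have h5 : (0 : ℝ) ≤ κ * r * (1 / 512 - q) := by
      apply mul_nonneg (by positivity); linarith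
    have h6 : (0 : ℝ) ≤ κ * (r - 100000) := by
      apply mul_nonneg hκ'.le; linarith
    nlinarith
  · have hj1 : 9 * K + (j + 1) * (K / 10) = 9 * K + j * (K / 10) + K / 10 := by ring
    have h1 := (hit (9 * K + j * (K / 10)) (K / 10) (by rw [← hj1]; exact hle _ hj)).2.2
    rw [← hj1] at h1
    have h2 := upsig_EGTower K (by omega)
    have h3 := (hb (j + 1) hj).2
    have h4 := (hb j hj.le).1
    rw [hlam] at h3 h4
    generalize (S (9 * K + (j + 1) * (K / 10))).D.card = r' at *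
    generalize (S (9 * K + j * (K / 10))).D.card = r at *
    have h5 : (r' : ℝ) ≤ 9 / 8 * r := h1.trans (mul_le_mul_of_nonneg_right h2 (by positivity))
    have h6 : 8 * r' ≤ 9 * r := by
      have : (8 : ℝ) * r' ≤ 9 * r := by linarith
      exact_mod_cast this
    refine le_of_pow_le_pow_left₀ (n := 100) (by norm_num) (pow_nonneg (hlam0 j) _) ?_
    rw [← pow_mul, ← pow_mul, mul_comm 121 100, mul_comm 139 100, pow_mul, pow_mul]
    refine (pow_le_pow_left₀ (pow_nonneg (hlam0 _) _) h3 121).trans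
      (le_trans ?_ (pow_le_pow_left₀ (by positivity) h4 139))
    rw [← pow_mul, ← pow_mul]
    apply pow_le_pow_right₀ (by norm_num)
    have h7 : 1001 * 121 * r' ≤ 990 * 139 * r := by omega
    calc 1001 * κ * r' * 121 = κ * (1001 * 121 * r') := by ring
      _ ≤ κ * (990 * 139 * r) := Nat.mul_le_mul_left _ h7
      _ = 990 * κ * r * 139 := by ring
  · have h1 := (hS _ (hle 0 (Nat.zero_le _))).2.2.2
    have h2 := up9_EGTower K (9 * K + 0 * (K / 10)) (by omega) (by omega)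
    have h3 := (hb 0 (Nat.zero_le _)).2
    rw [hlam] at h3
    generalize (S (9 * K + 0 * (K / 10))).D.card = r at *
    have h4 : r ≤ 60000 * p ^ 4 := by
      have : (r : ℝ) ≤ 60000 * (p : ℝ) ^ 4 := by
        refine h1.trans ((mul_le_mul_of_nonneg_left h2 (by positivity)).trans (le_of_eq ?_))
        ring
      exact_mod_cast this
    have h5 : κ * 10 ^ 10 ≤ p := hκ2
    refine le_of_pow_le_pow_left₀ (n := 100) (by norm_num) (by positivity) ?_
    rw [← pow_mul, mul_comm 121 100, pow_mul]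
    refine (pow_le_pow_left₀ (pow_nonneg (hlam0 _) _) h3 121).trans ?_
    rw [← pow_mul, ← pow_mul]
    apply pow_le_pow_right₀ (by norm_num)
    calc 1001 * κ * r * 121 ≤ 1001 * κ * (60000 * p ^ 4) * 121 :=
          Nat.mul_le_mul_right _ (Nat.mul_le_mul_left _ h4)
      _ = (κ * (1001 * 600 * 121)) * (p ^ 4 * 100) := by ring
      _ ≤ p * (p ^ 4 * 100) :=
          Nat.mul_le_mul_right _ (le_trans (Nat.mul_le_mul_left κ (by norm_num)) h5)
      _ = p ^ 5 * 100 := by ring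
  · apply hlow _ le_rfl
    have h1 := (hit (9 * K) (216 * lp * (K / 10)) le_rfl).2.1
    have h2 := lowall_EGTower K lp hk
    have h3 := (hS (9 * K) (Nat.le_add_right _ _)).2.1
    have h3' : (p : ℝ) ^ 4 ≤ (S (9 * K)).D.card := by exact_mod_cast h3
    have h4 : (p : ℝ) ≤ 2 ^ lp := by exact_mod_cast hlp.le
    have h5 : (p : ℝ) ^ 28 ≤ (S (9 * K + 216 * lp * (K / 10))).D.card := by
      refine le_trans ?_ h1
      calc (p : ℝ) ^ 28 = (p : ℝ) ^ 24 * (p : ℝ) ^ 4 := by ring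
        _ ≤ _ := mul_le_mul ((pow_le_pow_left₀ (by positivity) h4 24).trans h2) h3'
            (by positivity) (by positivity)
    exact_mod_cast h5

end Pool.Agent.P.MP_b75a1e_co.EG
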