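import Pool.Agent.P.MP_b75a1e_co.EGCore
import Pool.Agent.P.MP_b75a1e_co.FLTower
import Pool.Agent.P.MP_b75a1e_co.FLCoords
import Pool.Agent.P.MP_b75a1e_co.FLEnd
import Pool.Agent.P.MP_b75a1e_co.FLFlips

set_option autoImplicit false

open Finset
open scoped BigOperators ComplexConjugate

namespace Pool.Agent.P.MP_b75a1e_co.EG

/-- The sum of the rotated piles and of the two lifting summands. -/
def psiB {m r : ℕ} (g x Γ : O m) (zI zII : Fin r → O m) (ε2 ε1 : Fin r → Bool) : O m :=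
  g * x + Γ * base zI * cube zII ε2 + Γ * base zII * cube zI ε1

theorem psi_sum_FLCore {m r n : ℕ} (g e x Γ : O m) (zI zII : Fin r → O m)
    (hg : g * e = Γ * (base zI * base zII))
    (hx : Rep m e.norm n (ph m x) ∧ mu m ∣ x - (n : O m) * e) (hI : ∀ i, mu m ∣ zI i - star (zI i))
    (hII : ∀ i, mu m ∣ zII i - star (zII i)) (ε2 ε1 : Fin r → Bool) :
    Rep m (Γ * (base zI * base zII)).norm (n + 2) (ph m (psiB g x Γ zI zII ε2 ε1)) ∧
      mu m ∣ psiB g x Γ zI zII ε2 ε1 - ((n + 2 : ℕ) : O m) * (Γ * (base zI * base zII)) := by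
  constructor
  · have a := hx.1.mul_left g
    have e1 : (g.norm : ℝ) * e.norm = (Γ * (base zI * base zII)).norm := by
      rw [← hg, Zsqrtd.norm_mul]; push_cast; ring
    rw [e1, ← map_mul] at a
    have b : SumOf (Γ * (base zI * base zII)).norm 1 (Γ * base zI * cube zII ε2) :=
      SumOf.single (by simp only [Zsqrtd.norm_mul, norm_cube]; ring)
    have c : SumOf (Γ * (base zI * base zII)).norm 1 (Γ * base zII * cube zI ε1) :=
      SumOf.single (by simp only [Zsqrtd.norm_mul, norm_cube]; ring)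
    have d := (a.add b.rep).add c.rep
    rw [← map_add, ← map_add] at d
    exact d
  · have e2 : psiB g x Γ zI zII ε2 ε1 - ((n + 2 : ℕ) : O m) * (Γ * (base zI * base zII)) =
        g * (x - (n : O m) * e) + Γ * base zI * (cube zII ε2 - base zII) +
          Γ * base zII * (cube zI ε1 - base zI) := by
      rw [psiB]
      push_cast
      linear_combination (n : O m) * hg
    rw [e2]
    exact dvd_add (dvd_add (hx.2.mul_left _) ((dvd_cube_sub zII _ hII ε2).mul_left _))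
      ((dvd_cube_sub zI _ hI ε1).mul_left _)

theorem psi_ch_FLCore {m r : ℕ} {Ω : Type} [Fintype Ω] (X : Ω → O m) (g h Γ : O m)
    (zI zII : Fin r → O m) (θ : ℂ) :
    ‖ch (fun ω : (Ω × Ω) × ((Fin r → Bool) × (Fin r → Bool)) × (Fin r → Bool) =>
        h * psiB g (X ω.1.1) Γ zI zII ω.2.1.1 ω.2.2 +
        star (h * psiB g (X ω.1.2) Γ zI zII ω.2.1.2 ω.2.2)) (θ / ph m (mu m))‖ ≤
        ‖ch X (θ / ph m (mu m) * ph m (h * g))‖ * ‖ch X (conj θ / ph m (mu m) * ph m (h * g))‖ ∧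
      ‖ch (fun ω : (Ω × Ω) × ((Fin r → Bool) × (Fin r → Bool)) × (Fin r → Bool) =>
        h * psiB g (X ω.1.1) Γ zI zII ω.2.1.1 ω.2.2 +
        star (h * psiB g (X ω.1.2) Γ zI zII ω.2.1.2 ω.2.2)) (θ / ph m (mu m))‖ ≤
        ‖FI (h * Γ) zI zII θ‖ * ‖FII (h * Γ) zI zII θ‖ := by
  set A : Ω → O m := fun b => (h * g) * X b with hA
  set B : (Fin r → Bool) → O m := fun ε => h * Γ * base zI * cube zII ε with hB
  set C : (Fin r → Bool) → O m := fun ε => h * Γ * base zII * cube zI ε with hC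
  have e1 : ∀ b ε2 ε1, h * psiB g (X b) Γ zI zII ε2 ε1 = A b + B ε2 + C ε1 := fun b ε2 ε1 => by
    simp only [psiB, hA, hB, hC, mul_add, mul_assoc]
  have e2 : (fun ω : (Ω × Ω) × ((Fin r → Bool) × (Fin r → Bool)) × (Fin r → Bool) =>
      h * psiB g (X ω.1.1) Γ zI zII ω.2.1.1 ω.2.2 +
      star (h * psiB g (X ω.1.2) Γ zI zII ω.2.1.2 ω.2.2)) =
      fun ω : (Ω × Ω) × ((Fin r → Bool) × (Fin r → Bool)) × (Fin r → Bool) =>
      A ω.1.1 + star (A ω.1.2) +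
        (B ω.2.1.1 + star (B ω.2.1.2) + (C ω.2.2 + star (C ω.2.2))) := by
    funext ω
    simp only [e1, star_add]
    ring
  have a1 := ch_mul X (h * g) (θ / ph m (mu m))
  have a2 := ch_mul X (h * g) (conj θ / ph m (mu m))
  have b1 : ch B (θ / ph m (mu m)) = FII (h * Γ) zI zII θ := rfl
  have c1 : ch (fun ε => C ε + star (C ε)) (θ / ph m (mu m)) = FI (h * Γ) zI zII θ := rfl
  have q1 := ch_prod A (fun b => star (A b)) (θ / ph m (mu m))
  have q2 := ch_prod B (fun ε => star (B ε)) (θ / ph m (mu m))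
  have q3 := ch_prod (fun q : (Fin r → Bool) × (Fin r → Bool) => B q.1 + star (B q.2))
    (fun ε => C ε + star (C ε)) (θ / ph m (mu m))
  have q4 := ch_prod (fun q : Ω × Ω => A q.1 + star (A q.2))
    (fun q : ((Fin r → Bool) × (Fin r → Bool)) × (Fin r → Bool) =>
      B q.1.1 + star (B q.1.2) + (C q.2 + star (C q.2))) (θ / ph m (mu m))
  rw [e2, q4, q3, q2, q1, ch_star_mu A, norm_mul, norm_mul, norm_mul, norm_mul]
  have n1 := norm_ch_le A (θ / ph m (mu m))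
  have n2 := norm_ch_le A (conj θ / ph m (mu m))
  have n3 := norm_ch_le B (θ / ph m (mu m))
  have n4 := norm_ch_le (fun ε => star (B ε)) (θ / ph m (mu m))
  have n5 := norm_ch_le (fun ε => C ε + star (C ε)) (θ / ph m (mu m))
  constructor
  · refine (mul_le_of_le_one_right (by positivity)
      (mul_le_one₀ (mul_le_one₀ n3 (norm_nonneg _) n4) (norm_nonneg _) n5)).trans (le_of_eq ?_)
    rw [a1, a2]
  · refine (mul_le_of_le_one_left (by positivity) (mul_le_one₀ n1 (norm_nonneg _) n2)).trans ?_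
    rw [← b1, ← c1, mul_comm]
    exact mul_le_mul_of_nonneg_left (mul_le_of_le_one_right (norm_nonneg _) n4) (norm_nonneg _)

theorem four_FLCore (p a : ℕ) : ((4 : ℝ) ^ p) ^ a = 2 ^ (2 * p * a) := by
  rw [show (4 : ℝ) = 2 ^ 2 by norm_num, ← pow_mul, ← pow_mul, mul_assoc]

theorem cnt_FLCore {p κ s : ℕ} (hp : 10 ^ 20 ≤ p) (h1 : 1 ≤ κ) (h2 : 10 ^ 12 * κ ≤ p)
    (hs : s = 8964 * κ) : 16 * (35820 * s + 2 + 60000) ≤ p ∧ 1 ≤ s ∧ s ≤ p ∧ 1001 * κ ≤ p := by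
  omega

theorem log_FLCore {ν a b : ℝ} (h6 : Real.log ν ≤ a * Real.log 2) (h8 : a ≤ b) (h9 : 0 ≤ a) :
    Real.log ν ≤ b := by
  have h7 : Real.log 2 ≤ 1 := by
    have := Real.log_two_lt_d9
    linarith
  nlinarith

theorem exps_FLCore {p : ℕ} (hp : 10 ^ 20 ≤ p) :
    2 * p * 160000 ≤ p ^ 4 ∧ p ^ 4 * 3 ≤ p ^ 5 ∧ 2 * p * 2000 * 20 ≤ p ^ 28 ∧
      3 * p ^ 25 * 10 * 20 ≤ p ^ 28 ∧ p ^ 21 + (p ^ 25 + p ^ 25) ≤ 3 * p ^ 25 ∧ p ^ 38 ≤ 4 ^ p := by
  have s : ∀ a, 10 ^ 20 * p ^ a ≤ p ^ (a + 1) := fun a => by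
    rw [pow_succ p a, mul_comm]
    exact Nat.mul_le_mul_left _ hp
  have mo : ∀ {a b}, a ≤ b → p ^ a ≤ p ^ b := fun h => Nat.pow_le_pow_right (by omega) h
  have s1 := s 1
  have s4 := s 4
  have s25 := s 25
  have m1 : p ^ (1 + 1) ≤ p ^ 4 := mo (by norm_num)
  have m2 : p ^ (1 + 1) ≤ p ^ 28 := mo (by norm_num)
  have m3 : p ^ (25 + 1) ≤ p ^ 28 := mo (by norm_num)
  have m4 : p ^ 21 ≤ p ^ 25 := mo (by norm_num)
  rw [pow_one] at s1
  have e5 : p ^ (4 + 1) = p ^ 5 := rfl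
  refine ⟨by omega, by omega, by omega, by omega, by omega, ?_⟩
  have h1 : p / 19 < 2 ^ (p / 38 / 2) := by
    have a := Nat.lt_two_pow_self (n := p / 38 / 2 / 2)
    have b : 2 ^ (p / 38 / 2 / 2) * 2 ^ (p / 38 / 2 / 2) ≤ 2 ^ (p / 38 / 2) := by
      rw [← pow_add]
      exact Nat.pow_le_pow_right (by norm_num) (by omega)
    have c : 1000 ≤ p / 38 / 2 / 2 := by omega
    have d : (p / 38 / 2 / 2) * 1000 ≤ 2 ^ (p / 38 / 2 / 2) * 2 ^ (p / 38 / 2 / 2) :=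
      Nat.mul_le_mul a.le (c.trans a.le)
    omega
  have h2 : p ≤ 2 ^ (p / 38) := by
    have b : 2 ^ (p / 38 / 2) * 2 ^ (p / 38 / 2) ≤ 2 ^ (p / 38) := by
      rw [← pow_add]
      exact Nat.pow_le_pow_right (by norm_num) (by omega)
    have c : 100 ≤ p / 19 := by omega
    have d : (p / 19) * 100 ≤ 2 ^ (p / 38 / 2) * 2 ^ (p / 38 / 2) :=
      Nat.mul_le_mul h1.le (c.trans h1.le)
    omega
  calc p ^ 38 ≤ (2 ^ (p / 38)) ^ 38 := Nat.pow_le_pow_left h2 38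
    _ = 2 ^ (p / 38 * 38) := by rw [← pow_mul]
    _ ≤ 2 ^ p := Nat.pow_le_pow_right (by norm_num) (Nat.div_mul_le_self p 38)
    _ ≤ 4 ^ p := Nat.pow_le_pow_left (by norm_num) p

/-- The core theorem at linear cost: enough split primes of one size give the polygon. -/
theorem core' (m p κ lp : ℕ) (hsq : Squarefree m) (h4 : m % 4 = 3) (hp : p.Prime) (hpm : p ∣ m)
    (hmax : ∀ q, q.Prime → q ∣ m → q ≤ p) (hp0 : 10 ^ 20 ≤ p) (hlp : p < 2 ^ lp) (hlp2 : 2 ^ lp ≤ 2 * p)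
    (hκ1 : 20 * lp ≤ κ) (hκ2 : 10 ^ 12 * κ ≤ p) (PP : Finset ℕ)
    (hPP : ∀ l ∈ PP, Split m l ∧ 2 ^ (990 * κ) < l ∧ l ≤ 2 ^ (1001 * κ))
    (hc : 2 ^ (998 * κ) ≤ PP.card)
    (hτ : ∀ n : ℕ, 1 ≤ n → (n.divisors.card : ℝ) ≤ 4 ^ p * (n : ℝ) ^ (1 / 1000 : ℝ)) :
    HasGon m p := by
  classical
  have hm2 : 2 ≤ m := by omega
  have hm : 1 ≤ m := by omega
  have hmodd : m % 2 = 1 := by omega
  have hmp := m_le_four_pow hsq hmax
  have hlp1 : 1 ≤ lp := by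
    rcases Nat.eq_zero_or_pos lp with h | h
    · subst h; omega
    · exact h
  have hpodd : p % 2 = 1 := hp.eq_two_or_odd.resolve_left (by omega)
  have hκ3 : κ * 10 ^ 10 ≤ p :=
    le_trans (by rw [mul_comm]; exact Nat.mul_le_mul_right _ (by norm_num)) hκ2
  obtain ⟨lam0, e0, U0, D, hD1, hD2, hD3, hj, -, -, htop⟩ :=
    tower_FLTower m p κ lp hm2 hmp hp0 hlp hlp2 hκ1 hκ3 PP hPP hc
  obtain ⟨hen, -, -, hUc, hUs⟩ := hj (216 * lp) le_rfl
  generalize lam0 (216 * lp) = lam at hen hUc htop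
  generalize e0 (216 * lp) = e at hen hUs hD3
  generalize U0 (216 * lp) = U at hUc hUs
  clear hj
  obtain ⟨x1, x2, x3, x4, x5, x6⟩ := exps_FLCore hp0
  obtain ⟨s, hsd⟩ : ∃ s, s = 8964 * κ := ⟨_, rfl⟩
  rw [← hsd] at hUs
  obtain ⟨hn, hs1, hsp, hκp⟩ := cnt_FLCore hp0 (by omega) hκ2 hsd
  have hpY : p ≤ p ^ 15 := Nat.le_self_pow (by norm_num) p
  have hsm : Smo (p ^ 15) m := fun q hq h => (hmax q hq h).trans hpY
  have hD4 : ∀ l ∈ D, l.Prime ∧ p ^ 60 ≤ l := fun l hl => by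
    obtain ⟨h1, h2, _⟩ := hPP l (hD1 hl)
    refine ⟨h1.1, le_trans ?_ h2.le⟩
    calc p ^ 60 ≤ (2 ^ lp) ^ 60 := Nat.pow_le_pow_left hlp.le 60
      _ = 2 ^ (lp * 60) := by rw [← pow_mul]
      _ ≤ _ := Nat.pow_le_pow_right (by norm_num) (by omega)
  obtain ⟨zg, R, c1, c2, c3, c4, c5, c6, c7, c8, c9⟩ :=
    coords_FLCoords m p (35820 * s + 2 + 60000) hsq h4 hmax hmp hp0 hpodd hn e D hD4 hD2 hD3
  obtain ⟨H, hHd⟩ : ∃ H : ℝ, H = 2 ^ p ^ 4 := ⟨_, rfl⟩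
  have hH0 : (1 : ℝ) ≤ H := by rw [hHd]; exact one_le_pow₀ (by norm_num)
  have hH1 : (1 : ℝ) ≤ H ^ 3 := one_le_pow₀ hH0
  have hH : H ^ 3 ≤ 2 ^ p ^ 5 := by
    rw [hHd, ← pow_mul]
    exact pow_le_pow_right₀ (by norm_num) x2
  obtain ⟨z, m1, m2, m3, m4, m5, m6, m7, m8⟩ :=
    random_mid m p hm hmax hmp hp0 (H ^ 3) hH _ c2 c3 c4
  obtain ⟨zI, zII, NN0, Mg, l1, l2, l3, l4, l5, l6, l7, l8, l9, l10, l11, l12⟩ :=
    random_lift m p hm hmax hmp hp0 (H ^ 3) hH1 hH _ (c1.mul m4) m1 m2 m3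
  set C := midC z * (base zI * base zII) with hC
  set G2 := e * R * C with hG2
  have hG : star zg * (e * R) * midC z * (base zI * base zII) = star zg * G2 := by
    rw [hG2, hC]; ring
  rw [hG] at l1 l2 l3
  have hC1 : (M1 m (p ^ 15) : O m) ∣ C - 1 := by
    have : C - 1 = (midC z - 1) * (base zI * base zII) + (base zI * base zII - 1) := by
      rw [hC]; ring
    rw [this]
    exact dvd_add (m4.mul_right _) l4
  obtain ⟨S, s1, s2, s3, s4⟩ := c9 C hC1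
  have hQ1 := QQ_pos m (p ^ 15)
  have hp1 : (1 : ℝ) ≤ p := by exact_mod_cast (by omega : 1 ≤ p)
  have hNN0 : 0 < NN0 := lt_of_lt_of_le (by
    have : (1 : ℝ) ≤ QQ m (p ^ 15) := by exact_mod_cast hQ1
    positivity) l11
  have hlam0 : 0 ≤ lam := le_trans (by positivity) htop
  obtain ⟨ν, hν0, hν⟩ : ∃ ν : ℝ, 0 ≤ ν ∧ ν ^ 20 = lam :=
    ⟨lam ^ ((20 : ℕ) : ℝ)⁻¹, Real.rpow_nonneg hlam0 _, Real.rpow_inv_natCast_pow hlam0 (by norm_num)⟩
  have hνlow : ∀ a : ℕ, a * 20 ≤ p ^ 28 → (2 : ℝ) ^ a ≤ ν := fun a ha => by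
    refine le_of_pow_le_pow_left₀ (n := 20) (by norm_num) hν0 ?_
    rw [hν, ← pow_mul]
    exact (pow_le_pow_right₀ (by norm_num) ha).trans htop
  have hpile : Pile e s ν U := by
    refine ⟨?_, ?_, hUs⟩
    · rw [hen, ← hν, ← pow_mul]
    · rw [show 1980 = 20 * 99 from rfl, pow_mul, hν]
      exact hUc
  have hp4 : (p : ℝ) ≤ 4 ^ p := by
    have : p ≤ 4 ^ p := (Nat.le_self_pow (by norm_num) p).trans x6
    exact_mod_cast this
  have hp20 : (10 : ℝ) ^ 20 ≤ p := by exact_mod_cast hp0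
  have hSml : Sml m (4 ^ p) :=
    ⟨hm, le_trans (le_trans (by norm_num) hp20) hp4, by exact_mod_cast hmp, hτ⟩
  have hν1 : 1 ≤ ν := by simpa using hνlow 0 (Nat.zero_le _)
  have hlog : Real.log ν ≤ 4 ^ p := by
    have h1 := (prod_bounds_EGTower D _ _ fun l hl => (hPP l (hD1 hl)).2).2
    rw [← hD3, hpile.nrm] at h1
    have h2 : ν ≤ ν ^ 2000 := le_self_pow₀ hν1 (by norm_num)
    have h3 : 1001 * κ * D.card ≤ p ^ 38 := by
      calc 1001 * κ * D.card ≤ p * p ^ 37 := Nat.mul_le_mul hκp hD2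
        _ = p ^ 38 := by ring
    have h5 : ν ≤ 2 ^ p ^ 38 := (h2.trans h1).trans (pow_le_pow_right₀ (by norm_num) h3)
    have h6 := Real.log_le_log (by linarith) h5
    rw [Real.log_pow] at h6
    exact log_FLCore h6 (by exact_mod_cast x6) (Nat.cast_nonneg _)
  have hge : star zg * (R * C) * e = star zg * G2 := by rw [hG2]; ring
  have hgn : ((star zg * (R * C)).norm : ℝ) ^ 10 ≤ ν := by
    have h1 : star zg * (R * C) = star zg * R * (midC z * (base zI * base zII)) := by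
      rw [hC]; ring
    have h2 : (star zg * (R * C)).norm ≤ 2 ^ p ^ 21 * (2 ^ p ^ 25 * 2 ^ p ^ 25) := by
      rw [h1, Zsqrtd.norm_mul (star zg * R), Zsqrtd.norm_mul (midC z)]
      exact mul_le_mul c5 (mul_le_mul m5 l5 (norm_nonneg' _) (by positivity))
        (mul_nonneg (norm_nonneg' _) (norm_nonneg' _)) (by positivity)
    have h3 : (2 : ℤ) ^ p ^ 21 * (2 ^ p ^ 25 * 2 ^ p ^ 25) ≤ 2 ^ (3 * p ^ 25) := by
      rw [← pow_add, ← pow_add]
      exact pow_le_pow_right₀ (by norm_num) x5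
    have h5 : ((star zg * (R * C)).norm : ℝ) ≤ 2 ^ (3 * p ^ 25) := by exact_mod_cast h2.trans h3
    have h6 : (0 : ℝ) ≤ ((star zg * (R * C)).norm : ℝ) := by exact_mod_cast norm_nonneg' _
    refine (pow_le_pow_left₀ h6 h5 10).trans ?_
    rw [← pow_mul]
    exact hνlow _ x4
  obtain ⟨φ, ⟨Ω, _, _, X, hX, hXφ⟩, hminor⟩ := flips m p s Mg (4 ^ p) ν H NN0 e (star zg * (R * C)) U
    hSml hs1 (le_trans (by exact_mod_cast hsp) hp4) (by omega) hp4
    (by rw [four_FLCore]; exact hνlow _ x3) hlog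
    (by rw [four_FLCore, hHd]; exact pow_le_pow_right₀ (by norm_num) x1) hpile
    (by rw [hge]; exact l1) hgn hNN0 (by rw [hge]; exact l2) (by rw [hge]; exact l3) l10
  have hΓp : e * R * midC z * (base zI * base zII) = G2 := by rw [hG2, hC]; ring
  have hΓm : e * R * (base zI * base zII) * midC z = G2 := by rw [hG2, hC]; ring
  have psum := fun ω => psi_sum_FLCore (R * C) e (X ω) (e * R * midC z) zI zII
    (by rw [hΓp, hG2]; ring) (hX ω) l6 l7
  rw [hΓp] at psum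
  have hη : (0 : ℝ) ≤ 1 / (2 * (p : ℝ) ^ 6 * 2 ^ p ^ 17) := by positivity
  have msum := mid_sum (e * R * (base zI * base zII)) ((QQ m (p ^ 15) : O m) * mu m) z _ hη m6
  rw [hΓm] at msum
  have hηe : 2 * ((p ^ 6 : ℕ) : ℝ) * (1 / (2 * (p : ℝ) ^ 6 * 2 ^ p ^ 17)) = 1 / 2 ^ p ^ 17 := by
    push_cast
    field_simp
  rw [hηe] at msum
  have hrep := endgame_FLEnd m p (p ^ 15) (QQ m (p ^ 15)) Mg (35820 * s + 2) 60000
    (p - 4 * (35820 * s + 2 + 60000)) (H ^ 3) NN0 (1 / 2 ^ p ^ 17)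
    (Ω := (Ω × Ω) × ((Fin (p ^ 6) → Bool) × (Fin (p ^ 6) → Bool)) × (Fin (p ^ 6) → Bool))
    (Ω' := OmM (p ^ 6) × OmM (p ^ 6)) zg G2 S
    (fun ω => psiB (R * C) (X ω.1.1) (e * R * midC z) zI zII ω.2.1.1 ω.2.2)
    (fun ω => psiB (R * C) (X ω.1.2) (e * R * midC z) zI zII ω.2.1.2 ω.2.2)
    (fun ω => midY (e * R * (base zI * base zII)) z ω.1)
    (fun ω => midY (e * R * (base zI * base zII)) z ω.2) (WW z) hm (by omega) hQ1
    (coprime_QQ hmodd _) l8 hH1 l9 l10 l11 (by positivity)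
    (eps_EGCore hp0 (le_trans zero_le_one hH1) hH) (by omega) l3 c6 c7 c8
    (fun ω => psum _ _ _) (fun ω => psum _ _ _) (fun ω => msum _) (fun ω => msum _) ⟨s1, s2, s3, s4⟩
    (le_trans (sum_le_sum fun n _ => by
      have := (psi_ch_FLCore X (R * C) (star zg) (e * R * midC z) zI zII (gp m Mg n)).1
      rwa [hXφ, hXφ] at this) hminor)
    (le_trans (sum_le_sum fun n _ => by
      have := (psi_ch_FLCore X (R * C) (star zg) (e * R * midC z) zI zII (gp m Mg n)).2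
      rwa [← mul_assoc (star zg)] at this) l12)
    (fun d β h1 _ h3 h5 => by
      have hΓ : star zg * (e * R * (base zI * base zII)) * midC z = star zg * G2 := by
        rw [← hΓm]; ring
      have := mid_bound m (p ^ 15) (p ^ 6) d hm (by omega) hsm
        (star zg * (e * R * (base zI * base zII))) z (by rw [hΓ]; exact l1)
        (fun b a i => (Dvd.intro_left _ rfl).trans (m6 b a i).1) m7 h1 h3 β h5
      rw [hΓ] at this
      simp only [midY_mul]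
      exact_mod_cast this)
    (WW_nonneg z) m8
  refine hasGon_of_rep hp (by omega) hpm hsq ?_ hrep
  exact (lt_of_lt_of_le hNN0 l2).ne'

end Pool.Agent.P.MP_b75a1e_co.EG
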