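import Pool.Agent.P.MP_b75a1e_co.FLBase

set_option autoImplicit false

open Finset
open scoped BigOperators ComplexConjugate

namespace Pool.Agent.P.MP_b75a1e_co.EG

variable {m y J : ℕ} {k : ℝ} {F : Finset (O m)}

theorem gcd_sum_nat_FLCount0 (g J : ℕ) (hg : 1 ≤ g) :
    ∑ j ∈ Icc 1 J, Nat.gcd j g ≤ g.divisors.card * J := by
  have h1 : ∀ j ∈ Icc 1 J, Nat.gcd j g ≤ ∑ f ∈ g.divisors, if f ∣ j then f else 0 := by
    intro j _
    have hm : Nat.gcd j g ∈ g.divisors :=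
      Nat.mem_divisors.2 ⟨Nat.gcd_dvd_right j g, by omega⟩
    have := single_le_sum (f := fun f => if f ∣ j then f else 0) (s := g.divisors)
      (fun _ _ => Nat.zero_le _) hm
    simpa [Nat.gcd_dvd_left j g] using this
  refine (sum_le_sum h1).trans ?_
  rw [sum_comm]
  have h2 : ∀ f ∈ g.divisors, (∑ j ∈ Icc 1 J, if f ∣ j then f else 0) ≤ J := by
    intro f _
    have e : Icc 1 J = Ioc 0 J := by
      ext x
      simp only [mem_Icc, mem_Ioc]
      omega
    rw [← sum_filter, sum_const, e, Nat.Ioc_filter_dvd_card_eq_div, smul_eq_mul]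
    exact Nat.div_mul_le_self J f
  have := sum_le_card_nsmul _ _ _ h2
  simpa using this

theorem gcd_sum (g J : ℕ) (hg : 1 ≤ g) :
    ∑ j ∈ Icc 1 J, (Nat.gcd j g : ℝ) ≤ g.divisors.card * J := by
  exact_mod_cast gcd_sum_nat_FLCount0 g J hg

theorem two_FLCount0 (S : Finset (O m)) (l : ℕ) (hl : 0 < l) (c t : ℤ)
    (h : ∀ δ ∈ S, 0 ≤ δ.re ∧ δ.re < 2 * l ∧ (l : ℤ) ∣ δ.re - c ∧ δ.im = t) : S.card ≤ 2 := by
  have hl' : (0 : ℤ) < l := by exact_mod_cast hl
  have h2 : (Ico (0 : ℤ) 2).card = 2 := by simp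
  rw [← h2]
  refine card_le_card_of_injOn (fun δ => δ.re / l) (fun δ hδ => ?_) (fun δ hδ δ' hδ' e => ?_)
  · obtain ⟨a, b, -, -⟩ := h δ hδ
    simp only [coe_Ico, Set.mem_Ico]
    exact ⟨Int.ediv_nonneg a hl'.le, Int.ediv_lt_of_lt_mul hl' b⟩
  · obtain ⟨-, -, a, b⟩ := h δ hδ
    obtain ⟨-, -, a', b'⟩ := h δ' hδ'
    have e' : δ.re / l = δ'.re / l := e
    have d : (l : ℤ) ∣ δ'.re - δ.re := by
      have := dvd_sub a' a
      rwa [sub_sub_sub_cancel_right] at this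
    have md : δ.re % l = δ'.re % l := (Int.emod_emod_of_dvd _ dvd_rfl).symm.trans
      ((Int.emod_emod_of_dvd _ dvd_rfl).trans (Int.modEq_iff_dvd.2 d))
    have e1 := Int.mul_ediv_add_emod δ.re l
    have e2 := Int.mul_ediv_add_emod δ'.re l
    refine Zsqrtd.ext ?_ (b.trans b'.symm)
    rw [← e1, ← e2, e', md]

open Classical in
theorem cnt_prime_nat_FLCount0 (h : Fam m y J k F) {l : ℕ} (hl : l.Prime) (hy : y < l) :
    (F.filter fun δ => (l : ℤ) ∣ δ.norm).card ≤ 12 * J := by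
  have hp := Nat.prime_iff_prime_int.1 hl
  have hy' : (y : ℤ) < l := by exact_mod_cast hy
  have key := card_le_mul_card_image_of_maps_to (s := F.filter fun δ => (l : ℤ) ∣ δ.norm)
    (t := (Icc (-(J : ℤ)) J).image fun j => (m : ℤ) * j) (f := fun δ => δ.im) (fun δ hδ => by
      obtain ⟨-, -, ⟨j, hj⟩, hb⟩ := h.box δ (mem_filter.1 hδ).1
      rcases Nat.eq_zero_or_pos m with hm | hm
      · refine mem_image.2 ⟨0, mem_Icc.2 ⟨by omega, by omega⟩, ?_⟩
        rw [hj, hm]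
        simp
      · refine mem_image.2 ⟨j, mem_Icc.2 (abs_le.1 ?_), hj.symm⟩
        have hm' : (0 : ℤ) < m := by exact_mod_cast hm
        rw [hj, abs_mul, abs_of_pos hm'] at hb
        exact le_of_mul_le_mul_left hb hm') 4 (fun t _ => by
      rcases ((F.filter fun δ => (l : ℤ) ∣ δ.norm).filter fun δ => δ.im = t).eq_empty_or_nonempty
        with he | ⟨δ0, h0⟩
      · rw [he]
        simp
      · have hsub : ((F.filter fun δ => (l : ℤ) ∣ δ.norm).filter fun δ => δ.im = t) ⊆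
            ((F.filter fun δ => (l : ℤ) ∣ δ.re - δ0.re ∧ δ.im = t) ∪
              (F.filter fun δ => (l : ℤ) ∣ δ.re - (-δ0.re) ∧ δ.im = t)) := by
          intro δ hδ
          simp only [mem_filter, mem_union] at hδ h0 ⊢
          have d : (l : ℤ) ∣ (δ.re - δ0.re) * (δ.re - (-δ0.re)) := by
            have := dvd_sub hδ.1.2 h0.1.2
            rw [norm_eq, norm_eq, hδ.2, h0.2] at this
            refine this.trans (dvd_of_eq ?_)
            ring
          rcases hp.dvd_or_dvd d with d | d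
          · exact Or.inl ⟨hδ.1.1, d, hδ.2⟩
          · exact Or.inr ⟨hδ.1.1, d, hδ.2⟩
        have hb : ∀ c : ℤ, (F.filter fun δ => (l : ℤ) ∣ δ.re - c ∧ δ.im = t).card ≤ 2 := by
          intro c
          refine two_FLCount0 _ l hl.pos c t fun δ hδ => ?_
          obtain ⟨a, b, -, -⟩ := h.box δ (mem_filter.1 hδ).1
          exact ⟨by omega, by omega, (mem_filter.1 hδ).2⟩
        have h1 := hb δ0.re
        have h2 := hb (-δ0.re)
        have h3 := (card_le_card hsub).trans (card_union_le _ _)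
        omega)
  have hc : ((Icc (-(J : ℤ)) J).image fun j => (m : ℤ) * j).card ≤ 2 * J + 1 := by
    refine card_image_le.trans ?_
    rw [Int.card_Icc]
    omega
  have := h.pos
  omega

open Classical in
theorem cnt_prime (h : Fam m y J k F) {l : ℕ} (hl : l.Prime) (hy : y < l) :
    ((F.filter fun δ => (l : ℤ) ∣ δ.norm).card : ℝ) ≤ 12 * J := by
  exact_mod_cast cnt_prime_nat_FLCount0 h hl hy

open Classical in
theorem cnt_cop (h : Fam m y J k F) {δ0 : O m} (h0 : δ0 ∈ F) :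
    ((F.filter fun δ => ¬ Nat.Coprime δ0.norm.natAbs δ.norm.natAbs).card : ℝ) * y ≤
      24 * k * F.card := by
  obtain ⟨l, l', hl, hl', -, hy, hy', -, -, hn⟩ := h.nrm δ0 h0
  have hsub : (F.filter fun δ => ¬ Nat.Coprime δ0.norm.natAbs δ.norm.natAbs) ⊆
      (F.filter fun δ => (l : ℤ) ∣ δ.norm) ∪ (F.filter fun δ => (l' : ℤ) ∣ δ.norm) := by
    intro δ hδ
    simp only [mem_filter, mem_union] at hδ ⊢
    by_contra hc
    refine hδ.2 ?_
    have e : δ0.norm.natAbs = l * l' := by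
      rw [hn, Int.natAbs_mul, Int.natAbs_natCast, Int.natAbs_natCast]
    rw [e]
    refine Nat.Coprime.mul_left ((Nat.Prime.coprime_iff_not_dvd hl).2 fun d => hc ?_)
      ((Nat.Prime.coprime_iff_not_dvd hl').2 fun d => hc ?_)
    · exact Or.inl ⟨hδ.1, Int.natCast_dvd.2 d⟩
    · exact Or.inr ⟨hδ.1, Int.natCast_dvd.2 d⟩
  have h1 := cnt_prime_nat_FLCount0 h hl hy
  have h2 := cnt_prime_nat_FLCount0 h hl' hy'
  have h3 := (card_le_card hsub).trans (card_union_le _ _)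
  have h4 : (F.filter fun δ => ¬ Nat.Coprime δ0.norm.natAbs δ.norm.natAbs).card ≤ 24 * J := by
    omega
  have h5 : ((F.filter fun δ => ¬ Nat.Coprime δ0.norm.natAbs δ.norm.natAbs).card : ℝ) ≤
      24 * J := by exact_mod_cast h4
  have h6 := mul_le_mul_of_nonneg_right h5 (Nat.cast_nonneg (α := ℝ) y)
  have h7 := h.big
  linarith

theorem short_FLCount0 (S : Finset (O m)) (R : ℝ) (c : ℤ)
    (h : ∀ δ ∈ S, δ.re = c) (h' : ∀ δ ∈ S, ∀ δ' ∈ S, ((δ.im : ℝ) - δ'.im) ≤ R) :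
    S.card ≤ ⌊R⌋₊ + 1 := by
  rcases S.eq_empty_or_nonempty with he | hne
  · rw [he]
    simp
  obtain ⟨δ0, h0, hmin⟩ := exists_min_image S (fun δ => δ.im) hne
  have h2 : (Icc δ0.im (δ0.im + ⌊R⌋₊)).card = ⌊R⌋₊ + 1 := by
    rw [Int.card_Icc]
    omega
  rw [← h2]
  refine card_le_card_of_injOn (fun δ => δ.im) (fun δ hδ => ?_) (fun δ hδ δ' hδ' e => ?_)
  · simp only [coe_Icc, Set.mem_Icc]
    have a := hmin δ hδ
    refine ⟨a, ?_⟩
    have b := h' δ hδ δ0 h0
    obtain ⟨n, hn⟩ := Int.eq_ofNat_of_zero_le (sub_nonneg.2 a)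
    have c1 : (n : ℝ) ≤ R := by
      have : ((δ.im - δ0.im : ℤ) : ℝ) = (n : ℝ) := by rw [hn]; simp
      push_cast at this
      linarith
    have c2 : n ≤ ⌊R⌋₊ := Nat.le_floor c1
    omega
  · exact Zsqrtd.ext ((h δ hδ).trans (h δ' hδ').symm) e

theorem im_small_FLCount0 (hm : 1 ≤ m) {δ : O m} (hT : InBox m y J δ) (hJ : 10 * m ^ 2 * J ≤ y) :
    10 * (|(δ.im : ℝ)| * Real.sqrt m) ≤ y := by
  have h1 : |(δ.im : ℝ)| ≤ m * J := by exact_mod_cast hT.2.2.2
  have hm' : (1 : ℝ) ≤ m := by exact_mod_cast hm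
  have h2 : Real.sqrt m ≤ m := by
    rw [Real.sqrt_le_left (by linarith)]
    nlinarith
  have h3 : (10 : ℝ) * m ^ 2 * J ≤ y := by exact_mod_cast hJ
  have h4 := mul_le_mul h1 h2 (Real.sqrt_nonneg _) (by positivity)
  nlinarith

theorem diff_FLCount0 (hm : 1 ≤ m) {δ δ' : O m} (hT : InBox m y J δ) (hT' : InBox m y J δ')
    (hJ : 10 * m ^ 2 * J ≤ y) (ω : ℂ) (hω : 1 ≤ ‖ω‖) (r : ℝ) (e : δ.re = δ'.re)
    (h : |(ω * ph m δ).re| ≤ r) (h' : |(ω * ph m δ').re| ≤ r) : (δ.im : ℝ) - δ'.im ≤ 3 * r := by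
  have hr : 0 ≤ r := (abs_nonneg _).trans h
  have s1 : 1 ≤ Real.sqrt m := Real.one_le_sqrt.2 (by exact_mod_cast hm)
  have a := im_small_FLCount0 hm hT hJ
  have a' := im_small_FLCount0 hm hT' hJ
  have n2 : 1 ≤ ω.re ^ 2 + ω.im ^ 2 := by
    have := Complex.sq_norm ω
    rw [Complex.normSq_apply] at this
    nlinarith
  rw [Complex.mul_re, ph_re, ph_im] at h h'
  by_cases c1 : (y : ℝ) < 10 * r
  · have b := le_mul_of_one_le_right (abs_nonneg (δ.im : ℝ)) s1
    have b' := le_mul_of_one_le_right (abs_nonneg (δ'.im : ℝ)) s1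
    have := le_abs_self (δ.im : ℝ)
    have := neg_abs_le (δ'.im : ℝ)
    linarith
  · rw [not_lt] at c1
    by_cases c2 : |ω.im| ≤ |ω.re|
    · exfalso
      have x1 : (y : ℝ) < 2 * δ.re := by exact_mod_cast hT.1
      have y0 : (0 : ℝ) ≤ y := Nat.cast_nonneg y
      have w1 : 7 / 10 ≤ |ω.re| := by
        by_contra hc
        rw [not_le] at hc
        have := sq_abs ω.re
        have := sq_abs ω.im
        nlinarith [abs_nonneg ω.re, abs_nonneg ω.im]
      have t1 : |ω.re * δ.re| ≤ r + |ω.im * (δ.im * Real.sqrt m)| := by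
        have := abs_add_le (ω.re * δ.re - ω.im * (δ.im * Real.sqrt m))
          (ω.im * (δ.im * Real.sqrt m))
        rw [sub_add_cancel] at this
        linarith
      rw [abs_mul, abs_mul, abs_mul, abs_of_nonneg (Real.sqrt_nonneg _),
        abs_of_nonneg (show (0 : ℝ) ≤ δ.re by linarith)] at t1
      have p0 : 0 ≤ |(δ.im : ℝ)| * Real.sqrt m := by positivity
      have t2 := mul_le_mul_of_nonneg_right c2 p0
      have t3 : 4 / 10 * (y : ℝ) < δ.re - |(δ.im : ℝ)| * Real.sqrt m := by linarith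
      have t4 := mul_le_mul_of_nonneg_right w1
        (show 0 ≤ δ.re - |(δ.im : ℝ)| * Real.sqrt m by linarith)
      nlinarith
    · rw [not_le] at c2
      have w1 : 7 / 10 ≤ |ω.im| := by
        by_contra hc
        rw [not_le] at hc
        have := sq_abs ω.re
        have := sq_abs ω.im
        nlinarith [abs_nonneg ω.re, abs_nonneg ω.im]
      have t1 : |ω.im * (((δ.im : ℝ) - δ'.im) * Real.sqrt m)| ≤ 2 * r := by
        have := abs_sub (ω.re * δ'.re - ω.im * (δ'.im * Real.sqrt m))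
          (ω.re * δ.re - ω.im * (δ.im * Real.sqrt m))
        have e2 : ω.re * δ'.re - ω.im * (δ'.im * Real.sqrt m) -
            (ω.re * δ.re - ω.im * (δ.im * Real.sqrt m)) =
            ω.im * (((δ.im : ℝ) - δ'.im) * Real.sqrt m) := by
          rw [e]
          ring
        rw [e2] at this
        linarith
      rw [abs_mul, abs_mul, abs_of_nonneg (Real.sqrt_nonneg _)] at t1
      have b := le_mul_of_one_le_right (abs_nonneg ((δ.im : ℝ) - δ'.im)) s1
      have t2 := mul_le_mul w1 b (abs_nonneg _) (abs_nonneg _)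
      have := le_abs_self ((δ.im : ℝ) - δ'.im)
      linarith

open Classical in
theorem cnt_line (hm : 1 ≤ m) (T : Finset (O m)) (hT : ∀ δ ∈ T, InBox m y J δ)
    (hJ : 10 * m ^ 2 * J ≤ y) (ω : ℂ) (hω : 1 ≤ ‖ω‖) (r : ℝ) (hr : 0 ≤ r) :
    ((T.filter fun δ => |(ω * ph m δ).re| ≤ r).card : ℝ) ≤ 2 * y * (3 * r + 1) := by
  have key := card_le_mul_card_image_of_maps_to (s := T.filter fun δ => |(ω * ph m δ).re| ≤ r)
    (t := Ioc (0 : ℤ) (2 * y)) (f := fun δ => δ.re) (fun δ hδ => by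
      obtain ⟨a, b, -, -⟩ := hT δ (mem_filter.1 hδ).1
      exact mem_Ioc.2 ⟨by omega, b⟩) (⌊3 * r⌋₊ + 1) (fun c _ => by
      refine short_FLCount0 _ _ c (fun δ hδ => (mem_filter.1 hδ).2) fun δ hδ δ' hδ' => ?_
      simp only [mem_filter] at hδ hδ'
      exact diff_FLCount0 hm (hT δ hδ.1.1) (hT δ' hδ'.1.1) hJ ω hω r (hδ.2.trans hδ'.2.symm)
        hδ.1.2 hδ'.1.2)
  have hc : (Ioc (0 : ℤ) (2 * y)).card = 2 * y := by
    rw [Int.card_Ioc]
    omega
  rw [hc] at key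
  have k2 : ((T.filter fun δ => |(ω * ph m δ).re| ≤ r).card : ℝ) ≤
      ((⌊3 * r⌋₊ : ℝ) + 1) * (2 * y) := by exact_mod_cast key
  have k3 : (⌊3 * r⌋₊ : ℝ) ≤ 3 * r := Nat.floor_le (by linarith)
  have y0 : (0 : ℝ) ≤ y := Nat.cast_nonneg y
  nlinarith

open Classical in
theorem cnt_arc (h : Fam m y J k F) (hm : 1 ≤ m) (hJ : y ≤ 20 * m ^ 2 * J) {δ0 : O m} (h0 : δ0 ∈ F)
    (a : ℝ) (ha : 0 ≤ a) :
    ((F.filter fun δ => |(ph m δ * conj (ph m δ0)).im| ≤ a * (y : ℝ) ^ 2).card : ℝ) ≤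
      40 * k * (m : ℝ) ^ 2 * (3 * a + 1 / y) * F.card := by
  have hy : 0 < y := by
    have h1 := h.thin
    have h2 := h.pos
    have h3 : 0 < 10 * m ^ 2 * J := by positivity
    omega
  have y0 : (0 : ℝ) < y := by exact_mod_cast hy
  have hω : 1 ≤ ‖-Complex.I * conj (ph m δ0) / (y : ℂ)‖ := by
    rw [norm_div, norm_mul, norm_neg, Complex.norm_I, one_mul, Complex.norm_conj,
      Complex.norm_natCast, one_le_div y0]
    exact (h.abs h0).1.le
  have key := cnt_line hm F h.box h.thin _ hω (a * y) (by positivity)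
  have hsub : (F.filter fun δ => |(ph m δ * conj (ph m δ0)).im| ≤ a * (y : ℝ) ^ 2) ⊆
      F.filter fun δ => |(-Complex.I * conj (ph m δ0) / (y : ℂ) * ph m δ).re| ≤ a * y := by
    intro δ hδ
    simp only [mem_filter] at hδ ⊢
    refine ⟨hδ.1, ?_⟩
    have e : -Complex.I * conj (ph m δ0) / (y : ℂ) * ph m δ =
        -Complex.I * (ph m δ * conj (ph m δ0)) / ((y : ℝ) : ℂ) := by
      push_cast
      ring
    have e2 : (-Complex.I * (ph m δ * conj (ph m δ0))).re = (ph m δ * conj (ph m δ0)).im := by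
      generalize ph m δ * conj (ph m δ0) = z
      simp
    rw [e, Complex.div_ofReal_re, e2, abs_div, abs_of_pos y0, div_le_iff₀ y0]
    linarith [hδ.2]
  have k1 : ((F.filter fun δ => |(ph m δ * conj (ph m δ0)).im| ≤ a * (y : ℝ) ^ 2).card : ℝ) ≤
      2 * y * (3 * (a * y) + 1) := le_trans (by exact_mod_cast card_le_card hsub) key
  have k2 : (y : ℝ) ≤ 20 * m ^ 2 * J := by exact_mod_cast hJ
  have k3 := h.big
  have p : 0 ≤ 3 * a + 1 / (y : ℝ) := by positivity
  have k4 : (y : ℝ) * y ≤ 20 * m ^ 2 * (k * F.card) := by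
    have t1 := mul_le_mul_of_nonneg_left k2 y0.le
    have t2 := mul_le_mul_of_nonneg_left k3 (show (0 : ℝ) ≤ 20 * m ^ 2 by positivity)
    linarith
  have k5 := mul_le_mul_of_nonneg_right k4 p
  have e : 2 * (y : ℝ) * (3 * (a * y) + 1) = 2 * (y * y * (3 * a + 1 / y)) := by
    field_simp
  rw [e] at k1
  linarith

end Pool.Agent.P.MP_b75a1e_co.EG
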