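import Pool.Agent.P.MP_b75a1e_co.FLCube0

set_option autoImplicit false

open Finset
open scoped BigOperators ComplexConjugate

namespace Pool.Agent.P.MP_b75a1e_co.EG

theorem jac_abs_FLCube (a : ℤ) (q : ℕ) : |(jacobiSym a q : ℝ)| ≤ 1 := by
  rcases jacobiSym.trichotomy a q with h | h | h <;> rw [h] <;> norm_num

theorem jac_cast_FLCube (n d : ℕ) [NeZero n] [NeZero d] (x : ZMod n) :
    jacobiSym (((x.cast : ZMod d).val : ℕ) : ℤ) d = jacobiSym (x.val : ℤ) d := by
  rw [ZMod.cast_eq_val, ZMod.val_natCast]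
  apply jacobiSym.mod_left'
  push_cast
  exact Int.emod_emod_of_dvd _ dvd_rfl

theorem TT_mul_FLCube (r a b : ℕ) [NeZero a] [NeZero b] (h : a.Coprime b) :
    TT r (fun x : ZMod (a * b) => (jacobiSym x.val (a * b) : ℝ)) =
      TT r (fun x : ZMod a => (jacobiSym x.val a : ℝ)) *
        TT r (fun x : ZMod b => (jacobiSym x.val b : ℝ)) := by
  rw [← TT_prod, ← TT_equiv (ZMod.chineseRemainder h).toAddEquiv]
  refine congrArg (TT r) (funext fun x => ?_)
  have h1 : ((ZMod.chineseRemainder h).toAddEquiv x).1 = (x.cast : ZMod a) := by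
    show ((ZMod.cast x : ZMod a × ZMod b)).1 = _
    exact Prod.fst_zmod_cast x
  have h2 : ((ZMod.chineseRemainder h).toAddEquiv x).2 = (x.cast : ZMod b) := by
    show ((ZMod.cast x : ZMod a × ZMod b)).2 = _
    exact Prod.snd_zmod_cast x
  simp only [h1, h2]
  rw [jac_cast_FLCube, jac_cast_FLCube, jacobiSym.mul_right]
  push_cast
  rfl

theorem TT_pr_FLCube (r l : ℕ) [NeZero l] (hp : l.Prime) (hl : l ≠ 2) :
    TT r (fun x : ZMod l => (jacobiSym x.val l : ℝ)) ≤ 2 ^ r * (102 + r) / Real.sqrt l := by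
  have : Fact l.Prime := ⟨hp⟩
  have h := TT_prime l hl r ({0} : Multiset (ZMod l)) ⟨0, by simp⟩
  have e : (fun x : ZMod l => (jacobiSym x.val l : ℝ)) =
      fun x : ZMod l => (quadraticChar (ZMod l)
        (({0} : Multiset (ZMod l)).map fun z => x + z).prod : ℝ) := by
    funext x
    rw [← jacobiSym.legendreSym.to_jacobiSym, legendreSym]
    simp
  rw [e]
  simpa using h

theorem TT_pr'_FLCube (r l c : ℕ) [NeZero l] (hp : l.Prime) (hl : l ≠ 2)
    (hc : c = 2 ^ r * (102 + r)) :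
    TT r (fun x : ZMod l => (jacobiSym x.val l : ℝ)) ≤
      (if l < c ^ 4 then (c : ℝ) else 1) * (l : ℝ) ^ (-1 / 4 : ℝ) := by
  have h := TT_pr_FLCube r l hp hl
  have hc' : (2 : ℝ) ^ r * (102 + r) = c := by rw [hc]; push_cast; ring
  rw [hc'] at h
  have hl1 : (1 : ℝ) ≤ l := by exact_mod_cast hp.one_le
  have hl0 : (0 : ℝ) < l := by linarith
  have hc0 : (0 : ℝ) ≤ c := Nat.cast_nonneg c
  set t : ℝ := (l : ℝ) ^ (-1 / 4 : ℝ) with ht
  have ht0 : 0 < t := Real.rpow_pos_of_pos hl0 _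
  have ht1 : t ≤ 1 := Real.rpow_le_one_of_one_le_of_nonpos hl1 (by norm_num)
  have hs : (c : ℝ) / Real.sqrt l = c * t * t := by
    rw [Real.sqrt_eq_rpow, mul_assoc, ht, ← Real.rpow_add hl0, div_eq_mul_inv,
      ← Real.rpow_neg hl0.le]
    norm_num
  rw [hs] at h
  refine h.trans (mul_le_mul_of_nonneg_right ?_ ht0.le)
  split_ifs with hlt
  · exact mul_le_of_le_one_right hc0 ht1
  · have h4 : (c : ℝ) ^ 4 ≤ l := by exact_mod_cast Nat.le_of_not_lt hlt
    have ht4 : t ^ 4 * l = 1 := by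
      rw [ht, ← Real.rpow_natCast, ← Real.rpow_mul hl0.le]
      norm_num
      rw [Real.rpow_neg_one]
      exact inv_mul_cancel₀ hl0.ne'
    have h5 : (c * t) ^ 4 ≤ 1 := by
      rw [mul_pow, ← ht4, mul_comm]
      exact mul_le_mul_of_nonneg_left h4 (by positivity)
    exact (pow_le_one_iff_of_nonneg (by positivity) (by norm_num)).1 h5

theorem TT_ind_FLCube (r c : ℕ) (hc : c = 2 ^ r * (102 + r)) (q : ℕ) :
    ∀ [NeZero q], Odd q → Squarefree q →
      TT r (fun x : ZMod q => (jacobiSym x.val q : ℝ)) ≤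
        (∏ l ∈ q.primeFactors, if l < c ^ 4 then (c : ℝ) else 1) * (q : ℝ) ^ (-1 / 4 : ℝ) := by
  induction q using Nat.strong_induction_on with
  | _ q ih =>
    intro _ ho hs
    by_cases h1 : q = 1
    · subst h1
      simpa using TT_le_one r _ fun x : ZMod 1 => jac_abs_FLCube (x.val : ℤ) 1
    · obtain ⟨l, hp, b, rfl⟩ := Nat.exists_prime_and_dvd h1
      have hb0 : b ≠ 0 := fun h => NeZero.ne (l * b) (by rw [h, mul_zero])
      have : NeZero b := ⟨hb0⟩
      have : NeZero l := ⟨hp.ne_zero⟩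
      have hcop : l.Coprime b := Nat.coprime_of_squarefree_mul hs
      have hol : Odd l := (Nat.odd_mul.1 ho).1
      have hob : Odd b := (Nat.odd_mul.1 ho).2
      have hl2 : l ≠ 2 := by
        rintro rfl
        exact absurd hol (by decide)
      have hlt : b < l * b := lt_mul_of_one_lt_left (Nat.pos_of_ne_zero hb0) hp.one_lt
      have hb := ih b hlt hob hs.of_mul_right
      have hl := TT_pr'_FLCube r l c hp hl2 hc
      rw [TT_mul_FLCube r l b hcop, hcop.primeFactors_mul, prod_union hcop.disjoint_primeFactors,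
        hp.primeFactors, prod_singleton, Nat.cast_mul,
        Real.mul_rpow (Nat.cast_nonneg l) (Nat.cast_nonneg b)]
      refine (mul_le_mul hl hb (TT_nonneg _ _) ((TT_nonneg _ _).trans hl)).trans (le_of_eq ?_)
      ring

theorem TT_jac (r : ℕ) : ∃ C : ℝ, 1 ≤ C ∧ ∀ (q : ℕ) [NeZero q], Odd q → Squarefree q →
    TT r (fun x : ZMod q => (jacobiSym x.val q : ℝ)) ≤ C * (q : ℝ) ^ (-1 / 4 : ℝ) := by
  obtain ⟨c, hc⟩ : ∃ c : ℕ, c = 2 ^ r * (102 + r) := ⟨_, rfl⟩
  have hc1 : 1 ≤ c := by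
    rw [hc]
    exact Nat.succ_le_of_lt (by positivity)
  have hc1' : (1 : ℝ) ≤ c := by exact_mod_cast hc1
  refine ⟨(c : ℝ) ^ (c ^ 4), one_le_pow₀ hc1', fun q _ ho hs => ?_⟩
  refine (TT_ind_FLCube r c hc q ho hs).trans
    (mul_le_mul_of_nonneg_right ?_ (Real.rpow_nonneg (Nat.cast_nonneg q) _))
  rw [prod_ite, prod_const, prod_const_one, mul_one]
  refine pow_le_pow_right₀ hc1' ?_
  calc _ ≤ (range (c ^ 4)).card :=
        card_le_card fun l hl => mem_range.2 (mem_filter.1 hl).2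
    _ = c ^ 4 := card_range _

end Pool.Agent.P.MP_b75a1e_co.EG
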