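import Pool.Agent.P.MP_b75a1e_co.FLStepA

set_option autoImplicit false

open Finset Polynomial
open scoped BigOperators

namespace Pool.Agent.P.MP_b75a1e_co.EG

/-- Many roots of high multiplicity force a high degree. -/
theorem mult_deg_FLStepB {F : Type} [Field F] [DecidableEq F] (R : F[X]) (S : Finset F) (t : ℕ)
    (h : ∀ x ∈ S, t ≤ R.rootMultiplicity x) : S.card * t ≤ R.natDegree := by
  calc S.card * t = ∑ _x ∈ S, t := by simp
    _ ≤ ∑ x ∈ S, R.roots.count x := by
        refine Finset.sum_le_sum fun x hx => ?_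
        rw [count_roots]; exact h x hx
    _ ≤ ∑ x ∈ S ∪ R.roots.toFinset, R.roots.count x :=
        Finset.sum_le_sum_of_subset Finset.subset_union_left
    _ = Multiset.card R.roots := by
        refine Multiset.sum_count_eq_card fun x hx => ?_
        exact Finset.mem_union_right _ (Multiset.mem_toFinset.2 hx)
    _ ≤ R.natDegree := card_roots' R

/-- The dimension count. -/
theorem dim_FLStepB (l n t c b J : ℕ) (hn : 1 ≤ n) (htl : t * t ≤ l) (htn : 100 * n ≤ t)
    (hc : l ≤ 2 * c + 1) (hb : b + n = c) (hJ : t + 6 * n + 1 ≤ 2 * J)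
    (hJ' : 2 * J ≤ t + 6 * n + 2) : t * (b + t * n + J) < 2 * J * b := by
  have h1 : (t + 6 * n + 1) * b ≤ 2 * J * b := Nat.mul_le_mul_right b hJ
  have h2 : t * (2 * J) ≤ t * (t + 6 * n + 2) := Nat.mul_le_mul_left t hJ'
  have h3 : t * t ≤ 2 * b + 2 * n + 1 := by omega
  have h4 : n * (t * t) ≤ n * (2 * b + 2 * n + 1) := Nat.mul_le_mul_left n h3
  have h5 : t * (100 * n) ≤ t * t := Nat.mul_le_mul_left t htn
  have h6 : 100 * n * n ≤ t * n := Nat.mul_le_mul_right n htn
  have h7 : n ≤ n * n := Nat.le_mul_self n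
  have h8 : b ≤ n * b := Nat.le_mul_of_pos_left b hn
  have h9 : t ≤ t * n := Nat.le_mul_of_pos_right t hn
  nlinarith

/-- The final arithmetic. -/
theorem fin_FLStepB (l n t c b J N : ℕ) (hn : 1 ≤ n) (ht : 1 ≤ t) (hlt : l < (t + 1) * (t + 1))
    (hl : 1 ≤ l) (hc : 2 * c ≤ l) (hb : b ≤ c) (hJ' : 2 * J ≤ t + 6 * n)
    (h : N * t ≤ t * n + (b + c * n + J * l)) :
    (N : ℝ) ≤ l / 2 + 10 * n * Real.sqrt l := by
  have hn' : (1 : ℝ) ≤ n := by exact_mod_cast hn
  have ht' : (1 : ℝ) ≤ t := by exact_mod_cast ht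
  have hl' : (1 : ℝ) ≤ l := by exact_mod_cast hl
  have hc' : 2 * (c : ℝ) ≤ l := by exact_mod_cast hc
  have hb' : (b : ℝ) ≤ c := by exact_mod_cast hb
  have hJ : 2 * (J : ℝ) ≤ t + 6 * n := by exact_mod_cast hJ'
  have h' : (N : ℝ) * t ≤ t * n + (b + c * n + J * l) := by exact_mod_cast h
  have hlt' : (l : ℝ) < (t + 1) * (t + 1) := by exact_mod_cast hlt
  set q := Real.sqrt l with hq
  have hq0 : 0 ≤ q := Real.sqrt_nonneg _
  have hqq : q * q = l := Real.mul_self_sqrt (by linarith)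
  have hq1 : 1 ≤ q := by
    by_contra hcon
    have : q < 1 := not_le.1 hcon
    nlinarith
  have hqt : q ≤ 2 * t := by
    by_contra hcon
    have : 2 * (t : ℝ) < q := not_le.1 hcon
    nlinarith
  have hl2 : (l : ℝ) ≤ 2 * t * q := by rw [← hqq]; exact mul_le_mul_of_nonneg_right hqt hq0
  have a1 : (J : ℝ) * l ≤ (t + 6 * n) / 2 * l :=
    mul_le_mul_of_nonneg_right (by linarith) (by linarith)
  have a2 : (c : ℝ) * n ≤ l / 2 * n := mul_le_mul_of_nonneg_right (by linarith) (by linarith)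
  have a3 : (l : ℝ) * n ≤ 2 * t * q * n := mul_le_mul_of_nonneg_right hl2 (by linarith)
  have a4 : (l : ℝ) ≤ l * n := le_mul_of_one_le_right (by linarith) hn'
  have a5 : (t : ℝ) * n ≤ t * n * q := le_mul_of_one_le_right (by positivity) hq1
  have a6 : 0 ≤ (t : ℝ) * n * q := by positivity
  have key : (N : ℝ) * t ≤ (l / 2 + 10 * n * q) * t := by nlinarith
  exact le_of_mul_le_mul_right key (by linarith)

theorem step_count (l : ℕ) [Fact l.Prime] (hl : l ≠ 2) (A : Finset (ZMod l)) (hA : A.Nonempty)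
    (h0 : (0 : ZMod l) ∉ A) (hc : 10 ^ 4 * A.card ^ 2 ≤ l) (a : ZMod l) :
    (((univ : Finset (ZMod l)).filter fun x =>
      ∏ z ∈ A, (x + z) = 0 ∨ (∏ z ∈ A, (x + z)) ^ (l / 2) = a).card : ℝ) ≤
      l / 2 + 10 * A.card * Real.sqrt l := by
  have hp : l.Prime := Fact.out
  have hn : 1 ≤ A.card := Finset.card_pos.2 hA
  obtain ⟨n, hnn⟩ : ∃ n, n = A.card := ⟨_, rfl⟩
  obtain ⟨t, htt⟩ : ∃ t, t = Nat.sqrt l := ⟨_, rfl⟩
  obtain ⟨f, hf⟩ : ∃ f : (ZMod l)[X], f = ∏ z ∈ A, (X + C z) := ⟨_, rfl⟩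
  rw [← hnn] at hn hc ⊢
  have htl : t * t ≤ l := by rw [htt]; exact Nat.sqrt_le l
  have hlt : l < (t + 1) * (t + 1) := by rw [htt]; exact Nat.lt_succ_sqrt l
  have htn : 100 * n ≤ t := by
    rw [htt, Nat.le_sqrt]
    calc 100 * n * (100 * n) = 10 ^ 4 * n ^ 2 := by ring
      _ ≤ l := hc
  have htl' : t ≤ l := le_trans (Nat.le_mul_self t) htl
  have hmon : f.Monic := by
    rw [hf]; exact monic_prod_of_monic _ _ fun z _ => monic_X_add_C z
  have hdeg : f.natDegree = n := by
    rw [hf, natDegree_prod_of_monic _ _ fun z _ => monic_X_add_C z, hnn]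
    simp
  have hev : ∀ x, f.eval x = ∏ z ∈ A, (x + z) := by
    intro x; rw [hf, eval_prod]; simp
  obtain ⟨r, s, hr, hs, hne, hz⟩ := step_aux l f a (l / 2) t (t / 2 + 3 * n + 1) (l / 2 - n) (by
    rw [hdeg]
    exact dim_FLStepB l n t (l / 2) (l / 2 - n) (t / 2 + 3 * n + 1) hn htl htn (by omega)
      (by omega) (by omega) (by omega))
  obtain ⟨Q, hQ⟩ : ∃ Q : (ZMod l)[X], Q = ∑ j ∈ range (t / 2 + 3 * n + 1),
    (r j + s j * f ^ (l / 2)) * X ^ (j * l) := ⟨_, rfl⟩
  rw [← hQ] at hz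
  have hQ0 : Q ≠ 0 := by
    intro hQ0
    have h1 := step_ne l hl A hA h0 (l / 2 - n) (by omega) (t / 2 + 3 * n + 1) r s hr hs
      (by rw [← hf, ← hQ]; exact hQ0)
    obtain ⟨j, hj, hj'⟩ := hne
    rcases hj' with h | h
    · exact h (h1 j hj).1
    · exact h (h1 j hj).2
  have hR0 : f ^ t * Q ≠ 0 := mul_ne_zero (pow_ne_zero _ hmon.ne_zero) hQ0
  have hnd : ∀ p : (ZMod l)[X], p.degree < (l / 2 - n : ℕ) → p.natDegree ≤ l / 2 - n := fun p h =>
    natDegree_le_of_degree_le h.le
  have hQd : Q.natDegree ≤ l / 2 - n + l / 2 * n + (t / 2 + 3 * n) * l := by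
    rw [hQ]
    refine natDegree_sum_le_of_forall_le _ _ fun j hj => ?_
    have hj' : j ≤ t / 2 + 3 * n := by have := Finset.mem_range.1 hj; omega
    refine le_trans natDegree_mul_le (add_le_add ?_ ?_)
    · refine le_trans (natDegree_add_le _ _) (max_le ?_ ?_)
      · exact le_trans (hnd _ (hr j)) (Nat.le_add_right _ _)
      · refine le_trans natDegree_mul_le (add_le_add (hnd _ (hs j)) ?_)
        refine le_trans natDegree_pow_le ?_
        rw [hdeg]
    · rw [natDegree_X_pow]; exact Nat.mul_le_mul_right l hj'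
  have hRd : (f ^ t * Q).natDegree ≤ t * n + (l / 2 - n + l / 2 * n + (t / 2 + 3 * n) * l) := by
    refine le_trans natDegree_mul_le (add_le_add ?_ hQd)
    refine le_trans natDegree_pow_le ?_
    rw [hdeg]
  have hfac : (((t - 1).factorial : ℕ) : ZMod l) ∈ nonZeroDivisors (ZMod l) := by
    refine mem_nonZeroDivisors_of_ne_zero ?_
    rw [Ne, ZMod.natCast_eq_zero_iff, hp.dvd_factorial]
    omega
  have hmul := mult_deg_FLStepB (f ^ t * Q) ((univ : Finset (ZMod l)).filter fun x =>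
      ∏ z ∈ A, (x + z) = 0 ∨ (∏ z ∈ A, (x + z)) ^ (l / 2) = a) t (by
    intro x hx
    have hx' := (Finset.mem_filter.1 hx).2
    rw [← hev] at hx'
    have h1 := (lt_rootMultiplicity_iff_isRoot_iterate_derivative_of_mem_nonZeroDivisors
      (t := x) hR0 hfac).2 fun k hk => hz k (by omega) x hx'
    omega)
  exact fin_FLStepB l n t (l / 2) (l / 2 - n) (t / 2 + 3 * n) _ hn (by omega) hlt (by omega)
    (by omega) (by omega) (by omega) (le_trans hmul hRd)

/-- One sign of the character sum, no zero in `A`. -/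
theorem sign_FLStepB (l : ℕ) [Fact l.Prime] (hl : l ≠ 2) (A : Finset (ZMod l)) (hA : A.Nonempty)
    (h0 : (0 : ZMod l) ∉ A) (hc : 10 ^ 4 * A.card ^ 2 ≤ l) (e : ℤ) (he : e = 1 ∨ e = -1) :
    (e : ℝ) * ∑ x : ZMod l, (quadraticChar (ZMod l) (∏ z ∈ A, (x + z)) : ℝ) ≤
      20 * A.card * Real.sqrt l := by
  have hcnt := step_count l hl A hA h0 hc (e : ZMod l)
  have hch : ringChar (ZMod l) ≠ 2 := by rw [ZMod.ringChar_zmod_n]; exact hl
  have hpt : ∀ x : ZMod l, (e : ℝ) * (quadraticChar (ZMod l) (∏ z ∈ A, (x + z)) : ℝ) ≤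
      2 * (if ∏ z ∈ A, (x + z) = 0 ∨ (∏ z ∈ A, (x + z)) ^ (l / 2) = (e : ZMod l) then 1 else 0) -
        1 := by
    intro x
    generalize ∏ z ∈ A, (x + z) = w
    have h1 := quadraticChar_eq_pow_of_char_ne_two' hch w
    rw [ZMod.card] at h1
    by_cases hw : w = 0
    · subst hw
      norm_num
    · have hd := quadraticChar_dichotomy hw
      split_ifs with hi
      · rcases he with rfl | rfl <;> rcases hd with h | h <;> rw [h] <;> norm_num
      · have hne : quadraticChar (ZMod l) w ≠ e := by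
          intro h
          exact hi (Or.inr (by rw [← h1, h]))
        rcases he with rfl | rfl <;> rcases hd with h | h
        · exact absurd h hne
        · rw [h]; norm_num
        · rw [h]; norm_num
        · exact absurd h hne
  rw [Finset.mul_sum]
  refine le_trans (Finset.sum_le_sum fun x _ => hpt x) ?_
  rw [Finset.sum_sub_distrib, ← Finset.mul_sum, Finset.sum_boole]
  simp only [Finset.sum_const, Finset.card_univ, ZMod.card, nsmul_eq_mul, mul_one]
  linarith

/-- A bound of Weil type for the quadratic character of a product of distinct linear factors. -/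
theorem stepanov (l : ℕ) [Fact l.Prime] (hl : l ≠ 2) (A : Finset (ZMod l)) (hA : A.Nonempty) :
    |∑ x : ZMod l, (quadraticChar (ZMod l) (∏ z ∈ A, (x + z)) : ℝ)| ≤
      100 * A.card * Real.sqrt l := by
  have hq0 : 0 ≤ Real.sqrt l := Real.sqrt_nonneg _
  have hn : 1 ≤ A.card := Finset.card_pos.2 hA
  by_cases hc : 10 ^ 4 * A.card ^ 2 ≤ l
  · have hlt : A.card < Fintype.card (ZMod l) := by
      rw [ZMod.card]
      have : A.card ≤ A.card ^ 2 := Nat.le_self_pow (by norm_num) _
      omega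
    obtain ⟨y, hy⟩ : ∃ y : ZMod l, y ∉ A := by
      by_contra hcon
      have h1 : A = univ := Finset.eq_univ_of_forall fun y => by
        by_contra hy
        exact hcon ⟨y, hy⟩
      rw [h1, Finset.card_univ] at hlt
      exact lt_irrefl _ hlt
    have hinj : Function.Injective fun z : ZMod l => z - y := sub_left_injective
    have hcard : (A.image fun z => z - y).card = A.card := Finset.card_image_of_injective _ hinj
    have h0 : (0 : ZMod l) ∉ A.image fun z => z - y := by
      intro h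
      obtain ⟨z, hz, hzy⟩ := Finset.mem_image.1 h
      exact hy (by rw [← sub_eq_zero.1 hzy]; exact hz)
    have hsum : ∑ x : ZMod l, (quadraticChar (ZMod l) (∏ z ∈ A, (x + z)) : ℝ) =
        ∑ x : ZMod l, (quadraticChar (ZMod l) (∏ z ∈ A.image fun z => z - y, (x + z)) : ℝ) := by
      refine Fintype.sum_equiv (Equiv.addRight y) _ _ fun x => ?_
      rw [Finset.prod_image fun a _ b _ h => hinj h]
      have : ∀ z : ZMod l, Equiv.addRight y x + (z - y) = x + z := fun z => by
        simp only [Equiv.coe_addRight]; ring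
      simp only [this]
    have h1 := sign_FLStepB l hl _ (hA.image _) h0 (by rw [hcard]; exact hc) 1 (Or.inl rfl)
    have h2 := sign_FLStepB l hl _ (hA.image _) h0 (by rw [hcard]; exact hc) (-1) (Or.inr rfl)
    rw [hcard, ← hsum] at h1 h2
    have h3 : 0 ≤ (A.card : ℝ) * Real.sqrt l := by positivity
    push_cast at h1 h2
    rw [abs_le]
    constructor <;> linarith
  · have hc' : (l : ℝ) ≤ (100 * A.card) ^ 2 := by
      have : l ≤ (100 * A.card) ^ 2 := by
        have : (100 * A.card) ^ 2 = 10 ^ 4 * A.card ^ 2 := by ring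
        omega
      exact_mod_cast this
    have hs : Real.sqrt l ≤ 100 * A.card := Real.sqrt_le_iff.2 ⟨by positivity, hc'⟩
    have hb : |∑ x : ZMod l, (quadraticChar (ZMod l) (∏ z ∈ A, (x + z)) : ℝ)| ≤ l := by
      refine le_trans (Finset.abs_sum_le_sum_abs _ _) ?_
      refine le_trans (Finset.sum_le_sum (g := fun _ => (1 : ℝ)) fun x _ => ?_) ?_
      · rcases quadraticChar_isQuadratic (ZMod l) (∏ z ∈ A, (x + z)) with h | h | h <;>
          rw [h] <;> norm_num
      · simp [ZMod.card]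
    refine le_trans hb ?_
    calc (l : ℝ) = Real.sqrt l * Real.sqrt l := (Real.mul_self_sqrt (Nat.cast_nonneg l)).symm
      _ ≤ 100 * A.card * Real.sqrt l := mul_le_mul_of_nonneg_right hs hq0

end Pool.Agent.P.MP_b75a1e_co.EG
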