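import Pool.Agent.P.MP_b75a1e_co.FLDefs
import Pool.Agent.P.MP_b75a1e_co.FLStepB

set_option autoImplicit false

open Finset
open scoped BigOperators ComplexConjugate

namespace Pool.Agent.P.MP_b75a1e_co.EG

theorem TT_nonneg {G : Type} [AddCommGroup G] [Fintype G] (r : ℕ) (g : G → ℝ) : 0 ≤ TT r g := by
  induction r generalizing g with
  | zero => exact abs_nonneg _
  | succ r ih => exact expect_nonneg fun h _ => expect_nonneg fun h' _ => ih _

theorem TT_le_one {G : Type} [AddCommGroup G] [Fintype G] (r : ℕ) (g : G → ℝ)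
    (hg : ∀ x, |g x| ≤ 1) : TT r g ≤ 1 := by
  induction r generalizing g with
  | zero =>
    show |𝔼 x, g x| ≤ 1
    rw [abs_le]
    exact ⟨le_expect univ_nonempty fun x _ => (abs_le.1 (hg x)).1,
      expect_le univ_nonempty fun x _ => (abs_le.1 (hg x)).2⟩
  | succ r ih =>
    refine expect_le univ_nonempty fun h _ => expect_le univ_nonempty fun h' _ => ih _ fun x => ?_
    rw [abs_mul]
    exact mul_le_one₀ (hg _) (abs_nonneg _) (hg _)

theorem TT_equiv {G G' : Type} [AddCommGroup G] [Fintype G] [AddCommGroup G'] [Fintype G']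
    (e : G ≃+ G') (r : ℕ) (g : G' → ℝ) : TT r (fun x => g (e x)) = TT r g := by
  induction r generalizing g with
  | zero =>
    show |𝔼 x, g (e x)| = |𝔼 x, g x|
    rw [Fintype.expect_equiv e.toEquiv (fun x => g (e x)) g fun _ => rfl]
  | succ r ih =>
    show (𝔼 h, 𝔼 h', TT r fun x => g (e (x + h)) * g (e (x + h'))) =
      𝔼 h, 𝔼 h', TT r fun x => g (x + h) * g (x + h')
    refine Fintype.expect_equiv e.toEquiv _ _ fun h => Fintype.expect_equiv e.toEquiv _ _ fun h' => ?_
    rw [← ih fun x => g (x + e.toEquiv h) * g (x + e.toEquiv h')]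
    simp only [map_add]
    rfl

theorem expect_pair_FLCube0 {G G' : Type} [Fintype G] [Fintype G'] (u : G → ℝ) (v : G' → ℝ) :
    (𝔼 x : G × G', u x.1 * v x.2) = (𝔼 x, u x) * 𝔼 y, v y := by
  rw [expect_mul_expect, ← univ_product_univ, expect_product]

theorem TT_prod {G G' : Type} [AddCommGroup G] [Fintype G] [AddCommGroup G'] [Fintype G']
    (r : ℕ) (g : G → ℝ) (g' : G' → ℝ) :
    TT r (fun x : G × G' => g x.1 * g' x.2) = TT r g * TT r g' := by
  induction r generalizing g g' with
  | zero =>
    show |𝔼 x : G × G', g x.1 * g' x.2| = |𝔼 x, g x| * |𝔼 x, g' x|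
    rw [expect_pair_FLCube0, abs_mul]
  | succ r ih =>
    show (𝔼 h : G × G', 𝔼 h' : G × G', TT r fun x : G × G' =>
        g (x + h).1 * g' (x + h).2 * (g (x + h').1 * g' (x + h').2)) =
      (𝔼 h, 𝔼 h', TT r fun x => g (x + h) * g (x + h')) *
        𝔼 h, 𝔼 h', TT r fun x => g' (x + h) * g' (x + h')
    rw [← expect_pair_FLCube0]
    refine expect_congr rfl fun h _ => ?_
    rw [← expect_pair_FLCube0]
    refine expect_congr rfl fun h' _ => ?_
    rw [← ih]
    congr 1
    funext x
    simp only [Prod.fst_add, Prod.snd_add]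
    ring

theorem chi_odd_FLCube0 (l : ℕ) [Fact l.Prime] (S : Multiset (ZMod l)) (x : ZMod l)
    (hx : -x ∉ S) :
    quadraticChar (ZMod l) (S.map fun z => x + z).prod =
      quadraticChar (ZMod l) (∏ z ∈ S.toFinset.filter fun z => Odd (S.count z), (x + z)) := by
  rw [Finset.prod_multiset_map_count, map_prod, map_prod, prod_filter]
  refine prod_congr rfl fun z hz => ?_
  have hne : x + z ≠ 0 := by
    intro h
    apply hx
    rw [neg_eq_of_add_eq_zero_right h]
    exact Multiset.mem_toFinset.1 hz
  have h2 := quadraticChar_sq_one hne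
  rw [map_pow]
  split_ifs with ho
  · obtain ⟨k, hk⟩ := ho
    rw [hk, pow_succ, pow_mul, h2, one_pow, one_mul]
  · obtain ⟨k, hk⟩ := Nat.not_odd_iff_even.1 ho
    rw [hk, ← two_mul, pow_mul, h2, one_pow]

theorem chi_abs_FLCube0 (l : ℕ) [Fact l.Prime] (y : ZMod l) :
    |(quadraticChar (ZMod l) y : ℝ)| ≤ 1 := by
  rcases quadraticChar_isQuadratic (ZMod l) y with h | h | h <;> rw [h] <;> simp

theorem ind_sum_FLCube0 (l : ℕ) [Fact l.Prime] (S : Multiset (ZMod l)) (c : ZMod l) :
    ∑ x : ZMod l, (if c - x ∈ S then (1 : ℝ) else 0) ≤ Multiset.card S := by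
  rw [sum_boole]
  have h : (univ.filter fun x : ZMod l => c - x ∈ S).card ≤ S.toFinset.card := by
    refine card_le_card_of_injOn (fun x => c - x) (fun x hx => ?_) fun x _ y _ h => ?_
    · simpa using hx
    · simpa using h
  exact_mod_cast h.trans (Multiset.toFinset_card_le S)

theorem prime_zero_FLCube0 (l : ℕ) [Fact l.Prime] (hl : l ≠ 2) (S : Multiset (ZMod l))
    (hS : ∃ a, Odd (S.count a)) :
    |∑ x : ZMod l, (quadraticChar (ZMod l) (S.map fun z => x + z).prod : ℝ)| ≤
      Multiset.card S * 102 * Real.sqrt l := by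
  obtain ⟨a, ha⟩ := hS
  set A := S.toFinset.filter fun z => Odd (S.count z) with hA
  have hne : A.Nonempty := ⟨a, mem_filter.2 ⟨Multiset.mem_toFinset.2
    (Multiset.count_pos.1 ha.pos), ha⟩⟩
  have h1 := stepanov l hl A hne
  have hc : (A.card : ℝ) ≤ Multiset.card S := by
    exact_mod_cast (card_filter_le _ _).trans (Multiset.toFinset_card_le S)
  have hs : 1 ≤ Real.sqrt l := by
    rw [Real.one_le_sqrt]
    exact_mod_cast (Fact.out : l.Prime).one_lt.le
  have h2 : |∑ x : ZMod l, ((quadraticChar (ZMod l) (S.map fun z => x + z).prod : ℝ) -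
      (quadraticChar (ZMod l) (∏ z ∈ A, (x + z)) : ℝ))| ≤ 2 * Multiset.card S := by
    refine (abs_sum_le_sum_abs _ _).trans ?_
    refine le_trans (sum_le_sum (g := fun x => 2 * if 0 - x ∈ S then (1 : ℝ) else 0)
      fun x _ => ?_) ?_
    · split_ifs with hx
      · have a1 := chi_abs_FLCube0 l (S.map fun z => x + z).prod
        have a2 := chi_abs_FLCube0 l (∏ z ∈ A, (x + z))
        have a3 := abs_sub (quadraticChar (ZMod l) (S.map fun z => x + z).prod : ℝ)
          (quadraticChar (ZMod l) (∏ z ∈ A, (x + z)) : ℝ)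
        linarith
      · rw [zero_sub] at hx
        rw [chi_odd_FLCube0 l S x hx]
        simp [hA]
    · rw [← mul_sum]
      have := ind_sum_FLCube0 l S 0
      linarith
  rw [sum_sub_distrib] at h2
  have h3 := abs_sub_abs_le_abs_sub
    (∑ x : ZMod l, (quadraticChar (ZMod l) (S.map fun z => x + z).prod : ℝ))
    (∑ x : ZMod l, (quadraticChar (ZMod l) (∏ z ∈ A, (x + z)) : ℝ))
  have h4 : (0 : ℝ) ≤ Multiset.card S := Nat.cast_nonneg _
  have h5 := mul_le_mul_of_nonneg_right hc (Real.sqrt_nonneg l)
  have h6 := mul_le_mul_of_nonneg_left hs h4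
  linarith

theorem TT_prime (l : ℕ) [Fact l.Prime] (hl : l ≠ 2) (r : ℕ) (S : Multiset (ZMod l))
    (hS : ∃ a, Odd (S.count a)) :
    TT r (fun x : ZMod l => (quadraticChar (ZMod l) (S.map fun z => x + z).prod : ℝ)) ≤
      Multiset.card S * 2 ^ r * (102 + r) / Real.sqrt l := by
  have hl0 : (0 : ℝ) < l := by exact_mod_cast (Fact.out : l.Prime).pos
  have hs : 1 ≤ Real.sqrt l := by
    rw [Real.one_le_sqrt]
    exact_mod_cast (Fact.out : l.Prime).one_lt.le
  have hs0 : 0 < Real.sqrt l := by linarith
  have hss : Real.sqrt l * Real.sqrt l = l := Real.mul_self_sqrt hl0.le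
  induction r generalizing S with
  | zero =>
    show |𝔼 x : ZMod l, (quadraticChar (ZMod l) (S.map fun z => x + z).prod : ℝ)| ≤ _
    have h := prime_zero_FLCube0 l hl S hS
    rw [Fintype.expect_eq_sum_div_card, ZMod.card, abs_div, abs_of_pos hl0, div_le_div_iff₀ hl0 hs0]
    have h' := mul_le_mul_of_nonneg_right h hs0.le
    rw [mul_assoc _ _ (Real.sqrt l), hss] at h'
    simpa using h'
  | succ r ih =>
    obtain ⟨a, ha⟩ := hS
    have h4 : (0 : ℝ) ≤ Multiset.card S := Nat.cast_nonneg _
    set B : ℝ := Multiset.card S * 2 ^ (r + 1) * (102 + r) / Real.sqrt l with hB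
    have hB0 : 0 ≤ B := by positivity
    have key : ∀ h h' : ZMod l, (TT r fun x : ZMod l =>
        (quadraticChar (ZMod l) (S.map fun z => x + h + z).prod : ℝ) *
          (quadraticChar (ZMod l) (S.map fun z => x + h' + z).prod : ℝ)) ≤
        B + if a + h - h' ∈ S then 1 else 0 := by
      intro h h'
      split_ifs with hm
      · refine (TT_le_one r _ fun x => ?_).trans (by linarith)
        rw [abs_mul]
        exact mul_le_one₀ (chi_abs_FLCube0 l _) (abs_nonneg _) (chi_abs_FLCube0 l _)
      · have hodd : Odd ((S.map (fun z => z + h) + S.map fun z => z + h').count (a + h)) := by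
          have e1 := Multiset.count_map_eq_count' (fun z : ZMod l => z + h) S
            (add_left_injective h) a
          have e2 := Multiset.count_map_eq_count' (fun z : ZMod l => z + h') S
            (add_left_injective h') (a + h - h')
          simp only [sub_add_cancel] at e1 e2
          rw [Multiset.count_add, e1, e2, Multiset.count_eq_zero.2 hm]
          exact ha
        have h1 := ih _ ⟨_, hodd⟩
        have e3 : (fun x : ZMod l => (quadraticChar (ZMod l)
            ((S.map (fun z => z + h) + S.map fun z => z + h').map fun z => x + z).prod : ℝ)) =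
            fun x : ZMod l => (quadraticChar (ZMod l) (S.map fun z => x + h + z).prod : ℝ) *
              (quadraticChar (ZMod l) (S.map fun z => x + h' + z).prod : ℝ) := by
          funext x
          have f1 : ((fun z => x + z) ∘ fun z => z + h) = fun z => x + h + z := by
            funext z; simp only [Function.comp]; ring
          have f2 : ((fun z => x + z) ∘ fun z => z + h') = fun z => x + h' + z := by
            funext z; simp only [Function.comp]; ring
          rw [Multiset.map_add, Multiset.prod_add, map_mul, Multiset.map_map, Multiset.map_map,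
            f1, f2]
          push_cast
          rfl
        rw [e3] at h1
        refine h1.trans (le_of_eq ?_)
        rw [hB, Multiset.card_add, Multiset.card_map, Multiset.card_map]
        push_cast
        ring
    show (𝔼 h : ZMod l, 𝔼 h' : ZMod l, TT r fun x : ZMod l =>
        (quadraticChar (ZMod l) (S.map fun z => x + h + z).prod : ℝ) *
          (quadraticChar (ZMod l) (S.map fun z => x + h' + z).prod : ℝ)) ≤ _
    refine expect_le univ_nonempty fun h _ => ?_
    refine (expect_le_expect fun h' _ => key h h').trans ?_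
    rw [expect_add_distrib, expect_const univ_nonempty, Fintype.expect_eq_sum_div_card, ZMod.card]
    have h5 := ind_sum_FLCube0 l S (a + h)
    have h6 : (1 : ℝ) ≤ 2 ^ (r + 1) := one_le_pow₀ (by norm_num)
    have h7 : (∑ x : ZMod l, if a + h - x ∈ S then (1 : ℝ) else 0) / l ≤
        Multiset.card S * 2 ^ (r + 1) / Real.sqrt l := by
      refine div_le_div₀ (by positivity) (h5.trans (le_mul_of_one_le_right h4 h6)) hs0 ?_
      nlinarith
    have h8 : (Multiset.card S : ℝ) * 2 ^ (r + 1) * (102 + ((r + 1 : ℕ) : ℝ)) / Real.sqrt l =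
        B + Multiset.card S * 2 ^ (r + 1) / Real.sqrt l := by
      rw [hB]
      push_cast
      ring
    rw [h8]
    linarith

end Pool.Agent.P.MP_b75a1e_co.EG
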