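import Pool.Agent.P.MP_b75a1e_co.EGArith
import Pool.Agent.P.MP_b75a1e_co.EGBasic

set_option autoImplicit false

open Finset
open scoped BigOperators ComplexConjugate

namespace Pool.Agent.P.MP_b75a1e_co.EG

/-- The box that contains a family of rotations. -/
def InBox (m y J : ℕ) (δ : O m) : Prop :=
  (y : ℤ) < 2 * δ.re ∧ δ.re ≤ 2 * y ∧ (m : ℤ) ∣ δ.im ∧ |δ.im| ≤ m * J

/-- A dense family of elements whose norms are products of two large primes. -/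
structure Fam (m y J : ℕ) (k : ℝ) (F : Finset (O m)) : Prop where
  box : ∀ δ ∈ F, InBox m y J δ
  nrm : ∀ δ ∈ F, ∃ l l' : ℕ, l.Prime ∧ l'.Prime ∧ l ≠ l' ∧ y < l ∧ y < l' ∧ l ≤ 2 * y ∧ l' ≤ 2 * y ∧
    δ.norm = l * l'
  big : (y : ℝ) * J ≤ k * F.card
  pos : 1 ≤ J
  thin : 10 * m ^ 2 * J ≤ y

/-- The small parameter `k` dominates `m` and the constant of the divisor bound. -/
structure Sml (m : ℕ) (k : ℝ) : Prop where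
  m1 : 1 ≤ m
  k1 : 10 ^ 10 ≤ k
  mk' : (m : ℝ) ≤ k
  tau : ∀ n : ℕ, 1 ≤ n → (n.divisors.card : ℝ) ≤ k * (n : ℝ) ^ (1 / 1000 : ℝ)

/-- The sizes of the parameters. -/
structure Par (m s y : ℕ) (k ν : ℝ) : Prop where
  sml : Sml m k
  s1 : 1 ≤ s
  sk : (s : ℝ) ≤ k
  kν : k ^ 100 ≤ ν
  y1 : ν ^ 45 ≤ y
  y2 : (y : ℝ) ≤ ν ^ 115

/-- The top of the tower. -/
structure Pile {m : ℕ} (e : O m) (s : ℕ) (ν : ℝ) (U : Finset (O m)) : Prop where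
  nrm : (e.norm : ℝ) = ν ^ 2000
  crd : ν ^ 1980 ≤ U.card
  sum : ∀ u ∈ U, SumRes e s u

/-- `φ` is the characteristic function of a random lattice point that is a sum of `n` field
elements with the norm of `e` and is congruent to `n e` modulo `mu m`. -/
def Adm {m : ℕ} (e : O m) (n : ℕ) (φ : ℂ → ℂ) : Prop :=
  ∃ (Ω : Type) (_ : Fintype Ω) (_ : Nonempty Ω) (X : Ω → O m),
    (∀ ω, Rep m e.norm n (ph m (X ω)) ∧ mu m ∣ X ω - (n : O m) * e) ∧ ∀ b, ch X b = φ b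

/-- The exponential sum of a set. -/
noncomputable def fU {m : ℕ} (U : Finset (O m)) (θ : ℂ) : ℂ := ∑ u ∈ U, ee (pr m θ (ph m u))

/-- The rotation attached to `δ`. -/
noncomputable def rot {m : ℕ} (δ : O m) : ℂ := ph m δ / conj (ph m δ)

/-- The rotation attached to `δ`, reduced modulo `D`. -/
def tb {m : ℕ} (D : ℕ) (δ : O m) : O m := δ ^ 2 * ((((δ.norm : ZMod D)⁻¹).val : ℕ) : O m)

/-- The numerator of a rotated pile. -/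
def Yb {m : ℕ} (e : O m) (s : ℕ) (δ u u' : O m) : O m :=
  δ * (u + u') + ((4 * s : ℕ) : O m) * e * star δ

/-- The conditions on an outer and an inner rotation. -/
structure Good (m Δ : ℕ) (α δ : O m) : Prop where
  sq : Squarefree (α * δ).norm.natAbs
  cop : Nat.Coprime (α * δ).norm.natAbs (2 * m)
  le : (α * δ).norm.natAbs ≤ Δ
  ima : (m : ℤ) ∣ α.im
  imd : (m : ℤ) ∣ δ.im

/-- One term of the expansion of a block. -/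
noncomputable def trm {m : ℕ} (α δ e : O m) (s : ℕ) (U : Finset (O m)) (b : ℂ) (c : ℕ) : ℂ :=
  ∑ u ∈ U, ∑ u' ∈ U,
    ee (pr m ((b * ph m α + c) / conj (ph m (α * δ))) (ph m (Yb e s δ u u')))

/-- The point at which that term samples the exponential sum. -/
noncomputable def pt {m : ℕ} (α δ : O m) (b : ℂ) (c : ℕ) : ℂ :=
  (b * ph m α + c) / conj (ph m (α * δ)) * ph m δ

/-- The expansion of a block. -/
noncomputable def Tb {m : ℕ} {ι : Type} (I : Finset ι) (α δ : ι → O m) (e : O m) (s : ℕ)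
    (U : Finset (O m)) (b : ℂ) : ℂ :=
  ∑ i ∈ I, ∑ c ∈ range (α i * δ i).norm.natAbs, trm (α i) (δ i) e s U b c

/-- The bilinear model sum over two rotations. -/
noncomputable def Sm {m : ℕ} (F : Finset (O m)) (D : ℕ) (γ : O m) (ζ : ℂ) : ℂ :=
  𝔼 δ1 ∈ F, 𝔼 δ2 ∈ F,
    ee (((γ * (tb D δ1 * tb D δ2)).im : ℝ) / D + pr m ζ (rot δ1 * rot δ2))

/-- Near fractions with small denominator, `φ` is controlled by the model sums. -/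
def MB {m : ℕ} (F U : Finset (O m)) (e : O m) (s : ℕ) (ν : ℝ) (φ : ℂ → ℂ) : Prop :=
  ∀ (γ : O m) (D : ℕ) (η : ℂ), 1 ≤ D → (D : ℝ) ≤ ν ^ 23 → ‖η‖ * ν ^ 1000 ≤ ν ^ 23 →
    ‖φ (ph m γ / D + η)‖ ≤ 4 * (𝔼 δ ∈ F, 𝔼 u ∈ U, 𝔼 u' ∈ U,
      ‖Sm F D (γ * (tb D δ * (u + u') + ((4 * s : ℕ) : O m) * e))
        (η * (rot δ * ph m (u + u') + ((4 * s : ℕ) : ℂ) * ph m e))‖) + 1 / ν ^ 10

/-- The bounds for the block with one rotation. -/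
def HB (m y : ℕ) (ν : ℝ) (φ : ℂ → ℂ) : Prop :=
  (∀ b, ¬ Low m b (64 * m * (y : ℝ) ^ 4) (ν ^ 2000) → ‖φ b‖ ≤ 1 / ν) ∧
    ∀ (γ : O m) (D : ℕ) (η : ℂ), 1 ≤ D → (D : ℝ) ≤ ν ^ 462 → ‖η‖ * ν ^ 1000 ≤ ν ^ 232 →
      ((ν ^ 22 ≤ D ∧ ∀ f : ℕ, f ∣ D → (f : O m) ∣ γ → (f : ℝ) ^ 5 ≤ ν) ∨
        ν ^ 43 ≤ (‖η‖ * ν ^ 1000) ^ 2) → ‖φ (ph m γ / D + η)‖ ≤ 1 / ν

/-- The bound for the block with a narrow family. -/
def NB {m : ℕ} (e : O m) (k ν : ℝ) (φ : ℂ → ℂ) : Prop :=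
  ∀ (g β : O m) (d : ℕ) (η : ℂ), k ^ 8000 ≤ d → (d : ℝ) ≤ ν ^ 22 →
    (∀ f : ℕ, f ∣ d → (f : O m) ∣ β * (g * e) → f ^ 2 ≤ d) → ‖η‖ * ν ^ 1000 ≤ 2 * ν ^ 22 →
      ‖φ (ph m (-(β * g * mu m)) / (d * m ^ 3 : ℕ) + η)‖ ≤ (d : ℝ) ^ (-1 / 600 : ℝ)

/-- The bound for the block with a wide family. -/
def WB (m : ℕ) (k ν : ℝ) (φ : ℂ → ℂ) : Prop :=
  ∀ (γ : O m) (D : ℕ) (η : ℂ), 1 ≤ D → (D : ℝ) ≤ ν ^ 22 * k ^ 3 → k ^ 1000 ≤ ‖η‖ * ν ^ 1000 →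
    ‖η‖ * ν ^ 1000 ≤ 2 * ν ^ 22 → ‖φ (ph m γ / D + η)‖ ≤ 5 * (‖η‖ * ν ^ 1000) ^ (-1 / 25 : ℝ)

/-- The average over cubes of shifts. -/
noncomputable def TT {G : Type} [AddCommGroup G] [Fintype G] : ℕ → (G → ℝ) → ℝ
  | 0, g => |𝔼 x, g x|
  | r + 1, g => 𝔼 h, 𝔼 h', TT r fun x => g (x + h) * g (x + h')

end Pool.Agent.P.MP_b75a1e_co.EG
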