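import Pool.Agent.P.MP_b75a1e_co.FLDefs

set_option autoImplicit false

open Finset
open scoped BigOperators ComplexConjugate

namespace Pool.Agent.P.MP_b75a1e_co.EG

theorem bomb_FLSieve {κ σ τ : Type} (S : Finset κ) (T : Finset σ) (W : Finset τ) (ι : σ → τ)
    (hT : ∀ s ∈ T, ι s ∈ W) (hι : Set.InjOn ι T) (φ : κ → τ → ℂ) (B : ℝ) (hB0 : 0 ≤ B)
    (hB : ∀ j ∈ S, ∑ j' ∈ S, ‖∑ t ∈ W, φ j' t * conj (φ j t)‖ ≤ B) :
    ∑ j ∈ S, ‖∑ s ∈ T, φ j (ι s)‖ ^ 2 ≤ T.card * B := by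
  classical
  obtain ⟨F, hF⟩ : ∃ F : κ → ℂ, ∀ j, F j = ∑ s ∈ T, φ j (ι s) := ⟨_, fun _ => rfl⟩
  obtain ⟨g, hg⟩ : ∃ g : τ → ℂ, ∀ t, g t = ∑ j ∈ S, conj (F j) * φ j t := ⟨_, fun _ => rfl⟩
  obtain ⟨K, hK⟩ : ∃ K : κ → κ → ℂ, ∀ j j', K j j' = ∑ t ∈ W, φ j' t * conj (φ j t) :=
    ⟨_, fun _ _ => rfl⟩
  simp only [← hF]
  simp only [← hK] at hB
  set S0 : ℝ := ∑ j ∈ S, ‖F j‖ ^ 2 with hS0
  have hS : 0 ≤ S0 := sum_nonneg fun _ _ => by positivity
  have h1 : (S0 : ℂ) = ∑ s ∈ T, g (ι s) := by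
    simp only [hg]
    rw [sum_comm, hS0]
    push_cast
    refine sum_congr rfl fun j _ => ?_
    rw [← mul_sum, ← hF, Complex.conj_mul']
  have h2 : S0 ≤ ∑ s ∈ T, ‖g (ι s)‖ := by
    have := norm_sum_le T fun s => g (ι s)
    rwa [← h1, Complex.norm_real, Real.norm_of_nonneg hS] at this
  have h3 : ∑ s ∈ T, ‖g (ι s)‖ ^ 2 ≤ ∑ t ∈ W, ‖g t‖ ^ 2 := by
    rw [← sum_image (f := fun t => ‖g t‖ ^ 2) hι]
    refine sum_le_sum_of_subset_of_nonneg ?_ fun _ _ _ => by positivity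
    intro t ht
    obtain ⟨s, hs, rfl⟩ := mem_image.1 ht
    exact hT s hs
  have hsym : ∀ j j', ‖K j j'‖ = ‖K j' j‖ := by
    intro j j'
    rw [← Complex.norm_conj, hK, hK, map_sum]
    congr 1
    refine sum_congr rfl fun t _ => ?_
    rw [map_mul, Complex.conj_conj, mul_comm]
  have h4 : ((∑ t ∈ W, ‖g t‖ ^ 2 : ℝ) : ℂ) =
      ∑ j ∈ S, ∑ j' ∈ S, F j * conj (F j') * K j j' := by
    push_cast
    have : ∀ t, ((‖g t‖ : ℝ) : ℂ) ^ 2 =
        ∑ j ∈ S, ∑ j' ∈ S, F j * conj (F j') * (φ j' t * conj (φ j t)) := by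
      intro t
      rw [← Complex.conj_mul', hg, map_sum, sum_mul_sum]
      refine sum_congr rfl fun j _ => sum_congr rfl fun j' _ => ?_
      rw [map_mul, Complex.conj_conj]
      ring
    simp only [this]
    rw [sum_comm]
    refine sum_congr rfl fun j _ => ?_
    rw [sum_comm]
    refine sum_congr rfl fun j' _ => ?_
    rw [hK, mul_sum]
  have h5 : ∑ t ∈ W, ‖g t‖ ^ 2 ≤ B * S0 := by
    have hn : 0 ≤ ∑ t ∈ W, ‖g t‖ ^ 2 := sum_nonneg fun _ _ => by positivity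
    have e1 : ∑ t ∈ W, ‖g t‖ ^ 2 = ‖∑ j ∈ S, ∑ j' ∈ S, F j * conj (F j') * K j j'‖ := by
      rw [← h4, Complex.norm_real, Real.norm_of_nonneg hn]
    have e2 : ‖∑ j ∈ S, ∑ j' ∈ S, F j * conj (F j') * K j j'‖ ≤
        ∑ j ∈ S, ∑ j' ∈ S, (‖F j‖ ^ 2 * ‖K j j'‖ / 2 + ‖F j'‖ ^ 2 * ‖K j' j‖ / 2) := by
      refine (norm_sum_le _ _).trans (sum_le_sum fun j _ => ?_)
      refine (norm_sum_le _ _).trans (sum_le_sum fun j' _ => ?_)
      rw [norm_mul, norm_mul, Complex.norm_conj, ← hsym j j']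
      have := mul_nonneg (sq_nonneg (‖F j‖ - ‖F j'‖)) (norm_nonneg (K j j'))
      nlinarith
    have e3 : ∑ j ∈ S, ∑ j' ∈ S, ‖F j‖ ^ 2 * ‖K j j'‖ / 2 ≤ B * S0 / 2 := by
      rw [hS0, mul_sum, sum_div]
      refine sum_le_sum fun j hj => ?_
      rw [← sum_div, ← mul_sum]
      have := mul_le_mul_of_nonneg_left (hB j hj) (sq_nonneg ‖F j‖)
      linarith
    have e4 : ∑ j ∈ S, ∑ j' ∈ S, ‖F j'‖ ^ 2 * ‖K j' j‖ / 2 ≤ B * S0 / 2 := by
      rw [sum_comm]; exact e3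
    simp only [sum_add_distrib] at e2
    linarith
  have h6 : S0 ^ 2 ≤ T.card * (B * S0) := by
    calc S0 ^ 2 ≤ (∑ s ∈ T, ‖g (ι s)‖) ^ 2 := by gcongr
      _ ≤ T.card * ∑ s ∈ T, ‖g (ι s)‖ ^ 2 := sq_sum_le_card_mul_sum_sq
      _ ≤ T.card * (B * S0) := by gcongr; exact h3.trans h5
  rcases hS.eq_or_lt with h0 | h0
  · rw [← h0]; positivity
  · have : S0 * S0 ≤ (T.card * B) * S0 := by nlinarith
    exact le_of_mul_le_mul_right this h0

/-- The Dirichlet kernel. -/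
noncomputable def dk_FLSieve (N : ℕ) (x : ℝ) : ℂ := ∑ v ∈ range N, ee (x * v)

/-- The cell of a real number modulo one. -/
noncomputable def cl_FLSieve (N : ℕ) (x : ℝ) : ℤ := ⌊(N : ℝ) * (x - round x)⌋

theorem dk_neg_FLSieve (N : ℕ) (x : ℝ) : ‖dk_FLSieve N (-x)‖ = ‖dk_FLSieve N x‖ := by
  rw [← Complex.norm_conj (dk_FLSieve N x), dk_FLSieve, dk_FLSieve, map_sum]
  congr 1
  refine sum_congr rfl fun v _ => ?_
  rw [← ee_neg, neg_mul]

theorem cl_mem_FLSieve (N : ℕ) (x : ℝ) : cl_FLSieve N x ∈ Icc (-(N : ℤ)) N := by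
  have h := abs_le.1 (abs_sub_round x)
  have hN : (0 : ℝ) ≤ N := Nat.cast_nonneg N
  rw [mem_Icc, cl_FLSieve]
  constructor
  · rw [Int.le_floor]; push_cast; nlinarith [h.1]
  · have : ((⌊(N : ℝ) * (x - round x)⌋ : ℤ) : ℝ) ≤ ((N : ℤ) : ℝ) := by
      refine (Int.floor_le _).trans ?_
      push_cast; nlinarith [h.2]
    exact_mod_cast this

theorem dk_le_FLSieve (N : ℕ) (x : ℝ) :
    ‖dk_FLSieve N x‖ ^ 2 ≤ (5 / 2 * N) ^ 2 * (1 / (|(cl_FLSieve N x : ℝ)| + 1) ^ 2) := by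
  have hN : (0 : ℝ) ≤ N := Nat.cast_nonneg N
  have h1 : ‖dk_FLSieve N x‖ ≤ N := by
    refine (norm_sum_le _ _).trans ?_
    simp [norm_ee]
  have h2 : ‖dk_FLSieve N x‖ * |x - round x| ≤ 1 / 2 := by
    rcases (abs_nonneg (x - round x)).eq_or_lt with h0 | h0
    · rw [← h0]; norm_num
    · have := geom_ee 0 x _ h0 (fun z => round_le x z) N
      simp only [zero_add] at this
      rw [le_div_iff₀ (by positivity)] at this
      rw [dk_FLSieve]
      linarith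
  have h3 : |(cl_FLSieve N x : ℝ)| ≤ N * |x - round x| + 1 := by
    have a1 := Int.floor_le ((N : ℝ) * (x - round x))
    have a2 := Int.lt_floor_add_one ((N : ℝ) * (x - round x))
    have a3 := le_abs_self ((N : ℝ) * (x - round x))
    have a4 := neg_abs_le ((N : ℝ) * (x - round x))
    rw [abs_mul, abs_of_nonneg hN] at a3 a4
    rw [cl_FLSieve, abs_le]
    constructor <;> linarith
  have h4 : ‖dk_FLSieve N x‖ * (|(cl_FLSieve N x : ℝ)| + 1) ≤ 5 / 2 * N := by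
    have hn := norm_nonneg (dk_FLSieve N x)
    have b1 := mul_le_mul_of_nonneg_left h3 hn
    have b2 := mul_le_mul_of_nonneg_left h2 hN
    nlinarith
  rw [mul_one_div, le_div_iff₀ (by positivity), ← mul_pow]
  gcongr

theorem sig_FLSieve (n : ℕ) :
    ∑ c ∈ Icc (-(n : ℤ)) n, 1 / (|(c : ℝ)| + 1) ^ 2 ≤ 3 - 2 / ((n : ℝ) + 1) := by
  induction n with
  | zero => norm_num
  | succ n ih =>
    have e : Icc (-((n + 1 : ℕ) : ℤ)) ((n + 1 : ℕ) : ℤ) =
        insert ((n : ℤ) + 1) (insert (-((n : ℤ) + 1)) (Icc (-(n : ℤ)) n)) := by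
      ext c
      simp only [mem_Icc, mem_insert]
      omega
    rw [e, sum_insert (by simp only [mem_Icc, mem_insert]; omega),
      sum_insert (by simp only [mem_Icc]; omega)]
    have hn : (0 : ℝ) ≤ n := Nat.cast_nonneg n
    have a1 : |((((n : ℤ) + 1 : ℤ)) : ℝ)| = n + 1 := by
      push_cast; exact abs_of_nonneg (by positivity)
    have a2 : |(((-((n : ℤ) + 1) : ℤ)) : ℝ)| = n + 1 := by
      push_cast; rw [abs_neg]; exact abs_of_nonneg (by positivity)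
    rw [a1, a2]
    have a3 : 1 / ((n : ℝ) + 1 + 1) ^ 2 ≤ 1 / ((n : ℝ) + 1) - 1 / ((n : ℝ) + 1 + 1) := by
      rw [div_sub_div _ _ (by positivity) (by positivity), div_le_div_iff₀ (by positivity)
        (by positivity)]
      nlinarith
    have a4 : 2 / ((n : ℝ) + 1) = 2 * (1 / ((n : ℝ) + 1)) := by ring
    have a5 : 2 / (((n + 1 : ℕ) : ℝ) + 1) = 2 * (1 / ((n : ℝ) + 1 + 1)) := by push_cast; ring
    linarith

theorem cl_near_FLSieve (N : ℕ) (hN : 1 ≤ N) {x x' : ℝ} (h : cl_FLSieve N x = cl_FLSieve N x') :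
    |x - x' - ((round x - round x' : ℤ) : ℝ)| ≤ 1 / N := by
  have hN' : (0 : ℝ) < N := by exact_mod_cast hN
  have h1 := Int.abs_sub_lt_one_of_floor_eq_floor h
  rw [le_div_iff₀ hN']
  have : (N : ℝ) * (x - round x) - N * (x' - round x') =
      (x - x' - ((round x - round x' : ℤ) : ℝ)) * N := by push_cast; ring
  rw [this, abs_mul, abs_of_pos hN'] at h1
  exact h1.le

theorem row_FLSieve {κ : Type} (S : Finset κ) (x y : κ → ℝ) (N : ℕ) (μ : ℝ) (hμ : 0 ≤ μ)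
    (h : ∀ j0 ∈ S, ((S.filter fun j => (cl_FLSieve N (x j), cl_FLSieve N (y j)) =
      (cl_FLSieve N (x j0), cl_FLSieve N (y j0))).card : ℝ) ≤ μ) :
    ∑ j ∈ S, ‖dk_FLSieve N (x j)‖ ^ 2 * ‖dk_FLSieve N (y j)‖ ^ 2 ≤ μ * ((5 / 2 * N) ^ 2 * 3) ^ 2 := by
  obtain ⟨w, hw⟩ : ∃ w : ℤ → ℝ, ∀ c, w c = (5 / 2 * N) ^ 2 * (1 / (|(c : ℝ)| + 1) ^ 2) :=
    ⟨_, fun _ => rfl⟩
  have hw0 : ∀ c, 0 ≤ w c := fun c => by rw [hw]; positivity
  have hs : ∑ c ∈ Icc (-(N : ℤ)) N, w c ≤ (5 / 2 * N) ^ 2 * 3 := by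
    simp only [hw]
    rw [← mul_sum]
    have h1 := sig_FLSieve N
    have h2 : (0 : ℝ) ≤ 2 / ((N : ℝ) + 1) := by positivity
    gcongr
    linarith
  have hs0 : 0 ≤ ∑ c ∈ Icc (-(N : ℤ)) N, w c := sum_nonneg fun c _ => hw0 c
  calc ∑ j ∈ S, ‖dk_FLSieve N (x j)‖ ^ 2 * ‖dk_FLSieve N (y j)‖ ^ 2
      ≤ ∑ j ∈ S, (fun b : ℤ × ℤ => w b.1 * w b.2) (cl_FLSieve N (x j), cl_FLSieve N (y j)) := by
        refine sum_le_sum fun j _ => ?_
        have a1 := dk_le_FLSieve N (x j)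
        have a2 := dk_le_FLSieve N (y j)
        rw [← hw] at a1 a2
        exact mul_le_mul a1 a2 (by positivity) (hw0 _)
    _ = _ := sum_comp (fun b : ℤ × ℤ => w b.1 * w b.2)
        (fun j => (cl_FLSieve N (x j), cl_FLSieve N (y j)))
    _ ≤ ∑ b ∈ S.image (fun j => (cl_FLSieve N (x j), cl_FLSieve N (y j))),
          μ * (w b.1 * w b.2) := by
        refine sum_le_sum fun b hb => ?_
        obtain ⟨j0, hj0, rfl⟩ := mem_image.1 hb
        rw [nsmul_eq_mul]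
        exact mul_le_mul_of_nonneg_right (h j0 hj0) (mul_nonneg (hw0 _) (hw0 _))
    _ ≤ ∑ b ∈ Icc (-(N : ℤ)) N ×ˢ Icc (-(N : ℤ)) N, μ * (w b.1 * w b.2) := by
        refine sum_le_sum_of_subset_of_nonneg ?_ fun b _ _ =>
          mul_nonneg hμ (mul_nonneg (hw0 _) (hw0 _))
        intro b hb
        obtain ⟨j0, _, rfl⟩ := mem_image.1 hb
        exact mem_product.2 ⟨cl_mem_FLSieve _ _, cl_mem_FLSieve _ _⟩
    _ = μ * (∑ c ∈ Icc (-(N : ℤ)) N, w c) ^ 2 := by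
        rw [← mul_sum, sq, sum_mul_sum, sum_product]
    _ ≤ _ := by gcongr

theorem ker_FLSieve (N : ℕ) (x y x' y' : ℝ) :
    ‖∑ t ∈ (range N ×ˢ range N) ×ˢ (range N ×ˢ range N),
      ee (x * ((t.1.1 : ℝ) - t.1.2) + y * ((t.2.1 : ℝ) - t.2.2)) *
        conj (ee (x' * ((t.1.1 : ℝ) - t.1.2) + y' * ((t.2.1 : ℝ) - t.2.2)))‖ =
      ‖dk_FLSieve N (x - x')‖ ^ 2 * ‖dk_FLSieve N (y - y')‖ ^ 2 := by
  have e : ∑ t ∈ (range N ×ˢ range N) ×ˢ (range N ×ˢ range N),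
      ee (x * ((t.1.1 : ℝ) - t.1.2) + y * ((t.2.1 : ℝ) - t.2.2)) *
        conj (ee (x' * ((t.1.1 : ℝ) - t.1.2) + y' * ((t.2.1 : ℝ) - t.2.2))) =
      (dk_FLSieve N (x - x') * dk_FLSieve N (-(x - x'))) *
        (dk_FLSieve N (y - y') * dk_FLSieve N (-(y - y'))) := by
    simp only [dk_FLSieve]
    rw [sum_mul_sum, sum_mul_sum, ← sum_product', ← sum_product', sum_mul_sum, ← sum_product']
    refine sum_congr rfl fun t _ => ?_
    rw [← ee_neg, ← ee_add, ← ee_add, ← ee_add, ← ee_add]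
    congr 1
    ring
  rw [e, norm_mul, norm_mul, norm_mul, dk_neg_FLSieve, dk_neg_FLSieve]
  ring

open Classical in
/-- The large sieve in the plane, with multiplicity. -/
theorem ls {κ : Type} (m : ℕ) (hm : 1 ≤ m) (S : Finset κ) (P : κ → ℂ) (U : Finset (O m)) (L μ : ℝ)
    (hL : 1 ≤ L) (hμ : 0 ≤ μ) (hU : ∀ u ∈ U, ‖ph m u‖ ≤ L)
    (h : ∀ j0 ∈ S, ((S.filter fun j =>
      ∃ a : O m, ‖P j - P j0 - ph m a‖ ≤ 2 * Real.sqrt m / L).card : ℝ) ≤ μ) :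
    ∑ j ∈ S, ‖fU U (P j)‖ ^ 2 ≤ 10 ^ 4 * μ * L ^ 2 * U.card := by
  obtain ⟨M, hM⟩ : ∃ M : ℕ, M = ⌊L⌋₊ := ⟨_, rfl⟩
  have hM1 : 1 ≤ M := by rw [hM]; exact Nat.le_floor (by exact_mod_cast hL)
  have hM1' : (1 : ℝ) ≤ M := by exact_mod_cast hM1
  have hML : (M : ℝ) ≤ L := by rw [hM]; exact Nat.floor_le (by linarith)
  have hLM : L < M + 1 := by rw [hM]; exact Nat.lt_floor_add_one L
  have hsq : (1 : ℝ) ≤ Real.sqrt m := Real.one_le_sqrt.2 (by exact_mod_cast hm)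
  have hre : ∀ u ∈ U, |u.re| ≤ M := by
    intro u hu
    have : ((|u.re| : ℤ) : ℝ) < (((M : ℤ) + 1 : ℤ) : ℝ) := by
      push_cast
      exact ((abs_re_le u).trans (hU u hu)).trans_lt hLM
    have : |u.re| < (M : ℤ) + 1 := by exact_mod_cast this
    omega
  have him : ∀ u ∈ U, |u.im| ≤ M := by
    intro u hu
    have : ((|u.im| : ℤ) : ℝ) < (((M : ℤ) + 1 : ℤ) : ℝ) := by
      push_cast
      exact ((abs_im_le hm u).trans (hU u hu)).trans_lt hLM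
    have : |u.im| < (M : ℤ) + 1 := by exact_mod_cast this
    omega
  have key := bomb_FLSieve S (U ×ˢ (range M ×ˢ range M))
    ((range (2 * M) ×ˢ range (2 * M)) ×ˢ (range (2 * M) ×ˢ range (2 * M)))
    (fun s => ((s.2.1 + s.1.im.toNat, s.2.1 + (-s.1.im).toNat),
      (s.2.2 + s.1.re.toNat, s.2.2 + (-s.1.re).toNat)))
    (by
      rintro ⟨u, a, b⟩ hs
      simp only [mem_product, mem_range] at hs ⊢
      have h1 := abs_le.1 (hre u hs.1)
      have h2 := abs_le.1 (him u hs.1)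
      omega)
    (by
      rintro ⟨u, a, b⟩ _ ⟨u', a', b'⟩ _ hs
      simp only [Prod.mk.injEq] at hs ⊢
      refine ⟨?_, by omega, by omega⟩
      ext <;> omega)
    (fun j t => ee ((P j).re * ((t.1.1 : ℝ) - t.1.2) +
      (P j).im / Real.sqrt m * ((t.2.1 : ℝ) - t.2.2)))
    (μ * ((5 / 2 * ((2 * M : ℕ) : ℝ)) ^ 2 * 3) ^ 2) (by positivity)
    (by
      intro j0 _
      simp only [ker_FLSieve]
      refine row_FLSieve S (fun j => (P j).re - (P j0).re)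
        (fun j => (P j).im / Real.sqrt m - (P j0).im / Real.sqrt m) (2 * M) μ hμ ?_
      intro j1 hj1
      refine le_trans ?_ (h j1 hj1)
      refine Nat.cast_le.2 (card_le_card ?_)
      intro j hj
      rw [mem_filter] at hj ⊢
      refine ⟨hj.1, ?_⟩
      obtain ⟨e1, e2⟩ := Prod.mk.inj hj.2
      have n1 := cl_near_FLSieve (2 * M) (by omega) e1
      have n2 := cl_near_FLSieve (2 * M) (by omega) e2
      generalize round ((P j).re - (P j0).re) - round ((P j1).re - (P j0).re) = r1 at n1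
      generalize round ((P j).im / Real.sqrt m - (P j0).im / Real.sqrt m) -
        round ((P j1).im / Real.sqrt m - (P j0).im / Real.sqrt m) = r2 at n2
      refine ⟨⟨r1, r2⟩, (Complex.norm_le_abs_re_add_abs_im _).trans ?_⟩
      have f1 : (P j - P j1 - ph m ⟨r1, r2⟩).re =
          (P j).re - (P j0).re - ((P j1).re - (P j0).re) - r1 := by
        rw [Complex.sub_re, Complex.sub_re, ph_re]; ring
      have f2 : (P j - P j1 - ph m ⟨r1, r2⟩).im = ((P j).im / Real.sqrt m - (P j0).im / Real.sqrt m -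
          ((P j1).im / Real.sqrt m - (P j0).im / Real.sqrt m) - r2) * Real.sqrt m := by
        rw [Complex.sub_im, Complex.sub_im, ph_im]; field_simp; ring
      rw [f1, f2, abs_mul, abs_of_nonneg (Real.sqrt_nonneg _)]
      have g1 : (1 : ℝ) / ((2 * M : ℕ) : ℝ) ≤ 1 / L := by
        apply one_div_le_one_div_of_le (by linarith)
        push_cast; linarith
      have g2 := mul_le_mul_of_nonneg_right (n2.trans g1) (Real.sqrt_nonneg (m : ℝ))
      have g3 : 1 / L ≤ 1 / L * Real.sqrt m := le_mul_of_one_le_right (by positivity) hsq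
      have g4 : 2 * Real.sqrt m / L = 2 * (1 / L * Real.sqrt m) := by ring
      linarith)
  have e : ∀ j, ∑ s ∈ U ×ˢ (range M ×ˢ range M),
      ee ((P j).re * (((s.2.1 + s.1.im.toNat : ℕ) : ℝ) - ((s.2.1 + (-s.1.im).toNat : ℕ) : ℝ)) +
        (P j).im / Real.sqrt m *
          (((s.2.2 + s.1.re.toNat : ℕ) : ℝ) - ((s.2.2 + (-s.1.re).toNat : ℕ) : ℝ))) =
      (M : ℂ) ^ 2 * fU U (P j) := by
    intro j
    have t : ∀ (a : ℕ) (z : ℤ), ((a + z.toNat : ℕ) : ℝ) - ((a + (-z).toNat : ℕ) : ℝ) = z := by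
      intro a z
      have : ((a + z.toNat : ℕ) : ℤ) - ((a + (-z).toNat : ℕ) : ℤ) = z := by omega
      exact_mod_cast this
    simp only [t]
    rw [sum_product, fU, mul_sum]
    refine sum_congr rfl fun u _ => ?_
    simp only [sum_const, card_product, card_range, nsmul_eq_mul]
    rw [pr_coord hm]
    push_cast
    ring
  simp only [e, norm_mul, norm_pow, Complex.norm_natCast, mul_pow, card_product, card_range] at key
  rw [← mul_sum] at key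
  push_cast at key
  have hc : (0 : ℝ) ≤ U.card := Nat.cast_nonneg _
  have k2 : ∑ j ∈ S, ‖fU U (P j)‖ ^ 2 ≤ 5625 * μ * (M : ℝ) ^ 2 * U.card := by
    apply le_of_mul_le_mul_left _ (by positivity : (0 : ℝ) < ((M : ℝ) ^ 2) ^ 2)
    refine key.trans (le_of_eq ?_)
    ring
  refine k2.trans ?_
  gcongr
  norm_num

end Pool.Agent.P.MP_b75a1e_co.EG
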