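import Pool.Agent.P.MP_b75a1e_co.FLBase
import Pool.Agent.P.MP_b75a1e_co.FLSieve

set_option autoImplicit false

open Finset
open scoped BigOperators ComplexConjugate

namespace Pool.Agent.P.MP_b75a1e_co.EG

theorem norm_trm {m : ℕ} (α δ e : O m) (s : ℕ) (U : Finset (O m)) (b : ℂ) (c : ℕ) :
    ‖trm α δ e s U b c‖ = ‖fU U (pt α δ b c)‖ ^ 2 := by
  have h1 : trm α δ e s U b c = fU U (pt α δ b c) * fU U (pt α δ b c) *
      ee (pr m ((b * ph m α + c) / conj (ph m (α * δ)))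
        (ph m (((4 * s : ℕ) : O m) * e * star δ))) := by
    rw [trm, fU, sum_mul_sum, sum_mul]
    refine sum_congr rfl fun u _ => ?_
    rw [sum_mul]
    refine sum_congr rfl fun u' _ => ?_
    rw [← ee_add, ← ee_add, Yb, map_add, pr_add_right, map_mul (ph m) δ (u + u'), pr_mul, map_add,
      pr_add_right, pt]
  rw [h1, norm_mul, norm_mul, norm_ee, mul_one, sq]

/-- Two residues whose points are close modulo the lattice coincide. -/
lemma uniq_FLErr {m : ℕ} (hm : 1 ≤ m) {Δ : ℕ} {α δ : O m} (hG : Good m Δ α δ) {L : ℝ} (hL : 1 ≤ L)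
    (hΔ : 4 * Real.sqrt m * Δ < L) (b : ℂ) {c c' : ℕ} (hc : c < (α * δ).norm.natAbs)
    (hc' : c' < (α * δ).norm.natAbs) (a : O m)
    (h : ‖pt α δ b c - pt α δ b c' - ph m a‖ ≤ 4 * Real.sqrt m / L) : c = c' := by
  have hn0 : (α * δ).norm.natAbs ≠ 0 := by omega
  have hε : α * δ ≠ 0 := by
    intro h0
    rw [h0] at hn0
    simp at hn0
  have hp : ph m (α * δ) ≠ 0 := ph_ne_zero hm hε
  have hcp : conj (ph m (α * δ)) ≠ 0 := (map_ne_zero (starRingEnd ℂ)).2 hp
  have hnn := norm_nonneg' (α * δ)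
  have hn1 : (1 : ℝ) ≤ ((α * δ).norm : ℝ) := by exact_mod_cast norm_pos' hm hε
  have hnΔ : ((α * δ).norm : ℝ) ≤ Δ := by
    have h1 := hG.le
    have h2 : (α * δ).norm ≤ (Δ : ℤ) := by omega
    exact_mod_cast h2
  have hsq := norm_sq_ph (α * δ)
  have hle : ‖ph m (α * δ)‖ ≤ Δ := by
    have h0 := norm_nonneg (ph m (α * δ))
    nlinarith
  have e1 : ph m ((((c : ℤ) - c' : ℤ) : O m) * δ - a * star (α * δ)) =
      (pt α δ b c - pt α δ b c' - ph m a) * conj (ph m (α * δ)) := by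
    rw [map_sub, map_mul, map_mul, ph_star, map_intCast, pt, pt]
    generalize conj (ph m (α * δ)) = w at hcp
    push_cast
    field_simp
    ring
  have hL0 : 0 < L := by linarith
  have e2 : ‖ph m ((((c : ℤ) - c' : ℤ) : O m) * δ - a * star (α * δ))‖ < 1 := by
    rw [e1, norm_mul, Complex.norm_conj]
    calc ‖pt α δ b c - pt α δ b c' - ph m a‖ * ‖ph m (α * δ)‖
        ≤ 4 * Real.sqrt m / L * Δ :=
          mul_le_mul h hle (norm_nonneg _) (by positivity)
      _ = 4 * Real.sqrt m * Δ / L := by ring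
      _ < 1 := (div_lt_one hL0).2 hΔ
  have e3 := sub_eq_zero.1 (eq_zero_of_norm_lt hm e2)
  have d1 : star (α * δ) ∣ (((c : ℤ) - c' : ℤ) : O m) * δ := ⟨a, by rw [e3, mul_comm]⟩
  have c1 : IsCoprime (star (α * δ)) δ := ((cop_star hG.sq hG.cop).of_mul_left_right).symm
  have d2 := c1.dvd_of_dvd_mul_right d1
  have d3 := (star_dvd_iff hm hG.sq _).1 d2
  have e4 : ((((c : ℤ) - c' : ℤ) : O m) * (α * δ)).im = ((c : ℤ) - c') * (α * δ).im := by
    rw [Zsqrtd.im_mul, Zsqrtd.re_intCast, Zsqrtd.im_intCast, zero_mul, add_zero]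
  rw [e4] at d3
  have d4 := (cop_im hG.sq).dvd_of_dvd_mul_right d3
  have e5 : (c : ℤ) - c' = 0 := by
    refine Int.eq_zero_of_abs_lt_dvd d4 ?_
    rw [abs_lt]
    constructor <;> omega
  omega

open Classical in
/-- Terms at points of small multiplicity are negligible. -/
theorem err_le {m : ℕ} {ι : Type} (hm : 1 ≤ m) (I : Finset ι) (α δ : ι → O m) (e : O m) (s Δ : ℕ)
    (U : Finset (O m)) (L μ : ℝ) (b : ℂ) (E : ι → ℕ → Prop) (hG : ∀ i ∈ I, Good m Δ (α i) (δ i))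
    (hL : 1 ≤ L) (hμ : 0 ≤ μ) (hU : ∀ u ∈ U, ‖ph m u‖ ≤ L) (hΔ : 4 * Real.sqrt m * Δ < L)
    (h : ∀ i ∈ I, ∀ c, E i c → ((I.filter fun j => ∃ (c' : ℕ) (a : O m), E j c' ∧
      ‖pt (α j) (δ j) b c' - pt (α i) (δ i) b c - ph m a‖ ≤ 2 * Real.sqrt m / L).card : ℝ) ≤ μ) :
    ‖∑ i ∈ I, ∑ c ∈ (range (α i * δ i).norm.natAbs).filter (E i), trm (α i) (δ i) e s U b c‖ ≤
      10 ^ 4 * μ * L ^ 2 * U.card := by
  have key := ls m hm (I.sigma fun i => (range (α i * δ i).norm.natAbs).filter (E i))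
    (fun j => pt (α j.1) (δ j.1) b j.2) U L μ hL hμ hU (by
      rintro ⟨i, c⟩ hj0
      simp only [mem_sigma, mem_filter, mem_range] at hj0
      refine le_trans ?_ (h i hj0.1 c hj0.2.2)
      rw [Nat.cast_le]
      refine card_le_card_of_injOn (fun j => j.1) ?_ ?_
      · rintro ⟨j, c'⟩ hj
        simp only [coe_filter, mem_sigma, mem_filter, mem_range, Set.mem_ofPred_eq] at hj ⊢
        obtain ⟨⟨h1, -, h3⟩, a, ha⟩ := hj
        exact ⟨h1, c', a, h3, ha⟩
      · rintro ⟨j, c'⟩ hj ⟨j', c''⟩ hj' hjj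
        simp only at hjj
        subst hjj
        simp only [coe_filter, mem_sigma, mem_filter, mem_range, Set.mem_ofPred_eq] at hj hj'
        obtain ⟨⟨h1, h2, -⟩, a, ha⟩ := hj
        obtain ⟨⟨-, h2', -⟩, a', ha'⟩ := hj'
        have : c' = c'' := by
          refine uniq_FLErr hm (hG j h1) hL hΔ b h2 h2' (a - a') ?_
          have e1 : pt (α j) (δ j) b c' - pt (α j) (δ j) b c'' - ph m (a - a') =
              (pt (α j) (δ j) b c' - pt (α i) (δ i) b c - ph m a) -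
                (pt (α j) (δ j) b c'' - pt (α i) (δ i) b c - ph m a') := by
            rw [map_sub]; ring
          rw [e1]
          refine (norm_sub_le _ _).trans ?_
          have e2 : 4 * Real.sqrt m / L = 2 * Real.sqrt m / L + 2 * Real.sqrt m / L := by ring
          rw [e2]
          exact add_le_add ha ha'
        rw [this])
  refine le_trans ?_ key
  rw [sum_sigma]
  refine (norm_sum_le _ _).trans (sum_le_sum fun i _ => (norm_sum_le _ _).trans ?_)
  exact le_of_eq (sum_congr rfl fun c _ => norm_trm _ _ _ _ _ _ _)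

end Pool.Agent.P.MP_b75a1e_co.EG
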