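import Pool.Agent.P.MP_b75a1e_co.FLTail

set_option autoImplicit false

open Finset
open scoped BigOperators ComplexConjugate

namespace Pool.Agent.P.MP_b75a1e_co.EG

theorem swap_FLHyp (χ : ℕ → ℝ) (N : ℕ) :
    ∑ n ∈ Icc 1 N, ∑ d ∈ n.divisors, χ d = ∑ d ∈ Icc 1 N, χ d * ((N / d : ℕ) : ℝ) := by
  rw [Finset.sum_comm' (t' := Icc 1 N) (s' := fun d => (Ioc 0 N).filter (d ∣ ·))]
  · refine Finset.sum_congr rfl fun d _ => ?_
    rw [Finset.sum_const, Nat.Ioc_filter_dvd_card_eq_div, nsmul_eq_mul, mul_comm]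
  · intro n d
    simp only [Finset.mem_Icc, Nat.mem_divisors, Finset.mem_filter, Finset.mem_Ioc]
    constructor
    · rintro ⟨⟨h1, h2⟩, h3, h4⟩
      exact ⟨⟨⟨h1, h2⟩, h3⟩, Nat.pos_of_dvd_of_pos h3 h1, (Nat.le_of_dvd h1 h3).trans h2⟩
    · rintro ⟨⟨⟨h1, h2⟩, h3⟩, _⟩
      exact ⟨⟨h1, h2⟩, h3, h1.ne'⟩

theorem split_FLHyp (f : ℕ → ℝ) {B N : ℕ} (h : B ≤ N) :
    ∑ d ∈ Icc 1 N, f d = ∑ d ∈ Icc 1 B, f d + ∑ d ∈ Ioc B N, f d := by
  have e : ∀ n : ℕ, Icc 1 n = Ioc 0 n := fun n => by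
    ext x
    simp only [Finset.mem_Icc, Finset.mem_Ioc]
    omega
  rw [e, e, Finset.sum_Ioc_consecutive f (Nat.zero_le B) h]

theorem far_FLHyp (χ : ℕ → ℝ) (B : ℕ) :
    ∑ d ∈ Ioc B (B ^ 2), χ d * ((B ^ 2 / d : ℕ) : ℝ) =
      ∑ a ∈ Icc 1 B, ∑ d ∈ Ioc B (B ^ 2 / a), χ d := by
  rw [Finset.sum_comm' (t' := Ioc B (B ^ 2)) (s' := fun d => Icc 1 (B ^ 2 / d))]
  · refine Finset.sum_congr rfl fun d _ => ?_
    rw [Finset.sum_const, Nat.card_Icc, Nat.add_sub_cancel, nsmul_eq_mul, mul_comm]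
  · intro a d
    simp only [Finset.mem_Icc, Finset.mem_Ioc]
    constructor
    · rintro ⟨⟨h1, h2⟩, h3, h4⟩
      have h5 := (Nat.le_div_iff_mul_le h1).1 h4
      refine ⟨⟨h1, (Nat.le_div_iff_mul_le (by omega)).2 (by rwa [mul_comm])⟩, h3, ?_⟩
      exact h4.trans (Nat.div_le_self _ _)
    · rintro ⟨⟨h1, h2⟩, h3, h4⟩
      have h5 := (Nat.le_div_iff_mul_le (by omega : 0 < d)).1 h2
      refine ⟨⟨h1, ?_⟩, h3, (Nat.le_div_iff_mul_le h1).2 (by rwa [mul_comm])⟩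
      by_contra h6
      have h7 : B * B < a * d := Nat.mul_lt_mul'' (not_le.1 h6) h3
      rw [sq] at h5
      omega

theorem hyper (χ : ℕ → ℝ) (hχ : ∀ n, |χ n| ≤ 1) (B : ℕ) (hB : 1 ≤ B) (δ : ℝ) (hδ : 0 ≤ δ)
    (h : ∀ N : ℕ, B ≤ N → |∑ n ∈ Icc 1 N, χ n| ≤ δ * N) :
    |∑ n ∈ Icc 1 (B ^ 2), ∑ d ∈ n.divisors, χ d - (B : ℝ) ^ 2 * ∑ b ∈ Icc 1 B, χ b / b| ≤
      B + δ * (B : ℝ) ^ 2 * (2 + Real.log B) := by
  have hBB : B ≤ B ^ 2 := Nat.le_self_pow two_ne_zero B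
  rw [swap_FLHyp, split_FLHyp _ hBB, far_FLHyp, add_sub_right_comm]
  refine (abs_add_le _ _).trans (add_le_add ?_ ?_)
  · rw [Finset.mul_sum, ← Finset.sum_sub_distrib]
    refine (Finset.abs_sum_le_sum_abs _ _).trans ?_
    refine (Finset.sum_le_sum (g := fun _ => (1 : ℝ)) fun d hd => ?_).trans (by simp)
    have hd0 : (0 : ℝ) < d := by exact_mod_cast (Finset.mem_Icc.1 hd).1
    have e : χ d * ((B ^ 2 / d : ℕ) : ℝ) - (B : ℝ) ^ 2 * (χ d / d) =
        χ d * (((B ^ 2 / d : ℕ) : ℝ) - (B : ℝ) ^ 2 / d) := by ring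
    rw [e, abs_mul]
    refine mul_le_one₀ (hχ d) (abs_nonneg _) ?_
    have h1 : ((B ^ 2 / d : ℕ) : ℝ) ≤ (B : ℝ) ^ 2 / d := by
      have := @Nat.cast_div_le ℝ _ _ _ (B ^ 2) d
      rwa [Nat.cast_pow] at this
    have h2 : (B : ℝ) ^ 2 / d ≤ ((B ^ 2 / d : ℕ) : ℝ) + 1 := by
      rw [div_le_iff₀ hd0]
      have h3 : B ^ 2 ≤ (B ^ 2 / d + 1) * d := by
        rw [mul_comm]
        exact (Nat.lt_mul_div_succ _ (Finset.mem_Icc.1 hd).1).le
      exact_mod_cast h3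
    rw [abs_le]
    constructor <;> linarith
  · refine (Finset.abs_sum_le_sum_abs _ _).trans ?_
    refine (Finset.sum_le_sum (g := fun a : ℕ => δ * (B : ℝ) ^ 2 * (a : ℝ)⁻¹ + δ * B)
      fun a ha => ?_).trans ?_
    · obtain ⟨h1, h2⟩ := Finset.mem_Icc.1 ha
      have h3 : B ≤ B ^ 2 / a := by
        rw [Nat.le_div_iff_mul_le h1, sq]
        exact Nat.mul_le_mul_left _ h2
      have h4 := split_FLHyp χ h3
      have h5 := h _ h3
      have h6 := h B le_rfl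
      have h7 : ((B ^ 2 / a : ℕ) : ℝ) ≤ (B : ℝ) ^ 2 * (a : ℝ)⁻¹ := by
        have := @Nat.cast_div_le ℝ _ _ _ (B ^ 2) a
        rwa [Nat.cast_pow, div_eq_mul_inv] at this
      have h8 := mul_le_mul_of_nonneg_left h7 hδ
      rw [abs_le] at h5 h6 ⊢
      constructor <;> linarith [h5.1, h5.2, h6.1, h6.2]
    · rw [Finset.sum_add_distrib, ← Finset.mul_sum, Finset.sum_const, Nat.card_Icc,
        Nat.add_sub_cancel, nsmul_eq_mul]
      have h1 := harmonic_le_one_add_log B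
      rw [harmonic_eq_sum_Icc] at h1
      push_cast at h1
      have h2 := mul_le_mul_of_nonneg_left h1 (by positivity : 0 ≤ δ * (B : ℝ) ^ 2)
      linarith

theorem jac_char (m : ℕ) [NeZero m] (ho : Odd m) (hsq : Squarefree m) (h1 : 1 < m) :
    ∃ χ : DirichletCharacter ℂ m, χ ≠ 1 ∧ χ ^ 2 = 1 ∧
      ∀ n : ℕ, χ (n : ZMod m) = (jacobiSym n m : ℂ) := by
  have hv : ∀ n : ℕ, jacobiSym (((n : ZMod m).val : ℕ) : ℤ) m = jacobiSym n m := fun n => by
    rw [ZMod.val_natCast, Int.natCast_mod, ← jacobiSym.mod_left]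
  let χ : DirichletCharacter ℂ m :=
    { toFun := fun x => (jacobiSym ((x.val : ℕ) : ℤ) m : ℂ)
      map_one' := by
        have := hv 1
        rw [Nat.cast_one] at this
        simp only [this, Nat.cast_one, jacobiSym.one_left, Int.cast_one]
      map_mul' := fun x y => by
        have := hv (x.val * y.val)
        rw [Nat.cast_mul, ZMod.natCast_zmod_val, ZMod.natCast_zmod_val] at this
        simp only [this, Nat.cast_mul, jacobiSym.mul_left, Int.cast_mul]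
      map_nonunit' := fun x hx => by
        have h2 : ¬ Nat.Coprime x.val m := fun h => hx (by
          have := (ZMod.isUnit_iff_coprime x.val m).2 h
          rwa [ZMod.natCast_zmod_val] at this)
        simp only [Int.cast_eq_zero]
        exact (jacobiSym.eq_zero_iff_not_coprime).2 (by rwa [Int.gcd_natCast_natCast]) }
  have hχ : ∀ n : ℕ, χ (n : ZMod m) = (jacobiSym n m : ℂ) := fun n =>
    congrArg (fun z : ℤ => (z : ℂ)) (hv n)
  refine ⟨χ, fun h => ?_, ?_, hχ⟩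
  · obtain ⟨q, hq, hqm⟩ := Nat.exists_prime_and_dvd h1.ne'
    obtain ⟨a, ha⟩ := egt_neg hsq one_ne_zero ho hq hqm hq.not_dvd_one
    rw [mul_one] at ha
    have h2 := hχ a
    rw [ha, h] at h2
    by_cases h3 : IsUnit (a : ZMod m)
    · rw [MulChar.one_apply h3] at h2
      norm_num at h2
    · rw [MulChar.map_nonunit _ h3] at h2
      norm_num at h2
  · refine MulChar.IsQuadratic.sq_eq_one fun x => ?_
    rw [← ZMod.natCast_zmod_val x, hχ]
    rcases jacobiSym.trichotomy (x.val : ℕ) m with h | h | h <;> rw [h] <;> simp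

end Pool.Agent.P.MP_b75a1e_co.EG
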