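import Pool.Agent.P.MP_b75a1e_co.FLHyp
import Pool.Agent.P.MP_b75a1e_co.FLChar

set_option autoImplicit false

open Finset
open scoped BigOperators ComplexConjugate

namespace Pool.Agent.P.MP_b75a1e_co.EG

theorem icc_range_FLLower (m N : ℕ) (h1 : 1 < m) :
    ∑ n ∈ Icc 1 N, (jacobiSym n m : ℝ) = ∑ n ∈ range (N + 1), (jacobiSym n m : ℝ) := by
  rw [Finset.range_eq_Ico, Finset.sum_eq_sum_Ico_succ_bot (by omega : 0 < N + 1)]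
  have h0 : jacobiSym ((0 : ℕ) : ℤ) m = 0 := by
    simpa using jacobiSym.zero_left h1
  rw [h0]
  simp only [Int.cast_zero, zero_add]
  rfl

theorem jac_abs_FLLower (n m : ℕ) : |(jacobiSym n m : ℝ)| ≤ 1 := by
  rcases jacobiSym.trichotomy (n : ℤ) m with h | h | h <;> rw [h] <;> simp

theorem r_nonneg_FLLower (m : ℕ) [NeZero m] (χ : DirichletCharacter ℂ m) (h2 : χ ^ 2 = 1)
    (hχ : ∀ n : ℕ, χ (n : ZMod m) = (jacobiSym n m : ℂ)) (n : ℕ) :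
    0 ≤ ∑ d ∈ n.divisors, (jacobiSym d m : ℝ) := by
  have h := DirichletCharacter.zetaMul_nonneg h2 n
  have e : χ.zetaMul n = ((∑ d ∈ n.divisors, (jacobiSym d m : ℝ) : ℝ) : ℂ) := by
    rw [DirichletCharacter.zetaMul, ArithmeticFunction.coe_zeta_mul_apply]
    push_cast
    refine Finset.sum_congr rfl fun d hd => ?_
    have hd0 : d ≠ 0 := (Nat.pos_of_mem_divisors hd).ne'
    rw [← χ.apply_eq_toArithmeticFunction_apply hd0, hχ]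
  rw [e] at h
  exact_mod_cast h

theorem big_FLLower (K a c : ℝ) (ha : 0 < a) (hc : 0 < c) :
    ∃ Z0 : ℕ, 2 ≤ Z0 ∧ ∀ Z : ℕ, Z0 ≤ Z → K ≤ c * (Z : ℝ) ^ a := by
  have h1 : Filter.Tendsto (fun Z : ℕ => c * (Z : ℝ) ^ a) Filter.atTop Filter.atTop :=
    ((tendsto_rpow_atTop ha).comp tendsto_natCast_atTop_atTop).const_mul_atTop hc
  obtain ⟨Z1, hZ1⟩ := Filter.eventually_atTop.1 (h1.eventually_ge_atTop K)
  exact ⟨max 2 Z1, le_max_left _ _, fun Z hZ => hZ1 Z (le_trans (le_max_right _ _) hZ)⟩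

theorem err_tail_FLLower (C η θ z x : ℝ) (k : ℕ) (hC : 1 ≤ C) (hη : 0 < η) (hz : 1 ≤ z)
    (hθ : 0 < θ) (hθ4 : θ ≤ 1 / 4) (hk : (k : ℝ) * θ = η / 4) (hx : 0 ≤ x) (hxz : x ≤ z ^ k) :
    (2 * C * z ^ (-η)) ^ (1 - θ) * x ^ θ ≤ 2 * C * z ^ (-(η / 2)) := by
  have hz0 : 0 < z := by linarith
  have h2C : (1 : ℝ) ≤ 2 * C := by linarith
  have e1 : (2 * C * z ^ (-η)) ^ (1 - θ) = (2 * C) ^ (1 - θ) * z ^ (-η * (1 - θ)) := by
    rw [Real.mul_rpow (by linarith) (Real.rpow_nonneg hz0.le _), ← Real.rpow_mul hz0.le]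
  have e2 : (2 * C) ^ (1 - θ) ≤ 2 * C := by
    have := Real.rpow_le_rpow_of_exponent_le h2C (show 1 - θ ≤ 1 by linarith)
    rwa [Real.rpow_one] at this
  have e3 : x ^ θ ≤ z ^ (η / 4) := by
    have := Real.rpow_le_rpow hx hxz hθ.le
    rwa [← Real.rpow_natCast, ← Real.rpow_mul hz0.le, hk] at this
  have e4 : z ^ (-η * (1 - θ)) * z ^ (η / 4) ≤ z ^ (-(η / 2)) := by
    rw [← Real.rpow_add hz0]
    apply Real.rpow_le_rpow_of_exponent_le hz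
    nlinarith
  have p1 : 0 ≤ z ^ (-η * (1 - θ)) := Real.rpow_nonneg hz0.le _
  have p2 : 0 ≤ x ^ θ := Real.rpow_nonneg hx _
  rw [e1]
  calc (2 * C) ^ (1 - θ) * z ^ (-η * (1 - θ)) * x ^ θ
      ≤ (2 * C) * z ^ (-η * (1 - θ)) * z ^ (η / 4) := by
        apply mul_le_mul (mul_le_mul_of_nonneg_right e2 p1) e3 p2
        positivity
    _ = 2 * C * (z ^ (-η * (1 - θ)) * z ^ (η / 4)) := by ring
    _ ≤ 2 * C * z ^ (-(η / 2)) := mul_le_mul_of_nonneg_left e4 (by linarith)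

theorem err_log_FLLower (η z : ℝ) (hη : 0 < η) (hz : 1 ≤ z) :
    z ^ (-η) * (2 + Real.log (z ^ 10)) ≤ (2 + 20 / η) * z ^ (-(η / 2)) := by
  have hz0 : 0 < z := by linarith
  have h1 : Real.log z ≤ z ^ (η / 2) / (η / 2) := Real.log_le_rpow_div hz0.le (by linarith)
  have h2 : (1 : ℝ) ≤ z ^ (η / 2) := Real.one_le_rpow hz (by linarith)
  have h3 : z ^ (-η) * z ^ (η / 2) = z ^ (-(η / 2)) := by
    rw [← Real.rpow_add hz0]; congr 1; ring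
  have p1 : 0 ≤ z ^ (-η) := Real.rpow_nonneg hz0.le _
  have h4 : 2 + Real.log (z ^ 10) ≤ (2 + 20 / η) * z ^ (η / 2) := by
    rw [Real.log_pow]
    have : z ^ (η / 2) / (η / 2) * 10 = 20 / η * z ^ (η / 2) := by
      field_simp; ring
    push_cast
    nlinarith
  calc z ^ (-η) * (2 + Real.log (z ^ 10)) ≤ z ^ (-η) * ((2 + 20 / η) * z ^ (η / 2)) :=
        mul_le_mul_of_nonneg_left h4 p1
    _ = (2 + 20 / η) * (z ^ (-η) * z ^ (η / 2)) := by ring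
    _ = _ := by rw [h3]

theorem lower (r : ℕ) (ε : ℝ) (hε : 0 < ε) : ∃ (c : ℝ) (Z0 : ℕ), 0 < c ∧ ∀ m Z : ℕ, Z0 ≤ Z →
    Odd m → Squarefree m → 1 < m → (∀ l, l.Prime → l ∣ m → l ≤ Z) → m ≤ Z ^ r →
    c * (Z : ℝ) ^ 20 * (Z : ℝ) ^ (-ε) ≤
      ∑ n ∈ Icc 1 (Z ^ 20), ∑ d ∈ n.divisors, (jacobiSym d m : ℝ) := by
  obtain ⟨C, η, hC, hη, hη1, hcs⟩ := charsum r
  have hr1 : (0 : ℝ) < ((r + 1 : ℕ) : ℝ) := by positivity
  have hr2 : (1 : ℝ) ≤ ((r + 1 : ℕ) : ℝ) := by exact_mod_cast Nat.succ_le_succ (Nat.zero_le r)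
  obtain ⟨θ, hθdef⟩ : ∃ θ : ℝ, θ = η / (4 * ((r + 1 : ℕ) : ℝ)) := ⟨_, rfl⟩
  have hθ : 0 < θ := by rw [hθdef]; positivity
  have hk : ((r + 1 : ℕ) : ℝ) * θ = η / 4 := by rw [hθdef]; field_simp
  have hθ4 : θ ≤ 1 / 4 := by nlinarith
  obtain ⟨ε1, hε1def⟩ : ∃ ε1 : ℝ, ε1 = min ε (η / 4) := ⟨_, rfl⟩
  have hε1 : 0 < ε1 := by rw [hε1def]; exact lt_min hε (by linarith)
  have hε1a : ε1 ≤ ε := by rw [hε1def]; exact min_le_left _ _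
  have hε1b : ε1 ≤ η / 4 := by rw [hε1def]; exact min_le_right _ _
  obtain ⟨c0, hc0, hsg⟩ := Pool.Agent.EQ.siegel (ε := ε1 / ((r + 1 : ℕ) : ℝ)) (by positivity)
  obtain ⟨K, hK⟩ : ∃ K : ℝ, K = 2 * C + 2 * C / θ + 1 + 2 * C * (2 + 20 / η) := ⟨_, rfl⟩
  obtain ⟨Z0, hZ0, hbig⟩ := big_FLLower K (η / 4) (c0 / 2) (by linarith) (by linarith)
  refine ⟨c0 / 2, Z0, by linarith, fun m Z hZ ho hsq h1 hsm hmr => ?_⟩
  have hZ2 : 2 ≤ Z := le_trans hZ0 hZ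
  have : NeZero m := ⟨by omega⟩
  obtain ⟨χ, hχ1, hχ2, hχ⟩ := jac_char m ho hsq h1
  have hz : (1 : ℝ) ≤ Z := by exact_mod_cast (by omega : 1 ≤ Z)
  have hz0 : (0 : ℝ) < Z := by linarith
  have hB : 1 ≤ Z ^ 10 := Nat.one_le_pow _ _ (by omega)
  obtain ⟨δ, hδdef⟩ : ∃ δ : ℝ, δ = 2 * C * (Z : ℝ) ^ (-η) := ⟨_, rfl⟩
  have pη : 0 < (Z : ℝ) ^ (-η) := Real.rpow_pos_of_pos hz0 _
  have hδ : 0 < δ := by rw [hδdef]; positivity
  have hshort : ∀ N : ℕ, Z ^ 10 ≤ N → |∑ n ∈ Icc 1 N, (jacobiSym n m : ℝ)| ≤ δ * N := by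
    intro N hN
    rw [icc_range_FLLower m N h1]
    have h := hcs m Z (N + 1) ho hsq h1 hZ2 hsm hmr (by omega)
    have hN1 : (1 : ℝ) ≤ N := by exact_mod_cast le_trans hB hN
    refine le_trans h ?_
    rw [hδdef]
    push_cast
    have : 0 ≤ C * (Z : ℝ) ^ (-η) := by positivity
    nlinarith
  have hhyp := hyper (fun n => (jacobiSym n m : ℝ)) (fun n => jac_abs_FLLower n m) (Z ^ 10) hB δ
    hδ.le hshort
  have hshortC : ∀ N : ℕ, Z ^ 10 ≤ N → ‖∑ n ∈ Icc 1 N, χ (n : ZMod m)‖ ≤ δ * N := by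
    intro N hN
    have e : ∑ n ∈ Icc 1 N, χ (n : ZMod m) = ((∑ n ∈ Icc 1 N, (jacobiSym n m : ℝ) : ℝ) : ℂ) := by
      push_cast
      exact Finset.sum_congr rfl fun n _ => hχ n
    rw [e, Complex.norm_real, Real.norm_eq_abs]
    exact hshort N hN
  have htail := tail χ hχ1 (Z ^ 10) hB δ θ hδ hθ (by linarith) hshortC
  obtain ⟨T, hT⟩ : ∃ T : ℝ, T = ∑ b ∈ Icc 1 (Z ^ 10), (jacobiSym b m : ℝ) / b := ⟨_, rfl⟩
  have eT : ∑ b ∈ Icc 1 (Z ^ 10), χ (b : ZMod m) / b = (T : ℂ) := by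
    rw [hT]
    push_cast
    exact Finset.sum_congr rfl fun n _ => by rw [hχ n]
  rw [eT] at htail
  have e20 : (Z ^ 10) ^ 2 = Z ^ 20 := by rw [← pow_mul]
  rw [e20, ← hT] at hhyp
  obtain ⟨S, hS⟩ : ∃ S : ℝ, S = ∑ n ∈ Icc 1 (Z ^ 20), ∑ d ∈ n.divisors, (jacobiSym d m : ℝ) :=
    ⟨_, rfl⟩
  rw [← hS] at hhyp ⊢
  have hS0 : 0 ≤ S := by
    rw [hS]
    exact Finset.sum_nonneg fun n _ => r_nonneg_FLLower m χ hχ2 hχ n
  have hmz : (m : ℝ) ≤ (Z : ℝ) ^ (r + 1) := by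
    have : m ≤ Z ^ (r + 1) := le_trans hmr (Nat.pow_le_pow_right (by omega) (by omega))
    exact_mod_cast this
  have hm0 : (0 : ℝ) < m := by exact_mod_cast (by omega : 0 < m)
  have hL := hsg m χ hχ1 hχ2
  have hLz : (Z : ℝ) ^ (-ε1) ≤ (m : ℝ) ^ (-(ε1 / ((r + 1 : ℕ) : ℝ))) := by
    have h := Real.rpow_le_rpow_of_nonpos hm0 hmz
      (show -(ε1 / ((r + 1 : ℕ) : ℝ)) ≤ 0 by
        have : 0 < ε1 / ((r + 1 : ℕ) : ℝ) := by positivity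
        linarith)
    rw [← Real.rpow_natCast, ← Real.rpow_mul hz0.le] at h
    have e : ((r + 1 : ℕ) : ℝ) * -(ε1 / ((r + 1 : ℕ) : ℝ)) = -ε1 := by field_simp
    rwa [e] at h
  have hLz2 : c0 * (Z : ℝ) ^ (-ε1) ≤ ‖χ.LFunction 1‖ :=
    le_trans (mul_le_mul_of_nonneg_left hLz hc0.le) hL
  obtain ⟨w, hw⟩ : ∃ w : ℝ, w = (Z : ℝ) ^ (-(η / 2)) := ⟨_, rfl⟩
  have hw0 : 0 < w := by rw [hw]; exact Real.rpow_pos_of_pos hz0 _
  have E1 : δ ≤ 2 * C * w := by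
    rw [hδdef, hw]
    exact mul_le_mul_of_nonneg_left
      (Real.rpow_le_rpow_of_exponent_le hz (by linarith)) (by linarith)
  have E2 : δ ^ (1 - θ) * (m : ℝ) ^ θ / θ ≤ 2 * C / θ * w := by
    have h := err_tail_FLLower C η θ Z m (r + 1) hC hη hz hθ hθ4 hk hm0.le hmz
    rw [← hδdef, ← hw] at h
    calc δ ^ (1 - θ) * (m : ℝ) ^ θ / θ ≤ 2 * C * w / θ := div_le_div_of_nonneg_right h hθ.le
      _ = 2 * C / θ * w := by ring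
  have E3 : δ * (2 + Real.log ((Z : ℝ) ^ 10)) ≤ 2 * C * (2 + 20 / η) * w := by
    have h := err_log_FLLower η Z hη hz
    rw [← hw] at h
    rw [hδdef]
    calc 2 * C * (Z : ℝ) ^ (-η) * (2 + Real.log ((Z : ℝ) ^ 10))
        = 2 * C * ((Z : ℝ) ^ (-η) * (2 + Real.log ((Z : ℝ) ^ 10))) := by ring
      _ ≤ 2 * C * ((2 + 20 / η) * w) := mul_le_mul_of_nonneg_left h (by linarith)
      _ = _ := by ring
  have E4 : (Z : ℝ) ^ 10 ≤ (Z : ℝ) ^ 20 * w := by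
    have h : (Z : ℝ) ^ (-(10 : ℝ)) ≤ w := by
      rw [hw]; exact Real.rpow_le_rpow_of_exponent_le hz (by linarith)
    have e : (Z : ℝ) ^ 20 * (Z : ℝ) ^ (-(10 : ℝ)) = (Z : ℝ) ^ 10 := by
      rw [Real.rpow_neg hz0.le]
      have : (Z : ℝ) ^ (10 : ℝ) = (Z : ℝ) ^ (10 : ℕ) := by
        rw [← Real.rpow_natCast]; norm_num
      rw [this]
      field_simp
    rw [← e]
    exact mul_le_mul_of_nonneg_left h (by positivity)
  have hTabs : ‖χ.LFunction 1‖ - (δ + δ ^ (1 - θ) * (m : ℝ) ^ θ / θ) ≤ |T| := by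
    have h := norm_sub_norm_le (χ.LFunction 1) (T : ℂ)
    rw [Complex.norm_real, Real.norm_eq_abs] at h
    linarith
  have p20 : (0 : ℝ) < (Z : ℝ) ^ 20 := by positivity
  have hcast : ((Z ^ 10 : ℕ) : ℝ) = (Z : ℝ) ^ 10 := by push_cast; rfl
  have e20r : ((Z : ℝ) ^ 10) ^ 2 = (Z : ℝ) ^ 20 := by rw [← pow_mul]
  rw [hcast, e20r] at hhyp
  have hS1 : (Z : ℝ) ^ 20 * |T| - ((Z : ℝ) ^ 10 + δ * (Z : ℝ) ^ 20 * (2 + Real.log ((Z : ℝ) ^ 10)))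
      ≤ S := by
    have h := abs_sub_abs_le_abs_sub ((Z : ℝ) ^ 20 * T) S
    rw [abs_sub_comm, abs_mul, abs_of_pos p20, abs_of_nonneg hS0] at h
    linarith
  have hKw : K * w ≤ c0 / 2 * (Z : ℝ) ^ (-ε1) := by
    have h := hbig Z hZ
    have e : (Z : ℝ) ^ (η / 4) * w = (Z : ℝ) ^ (-(η / 4)) := by
      rw [hw, ← Real.rpow_add hz0]; congr 1; ring
    have h2 : (Z : ℝ) ^ (-(η / 4)) ≤ (Z : ℝ) ^ (-ε1) :=
      Real.rpow_le_rpow_of_exponent_le hz (by linarith)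
    calc K * w ≤ c0 / 2 * (Z : ℝ) ^ (η / 4) * w := mul_le_mul_of_nonneg_right h hw0.le
      _ = c0 / 2 * ((Z : ℝ) ^ (η / 4) * w) := by ring
      _ ≤ c0 / 2 * (Z : ℝ) ^ (-ε1) := by
        rw [e]; exact mul_le_mul_of_nonneg_left h2 (by linarith)
  have hεε : (Z : ℝ) ^ (-ε) ≤ (Z : ℝ) ^ (-ε1) :=
    Real.rpow_le_rpow_of_exponent_le hz (by linarith)
  have hT2 : c0 * (Z : ℝ) ^ (-ε1) - (2 * C * w + 2 * C / θ * w) ≤ |T| := by linarith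
  have F1 := mul_le_mul_of_nonneg_left hT2 p20.le
  have F2 := mul_le_mul_of_nonneg_left E3 p20.le
  have F3 := mul_le_mul_of_nonneg_left hKw p20.le
  have F4 := mul_le_mul_of_nonneg_left (mul_le_mul_of_nonneg_left hεε
    (show 0 ≤ c0 / 2 by linarith)) p20.le
  rw [hK] at F3
  nlinarith

end Pool.Agent.P.MP_b75a1e_co.EG
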