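import Pool.Agent.P.MP_b75a1e_co.FLUpper

set_option autoImplicit false

open Finset
open scoped BigOperators ComplexConjugate

namespace Pool.Agent.P.MP_b75a1e_co.EG

theorem small_FLRank (z : ℕ) : ∑ n ∈ Icc 1 z, (n : ℝ) ^ (-(49999 / 50000) : ℝ) ≤
    50000 * (z : ℝ) ^ (1 / 50000 : ℝ) := by
  induction z with
  | zero => simp
  | succ z ih =>
    rw [Finset.sum_Icc_succ_top (by omega)]
    have hz : (0 : ℝ) < (z + 1 : ℕ) := by positivity
    generalize hw : ((z + 1 : ℕ) : ℝ) = w at hz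
    have hw1 : 1 ≤ w := by rw [← hw]; exact_mod_cast Nat.succ_pos z
    have hzw : (z : ℝ) = w * (1 + -(1 / w)) := by
      rw [mul_add, mul_one, mul_neg, mul_one_div_cancel hz.ne', ← hw]; push_cast; ring
    have h1 : (1 : ℝ) / w ≤ 1 := by rw [div_le_one hz]; exact hw1
    have h2 := rpow_one_add_le_one_add_mul_self (s := -(1 / w)) (by linarith)
      (p := (1 / 50000 : ℝ)) (by norm_num) (by norm_num)
    have h3 : (z : ℝ) ^ (1 / 50000 : ℝ) ≤ w ^ (1 / 50000 : ℝ) * (1 + 1 / 50000 * -(1 / w)) := by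
      rw [hzw, Real.mul_rpow hz.le (by linarith)]
      exact mul_le_mul_of_nonneg_left h2 (by positivity)
    have h4 : w ^ (-(49999 / 50000) : ℝ) = w ^ (1 / 50000 : ℝ) * (1 / w) := by
      rw [show (-(49999 / 50000) : ℝ) = 1 / 50000 - 1 by norm_num, Real.rpow_sub_one hz.ne']
      ring
    rw [h4]
    nlinarith

theorem block_FLRank (m p a b : ℕ) (h4 : m % 4 = 3) (hmax : ∀ q, q.Prime → q ∣ m → q ≤ p)
    (ha : 1000 ≤ a) (hp : p ≤ 2 ^ a)
    (h : ∀ κ, a ≤ κ → κ ≤ b → ∀ PP : Finset ℕ,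
      (∀ l ∈ PP, Split m l ∧ 2 ^ (990 * κ) < l ∧ l ≤ 2 ^ (1001 * κ)) → PP.card < 2 ^ (998 * κ))
    (n : ℕ) (h1 : a ≤ n) (h2 : n + 1 ≤ b) :
    ∑ l ∈ (Ioc (2 ^ (1001 * n)) (2 ^ (1001 * (n + 1)))).filter
      (fun l : ℕ => l.Prime ∧ jacobiSym l m ≠ -1), (l : ℝ) ^ (-(49999 / 50000) : ℝ) ≤
      (1 / 2 : ℝ) ^ (n + 1) := by
  have hc := h (n + 1) (by omega) h2 ((Ioc (2 ^ (1001 * n)) (2 ^ (1001 * (n + 1)))).filter
    (fun l : ℕ => l.Prime ∧ jacobiSym l m ≠ -1)) (by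
      intro l hl
      rw [mem_filter, mem_Ioc] at hl
      obtain ⟨⟨l1, l2⟩, l3, l4⟩ := hl
      have e1 : 2 ^ a ≤ 2 ^ (1001 * n) := Nat.pow_le_pow_right (by norm_num) (by omega)
      have e2 : 2 ^ (990 * (n + 1)) ≤ 2 ^ (1001 * n) :=
        Nat.pow_le_pow_right (by norm_num) (by omega)
      have e3 : 2 ^ 1 ≤ 2 ^ a := Nat.pow_le_pow_right (by norm_num) (by omega)
      have e4 : l ≠ 2 := by omega
      obtain ⟨r, hr⟩ := egt_split h4 l3 e4 l4
      refine ⟨⟨l3, fun hd => ?_, r, by exact_mod_cast hr⟩, by omega, l2⟩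
      rcases (Nat.Prime.dvd_mul l3).1 hd with hd | hd
      · exact e4 ((Nat.prime_dvd_prime_iff_eq l3 Nat.prime_two).1 hd)
      · have := hmax l l3 hd
        omega)
  have hb : ∀ l ∈ (Ioc (2 ^ (1001 * n)) (2 ^ (1001 * (n + 1)))).filter
      (fun l : ℕ => l.Prime ∧ jacobiSym l m ≠ -1),
      (l : ℝ) ^ (-(49999 / 50000) : ℝ) ≤ (1 / 2 : ℝ) ^ (1000 * n) := by
    intro l hl
    rw [mem_filter, mem_Ioc] at hl
    have e1 : (2 : ℝ) ^ (1001 * n) ≤ l := by exact_mod_cast hl.1.1.le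
    calc (l : ℝ) ^ (-(49999 / 50000) : ℝ) ≤ ((2 : ℝ) ^ (1001 * n)) ^ (-(49999 / 50000) : ℝ) :=
          Real.rpow_le_rpow_of_nonpos (by positivity) e1 (by norm_num)
      _ = (2 : ℝ) ^ (((1001 * n : ℕ) : ℝ) * (-(49999 / 50000) : ℝ)) := by
          rw [Real.rpow_mul (by norm_num), Real.rpow_natCast]
      _ ≤ (2 : ℝ) ^ (-((1000 * n : ℕ) : ℝ)) := by
          apply Real.rpow_le_rpow_of_exponent_le (by norm_num)
          have : (0 : ℝ) ≤ n := Nat.cast_nonneg n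
          push_cast
          linarith
      _ = (1 / 2 : ℝ) ^ (1000 * n) := by
          rw [Real.rpow_neg (by norm_num), Real.rpow_natCast, one_div, inv_pow]
  refine (sum_le_card_nsmul _ _ _ hb).trans ?_
  rw [nsmul_eq_mul]
  have hc' : (((Ioc (2 ^ (1001 * n)) (2 ^ (1001 * (n + 1)))).filter
      (fun l : ℕ => l.Prime ∧ jacobiSym l m ≠ -1)).card : ℝ) ≤ (2 : ℝ) ^ (998 * (n + 1)) := by
    exact_mod_cast hc.le
  refine (mul_le_mul_of_nonneg_right hc' (by positivity)).trans ?_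
  obtain ⟨t, ht⟩ : ∃ t, 1000 * n = 998 * (n + 1) + (n + 1) + t := ⟨n - 999, by omega⟩
  rw [ht]
  generalize 998 * (n + 1) = u
  have e5 : (2 : ℝ) ^ u * (1 / 2) ^ u = 1 := by rw [← mul_pow]; norm_num
  have e6 : (1 / 2 : ℝ) ^ t ≤ 1 := pow_le_one₀ (by norm_num) (by norm_num)
  rw [pow_add, pow_add _ u, ← mul_assoc, ← mul_assoc, e5, one_mul]
  exact mul_le_of_le_one_right (by positivity) e6

theorem few_sum (m p a b : ℕ) (h4 : m % 4 = 3) (hmax : ∀ q, q.Prime → q ∣ m → q ≤ p)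
    (ha : 1000 ≤ a) (hp : p ≤ 2 ^ a)
    (h : ∀ κ, a ≤ κ → κ ≤ b → ∀ PP : Finset ℕ,
      (∀ l ∈ PP, Split m l ∧ 2 ^ (990 * κ) < l ∧ l ≤ 2 ^ (1001 * κ)) → PP.card < 2 ^ (998 * κ)) :
    ∑ l ∈ (Icc 1 (2 ^ (1000 * b))).filter (fun l : ℕ => l.Prime ∧ jacobiSym l m ≠ -1),
      (l : ℝ) ^ (-(49999 / 50000) : ℝ) ≤ 50000 * (2 : ℝ) ^ ((1001 / 50000 : ℝ) * a) + 1 := by
  have base : ∑ l ∈ (Icc 1 (2 ^ (1001 * a))).filter (fun l : ℕ => l.Prime ∧ jacobiSym l m ≠ -1),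
      (l : ℝ) ^ (-(49999 / 50000) : ℝ) ≤ 50000 * (2 : ℝ) ^ ((1001 / 50000 : ℝ) * a) := by
    refine (sum_le_sum_of_subset_of_nonneg (filter_subset _ _) fun _ _ _ => by positivity).trans
      ((small_FLRank _).trans (le_of_eq ?_))
    rw [Nat.cast_pow, Nat.cast_ofNat, ← Real.rpow_natCast, ← Real.rpow_mul (by norm_num)]
    congr 2
    push_cast
    ring
  have key : ∀ n, a ≤ n → n ≤ max a b →
      ∑ l ∈ (Icc 1 (2 ^ (1001 * n))).filter (fun l : ℕ => l.Prime ∧ jacobiSym l m ≠ -1),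
        (l : ℝ) ^ (-(49999 / 50000) : ℝ) ≤
        50000 * (2 : ℝ) ^ ((1001 / 50000 : ℝ) * a) + 1 - (1 / 2 : ℝ) ^ n := by
    intro n hn
    induction n, hn using Nat.le_induction with
    | base =>
      intro _
      have : (1 / 2 : ℝ) ^ a ≤ 1 := pow_le_one₀ (by norm_num) (by norm_num)
      linarith
    | succ n hn ih =>
      intro h2
      have e1 := ih (by omega)
      have e2 := block_FLRank m p a b h4 hmax ha hp h n hn (by omega)
      have e3 : 2 ^ (1001 * n) ≤ 2 ^ (1001 * (n + 1)) :=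
        Nat.pow_le_pow_right (by norm_num) (by omega)
      have e4 : Icc 1 (2 ^ (1001 * (n + 1))) =
          Icc 1 (2 ^ (1001 * n)) ∪ Ioc (2 ^ (1001 * n)) (2 ^ (1001 * (n + 1))) := by
        have e5 : 1 ≤ 2 ^ (1001 * n) := Nat.one_le_two_pow
        ext l
        rw [mem_union, mem_Icc, mem_Icc, mem_Ioc]
        omega
      rw [e4, filter_union, sum_union]
      · have e6 : (1 / 2 : ℝ) ^ n = 2 * (1 / 2 : ℝ) ^ (n + 1) := by rw [pow_succ]; ring
        linarith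
      · refine disjoint_filter_filter ?_
        rw [disjoint_left]
        intro l l1 l2
        rw [mem_Icc] at l1
        rw [mem_Ioc] at l2
        omega
  have e1 := key (max a b) (le_max_left _ _) le_rfl
  have e2 : (0 : ℝ) ≤ (1 / 2 : ℝ) ^ max a b := by positivity
  refine (sum_le_sum_of_subset_of_nonneg (filter_subset_filter _ (Icc_subset_Icc_right
    (Nat.pow_le_pow_right (by norm_num) ?_))) fun _ _ _ => by positivity).trans
    (e1.trans (by linarith))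
  have := le_max_right a b
  omega

end Pool.Agent.P.MP_b75a1e_co.EG
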