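import Pool.Agent.P.MP_b75a1e_co.FLLower
import Pool.Agent.P.MP_b75a1e_co.FLRank

set_option autoImplicit false

open Finset
open scoped BigOperators ComplexConjugate

namespace Pool.Agent.P.MP_b75a1e_co.EG

theorem sqfree_le_Supply {m p : ℕ} (hsq : Squarefree m) (hmax : ∀ q, q.Prime → q ∣ m → q ≤ p) :
    m ≤ 2 ^ (2 * p) := by
  have h1 : m ∣ primorial p := by
    rw [← Nat.prod_primeFactors_of_squarefree hsq]
    unfold primorial
    refine Finset.prod_dvd_prod_of_subset _ _ _ fun q hq => ?_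
    have hq' := Nat.prime_of_mem_primeFactors hq
    have := hmax q hq' (Nat.dvd_of_mem_primeFactors hq)
    simp only [Finset.mem_filter, Finset.mem_range]
    exact ⟨by omega, hq'⟩
  calc m ≤ primorial p := Nat.le_of_dvd (primorial_pos p) h1
    _ ≤ 4 ^ p := primorial_le_four_pow p
    _ = 2 ^ (2 * p) := by rw [pow_mul]; norm_num

theorem final_Supply (c C : ℝ) (hc : 0 < c) (hC : 0 < C) : ∃ B0 : ℕ, ∀ b : ℕ, B0 ≤ b →
    ∀ S : ℝ, S ≤ 10 ^ 11 * Real.sqrt b + 1 →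
      3 * C * Real.exp S < c * Real.exp (b / 200) := by
  set L : ℝ := |Real.log (3 * C / c)| with hL
  have hL0 : 0 ≤ L := abs_nonneg _
  set s0 : ℝ := 200 * (10 ^ 11 + 1 + L) + 1 with hs0
  refine ⟨⌈s0 ^ 2⌉₊, fun b hb S hS => ?_⟩
  have hb' : s0 ^ 2 ≤ b := Nat.ceil_le.1 hb
  have hs00 : 0 ≤ s0 := by positivity
  have hs : s0 ≤ Real.sqrt b := Real.le_sqrt_of_sq_le hb'
  have hsq : Real.sqrt b * Real.sqrt b = b := Real.mul_self_sqrt (Nat.cast_nonneg b)
  generalize Real.sqrt b = s at hs hsq hS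
  have hs1 : 1 ≤ s := by
    have : (0 : ℝ) ≤ 200 * (10 ^ 11 + 1 + L) := by positivity
    linarith
  have h1 : s0 * s ≤ s * s := mul_le_mul_of_nonneg_right hs (by linarith)
  have h2 : (1 + L) * 1 ≤ (1 + L) * s := mul_le_mul_of_nonneg_left hs1 (by linarith)
  have h3 : S + L < b / 200 := by
    rw [← hsq]
    rw [hs0] at h1
    nlinarith
  have h4 : 3 * C / c ≤ Real.exp L := by
    calc 3 * C / c = Real.exp (Real.log (3 * C / c)) := (Real.exp_log (by positivity)).symm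
      _ ≤ Real.exp L := Real.exp_le_exp.2 (le_abs_self _)
  have h5 : 3 * C ≤ c * Real.exp L := by
    rw [div_le_iff₀ hc] at h4
    linarith
  calc 3 * C * Real.exp S ≤ c * Real.exp L * Real.exp S :=
        mul_le_mul_of_nonneg_right h5 (Real.exp_pos _).le
    _ = c * Real.exp (S + L) := by rw [Real.exp_add]; ring
    _ < c * Real.exp (b / 200) := mul_lt_mul_of_pos_left (Real.exp_lt_exp.2 h3) hc

theorem two_rpow_Supply (p lp b : ℕ) (h2 : 2 ^ lp ≤ 2 * p) (hb : p ≤ 2 * 10 ^ 12 * b) :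
    (2 : ℝ) ^ ((1001 / 50000 : ℝ) * ((20 * lp : ℕ) : ℝ)) ≤ 2 * 10 ^ 6 * Real.sqrt b := by
  have h1 : (2 : ℝ) ^ ((1001 / 50000 : ℝ) * ((20 * lp : ℕ) : ℝ)) ≤ (2 : ℝ) ^ ((lp : ℝ) * (1 / 2)) := by
    refine Real.rpow_le_rpow_of_exponent_le (by norm_num) ?_
    push_cast
    have : (0 : ℝ) ≤ lp := Nat.cast_nonneg lp
    linarith
  refine h1.trans ?_
  rw [Real.rpow_mul (by norm_num), ← Real.sqrt_eq_rpow, Real.rpow_natCast]
  have h3 : (2 : ℝ) ^ lp ≤ (2 * 10 ^ 6) ^ 2 * b := by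
    have h4 : 2 ^ lp ≤ (2 * 10 ^ 6) ^ 2 * b := by
      have : (2 * 10 ^ 6) ^ 2 * b = 2 * (2 * 10 ^ 12 * b) := by ring
      omega
    exact_mod_cast h4
  calc Real.sqrt ((2 : ℝ) ^ lp) ≤ Real.sqrt ((2 * 10 ^ 6) ^ 2 * b) := Real.sqrt_le_sqrt h3
    _ = 2 * 10 ^ 6 * Real.sqrt b := by
        rw [Real.sqrt_mul (by positivity), Real.sqrt_sq (by positivity)]

/-- Every admissible modulus has a pool of split primes at some scale below `exp (c p)`. -/
theorem supply : ∃ p0 : ℕ, ∀ m p lp : ℕ, p0 ≤ p → Squarefree m → m % 4 = 3 →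
    (∀ q, q.Prime → q ∣ m → q ≤ p) → p < 2 ^ lp → 2 ^ lp ≤ 2 * p →
    ∃ (κ : ℕ) (PP : Finset ℕ), 20 * lp ≤ κ ∧ 10 ^ 12 * κ ≤ p ∧
      (∀ l ∈ PP, Split m l ∧ 2 ^ (990 * κ) < l ∧ l ≤ 2 ^ (1001 * κ)) ∧ 2 ^ (998 * κ) ≤ PP.card := by
  obtain ⟨r, hr⟩ : ∃ r : ℕ, r = 10 ^ 11 := ⟨_, rfl⟩
  obtain ⟨c, Z0, hc, hlow⟩ := lower r (1 / 10000) (by norm_num)
  obtain ⟨C, hC, hdiv⟩ := Pool.Agent.EQ.div_bound (ε := 1 / 200000) (by norm_num)
  obtain ⟨B0, hB0⟩ := final_Supply c C hc hC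
  refine ⟨10 ^ 12 * (B0 + Z0 + 2000), fun m p lp hp hsq h4 hmax h1 h2 => ?_⟩
  by_contra hcon
  obtain ⟨b, hb⟩ : ∃ b : ℕ, b = p / 10 ^ 12 := ⟨_, rfl⟩
  have hb1 : 10 ^ 12 * b ≤ p := by rw [hb]; exact Nat.mul_div_le p _
  have hb2 : p < 10 ^ 12 * (b + 1) := by
    rw [hb]; exact Nat.lt_mul_div_succ p (by norm_num)
  have hb3 : B0 + Z0 + 2000 ≤ b := by
    rw [hb]
    exact (Nat.le_div_iff_mul_le (by norm_num)).2 (by rw [mul_comm]; exact hp)
  have hlp : 50 ≤ lp := by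
    by_contra h
    have h5 : 2 ^ lp ≤ 2 ^ 50 := Nat.pow_le_pow_right (by norm_num) (by omega)
    omega
  have hfew := few_sum m p (20 * lp) b h4 hmax (by omega)
    (h1.le.trans (Nat.pow_le_pow_right (by norm_num) (by omega))) (by
      intro κ hκ1 hκ2 PP hPP
      by_contra h
      refine hcon ⟨κ, PP, hκ1, ?_, hPP, not_lt.1 h⟩
      exact (Nat.mul_le_mul_left _ hκ2).trans hb1)
  have hbpow : b + 1 ≤ 2 ^ b := Nat.lt_two_pow_self
  have hZp : p ≤ 2 ^ (50 * b) := by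
    have h5 : 2 ^ 49 ≤ 2 ^ (49 * b) := Nat.pow_le_pow_right (by norm_num) (by omega)
    calc p ≤ 10 ^ 12 * (b + 1) := hb2.le
      _ ≤ 2 ^ (49 * b) * 2 ^ b := Nat.mul_le_mul (le_trans (by norm_num) h5) hbpow
      _ = 2 ^ (50 * b) := by rw [← pow_add]; congr 1; ring
  have hZ0 : Z0 ≤ 2 ^ (50 * b) := by omega
  have hm : m ≤ (2 ^ (50 * b)) ^ r := by
    rw [← pow_mul]
    refine (sqfree_le_Supply hsq hmax).trans (Nat.pow_le_pow_right (by norm_num) ?_)
    have : 50 * b * r = 5 * 10 ^ 12 * b := by rw [hr]; ring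
    omega
  have hlo := hlow m (2 ^ (50 * b)) hZ0 (Nat.odd_iff.2 (by omega)) hsq (by omega)
    (fun l hl hlm => (hmax l hl hlm).trans hZp) hm
  have hX : (2 ^ (50 * b)) ^ 20 = 2 ^ (1000 * b) := by rw [← pow_mul]; congr 1; ring
  rw [hX] at hlo
  have hup := upper m (2 ^ (1000 * b)) (49999 / 50000)
    (C * ((2 ^ (1000 * b) : ℕ) : ℝ) ^ (1 / 200000 : ℝ)) (by norm_num) (by positivity) (by
      intro n hn
      rw [Finset.mem_Icc] at hn
      refine (hdiv n hn.1).trans (mul_le_mul_of_nonneg_left ?_ hC.le)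
      exact Real.rpow_le_rpow (Nat.cast_nonneg n) (by exact_mod_cast hn.2) (by norm_num))
  have hS := two_rpow_Supply p lp b h2 (by omega)
  generalize hSS : ∑ l ∈ (Icc 1 (2 ^ (1000 * b))).filter
    (fun l : ℕ => l.Prime ∧ jacobiSym l m ≠ -1), (l : ℝ) ^ (-(49999 / 50000) : ℝ) = S at hfew hup
  have hfin := hB0 b (by omega) S (by linarith)
  have hall := hlo.trans hup
  have e1 : ((2 ^ (50 * b) : ℕ) : ℝ) = Real.exp (50 * (b * Real.log 2)) := by
    rw [show 50 * (b * Real.log 2) = ((50 * b : ℕ) : ℝ) * Real.log 2 by push_cast; ring,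
      ← Real.log_pow, Real.exp_log (by positivity)]
    push_cast
    rfl
  have e2 : ((2 ^ (1000 * b) : ℕ) : ℝ) = Real.exp (1000 * (b * Real.log 2)) := by
    rw [show 1000 * (b * Real.log 2) = ((1000 * b : ℕ) : ℝ) * Real.log 2 by push_cast; ring,
      ← Real.log_pow, Real.exp_log (by positivity)]
    push_cast
    rfl
  rw [e1, e2, ← Real.exp_nat_mul, ← Real.exp_mul, ← Real.exp_mul, ← Real.exp_mul] at hall
  have hl2 : (b : ℝ) / 2 ≤ b * Real.log 2 := by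
    have := Real.log_two_gt_d9
    have h0 : (0 : ℝ) ≤ b := Nat.cast_nonneg b
    nlinarith
  generalize b * Real.log 2 = t at hall hl2
  have e3 : c * Real.exp (((20 : ℕ) : ℝ) * (50 * t)) * Real.exp (50 * t * -(1 / 10000)) =
      (c * Real.exp (t / 100)) * Real.exp (1000 * t - 3 * t / 200) := by
    rw [mul_assoc c, mul_assoc c, ← Real.exp_add, ← Real.exp_add]
    congr 2
    push_cast
    ring
  have e4 : 3 * (C * Real.exp (1000 * t * (1 / 200000))) * Real.exp (1000 * t * (49999 / 50000)) *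
      Real.exp S = (3 * C * Real.exp S) * Real.exp (1000 * t - 3 * t / 200) := by
    have : Real.exp (1000 * t - 3 * t / 200) =
        Real.exp (1000 * t * (1 / 200000)) * Real.exp (1000 * t * (49999 / 50000)) := by
      rw [← Real.exp_add]
      congr 1
      ring
    rw [this]
    ring
  rw [e3, e4] at hall
  have h6 := le_of_mul_le_mul_right hall (Real.exp_pos _)
  have h7 : c * Real.exp (b / 200) ≤ c * Real.exp (t / 100) :=
    mul_le_mul_of_nonneg_left (Real.exp_le_exp.2 (by linarith)) hc.le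
  linarith

end Pool.Agent.P.MP_b75a1e_co.EG
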