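import Pool.Agent.P.MP_b75a1e_co.FLCore
import Pool.Agent.P.MP_b75a1e_co.FLSupply

set_option autoImplicit false

open Finset
open scoped BigOperators ComplexConjugate

namespace Pool.Agent.P.MP_b75a1e_co.EG

/-- The polygon exists whenever the largest prime factor is large. -/
theorem all_large : ∃ p0 : ℕ, ∀ m p : ℕ, Squarefree m → m % 4 = 3 → p.Prime → p ∣ m →
    (∀ q, q.Prime → q ∣ m → q ≤ p) → p0 ≤ p → HasGon m p := by
  obtain ⟨p1, h1⟩ := supply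
  obtain ⟨C, hC0, hC⟩ := Pool.Agent.EQ.div_bound (ε := 1 / 1000) (by norm_num)
  refine ⟨max (max p1 (10 ^ 20)) ⌈C⌉₊, fun m p hsq h4 hp hpm hmax h0 => ?_⟩
  have a1 : p1 ≤ p := ((le_max_left _ _).trans (le_max_left _ _)).trans h0
  have a2 : 10 ^ 20 ≤ p := ((le_max_right _ _).trans (le_max_left _ _)).trans h0
  have a3 : ⌈C⌉₊ ≤ p := (le_max_right _ _).trans h0
  have b1 : p < 2 ^ (Nat.log 2 p + 1) := Nat.lt_pow_succ_log_self (by norm_num) p
  have b2 : 2 ^ (Nat.log 2 p + 1) ≤ 2 * p := by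
    have := Nat.pow_log_le_self 2 hp.ne_zero
    rw [pow_succ]
    omega
  obtain ⟨κ, PP, k1, k2, k3, k4⟩ := h1 m p _ a1 hsq h4 hmax b1 b2
  refine core' m p κ _ hsq h4 hp hpm hmax a2 b1 b2 k1 k2 PP k3 k4 fun n hn => (hC n hn).trans ?_
  refine mul_le_mul_of_nonneg_right ?_ (by positivity)
  have c1 : p ≤ 4 ^ p := (Nat.lt_pow_self (by norm_num)).le
  have c2 : ((⌈C⌉₊ : ℕ) : ℝ) ≤ 4 ^ p := by exact_mod_cast a3.trans c1
  exact (Nat.le_ceil C).trans c2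

end Pool.Agent.P.MP_b75a1e_co.EG
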