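import Pool.Agent.P.MP_b75a1e_co.FLCount0

set_option autoImplicit false

open Finset
open scoped BigOperators ComplexConjugate

namespace Pool.Agent.P.MP_b75a1e_co.EG

theorem tele_FLOsc (G : ℤ → ℂ) (hG : ∀ j, ‖G j‖ ≤ 1) (J s : ℕ) :
    ‖∑ j ∈ Icc (-(J : ℤ)) J, G j - ∑ j ∈ Icc (-(J : ℤ)) J, G (j + s)‖ ≤ 2 * s := by
  have one : ∀ g : ℤ → ℂ, (∀ j, ‖g j‖ ≤ 1) →
      ‖∑ j ∈ Icc (-(J : ℤ)) J, g j - ∑ j ∈ Icc (-(J : ℤ)) J, g (j + 1)‖ ≤ 2 := by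
    intro g hg
    rw [← sum_sub_distrib, Int.Icc_eq_finset_map, sum_map]
    have := sum_range_sub' (fun i : ℕ => g (-(J : ℤ) + i)) ((J : ℤ) + 1 - -(J : ℤ)).toNat
    simp only [Nat.cast_add, Nat.cast_one, ← add_assoc] at this
    simp only [Function.Embedding.trans_apply, Nat.castEmbedding_apply, addLeftEmbedding_apply]
    rw [this]
    exact (norm_sub_le _ _).trans ((add_le_add (hg _) (hg _)).trans (by norm_num))
  induction s with
  | zero => simp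
  | succ s ih =>
    have h1 := one (fun j => G (j + s)) fun j => hG _
    have e : ∀ j : ℤ, j + 1 + (s : ℤ) = j + ((s + 1 : ℕ) : ℤ) := fun j => by push_cast; ring
    simp only [e] at h1
    have := norm_sub_le_norm_sub_add_norm_sub (∑ j ∈ Icc (-(J : ℤ)) J, G j)
      (∑ j ∈ Icc (-(J : ℤ)) J, G (j + s)) (∑ j ∈ Icc (-(J : ℤ)) J, G (j + ((s + 1 : ℕ) : ℤ)))
    push_cast at this h1 ⊢
    linarith

theorem avg_FLOsc (G : ℤ → ℂ) (hG : ∀ j, ‖G j‖ ≤ 1) (J D H : ℕ) (hH : 1 ≤ H) :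
    ‖∑ j ∈ Icc (-(J : ℤ)) J, G j‖ ≤
      ∑ j ∈ Icc (-(J : ℤ)) J, ‖∑ h ∈ range H, G (j + (h * D : ℕ))‖ / H + 2 * (H * D) := by
  have hH0 : (0 : ℝ) < H := by exact_mod_cast hH
  have e : (H : ℂ) * ∑ j ∈ Icc (-(J : ℤ)) J, G j =
      ∑ j ∈ Icc (-(J : ℤ)) J, ∑ h ∈ range H, G (j + (h * D : ℕ)) + ∑ h ∈ range H,
        (∑ j ∈ Icc (-(J : ℤ)) J, G j - ∑ j ∈ Icc (-(J : ℤ)) J, G (j + (h * D : ℕ))) := by
    rw [sum_sub_distrib, sum_const, card_range, nsmul_eq_mul, sum_comm]; ring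
  have h1 := congrArg norm e
  rw [norm_mul, Complex.norm_natCast] at h1
  have h2 : ‖∑ h ∈ range H, (∑ j ∈ Icc (-(J : ℤ)) J, G j -
      ∑ j ∈ Icc (-(J : ℤ)) J, G (j + (h * D : ℕ)))‖ ≤ H * (2 * (H * D)) := by
    refine (norm_sum_le _ _).trans ((sum_le_card_nsmul _ _ (2 * ((H : ℝ) * D)) fun h hh => ?_).trans
      (by rw [card_range, nsmul_eq_mul]))
    refine (tele_FLOsc G hG J _).trans ?_
    have : (h : ℝ) ≤ H := by exact_mod_cast (mem_range.1 hh).le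
    push_cast
    gcongr
  have h3 := norm_sum_le (Icc (-(J : ℤ)) J) fun j => ∑ h ∈ range H, G (j + (h * D : ℕ))
  rw [← sum_div, div_add' _ _ _ hH0.ne', le_div_iff₀ hH0]
  have h4 := (h1.le.trans (norm_add_le _ _)).trans (add_le_add h3 h2)
  linarith

theorem taylor_FLOsc (d : ℂ) (t : ℝ) (hx : 0 < d.re) :
    ‖(d + t * Complex.I) / conj (d + t * Complex.I) -
      (d / conj d + t * (2 * d.re * Complex.I / conj d ^ 2))‖ ≤ 2 * (t / d.re) ^ 2 := by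
  have h1 : d.re ≤ ‖conj d‖ := by rw [Complex.norm_conj]; exact Complex.re_le_norm d
  have h2 : d.re ≤ ‖conj d - t * Complex.I‖ :=
    le_trans (by simp) (Complex.re_le_norm (conj d - t * Complex.I))
  have e0 : conj (d + t * Complex.I) = conj d - t * Complex.I := by simp [sub_eq_add_neg]
  have e1 : d = 2 * d.re - conj d := by
    have := Complex.add_conj d
    push_cast at this
    linear_combination this
  have n1 : conj d ≠ 0 := fun h => by rw [h, norm_zero] at h1; linarith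
  have n2 : conj d - t * Complex.I ≠ 0 := fun h => by rw [h, norm_zero] at h2; linarith
  have e2 : (d + t * Complex.I) / conj (d + t * Complex.I) -
      (d / conj d + t * (2 * d.re * Complex.I / conj d ^ 2)) =
      2 * d.re * (t * Complex.I) ^ 2 / (conj d ^ 2 * (conj d - t * Complex.I)) := by
    rw [e0]
    generalize conj d = c at *
    generalize (d.re : ℂ) = x at *
    subst e1
    field_simp
    ring
  rw [e2, norm_div, norm_mul, norm_mul, norm_mul, norm_pow, norm_pow, norm_mul, Complex.norm_I,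
    Complex.norm_real, Complex.norm_real, Real.norm_of_nonneg hx.le, mul_one, Real.norm_eq_abs,
    sq_abs, Complex.norm_ofNat]
  calc 2 * d.re * t ^ 2 / (‖conj d‖ ^ 2 * ‖conj d - t * Complex.I‖)
      ≤ 2 * d.re * t ^ 2 / (d.re ^ 2 * d.re) := by gcongr
    _ = 2 * (t / d.re) ^ 2 := by field_simp

theorem sig_FLOsc {m : ℕ} (hm : 1 ≤ m) (d ξ : ℂ) (c : ℝ) (hx : 0 < d.re) :
    pr m ξ ((c * Real.sqrt m : ℝ) * (2 * d.re * Complex.I / conj d ^ 2)) =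
      c * (2 * d.re * (ξ * d ^ 2).re / ‖d‖ ^ 4) := by
  have h0 : d ≠ 0 := fun h => by simp [h] at hx
  have n1 : conj d ≠ 0 := by simpa using h0
  have h1 : Real.sqrt m ≠ 0 := by positivity
  have h2 : (‖d‖ : ℂ) ^ 4 = (conj d * d) ^ 2 := by rw [Complex.conj_mul']; ring
  have e : ξ * ((c * Real.sqrt m : ℝ) * (2 * d.re * Complex.I / conj d ^ 2)) =
      ((c * Real.sqrt m * (2 * d.re) / ‖d‖ ^ 4 : ℝ) : ℂ) * (Complex.I * (ξ * d ^ 2)) := by
    push_cast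
    rw [h2]
    field_simp
  rw [pr, e, Complex.im_ofReal_mul, Complex.I_mul_im]
  field_simp

theorem inner_FLOsc {m : ℕ} (hm : 1 ≤ m) (y w D : ℝ) (H : ℕ) (d ξ : ℂ) (hw : 1 ≤ w)
    (hξ : ‖ξ‖ = w ^ 10) (hD : 1 ≤ D) (hy : 10 * D * (m : ℝ) ^ 2 * w ^ 10 ≤ y) (hx : y < 2 * d.re)
    (hd : ‖d‖ ^ 2 ≤ 5 * y ^ 2) (hH1 : y ≤ H * (D * (m : ℝ) ^ 2 * w ^ 6))
    (hH2 : ∀ h < H, (h : ℝ) * (D * (m : ℝ) ^ 2 * w ^ 6) ≤ y)
    (hg : w ^ 8 * ‖d‖ ^ 2 ≤ |(ξ * d ^ 2).re|) :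
    ‖∑ h ∈ range H, ee (pr m ξ ((d + (h * (D * m) * Real.sqrt m : ℝ) * Complex.I) /
      conj (d + (h * (D * m) * Real.sqrt m : ℝ) * Complex.I)))‖ / H ≤ 60 * (m : ℝ) ^ 2 / w := by
  have hm1 : (1 : ℝ) ≤ m := by exact_mod_cast hm
  have hy0 : 0 < y := lt_of_lt_of_le (by positivity) hy
  have hx0 : 0 < d.re := by linarith
  have hH0 : (0 : ℝ) < H := by
    by_contra h
    have : (H : ℝ) = 0 := le_antisymm (not_lt.1 h) (Nat.cast_nonneg _)
    rw [this, zero_mul] at hH1; linarith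
  have hdx : d.re ≤ ‖d‖ := Complex.re_le_norm d
  have hd0 : 0 < ‖d‖ := by linarith
  have hsq : Real.sqrt m ≤ m := Real.sqrt_le_iff.2 ⟨by positivity, by nlinarith⟩
  set σ := D * m * (2 * d.re * (ξ * d ^ 2).re / ‖d‖ ^ 4) with hσ
  have habs : |σ| = D * m * (2 * d.re * |(ξ * d ^ 2).re| / ‖d‖ ^ 4) := by
    rw [hσ, abs_mul, abs_div, abs_mul (2 * d.re), abs_of_nonneg (by positivity : 0 ≤ D * m),
      abs_of_nonneg (by positivity : 0 ≤ 2 * d.re), abs_of_nonneg (by positivity : 0 ≤ ‖d‖ ^ 4)]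
  have hup : |σ| ≤ 1 / 2 := by
    have h1 : |(ξ * d ^ 2).re| ≤ w ^ 10 * ‖d‖ ^ 2 := by
      rw [← hξ, ← norm_pow, ← norm_mul]; exact Complex.abs_re_le_norm _
    have h2 : D * m * w ^ 10 ≤ D * (m : ℝ) ^ 2 * w ^ 10 := by gcongr; nlinarith
    calc |σ| ≤ D * m * (2 * ‖d‖ * (w ^ 10 * ‖d‖ ^ 2) / ‖d‖ ^ 4) := by rw [habs]; gcongr
      _ = 2 * (D * m * w ^ 10) / ‖d‖ := by field_simp
      _ ≤ 1 / 2 := by rw [div_le_iff₀ hd0]; linarith
  have hlo : D * m * w ^ 8 / (5 * y) ≤ |σ| := by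
    calc D * m * w ^ 8 / (5 * y) = D * m * (y * w ^ 8 / (5 * y ^ 2)) := by field_simp
      _ ≤ D * m * (2 * d.re * w ^ 8 / ‖d‖ ^ 2) := by gcongr
      _ = D * m * (2 * d.re * (w ^ 8 * ‖d‖ ^ 2) / ‖d‖ ^ 4) := by field_simp
      _ ≤ |σ| := by rw [habs]; gcongr
  have hgeo := geom_ee (pr m ξ (d / conj d)) σ _ (by positivity : 0 < D * m * w ^ 8 / (5 * y))
    (fun z => by
      rcases eq_or_ne z 0 with rfl | hz
      · simpa using hlo
      · have h1 : (1 : ℝ) ≤ |(z : ℝ)| := by exact_mod_cast Int.one_le_abs hz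
        have h2 := abs_sub_abs_le_abs_sub (z : ℝ) σ
        rw [abs_sub_comm] at h2
        linarith) H
  have hterm : ∀ h ∈ range H, ‖ee (pr m ξ ((d + (h * (D * m) * Real.sqrt m : ℝ) * Complex.I) /
      conj (d + (h * (D * m) * Real.sqrt m : ℝ) * Complex.I))) -
      ee (pr m ξ (d / conj d) + σ * h)‖ ≤ 56 / w ^ 2 := by
    intro h hh
    have e : pr m ξ (d / conj d) + σ * h = pr m ξ (d / conj d + (h * (D * m) * Real.sqrt m : ℝ) *
        (2 * d.re * Complex.I / conj d ^ 2)) := by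
      rw [pr_add_right, sig_FLOsc hm d ξ _ hx0, hσ]; ring
    rw [e]
    refine (norm_ee_sub _ _).trans ?_
    rw [← pr_sub_right]
    have h1 := (abs_pr_le hm ξ _).trans
      (mul_le_mul_of_nonneg_left (taylor_FLOsc d (h * (D * m) * Real.sqrt m) hx0) (norm_nonneg ξ))
    have h2 : (h * (D * m) * Real.sqrt m : ℝ) / d.re ≤ 2 / w ^ 6 := by
      rw [div_le_div_iff₀ hx0 (by positivity)]
      have := hH2 h (mem_range.1 hh)
      calc (h * (D * m) * Real.sqrt m : ℝ) * w ^ 6 ≤ h * (D * m) * m * w ^ 6 := by gcongr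
        _ = h * (D * (m : ℝ) ^ 2 * w ^ 6) := by ring
        _ ≤ 2 * d.re := by linarith
    calc _ ≤ 7 * (‖ξ‖ * (2 * ((h * (D * m) * Real.sqrt m : ℝ) / d.re) ^ 2)) := by linarith
      _ ≤ 7 * (w ^ 10 * (2 * (2 / w ^ 6) ^ 2)) := by rw [hξ]; gcongr
      _ = 56 / w ^ 2 := by field_simp; ring
  have hs := (norm_sum_le _ _).trans (sum_le_card_nsmul _ _ _ hterm)
  rw [sum_sub_distrib, card_range, nsmul_eq_mul] at hs
  have ht := (norm_le_norm_add_norm_sub' _ _).trans (add_le_add hgeo hs)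
  have h3 : 1 / (2 * (D * m * w ^ 8 / (5 * y))) ≤ H * (3 * m / w ^ 2) := by
    calc 1 / (2 * (D * m * w ^ 8 / (5 * y))) = 5 / 2 * y / (D * m * w ^ 8) := by field_simp
      _ ≤ 3 * (H * (D * (m : ℝ) ^ 2 * w ^ 6)) / (D * m * w ^ 8) := by gcongr; norm_num
      _ = H * (3 * m / w ^ 2) := by field_simp
  rw [div_le_iff₀ hH0]
  have h4 : 3 * m / w ^ 2 + 56 / w ^ 2 ≤ 60 * (m : ℝ) ^ 2 / w := by
    rw [← add_div]
    gcongr
    · nlinarith
    · nlinarith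
  nlinarith

theorem bad_FLOsc (ξ d w0 : ℂ) (w r : ℝ) (hw : 1 ≤ w) (hr : 0 ≤ r)
    (h0 : ξ = (w ^ 10 : ℝ) * w0 ^ 2) (hd : ‖d‖ ^ 2 ≤ (r * w) ^ 2)
    (hb : |(ξ * d ^ 2).re| < w ^ 8 * ‖d‖ ^ 2) :
    |((1 + Complex.I) * w0 * d).re| ≤ r ∨ |((1 - Complex.I) * w0 * d).re| ≤ r := by
  have e : (ξ * d ^ 2).re =
      w ^ 10 * (((1 + Complex.I) * w0 * d).re * ((1 - Complex.I) * w0 * d).re) := by
    rw [h0, mul_assoc, Complex.re_ofReal_mul, ← mul_pow, mul_assoc, mul_assoc]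
    generalize w0 * d = z
    simp [sq]
    left; ring
  by_contra hc
  push Not at hc
  rw [e, abs_mul, abs_mul, abs_of_nonneg (by positivity : 0 ≤ w ^ 10)] at hb
  have h1 := mul_le_mul hc.1.le hc.2.le hr (abs_nonneg _)
  have h2 : w ^ 8 * ‖d‖ ^ 2 ≤ w ^ 10 * (r * r) := by
    calc _ ≤ w ^ 8 * (r * w) ^ 2 := by gcongr
      _ = _ := by ring
  have h3 := mul_le_mul_of_nonneg_left h1 (by positivity : 0 ≤ w ^ 10)
  linarith

/-- An oscillatory sum over a box. -/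
theorem osc (m y J D : ℕ) (hm : 1 ≤ m) (hD : 1 ≤ D) (h1 : 10 * m ^ 2 * J ≤ y)
    (h2 : y ≤ 20 * m ^ 2 * J) (a : ℤ → ℤ → ℂ) (ha : ∀ x j, ‖a x j‖ ≤ 1)
    (hp : ∀ x j, a x (j + D) = a x j) (ξ : ℂ) (hξ1 : 1 ≤ ‖ξ‖)
    (hξ2 : 10 * D * (m : ℝ) ^ 2 * ‖ξ‖ ≤ y) :
    ‖∑ x ∈ Ioc ((y : ℤ) / 2) (2 * y), ∑ j ∈ Icc (-(J : ℤ)) J,
      a x j * ee (pr m ξ (rot (⟨x, m * j⟩ : O m)))‖ ≤
      10 ^ 4 * (m : ℝ) ^ 2 * ‖ξ‖ ^ (-1 / 10 : ℝ) * (y * J) := by
  classical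
  have hm1 : (1 : ℝ) ≤ m := by exact_mod_cast hm
  have hD1 : (1 : ℝ) ≤ D := by exact_mod_cast hD
  obtain ⟨w, hw, hξ, hw'⟩ : ∃ w : ℝ, 1 ≤ w ∧ ‖ξ‖ = w ^ 10 ∧ ‖ξ‖ ^ (-1 / 10 : ℝ) = 1 / w := by
    refine ⟨‖ξ‖ ^ (1 / 10 : ℝ), Real.one_le_rpow hξ1 (by norm_num), ?_, ?_⟩
    · rw [← Real.rpow_natCast, ← Real.rpow_mul (norm_nonneg _)]; norm_num
    · rw [one_div (_ ^ _), ← Real.rpow_neg (norm_nonneg _)]; norm_num
  rw [hw']
  rw [hξ] at hξ2
  have hw0 : 0 < w := by linarith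
  have hw10 : w ≤ w ^ 10 := le_self_pow₀ hw (by norm_num)
  have hw6 : w ≤ w ^ 6 := le_self_pow₀ hw (by norm_num)
  have hw610 : w ^ 6 ≤ w ^ 10 := pow_le_pow_right₀ hw (by norm_num)
  have hP : (0 : ℝ) < D * (m : ℝ) ^ 2 * w ^ 6 := by positivity
  have hDm : (1 : ℝ) ≤ D * (m : ℝ) ^ 2 := by nlinarith
  have hPy : (D : ℝ) * (m : ℝ) ^ 2 * w ^ 6 ≤ y := by nlinarith
  have hwy : w ≤ y := by nlinarith
  have hy0 : (0 : ℝ) < y := by linarith
  have h1' : 10 * (m : ℝ) ^ 2 * J ≤ y := by exact_mod_cast h1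
  have h2' : (y : ℝ) ≤ 20 * (m : ℝ) ^ 2 * J := by exact_mod_cast h2
  have hJ : (1 : ℝ) ≤ J := by
    have : J ≠ 0 := by rintro rfl; simp at h2'; simp [h2'] at hy0
    exact_mod_cast Nat.one_le_iff_ne_zero.2 this
  obtain ⟨H, hH1, hH2, hH3⟩ : ∃ H : ℕ, (y : ℝ) ≤ H * (D * (m : ℝ) ^ 2 * w ^ 6) ∧
      (∀ h < H, (h : ℝ) * (D * (m : ℝ) ^ 2 * w ^ 6) ≤ y) ∧
      (H : ℝ) * (D * (m : ℝ) ^ 2 * w ^ 6) ≤ 2 * y := by
    refine ⟨⌈(y : ℝ) / (D * (m : ℝ) ^ 2 * w ^ 6)⌉₊, (div_le_iff₀ hP).1 (Nat.le_ceil _),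
      fun h hh => ((lt_div_iff₀ hP).1 (Nat.lt_ceil.1 hh)).le, ?_⟩
    have := (Nat.ceil_lt_add_one (div_pos hy0 hP).le).le
    rw [div_add_one hP.ne', le_div_iff₀ hP] at this
    linarith
  have hH : 1 ≤ H := by
    by_contra h
    obtain rfl : H = 0 := by omega
    simp at hH1; simp [hH1] at hy0
  have hH0 : (0 : ℝ) < H := by exact_mod_cast hH
  obtain ⟨w0, hw0sq⟩ : ∃ w0 : ℂ, w0 ^ 2 = ξ / (w ^ 10 : ℝ) := IsAlgClosed.exists_pow_nat_eq _ two_pos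
  have hξ0 : ξ = (w ^ 10 : ℝ) * w0 ^ 2 := by
    have : ((w ^ 10 : ℝ) : ℂ) ≠ 0 := by exact_mod_cast (by positivity : w ^ 10 ≠ 0)
    rw [hw0sq]; field_simp
  have hn0 : ‖w0‖ = 1 := by
    have := congrArg norm hw0sq
    rw [norm_pow, norm_div, hξ, Complex.norm_real, Real.norm_of_nonneg (by positivity),
      div_self (by positivity)] at this
    exact (pow_eq_one_iff_of_nonneg (norm_nonneg _) two_ne_zero).1 this
  have hω1 : 1 ≤ ‖(1 + Complex.I) * w0‖ := by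
    rw [norm_mul, hn0, mul_one]; exact le_trans (by simp) (Complex.re_le_norm _)
  have hω2 : 1 ≤ ‖(1 - Complex.I) * w0‖ := by
    rw [norm_mul, hn0, mul_one]; exact le_trans (by simp) (Complex.re_le_norm _)
  set X := Ioc ((y : ℤ) / 2) (2 * y) with hX
  set K := Icc (-(J : ℤ)) J with hK
  set f : ℤ × ℤ → O m := fun q => ⟨q.1, m * q.2⟩ with hf
  have hbox : ∀ δ ∈ (X ×ˢ K).image f, InBox m y J δ := by
    intro δ hδ
    obtain ⟨⟨x, j⟩, hq, rfl⟩ := mem_image.1 hδ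
    simp only [hX, hK, mem_product, mem_Ioc, mem_Icc] at hq
    refine ⟨by simp only [hf]; omega, hq.1.2, Dvd.intro _ rfl, ?_⟩
    simp only [hf, abs_mul, Nat.abs_cast]
    exact mul_le_mul_of_nonneg_left (abs_le.2 hq.2) (Nat.cast_nonneg _)
  have hinj : Function.Injective f := by
    rintro ⟨x, j⟩ ⟨x', j'⟩ h
    simp only [hf, Zsqrtd.mk.injEq] at h
    exact Prod.ext h.1 (mul_left_cancel₀ (by omega) h.2)
  set B := fun δ : O m => |((1 + Complex.I) * w0 * ph m δ).re| ≤ 3 * y / w ∨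
    |((1 - Complex.I) * w0 * ph m δ).re| ≤ 3 * y / w with hB
  have hcnt : (((X ×ˢ K).filter fun q => B (f q)).card : ℝ) ≤ 800 * (m : ℝ) ^ 2 / w * (y * J) := by
    have c1 := cnt_line hm _ hbox h1 _ hω1 (3 * y / w) (by positivity)
    have c2 := cnt_line hm _ hbox h1 _ hω2 (3 * y / w) (by positivity)
    have c3 : ((X ×ˢ K).filter fun q => B (f q)).card = (((X ×ˢ K).image f).filter B).card := by
      rw [filter_image, card_image_of_injective _ hinj]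
    have c4 := card_union_le (((X ×ˢ K).image f).filter fun δ =>
      |((1 + Complex.I) * w0 * ph m δ).re| ≤ 3 * y / w) (((X ×ˢ K).image f).filter fun δ =>
      |((1 - Complex.I) * w0 * ph m δ).re| ≤ 3 * y / w)
    rw [← filter_or, ← c3] at c4
    have c5 : (1 : ℝ) ≤ y / w := (one_le_div hw0).2 hwy
    have c6 : (3 : ℝ) * (3 * y / w) + 1 ≤ 200 * (m : ℝ) ^ 2 * J / w := by
      calc (3 : ℝ) * (3 * y / w) + 1 ≤ 3 * (3 * y / w) + y / w := by linarith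
        _ = 10 * y / w := by ring
        _ ≤ _ := div_le_div_of_nonneg_right (by linarith) hw0.le
    have c7 : 2 * (y : ℝ) * (3 * (3 * y / w) + 1) ≤ 400 * (m : ℝ) ^ 2 / w * (y * J) := by
      calc _ ≤ 2 * (y : ℝ) * (200 * (m : ℝ) ^ 2 * J / w) := by gcongr
        _ = _ := by ring
    have c8 := (Nat.cast_le (α := ℝ)).2 c4
    push_cast at c8
    calc _ ≤ _ := c8
      _ ≤ _ := add_le_add (c1.trans c7) (c2.trans c7)
      _ = _ := by ring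
  have hG : ∀ x j, ‖a x j * ee (pr m ξ (rot (⟨x, m * j⟩ : O m)))‖ ≤ 1 := fun x j => by
    rw [norm_mul, norm_ee, mul_one]; exact ha x j
  have hper : ∀ x j (h : ℕ), a x (j + (h * D : ℕ)) = a x j := by
    intro x j h
    induction h with
    | zero => simp
    | succ h ih => rw [← ih, ← hp x (j + (h * D : ℕ))]; congr 1; push_cast; ring
  have hpt : ∀ x ∈ X, ∀ j ∈ K, ‖∑ h ∈ range H, a x (j + (h * D : ℕ)) *
      ee (pr m ξ (rot (⟨x, m * (j + (h * D : ℕ))⟩ : O m)))‖ / H ≤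
      60 * (m : ℝ) ^ 2 / w + if B (f (x, j)) then 1 else 0 := by
    intro x hx j hj
    split_ifs with hb
    · have : ‖∑ h ∈ range H, a x (j + (h * D : ℕ)) *
          ee (pr m ξ (rot (⟨x, m * (j + (h * D : ℕ))⟩ : O m)))‖ ≤ H :=
        (norm_sum_le _ _).trans ((sum_le_card_nsmul _ _ 1 fun h _ => hG _ _).trans (by simp))
      have h5 : (0 : ℝ) ≤ 60 * (m : ℝ) ^ 2 / w := by positivity
      linarith [(div_le_one hH0).2 this]
    · obtain ⟨b1, b2, -, b4⟩ := hbox _ (mem_image_of_mem f (mk_mem_product hx hj))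
      have b1' : (y : ℝ) < 2 * x := by exact_mod_cast b1
      have b2' : (x : ℝ) ≤ 2 * y := by exact_mod_cast b2
      have b4' : |((m * j : ℤ) : ℝ)| ≤ m * J := by exact_mod_cast b4
      have hd : ‖ph m (f (x, j))‖ ^ 2 ≤ 5 * (y : ℝ) ^ 2 := by
        rw [norm_sq_ph, norm_eq]
        have e1 : ((m * j : ℤ) : ℝ) ^ 2 ≤ (m * J) ^ 2 := by
          rw [← sq_abs]; gcongr
        have e2 : (m : ℝ) * ((m * j : ℤ) : ℝ) ^ 2 ≤ ((m : ℝ) ^ 2 * J) ^ 2 := by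
          calc _ ≤ (m : ℝ) ^ 2 * (m * J) ^ 2 := by gcongr; nlinarith
            _ = _ := by ring
        have e3 : ((m : ℝ) ^ 2 * J) ^ 2 ≤ (y : ℝ) ^ 2 := by
          gcongr; nlinarith [(by positivity : (0 : ℝ) ≤ (m : ℝ) ^ 2 * J)]
        have e4 : (x : ℝ) ^ 2 ≤ (2 * y) ^ 2 := by gcongr; linarith
        simp only [hf]
        push_cast at e2 ⊢
        linarith
      have hgood : w ^ 8 * ‖ph m (f (x, j))‖ ^ 2 ≤ |(ξ * ph m (f (x, j)) ^ 2).re| := by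
        by_contra hc
        refine hb (bad_FLOsc ξ _ w0 w _ hw (by positivity) hξ0 ?_ (not_le.1 hc))
        rw [div_mul_cancel₀ _ hw0.ne']; nlinarith
      have hin := inner_FLOsc hm y w D H _ ξ hw hξ hD1 hξ2 (by rw [ph_re]; exact b1') hd hH1 hH2 hgood
      have e : ∀ h : ℕ, ph m (⟨x, m * (j + (h * D : ℕ))⟩ : O m) =
          ph m (f (x, j)) + ((h : ℝ) * (D * m) * Real.sqrt m : ℝ) * Complex.I := fun h => by
        apply Complex.ext
        · simp only [hf, ph_re, Complex.add_re, Complex.re_ofReal_mul, Complex.I_re, mul_zero, add_zero]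
        · simp only [hf, ph_im, Complex.add_im, Complex.im_ofReal_mul, Complex.I_im, mul_one]
          push_cast; ring
      simp only [hper, rot, e, ← mul_sum, norm_mul, add_zero]
      refine le_trans ?_ hin
      gcongr
      exact mul_le_of_le_one_left (norm_nonneg _) (ha x j)
  have hcX : (X.card : ℝ) ≤ 2 * y := by
    have : X.card ≤ 2 * y := by rw [hX, Int.card_Ioc]; omega
    exact_mod_cast this
  have hcK : (K.card : ℝ) ≤ 3 * J := by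
    have : K.card = 2 * J + 1 := by rw [hK, Int.card_Icc]; omega
    rw [this]; push_cast; linarith
  have hHD : 2 * ((H : ℝ) * D) ≤ 80 * J / w := by
    rw [le_div_iff₀ hw0]
    have : (H : ℝ) * D * w * (m : ℝ) ^ 2 ≤ 40 * J * (m : ℝ) ^ 2 := by
      calc (H : ℝ) * D * w * (m : ℝ) ^ 2 ≤ H * D * w ^ 6 * (m : ℝ) ^ 2 := by gcongr
        _ = H * (D * (m : ℝ) ^ 2 * w ^ 6) := by ring
        _ ≤ _ := by linarith
    have := le_of_mul_le_mul_right this (by positivity)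
    linarith
  have hrow : ∀ x ∈ X, ‖∑ j ∈ K, a x j * ee (pr m ξ (rot (⟨x, m * j⟩ : O m)))‖ ≤
      (∑ j ∈ K, if B (f (x, j)) then (1 : ℝ) else 0) + 260 * (m : ℝ) ^ 2 * J / w := by
    intro x hx
    have r1 := avg_FLOsc (fun j => a x j * ee (pr m ξ (rot (⟨x, m * j⟩ : O m)))) (hG x) J D H hH
    have r2 := sum_le_sum (hpt x hx)
    rw [sum_add_distrib, sum_const, nsmul_eq_mul] at r2
    have r3 : (K.card : ℝ) * (60 * (m : ℝ) ^ 2 / w) ≤ 180 * (m : ℝ) ^ 2 * J / w := by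
      calc _ ≤ 3 * J * (60 * (m : ℝ) ^ 2 / w) := by gcongr
        _ = _ := by ring
    have r4 : 80 * J / w ≤ 80 * (m : ℝ) ^ 2 * J / w := by gcongr; nlinarith
    have r5 : 260 * (m : ℝ) ^ 2 * J / w = 180 * (m : ℝ) ^ 2 * J / w + 80 * (m : ℝ) ^ 2 * J / w := by
      ring
    linarith
  refine (norm_sum_le _ _).trans ((sum_le_sum hrow).trans ?_)
  rw [sum_add_distrib, sum_const, nsmul_eq_mul, ← sum_product', sum_boole]
  have t1 : (X.card : ℝ) * (260 * (m : ℝ) ^ 2 * J / w) ≤ 520 * ((m : ℝ) ^ 2 / w * (y * J)) := by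
    calc _ ≤ 2 * y * (260 * (m : ℝ) ^ 2 * J / w) := by gcongr
      _ = _ := by ring
  have t2 : (0 : ℝ) ≤ (m : ℝ) ^ 2 / w * (y * J) := by positivity
  have t3 : 800 * (m : ℝ) ^ 2 / w * (y * J) = 800 * ((m : ℝ) ^ 2 / w * (y * J)) := by ring
  have t4 : 10 ^ 4 * (m : ℝ) ^ 2 * (1 / w) * (y * J) = 10 ^ 4 * ((m : ℝ) ^ 2 / w * (y * J)) := by ring
  linarith

end Pool.Agent.P.MP_b75a1e_co.EG
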