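import Pool.Agent.P.MP_b75a1e_co.FLBase
import Pool.Agent.P.MP_b75a1e_co.EGMinor

set_option autoImplicit false

open Finset
open scoped BigOperators ComplexConjugate

namespace Pool.Agent.P.MP_b75a1e_co.EG

theorem version {m : ℕ} (G β : O m) (d : ℕ) (hG : IsCoprime G (star G)) (hβ : PrimAt β d)
    (hd : 1 ≤ d) :
    (∀ f : ℕ, f ∣ d → (f : O m) ∣ β * G → f ^ 2 ≤ d) ∨
      ∀ f : ℕ, f ∣ d → (f : O m) ∣ star β * G → f ^ 2 ≤ d := by
  by_contra hc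
  rw [not_or] at hc
  obtain ⟨h1, h2⟩ := hc
  simp only [not_forall, not_le] at h1 h2
  obtain ⟨f1, a1, b1, c1⟩ := h1
  obtain ⟨f2, a2, b2, c2⟩ := h2
  have hcop : Nat.Coprime f1 f2 := by
    refine Nat.coprime_of_dvd fun l hl hl1 hl2 => hβ l hl (hl1.trans a1) ?_
    have e1 : (l : O m) ∣ β * G := (Nat.cast_dvd_cast hl1).trans b1
    have e2 : (l : O m) ∣ β * star G := by
      have := dvd_star ((Nat.cast_dvd_cast (α := O m) hl2).trans b2)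
      rwa [star_natCast, star_mul', star_star] at this
    obtain ⟨u, v, huv⟩ := hG
    have e3 : β = u * (β * G) + v * (β * star G) := by
      linear_combination (-β) * huv
    rw [e3]
    exact dvd_add (e1.mul_left u) (e2.mul_left v)
  have h3 : f1 * f2 ≤ d := Nat.le_of_dvd hd (hcop.mul_dvd_of_dvd_of_dvd a1 a2)
  have h4 : d * d < f1 ^ 2 * f2 ^ 2 := Nat.mul_lt_mul'' c1 c2
  have h5 : (f1 * f2) * (f1 * f2) ≤ d * d := Nat.mul_le_mul h3 h3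
  have h6 : f1 ^ 2 * f2 ^ 2 = (f1 * f2) * (f1 * f2) := by ring
  omega

theorem geom_FLPoint0 (N : ℕ) : ∑ i ∈ range N, ((1 : ℝ) / 4) ^ i ≤ 4 / 3 := by
  have h : ∀ N : ℕ, ∑ i ∈ range N, ((1 : ℝ) / 4) ^ i = 4 / 3 - 4 / 3 * (1 / 4) ^ N := by
    intro N
    induction N with
    | zero => simp
    | succ n ih => rw [sum_range_succ, ih, pow_succ]; ring
  rw [h]
  have : (0 : ℝ) ≤ 4 / 3 * (1 / 4) ^ N := by positivity
  linarith

theorem dyadic (m p Mg : ℕ) (hm : 1 ≤ m) (hp : 1 ≤ p) (H X : ℝ) (hH : 1 ≤ H) (hX : 0 < X)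
    (hMg : (Mg : ℝ) ≤ 9 * p * Real.sqrt X) (S : Finset (ℤ × ℤ)) (hS : S ⊆ grid Mg) (f : ℤ × ℤ → ℝ)
    (h : ∀ n ∈ S, ∃ (H' : ℝ) (β : O m) (d : ℕ), H ≤ H' ∧ Near m (gp m Mg n) β d H' X ∧
      f n ≤ 1 / H' ^ 6) :
    ∑ n ∈ S, f n ≤ 10 ^ 4 * (p : ℝ) ^ 2 / H ^ 2 := by
  classical
  have hH0 : 0 < H := by linarith
  have h' : ∀ n ∈ S, ∃ i : ℕ, (∃ (β : O m) (d : ℕ), Near m (gp m Mg n) β d (2 ^ (i + 1) * H) X) ∧
      f n ≤ 1 / (2 ^ i * H) ^ 6 := by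
    intro n hn
    obtain ⟨H', β, d, h1, ⟨h2, h3, h4, h5⟩, h6⟩ := h n hn
    obtain ⟨i, hi1, hi2⟩ := exists_nat_pow_near (x := H' / H) (y := 2)
      ((one_le_div hH0).2 h1) one_lt_two
    rw [le_div_iff₀ hH0] at hi1
    rw [div_lt_iff₀ hH0] at hi2
    refine ⟨i, ⟨β, d, h2, h3.trans hi2.le, h4, h5.trans hi2.le⟩, h6.trans ?_⟩
    exact one_div_le_one_div_of_le (by positivity) (pow_le_pow_left₀ (by positivity) hi1 6)
  choose! i hi1 hi2 using h'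
  rw [← sum_fiberwise_of_maps_to (t := range (S.sup i + 1)) (g := i) fun n hn =>
    mem_range.2 (Nat.lt_succ_of_le (le_sup hn))]
  have key : ∀ j : ℕ, ∑ n ∈ S.filter (fun n => i n = j), f n ≤
      6400 * (p : ℝ) ^ 2 / H ^ 2 * (1 / 4) ^ j := by
    intro j
    have hj : (1 : ℝ) ≤ 2 ^ (j + 1) * H :=
      one_le_mul_of_one_le_of_one_le (one_le_pow₀ one_le_two) hH
    have hc : ((S.filter fun n => i n = j).card : ℝ) ≤ 400 * (p : ℝ) ^ 2 * (2 ^ (j + 1) * H) ^ 4 := by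
      refine le_trans (Nat.cast_le.2 (card_le_card fun n hn => ?_))
        (count_near m p Mg hm hp _ X hj hX hMg)
      obtain ⟨h1, rfl⟩ := mem_filter.1 hn
      exact mem_filter.2 ⟨hS h1, hi1 n h1⟩
    refine (sum_le_card_nsmul _ _ (1 / (2 ^ j * H) ^ 6) fun n hn => ?_).trans ?_
    · obtain ⟨h1, rfl⟩ := mem_filter.1 hn
      exact hi2 n h1
    rw [nsmul_eq_mul]
    refine (mul_le_mul_of_nonneg_right hc (by positivity)).trans (le_of_eq ?_)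
    have e : ((1 : ℝ) / 4) ^ j = 1 / (2 ^ j) ^ 2 := by
      rw [one_div_pow, ← pow_mul, mul_comm, pow_mul]
      norm_num
    rw [e, pow_succ (2 : ℝ) j]
    have : (0 : ℝ) < 2 ^ j := by positivity
    generalize (2 : ℝ) ^ j = t at this
    field_simp
    norm_num
  refine (sum_le_sum fun j _ => key j).trans ?_
  rw [← mul_sum]
  refine (mul_le_mul_of_nonneg_left (geom_FLPoint0 _) (by positivity)).trans ?_
  have : (0 : ℝ) ≤ (p : ℝ) ^ 2 / H ^ 2 := by positivity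
  rw [mul_div_assoc, mul_div_assoc]
  linarith

end Pool.Agent.P.MP_b75a1e_co.EG
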