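import Pool.Agent.P.MP_b75a1e_co.FLQuad0

set_option autoImplicit false

open Finset
open scoped BigOperators ComplexConjugate

namespace Pool.Agent.P.MP_b75a1e_co.EG

variable {m y J : ℕ} {k : ℝ} {F : Finset (O m)}

open Classical in
theorem lin_FLQuad (hS : Sml m k) (h : Fam m y J k F) (D g : ℕ) (hD1 : 1 ≤ D) (hD : D ≤ y)
    (hg : g ∣ D) (B : O m) :
    ∑ δ ∈ F, (if (g : O m) ∣ tb D δ - B then (1 : ℝ) else 0) ≤
      10 * k ^ 4 * (g : ℝ) ^ (-999 / 1000 : ℝ) * F.card := by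
  have h1 := tb_lin hS h D g hD1 hD hg 1 (-B) 1 (by
    intro f _ hf _
    have h2 := ((nat_dvd_iff f 1).1 hf).1
    have h3 : (f : ℤ) ∣ 1 := by simpa using h2
    have h4 : f ∣ 1 := by exact_mod_cast h3
    have h5 : f = 1 := Nat.dvd_one.1 h4
    simp [h5])
  rw [Finset.sum_boole]
  simpa [sub_eq_add_neg] using h1

theorem norm_cong_FLQuad {E : ℕ} {a b : O m} (h : (E : O m) ∣ a - b) :
    (E : ℤ) ∣ a.norm - b.norm := by
  obtain ⟨h1, h2⟩ := (nat_dvd_iff E _).1 h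
  rw [Zsqrtd.re_sub] at h1
  rw [Zsqrtd.im_sub] at h2
  rw [norm_eq, norm_eq]
  have : a.re ^ 2 + m * a.im ^ 2 - (b.re ^ 2 + m * b.im ^ 2) =
      (a.re - b.re) * (a.re + b.re) + (a.im - b.im) * (m * (a.im + b.im)) := by ring
  rw [this]
  exact dvd_add (h1.mul_right _) (h2.mul_right _)

theorem norm_add_FLQuad (a V : O m) : (a + V).norm = a.norm + V.norm + 2 * (star V * a).re := by
  rw [norm_eq, norm_eq, norm_eq]
  simp only [Zsqrtd.re_add, Zsqrtd.im_add, Zsqrtd.re_mul, Zsqrtd.re_star, Zsqrtd.im_star]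
  ring

theorem quad_FLQuad (h : Fam m y J k F) {D E : ℕ} (hD1 : 1 ≤ D) (hD : D ≤ y) (hd : E ∣ D)
    {δ δ' : O m} (hδ : δ ∈ F) (hδ' : δ' ∈ F) (V : O m)
    (hV : (E : O m) ∣ tb D δ - (tb D δ' + V)) :
    (E : ℤ) ∣ V.norm * δ'.norm + 2 * (star V * δ' ^ 2).re := by
  have hd' : (E : ℤ) ∣ (D : ℤ) := by exact_mod_cast hd
  have a1 := hd'.trans (tb_norm hD1 (h.cop hδ hD1 hD))
  have a2 := hd'.trans (tb_norm hD1 (h.cop hδ' hD1 hD))
  have a3 := norm_cong_FLQuad hV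
  rw [norm_add_FLQuad] at a3
  have a4 : (E : ℤ) ∣ V.norm + 2 * (star V * tb D δ').re := by
    have := dvd_sub (dvd_sub a1 a2) a3
    have e : (tb D δ).norm - 1 - ((tb D δ').norm - 1) -
        ((tb D δ).norm - ((tb D δ').norm + V.norm + 2 * (star V * tb D δ').re)) =
        V.norm + 2 * (star V * tb D δ').re := by ring
    rwa [e] at this
  have a5 := hd'.trans (inv_spec hD1 (h.cop hδ' hD1 hD))
  have a6 : (star V * tb D δ').re =
      (star V * δ' ^ 2).re * ((((δ'.norm : ZMod D)⁻¹).val : ℕ) : ℤ) := by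
    unfold tb
    rw [← mul_assoc]
    generalize (((δ'.norm : ZMod D)⁻¹).val : ℕ) = i
    generalize star V * δ' ^ 2 = w
    simp [Zsqrtd.re_mul]
  rw [a6] at a4
  generalize ((((δ'.norm : ZMod D)⁻¹).val : ℕ) : ℤ) = i at a4 a5
  generalize (star V * δ' ^ 2).re = r at a4 ⊢
  have e : V.norm * δ'.norm + 2 * r =
      (V.norm + 2 * (r * i)) * δ'.norm - (δ'.norm * i - 1) * (2 * r) := by ring
  rw [e]
  exact dvd_sub (a4.mul_right _) (a5.mul_right _)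

open Classical in
theorem bad_FLQuad (hS : Sml m k) (h : Fam m y J k F) (D E : ℕ) (hD1 : 1 ≤ D) (hD : D ≤ y)
    (hd : E ∣ D) (B : O m) :
    ∑ δ ∈ F, (if ∀ f : ℕ, f ∣ E → (f : O m) ∣ tb D δ - B → f ^ 4 ≤ E then (0 : ℝ) else 1) ≤
      10 * k ^ 5 * (E : ℝ) ^ (-12 / 100 : ℝ) * F.card := by
  have hE1 : 1 ≤ E := Nat.pos_of_dvd_of_pos hd hD1
  have hE : (1 : ℝ) ≤ E := by exact_mod_cast hE1
  have hk : (0 : ℝ) ≤ k := le_trans (by norm_num) hS.k1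
  set G := E.divisors.filter fun g => E < g ^ 4 with hG
  have s1 : ∀ δ ∈ F,
      (if ∀ f : ℕ, f ∣ E → (f : O m) ∣ tb D δ - B → f ^ 4 ≤ E then (0 : ℝ) else 1) ≤
        ∑ g ∈ G, (if (g : O m) ∣ tb D δ - B then (1 : ℝ) else 0) := by
    intro δ _
    split_ifs with hc
    · exact Finset.sum_nonneg fun g _ => by split_ifs <;> norm_num
    · push Not at hc
      obtain ⟨f, hf1, hf2, hf3⟩ := hc
      have hfG : f ∈ G := by
        rw [hG, Finset.mem_filter, Nat.mem_divisors]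
        exact ⟨⟨hf1, by omega⟩, hf3⟩
      have := Finset.single_le_sum
        (f := fun g : ℕ => if (g : O m) ∣ tb D δ - B then (1 : ℝ) else 0)
        (fun g _ => by split_ifs <;> norm_num) hfG
      simpa [hf2] using this
  have s2 : ∀ g ∈ G, ∑ δ ∈ F, (if (g : O m) ∣ tb D δ - B then (1 : ℝ) else 0) ≤
      10 * k ^ 4 * (E : ℝ) ^ (-999 / 4000 : ℝ) * F.card := by
    intro g hg
    rw [hG, Finset.mem_filter, Nat.mem_divisors] at hg
    refine (lin_FLQuad hS h D g hD1 hD (hg.1.1.trans hd) B).trans ?_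
    have hg0 : (0 : ℝ) ≤ g := by positivity
    have b1 : (E : ℝ) ≤ (g : ℝ) ^ 4 := by exact_mod_cast hg.2.le
    have b2 : (g : ℝ) ^ (-999 / 1000 : ℝ) = ((g : ℝ) ^ 4) ^ (-999 / 4000 : ℝ) := by
      rw [← Real.rpow_natCast, ← Real.rpow_mul hg0]
      norm_num
    have b3 : ((g : ℝ) ^ 4) ^ (-999 / 4000 : ℝ) ≤ (E : ℝ) ^ (-999 / 4000 : ℝ) :=
      Real.rpow_le_rpow_of_nonpos (by linarith) b1 (by norm_num)
    rw [b2]
    gcongr
  have s3 : (G.card : ℝ) ≤ k * (E : ℝ) ^ (1 / 1000 : ℝ) := by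
    refine le_trans ?_ (hS.tau E hE1)
    exact_mod_cast Finset.card_filter_le _ _
  have s4 : (E : ℝ) ^ (1 / 1000 : ℝ) * (E : ℝ) ^ (-999 / 4000 : ℝ) ≤
      (E : ℝ) ^ (-12 / 100 : ℝ) := by
    rw [← Real.rpow_add (by linarith)]
    exact Real.rpow_le_rpow_of_exponent_le hE (by norm_num)
  calc _ ≤ ∑ δ ∈ F, ∑ g ∈ G, (if (g : O m) ∣ tb D δ - B then (1 : ℝ) else 0) :=
        Finset.sum_le_sum s1
    _ = ∑ g ∈ G, ∑ δ ∈ F, (if (g : O m) ∣ tb D δ - B then (1 : ℝ) else 0) := Finset.sum_comm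
    _ ≤ ∑ _g ∈ G, 10 * k ^ 4 * (E : ℝ) ^ (-999 / 4000 : ℝ) * F.card := Finset.sum_le_sum s2
    _ = G.card * (10 * k ^ 4 * (E : ℝ) ^ (-999 / 4000 : ℝ) * F.card) := by
        rw [Finset.sum_const, nsmul_eq_mul]
    _ ≤ k * (E : ℝ) ^ (1 / 1000 : ℝ) * (10 * k ^ 4 * (E : ℝ) ^ (-999 / 4000 : ℝ) * F.card) := by
        gcongr
    _ = 10 * k ^ 5 * ((E : ℝ) ^ (1 / 1000 : ℝ) * (E : ℝ) ^ (-999 / 4000 : ℝ)) * F.card := by ring
    _ ≤ _ := by gcongr

open Classical in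
theorem fix_FLQuad (hS : Sml m k) (h : Fam m y J k F) (D E : ℕ) (hD1 : 1 ≤ D) (hD : D ≤ y)
    (hd : E ∣ D) (h1 : k ^ 1000 ≤ E) (V : O m) :
    ∑ δ ∈ F, ∑ δ' ∈ F, (if (E : O m) ∣ (tb D δ - tb D δ') - V then (1 : ℝ) else 0) ≤
      10 * k ^ 4 * (E : ℝ) ^ (-999 / 1000 : ℝ) * F.card * F.card *
        (100 * k ^ 2 * (E : ℝ) ^ (-12 / 100 : ℝ) +
          if ∀ f : ℕ, f ∣ E → (f : O m) ∣ V → f ^ 4 ≤ E then (0 : ℝ) else 1) := by
  have hk : (0 : ℝ) ≤ k := le_trans (by norm_num) hS.k1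
  have hEy : E ≤ y := (Nat.le_of_dvd hD1 hd).trans hD
  rw [Finset.sum_comm]
  set a : ℝ := 10 * k ^ 4 * (E : ℝ) ^ (-999 / 1000 : ℝ) * F.card with ha
  have ha0 : 0 ≤ a := by positivity
  have s1 : ∀ δ' ∈ F, ∑ δ ∈ F, (if (E : O m) ∣ (tb D δ - tb D δ') - V then (1 : ℝ) else 0) ≤
      a * (if (E : ℤ) ∣ V.norm * δ'.norm + 2 * (star V * δ' ^ 2).re then (1 : ℝ) else 0) := by
    intro δ' hδ'
    have e : ∀ δ : O m, tb D δ - tb D δ' - V = tb D δ - (tb D δ' + V) := fun δ => by ring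
    simp only [e]
    by_cases hc : (E : ℤ) ∣ V.norm * δ'.norm + 2 * (star V * δ' ^ 2).re
    · rw [if_pos hc, mul_one]
      exact lin_FLQuad hS h D E hD1 hD hd _
    · rw [if_neg hc, mul_zero]
      refine le_of_eq (Finset.sum_eq_zero fun δ hδ => if_neg fun hv => hc ?_)
      exact quad_FLQuad h hD1 hD hd hδ hδ' V hv
  refine (Finset.sum_le_sum s1).trans ?_
  rw [← Finset.mul_sum, Finset.sum_boole, mul_assoc a]
  refine mul_le_mul_of_nonneg_left ?_ ha0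
  split_ifs with hc
  · have := cnt_quad hS h E h1 hEy V hc
    linarith
  · have b1 : ((F.filter fun δ' =>
        (E : ℤ) ∣ V.norm * δ'.norm + 2 * (star V * δ' ^ 2).re).card : ℝ) ≤ F.card := by
      exact_mod_cast Finset.card_filter_le _ _
    have b2 : (0 : ℝ) ≤ F.card * (100 * k ^ 2 * (E : ℝ) ^ (-12 / 100 : ℝ)) := by positivity
    linarith

open Classical in
/-- The additive energy of the reduced rotations. -/
theorem energy (hS : Sml m k) (h : Fam m y J k F) (D D' : ℕ) (hD1 : 1 ≤ D) (hD : D ≤ y)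
    (hd : D' ∣ D) (h1 : k ^ 1000 ≤ D') :
    𝔼 q : (F × F) × (F × F), (if (D' : O m) ∣ (tb D (q.1.1 : O m) - tb D (q.1.2 : O m)) -
      (tb D (q.2.1 : O m) - tb D (q.2.2 : O m)) then (1 : ℝ) else 0) ≤
      2000 * k ^ 9 * (D' : ℝ) ^ (-111 / 100 : ℝ) := by
  have hk1 : (1 : ℝ) ≤ k := le_trans (by norm_num) hS.k1
  have hE1 : 1 ≤ D' := Nat.pos_of_dvd_of_pos hd hD1
  have hE : (1 : ℝ) ≤ D' := by exact_mod_cast hE1
  have hN : (0 : ℝ) < F.card := by exact_mod_cast (h.ne hS.m1).card_pos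
  have two : ∀ φ : O m → O m → ℝ, ∑ p : F × F, φ p.1 p.2 = ∑ δ ∈ F, ∑ δ' ∈ F, φ δ δ' := by
    intro φ
    rw [Fintype.sum_prod_type, ← Finset.sum_coe_sort F]
    exact Finset.sum_congr rfl fun δ _ => Finset.sum_coe_sort F (φ δ)
  set a : ℝ := 10 * k ^ 4 * (D' : ℝ) ^ (-999 / 1000 : ℝ) * F.card * F.card with ha
  have ha0 : 0 ≤ a := by positivity
  set b : ℝ := (D' : ℝ) ^ (-12 / 100 : ℝ) with hb
  have hb0 : 0 ≤ b := by positivity
  have s1 : ∑ q : (F × F) × (F × F), (if (D' : O m) ∣ (tb D (q.1.1 : O m) - tb D (q.1.2 : O m)) -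
      (tb D (q.2.1 : O m) - tb D (q.2.2 : O m)) then (1 : ℝ) else 0) ≤
      ∑ p : F × F, a * (100 * k ^ 2 * b + if ∀ f : ℕ, f ∣ D' →
        (f : O m) ∣ tb D (p.1 : O m) - tb D (p.2 : O m) → f ^ 4 ≤ D' then (0 : ℝ) else 1) := by
    rw [Fintype.sum_prod_type_right]
    refine Finset.sum_le_sum fun p _ => ?_
    have := two fun δ δ' => if (D' : O m) ∣ (tb D δ - tb D δ') -
      (tb D (p.1 : O m) - tb D (p.2 : O m)) then (1 : ℝ) else 0
    exact this.le.trans (fix_FLQuad hS h D D' hD1 hD hd h1 _)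
  have s2 : ∑ p : F × F, (if ∀ f : ℕ, f ∣ D' →
        (f : O m) ∣ tb D (p.1 : O m) - tb D (p.2 : O m) → f ^ 4 ≤ D' then (0 : ℝ) else 1) ≤
      F.card * (10 * k ^ 5 * b * F.card) := by
    have := two fun δ δ' => if ∀ f : ℕ, f ∣ D' →
        (f : O m) ∣ tb D δ - tb D δ' → f ^ 4 ≤ D' then (0 : ℝ) else 1
    refine this.le.trans ?_
    rw [Finset.sum_comm]
    refine (Finset.sum_le_sum fun δ' _ => bad_FLQuad hS h D D' hD1 hD hd (tb D δ')).trans ?_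
    rw [Finset.sum_const, nsmul_eq_mul]
  rw [← Finset.mul_sum, Finset.sum_add_distrib, Finset.sum_const, nsmul_eq_mul] at s1
  have c1 : ((univ : Finset (F × F)).card : ℝ) = F.card * F.card := by
    simp
  have c2 : (Fintype.card ((F × F) × (F × F)) : ℝ) = F.card * F.card * (F.card * F.card) := by
    simp
  rw [c1] at s1
  rw [Fintype.expect_eq_sum_div_card, c2, div_le_iff₀ (by positivity)]
  have s4 : (D' : ℝ) ^ (-999 / 1000 : ℝ) * b ≤ (D' : ℝ) ^ (-111 / 100 : ℝ) := by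
    rw [hb, ← Real.rpow_add (by linarith)]
    exact Real.rpow_le_rpow_of_exponent_le hE (by norm_num)
  have s5 : 10 * k ^ 4 * (100 * k ^ 2 + 10 * k ^ 5) ≤ 2000 * k ^ 9 := by
    have : k ^ 6 ≤ k ^ 9 := pow_le_pow_right₀ hk1 (by norm_num)
    have : 0 ≤ k ^ 9 := by positivity
    nlinarith
  calc _ ≤ a * (F.card * F.card * (100 * k ^ 2 * b) + F.card * (10 * k ^ 5 * b * F.card)) :=
        s1.trans (by gcongr)
    _ = 10 * k ^ 4 * (100 * k ^ 2 + 10 * k ^ 5) * ((D' : ℝ) ^ (-999 / 1000 : ℝ) * b) *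
        (F.card * F.card * (F.card * F.card)) := by rw [ha]; ring
    _ ≤ _ := by gcongr

end Pool.Agent.P.MP_b75a1e_co.EG
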