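import Pool.Agent.P.MP_b75a1e_co.FLCount
import Pool.Agent.P.MP_b75a1e_co.EGCollX

set_option autoImplicit false

open Finset
open scoped BigOperators ComplexConjugate

namespace Pool.Agent.P.MP_b75a1e_co.EG

variable {m y J : ℕ} {k : ℝ} {F : Finset (O m)}

theorem gcd_FLQuad0 (m D g : ℕ) (hm : 1 ≤ m) (hD : 1 ≤ D) (v0 v1 j : ℤ) (hg : g ∣ D)
    (h0 : (g : ℤ) ∣ 4 * m ^ 3 * j ^ 2 * v0) (h1 : (g : ℤ) ∣ 4 * m ^ 3 * j ^ 2 * v1)
    (hV : ∀ f : ℕ, f ∣ D → (f : ℤ) ∣ v0 → (f : ℤ) ∣ v1 → f ^ 4 ≤ D) :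
    ∃ f : ℕ, f ^ 4 ≤ D ∧ g ≤ f * (4 * m ^ 3 * Nat.gcd j.natAbs D ^ 2) := by
  have hg0 : 0 < g := Nat.pos_of_dvd_of_pos hg hD
  set T : ℕ := 4 * m ^ 3 * j.natAbs ^ 2 with hT
  have hT' : (T : ℤ) = 4 * m ^ 3 * j ^ 2 := by
    rw [hT]; push_cast; rw [sq_abs]
  have hd : 0 < Nat.gcd g T := Nat.gcd_pos_of_pos_left _ hg0
  obtain ⟨f, hf⟩ := Nat.gcd_dvd_left g T
  obtain ⟨T', hT2⟩ := Nat.gcd_dvd_right g T
  have hc : Nat.Coprime f T' := by
    have := Nat.coprime_div_gcd_div_gcd hd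
    rwa [Nat.div_eq_of_eq_mul_right hd hf, Nat.div_eq_of_eq_mul_right hd hT2] at this
  have key : ∀ v : ℤ, (g : ℤ) ∣ 4 * m ^ 3 * j ^ 2 * v → (f : ℤ) ∣ v := fun v hv => by
    rw [← hT'] at hv
    have e1 : (g : ℤ) = (Nat.gcd g T : ℕ) * f := by exact_mod_cast hf
    have e2 : (T : ℤ) = (Nat.gcd g T : ℕ) * T' := by exact_mod_cast hT2
    generalize Nat.gcd g T = d at e1 e2 hd
    rw [e1, e2, mul_assoc] at hv
    exact (Nat.isCoprime_iff_coprime.2 hc).dvd_of_dvd_mul_left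
      ((mul_dvd_mul_iff_left (by exact_mod_cast hd.ne')).1 hv)
  refine ⟨f, hV f ((Dvd.intro_left _ hf.symm).trans hg) (key _ h0) (key _ h1), ?_⟩
  have hG : 0 < Nat.gcd j.natAbs D := Nat.gcd_pos_of_pos_right _ hD
  have h2 : Nat.gcd g T ∣ 4 * m ^ 3 * Nat.gcd j.natAbs D ^ 2 := by
    have a1 : Nat.gcd g T ∣ D := (Nat.gcd_dvd_left g T).trans hg
    have a2 : Nat.gcd g T ∣ 4 * m ^ 3 * j.natAbs ^ 2 := Nat.gcd_dvd_right g T
    generalize Nat.gcd g T = d at a1 a2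
    have a3 : d ∣ 4 * m ^ 3 * j.natAbs * Nat.gcd j.natAbs D := by
      rw [← Nat.gcd_mul_left]
      exact Nat.dvd_gcd (by rwa [mul_assoc _ j.natAbs, ← sq]) (a1.mul_left _)
    rw [sq, ← mul_assoc, ← Nat.gcd_mul_left]
    exact Nat.dvd_gcd (by rwa [mul_right_comm]) (a1.mul_left _)
  have h3 := Nat.le_of_dvd (by positivity) h2
  calc g = Nat.gcd g T * f := hf
    _ ≤ (4 * m ^ 3 * Nat.gcd j.natAbs D ^ 2) * f := Nat.mul_le_mul_right _ h3
    _ = _ := mul_comm _ _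

theorem fib_FLQuad0 (m D len : ℕ) (hm : 1 ≤ m) (hD : 1 ≤ D) (hlen : D ≤ len) (v0 v1 n j : ℤ)
    (hV : ∀ f : ℕ, f ∣ D → (f : ℤ) ∣ v0 → (f : ℤ) ∣ v1 → f ^ 4 ≤ D) (R : ℝ) (hR : 1 ≤ R)
    (hR4 : R ^ 4 = D) :
    (((range len).filter fun t : ℕ => (D : ℤ) ∣ (n + 2 * v0) * t ^ 2 + 4 * m * v1 * (m * j) * t +
      m * (m * j) ^ 2 * (n - 2 * v0)).card : ℝ) ≤ 16 * len * m * Nat.gcd j.natAbs D / R := by
  set g : ℕ := Int.gcd (Int.gcd (n + 2 * v0) (4 * m * v1 * (m * j)))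
    (Int.gcd (m * (m * j) ^ 2 * (n - 2 * v0)) D) with hg
  have d1 : (g : ℤ) ∣ n + 2 * v0 := (Int.gcd_dvd_left _ _).trans (Int.gcd_dvd_left _ _)
  have d2 : (g : ℤ) ∣ 4 * m * v1 * (m * j) := (Int.gcd_dvd_left _ _).trans (Int.gcd_dvd_right _ _)
  have d3 : (g : ℤ) ∣ m * (m * j) ^ 2 * (n - 2 * v0) :=
    (Int.gcd_dvd_right _ _).trans (Int.gcd_dvd_left _ _)
  have d4 : (g : ℤ) ∣ D := (Int.gcd_dvd_right _ _).trans (Int.gcd_dvd_right _ _)
  have d5 : g ∣ D := by exact_mod_cast d4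
  obtain ⟨f, hf, hgf⟩ := gcd_FLQuad0 m D g hm hD v0 v1 j d5
    (((d1.mul_left (m * (m * j) ^ 2)).sub d3).trans (dvd_of_eq (by ring)))
    ((d2.mul_right (m * j)).trans (dvd_of_eq (by ring))) hV
  have hG : 1 ≤ Nat.gcd j.natAbs D := Nat.gcd_pos_of_pos_right _ hD
  generalize Nat.gcd j.natAbs D = G at hG hgf
  have hG' : (1 : ℝ) ≤ G := by exact_mod_cast hG
  have hm' : (1 : ℝ) ≤ m := by exact_mod_cast hm
  have hR0 : 0 < R := by linarith
  have hmG : (1 : ℝ) ≤ m * G := one_le_mul_of_one_le_of_one_le hm' hG'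
  have hfR : (f : ℝ) ≤ R := by
    refine le_of_pow_le_pow_left₀ (n := 4) (by norm_num) hR0.le ?_
    rw [hR4]; exact_mod_cast hf
  have hRD : R ≤ D := by
    rw [← hR4]; exact le_self_pow₀ hR (by norm_num)
  have hl : (D : ℝ) ≤ len := by exact_mod_cast hlen
  obtain ⟨W, hW1, hW2, hW3, hW4⟩ : ∃ W : ℕ, 1 ≤ W ∧ W ^ 3 * g ≤ D ∧ R ≤ 4 * m * G * W ∧
      (W : ℝ) ≤ len := by
    by_cases hc : 1 ≤ R / (2 * m * G)
    · have a1 := Nat.floor_le (le_trans zero_le_one hc)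
      have a2 := Nat.lt_floor_add_one (R / (2 * m * G))
      have a3 : 1 ≤ ⌊R / (2 * m * G)⌋₊ := Nat.le_floor (by exact_mod_cast hc)
      generalize ⌊R / (2 * m * G)⌋₊ = W at a1 a2 a3
      have a4 : (1 : ℝ) ≤ W := by exact_mod_cast a3
      have hp : (0 : ℝ) < 2 * m * G := by positivity
      rw [le_div_iff₀ hp] at a1
      rw [div_lt_iff₀ hp] at a2
      refine ⟨W, a3, ?_, by nlinarith, by nlinarith⟩
      have b1 : (g : ℝ) ≤ f * (4 * m ^ 3 * G ^ 2) := by exact_mod_cast hgf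
      have b2 : ((W : ℝ) * (2 * m * G)) ^ 3 ≤ R ^ 3 := pow_le_pow_left₀ (by positivity) a1 3
      have b3 : (W : ℝ) ^ 3 * g ≤ D := by
        calc (W : ℝ) ^ 3 * g ≤ W ^ 3 * (R * (4 * m ^ 3 * G ^ 2)) := by
              gcongr; exact b1.trans (by gcongr)
          _ ≤ W ^ 3 * (R * (8 * m ^ 3 * G ^ 3)) := by
              gcongr
              · norm_num
              · norm_num
          _ = (W * (2 * m * G)) ^ 3 * R := by ring
          _ ≤ R ^ 3 * R := by gcongr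
          _ = D := by rw [← hR4]; ring
      exact_mod_cast b3
    · have hp : (0 : ℝ) < 2 * m * G := by positivity
      rw [not_le, div_lt_one hp] at hc
      refine ⟨1, le_rfl, by simpa using Nat.le_of_dvd hD d5, by push_cast; nlinarith, ?_⟩
      push_cast; linarith
  have hW0 : (0 : ℝ) < W := by exact_mod_cast hW1
  refine (quad_count len D W _ _ _ hD hW1 hW2).trans ?_
  have c1 : (1 : ℝ) ≤ len / W := (one_le_div hW0).2 hW4
  have c2 : (len : ℝ) / W ≤ 4 * len * m * G / R := by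
    rw [div_le_div_iff₀ hW0 hR0]
    calc (len : ℝ) * R ≤ len * (4 * m * G * W) := by gcongr
      _ = _ := by ring
  calc 2 * ((len : ℝ) / W + 1) ≤ 4 * (len / W) := by linarith
    _ ≤ 4 * (4 * len * m * G / R) := by linarith
    _ = _ := by ring

open Classical in
theorem cnt_quad (hS : Sml m k) (h : Fam m y J k F) (D : ℕ) (h1 : k ^ 1000 ≤ D) (h2 : D ≤ y)
    (V : O m) (hV : ∀ f : ℕ, f ∣ D → (f : O m) ∣ V → f ^ 4 ≤ D) :
    ((F.filter fun δ => (D : ℤ) ∣ V.norm * δ.norm + 2 * (star V * δ ^ 2).re).card : ℝ) ≤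
      100 * k ^ 2 * (D : ℝ) ^ (-12 / 100 : ℝ) * F.card := by
  have hm := hS.m1
  have hk1 : (1 : ℝ) ≤ k := le_trans (by norm_num) hS.k1
  have hD' : (1 : ℝ) ≤ D := (one_le_pow₀ hk1).trans h1
  have hD : 1 ≤ D := by exact_mod_cast hD'
  have hD0 : (0 : ℝ) < D := by linarith
  have hV' : ∀ f : ℕ, f ∣ D → (f : ℤ) ∣ V.re → (f : ℤ) ∣ V.im → f ^ 4 ≤ D := fun f a b c =>
    hV f a ((nat_dvd_iff f V).2 ⟨b, c⟩)
  set R : ℝ := (D : ℝ) ^ (1 / 4 : ℝ) with hR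
  have hR1 : 1 ≤ R := Real.one_le_rpow hD' (by norm_num)
  have hR4 : R ^ 4 = D := by
    rw [hR, ← Real.rpow_natCast, ← Real.rpow_mul hD0.le]; norm_num
  let A : ℤ → Finset ℕ := fun j => (range (2 * y + 1)).filter fun t : ℕ =>
    (D : ℤ) ∣ (V.norm + 2 * V.re) * t ^ 2 + 4 * m * V.im * (m * j) * t +
      m * (m * j) ^ 2 * (V.norm - 2 * V.re)
  let B : ℤ → Finset (O m) := fun j => (A j).image fun t : ℕ => (⟨t, m * j⟩ : O m)
  have hB : ∀ j : ℤ, ((B j).card : ℝ) ≤ 48 * y * m * Nat.gcd j.natAbs D / R := fun j => by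
    have a1 : ((B j).card : ℝ) ≤ (A j).card := by exact_mod_cast card_image_le
    refine a1.trans ((fib_FLQuad0 m D (2 * y + 1) hm hD (by omega) _ _ _ j hV' R hR1 hR4).trans ?_)
    have a2 : ((2 * y + 1 : ℕ) : ℝ) ≤ 3 * y := by exact_mod_cast (by omega : 2 * y + 1 ≤ 3 * y)
    calc 16 * ((2 * y + 1 : ℕ) : ℝ) * m * Nat.gcd j.natAbs D / R
        ≤ 16 * (3 * y) * m * Nat.gcd j.natAbs D / R := by gcongr
      _ = _ := by ring
  have hsub : (F.filter fun δ => (D : ℤ) ∣ V.norm * δ.norm + 2 * (star V * δ ^ 2).re) ⊆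
      (Icc 1 J).biUnion fun j : ℕ => B j ∪ B (-j) := fun δ hδ => by
    obtain ⟨hF, hd⟩ := mem_filter.1 hδ
    obtain ⟨b1, b2, ⟨j, hj⟩, b4⟩ := h.box δ hF
    have b5 := h.im_ne hF
    have hm' : (0 : ℤ) < m := by exact_mod_cast hm
    have hj0 : j ≠ 0 := fun e => b5 (by rw [hj, e, mul_zero])
    have hjJ : |j| ≤ J := by
      rw [hj, abs_mul, abs_of_pos hm'] at b4
      exact le_of_mul_le_mul_left b4 hm'
    have hx : ((δ.re.toNat : ℕ) : ℤ) = δ.re := Int.toNat_of_nonneg (by omega)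
    have hmem : δ ∈ B j := by
      refine mem_image.2 ⟨δ.re.toNat, mem_filter.2 ⟨mem_range.2 (by omega), ?_⟩, ?_⟩
      · rw [hx]
        convert hd using 1
        rw [norm_eq δ, ← hj]
        simp [Zsqrtd.re_mul, Zsqrtd.im_mul, sq]
        ring
      · ext <;> simp [hj]
        omega
    rw [← Int.natCast_natAbs] at hjJ
    refine mem_biUnion.2 ⟨j.natAbs, mem_Icc.2 ⟨by omega, by omega⟩, mem_union.2 ?_⟩
    rcases Int.natAbs_eq j with e | e
    · exact Or.inl (e ▸ hmem)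
    · exact Or.inr (e ▸ hmem)
  have s1 : ((F.filter fun δ => (D : ℤ) ∣ V.norm * δ.norm + 2 * (star V * δ ^ 2).re).card : ℝ) ≤
      ∑ j ∈ Icc 1 J, (((B (j : ℕ)).card : ℝ) + (B (-(j : ℕ))).card) := by
    exact_mod_cast (card_le_card hsub).trans
      (card_biUnion_le.trans (sum_le_sum fun j _ => card_union_le _ _))
  have s2 : ∑ j ∈ Icc 1 J, (((B (j : ℕ)).card : ℝ) + (B (-(j : ℕ))).card) ≤
      ∑ j ∈ Icc 1 J, 96 * y * m / R * (Nat.gcd j D : ℝ) := sum_le_sum fun j _ => by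
    have a1 := hB j
    have a2 := hB (-j)
    rw [Int.natAbs_neg] at a2
    rw [Int.natAbs_natCast] at a1 a2
    calc _ ≤ 48 * y * m * (Nat.gcd j D : ℝ) / R + 48 * y * m * (Nat.gcd j D : ℝ) / R :=
          add_le_add a1 a2
      _ = _ := by ring
  rw [← mul_sum] at s2
  have s3 := gcd_sum D J hD
  have s4 := hS.tau D hD
  set E : ℝ := (D : ℝ) ^ (1 / 1000 : ℝ) with hE
  have hE0 : 0 < E := Real.rpow_pos_of_pos hD0 _
  have hkE : k ≤ E := by
    refine le_of_pow_le_pow_left₀ (n := 1000) (by norm_num) hE0.le ?_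
    rw [hE, ← Real.rpow_natCast ((D : ℝ) ^ (1 / 1000 : ℝ)), ← Real.rpow_mul hD0.le]
    norm_num
    exact h1
  have hER : E * E / R ≤ (D : ℝ) ^ (-12 / 100 : ℝ) := by
    rw [hE, hR, ← Real.rpow_add hD0, ← Real.rpow_sub hD0]
    exact Real.rpow_le_rpow_of_exponent_le hD' (by norm_num)
  have hk0 : 0 ≤ k := by linarith
  have hR0 : 0 < R := by linarith
  have hmk := hS.mk'
  have hb : (y : ℝ) * J ≤ E * F.card := h.big.trans (by gcongr)
  calc _ ≤ 96 * y * m / R * (D.divisors.card * J) :=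
        s1.trans (s2.trans (by gcongr))
    _ = 96 * m * D.divisors.card * (y * J) / R := by ring
    _ ≤ 100 * k * (k * E) * (E * F.card) / R := by
        refine div_le_div_of_nonneg_right (mul_le_mul (mul_le_mul (mul_le_mul (by norm_num) hmk
          (by positivity) (by positivity)) s4 (by positivity) (by positivity)) hb (by positivity)
          (by positivity)) hR0.le
    _ = 100 * k ^ 2 * (E * E / R) * F.card := by ring
    _ ≤ _ := by gcongr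

end Pool.Agent.P.MP_b75a1e_co.EG
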