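import Mathlib

set_option autoImplicit false

open Finset Polynomial
open scoped BigOperators

namespace Pool.Agent.P.MP_b75a1e_co.EG

theorem one_FLStep0 (l : ℕ) [Fact l.Prime] (hl : l ≠ 2) (A : Finset (ZMod l)) (hA : A.Nonempty)
    (h0 : (0 : ZMod l) ∉ A) (b : ℕ) (hb : 2 * b + A.card ≤ l + 1) (r s : (ZMod l)[X])
    (hr : r.degree < b) (hs : s.degree < b)
    (h : X ^ l ∣ r + s * (∏ a ∈ A, (X + C a)) ^ (l / 2)) : r = 0 ∧ s = 0 := by
  classical
  have hp : l.Prime := Fact.out
  have hodd : 2 * (l / 2) + 1 = l := by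
    have := hp.eq_two_or_odd
    omega
  set f : (ZMod l)[X] := ∏ a ∈ A, (X + C a) with hf
  have hfm : f.Monic := monic_prod_of_monic _ _ fun a _ => monic_X_add_C a
  have hfd : f.natDegree = A.card := by
    rw [hf, natDegree_prod_of_monic _ _ fun a _ => monic_X_add_C a]
    simp
  have hf0 : f.coeff 0 ≠ 0 := by
    rw [coeff_zero_eq_eval_zero, hf, eval_prod]
    refine prod_ne_zero_iff.2 fun a ha => ?_
    have : a ≠ 0 := fun e => h0 (e ▸ ha)
    simpa using this
  have hcard : 1 ≤ A.card := hA.card_pos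
  have hfl : X ^ l ∣ f ^ l - C (f.coeff 0) ^ l := by
    have e : f = X * f.divX + C (f.coeff 0) := (X_mul_divX_add f).symm
    have e2 : f ^ l = (X * f.divX) ^ l + C (f.coeff 0) ^ l := by
      conv_lhs => rw [e]
      exact add_pow_char _ _ l
    rw [e2, add_sub_cancel_right, mul_pow]
    exact dvd_mul_right _ _
  have hd : X ^ l ∣ r ^ 2 * f - s ^ 2 * C (f.coeff 0) ^ l := by
    have e : r ^ 2 * f - s ^ 2 * C (f.coeff 0) ^ l
        = (r + s * f ^ (l / 2)) * ((r - s * f ^ (l / 2)) * f)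
          + s ^ 2 * (f ^ l - C (f.coeff 0) ^ l) := by
      have e3 : f ^ l = f ^ (l / 2) * f ^ (l / 2) * f := by
        rw [← pow_add, ← pow_succ]
        exact congrArg (fun k => f ^ k) (by omega)
      rw [e3]
      ring
    rw [e]
    exact dvd_add (dvd_mul_of_dvd_left h _) (dvd_mul_of_dvd_right hfl _)
  rcases Nat.eq_zero_or_pos b with hb0 | hb0
  · subst hb0
    constructor
    · by_contra hne
      rw [degree_eq_natDegree hne] at hr
      exact absurd (by exact_mod_cast hr : r.natDegree < 0) (Nat.not_lt_zero _)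
    · by_contra hne
      rw [degree_eq_natDegree hne] at hs
      exact absurd (by exact_mod_cast hs : s.natDegree < 0) (Nat.not_lt_zero _)
  have hr' : r.natDegree < b := by
    by_cases e : r = 0
    · rw [e, natDegree_zero]; exact hb0
    · exact (natDegree_lt_iff_degree_lt e).2 hr
  have hs' : s.natDegree < b := by
    by_cases e : s = 0
    · rw [e, natDegree_zero]; exact hb0
    · exact (natDegree_lt_iff_degree_lt e).2 hs
  have hdeg : (r ^ 2 * f - s ^ 2 * C (f.coeff 0) ^ l).natDegree < l := by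
    have a1 : (r ^ 2 * f).natDegree ≤ 2 * r.natDegree + A.card := by
      refine natDegree_mul_le.trans ?_
      rw [hfd]
      exact Nat.add_le_add_right natDegree_pow_le _
    have a2 : (s ^ 2 * C (f.coeff 0) ^ l).natDegree ≤ 2 * s.natDegree := by
      rw [← C_pow]
      refine natDegree_mul_le.trans ?_
      rw [natDegree_C, add_zero]
      exact natDegree_pow_le
    have a3 := natDegree_sub_le (r ^ 2 * f) (s ^ 2 * C (f.coeff 0) ^ l)
    have a4 : max (r ^ 2 * f).natDegree (s ^ 2 * C (f.coeff 0) ^ l).natDegree < l :=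
      max_lt (by omega) (by omega)
    omega
  have hz : r ^ 2 * f - s ^ 2 * C (f.coeff 0) ^ l = 0 :=
    eq_zero_of_dvd_of_natDegree_lt hd (by rw [natDegree_X_pow]; exact hdeg)
  have hz' : r ^ 2 * f = s ^ 2 * C (f.coeff 0 ^ l) := by
    rw [C_pow]; exact sub_eq_zero.1 hz
  have hC : (C (f.coeff 0 ^ l) : (ZMod l)[X]) ≠ 0 := C_ne_zero.2 (pow_ne_zero _ hf0)
  have hr0 : r = 0 := by
    by_contra hne
    obtain ⟨a, ha⟩ := hA
    have hL : r ^ 2 * f ≠ 0 := mul_ne_zero (pow_ne_zero _ hne) hfm.ne_zero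
    have hR : s ^ 2 * C (f.coeff 0 ^ l) ≠ 0 := hz' ▸ hL
    have hs0 : s ≠ 0 := fun e => hR (by rw [e]; ring)
    have m1 : rootMultiplicity (-a) f = 1 := by
      have e : f = (X - C (-a)) * ∏ c ∈ A.erase a, (X + C c) := by
        rw [hf, ← mul_prod_erase A _ ha, C_neg, sub_neg_eq_add]
      have hne2 : (X - C (-a)) * ∏ c ∈ A.erase a, (X + C c) ≠ 0 := e ▸ hfm.ne_zero
      rw [e, rootMultiplicity_mul hne2, rootMultiplicity_X_sub_C_self,
        rootMultiplicity_eq_zero]
      rw [IsRoot.def, eval_prod]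
      refine prod_ne_zero_iff.2 fun c hc => ?_
      have hca : c ≠ a := (mem_erase.1 hc).1
      simp only [eval_add, eval_X, eval_C]
      intro e
      exact hca (by linear_combination e)
    have m2 := congrArg (rootMultiplicity (-a)) hz'
    rw [rootMultiplicity_mul hL, rootMultiplicity_mul hR, m1, rootMultiplicity_C, pow_two, pow_two,
      rootMultiplicity_mul (mul_ne_zero hne hne), rootMultiplicity_mul (mul_ne_zero hs0 hs0)] at m2
    omega
  refine ⟨hr0, ?_⟩
  rw [hr0] at hz'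
  have : s ^ 2 * C (f.coeff 0 ^ l) = 0 := by rw [← hz']; ring
  exact pow_eq_zero_iff (two_ne_zero) |>.1 ((mul_eq_zero.1 this).resolve_right hC)

theorem step_ne (l : ℕ) [Fact l.Prime] (hl : l ≠ 2) (A : Finset (ZMod l)) (hA : A.Nonempty)
    (h0 : (0 : ZMod l) ∉ A) (b : ℕ) (hb : 2 * b + A.card ≤ l + 1) (J : ℕ) (r s : ℕ → (ZMod l)[X])
    (hr : ∀ j, (r j).degree < b) (hs : ∀ j, (s j).degree < b)
    (h : ∑ j ∈ range J, (r j + s j * (∏ a ∈ A, (X + C a)) ^ (l / 2)) * X ^ (j * l) = 0) :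
    ∀ j < J, r j = 0 ∧ s j = 0 := by
  induction J generalizing r s with
  | zero => intro j hj; exact absurd hj (Nat.not_lt_zero _)
  | succ J ih =>
    rw [sum_range_succ'] at h
    have e : ∑ j ∈ range J,
        (r (j + 1) + s (j + 1) * (∏ a ∈ A, (X + C a)) ^ (l / 2)) * X ^ ((j + 1) * l)
        = X ^ l * ∑ j ∈ range J,
          (r (j + 1) + s (j + 1) * (∏ a ∈ A, (X + C a)) ^ (l / 2)) * X ^ (j * l) := by
      rw [mul_sum]
      refine sum_congr rfl fun j _ => ?_
      rw [add_mul j 1 l, one_mul, pow_add]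
      ring
    rw [e, zero_mul, pow_zero, mul_one] at h
    have hd : X ^ l ∣ r 0 + s 0 * (∏ a ∈ A, (X + C a)) ^ (l / 2) := by
      rw [eq_neg_of_add_eq_zero_right h]
      exact (dvd_mul_right _ _).neg_right
    have h00 := one_FLStep0 l hl A hA h0 b hb (r 0) (s 0) (hr 0) (hs 0) hd
    rw [h00.1, h00.2, zero_mul, add_zero, add_zero] at h
    have h1 := (mul_eq_zero.1 h).resolve_left (pow_ne_zero _ X_ne_zero)
    have ih' := ih (fun j => r (j + 1)) (fun j => s (j + 1)) (fun j => hr _) (fun j => hs _) h1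
    intro j hj
    rcases j with _ | j
    · exact h00
    · exact ih' j (Nat.lt_of_succ_lt_succ hj)

end Pool.Agent.P.MP_b75a1e_co.EG
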