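import Pool.Agent.P.MP_b75a1e_co.FLStep0

set_option autoImplicit false

open Finset Polynomial
open scoped BigOperators

namespace Pool.Agent.P.MP_b75a1e_co.EG

theorem deg_mul_lt_FLStepA {F : Type} [Field F] (p q : F[X]) (B d : ℕ) (hp : p.degree < B)
    (hq : q.natDegree ≤ d) : (q * p).degree < (B + d : ℕ) := by
  by_cases h0 : p = 0
  · rw [h0, mul_zero, degree_zero]
    exact WithBot.bot_lt_coe _
  have h1 : p.natDegree < B := (natDegree_lt_iff_degree_lt h0).2 hp
  have h2 : (q * p).natDegree < B + d := natDegree_mul_le.trans_lt (by omega)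
  exact degree_le_natDegree.trans_lt (by exact_mod_cast h2)

theorem step_deriv {F : Type} [Field F] (f : F[X]) (n k : ℕ) (hk : k ≤ n) :
    ∃ T : F[X] →ₗ[F] F[X], (∀ r, derivative^[k] (f ^ n * r) = f ^ (n - k) * T r) ∧
      ∀ (r : F[X]) (b : ℕ), r.degree < b → (T r).degree < (b + k * f.natDegree : ℕ) := by
  induction k with
  | zero => exact ⟨LinearMap.id, fun r => by simp, fun r b h => by simpa using h⟩
  | succ k ih =>
    obtain ⟨T, h1, h2⟩ := ih (by omega)
    obtain ⟨m, hm⟩ : ∃ m, n - k = m + 1 := ⟨n - k - 1, by omega⟩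
    have hm' : n - (k + 1) = m := by omega
    refine ⟨(LinearMap.mulLeft F (C ((m + 1 : ℕ) : F) * derivative f)).comp T +
      (LinearMap.mulLeft F f).comp (derivative.comp T), fun r => ?_, fun r b hb => ?_⟩
    · rw [Function.iterate_succ_apply', h1, hm, hm', derivative_mul, derivative_pow_succ]
      simp only [LinearMap.add_apply, LinearMap.comp_apply, LinearMap.mulLeft_apply]
      push_cast
      ring
    · simp only [LinearMap.add_apply, LinearMap.comp_apply, LinearMap.mulLeft_apply]
      have e : b + (k + 1) * f.natDegree = b + k * f.natDegree + f.natDegree := by ring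
      rw [e]
      refine (degree_add_le _ _).trans_lt (max_lt ?_ ?_)
      · refine deg_mul_lt_FLStepA _ _ _ _ (h2 r b hb) ?_
        exact (natDegree_C_mul_le _ _).trans ((natDegree_derivative_le f).trans (Nat.sub_le _ _))
      · exact deg_mul_lt_FLStepA _ _ _ _ (degree_derivative_le.trans_lt (h2 r b hb)) le_rfl

theorem iter_deriv_mul_FLStepA {F : Type} [Field F] (q : F[X]) (hq : derivative q = 0) (k : ℕ)
    (p : F[X]) : derivative^[k] (p * q) = derivative^[k] p * q := by
  induction k with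
  | zero => rfl
  | succ k ih =>
    rw [Function.iterate_succ_apply', ih, derivative_mul, hq, mul_zero, add_zero,
      Function.iterate_succ_apply']

theorem step_aux (l : ℕ) [Fact l.Prime] (f : (ZMod l)[X]) (a : ZMod l) (c t J b : ℕ)
    (h : t * (b + t * f.natDegree + J) < 2 * J * b) :
    ∃ r s : ℕ → (ZMod l)[X], (∀ j, (r j).degree < b) ∧ (∀ j, (s j).degree < b) ∧
      (∃ j < J, r j ≠ 0 ∨ s j ≠ 0) ∧ ∀ k < t, ∀ x : ZMod l, (f.eval x = 0 ∨ f.eval x ^ c = a) →
        (derivative^[k] (f ^ t * ∑ j ∈ range J, (r j + s j * f ^ c) * X ^ (j * l))).eval x = 0 := by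
  classical
  choose T hT1 hT2 using fun k : Fin t => step_deriv f t k k.2.le
  choose T' hT1' hT2' using fun k : Fin t => step_deriv f (t + c) k (by have := k.2; omega)
  set N := b + t * f.natDegree + J with hN
  let σ : Fin t → ((Fin J → degreeLT (ZMod l) b) × (Fin J → degreeLT (ZMod l) b)) →ₗ[ZMod l]
      (ZMod l)[X] := fun k => ∑ j : Fin J, (LinearMap.mulRight (ZMod l) (X ^ (j : ℕ))).comp
        (((T k).comp ((degreeLT (ZMod l) b).subtype.comp
            ((LinearMap.proj j).comp (LinearMap.fst _ _ _)))) +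
          a • ((T' k).comp ((degreeLT (ZMod l) b).subtype.comp
            ((LinearMap.proj j).comp (LinearMap.snd _ _ _)))))
  have hσ : ∀ k v, σ k v = ∑ j : Fin J, (T k (v.1 j) + C a * T' k (v.2 j)) * X ^ (j : ℕ) := by
    intro k v
    simp only [σ, LinearMap.sum_apply, LinearMap.comp_apply, LinearMap.add_apply,
      LinearMap.smul_apply, LinearMap.mulRight_apply, LinearMap.proj_apply, LinearMap.fst_apply,
      LinearMap.snd_apply, Submodule.subtype_apply, smul_eq_C_mul]
  let Φ : ((Fin J → degreeLT (ZMod l) b) × (Fin J → degreeLT (ZMod l) b)) →ₗ[ZMod l]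
      (Fin t → Fin N → ZMod l) :=
    LinearMap.pi fun k => LinearMap.pi fun i => (lcoeff (ZMod l) (i : ℕ)).comp (σ k)
  have : Module.Finite (ZMod l) (degreeLT (ZMod l) b) :=
    Module.Finite.equiv (degreeLTEquiv (ZMod l) b).symm
  have hb : Module.finrank (ZMod l) (degreeLT (ZMod l) b) = b := by
    rw [(degreeLTEquiv (ZMod l) b).finrank_eq, Module.finrank_fin_fun]
  have hlt : Module.finrank (ZMod l) (Fin t → Fin N → ZMod l) < Module.finrank (ZMod l)
      ((Fin J → degreeLT (ZMod l) b) × (Fin J → degreeLT (ZMod l) b)) := by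
    simp only [Module.finrank_prod, Module.finrank_pi_fintype, hb, Module.finrank_self, sum_const,
      card_univ, Fintype.card_fin, smul_eq_mul, mul_one]
    linarith
  obtain ⟨v, hv, hv0⟩ := Submodule.exists_mem_ne_zero_of_ne_bot
    (LinearMap.ker_ne_bot_of_finrank_lt (f := Φ) hlt)
  have hzero : ∀ k, σ k v = 0 := by
    intro k
    have hdeg : (σ k v).degree < (N : ℕ) := by
      rw [hσ]
      refine (degree_sum_le _ _).trans_lt ((Finset.sup_lt_iff (WithBot.bot_lt_coe _)).2 ?_)
      intro j _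
      rw [mul_comm, hN]
      refine deg_mul_lt_FLStepA _ _ _ _ ?_ (by rw [natDegree_X_pow]; exact j.2.le)
      have hk : ((b + k * f.natDegree : ℕ) : WithBot ℕ) ≤ (b + t * f.natDegree : ℕ) := by
        exact_mod_cast Nat.add_le_add_left (Nat.mul_le_mul_right _ k.2.le) _
      refine (degree_add_le _ _).trans_lt (max_lt ?_ ?_)
      · exact (hT2 k _ b (mem_degreeLT.1 (v.1 j).2)).trans_le hk
      · rw [← smul_eq_C_mul]
        exact (degree_smul_le _ _).trans_lt ((hT2' k _ b (mem_degreeLT.1 (v.2 j).2)).trans_le hk)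
    ext i
    rcases lt_or_ge i N with hi | hi
    · exact congrFun (congrFun (LinearMap.mem_ker.1 hv) k) ⟨i, hi⟩
    · exact coeff_eq_zero_of_degree_lt (hdeg.trans_le (by exact_mod_cast hi))
  refine ⟨fun j => if hj : j < J then (v.1 ⟨j, hj⟩ : (ZMod l)[X]) else 0,
    fun j => if hj : j < J then (v.2 ⟨j, hj⟩ : (ZMod l)[X]) else 0, fun j => ?_, fun j => ?_, ?_, ?_⟩
  · beta_reduce
    split_ifs with hj
    · exact mem_degreeLT.1 (v.1 _).2
    · rw [degree_zero]
      exact WithBot.bot_lt_coe _
  · beta_reduce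
    split_ifs with hj
    · exact mem_degreeLT.1 (v.2 _).2
    · rw [degree_zero]
      exact WithBot.bot_lt_coe _
  · by_contra hne
    push Not at hne
    apply hv0
    ext j i
    · have := (hne j j.2).1
      rw [dif_pos j.2] at this
      simp [this]
    · have := (hne j j.2).2
      rw [dif_pos j.2] at this
      simp [this]
  · intro k hk x hx
    have hX : ∀ j : ℕ, derivative (X ^ (j * l) : (ZMod l)[X]) = 0 := by
      intro j
      rw [derivative_X_pow]
      simp
    have hx' : ∀ j : ℕ, x ^ (j * l) = x ^ j := by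
      intro j
      rw [pow_mul, ZMod.pow_card]
    have e1 : derivative^[k] (f ^ t * ∑ j ∈ range J,
        ((if hj : j < J then (v.1 ⟨j, hj⟩ : (ZMod l)[X]) else 0) +
          (if hj : j < J then (v.2 ⟨j, hj⟩ : (ZMod l)[X]) else 0) * f ^ c) * X ^ (j * l)) =
        ∑ j : Fin J, (f ^ (t - k) * T ⟨k, hk⟩ (v.1 j) + f ^ (t + c - k) * T' ⟨k, hk⟩ (v.2 j)) *
          X ^ ((j : ℕ) * l) := by
      rw [mul_sum, iterate_derivative_sum, sum_range]
      refine sum_congr rfl fun j _ => ?_
      rw [dif_pos j.2, dif_pos j.2, ← mul_assoc, iter_deriv_mul_FLStepA _ (hX j), mul_add,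
        iterate_map_add, hT1 ⟨k, hk⟩, mul_comm _ (f ^ c), ← mul_assoc, ← pow_add, hT1' ⟨k, hk⟩]
    rw [e1, eval_finsetSum]
    have e2 : t + c - k = (t - k) + c := by omega
    rcases hx with hx | hx
    · refine sum_eq_zero fun j _ => ?_
      have h1 : t - k ≠ 0 := by omega
      simp [e2, pow_add, hx, h1]
    · have h0 := congrArg (eval x) (hzero ⟨k, hk⟩)
      rw [hσ, eval_finsetSum, eval_zero] at h0
      have e3 : ∀ j : Fin J, eval x ((f ^ (t - k) * T ⟨k, hk⟩ (v.1 j) +
          f ^ (t + c - k) * T' ⟨k, hk⟩ (v.2 j)) * X ^ ((j : ℕ) * l)) = eval x f ^ (t - k) *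
          eval x ((T ⟨k, hk⟩ (v.1 j) + C a * T' ⟨k, hk⟩ (v.2 j)) * X ^ (j : ℕ)) := by
        intro j
        simp only [e2, pow_add, eval_mul, eval_add, eval_pow, eval_X, eval_C, hx, hx']
        ring
      simp only [e3]
      rw [← mul_sum, h0, mul_zero]

end Pool.Agent.P.MP_b75a1e_co.EG
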