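import Pool.Agent.P.MP_b75a1e_co.FLDefs
import Pool.Agent.P.MP_b75a1e_co.EGT1a
import Pool.Agent.P.MP_ad7a55_nt.SgD

set_option autoImplicit false

open Finset
open scoped BigOperators ComplexConjugate

namespace Pool.Agent.P.MP_b75a1e_co.EG

open MeasureTheory Pool.Agent.EQ in
theorem int_FLTail {q : ℕ} [NeZero q] {χ : DirichletCharacter ℂ q} (hχ : χ ≠ 1) {c : ℝ}
    (hc : 0 < c) :
    IntegrableOn (fun t : ℝ => sgbA χ ⌊t⌋₊ * (t : ℂ) ^ (-((1 : ℂ) + 1))) (Set.Ioi c) := by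
  have hm : Measurable fun t : ℝ => sgbA χ ⌊t⌋₊ :=
    (measurable_of_countable (sgbA χ)).comp Nat.measurable_floor
  have ha : (-((1 : ℂ) + 1)).re < -1 := by
    simp only [Complex.neg_re, Complex.add_re, Complex.one_re]
    norm_num
  exact Integrable.bdd_mul (c := q) (integrableOn_Ioi_cpow_of_lt ha hc) hm.aestronglyMeasurable
    (Filter.Eventually.of_forall fun t => sgb_le_q hχ _)

open MeasureTheory Pool.Agent.EQ in
theorem step_FLTail {q : ℕ} [NeZero q] {χ : DirichletCharacter ℂ q} (hχ : χ ≠ 1) {B : ℕ}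
    (hB : 1 ≤ B) :
    ∫ t in Set.Ioi (B : ℝ), sgbA χ ⌊t⌋₊ * (t : ℂ) ^ (-((1 : ℂ) + 1)) =
      sgbA χ B * (1 / (B : ℂ) - 1 / ((B : ℂ) + 1)) +
        ∫ t in Set.Ioi ((B + 1 : ℕ) : ℝ), sgbA χ ⌊t⌋₊ * (t : ℂ) ^ (-((1 : ℂ) + 1)) := by
  have hB0 : (0 : ℝ) < B := by exact_mod_cast hB
  have hle : (B : ℝ) ≤ ((B + 1 : ℕ) : ℝ) := by exact_mod_cast Nat.le_succ B
  have hI := int_FLTail hχ hB0
  rw [← Set.Ioc_union_Ioi_eq_Ioi hle, setIntegral_union (Set.Ioc_disjoint_Ioi_same)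
    measurableSet_Ioi (hI.mono_set Set.Ioc_subset_Ioi_self)
    (hI.mono_set (Set.Ioi_subset_Ioi hle))]
  congr 1
  rw [integral_Ioc_eq_integral_Ioo,
    setIntegral_congr_fun (g := fun t : ℝ => sgbA χ B * (t : ℂ) ^ (-((1 : ℂ) + 1)))
      measurableSet_Ioo ?_, integral_const_mul, ← integral_Ioc_eq_integral_Ioo,
    ← intervalIntegral.integral_of_le hle, integral_cpow]
  · congr 1
    have h1 : -((1 : ℂ) + 1) + 1 = -1 := by ring
    rw [h1, Complex.cpow_neg_one, Complex.cpow_neg_one]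
    push_cast
    rw [one_div, one_div]
    ring
  · right
    refine ⟨by norm_num, ?_⟩
    rw [Set.uIcc_of_le hle]
    intro h0
    exact absurd h0.1 (not_le.2 hB0)
  · intro t ht
    have h2 : ⌊t⌋₊ = B := by
      rw [Nat.floor_eq_iff (hB0.le.trans ht.1.le)]
      refine ⟨ht.1.le, ?_⟩
      have h3 := ht.2
      push_cast at h3
      exact h3
    simp only [h2]

open MeasureTheory Pool.Agent.EQ in
theorem repr_FLTail {q : ℕ} [NeZero q] {χ : DirichletCharacter ℂ q} (hχ : χ ≠ 1) {B : ℕ}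
    (hB : 1 ≤ B) :
    χ.LFunction 1 - ∑ b ∈ Icc 1 B, χ (b : ZMod q) / b =
      (∫ t in Set.Ioi (B : ℝ), sgbA χ ⌊t⌋₊ * (t : ℂ) ^ (-((1 : ℂ) + 1))) - sgbA χ B / B := by
  induction B, hB using Nat.le_induction with
  | base =>
    rw [sgb_repr hχ (s := 1) (by simp), one_mul]
    simp [sgbA]
  | succ B hB ih =>
    rw [Finset.sum_Icc_succ_top (by omega), ← sub_sub, ih, step_FLTail hχ hB, sgb_succ]
    push_cast
    ring

theorem tail {q : ℕ} [NeZero q] (χ : DirichletCharacter ℂ q) (hχ : χ ≠ 1) (B : ℕ) (hB : 1 ≤ B)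
    (δ θ : ℝ) (hδ : 0 < δ) (h0 : 0 < θ) (h1 : θ ≤ 1)
    (h : ∀ N : ℕ, B ≤ N → ‖∑ n ∈ Icc 1 N, χ (n : ZMod q)‖ ≤ δ * N) :
    ‖χ.LFunction 1 - ∑ b ∈ Icc 1 B, χ (b : ZMod q) / b‖ ≤ δ + δ ^ (1 - θ) * (q : ℝ) ^ θ / θ := by
  have hB1 : (1 : ℝ) ≤ B := by exact_mod_cast hB
  have hB0 : (0 : ℝ) < B := zero_lt_one.trans_le hB1
  have ha : -θ - 1 < -1 := by linarith
  have hC : 0 ≤ δ ^ (1 - θ) * (q : ℝ) ^ θ :=
    mul_nonneg (Real.rpow_nonneg hδ.le _) (Real.rpow_nonneg (Nat.cast_nonneg q) _)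
  rw [repr_FLTail hχ hB, add_comm δ]
  refine (norm_sub_le _ _).trans (add_le_add ?_ ?_)
  · have h2 : ∫ t in Set.Ioi (B : ℝ), (δ ^ (1 - θ) * (q : ℝ) ^ θ) * t ^ (-θ - 1) ≤
        δ ^ (1 - θ) * (q : ℝ) ^ θ / θ := by
      rw [MeasureTheory.integral_const_mul, integral_Ioi_rpow_of_lt ha hB0, mul_div_assoc']
      have h4 : -θ - 1 + 1 = -θ := by ring
      rw [h4, mul_neg, neg_div_neg_eq]
      refine div_le_div_of_nonneg_right (mul_le_of_le_one_right hC ?_) h0.le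
      exact Real.rpow_le_one_of_one_le_of_nonpos hB1 (by linarith)
    refine le_trans ?_ h2
    refine MeasureTheory.norm_integral_le_of_norm_le
      ((integrableOn_Ioi_rpow_of_lt ha hB0).const_mul _) ?_
    filter_upwards [MeasureTheory.ae_restrict_mem measurableSet_Ioi] with t ht
    have ht0 : 0 < t := hB0.trans ht
    rw [norm_mul, Complex.norm_cpow_eq_rpow_re_of_pos ht0]
    have h6 : B ≤ ⌊t⌋₊ := Nat.le_floor (le_of_lt ht)
    have h5 : ‖Pool.Agent.EQ.sgbA χ ⌊t⌋₊‖ ≤ (q : ℝ) ^ θ * (δ * t) ^ (1 - θ) :=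
      Pool.Agent.EQ.sgb_interp (norm_nonneg _) (Pool.Agent.EQ.sgb_le_q hχ _)
        ((h _ h6).trans (mul_le_mul_of_nonneg_left (Nat.floor_le ht0.le) hδ.le)) h0.le h1
    refine (mul_le_mul_of_nonneg_right h5 (Real.rpow_nonneg ht0.le _)).trans (le_of_eq ?_)
    have h7 : (-((1 : ℂ) + 1)).re = -2 := by
      simp only [Complex.neg_re, Complex.add_re, Complex.one_re]
      norm_num
    have h8 : -θ - 1 = (1 - θ) + -2 := by ring
    rw [h7, h8, Real.mul_rpow hδ.le ht0.le, Real.rpow_add ht0]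
    ring
  · rw [norm_div, Complex.norm_natCast, div_le_iff₀ hB0]
    exact h B le_rfl

end Pool.Agent.P.MP_b75a1e_co.EG
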