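import Pool.Agent.P.MP_b75a1e_co.FLDefs
import Pool.Agent.P.MP_b75a1e_co.EGT1a

set_option autoImplicit false

open Finset
open scoped BigOperators ComplexConjugate

namespace Pool.Agent.P.MP_b75a1e_co.EG

theorem split_FLUpper (m a b : ℕ) (h : a.Coprime b) :
    ∑ d ∈ (a * b).divisors, (jacobiSym d m : ℝ) =
      (∑ d ∈ a.divisors, (jacobiSym d m : ℝ)) * ∑ d ∈ b.divisors, (jacobiSym d m : ℝ) := by
  rw [Nat.divisors_mul, Finset.mul_def, Finset.sum_image h.mul_injOn_divisors, Finset.sum_product,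
    Finset.sum_mul_sum]
  refine Finset.sum_congr rfl fun x _ => Finset.sum_congr rfl fun y _ => ?_
  push_cast
  rw [jacobiSym.mul_left]
  push_cast
  rfl

theorem zero_FLUpper (m a b l : ℕ) (hb : 0 < b) (ha : Squarefree a) (hl : l.Prime) (hla : l ∣ a)
    (hJ : jacobiSym l m = -1) : ∑ d ∈ (b ^ 2 * a).divisors, (jacobiSym d m : ℝ) = 0 := by
  obtain ⟨e, b', hb', rfl⟩ := Nat.exists_eq_pow_mul_and_not_dvd hb.ne' l hl.ne_one
  obtain ⟨a', rfl⟩ := hla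
  have ha' : ¬ l ∣ a' := by
    intro h
    have h2 : l * l ∣ l * a' := Nat.mul_dvd_mul_left l h
    exact hl.ne_one (Nat.isUnit_iff.mp (ha l h2))
  have hcop : (l ^ (2 * e + 1)).Coprime (b' ^ 2 * a') := by
    apply Nat.Coprime.pow_left
    apply Nat.Coprime.mul_right
    · exact Nat.Coprime.pow_right _ ((Nat.Prime.coprime_iff_not_dvd hl).mpr hb')
    · exact (Nat.Prime.coprime_iff_not_dvd hl).mpr ha'
  have he : (l ^ e * b') ^ 2 * (l * a') = l ^ (2 * e + 1) * (b' ^ 2 * a') := by ring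
  rw [he, split_FLUpper m _ _ hcop, Nat.sum_divisors_prime_pow hl]
  have h0 : ∑ x ∈ range (2 * e + 1 + 1), (jacobiSym ((l ^ x : ℕ) : ℤ) m : ℝ) = 0 := by
    have h1 : ∀ x ∈ range (2 * e + 1 + 1),
        (jacobiSym ((l ^ x : ℕ) : ℤ) m : ℝ) = (-1 : ℝ) ^ x := by
      intro x _
      push_cast
      rw [jacobiSym.pow_left, hJ]
      push_cast
      rfl
    rw [Finset.sum_congr rfl h1, neg_one_geom_sum, if_pos]
    exact ⟨e + 1, by ring⟩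
  rw [h0, zero_mul]

theorem step_FLUpper (s t : ℝ) (hs : 0 < s) (hst : s ≤ t) (hd : t ^ 2 = s ^ 2 + 1) :
    1 / (t ^ 2 * t) ≤ 2 / s - 2 / t := by
  have ht : 0 < t := lt_of_lt_of_le hs hst
  have h1 : 1 ≤ 2 * t * (t - s) := by nlinarith [sq_nonneg (t - s)]
  have h2 : 2 / s - 2 / t = 2 * (t - s) / (s * t) := by field_simp
  rw [h2, div_le_div_iff₀ (by positivity) (by positivity)]
  have h3 : s * t ≤ t ^ 2 := by nlinarith
  have h4 : t ^ 2 * 1 ≤ t ^ 2 * (2 * t * (t - s)) := by gcongr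
  nlinarith

theorem zeta_FLUpper (X : ℕ) :
    ∑ b ∈ Icc 1 (X + 1), (1 : ℝ) / ((b : ℝ) * Real.sqrt b) ≤ 3 - 2 / Real.sqrt (X + 1 : ℕ) := by
  induction X with
  | zero => norm_num
  | succ k ih =>
    rw [Finset.sum_Icc_succ_top (by omega)]
    have hs : (0 : ℝ) < Real.sqrt (k + 1 : ℕ) := Real.sqrt_pos.mpr (by positivity)
    have hs2 : Real.sqrt (k + 1 : ℕ) ^ 2 = (k + 1 : ℕ) := Real.sq_sqrt (by positivity)
    have ht2 : Real.sqrt (k + 1 + 1 : ℕ) ^ 2 = (k + 1 + 1 : ℕ) := Real.sq_sqrt (by positivity)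
    have hst : Real.sqrt (k + 1 : ℕ) ≤ Real.sqrt (k + 1 + 1 : ℕ) :=
      Real.sqrt_le_sqrt (by push_cast; linarith)
    have hd : Real.sqrt (k + 1 + 1 : ℕ) ^ 2 = Real.sqrt (k + 1 : ℕ) ^ 2 + 1 := by
      rw [hs2, ht2]; push_cast; ring
    have h := step_FLUpper _ _ hs hst hd
    rw [ht2] at h
    linarith

theorem zeta3_FLUpper (X : ℕ) (σ : ℝ) (h1 : 3 / 4 ≤ σ) :
    ∑ b ∈ Icc 1 X, (((b ^ 2 : ℕ) : ℝ)) ^ (-σ) ≤ 3 := by
  have hA : ∑ b ∈ Icc 1 X, (((b ^ 2 : ℕ) : ℝ)) ^ (-σ) ≤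
      ∑ b ∈ Icc 1 X, (1 : ℝ) / ((b : ℝ) * Real.sqrt b) := by
    refine Finset.sum_le_sum fun b hb => ?_
    have hb1 : (1 : ℝ) ≤ b := by exact_mod_cast (Finset.mem_Icc.mp hb).1
    have hb0 : (0 : ℝ) < b := by linarith
    have e1 : (((b ^ 2 : ℕ) : ℝ)) ^ (-σ) = (b : ℝ) ^ (2 * (-σ)) := by
      rw [Real.rpow_mul hb0.le]
      push_cast
      rw [Real.rpow_two]
    have e2 : (1 : ℝ) / ((b : ℝ) * Real.sqrt b) = (b : ℝ) ^ (-(1 + 1 / 2 : ℝ)) := by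
      rw [Real.rpow_neg hb0.le, Real.rpow_add hb0, Real.rpow_one, Real.sqrt_eq_rpow, one_div]
    rw [e1, e2]
    exact Real.rpow_le_rpow_of_exponent_le hb1 (by linarith)
  have hB : ∑ b ∈ Icc 1 X, (1 : ℝ) / ((b : ℝ) * Real.sqrt b) ≤
      ∑ b ∈ Icc 1 (X + 1), (1 : ℝ) / ((b : ℝ) * Real.sqrt b) :=
    Finset.sum_le_sum_of_subset_of_nonneg (Finset.Icc_subset_Icc_right (by omega))
      (fun b _ _ => by positivity)
  have hC := zeta_FLUpper X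
  have hD : (0 : ℝ) ≤ 2 / Real.sqrt (X + 1 : ℕ) := by positivity
  linarith

theorem upper (m X : ℕ) (σ T : ℝ) (h1 : 3 / 4 ≤ σ) (hT0 : 0 ≤ T)
    (hT : ∀ n ∈ Icc 1 X, (n.divisors.card : ℝ) ≤ T) :
    ∑ n ∈ Icc 1 X, ∑ d ∈ n.divisors, (jacobiSym d m : ℝ) ≤ 3 * T * (X : ℝ) ^ σ *
      Real.exp (∑ l ∈ (Icc 1 X).filter (fun l : ℕ => l.Prime ∧ jacobiSym l m ≠ -1), (l : ℝ) ^ (-σ)) := by
  classical
  generalize hP : (Icc 1 X).filter (fun l : ℕ => l.Prime ∧ jacobiSym l m ≠ -1) = P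
  let g : ℕ × Finset ℕ → ℕ := fun q => q.1 ^ 2 * ∏ l ∈ q.2, l
  let G : Finset ℕ := (Icc 1 X ×ˢ P.powerset).image g
  have hσ : 0 ≤ σ := by linarith
  have hX : (0 : ℝ) ≤ (X : ℝ) ^ σ := Real.rpow_nonneg (Nat.cast_nonneg _) _
  have hf : ∀ n : ℕ, (0 : ℝ) ≤ (n : ℝ) ^ (-σ) := fun n => Real.rpow_nonneg (Nat.cast_nonneg _) _
  have hA : ∀ n ∈ Icc 1 X, ∑ d ∈ n.divisors, (jacobiSym d m : ℝ) ≤
      if n ∈ G then T * (X : ℝ) ^ σ * (n : ℝ) ^ (-σ) else 0 := by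
    intro n hn
    obtain ⟨hn1, hnX⟩ := Finset.mem_Icc.mp hn
    split_ifs with hG
    · have hn0 : (0 : ℝ) < n := by exact_mod_cast hn1
      have h2 : ∑ d ∈ n.divisors, (jacobiSym d m : ℝ) ≤ T := by
        refine le_trans ?_ (hT n hn)
        rw [Finset.card_eq_sum_ones]
        push_cast
        refine Finset.sum_le_sum fun d _ => ?_
        rcases jacobiSym.trichotomy (d : ℤ) m with h | h | h <;> rw [h] <;> norm_num
      have h3 : (1 : ℝ) ≤ (X : ℝ) ^ σ * (n : ℝ) ^ (-σ) := by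
        rw [Real.rpow_neg hn0.le, ← div_eq_mul_inv, le_div_iff₀ (Real.rpow_pos_of_pos hn0 _),
          one_mul]
        exact Real.rpow_le_rpow hn0.le (by exact_mod_cast hnX) hσ
      calc _ ≤ T * 1 := by rw [mul_one]; exact h2
        _ ≤ T * ((X : ℝ) ^ σ * (n : ℝ) ^ (-σ)) := by gcongr
        _ = _ := by ring
    · obtain ⟨a, b, ha0, hb0, hab, ha⟩ := Nat.sq_mul_squarefree_of_pos (n := n) hn1
      by_cases hex : ∃ l, l.Prime ∧ l ∣ a ∧ jacobiSym l m = -1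
      · obtain ⟨l, hl, hla, hJ⟩ := hex
        rw [← hab, zero_FLUpper m a b l hb0 ha hl hla hJ]
      · exfalso
        apply hG
        refine Finset.mem_image.mpr ⟨(b, a.primeFactors), ?_, ?_⟩
        · rw [Finset.mem_product]
          constructor
          · refine Finset.mem_Icc.mpr ⟨hb0, le_trans ?_ hnX⟩
            rw [← hab]
            exact Nat.le_of_dvd (by positivity) ⟨b * a, by ring⟩
          · rw [Finset.mem_powerset, ← hP]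
            intro l hl
            have hlp := Nat.prime_of_mem_primeFactors hl
            have hla := Nat.dvd_of_mem_primeFactors hl
            refine Finset.mem_filter.mpr ⟨Finset.mem_Icc.mpr ⟨hlp.pos, le_trans ?_ hnX⟩, hlp,
              fun hJ => hex ⟨l, hlp, hla, hJ⟩⟩
            rw [← hab]
            exact Nat.le_of_dvd (by positivity) (Dvd.dvd.mul_left hla _)
        · show b ^ 2 * ∏ l ∈ a.primeFactors, l = n
          rw [Nat.prod_primeFactors_of_squarefree ha, hab]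
  have hB : ∑ n ∈ G, (n : ℝ) ^ (-σ) ≤ 3 * Real.exp (∑ l ∈ P, (l : ℝ) ^ (-σ)) := by
    have h2 : ∑ n ∈ G, (n : ℝ) ^ (-σ) ≤
        ∑ q ∈ Icc 1 X ×ˢ P.powerset, ((g q : ℕ) : ℝ) ^ (-σ) :=
      Finset.sum_image_le_of_nonneg (f := fun n : ℕ => (n : ℝ) ^ (-σ)) (fun u _ => hf u)
    have h3 : ∑ q ∈ Icc 1 X ×ˢ P.powerset, ((g q : ℕ) : ℝ) ^ (-σ) =
        (∑ b ∈ Icc 1 X, (((b ^ 2 : ℕ) : ℝ)) ^ (-σ)) * ∏ l ∈ P, (1 + (l : ℝ) ^ (-σ)) := by
      rw [Finset.prod_one_add, Finset.sum_mul_sum, Finset.sum_product]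
      refine Finset.sum_congr rfl fun b _ => Finset.sum_congr rfl fun S _ => ?_
      show (((b ^ 2 * ∏ l ∈ S, l : ℕ)) : ℝ) ^ (-σ) = _
      rw [Nat.cast_mul, Real.mul_rpow (Nat.cast_nonneg _) (Nat.cast_nonneg _), Nat.cast_prod,
        Real.finsetProd_rpow _ _ (fun i _ => Nat.cast_nonneg _)]
    have h4 := Real.prod_one_add_le_exp_sum P (f := fun l : ℕ => (l : ℝ) ^ (-σ)) hf
    have h5 : (0 : ℝ) ≤ ∏ l ∈ P, (1 + (l : ℝ) ^ (-σ)) :=
      Finset.prod_nonneg fun l _ => add_nonneg zero_le_one (hf l)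
    rw [h3] at h2
    exact h2.trans (mul_le_mul (zeta3_FLUpper X σ h1) h4 h5 (by norm_num))
  calc ∑ n ∈ Icc 1 X, ∑ d ∈ n.divisors, (jacobiSym d m : ℝ)
      ≤ ∑ n ∈ Icc 1 X, (if n ∈ G then T * (X : ℝ) ^ σ * (n : ℝ) ^ (-σ) else 0) :=
        Finset.sum_le_sum hA
    _ = ∑ n ∈ (Icc 1 X).filter (fun n => n ∈ G), T * (X : ℝ) ^ σ * (n : ℝ) ^ (-σ) := by
        rw [Finset.sum_filter]
    _ ≤ ∑ n ∈ G, T * (X : ℝ) ^ σ * (n : ℝ) ^ (-σ) :=
        Finset.sum_le_sum_of_subset_of_nonneg (fun n hn => (Finset.mem_filter.mp hn).2)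
          (fun n _ _ => mul_nonneg (mul_nonneg hT0 hX) (hf n))
    _ = T * (X : ℝ) ^ σ * ∑ n ∈ G, (n : ℝ) ^ (-σ) := by rw [Finset.mul_sum]
    _ ≤ T * (X : ℝ) ^ σ * (3 * Real.exp (∑ l ∈ P, (l : ℝ) ^ (-σ))) :=
        mul_le_mul_of_nonneg_left hB (mul_nonneg hT0 hX)
    _ = _ := by ring

end Pool.Agent.P.MP_b75a1e_co.EG
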