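import Pool.Agent.P.MP_b75a1e_co.Dyn

set_option autoImplicit false

namespace Pool.Agent.P.MP_b75a1e_co

section Ring

variable {R : Type} [CommRing R]

/-- Reflection of two vectors `(n1 - μ c1, B1)`, `(n2 - μ c2, B2)` in the line of their sum. -/
def Flip (μ n1 n2 c1 B1 c2 B2 c1' B1' c2' B2' : R) : Prop :=
  ∃ l, l * ((n1 + n2 - μ * (c1 + c2)) ^ 2 + μ * (B1 + B2) ^ 2) =
      2 * (B2 * (n1 - μ * c1) - (n2 - μ * c2) * B1) ∧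
    c1' = c1 + l * (B1 + B2) ∧ B1' = B1 + l * (n1 + n2 - μ * (c1 + c2)) ∧
    c2' = c2 - l * (B1 + B2) ∧ B2' = B2 - l * (n1 + n2 - μ * (c1 + c2))

theorem flip_exists {μ n1 n2 : R} (h : ∀ c B, IsUnit ((n1 + n2 - μ * c) ^ 2 + μ * B ^ 2))
    (c1 B1 c2 B2 : R) : ∃ c1' B1' c2' B2', Flip μ n1 n2 c1 B1 c2 B2 c1' B1' c2' B2' := by
  obtain ⟨v, hv⟩ := (h (c1 + c2) (B1 + B2)).exists_left_inv
  exact ⟨_, _, _, _, 2 * (B2 * (n1 - μ * c1) - (n2 - μ * c2) * B1) * v, by rw [mul_assoc, hv, mul_one],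
    rfl, rfl, rfl, rfl⟩

theorem Flip.map {S : Type} [CommRing S] (f : R →+* S) {μ n1 n2 c1 B1 c2 B2 c1' B1' c2' B2' : R}
    (h : Flip μ n1 n2 c1 B1 c2 B2 c1' B1' c2' B2') :
    Flip (f μ) (f n1) (f n2) (f c1) (f B1) (f c2) (f B2) (f c1') (f B1') (f c2') (f B2') := by
  obtain ⟨l, h1, rfl, rfl, rfl, rfl⟩ := h
  refine ⟨f l, ?_, by simp, by simp, by simp, by simp⟩
  simpa [map_ofNat] using congrArg f h1

theorem Flip.inv {μ n1 n2 c1 B1 c2 B2 c1' B1' c2' B2' : R}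
    (h : Flip μ n1 n2 c1 B1 c2 B2 c1' B1' c2' B2') :
    (n1 - μ * c1') ^ 2 + μ * B1' ^ 2 = (n1 - μ * c1) ^ 2 + μ * B1 ^ 2 ∧
    (n2 - μ * c2') ^ 2 + μ * B2' ^ 2 = (n2 - μ * c2) ^ 2 + μ * B2 ^ 2 ∧
    c1' + c2' = c1 + c2 ∧ B1' + B2' = B1 + B2 := by
  obtain ⟨l, h1, rfl, rfl, rfl, rfl⟩ := h
  exact ⟨by linear_combination l * μ * h1, by linear_combination l * μ * h1, by ring, by ring⟩

theorem flip_ap {μ n1 n2 c1 B1 c2 B2 c1' B1' c2' B2' γ1 β1 δ1 γ2 β2 δ2 : R} (hu : IsUnit (n1 + n2))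
    (h : Flip μ n1 n2 c1 B1 c2 B2 c1' B1' c2' B2') (hc1 : μ ∣ c1 - γ1)
    (hB1 : μ * μ ∣ B1 - (β1 + μ * δ1)) (hc2 : μ ∣ c2 - γ2) (hB2 : μ * μ ∣ B2 - (β2 + μ * δ2))
    {l0 l1 γ1' β1' δ1' γ2' β2' δ2' : R} (e0 : (n1 + n2) ^ 2 * l0 = 2 * (n1 * β2 - n2 * β1))
    (e1 : (n1 + n2) ^ 2 * l1 = 2 * (n1 * δ2 - n2 * δ1) - 2 * (γ1 * β2 - γ2 * β1) -
      l0 * ((β1 + β2) ^ 2 - 2 * (n1 + n2) * (γ1 + γ2)))
    (e2 : γ1' = γ1 + l0 * (β1 + β2)) (e3 : β1' = β1 + l0 * (n1 + n2))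
    (e4 : δ1' = δ1 + (l1 * (n1 + n2) - l0 * (γ1 + γ2))) (e5 : γ2' = γ2 - l0 * (β1 + β2))
    (e6 : β2' = β2 - l0 * (n1 + n2)) (e7 : δ2' = δ2 - (l1 * (n1 + n2) - l0 * (γ1 + γ2))) :
    μ ∣ c1' - γ1' ∧ μ * μ ∣ B1' - (β1' + μ * δ1') ∧ μ ∣ c2' - γ2' ∧ μ * μ ∣ B2' - (β2' + μ * δ2') := by
  obtain ⟨l, h1, rfl, rfl, rfl, rfl⟩ := h
  obtain ⟨r1, hr1⟩ := hc1
  obtain ⟨r2, hr2⟩ := hc2
  obtain ⟨s1, hs1⟩ := hB1
  obtain ⟨s2, hs2⟩ := hB2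
  obtain rfl : c1 = γ1 + μ * r1 := by linear_combination hr1
  obtain rfl : c2 = γ2 + μ * r2 := by linear_combination hr2
  obtain rfl : B1 = β1 + μ * δ1 + μ * μ * s1 := by linear_combination hs1
  obtain rfl : B2 = β2 + μ * δ2 + μ * μ * s2 := by linear_combination hs2
  subst e2 e3 e4 e5 e6 e7
  obtain ⟨c, hc⟩ : ∃ c, c = γ1 + μ * r1 + (γ2 + μ * r2) := ⟨_, rfl⟩
  obtain ⟨B, hB⟩ : ∃ B, B = β1 + μ * δ1 + μ * μ * s1 + (β2 + μ * δ2 + μ * μ * s2) := ⟨_, rfl⟩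
  obtain ⟨K, hK⟩ : ∃ K, K = B ^ 2 - 2 * (n1 + n2) * c + μ * c ^ 2 := ⟨_, rfl⟩
  obtain ⟨ρ, hρ⟩ : ∃ ρ, ρ = 2 * (n1 * s2 - n2 * s1) -
      2 * (γ1 * (δ2 + μ * s2) + r1 * (β2 + μ * δ2 + μ * μ * s2) - γ2 * (δ1 + μ * s1) -
        r2 * (β1 + μ * δ1 + μ * μ * s1)) -
      l0 * ((δ1 + δ2 + μ * (s1 + s2)) * (B + (β1 + β2)) - 2 * (n1 + n2) * (r1 + r2) + c ^ 2) - l1 * K :=
    ⟨_, rfl⟩
  have k1 : (n1 + n2) ^ 2 * (l - l0 - μ * l1) = μ * (μ * ρ - (l - l0 - μ * l1) * K) := by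
    rw [hρ, hK, hB, hc]
    linear_combination h1 - e0 - μ * e1
  obtain ⟨e, he⟩ : μ ∣ l - l0 - μ * l1 := (hu.pow 2).dvd_mul_left.1 ⟨_, k1⟩
  obtain ⟨e', he'⟩ : μ * μ ∣ l - l0 - μ * l1 :=
    (hu.pow 2).dvd_mul_left.1 ⟨ρ - e * K, by rw [k1, he]; ring⟩
  obtain rfl : l = l0 + μ * l1 + μ * μ * e' := by linear_combination he'
  refine ⟨⟨r1 + (l0 * (δ1 + δ2 + μ * (s1 + s2)) + (l1 + μ * e') * B), ?_⟩,
    ⟨s1 + (e' * (n1 + n2) - l0 * (r1 + r2) - (l1 + μ * e') * c), ?_⟩,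
    ⟨r2 - (l0 * (δ1 + δ2 + μ * (s1 + s2)) + (l1 + μ * e') * B), ?_⟩,
    ⟨s2 - (e' * (n1 + n2) - l0 * (r1 + r2) - (l1 + μ * e') * c), ?_⟩⟩
  · rw [hB]; ring
  · rw [hc]; ring
  · rw [hB]; ring
  · rw [hc]; ring

/-- Six successive reflections of three bodies of sizes one, two and six. -/
def Six (μ : R) (x y : Fin 6 → R) : Prop :=
  ∃ c01 B01 c11 B11 c12 B12 c22 B22 c03 B03 c13 B13 c14 B14 c24 B24 c15 B15 : R,
    Flip μ 1 2 (x 0) (x 1) (x 2) (x 3) c01 B01 c11 B11 ∧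
    Flip μ 2 6 c11 B11 (x 4) (x 5) c12 B12 c22 B22 ∧
    Flip μ 1 2 c01 B01 c12 B12 c03 B03 c13 B13 ∧
    Flip μ 2 6 c13 B13 c22 B22 c14 B14 c24 B24 ∧
    Flip μ 1 2 c03 B03 c14 B14 (y 0) (y 1) c15 B15 ∧
    Flip μ 2 6 c15 B15 c24 B24 (y 2) (y 3) (y 4) (y 5)

theorem six_exists {μ : R} (h3 : ∀ c B, IsUnit ((1 + 2 - μ * c) ^ 2 + μ * B ^ 2))
    (h8 : ∀ c B, IsUnit ((2 + 6 - μ * c) ^ 2 + μ * B ^ 2)) (x : Fin 6 → R) : ∃ y, Six μ x y := by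
  obtain ⟨c01, B01, c11, B11, f1⟩ := flip_exists h3 (x 0) (x 1) (x 2) (x 3)
  obtain ⟨c12, B12, c22, B22, f2⟩ := flip_exists h8 c11 B11 (x 4) (x 5)
  obtain ⟨c03, B03, c13, B13, f3⟩ := flip_exists h3 c01 B01 c12 B12
  obtain ⟨c14, B14, c24, B24, f4⟩ := flip_exists h8 c13 B13 c22 B22
  obtain ⟨c05, B05, c15, B15, f5⟩ := flip_exists h3 c03 B03 c14 B14
  obtain ⟨c16, B16, c26, B26, f6⟩ := flip_exists h8 c15 B15 c24 B24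
  exact ⟨![c05, B05, c16, B16, c26, B26], _, _, _, _, _, _, _, _, _, _, _, _, _, _, _, _, _, _,
    f1, f2, f3, f4, f5, f6⟩

theorem Six.map {S : Type} [CommRing S] (f : R →+* S) {μ : R} {x y : Fin 6 → R} (h : Six μ x y) :
    Six (f μ) (fun i => f (x i)) fun i => f (y i) := by
  obtain ⟨_, _, _, _, _, _, _, _, _, _, _, _, _, _, _, _, _, _, f1, f2, f3, f4, f5, f6⟩ := h
  have g1 := f1.map f
  have g2 := f2.map f
  have g3 := f3.map f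
  have g4 := f4.map f
  have g5 := f5.map f
  have g6 := f6.map f
  simp only [map_one, map_ofNat] at g1 g2 g3 g4 g5 g6
  exact ⟨_, _, _, _, _, _, _, _, _, _, _, _, _, _, _, _, _, _, g1, g2, g3, g4, g5, g6⟩

/-- The three lengths and the sum agree. -/
def Inv (μ : R) (x y : Fin 6 → R) : Prop :=
  (1 - μ * y 0) ^ 2 + μ * y 1 ^ 2 = (1 - μ * x 0) ^ 2 + μ * x 1 ^ 2 ∧
  (2 - μ * y 2) ^ 2 + μ * y 3 ^ 2 = (2 - μ * x 2) ^ 2 + μ * x 3 ^ 2 ∧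
  (6 - μ * y 4) ^ 2 + μ * y 5 ^ 2 = (6 - μ * x 4) ^ 2 + μ * x 5 ^ 2 ∧
  y 0 + y 2 + y 4 = x 0 + x 2 + x 4 ∧ y 1 + y 3 + y 5 = x 1 + x 3 + x 5

theorem Six.inv {μ : R} {x y : Fin 6 → R} (h : Six μ x y) : Inv μ x y := by
  obtain ⟨_, _, _, _, _, _, _, _, _, _, _, _, _, _, _, _, _, _, f1, f2, f3, f4, f5, f6⟩ := h
  obtain ⟨a1, b1, c1, d1⟩ := f1.inv
  obtain ⟨a2, b2, c2, d2⟩ := f2.inv
  obtain ⟨a3, b3, c3, d3⟩ := f3.inv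
  obtain ⟨a4, b4, c4, d4⟩ := f4.inv
  obtain ⟨a5, b5, c5, d5⟩ := f5.inv
  obtain ⟨a6, b6, c6, d6⟩ := f6.inv
  exact ⟨by linear_combination a1 + a3 + a5, by linear_combination b1 + a2 + b3 + a4 + b5 + a6,
    by linear_combination b2 + b4 + b6, by linear_combination c1 + c2 + c3 + c4 + c5 + c6,
    by linear_combination d1 + d2 + d3 + d4 + d5 + d6⟩

/-- The second-order term of the six reflections. -/
def Psi (B0 B1 B2 C0 C1 C2 : R) : R :=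
  20 * B0 * B1 * B2 - 438 * B0 * B1 ^ 2 + 2 * B0 * B2 ^ 2 - 1152 * B0 * C0 + 792 * B0 * C1 -
    72 * B0 * C2 + 24 * B0 ^ 2 * B1 - 152 * B0 ^ 2 * B2 + 1056 * B0 ^ 3 - 4 * B1 * B2 ^ 2 +
    73 * B1 ^ 2 * B2 + 192 * B2 * C0 - 132 * B2 * C1 + 12 * B2 * C2 - B2 ^ 3

theorem six_ap {μ j : R} (hj : 6 * j = 1) {x y : Fin 6 → R} (h : Six μ x y) :
    (∀ i, μ ∣ y i - x i) ∧
      μ * μ ∣ 1728 * (y 3 - x 3) - μ * Psi (x 1) (x 3) (x 5) (2 * x 0) (2 * x 2) (2 * x 4) := by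
  obtain ⟨_, _, _, _, _, _, _, _, _, _, _, _, _, _, _, _, _, _, f1, f2, f3, f4, f5, f6⟩ := h
  have h3 : IsUnit (1 + 2 : R) := IsUnit.of_mul_eq_one (2 * j) (by linear_combination hj)
  have h8 : IsUnit (2 + 6 : R) :=
    IsUnit.of_mul_eq_one (27 * j ^ 3) (by linear_combination (36 * j ^ 2 + 6 * j + 1) * hj)
  have hD : ∀ z : R, ∃ b, z = 288 * b := fun z => ⟨z * (27 * j ^ 5), by
    linear_combination (-z * (1296 * j ^ 4 + 216 * j ^ 3 + 36 * j ^ 2 + 6 * j + 1)) * hj⟩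
  have hD2 : ∀ z : R, ∃ b, z = 82944 * b := fun z => by
    obtain ⟨b, hb⟩ := hD z
    obtain ⟨c, hc⟩ := hD b
    exact ⟨c, by rw [hb, hc]; ring⟩
  obtain ⟨g0, hg0⟩ := hD2 (x 0)
  obtain ⟨g1, hg1⟩ := hD2 (x 2)
  obtain ⟨g2, hg2⟩ := hD2 (x 4)
  obtain ⟨b0, hb0⟩ := hD (x 1)
  obtain ⟨b1, hb1⟩ := hD (x 3)
  obtain ⟨b2, hb2⟩ := hD (x 5)
  have hc0_0 : μ ∣ x 0 - 82944 * g0 := by simp [hg0]
  have hc1_0 : μ ∣ x 2 - 82944 * g1 := by simp [hg1]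
  have hc2_0 : μ ∣ x 4 - 82944 * g2 := by simp [hg2]
  have hB0_0 : μ * μ ∣ x 1 - (288 * b0 + μ * 0) := by simp [hb0]
  have hB1_0 : μ * μ ∣ x 3 - (288 * b1 + μ * 0) := by simp [hb1]
  have hB2_0 : μ * μ ∣ x 5 - (288 * b2 + μ * 0) := by simp [hb2]
  obtain ⟨hc0_1, hB0_1, hc1_1, hB1_1⟩ := flip_ap h3 f1 hc0_0 hB0_0 hc1_0 hB1_0
    (l0 := (0 - 128 * b0 + 64 * b1))
    (l1 := (0 - 7077888 * b0 * g0 - 1769472 * b0 * g1 + 1769472 * b0 ^ 2 * b1 + 1179648 * b0 ^ 3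
      - 1769472 * b1 * g0 + 3538944 * b1 * g1 - 589824 * b1 ^ 3))
    (γ1' := (0 - 18432 * b0 * b1 - 36864 * b0 ^ 2 + 18432 * b1 ^ 2 + 82944 * g0))
    (β1' := (0 - 96 * b0 + 192 * b1))
    (δ1' := (0 - 10616832 * b0 * g0 + 5308416 * b0 * g1 + 5308416 * b0 ^ 2 * b1 + 3538944 * b0 ^ 3
      - 10616832 * b1 * g0 + 5308416 * b1 * g1 - 1769472 * b1 ^ 3))
    (γ2' := (18432 * b0 * b1 + 36864 * b0 ^ 2 - 18432 * b1 ^ 2 + 82944 * g1))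
    (β2' := (384 * b0 + 96 * b1))
    (δ2' := (10616832 * b0 * g0 - 5308416 * b0 * g1 - 5308416 * b0 ^ 2 * b1 - 3538944 * b0 ^ 3
      + 10616832 * b1 * g0 - 5308416 * b1 * g1 + 1769472 * b1 ^ 3))
    (by ring) (by ring) (by ring) (by ring) (by ring) (by ring) (by ring) (by ring)
  obtain ⟨hc1_2, hB1_2, hc2_2, hB2_2⟩ := flip_ap h8 f2 hc1_1 hB1_1 hc2_0 hB2_0
    (l0 := (0 - 72 * b0 - 18 * b1 + 18 * b2))
    (l1 := (20736 * b0 * b1 * b2 + 279936 * b0 * b1 ^ 2 + 31104 * b0 * b2 ^ 2 - 1990656 * b0 * g0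
      - 497664 * b0 * g1 - 497664 * b0 * g2 + 622080 * b0 ^ 2 * b1 + 41472 * b0 ^ 2 * b2
      + 165888 * b0 ^ 3 + 7776 * b1 * b2 ^ 2 - 1990656 * b1 * g0 + 622080 * b1 * g1 - 124416 * b1 * g2
      + 95904 * b1 ^ 2 * b2 - 246240 * b1 ^ 3 - 373248 * b2 * g1 + 373248 * b2 * g2 - 23328 * b2 ^ 3))
    (γ1' := (4608 * b0 * b1 - 13824 * b0 * b2 + 9216 * b0 ^ 2 - 3456 * b1 * b2 - 20160 * b1 ^ 2
      + 5184 * b2 ^ 2 + 82944 * g1))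
    (β1' := (0 - 192 * b0 - 48 * b1 + 144 * b2))
    (δ1' := (0 - 165888 * b0 * b1 * b2 + 1244160 * b0 * b1 ^ 2 + 248832 * b0 * b2 ^ 2
      - 5308416 * b0 * g0 - 3317760 * b0 * g1 + 1990656 * b0 * g2 + 1658880 * b0 ^ 2 * b1
      - 331776 * b0 ^ 2 * b2 + 442368 * b0 ^ 3 + 62208 * b1 * b2 ^ 2 - 5308416 * b1 * g0
      + 1161216 * b1 * g1 + 497664 * b1 * g2 + 1099008 * b1 ^ 2 * b2 - 532224 * b1 ^ 3
      - 4478976 * b2 * g1 + 1492992 * b2 * g2 - 186624 * b2 ^ 3))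
    (γ2' := (13824 * b0 * b1 + 13824 * b0 * b2 + 27648 * b0 ^ 2 + 3456 * b1 * b2 + 1728 * b1 ^ 2
      - 5184 * b2 ^ 2 + 82944 * g2))
    (β2' := (576 * b0 + 144 * b1 + 144 * b2))
    (δ2' := (165888 * b0 * b1 * b2 - 1244160 * b0 * b1 ^ 2 - 248832 * b0 * b2 ^ 2 + 15925248 * b0 * g0
      - 1990656 * b0 * g1 - 1990656 * b0 * g2 - 6967296 * b0 ^ 2 * b1 + 331776 * b0 ^ 2 * b2
      - 3981312 * b0 ^ 3 - 62208 * b1 * b2 ^ 2 + 15925248 * b1 * g0 - 6469632 * b1 * g1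
      - 497664 * b1 * g2 - 1099008 * b1 ^ 2 * b2 + 2301696 * b1 ^ 3 + 4478976 * b2 * g1
      - 1492992 * b2 * g2 + 186624 * b2 ^ 3))
    (by ring) (by ring) (by ring) (by ring) (by ring) (by ring) (by ring) (by ring)
  obtain ⟨hc0_3, hB0_3, hc1_3, hB1_3⟩ := flip_ap h3 f3 hc0_1 hB0_1 hc1_2 hB1_2
    (l0 := (0 - 96 * b1 + 32 * b2))
    (l1 := (36864 * b0 * b1 * b2 + 1492992 * b0 * b1 ^ 2 - 55296 * b0 * b2 ^ 2 + 7077888 * b0 * g0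
      - 4866048 * b0 * g1 + 442368 * b0 * g2 - 221184 * b0 ^ 2 * b1 + 516096 * b0 ^ 2 * b2
      - 3244032 * b0 ^ 3 - 96768 * b1 * b2 ^ 2 - 884736 * b1 * g0 - 3870720 * b1 * g1
      + 110592 * b1 * g2 + 59904 * b1 ^ 2 * b2 + 336384 * b1 ^ 3 - 884736 * b2 * g0 + 774144 * b2 * g1
      + 331776 * b2 * g2 - 4608 * b2 ^ 3))
    (γ1' := (9216 * b0 * b1 - 9216 * b0 * b2 - 36864 * b0 ^ 2 - 9216 * b1 * b2 + 4608 * b1 ^ 2
      + 4608 * b2 ^ 2 + 82944 * g0))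
    (β1' := (0 - 96 * b0 - 96 * b1 + 96 * b2))
    (δ1' := (0 - 774144 * b0 * b1 * b2 + 3151872 * b0 * b1 ^ 2 + 276480 * b0 * b2 ^ 2
      + 10616832 * b0 * g0 - 9289728 * b0 * g1 + 1327104 * b0 * g2 + 1990656 * b0 ^ 2 * b1
      + 2433024 * b0 ^ 2 * b2 - 6193152 * b0 ^ 3 + 317952 * b1 * b2 ^ 2 - 5308416 * b1 * g0
      + 1658880 * b1 * g1 + 331776 * b1 * g2 - 96768 * b1 ^ 2 * b2 - 926208 * b1 ^ 3
      - 5308416 * b2 * g0 - 331776 * b2 * g1 + 995328 * b2 * g2 - 179712 * b2 ^ 3))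
    (γ2' := (0 - 23040 * b0 * b1 - 4608 * b0 * b2 + 9216 * b0 ^ 2 + 5760 * b1 * b2 - 6336 * b1 ^ 2
      + 576 * b2 ^ 2 + 82944 * g1))
    (β2' := (0 - 192 * b0 + 240 * b1 + 48 * b2))
    (δ2' := (608256 * b0 * b1 * b2 - 1907712 * b0 * b1 ^ 2 - 27648 * b0 * b2 ^ 2 - 26542080 * b0 * g0
      + 11280384 * b0 * g1 + 663552 * b0 * g2 + 4976640 * b0 ^ 2 * b1 - 2764800 * b0 ^ 2 * b2
      + 10174464 * b0 ^ 3 - 255744 * b1 * b2 ^ 2 - 10616832 * b1 * g0 + 4810752 * b1 * g1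
      + 165888 * b1 * g2 + 1195776 * b1 ^ 2 * b2 - 1375488 * b1 ^ 3 + 5308416 * b2 * g0
      - 4147200 * b2 * g1 + 497664 * b2 * g2 - 6912 * b2 ^ 3))
    (by ring) (by ring) (by ring) (by ring) (by ring) (by ring) (by ring) (by ring)
  obtain ⟨hc1_4, hB1_4, hc2_4, hB2_4⟩ := flip_ap h8 f4 hc1_3 hB1_3 hc2_2 hB2_2
    (l0 := (72 * b0 - 36 * b1))
    (l1 := (20736 * b0 * b1 * b2 + 590976 * b0 * b1 ^ 2 - 72576 * b0 * b2 ^ 2 + 5971968 * b0 * g0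
      - 2239488 * b0 * g1 + 746496 * b0 * g2 - 1617408 * b0 ^ 2 * b1 + 539136 * b0 ^ 2 * b2
      - 1990656 * b0 ^ 3 + 44064 * b1 * b2 ^ 2 + 2985984 * b1 * g0 - 2426112 * b1 * g1
      - 186624 * b1 * g2 - 261792 * b1 ^ 2 * b2 + 567648 * b1 ^ 3 - 995328 * b2 * g0
      + 684288 * b2 * g1 - 62208 * b2 * g2 + 2592 * b2 ^ 3))
    (γ1' := (0 - 9216 * b0 * b1 + 9216 * b0 * b2 + 36864 * b0 ^ 2 - 1152 * b1 * b2 - 20160 * b1 ^ 2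
      + 576 * b2 ^ 2 + 82944 * g1))
    (β1' := (384 * b0 - 48 * b1 + 48 * b2))
    (δ1' := (442368 * b0 * b1 * b2 + 2820096 * b0 * b1 ^ 2 - 276480 * b0 * b2 ^ 2 + 21233664 * b0 * g0
      - 12607488 * b0 * g1 + 663552 * b0 * g2 - 5971968 * b0 ^ 2 * b1 + 884736 * b0 ^ 2 * b2
      - 8404992 * b0 ^ 3 - 69120 * b1 * b2 ^ 2 + 13271040 * b1 * g0 - 11612160 * b1 * g1
      + 1658880 * b1 * g2 - 566784 * b1 ^ 2 * b2 + 2999808 * b1 ^ 3 - 2654208 * b2 * g0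
      + 1327104 * b2 * g1 + 13824 * b2 ^ 3))
    (γ2' := (10368 * b1 * b2 + 15552 * b1 ^ 2 - 5184 * b2 ^ 2 + 82944 * g2))
    (β2' := (432 * b1 + 144 * b2))
    (δ2' := (331776 * b0 * b1 * b2 - 5971968 * b0 * b1 ^ 2 - 31850496 * b0 * g0 + 21897216 * b0 * g1
      - 1990656 * b0 * g2 + 3981312 * b0 ^ 2 * b1 - 3317760 * b0 ^ 2 * b2 + 14598144 * b0 ^ 3
      - 248832 * b1 * b2 ^ 2 - 7962624 * b1 * g0 + 9953280 * b1 * g1 - 1990656 * b1 * g2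
      + 663552 * b1 ^ 2 * b2 - 2073600 * b1 ^ 3 + 7962624 * b2 * g0 - 995328 * b2 * g1
      - 995328 * b2 * g2 + 165888 * b2 ^ 3))
    (by ring) (by ring) (by ring) (by ring) (by ring) (by ring) (by ring) (by ring)
  obtain ⟨hc0_5, hB0_5, hc1_5, hB1_5⟩ := flip_ap h3 f5 hc0_3 hB0_3 hc1_4 hB1_4
    (l0 := (128 * b0 + 32 * b1 - 32 * b2))
    (l1 := (0 - 221184 * b0 * b1 * b2 - 1769472 * b0 * b1 ^ 2 + 147456 * b0 * b2 ^ 2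
      + 6635520 * b0 * g1 - 442368 * b0 * g2 - 3096576 * b0 ^ 2 * b1 + 2064384 * b0 ^ 3
      + 64512 * b1 * b2 ^ 2 + 7962624 * b1 * g0 - 3317760 * b1 * g1 + 221184 * b1 * g2
      - 304128 * b1 ^ 2 * b2 + 1152000 * b1 ^ 3 - 884736 * b2 * g0 + 442368 * b2 * g1
      - 442368 * b2 * g2 + 9216 * b2 ^ 3))
    (γ1' := (82944 * g0))
    (β1' := (288 * b0))
    (δ1' := (0 - 110592 * b0 * b1 * b2 - 165888 * b0 * b1 ^ 2 + 55296 * b0 * b2 ^ 2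
      - 7299072 * b0 ^ 2 * b1 + 2433024 * b0 ^ 2 * b2 + 13824 * b1 * b2 ^ 2 + 15925248 * b1 * g0
      - 10948608 * b1 * g1 + 995328 * b1 * g2 - 1175040 * b1 ^ 2 * b2 + 3027456 * b1 ^ 3
      - 5308416 * b2 * g0 + 3649536 * b2 * g1 - 331776 * b2 * g2 + 13824 * b2 ^ 3))
    (γ2' := (0 - 10368 * b1 * b2 - 15552 * b1 ^ 2 + 5184 * b2 ^ 2 + 82944 * g1))
    (β2' := (0 - 144 * b1 + 144 * b2))
    (δ2' := (0 - 221184 * b0 * b1 * b2 + 6137856 * b0 * b1 ^ 2 - 55296 * b0 * b2 ^ 2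
      + 31850496 * b0 * g0 - 21897216 * b0 * g1 + 1990656 * b0 * g2 + 3317760 * b0 ^ 2 * b1
      + 884736 * b0 ^ 2 * b2 - 14598144 * b0 ^ 3 + 235008 * b1 * b2 ^ 2 - 7962624 * b1 * g0
      + 995328 * b1 * g1 + 995328 * b1 * g2 + 511488 * b1 ^ 2 * b2 - 953856 * b1 ^ 3
      - 2654208 * b2 * g0 - 2654208 * b2 * g1 + 1327104 * b2 * g2 - 179712 * b2 ^ 3))
    (by ring) (by ring) (by ring) (by ring) (by ring) (by ring) (by ring) (by ring)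
  obtain ⟨hc1_6, hB1_6, hc2_6, hB2_6⟩ := flip_ap h8 f6 hc1_5 hB1_5 hc2_4 hB2_4
    (l0 := (54 * b1 - 18 * b2))
    (l1 := (62208 * b0 * b1 * b2 - 1524096 * b0 * b1 ^ 2 + 10368 * b0 * b2 ^ 2 - 7962624 * b0 * g0
      + 5474304 * b0 * g1 - 497664 * b0 * g2 - 373248 * b0 ^ 2 * b1 - 373248 * b0 ^ 2 * b2
      + 3649536 * b0 ^ 3 - 36288 * b1 * b2 ^ 2 + 995328 * b1 * g0 + 435456 * b1 * g1
      + 435456 * b1 * g2 + 62208 * b1 ^ 2 * b2 + 119232 * b1 ^ 3 + 995328 * b2 * g0 - 311040 * b2 * g1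
      - 311040 * b2 * g2 + 20736 * b2 ^ 3))
    (γ1' := (82944 * g1))
    (β1' := (288 * b1))
    (δ1' := (276480 * b0 * b1 * b2 - 6054912 * b0 * b1 ^ 2 + 27648 * b0 * b2 ^ 2 - 31850496 * b0 * g0
      + 21897216 * b0 * g1 - 1990656 * b0 * g2 + 331776 * b0 ^ 2 * b1 - 2101248 * b0 ^ 2 * b2
      + 14598144 * b0 ^ 3 - 55296 * b1 * b2 ^ 2 + 1009152 * b1 ^ 2 * b2 + 5308416 * b2 * g0
      - 3649536 * b2 * g1 + 331776 * b2 * g2 - 13824 * b2 ^ 3))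
    (γ2' := (82944 * g2))
    (β2' := (288 * b2))
    (δ2' := (0 - 165888 * b0 * b1 * b2 + 6220800 * b0 * b1 ^ 2 - 82944 * b0 * b2 ^ 2
      + 31850496 * b0 * g0 - 21897216 * b0 * g1 + 1990656 * b0 * g2 + 6967296 * b0 ^ 2 * b1
      - 331776 * b0 ^ 2 * b2 - 14598144 * b0 ^ 3 + 41472 * b1 * b2 ^ 2 - 15925248 * b1 * g0
      + 10948608 * b1 * g1 - 995328 * b1 * g2 + 165888 * b1 ^ 2 * b2 - 3027456 * b1 ^ 3))
    (by ring) (by ring) (by ring) (by ring) (by ring) (by ring) (by ring) (by ring)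
  have key : ∀ {u v w : R}, μ * μ ∣ u - (v + μ * w) → μ ∣ u - v := fun {u v w} ⟨c, hc⟩ =>
    ⟨μ * c + w, by linear_combination hc⟩
  constructor
  · intro i
    fin_cases i
    · simpa [hg0] using hc0_5
    · simpa [hb0] using key hB0_5
    · simpa [hg1] using hc1_6
    · simpa [hb1] using key hB1_6
    · simpa [hg2] using hc2_6
    · simpa [hb2] using key hB2_6
  · convert hB1_6.mul_left 1728 using 1
    rw [hg0, hg1, hg2, hb0, hb1, hb2, Psi]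
    ring

end Ring

section Padic

variable {p : ℕ} [Fact p.Prime]

theorem unit_add {u v : ℤ_[p]} (hu : IsUnit u) : IsUnit (u + p * v) := by
  by_contra h
  have h1 : u + p * v ∈ IsLocalRing.maximalIdeal ℤ_[p] := h
  have h2 : (p : ℤ_[p]) * v ∈ IsLocalRing.maximalIdeal ℤ_[p] := by
    rw [PadicInt.maximalIdeal_eq_span_p]
    exact Ideal.mul_mem_right _ _ (Ideal.mem_span_singleton_self _)
  have h3 := sub_mem h1 h2
  rw [add_sub_cancel_right] at h3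
  exact h3 hu

/-- Being a rational number. -/
def IsRat (z : ℤ_[p]) : Prop := (z : ℚ_[p]) ∈ (Rat.castHom ℚ_[p]).fieldRange

theorem Flip.isRat {μ n1 n2 c1 B1 c2 B2 c1' B1' c2' B2' : ℤ_[p]}
    (hu : ∀ c B, IsUnit ((n1 + n2 - μ * c) ^ 2 + μ * B ^ 2))
    (h : Flip μ n1 n2 c1 B1 c2 B2 c1' B1' c2' B2') (hμ : IsRat μ) (h1 : IsRat n1) (h2 : IsRat n2)
    (h3 : IsRat c1) (h4 : IsRat B1) (h5 : IsRat c2) (h6 : IsRat B2) :
    IsRat c1' ∧ IsRat B1' ∧ IsRat c2' ∧ IsRat B2' := by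
  obtain ⟨l, e, rfl, rfl, rfl, rfl⟩ := h
  have hne : (((n1 + n2 - μ * (c1 + c2)) ^ 2 + μ * (B1 + B2) ^ 2 : ℤ_[p]) : ℚ_[p]) ≠ 0 :=
    fun h => (hu _ _).ne_zero (PadicInt.coe_eq_zero.1 h)
  have e' := congrArg (fun z : ℤ_[p] => (z : ℚ_[p])) e
  simp only [PadicInt.coe_mul] at e'
  have hl : IsRat l := by
    rw [IsRat, eq_div_of_mul_eq hne e']
    unfold IsRat at *
    have h2' : ((2 : ℤ_[p]) : ℚ_[p]) ∈ (Rat.castHom ℚ_[p]).fieldRange := ofNat_mem _ 2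
    push_cast
    apply_rules [div_mem, mul_mem, sub_mem, add_mem, pow_mem]
  unfold IsRat at *
  push_cast
  refine ⟨?_, ?_, ?_, ?_⟩ <;> apply_rules [mul_mem, sub_mem, add_mem]

theorem fold_infinite (hp : 5 ≤ p) (m : ℤ) (hm : (p : ℤ) ∣ m) (hm0 : m ≠ 0) (x : Fin 6 → ℤ_[p])
    (y : Fin 6 → ℚ) (hxy : ∀ i, (x i : ℚ_[p]) = y i)
    (hΨ : ¬ (p : ℤ_[p]) ∣ Psi (x 1) (x 3) (x 5) (2 * x 0) (2 * x 2) (2 * x 4)) :
    {y' : Fin 6 → ℚ | Inv (m : ℚ) y y'}.Infinite := by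
  have hp' : p.Prime := Fact.out
  obtain ⟨m', rfl⟩ := hm
  have h6 : IsUnit ((6 : ℕ) : ℤ_[p]) := unit_of_not_dvd fun h => by
    have := Nat.le_of_dvd (by norm_num) h
    interval_cases p <;> first | omega | exact absurd hp' (by norm_num)
  obtain ⟨j, hj⟩ := h6.exists_right_inv
  push_cast at hj
  set μ : ℤ_[p] := p * m' with hμ
  have u3 : ∀ c B : ℤ_[p], IsUnit ((1 + 2 - μ * c) ^ 2 + μ * B ^ 2) := fun c B => by
    have : IsUnit (9 : ℤ_[p]) :=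
      IsUnit.of_mul_eq_one (4 * j ^ 2) (by linear_combination (6 * j + 1) * hj)
    convert unit_add (v := (m' : ℤ_[p]) * (B ^ 2 - 6 * c + μ * c ^ 2)) this using 1
    rw [hμ]; ring
  have u8 : ∀ c B : ℤ_[p], IsUnit ((2 + 6 - μ * c) ^ 2 + μ * B ^ 2) := fun c B => by
    have : IsUnit (8 : ℤ_[p]) :=
      IsUnit.of_mul_eq_one (27 * j ^ 3) (by linear_combination (36 * j ^ 2 + 6 * j + 1) * hj)
    convert unit_add (v := (m' : ℤ_[p]) * (B ^ 2 - 16 * c + μ * c ^ 2)) (this.pow 2) using 1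
    rw [hμ]; ring
  let ev : (Fin 6 → ℤ_[p]) → goodRing ℤ_[p] (Fin 6) →+* ℤ_[p] := fun v =>
    (Pi.evalRingHom (fun _ : Fin 6 → ℤ_[p] => ℤ_[p]) v).comp (goodRing ℤ_[p] (Fin 6)).subtype
  have hunit : ∀ f : goodRing ℤ_[p] (Fin 6), (∀ v, IsUnit (ev v f)) → IsUnit f := by
    intro f hf
    choose g hg using fun v => (hf v).exists_right_inv
    exact IsUnit.of_mul_eq_one ⟨g, Good.inv f.2 hg⟩ (Subtype.ext (funext hg))
  let M : goodRing ℤ_[p] (Fin 6) := ⟨fun _ => μ, good_const μ⟩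
  have hM : ∀ v, ev v M = μ := fun _ => rfl
  obtain ⟨Y, hY⟩ := six_exists (μ := M)
    (fun c B => hunit _ fun v => by simpa [hM, map_ofNat] using u3 (ev v c) (ev v B))
    (fun c B => hunit _ fun v => by simpa [hM, map_ofNat] using u8 (ev v c) (ev v B))
    fun i => ⟨fun v => v i, good_coord i⟩
  let G : (Fin 6 → ℤ_[p]) → Fin 6 → ℤ_[p] := fun v i => ev v (Y i)
  have hG : ∀ v, Six μ v (G v) := fun v => hY.map (ev v)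
  have hN : Near (p : ℤ_[p]) G := by
    have := (six_ap (j := ⟨fun _ => j, good_const j⟩) (Subtype.ext (funext fun _ => hj)) hY).1
    choose H hH using this
    refine ⟨fun v i => m' * ev v (H i), fun i => (good_const _).mul (H i).2, fun v i => ?_⟩
    have h1 := congrArg (ev v) (hH i)
    rw [map_sub, map_mul, hM] at h1
    have h2 : ev v ⟨fun v => v i, good_coord i⟩ = v i := rfl
    rw [h2, hμ] at h1
    linear_combination h1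
  have hμ0 : μ ≠ 0 := by
    have : ((p * m' : ℤ) : ℤ_[p]) ≠ 0 := Int.cast_ne_zero.2 hm0
    simpa [hμ] using this
  have hx : G x ≠ x := by
    intro h
    have h1 := (six_ap hj (hG x)).2
    rw [h, sub_self, mul_zero, zero_sub, dvd_neg, mul_dvd_mul_iff_left hμ0] at h1
    exact hΨ ((dvd_mul_right _ _).trans h1)
  have hinj := hN.orbit_injective (by omega) x hx
  have hμr : IsRat μ := ⟨(p * m' : ℤ), by simp [hμ]⟩
  have hr1 : IsRat (1 : ℤ_[p]) := one_mem _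
  have hr2 : IsRat (2 : ℤ_[p]) := ofNat_mem _ 2
  have hr6 : IsRat (6 : ℤ_[p]) := ofNat_mem _ 6
  have hrat : ∀ n : ℕ, (∀ i, IsRat (G^[n] x i)) ∧ Inv μ x (G^[n] x) := by
    intro n
    induction n with
    | zero => exact ⟨fun i => ⟨y i, (hxy i).symm⟩, rfl, rfl, rfl, rfl, rfl⟩
    | succ n ih =>
      rw [Function.iterate_succ_apply']
      obtain ⟨r, a1, a2, a3, a4, a5⟩ := ih
      obtain ⟨b1, b2, b3, b4, b5⟩ := (hG (G^[n] x)).inv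
      refine ⟨?_, b1.trans a1, b2.trans a2, b3.trans a3, b4.trans a4, b5.trans a5⟩
      obtain ⟨_, _, _, _, _, _, _, _, _, _, _, _, _, _, _, _, _, _, f1, f2, f3, f4, f5, f6⟩ :=
        hG (G^[n] x)
      obtain ⟨k1, k2, k3, k4⟩ := f1.isRat u3 hμr hr1 hr2 (r 0) (r 1) (r 2) (r 3)
      obtain ⟨k5, k6, k7, k8⟩ := f2.isRat u8 hμr hr2 hr6 k3 k4 (r 4) (r 5)
      obtain ⟨l1, l2, l3, l4⟩ := f3.isRat u3 hμr hr1 hr2 k1 k2 k5 k6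
      obtain ⟨l5, l6, l7, l8⟩ := f4.isRat u8 hμr hr2 hr6 l3 l4 k7 k8
      obtain ⟨n1, n2, n3, n4⟩ := f5.isRat u3 hμr hr1 hr2 l1 l2 l5 l6
      obtain ⟨n5, n6, n7, n8⟩ := f6.isRat u8 hμr hr2 hr6 n3 n4 l7 l8
      intro i
      fin_cases i
      exacts [n1, n2, n5, n6, n7, n8]
  choose z hz using fun n i => (hrat n).1 i
  have hz' : ∀ n i, (G^[n] x i : ℚ_[p]) = z n i := fun n i => (hz n i).symm
  refine Set.infinite_of_injective_forall_mem (f := z) (fun a b hab => hinj ?_) fun n => ?_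
  · funext i
    apply Subtype.ext
    show (G^[a] x i : ℚ_[p]) = (G^[b] x i : ℚ_[p])
    rw [hz', hz', hab]
  · obtain ⟨a1, a2, a3, a4, a5⟩ := (hrat n).2
    have c2 : ((2 : ℤ_[p]) : ℚ_[p]) = 2 := rfl
    have c6 : ((6 : ℤ_[p]) : ℚ_[p]) = 6 := rfl
    have b1 := congrArg (fun z : ℤ_[p] => (z : ℚ_[p])) a1
    have b2 := congrArg (fun z : ℤ_[p] => (z : ℚ_[p])) a2
    have b3 := congrArg (fun z : ℤ_[p] => (z : ℚ_[p])) a3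
    have b4 := congrArg (fun z : ℤ_[p] => (z : ℚ_[p])) a4
    have b5 := congrArg (fun z : ℤ_[p] => (z : ℚ_[p])) a5
    simp only [hμ] at b1 b2 b3
    push_cast [hz', hxy, c2, c6] at b1 b2 b3 b4 b5
    refine ⟨?_, ?_, ?_, ?_, ?_⟩ <;> apply Rat.cast_injective (α := ℚ_[p]) <;> push_cast <;> assumption

end Padic

end Pool.Agent.P.MP_b75a1e_co
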