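import Pool.Agent.P.MP_b75a1e_co.Distinct

/-! A cycle of kites. -/

set_option autoImplicit false

open Finset

namespace Pool.Agent.P.MP_b75a1e_co

/-- `z` is a sum of `n` unit vectors of the field. -/
def USum (m n : ℕ) (z : ℂ) : Prop :=
  ∃ l : Multiset ℂ, l.card = n ∧ (∀ x ∈ l, InK m x ∧ Complex.normSq x = 1) ∧ l.sum = z

theorem USum.add {m n n' : ℕ} {z z' : ℂ} (h : USum m n z) (h' : USum m n' z') :
    USum m (n + n') (z + z') := by
  obtain ⟨l, rfl, h1, rfl⟩ := h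
  obtain ⟨l', rfl, h2, rfl⟩ := h'
  exact ⟨l + l', by simp, fun x hx => (Multiset.mem_add.1 hx).elim (h1 x) (h2 x), by simp⟩

theorem USum.rep {m : ℕ} {x : ℂ} (h : InK m x ∧ Complex.normSq x = 1) (n : ℕ) :
    USum m n (n * x) :=
  ⟨Multiset.replicate n x, by simp, fun y hy => Multiset.eq_of_mem_replicate hy ▸ h, by simp⟩

theorem USum.hasGon {p m : ℕ} (hp : p.Prime) (h29 : 29 ≤ p) (h1 : p ∣ m) (h2 : ¬ p ^ 2 ∣ m)
    (h : USum m p 0) : HasGon m p := by
  obtain ⟨l, k1, k2, k3⟩ := h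
  induction l using Quotient.inductionOn with
  | _ L =>
    have k1' : L.length = p := k1
    subst k1'
    have : Fact L.length.Prime := ⟨hp⟩
    refine hasGon_of_walk h29 h1 h2 (fun i => L[i.1]) (fun i => (k2 _ (by simp)).1) 1 one_ne_zero
      (fun i => (k2 _ (by simp)).2) ?_
    rw [Fin.sum_univ_getElem]
    simpa using k3

/-- the unit vector `(D + √(-m)) / (D - √(-m))` -/
noncomputable def uz (m : ℕ) (D : ℚ) : ℂ := (D + emb m 0 1) / (D - emb m 0 1)

theorem emb_sq (m : ℕ) : emb m 0 1 ^ 2 = -m := by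
  have := Real.mul_self_sqrt (Nat.cast_nonneg (α := ℝ) m)
  apply Complex.ext <;> simp [emb, sq, this]

theorem uz_den {m : ℕ} (hm : m ≠ 0) (D : ℚ) : (D : ℂ) - emb m 0 1 ≠ 0 := fun h => by
  have := congrArg Complex.im h
  simp [emb, hm] at this

theorem uz_unit {m : ℕ} (hm : m ≠ 0) (D : ℚ) :
    InK m (uz m D) ∧ Complex.normSq (uz m D) = 1 := by
  have e1 : (D : ℂ) + emb m 0 1 = emb m D 1 := by apply Complex.ext <;> simp [emb]
  have e2 : (D : ℂ) - emb m 0 1 = emb m D (-1) := by apply Complex.ext <;> simp [emb]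
  have h0 := uz_den hm D
  rw [uz, e1, e2, div_eq_mul_inv] at *
  refine ⟨InK.mul ⟨_, _, rfl⟩ (InK.inv ⟨_, _, rfl⟩), ?_⟩
  have h1 : Complex.normSq (emb m D 1) = Complex.normSq (emb m D (-1)) := by
    rw [normSq_emb, normSq_emb]; norm_num
  rw [map_mul, map_inv₀, h1, mul_inv_cancel₀ (by simpa using h0)]

theorem unit_mul {m : ℕ} {x y : ℂ} (h : InK m x ∧ Complex.normSq x = 1)
    (h' : InK m y ∧ Complex.normSq y = 1) : InK m (x * y) ∧ Complex.normSq (x * y) = 1 :=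
  ⟨h.1.mul h'.1, by rw [map_mul, h.2, h'.2, mul_one]⟩

theorem unit_one (m : ℕ) : InK m 1 ∧ Complex.normSq 1 = 1 :=
  ⟨⟨1, 0, by apply Complex.ext <;> simp [emb]⟩, map_one _⟩

theorem kite {m : ℕ} (hm : m ≠ 0) {D E k : ℚ} (h : E * (2 * k - 1) = D * (2 * k + 3)) :
    (k + 1 / 2) * uz m D + 1 = (k + 1 / 2) * uz m E + uz m D * uz m E := by
  have h1 := uz_den hm D
  have h2 := uz_den hm E
  have h3 : (E : ℂ) * (2 * k - 1) = D * (2 * k + 3) := by exact_mod_cast h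
  unfold uz
  field_simp
  linear_combination (2 * emb m 0 1) * h3

theorem top_kite {m : ℕ} (hm : m ≠ 0) {D E j B : ℚ}
    (h : D * E * (2 * j + 1 + 2 * B) = -(2 * j + 1 - 2 * B) * m) :
    B * (1 + uz m D * uz m E) + (j + 1 / 2) * (uz m D + uz m E) = 0 := by
  have h1 := uz_den hm D
  have h2 := uz_den hm E
  have h3 : (D : ℂ) * E * (2 * j + 1 + 2 * B) = -(2 * j + 1 - 2 * B) * m := by exact_mod_cast h
  have h4 := emb_sq m
  unfold uz
  field_simp
  linear_combination 2 * h3 - 2 * (2 * j + 1 - 2 * B) * h4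

theorem odd_ne (i : ℕ) : 2 * (i : ℚ) - 1 ≠ 0 := fun h => by
  have : 2 * i = 1 := by exact_mod_cast sub_eq_zero.1 h
  omega

theorem chain_kites {m : ℕ} (hm : m ≠ 0) (n : ℕ) : ∀ (s : Multiset ℕ) (j : ℕ) (D : ℚ), s.card = n →
    (∀ i ∈ s, i ≤ j) → ∃ J, USum m (j + n) J ∧ (j + 1 / 2) * uz m D + n =
      uz m (D * (s.map fun i : ℕ => (2 * (i : ℚ) + 3) / (2 * i - 1)).prod) / 2 + J := by
  induction n with
  | zero =>
    intro s j D hs _
    rw [Multiset.card_eq_zero.1 hs]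
    exact ⟨_, USum.rep (uz_unit hm D) j, by simp; ring⟩
  | succ n ih =>
    intro s j D hs hj
    obtain ⟨i, hi, hmax⟩ := Multiset.exists_max_image (s := s) id (by rintro rfl; simp at hs)
    obtain ⟨t, rfl⟩ := Multiset.exists_cons_of_mem hi
    obtain ⟨d, rfl⟩ := Nat.exists_eq_add_of_le (hj i hi)
    obtain ⟨J, h1, h2⟩ := ih t i (D * ((2 * (i : ℚ) + 3) / (2 * i - 1))) (by simpa using hs)
      fun k hk => hmax k (Multiset.mem_cons_of_mem hk)
    have h3 := kite hm (D := D) (E := D * ((2 * (i : ℚ) + 3) / (2 * i - 1))) (k := i)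
      (by have := odd_ne i; field_simp)
    have h4 := (h1.add (USum.rep (uz_unit hm D) d)).add (USum.rep (unit_mul (uz_unit hm D)
      (uz_unit hm (D * ((2 * (i : ℚ) + 3) / (2 * i - 1))))) 1)
    refine ⟨_, by rwa [show i + n + d + 1 = i + d + (n + 1) by ring] at h4, ?_⟩
    rw [Multiset.map_cons, Multiset.prod_cons, ← mul_assoc]
    push_cast at h3 ⊢
    linear_combination h2 + h3

/-- `n` is, up to a square, a product of at most `c` numbers `(2 i + 3) (2 i - 1)` with `i ≤ j`. -/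
def Cheap (j : ℕ) (n : ℤ) (c : ℕ) : Prop :=
  ∃ s : Multiset ℕ, s.card ≤ c ∧ (∀ i ∈ s, i ≤ j) ∧
    IsSquare ((n : ℚ) * (s.map fun i : ℕ => (2 * (i : ℚ) + 3) * (2 * i - 1)).prod)

theorem usum_of_cheap {m' j B : ℕ} (hm : m' ≠ 0)
    (h : Cheap j (-(2 * j + 1 - 2 * B) * m') B) :
    USum ((2 * j + 1 + 2 * B) * m') (2 * j + 1 + 2 * B) 0 := by
  obtain ⟨s, h1, h2, t, ht⟩ := h
  have hm' : (2 * j + 1 + 2 * B) * m' ≠ 0 := by positivity
  set m := (2 * j + 1 + 2 * B) * m' with hmm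
  have hP : (s.map fun i : ℕ => 2 * (i : ℚ) + 3).prod ≠ 0 :=
    Multiset.prod_ne_zero fun h => by
      obtain ⟨i, -, hi⟩ := Multiset.mem_map.1 h
      exact absurd hi (by positivity)
  have hM : (s.map fun i : ℕ => 2 * (i : ℚ) - 1).prod ≠ 0 :=
    Multiset.prod_ne_zero fun h => by
      obtain ⟨i, -, hi⟩ := Multiset.mem_map.1 h
      exact odd_ne i hi
  rw [Multiset.prod_map_mul] at ht
  obtain ⟨J, k1, k2⟩ := chain_kites hm' _ s j (t / (s.map fun i : ℕ => 2 * (i : ℚ) + 3).prod) rfl h2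
  rw [Multiset.prod_map_div] at k2
  generalize (s.map fun i : ℕ => 2 * (i : ℚ) + 3).prod = P at *
  generalize (s.map fun i : ℕ => 2 * (i : ℚ) - 1).prod = M at *
  have k3 := top_kite hm' (D := t / P) (E := t / P * (P / M)) (j := j) (B := B) (by
    rw [hmm]
    push_cast at ht ⊢
    field_simp
    linear_combination -ht)
  obtain ⟨d, hd⟩ := Nat.exists_eq_add_of_le h1
  have k4 := ((k1.add (USum.rep (unit_one m) d)).add (USum.rep (unit_mul (uz_unit hm' (t / P))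
    (uz_unit hm' (t / P * (P / M)))) B)).add (USum.rep (uz_unit hm' (t / P * (P / M))) (j + 1))
  have k5 : (B : ℂ) = s.card + d := by exact_mod_cast hd
  convert k4 using 1
  · omega
  · push_cast at k3 ⊢
    linear_combination k2 - k3 + k5

theorem Cheap.mono {j c c' : ℕ} {n : ℤ} (h : Cheap j n c) (hc : c ≤ c') : Cheap j n c' := by
  obtain ⟨s, h1, h2⟩ := h
  exact ⟨s, h1.trans hc, h2⟩

theorem Cheap.one (j : ℕ) : Cheap j 1 0 := ⟨0, le_rfl, by simp, by simp⟩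

theorem Cheap.mul {j c c' : ℕ} {n n' : ℤ} (h : Cheap j n c) (h' : Cheap j n' c') :
    Cheap j (n * n') (c + c') := by
  obtain ⟨s, h1, h2, h3⟩ := h
  obtain ⟨s', k1, k2, k3⟩ := h'
  refine ⟨s + s', by simpa using add_le_add h1 k1,
    fun i hi => (Multiset.mem_add.1 hi).elim (h2 i) (k2 i), ?_⟩
  rw [Multiset.map_add, Multiset.prod_add, Int.cast_mul, mul_mul_mul_comm]
  exact h3.mul k3

theorem Cheap.of_sq {j c : ℕ} {n n' a b : ℤ} (h : Cheap j n c) (hb : b ≠ 0)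
    (e : n' * b ^ 2 = n * a ^ 2) : Cheap j n' c := by
  obtain ⟨s, h1, h2, t, h3⟩ := h
  refine ⟨s, h1, h2, t * a / b, ?_⟩
  have e' : (n' : ℚ) * b ^ 2 = n * a ^ 2 := by exact_mod_cast e
  have hb' : (b : ℚ) ≠ 0 := by exact_mod_cast hb
  field_simp
  linear_combination (Multiset.map (fun i : ℕ => (2 * (i : ℚ) + 3) * (2 * i - 1)) s).prod * e' +
    (a : ℚ) ^ 2 * h3

theorem Cheap.step {j i : ℕ} (h : i ≤ j) : Cheap j ((2 * i + 3) * (2 * i - 1)) 1 :=
  ⟨{i}, le_rfl, by simpa using h, by simp⟩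

theorem eq_one_of_no_prime {n : ℤ} (h4 : n % 4 = 1) (h : ∀ r : ℕ, r.Prime → ¬ (r : ℤ) ∣ n) :
    n = 1 := by
  by_contra hn
  obtain ⟨r, h1, h2⟩ := Nat.exists_prime_and_dvd (n := n.natAbs) (by omega)
  exact h r h1 (Int.natCast_dvd.2 h2)

theorem pi_succ (Q : ℕ) : Nat.primeCounting (Q + 1) =
    Nat.primeCounting Q + if (Q + 1).Prime then 1 else 0 := Nat.count_succ _ _

theorem pi_le (Q : ℕ) : Nat.primeCounting Q ≤ Q := by
  induction Q with
  | zero => simp
  | succ Q ih => rw [pi_succ]; split_ifs <;> omega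

theorem cheap_pi {j : ℕ} (Q : ℕ) : Q ≤ 2 * j + 3 → ∀ n : ℤ, n % 4 = 1 →
    (∀ r : ℕ, r.Prime → (r : ℤ) ∣ n → r ≤ Q) → Cheap j n (Nat.primeCounting Q - 1) := by
  induction Q with
  | zero =>
    intro _ n h4 h
    rw [eq_one_of_no_prime h4 fun r h1 h2 => by have := h r h1 h2; have := h1.pos; omega]
    exact (Cheap.one j).mono (Nat.zero_le _)
  | succ Q ih =>
    intro hQ n h4 h
    by_cases hd : (Q + 1).Prime ∧ ((Q + 1 : ℕ) : ℤ) ∣ n
    · obtain ⟨hp, hd⟩ := hd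
      have h2 : Q + 1 ≠ 2 := fun e => by rw [e] at hd; omega
      obtain ⟨i, hi⟩ : ∃ i, Q + 1 = 2 * i + 3 := by
        have := hp.eq_two_or_odd.resolve_left h2
        have := hp.two_le
        exact ⟨(Q - 2) / 2, by omega⟩
      have hpi : 1 ≤ Nat.primeCounting Q :=
        Nat.monotone_primeCounting (show 2 ≤ Q by omega) |>.trans' (by decide)
      obtain ⟨e, a, h5, h6⟩ := WfDvdMonoid.max_power_factor' (a₀ := n) (x := ((Q + 1 : ℕ) : ℤ))
        (by omega) (Nat.prime_iff_prime_int.1 hp).not_isUnit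
      have ha : ∀ r : ℕ, r.Prime → (r : ℤ) ∣ a → r ≤ Q := fun r h1 h3 => by
        have := h r h1 (h6 ▸ h3.mul_left _)
        rcases this.lt_or_eq with h7 | rfl
        · omega
        · exact absurd h3 h5
      have hz : ((Q + 1 : ℕ) : ℤ) = 2 * i + 3 := by exact_mod_cast hi
      have hsq : ∀ f : ℕ, ∃ u : ℤ, ((2 * i + 3 : ℤ) ^ f) ^ 2 = 4 * u + 1 := fun f => by
        obtain ⟨v, hv⟩ : Odd ((2 * i + 3 : ℤ) ^ f) := Odd.pow ⟨i + 1, by ring⟩
        exact ⟨v ^ 2 + v, by rw [hv]; ring⟩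
      rw [pi_succ, if_pos hp]
      rw [hz] at h6
      obtain ⟨f, rfl | rfl⟩ := Nat.even_or_odd' e
      · obtain ⟨u, hu⟩ := hsq f
        have e1 : n = 4 * (u * a) + a := by rw [h6, pow_mul', hu]; ring
        exact ((ih (by omega) a (by omega) ha).of_sq one_ne_zero
          (a := (2 * i + 3) ^ f) (by rw [h6]; ring)).mono (by omega)
      · obtain ⟨u, hu⟩ := hsq f
        have e1 : n = 4 * (u * ((2 * i + 3) * a) + a) + a * (2 * i - 1) := by
          rw [h6, pow_succ, pow_mul', hu]; ring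
        have k := ih (by omega) (a * (2 * i - 1)) (by omega) fun r h1 h3 => by
          rcases (Nat.prime_iff_prime_int.1 h1).dvd_or_dvd h3 with h7 | h7
          · exact ha r h1 h7
          · have := Nat.le_of_dvd (by omega) (Int.natCast_dvd.1 h7)
            omega
        exact ((k.mul (Cheap.step (show i ≤ j by omega))).of_sq (b := 2 * i - 1) (by omega)
          (a := (2 * i + 3) ^ f) (by rw [h6]; ring)).mono (by omega)
    · refine (ih (by omega) n h4 fun r h1 h3 => ?_).mono (by rw [pi_succ]; omega)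
      rcases (h r h1 h3).lt_or_eq with h7 | rfl
      · omega
      · exact absurd ⟨h1, h3⟩ hd

theorem cheap_three {j : ℕ} (N : ℕ) : ∀ n : ℤ, n.natAbs = N → n % 4 = 1 →
    (∀ r : ℕ, r.Prime → (r : ℤ) ∣ n → r + 1 ≤ 2 * j) →
    ∃ c e : ℕ, (3 ^ c + 2 ≤ N ∨ c = 0) ∧ Cheap j ((-3) ^ e * n) c := by
  induction N using Nat.strong_induction_on with
  | _ N ih =>
    intro n hN h4 h
    by_cases h1 : n = 1
    · exact ⟨0, 0, Or.inr rfl, by simpa [h1] using Cheap.one j⟩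
    obtain ⟨r, hr, hd⟩ := Nat.exists_prime_and_dvd (n := n.natAbs) (by omega)
    have hd' := Int.natCast_dvd.2 hd
    have hj := h r hr hd'
    have h2 : r % 2 = 1 := hr.eq_two_or_odd.resolve_left fun e => by rw [e] at hd'; omega
    have h3 := hr.two_le
    obtain ⟨u, hu, hu4, v, hv⟩ : ∃ u : ℤ, u.natAbs = r ∧ u % 4 = 1 ∧ u ∣ n := by
      rcases (show r % 4 = 1 ∨ r % 4 = 3 by omega) with e | e
      · exact ⟨r, by simp, by omega, hd'⟩
      · exact ⟨-r, by simp, by omega, hd'.neg_left⟩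
    have hv4 : v % 4 = 1 := by
      have : n = 4 * (u / 4 * v) + v := by
        rw [hv]; nth_rw 1 [show u = 4 * (u / 4) + 1 by omega]; ring
      omega
    have hNv : N = r * v.natAbs := by rw [← hN, hv, Int.natAbs_mul, hu]
    by_cases hv1 : v = 1
    · have hnu : n = u := by rw [hv, hv1, mul_one]
      have hNr : N = r := by rw [hNv, hv1]; simp
      by_cases hr3 : r = 3
      · refine ⟨0, 1, Or.inr rfl, (Cheap.one j).of_sq one_ne_zero (a := 3) ?_⟩
        rw [hnu, show u = -3 by omega]; norm_num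
      have h33 : r % 3 ≠ 0 := fun e =>
        hr3 ((Nat.prime_dvd_prime_iff_eq Nat.prime_three hr).1 (Nat.dvd_of_mod_eq_zero e)).symm
      obtain ⟨i, w, hi, hw4, hw, hs⟩ : ∃ (i : ℕ) (w : ℤ), i ≤ j ∧ w % 4 = 1 ∧
          3 * w.natAbs ≤ r + 4 ∧ (2 * i + 3 : ℤ) * (2 * i - 1) = -3 * w * u := by
        rcases (show r % 3 = 1 ∨ r % 3 = 2 by omega) with e | e
        · obtain ⟨i, hi⟩ : ∃ i, r = 2 * i + 3 := ⟨(r - 3) / 2, by omega⟩
          obtain ⟨k, hk⟩ : ∃ k : ℤ, 2 * (i : ℤ) - 1 = 3 * k := ⟨(2 * i - 1) / 3, by omega⟩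
          rcases (show u = 2 * i + 3 ∨ u = -(2 * i + 3) by omega) with e1 | e1
          · exact ⟨i, -k, by omega, by omega, by omega, by rw [hk, e1]; ring⟩
          · exact ⟨i, k, by omega, by omega, by omega, by rw [hk, e1]; ring⟩
        · obtain ⟨i, hi⟩ : ∃ i, r + 1 = 2 * i := ⟨(r + 1) / 2, by omega⟩
          obtain ⟨k, hk⟩ : ∃ k : ℤ, 2 * (i : ℤ) + 3 = 3 * k := ⟨(2 * i + 3) / 3, by omega⟩
          rcases (show u = 2 * i - 1 ∨ u = -(2 * i - 1) by omega) with e1 | e1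
          · exact ⟨i, -k, by omega, by omega, by omega, by rw [hk, e1]; ring⟩
          · exact ⟨i, k, by omega, by omega, by omega, by rw [hk, e1]; ring⟩
      obtain ⟨c, e, k1, k2⟩ := ih w.natAbs (by omega) w rfl hw4 fun q q1 q2 => by
        have := Nat.le_of_dvd (by omega) (Int.natCast_dvd.1 q2)
        omega
      refine ⟨c + 1, e + 1, Or.inl ?_, (k2.mul (Cheap.step hi)).of_sq (b := w) (by omega)
        (a := 1) (by rw [hs, hnu]; ring)⟩
      rcases k1 with k1 | rfl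
      · rw [pow_succ]; omega
      · omega
    · have hv3 : 3 ≤ v.natAbs := by omega
      obtain ⟨c, e, k1, k2⟩ := ih r (by nlinarith) u hu hu4 fun q q1 q2 =>
        h q q1 (hv ▸ q2.mul_right v)
      obtain ⟨c', e', k3, k4⟩ := ih v.natAbs (by nlinarith) v rfl hv4 fun q q1 q2 =>
        h q q1 (hv ▸ q2.mul_left u)
      have k5 : 3 ^ c + 2 ≤ r := k1.elim id (by rintro rfl; omega)
      have k6 : 3 ^ c' + 2 ≤ v.natAbs := k3.elim id (by rintro rfl; omega)
      refine ⟨c + c', e + e', Or.inl ?_, (k2.mul k4).of_sq one_ne_zero (a := 1)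
        (by rw [hv]; ring)⟩
      rw [hNv, pow_add]
      refine le_trans ?_ (Nat.mul_le_mul k5 k6)
      generalize 3 ^ c = x
      generalize 3 ^ c' = y
      nlinarith [Nat.zero_le x, Nat.zero_le y]

theorem cheap_log {j : ℕ} {n : ℤ} (h4 : n % 4 = 1)
    (h : ∀ r : ℕ, r.Prime → (r : ℤ) ∣ n → r + 1 ≤ 2 * j) :
    Cheap j n (Nat.log 3 n.natAbs + 1) := by
  obtain ⟨c, e, k1, k2⟩ := cheap_three _ n rfl h4 h
  have hc : c ≤ Nat.log 3 n.natAbs := k1.elim
    (fun k => Nat.le_log_of_pow_le (by norm_num) (by omega)) (by omega)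
  obtain ⟨f, rfl | rfl⟩ := Nat.even_or_odd' e
  · exact (k2.of_sq (b := (-3) ^ f) (by positivity) (a := 1) (by ring)).mono (by omega)
  · exact ((k2.mul (Cheap.step (Nat.zero_le j))).of_sq (b := (-3) ^ (f + 1)) (by positivity)
      (a := 1) (by push_cast; ring)).mono (by omega)

theorem gap {m p : ℕ} (hsq : Squarefree m) (h4 : m % 4 = 3) (hp : p.Prime) (h29 : 29 ≤ p)
    (hpm : p ∣ m) (h : ∀ q, q.Prime → q ∣ m → q ≠ p →
      q + 2 * min (Nat.primeCounting q) (Nat.log 3 m + 4) ≤ p + 4) : HasGon m p := by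
  have h2 : ¬ p ^ 2 ∣ m := fun h => hp.prime.not_isUnit (hsq p (by rwa [← sq]))
  refine USum.hasGon hp h29 hpm h2 ?_
  obtain ⟨m', rfl⟩ := hpm
  have hm : m' ≠ 0 := by rintro rfl; simp at h4
  have ho : p % 2 = 1 := hp.eq_two_or_odd.resolve_left (by omega)
  obtain ⟨Q, hQ, hmax⟩ := exists_max_image (insert 3 m'.primeFactors) id (insert_nonempty _ _)
  have hQ3 : 3 ≤ Q := hmax 3 (mem_insert_self _ _)
  have hQm : ∀ r, r.Prime → r ∣ m' → r ≤ Q := fun r r1 r2 =>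
    hmax r (mem_insert_of_mem (Nat.mem_primeFactors.2 ⟨r1, r2, hm⟩))
  have hQ' : Q % 2 = 1 ∧
      Q + 2 * min (Nat.primeCounting Q) (Nat.log 3 (p * m') + 4) ≤ p + 4 := by
    rcases mem_insert.1 hQ with rfl | hQ
    · have := pi_le 3
      omega
    · have q1 := Nat.prime_of_mem_primeFactors hQ
      have q2 := Nat.dvd_of_mem_primeFactors hQ
      exact ⟨q1.eq_two_or_odd.resolve_left (by omega), h Q q1 (q2.mul_left p) (by
        rintro rfl
        exact h2 (by rw [sq]; exact Nat.mul_dvd_mul_left _ q2))⟩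
  have hpi := pi_le Q
  have hpi2 : 2 ≤ Nat.primeCounting Q := (Nat.monotone_primeCounting hQ3).trans' (by decide)
  have key : ∀ j B T : ℕ, p = 2 * j + 1 + 2 * B → Q ≤ T → 2 * j + 1 ≤ 2 * B + T →
      2 * B ≤ 2 * j + 1 + T → (-(2 * j + 1 - 2 * B) * m' : ℤ) % 4 = 1 ∧
      ∀ r : ℕ, r.Prime → (r : ℤ) ∣ -(2 * j + 1 - 2 * B) * m' → r ≤ T := by
    intro j B T e t1 t2 t3
    constructor
    · have e1 : (-(2 * j + 1 - 2 * B) * m' : ℤ) = 4 * (B * m') - (p * m' : ℕ) := by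
        rw [e]; push_cast; ring
      omega
    · intro r r1 r2
      rcases (Nat.prime_iff_prime_int.1 r1).dvd_or_dvd r2 with r3 | r3
      · have := Nat.le_of_dvd (by omega) (Int.natCast_dvd.1 r3)
        omega
      · exact (hQm r r1 (Int.natCast_dvd_natCast.1 r3)).trans t1
  by_cases hc : Nat.primeCounting Q ≤ Nat.log 3 (p * m') + 4
  · obtain ⟨j, B, e, t1, t2, t3, t4⟩ : ∃ j B : ℕ, p = 2 * j + 1 + 2 * B ∧ Q ≤ 2 * j + 3 ∧
        Nat.primeCounting Q - 1 ≤ B ∧ 2 * j + 1 ≤ 2 * B + Q ∧ 2 * B ≤ 2 * j + 1 + Q := by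
      by_cases hs : p + 4 ≤ 3 * Q
      · exact ⟨(Q - 3) / 2, (p + 2 - Q) / 2, by omega, by omega, by omega, by omega, by omega⟩
      · exact ⟨(p - Q + 1) / 4, (p - 1) / 2 - (p - Q + 1) / 4, by omega, by omega, by omega,
          by omega, by omega⟩
    obtain ⟨k1, k2⟩ := key j B Q e le_rfl t3 t4
    rw [e]
    exact usum_of_cheap hm ((cheap_pi Q t1 _ k1 k2).mono t2)
  · obtain ⟨j, e⟩ : ∃ j, p = 2 * j + 1 + 2 * (Nat.log 3 (p * m') + 1) :=
      ⟨(p - 1) / 2 - (Nat.log 3 (p * m') + 1), by omega⟩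
    obtain ⟨k1, k2⟩ := key j _ (2 * j - 1) e (by omega) (by omega) (by omega)
    have k3 := (cheap_log (j := j) k1 fun r r1 r2 => by have := k2 r r1 r2; omega).mono
      (c' := Nat.log 3 (p * m') + 1) (Nat.succ_le_succ (Nat.log_mono_right (by
        rw [Int.natAbs_mul, Int.natAbs_natCast]
        exact Nat.mul_le_mul_right _ (by omega))))
    generalize Nat.log 3 (p * m') + 1 = B at e k3
    rw [e]
    exact usum_of_cheap hm k3

end Pool.Agent.P.MP_b75a1e_co
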