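import Pool.Agent.P.MP_b75a1e_co.Types

set_option autoImplicit false

open Finset

namespace Pool.Agent.P.MP_b75a1e_co

variable {m : ℕ} {D : ℕ → ℤ}

theorem norm_mon (r : ℕ) (S : Finset ℕ) :
    (mon m D r S).norm = ∏ i ∈ range r, if i ∈ S then (m : ℤ) else D i ^ 2 := by
  have := map_prod (Zsqrtd.normMonoidHom (d := -(m : ℤ)))
    (fun i => if i ∈ S then Zsqrtd.sqrtd else (D i : ZK m)) (range r)
  refine this.trans (prod_congr rfl fun i _ => ?_)
  show Zsqrtd.norm _ = _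
  split_ifs
  · simp [Zsqrtd.norm_def]
  · rw [Zsqrtd.norm_intCast, sq]

theorem norm_mon' {r : ℕ} {S : Finset ℕ} (h : S ⊆ range r) :
    (mon m D r S).norm = tt m D r S ^ 2 * m ^ (S.card % 2) := by
  rw [mon_eq m D h, Zsqrtd.norm_mul, Zsqrtd.norm_intCast, sq]
  congr 1
  rcases Nat.mod_two_eq_zero_or_one S.card with e | e <;> simp [e, Zsqrtd.norm_def]

theorem exists_vertex (h4 : m % 4 = 3) (hD : ∀ i, D i % 2 = 1) (k : ℕ) :
    ∃ w : ZK m, (((2 ^ (2 * k) : ℕ) : ZK m) * w).norm = cn m D (2 * k) ∧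
      toZ (dvd_refl m) (((2 ^ (2 * k) : ℕ) : ZK m) * w) = toZ (dvd_refl m) (mon m D (2 * k) ∅) := by
  induction k with
  | zero => exact ⟨1, by simp [cn], by simp [mon]⟩
  | succ k ih =>
    obtain ⟨w, h1, h2⟩ := ih
    obtain ⟨η, u, hη, hu⟩ : ∃ (η : ℤ) (u : ZK m), η ^ 2 = 1 ∧
        ((D (2 * k) : ZK m) + ((1 : ℤ) : ZK m) * Zsqrtd.sqrtd) *
          ((D (2 * k + 1) : ZK m) + (η : ZK m) * Zsqrtd.sqrtd) = ((4 : ℤ) : ZK m) * u := by
      obtain ⟨a, ha⟩ : ∃ a, D (2 * k) = 2 * a + 1 := ⟨D (2 * k) / 2, by have := hD (2 * k); omega⟩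
      obtain ⟨b, hb⟩ : ∃ b, D (2 * k + 1) = 2 * b + 1 :=
        ⟨D (2 * k + 1) / 2, by have := hD (2 * k + 1); omega⟩
      obtain ⟨c, hc⟩ : ∃ c : ℤ, (m : ℤ) = 4 * c + 3 := ⟨m / 4, by omega⟩
      rcases Int.even_or_odd' (a + b) with ⟨e, he | he⟩
      · refine ⟨-1, ⟨a * b + e + c + 1, e - a⟩, rfl, ?_⟩
        ext
        · simp [ha, hb]; linear_combination 2 * he + hc
        · simp [ha, hb]; linear_combination 2 * he
      · refine ⟨1, ⟨a * b + e - c, e + 1⟩, rfl, ?_⟩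
        ext
        · simp [ha, hb]; linear_combination 2 * he - hc
        · simp [ha, hb]; linear_combination 2 * he
    have e : ((2 ^ (2 * (k + 1)) : ℕ) : ZK m) * (w * u) = ((2 ^ (2 * k) : ℕ) : ZK m) * w *
        (((D (2 * k) : ZK m) + ((1 : ℤ) : ZK m) * Zsqrtd.sqrtd) *
          ((D (2 * k + 1) : ZK m) + (η : ZK m) * Zsqrtd.sqrtd)) := by
      rw [hu]; push_cast; ring
    have e' : 2 * (k + 1) = 2 * k + 1 + 1 := by ring
    refine ⟨w * u, ?_, ?_⟩
    · rw [e, Zsqrtd.norm_mul, Zsqrtd.norm_mul _ (_ + _), h1, norm_slot m _ 1 rfl, norm_slot m _ η hη, e',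
        cn, cn, prod_range_succ, prod_range_succ, mul_assoc]
    · have hs : toZ (dvd_refl m) (Zsqrtd.sqrtd : ZK m) = 0 := by rw [toZ_apply]; simp
      rw [e, map_mul, h2, e']
      simp only [mon, prod_range_succ, notMem_empty, if_false, map_mul, map_add, hs]
      ring

theorem exists_bulk (h4 : m % 4 = 3) {x y z n : ℕ} (hx : 32 ≤ x) (hxy : x ≤ y) (hyz : y ≤ z)
    (ox : Odd x) (oy : Odd y) (oz : Odd z) (cxy : x.Coprime y) (cxz : x.Coprime z) (cyz : y.Coprime z)
    (cx : x.Coprime m) (cy : y.Coprime m) (cz : z.Coprime m) (h1 : x ^ (2 * (n + 2)) ≤ m)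
    (h2 : m ≤ x ^ (2 * (n + 3))) :
    ∃ B : Bulk m, B.E = 2 ^ (2 * (n + 4)) ∧ B.C = 2 ^ (2 * (n + 4)) * z ^ 3 * (x + 3) ∧ B.L = x := by
  set Dn : ℕ → ℕ := fun i => x ^ (if i = 0 then n else n + 4 - i) *
    y ^ (min (i - 1) (2 * n + 7 - i)) * z ^ (i - (n + 4)) with hDn
  set D : ℕ → ℤ := fun i => Dn i with hD
  have x0 : 0 < x := by omega
  have y0 : 0 < y := by omega
  have z0 : 0 < z := by omega
  have m0 : 0 < m := by omega
  have Dpos : ∀ i, 0 < Dn i := fun i => by simp only [hDn]; positivity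
  have D0 : ∀ i, D i ≠ 0 := fun i => by simp only [hD]; exact_mod_cast (Dpos i).ne'
  have Dodd : ∀ i, D i % 2 = 1 := fun i => by
    have : Dn i % 2 = 1 := Nat.odd_iff.1 ((ox.pow.mul oy.pow).mul oz.pow)
    simp only [hD]
    omega
  have Dm : ∀ i, IsCoprime (D i) (m : ℤ) := fun i => Nat.isCoprime_iff_coprime.2
    (Nat.Coprime.mul_left (Nat.Coprime.mul_left (cx.pow_left _) (cy.pow_left _)) (cz.pow_left _))
  have d0 : Dn 0 = x ^ n := by simp [hDn]
  have d1 : Dn 1 = x ^ (n + 3) := by simp [hDn]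
  have d2 : Dn (n + 4) = y ^ (n + 3) := by
    simp only [hDn]
    rw [if_neg (by omega), show n + 4 - (n + 4) = 0 by omega,
      show min (n + 4 - 1) (2 * n + 7 - (n + 4)) = n + 3 by omega]
    simp
  have d3 : Dn (2 * n + 7) = z ^ (n + 3) := by
    simp only [hDn]
    rw [if_neg (by omega), show n + 4 - (2 * n + 7) = 0 by omega,
      show min (2 * n + 7 - 1) (2 * n + 7 - (2 * n + 7)) = 0 by omega,
      show 2 * n + 7 - (n + 4) = n + 3 by omega]
    simp
  have big : ∀ i, i + 1 < 2 * (n + 4) → (m : ℤ) ≤ D (i + 1) ^ 2 := by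
    intro i hi
    have : x ^ (n + 3) ≤ Dn (i + 1) := by
      simp only [hDn]
      rw [if_neg (by omega)]
      calc x ^ (n + 3) = x ^ (n + 4 - (i + 1)) * x ^ (min (i + 1 - 1) (2 * n + 7 - (i + 1))) *
            x ^ (i + 1 - (n + 4)) := by rw [← pow_add, ← pow_add]; congr 1; omega
        _ ≤ _ := by gcongr; exact hxy.trans hyz
    have h3 : m ≤ Dn (i + 1) ^ 2 := h2.trans (by rw [mul_comm, pow_mul]; gcongr)
    simp only [hD]
    exact_mod_cast h3
  have adj : ∀ i, i + 1 < 2 * (n + 4) → ∃ u : ℕ, 0 < u ∧ u ≤ z ^ 3 ∧ D i ∣ u * D (i + 1) ∧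
      D (i + 1) ∣ u * D i := by
    intro i hi
    have hxz := hxy.trans hyz
    by_cases h : i = 0
    · subst h
      refine ⟨x ^ 3, by positivity, by gcongr, ?_, ?_⟩ <;> simp only [hD, zero_add, d0, d1]
      · exact ⟨x ^ 6, by push_cast; ring⟩
      · exact ⟨1, by push_cast; ring⟩
    · have key : ∀ a b c a' b' c' : ℕ, a ≤ a' + 1 → b ≤ b' + 1 → c ≤ c' + 1 →
          ((x ^ a * y ^ b * z ^ c : ℕ) : ℤ) ∣ (x * y * z : ℕ) * ((x ^ a' * y ^ b' * z ^ c' : ℕ) : ℤ) := by
        intro a b c a' b' c' k1 k2 k3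
        have := mul_dvd_mul (mul_dvd_mul (pow_dvd_pow x k1) (pow_dvd_pow y k2)) (pow_dvd_pow z k3)
        rw [← Nat.cast_mul, Int.natCast_dvd_natCast]
        exact this.trans (dvd_of_eq (by ring))
      refine ⟨x * y * z, by positivity, ?_, key _ _ _ _ _ _ ?_ ?_ ?_, key _ _ _ _ _ _ ?_ ?_ ?_⟩
      · calc x * y * z ≤ z * z * z := by gcongr
          _ = _ := by ring
      all_goals first | omega | (rw [if_neg h, if_neg (Nat.succ_ne_zero i)]; omega)
  have c1 : IsCoprime (D 1) (D (n + 4)) := Nat.isCoprime_iff_coprime.2 (by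
    rw [d1, d2]; exact cxy.pow _ _)
  have c2 : IsCoprime (D 1) (D (2 * n + 7)) := Nat.isCoprime_iff_coprime.2 (by
    rw [d1, d3]; exact cxz.pow _ _)
  have c3 : IsCoprime (D (n + 4)) (D (2 * n + 7)) := Nat.isCoprime_iff_coprime.2 (by
    rw [d2, d3]; exact cyz.pow _ _)
  set r := 2 * (n + 4) with hr
  have hr2 : r = 2 * n + 6 + 1 + 1 := by omega
  set V : ℤ := ∏ i ∈ range (2 * n + 6), D (i + 1 + 1) ^ 2 with hV
  have V0 : 0 ≤ V := prod_nonneg fun i _ => sq_nonneg _
  have mz : (0 : ℤ) < m := by exact_mod_cast m0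
  have h1z : (x : ℤ) ^ (2 * (n + 2)) ≤ m := by exact_mod_cast h1
  have xz : (32 : ℤ) ≤ x := by exact_mod_cast hx
  have e0 : D 0 = (x : ℤ) ^ n := by simp only [hD, d0]; push_cast; rfl
  have e1 : D 1 = (x : ℤ) ^ (n + 3) := by simp only [hD, d1]; push_cast; rfl
  have s0 : D 0 ^ 2 ≤ m := by
    rw [e0, ← pow_mul]
    exact (pow_le_pow_right₀ (by omega) (by omega)).trans h1z
  have s1 : D 1 ^ 2 ≤ x ^ 2 * m := by
    calc D 1 ^ 2 = x ^ 2 * (x : ℤ) ^ (2 * (n + 2)) := by rw [e1]; ring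
      _ ≤ _ := by gcongr
  have n0 : (mon m D r ∅).norm = V * D 1 ^ 2 * D 0 ^ 2 := by
    rw [norm_mon, hr2, prod_range_succ', prod_range_succ']; simp [hV]
  have n1 : (mon m D r (range 1)).norm = V * D 1 ^ 2 * m := by
    rw [norm_mon, hr2, prod_range_succ', prod_range_succ']; simp [hV]
  have n2 : (mon m D r (range 2)).norm = V * m * m := by
    rw [norm_mon, hr2, prod_range_succ', prod_range_succ']
    congr 2
  have nS : ∀ S, (mon m D r S).norm ≤ (mon m D r (range 1)).norm := by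
    intro S
    rw [norm_mon, norm_mon]
    refine prod_le_prod (fun i _ => by split_ifs <;> positivity) fun i hi => ?_
    rcases i with _ | i
    · rw [if_pos (show 0 ∈ range 1 by simp)]; split_ifs; exacts [le_rfl, s0]
    · rw [if_neg (show i + 1 ∉ range 1 by simp)]; split_ifs
      exacts [big i (mem_range.1 hi), le_rfl]
  have n12 : (mon m D r (range 1)).norm ≤ x ^ 2 * (mon m D r (range 2)).norm := by
    rw [n1, n2]
    calc V * D 1 ^ 2 * m ≤ V * (x ^ 2 * m) * m := by gcongr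
      _ = _ := by ring
  have n21 : (mon m D r (range 2)).norm ≤ (mon m D r (range 1)).norm := nS _
  have t2 : (mon m D r (range 2)).norm = tt m D r (range 2) ^ 2 := by
    rw [norm_mon' (range_subset_range.2 (by omega))]; simp
  have t1 : (mon m D r (range 1)).norm = tt m D r (range 1) ^ 2 * m := by
    rw [norm_mon' (range_subset_range.2 (by omega))]; simp
  have τ2 : ‖toC m (mon m D r (range 2))‖ = |tt m D r (range 2)| := by
    refine (pow_left_inj₀ (norm_nonneg _) (by positivity) two_ne_zero).1 ?_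
    rw [toC_sq, t2]; push_cast; rw [sq_abs]
  have τ1 : ‖toC m (mon m D r (range 1))‖ = |tt m D r (range 1)| * Real.sqrt m := by
    refine (pow_left_inj₀ (norm_nonneg _) (by positivity) two_ne_zero).1 ?_
    rw [toC_sq, t1, mul_pow, Real.sq_sqrt (Nat.cast_nonneg _)]; push_cast; rw [sq_abs]
  obtain ⟨w, w1, w2⟩ := exists_vertex h4 Dodd (n + 4)
  rw [← hr] at w1 w2
  refine ⟨⟨cn m D r, 2 ^ r, 2 ^ r * z ^ 3 * (x + 3), x, mon m D r ∅, w, ‖toC m (mon m D r (range 2))‖,
    (prod_pos fun i _ => by positivity).ne', by positivity, by simpa using cube0 m D r,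
    w1 ▸ Rep.single _, fun u c hu hc => ?_, ?_, ?_, ?_, ?_⟩, rfl, rfl, rfl⟩
  · have a0 := cov_class (m := m) (D := D) (δ := 0) (by omega) D0 (pow_pos z0 3) (by omega) adj
      (by omega) (by omega) (by omega) (by omega) (by omega) (by omega) c1 c2 c3 m0.ne' x
      (fun S hS => ?_) u.re (by
        obtain ⟨k, hk⟩ := hu
        rw [hk]
        exact Ideal.mul_mem_right _ _ (span_even (by omega) (by omega) Dm)) c (by
        have := (Complex.abs_re_le_norm _).trans hc
        rw [toC_re, τ2] at this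
        exact_mod_cast this)
    · have a1 := cov_class (m := m) (D := D) (δ := 1) (by omega) D0 (pow_pos z0 3) (by omega) adj
        (by omega) (by omega) (by omega) (by omega) (by omega) (by omega) c1 c2 c3 m0.ne' 1
        (fun S hS => ?_) u.im (by
          simpa using Ideal.mul_mem_left _ u.im
            (span_odd (r := r) (by omega) (by omega) (by omega) c1 Dm)) c (by
          have k1 := toC_le (z := mon m D r (range 2)) (w := mon m D r (range 1)) zero_le_one
            (by rw [one_pow, one_mul]; exact_mod_cast n21)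
          have k2 := ((Complex.abs_im_le_norm _).trans hc).trans
            (mul_le_mul_of_nonneg_left k1 (Nat.cast_nonneg c))
          rw [toC_im, τ1, abs_mul, abs_of_nonneg (Real.sqrt_nonneg _), one_mul, ← mul_assoc] at k2
          have := le_of_mul_le_mul_right k2 (by positivity)
          exact_mod_cast this)
      · refine Rep.of_eq (a0.add a1) rfl (by ring) ?_
        have : (u.re : ZK m) * Zsqrtd.sqrtd ^ 0 + (u.im : ZK m) * Zsqrtd.sqrtd ^ 1 = u := by
          ext <;> simp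
        rw [this]
        push_cast
        ring
      · obtain ⟨k1, k2, -⟩ := mem_cls.1 hS
        have := nS S
        rw [norm_mon' k1, k2, t1, pow_one] at this
        rw [Nat.cast_one, one_mul]
        exact sq_le_sq.1 (le_of_mul_le_mul_right this mz)
    · obtain ⟨k1, k2, -⟩ := mem_cls.1 hS
      have := (nS S).trans n12
      rw [norm_mon' k1, k2, t2, pow_zero, mul_one, ← mul_pow] at this
      have := sq_le_sq.1 this
      rwa [abs_mul, Nat.abs_cast] at this
  · rw [← ZMod.intCast_zmod_eq_zero_iff_dvd, ← toZ_apply (dvd_refl m), map_sub, w2, sub_self]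
  · have : ‖toC m (mon m D r ∅)‖ ≤ 1 / 32 * ‖toC m (mon m D r (range 2))‖ := by
      refine toC_le (by norm_num) ?_
      have k : 32 ^ 2 * (mon m D r ∅).norm ≤ (mon m D r (range 2)).norm := by
        rw [n0, n2]
        calc 32 ^ 2 * (V * D 1 ^ 2 * D 0 ^ 2) ≤ x ^ 2 * (V * D 1 ^ 2 * D 0 ^ 2) := by gcongr
          _ = V * (x : ℤ) ^ (2 * (n + 2)) * (x : ℤ) ^ (2 * (n + 2)) := by rw [e0, e1]; ring
          _ ≤ _ := by gcongr
      have k' : (32 : ℝ) ^ 2 * (mon m D r ∅).norm ≤ (mon m D r (range 2)).norm := by exact_mod_cast k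
      linarith
    linarith
  · refine toC_le (Nat.cast_nonneg _) ?_
    have k1 : cn m D r ≤ 2 ^ r * (mon m D r (range 1)).norm := by
      rw [norm_mon, cn, ← card_range r, ← prod_const, card_range, ← prod_mul_distrib]
      refine prod_le_prod (fun i _ => by positivity) fun i hi => ?_
      rcases i with _ | i
      · rw [if_pos (show 0 ∈ range 1 by simp)]; linarith
      · rw [if_neg (show i + 1 ∉ range 1 by simp)]; linarith [big i (mem_range.1 hi)]
    rw [← w1, Zsqrtd.norm_mul, Zsqrtd.norm_natCast] at k1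
    push_cast at k1
    have k2 : 0 ≤ w.norm := Zsqrtd.norm_nonneg (by omega) w
    have k3 : (1 : ℤ) ≤ 2 ^ r := one_le_pow₀ (by norm_num)
    have k4 : w.norm ≤ (mon m D r (range 1)).norm :=
      le_of_mul_le_mul_left (a := 2 ^ r) (by nlinarith [mul_nonneg k2 (sub_nonneg.2 k3)]) (by positivity)
    exact_mod_cast k4.trans n12
  · refine (pow_le_pow_iff_left₀ (by positivity) (norm_nonneg _) two_ne_zero).1 ?_
    rw [toC_sq, n2]
    have k1 : (m : ℤ) ^ (2 * n + 6) ≤ V := by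
      rw [hV, ← card_range (2 * n + 6), ← prod_const, card_range]
      exact prod_le_prod (fun i _ => mz.le) fun i hi => big _ (by have := mem_range.1 hi; omega)
    have k2 : (m : ℤ) ^ 6 ≤ V := (pow_le_pow_right₀ (by omega) (by omega)).trans k1
    have k3 : (50 : ℤ) ≤ m := le_trans (by
      calc (50 : ℤ) ≤ 32 ^ 2 := by norm_num
        _ ≤ (x : ℤ) ^ 2 := by gcongr
        _ ≤ _ := pow_le_pow_right₀ (by omega) (by omega)) h1z
    have k4 : (50 * (m : ℤ) ^ 3) ^ 2 ≤ V * m * m := by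
      calc (50 * (m : ℤ) ^ 3) ^ 2 = m ^ 6 * 50 * 50 := by ring
        _ ≤ _ := by gcongr
    exact_mod_cast k4

theorem exists_primes (J w : ℕ) (hm0 : m ≠ 0) (hm : m < 2 ^ (J * w)) :
    ∃ x y z : ℕ, x.Prime ∧ y.Prime ∧ z.Prime ∧ 2 ^ J < x ∧ x < y ∧ y < z ∧ z ≤ 2 ^ (J + w + 3) ∧
      ¬ x ∣ m ∧ ¬ y ∣ m ∧ ¬ z ∣ m := by
  choose f hf h1 h2 using fun j : ℕ => Nat.exists_prime_lt_and_le_two_mul (2 ^ (J + j)) (by positivity)
  have mono : StrictMono f := strictMono_nat_of_lt_succ fun j =>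
    (h2 j).trans_lt (by rw [← pow_succ']; exact h1 (j + 1))
  have hG : ((range (w + 3)).filter fun j => f j ∣ m).card < w := by
    set G := (range (w + 3)).filter fun j => f j ∣ m with hGd
    have a1 : ∏ j ∈ G, f j ∣ m := by
      rw [← prod_image (f := fun q => q) (mono.injective.injOn)]
      refine prod_primes_dvd _ (fun q hq => ?_) fun q hq => ?_
      · obtain ⟨j, -, rfl⟩ := mem_image.1 hq
        exact (hf j).prime
      · obtain ⟨j, hj, rfl⟩ := mem_image.1 hq
        exact (mem_filter.1 hj).2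
    have a2 : (2 ^ J) ^ G.card ≤ ∏ j ∈ G, f j := pow_card_le_prod _ _ _ fun j _ =>
      (Nat.pow_le_pow_right (by norm_num) (by omega)).trans (h1 j).le
    have a3 := (a2.trans (Nat.le_of_dvd (Nat.pos_of_ne_zero hm0) a1)).trans_lt hm
    rw [← pow_mul, Nat.pow_lt_pow_iff_right (by norm_num)] at a3
    exact lt_of_mul_lt_mul_left a3 (Nat.zero_le _)
  have hc := card_filter_add_card_filter_not (s := range (w + 3)) fun j => f j ∣ m
  rw [card_range] at hc
  obtain ⟨H, a1, a2⟩ := exists_subset_card_eq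
    (show 3 ≤ ((range (w + 3)).filter fun j => ¬ f j ∣ m).card by omega)
  have hm' := fun i => mem_filter.1 (a1 (orderEmbOfFin_mem H a2 i))
  refine ⟨f (H.orderEmbOfFin a2 0), f (H.orderEmbOfFin a2 1), f (H.orderEmbOfFin a2 2), hf _, hf _, hf _,
    (Nat.pow_le_pow_right (by norm_num) (by omega)).trans_lt (h1 _),
    mono ((H.orderEmbOfFin a2).strictMono (by decide)), mono ((H.orderEmbOfFin a2).strictMono (by decide)),
    (h2 _).trans ?_, (hm' 0).2, (hm' 1).2, (hm' 2).2⟩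
  rw [← pow_succ']
  have := mem_range.1 (hm' 2).1
  exact Nat.pow_le_pow_right (by norm_num) (by omega)

theorem quasi_nat {p : ℕ} (hsq : Squarefree m) (h4 : m % 4 = 3) (hp : p.Prime) (hpm : p ∣ m)
    (hq : ∀ q, q.Prime → q ∣ m → q ≤ p) (J w : ℕ) (hJ : 5 ≤ J) (hm : m < 2 ^ (J * w))
    (hbig : (Nat.log 2 p + 1) * 2 ^ (4 * J + 6 * w + 22) ≤ p) : HasGon m p := by
  have m0 : m ≠ 0 := by omega
  obtain ⟨x, y, z, px, py, pz, a1, a2, a3, a4, nx, ny, nz⟩ := exists_primes J w m0 hm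
  have x32 : 32 ≤ x := le_trans (Nat.pow_le_pow_right (n := 2) (by norm_num) hJ) a1.le
  have pm : p ≤ m := Nat.le_of_dvd (by omega) hpm
  have b1 : 2 ^ (4 * J + 6 * w + 22) ≤ p := le_trans (Nat.le_mul_of_pos_left _ (by omega)) hbig
  have x4 : x ^ 4 ≤ m := by
    calc x ^ 4 ≤ (2 ^ (J + w + 3)) ^ 4 := by gcongr; omega
      _ ≤ 2 ^ (4 * J + 6 * w + 22) := by
        rw [← pow_mul]; exact Nat.pow_le_pow_right (by norm_num) (by omega)
      _ ≤ m := b1.trans pm
  have l4 : 4 ≤ Nat.log x m := Nat.le_log_of_pow_le px.one_lt x4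
  have lw : Nat.log x m < w := Nat.log_lt_of_lt_pow m0 (hm.trans_le (by rw [pow_mul]; gcongr))
  obtain ⟨n, n1, n2⟩ : ∃ n, 2 * (n + 2) ≤ Nat.log x m ∧ Nat.log x m + 1 ≤ 2 * (n + 3) :=
    ⟨Nat.log x m / 2 - 2, by omega, by omega⟩
  obtain ⟨B, e1, e2, e3⟩ := exists_bulk (n := n) h4 x32 a2.le a3.le (px.odd_of_ne_two (by omega))
    (py.odd_of_ne_two (by omega)) (pz.odd_of_ne_two (by omega))
    ((Nat.coprime_primes px py).2 a2.ne) ((Nat.coprime_primes px pz).2 (a2.trans a3).ne)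
    ((Nat.coprime_primes py pz).2 a3.ne) (px.coprime_iff_not_dvd.2 nx) (py.coprime_iff_not_dvd.2 ny)
    (pz.coprime_iff_not_dvd.2 nz)
    ((Nat.pow_le_pow_right px.pos n1).trans (Nat.pow_log_le_self x m0))
    ((Nat.lt_pow_succ_log_self px.one_lt m).le.trans (Nat.pow_le_pow_right px.pos n2))
  have p29 : 29 ≤ p := le_trans (le_trans (by norm_num)
    (Nat.pow_le_pow_right (n := 2) (by norm_num) (show 5 ≤ _ by omega))) b1
  obtain ⟨N, k1, k2⟩ := B.seed (by omega) hsq (Nat.odd_iff.1 (hp.odd_of_ne_two (by omega))) hq (by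
    refine le_trans ?_ hbig
    have hE : B.E ≤ 2 ^ (w + 3) := e1 ▸ Nat.pow_le_pow_right (by norm_num) (by omega)
    have hE1 := B.hE
    have hz : 1 ≤ z ^ 3 := Nat.one_le_pow _ _ pz.pos
    have c1 : B.C + 2 * (B.E * B.L) + 4 ≤ 4 * (B.E * (z ^ 3 * z)) := by
      rw [e2, e3, ← e1]
      have u1 : B.E * x ≤ B.E * (z ^ 3 * x) := by gcongr; exact Nat.le_mul_of_pos_left _ hz
      have u2 : B.E * (z ^ 3 * x) ≤ B.E * (z ^ 3 * z) := by gcongr; omega
      have u3 : B.E * (z ^ 3 * 32) ≤ B.E * (z ^ 3 * z) := by gcongr; omega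
      have u4 : 1 * 1 ≤ B.E * z ^ 3 := Nat.mul_le_mul hE1 hz
      nlinarith
    calc 4 * (B.E * ((Nat.log 2 p + 1) * (B.C + 2 * (B.E * B.L) + 4)))
        ≤ 4 * (2 ^ (w + 3) * ((Nat.log 2 p + 1) *
          (4 * (2 ^ (w + 3) * ((2 ^ (J + w + 3)) ^ 3 * 2 ^ (J + w + 3)))))) := by
          gcongr
          exact c1.trans (by gcongr)
      _ = _ := by ring)
  exact hasGon_of_rep hp p29 hpm (fun h => hp.prime.not_isUnit (hsq p (by rwa [← sq]))) k1 k2

theorem quasi {p : ℕ} (hsq : Squarefree m) (h4 : m % 4 = 3) (hp : p.Prime) (hpm : p ∣ m)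
    (hq : ∀ q, q.Prime → q ∣ m → q ≤ p) (h : Real.log m ≤ Real.log p ^ 2 / 200) : HasGon m p := by
  have p1 : (1 : ℝ) < p := by exact_mod_cast hp.one_lt
  have pm : (p : ℝ) ≤ m := by exact_mod_cast Nat.le_of_dvd (by omega) hpm
  have l0 := Real.log_pos p1
  have l1 := (Real.log_le_log (by linarith) pm).trans h
  have l2 : 200 ≤ Real.log p := by nlinarith
  set k := Nat.log 2 p with hk
  have k1 : 2 ^ k ≤ p := Nat.pow_log_le_self 2 hp.ne_zero
  have k2 : p < 2 ^ (k + 1) := Nat.lt_pow_succ_log_self (by norm_num) p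
  have t1 := Real.log_two_lt_d9
  have t0 := Real.log_pos (show (1 : ℝ) < 2 by norm_num)
  have l3 : Real.log p < (k + 1) * Real.log 2 := by
    have : (p : ℝ) < 2 ^ (k + 1) := by exact_mod_cast k2
    have := Real.log_lt_log (by linarith) this
    rwa [Real.log_pow, Nat.cast_succ] at this
  have k3 : 200 ≤ k := by
    have : (200 : ℝ) < k + 1 := by nlinarith [Nat.cast_nonneg (α := ℝ) k]
    have : 200 < k + 1 := by exact_mod_cast this
    omega
  refine quasi_nat hsq h4 hp hpm hq (k / 10) (k / 20) (by omega) ?_ ?_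
  · have a1 : (k : ℝ) - 9 ≤ 10 * (k / 10 : ℕ) := by
      have : k ≤ 10 * (k / 10) + 9 := by omega
      have : (k : ℝ) ≤ 10 * (k / 10 : ℕ) + 9 := by exact_mod_cast this
      linarith
    have a2 : (k : ℝ) - 19 ≤ 20 * (k / 20 : ℕ) := by
      have : k ≤ 20 * (k / 20) + 19 := by omega
      have : (k : ℝ) ≤ 20 * (k / 20 : ℕ) + 19 := by exact_mod_cast this
      linarith
    have k4 : (200 : ℝ) ≤ k := by exact_mod_cast k3
    have a3 := mul_le_mul a1 a2 (by linarith) (by positivity)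
    have a4 : ((k : ℝ) + 1) ^ 2 * Real.log 2 ≤ 200 * ((k / 10 : ℕ) * (k / 20 : ℕ)) := by nlinarith
    have a5 : Real.log p ^ 2 < ((k + 1) * Real.log 2) ^ 2 := by gcongr
    have a6 : Real.log m < Real.log (2 ^ (k / 10 * (k / 20))) := by
      rw [Real.log_pow]
      push_cast
      nlinarith
    have := (Real.log_lt_log_iff (by linarith) (by positivity)).1 a6
    exact_mod_cast this
  · have a1 : ∀ j, 10 * (j + 7) + 10 ≤ 2 ^ (j + 7) := by
      intro j
      induction j with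
      | zero => norm_num
      | succ j ih => rw [show j + 1 + 7 = j + 7 + 1 by ring, pow_succ]; omega
    have a2 := a1 (k / 10 - 7)
    rw [Nat.sub_add_cancel (by omega)] at a2
    calc (k + 1) * 2 ^ (4 * (k / 10) + 6 * (k / 20) + 22)
        ≤ 2 ^ (k / 10) * 2 ^ (4 * (k / 10) + 6 * (k / 20) + 22) := by gcongr; omega
      _ ≤ 2 ^ k := by rw [← pow_add]; exact Nat.pow_le_pow_right (by norm_num) (by omega)
      _ ≤ p := k1

end Pool.Agent.P.MP_b75a1e_co
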