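import Pool.Agent.P.MP_b75a1e_co.Distinct

set_option autoImplicit false

open Finset

namespace Pool.Agent.P.MP_b75a1e_co

/-- `z` is a sum of `n` elements of norm `N`. -/
def Rep {d : ℤ} (N : ℤ) (n : ℕ) (z : ℤ√d) : Prop :=
  ∃ l : Multiset (ℤ√d), l.card = n ∧ (∀ x ∈ l, x.norm = N) ∧ l.sum = z

theorem Rep.zero {d : ℤ} (N : ℤ) : Rep N 0 (0 : ℤ√d) := ⟨0, rfl, by simp, rfl⟩

theorem Rep.single {d : ℤ} (x : ℤ√d) : Rep x.norm 1 x := ⟨{x}, rfl, by simp, by simp⟩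

theorem Rep.add {d N : ℤ} {n n' : ℕ} {z z' : ℤ√d} (h : Rep N n z) (h' : Rep N n' z') :
    Rep N (n + n') (z + z') := by
  obtain ⟨l, rfl, h1, rfl⟩ := h
  obtain ⟨l', rfl, h2, rfl⟩ := h'
  exact ⟨l + l', by simp, fun x hx => (Multiset.mem_add.1 hx).elim (h1 x) (h2 x), by simp⟩

theorem Rep.mul {d N : ℤ} {n : ℕ} {z : ℤ√d} (h : Rep N n z) (y : ℤ√d) :
    Rep (N * y.norm) n (z * y) := by
  obtain ⟨l, rfl, h1, rfl⟩ := h
  refine ⟨l.map (· * y), by simp, fun x hx => ?_, by rw [Multiset.sum_map_mul_right]; simp⟩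
  obtain ⟨w, hw, rfl⟩ := Multiset.mem_map.1 hx
  rw [Zsqrtd.norm_mul, h1 w hw]

theorem Rep.nsmul {d N : ℤ} {n : ℕ} {z : ℤ√d} (h : Rep N n z) (k : ℕ) :
    Rep N (k * n) ((k : ℤ√d) * z) := by
  induction k with
  | zero => simpa using Rep.zero N
  | succ k ih =>
    have := ih.add h
    rwa [← Nat.succ_mul, show (k : ℤ√d) * z + z = ((k + 1 : ℕ) : ℤ√d) * z by push_cast; ring] at this

theorem Rep.of_eq {d N N' : ℤ} {n n' : ℕ} {z z' : ℤ√d} (h : Rep N n z) (h1 : N = N') (h2 : n = n')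
    (h3 : z = z') : Rep N' n' z' := h1 ▸ h2 ▸ h3 ▸ h

theorem hasGon_of_rep {p m : ℕ} (hp : p.Prime) (h29 : 29 ≤ p) (h1 : p ∣ m) (h2 : ¬ p ^ 2 ∣ m) {N : ℤ}
    (hN : N ≠ 0) (h : Rep N p (0 : ℤ√(-(m : ℤ)))) : HasGon m p := by
  obtain ⟨l, k1, k2, k3⟩ := h
  induction l using Quotient.inductionOn with
  | _ L =>
    have k1' : L.length = p := k1
    subst k1'
    have : Fact L.length.Prime := ⟨hp⟩
    refine hasGon_of_walk h29 h1 h2 (fun i => emb m (L[i.1]).re (L[i.1]).im) (fun i => ⟨_, _, rfl⟩) N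
      (by exact_mod_cast hN) (fun i => ?_) ?_
    · rw [normSq_emb, ← k2 L[i.1] (by simp), Zsqrtd.norm_def]
      push_cast
      ring
    · have e : ∑ i : Fin L.length, L[i.1] = 0 := by
        rw [Fin.sum_univ_getElem]
        simpa using k3
      have e1 : ∀ (T : Finset (Fin L.length)) (f : Fin L.length → ℤ√(-(m : ℤ))),
          (∑ i ∈ T, f i).re = ∑ i ∈ T, (f i).re ∧ (∑ i ∈ T, f i).im = ∑ i ∈ T, (f i).im := by
        intro T f
        induction T using Finset.induction_on with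
        | empty => simp
        | insert a T ha ih => simp [sum_insert ha, ih.1, ih.2]
      rw [sum_emb, ← Int.cast_sum, ← Int.cast_sum, ← (e1 _ _).1, ← (e1 _ _).2, e]
      simpa using emb_zero m

theorem three_factors {p a b c m : ℕ} (hp : p.Prime) (h29 : 29 ≤ p) (hm : m = p * (a * b * c))
    (h2 : ¬ p ^ 2 ∣ m) (h4 : m % 4 = 3) (hs : a + b + c ≤ p) : HasGon m p := by
  have key : ∀ p a b c : ZMod 4, p * (a * b * c) = 3 →
      p + a + c = b ∧ p + a + b = c ∧ p = a + b + c ∧ p + b + c = a := by decide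
  obtain ⟨e1, e2, e3, e4⟩ := key p a b c (by
    have : ((m : ℕ) : ZMod 4) = ((3 : ℕ) : ZMod 4) := (ZMod.natCast_eq_natCast_iff' _ _ _).2 h4
    rw [hm] at this
    exact_mod_cast this)
  have f1 : (p + a + c) % 4 = b % 4 := (ZMod.natCast_eq_natCast_iff' _ _ _).1 (by exact_mod_cast e1)
  have f2 : (p + a + b) % 4 = c % 4 := (ZMod.natCast_eq_natCast_iff' _ _ _).1 (by exact_mod_cast e2)
  have f3 : p % 4 = (a + b + c) % 4 := (ZMod.natCast_eq_natCast_iff' _ _ _).1 (by exact_mod_cast e3)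
  have f4 : (p + b + c) % 4 = a % 4 := (ZMod.natCast_eq_natCast_iff' _ _ _).1 (by exact_mod_cast e4)
  obtain ⟨n1, g1⟩ : ∃ n, 4 * n + b = p + a + c := ⟨(p + a + c - b) / 4, by omega⟩
  obtain ⟨n2, g2⟩ : ∃ n, 4 * n + c = p + a + b := ⟨(p + a + b - c) / 4, by omega⟩
  obtain ⟨n3, g3⟩ : ∃ n, 4 * n + (a + b + c) = p := ⟨(p - (a + b + c)) / 4, by omega⟩
  obtain ⟨n4, g4⟩ : ∃ n, 4 * n + a = p + b + c := ⟨(p + b + c - a) / 4, by omega⟩
  have hm0 : 0 < m := by omega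
  have hmz : (m : ℤ) = p * (a * b * c) := by exact_mod_cast hm
  have r : ∀ (ε η : ℤ) (n : ℕ), ε ^ 2 = 1 → η ^ 2 = 1 →
      Rep (((a * c) ^ 2 + m) * ((b * c) ^ 2 + m)) n
        ((n : ℤ√(-(m : ℤ))) * (⟨a * c, ε⟩ * ⟨b * c, η⟩)) := by
    intro ε η n hε hη
    refine ((Rep.single _).nsmul n).of_eq ?_ (mul_one n) rfl
    rw [Zsqrtd.norm_mul, Zsqrtd.norm_def, Zsqrtd.norm_def]
    simp only
    congr 1
    · linear_combination (m : ℤ) * hε
    · linear_combination (m : ℤ) * hη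
  refine hasGon_of_rep hp h29 ⟨_, hm⟩ h2 (N := ((a * c) ^ 2 + m) * ((b * c) ^ 2 + m)) (by positivity)
    (((((r 1 1 n1 rfl rfl).add (r 1 (-1) n2 rfl rfl)).add (r (-1) 1 n3 rfl rfl)).add
      (r (-1) (-1) n4 rfl rfl)).of_eq rfl (by omega) ?_)
  zify at g1 g2 g3 g4
  ext
  · simp only [Zsqrtd.re_add, Zsqrtd.re_mul, Zsqrtd.im_mul, Zsqrtd.re_natCast, Zsqrtd.im_natCast,
      Zsqrtd.re_zero]
    apply mul_left_cancel₀ (show (4 : ℤ) ≠ 0 by norm_num)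
    rw [hmz]
    linear_combination ((a : ℤ) * b * c ^ 2 - p * (a * b * c)) * (g1 + g4) +
      ((a : ℤ) * b * c ^ 2 + p * (a * b * c)) * (g2 + g3)
  · simp only [Zsqrtd.im_add, Zsqrtd.re_mul, Zsqrtd.im_mul, Zsqrtd.re_natCast, Zsqrtd.im_natCast,
      Zsqrtd.im_zero]
    apply mul_left_cancel₀ (show (4 : ℤ) ≠ 0 by norm_num)
    linear_combination ((a : ℤ) * c + b * c) * (g1 - g4) + ((b : ℤ) * c - a * c) * (g2 - g3)

end Pool.Agent.P.MP_b75a1e_co
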