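import Pool.Agent.P.MP_b75a1e_co.Cube

set_option autoImplicit false

open Finset

namespace Pool.Agent.P.MP_b75a1e_co

/-- The complex embedding. -/
noncomputable def toC (m : ℕ) : ZK m →+* ℂ :=
  Zsqrtd.lift ⟨(Real.sqrt m : ℂ) * Complex.I, by
    have : (Real.sqrt m : ℂ) * (Real.sqrt m : ℂ) = m := by
      rw [← Complex.ofReal_mul, Real.mul_self_sqrt (Nat.cast_nonneg _)]; simp
    push_cast
    linear_combination (Complex.I * Complex.I) * this + (m : ℂ) * Complex.I_mul_I⟩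

variable {m : ℕ}

theorem toC_re (z : ZK m) : (toC m z).re = z.re := by simp [toC]

theorem toC_im (z : ZK m) : (toC m z).im = z.im * Real.sqrt m := by simp [toC]

theorem toC_sq (z : ZK m) : ‖toC m z‖ ^ 2 = z.norm := by
  have := Real.mul_self_sqrt (Nat.cast_nonneg (α := ℝ) m)
  rw [← Complex.normSq_eq_norm_sq, Complex.normSq_apply, toC_re, toC_im, Zsqrtd.norm_def]
  push_cast
  linear_combination (z.im : ℝ) ^ 2 * this

theorem toC_le {z w : ZK m} {k : ℝ} (hk : 0 ≤ k) (h : (z.norm : ℝ) ≤ k ^ 2 * w.norm) :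
    ‖toC m z‖ ≤ k * ‖toC m w‖ := by
  refine (pow_le_pow_iff_left₀ (norm_nonneg _) (by positivity) two_ne_zero).1 ?_
  rwa [mul_pow, toC_sq, toC_sq]

/-- Reduction modulo a ramified prime. -/
def toZ {q : ℕ} (h : q ∣ m) : ZK m →+* ZMod q :=
  Zsqrtd.lift ⟨0, by simp [(ZMod.natCast_eq_zero_iff m q).2 h]⟩

theorem toZ_apply {q : ℕ} (h : q ∣ m) (z : ZK m) : toZ h z = z.re := by simp [toZ]

theorem toZ_eq_zero {q : ℕ} (h : q ∣ m) {z : ZK m} (hz : (m : ℤ) ∣ z.re) : toZ h z = 0 := by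
  rw [toZ_apply, ZMod.intCast_zmod_eq_zero_iff_dvd]
  exact (Int.natCast_dvd_natCast.2 h).trans hz

theorem exists_shift {d d' : ℕ} (hm : m = d * d') (hc : Nat.Coprime d d') (ho : m % 2 = 1) (F : ZK m) :
    ∃ z y : ZK m, (m : ℤ) ∣ z.re ∧ ‖toC m z‖ ≤ 50 * (m : ℝ) ^ 3 ∧
      F + (⟨4 * d - d', -4⟩ : ZK m) * z = (⟨4 * d - d', 4⟩ : ZK m) * y := by
  have hmz : (m : ℤ) = d * d' := by exact_mod_cast hm
  have hd : Odd d ∧ Odd d' := Nat.odd_mul.1 (hm ▸ Nat.odd_iff.2 ho)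
  have c0 : IsCoprime (d : ℤ) d' := Nat.isCoprime_iff_coprime.2 hc
  have c2 : IsCoprime (2 : ℤ) d' := by
    have := Nat.isCoprime_iff_coprime.2 (Nat.coprime_two_left.2 hd.2)
    exact_mod_cast this
  have c4 : IsCoprime (4 * d : ℤ) d' := by
    have := (c2.mul_left c2).mul_left c0
    rwa [show (2 : ℤ) * 2 = 4 by norm_num] at this
  have cX : IsCoprime (4 * d - d' : ℤ) d' := by
    have := c4.add_mul_left_left (-1)
    rwa [show (4 * d + d' * -1 : ℤ) = 4 * d - d' by ring] at this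
  have cXm : IsCoprime (4 * d - d' : ℤ) m := by
    rw [hmz]
    refine IsCoprime.mul_right ?_ cX
    have := c0.symm.neg_left.add_mul_left_left 4
    rwa [show (-d' + d * 4 : ℤ) = 4 * d - d' by ring] at this
  have c2X : IsCoprime (2 : ℤ) (4 * d - d') := by
    have := c2.neg_right.add_mul_left_right (2 * d)
    rwa [show (-d' + 2 * (2 * d) : ℤ) = 4 * d - d' by ring] at this
  have cν : IsCoprime (2 * (4 * d - d') : ℤ) ((4 * d + d') ^ 2) := by
    refine IsCoprime.pow_right (IsCoprime.mul_left ?_ ?_)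
    · have := c2.add_mul_left_right (2 * d)
      rwa [show (d' + 2 * (2 * d) : ℤ) = 4 * d + d' by ring] at this
    · have := (c2X.symm.mul_right cX).add_mul_left_right 1
      rwa [show (2 * d' + (4 * d - d') * 1 : ℤ) = 4 * d + d' by ring] at this
  set γ : ZK m := ⟨4 * d - d', 4⟩ with hγ
  set γ' : ZK m := ⟨4 * d - d', -4⟩ with hγ'
  have e1 : γ * γ' = (((4 * d + d') ^ 2 : ℤ) : ZK m) := by
    ext
    · simp only [hγ, hγ', Zsqrtd.re_mul, Zsqrtd.re_intCast]; rw [hmz]; ring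
    · simp only [hγ, hγ', Zsqrtd.im_mul, Zsqrtd.im_intCast]; ring
  have e2 : γ + γ' = ((2 * (4 * d - d') : ℤ) : ZK m) := by
    ext
    · simp only [hγ, hγ', Zsqrtd.re_add, Zsqrtd.re_intCast]; ring
    · simp only [hγ, hγ', Zsqrtd.im_add, Zsqrtd.im_intCast]; ring
  have e3 : γ = ((4 * d - d' : ℤ) : ZK m) + 4 * Zsqrtd.sqrtd := by ext <;> simp [hγ]
  have e4 : (Zsqrtd.sqrtd : ZK m) * Zsqrtd.sqrtd = ((-(m : ℤ) : ℤ) : ZK m) := Zsqrtd.dmuld
  have k1 : IsCoprime γ γ' := by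
    obtain ⟨a, b, h⟩ := cν
    have h' := congrArg (Int.cast (R := ZK m)) h
    rw [Int.cast_add, Int.cast_mul a, Int.cast_mul b, ← e1, ← e2, Int.cast_one] at h'
    exact ⟨(a : ZK m) + (b : ZK m) * γ', a, by linear_combination h'⟩
  have k2 : IsCoprime γ (Zsqrtd.sqrtd : ZK m) := by
    obtain ⟨a, b, h⟩ := cXm
    have h' := congrArg (Int.cast (R := ZK m)) h
    rw [Int.cast_add, Int.cast_mul a, Int.cast_mul b, Int.cast_one] at h'
    rw [Int.cast_neg] at e4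
    exact ⟨a, -4 * (a : ZK m) - (b : ZK m) * Zsqrtd.sqrtd, by linear_combination h' + (a : ZK m) * e3 - (b : ZK m) * e4⟩
  obtain ⟨u, v, huv⟩ := k1.mul_right k2
  set z0 : ZK m := Zsqrtd.sqrtd * (-(F * v)) with hz0
  have hz : (m : ℤ) ∣ z0.re := ⟨(F * v).im, by simp [hz0]⟩
  set ν : ℤ := (4 * d + d') ^ 2 with hν
  have hm0 : (0 : ℤ) < m := by exact_mod_cast (show 0 < m by omega)
  have hd0 : (1 : ℤ) ≤ d := by exact_mod_cast hd.1.pos
  have hd1 : (1 : ℤ) ≤ d' := by exact_mod_cast hd.2.pos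
  have hν0 : 0 < ν := by positivity
  have hν1 : ν ≤ 25 * (m : ℤ) ^ 2 := by
    have : (4 * d + d' : ℤ) ≤ 5 * m := by rw [hmz]; nlinarith
    calc ν ≤ (5 * (m : ℤ)) ^ 2 := pow_le_pow_left₀ (by positivity) this 2
      _ = _ := by ring
  refine ⟨⟨z0.re % (m * ν), z0.im % ν⟩, F * u - γ' * γ' * ⟨m * (z0.re / (m * ν)), z0.im / ν⟩,
    (EuclideanDomain.dvd_mod_iff (dvd_mul_right _ _)).2 hz, ?_, ?_⟩
  · refine (Complex.norm_le_abs_re_add_abs_im _).trans ?_
    rw [toC_re, toC_im, abs_mul, abs_of_nonneg (Real.sqrt_nonneg _)]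
    have a1 : |z0.re % (m * ν)| ≤ 25 * (m : ℤ) ^ 3 := by
      rw [abs_of_nonneg (Int.emod_nonneg _ (by positivity))]
      have := Int.emod_lt_of_pos z0.re (show 0 < m * ν by positivity)
      nlinarith
    have a2 : |z0.im % ν| ≤ 25 * (m : ℤ) ^ 2 := by
      rw [abs_of_nonneg (Int.emod_nonneg _ hν0.ne')]
      have := Int.emod_lt_of_pos z0.im hν0
      linarith
    have a3 : Real.sqrt m ≤ m := by
      rw [Real.sqrt_le_left (Nat.cast_nonneg _)]
      have : (1 : ℝ) ≤ m := by exact_mod_cast hm0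
      nlinarith
    have a1' : |((z0.re % (m * ν) : ℤ) : ℝ)| ≤ 25 * (m : ℝ) ^ 3 := by exact_mod_cast a1
    have a2' : |((z0.im % ν : ℤ) : ℝ)| ≤ 25 * (m : ℝ) ^ 2 := by exact_mod_cast a2
    have := mul_le_mul a2' a3 (Real.sqrt_nonneg _) (by positivity)
    simp only
    nlinarith
  · have e5 : (⟨z0.re % (m * ν), z0.im % ν⟩ : ZK m) =
        z0 - (ν : ZK m) * ⟨m * (z0.re / (m * ν)), z0.im / ν⟩ := by
      ext
      · simp only [Zsqrtd.re_sub, Zsqrtd.re_smul, Int.emod_def]; ring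
      · simp only [Zsqrtd.im_sub, Zsqrtd.im_smul, Int.emod_def]
    rw [e5, ← e1, hz0]
    linear_combination (-F) * huv

theorem exists_bits (l : ℕ) : ∀ t, t < 2 ^ l → ∃ A ⊆ range l, ∑ j ∈ A, 2 ^ j = t := by
  induction l with
  | zero => exact fun t h => ⟨∅, empty_subset _, by simp; omega⟩
  | succ l ih =>
    intro t h
    by_cases h' : t < 2 ^ l
    · obtain ⟨A, h1, h2⟩ := ih t h'
      exact ⟨A, h1.trans (range_subset_range.2 (by omega)), h2⟩
    · obtain ⟨A, h1, h2⟩ := ih (t - 2 ^ l) (by rw [pow_succ] at h; omega)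
      refine ⟨insert l A, by rw [range_add_one]; exact insert_subset_insert _ h1, ?_⟩
      rw [sum_insert fun e => by simpa using h1 e]
      omega

/-- A family of vectors of one norm whose sums cover the ramified ideal. -/
structure Bulk (m : ℕ) where
  N : ℤ
  E : ℕ
  C : ℕ
  L : ℕ
  M : ZK m
  w : ZK m
  τ : ℝ
  hN : N ≠ 0
  hE : 0 < E
  hM : Rep N E ((E : ZK m) * M)
  hw : Rep N 1 ((E : ZK m) * w)
  hC : ∀ (z : ZK m) (c : ℕ), (m : ℤ) ∣ z.re → ‖toC m z‖ ≤ c * τ →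
    Rep N (E * (2 * c + C)) ((E : ZK m) * (((2 * c + C : ℕ) : ZK m) * M + z))
  hMw : (m : ℤ) ∣ ((E : ZK m) * w - M).re
  sM : 32 * ‖toC m M‖ ≤ τ
  sw : ‖toC m w‖ ≤ L * τ
  sτ : 50 * (m : ℝ) ^ 3 ≤ τ

theorem Bulk.types (B : Bulk m) (ho : m % 2 = 1) (d d' : ℕ → ℕ) (hd : ∀ j, m = d j * d' j)
    (hc : ∀ j, Nat.Coprime (d j) (d' j)) (l : ℕ) :
    ∃ (Γ y : ZK m) (α : ℕ), Γ.norm ≠ 0 ∧
      Rep (B.N * Γ.norm) (∑ j ∈ range l, 2 ^ j + l * (B.E * (2 + B.C))) ((B.E : ZK m) * y * Γ) ∧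
      B.E * α ≤ ∑ j ∈ range l, 2 ^ j + l * (B.E * (2 + B.C)) ∧
      ‖toC m y‖ ≤ α * ‖toC m B.M‖ + l * (B.E * ‖toC m B.w‖) + l * B.τ ∧
      ∀ q, q.Prime → ∀ h : q ∣ m, toZ h y =
        (∑ j ∈ range l, (if q ∣ d j then -1 else 1) * 2 ^ j + l * (B.E * (2 + B.C))) * toZ h B.w := by
  induction l with
  | zero => exact ⟨1, 0, 0, by simp, by simpa using Rep.zero _, by simp, by simp, by simp⟩
  | succ l ih =>
    obtain ⟨Γ, y, α, h1, h2, h3, h4, h5⟩ := ih
    obtain ⟨a, b, hb, hab⟩ : ∃ a b, b < B.E ∧ 2 ^ l = B.E * a + b :=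
      ⟨_, _, Nat.mod_lt _ B.hE, (Nat.div_add_mod _ _).symm⟩
    have hmz : (m : ℤ) = d l * d' l := by exact_mod_cast hd l
    have hdo : Odd (d l) ∧ Odd (d' l) := Nat.odd_mul.1 (hd l ▸ Nat.odd_iff.2 ho)
    set γ : ZK m := ⟨4 * d l - d' l, 4⟩ with hγ
    set γ' : ZK m := ⟨4 * d l - d' l, -4⟩ with hγ'
    set ν : ℕ := 4 * d l + d' l with hν
    have hν0 : 0 < ν := by have := hdo.2.pos; omega
    have n1 : γ.norm = ν * ν := by
      simp only [hγ, Zsqrtd.norm_def, hν]; rw [hmz]; push_cast; ring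
    have n2 : γ'.norm = ν * ν := by
      simp only [hγ', Zsqrtd.norm_def, hν]; rw [hmz]; push_cast; ring
    obtain ⟨z, y', k1, k2, k3⟩ := exists_shift (hd l) (hc l) ho
      ((ν : ZK m) * ((a : ZK m) * B.M + (b : ZK m) * B.w) + γ' * (((2 * 1 + B.C : ℕ) : ZK m) * B.M))
    have r1 := (((B.hM.nsmul a).add (B.hw.nsmul b)).mul (ν : ZK m)).mul Γ
    have r2 := ((B.hC z 1 k1 (by simpa using k2.trans B.sτ)).mul γ').mul Γ
    have r3 := h2.mul γ
    rw [Zsqrtd.norm_natCast] at r1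
    rw [n2] at r2
    rw [n1, mul_right_comm] at r3
    rw [← hγ, ← hγ'] at k3
    refine ⟨Γ * γ, y + y', α + (a + (2 + B.C)), ?_, ((r3.add r1).add r2).of_eq ?_ ?_ ?_, ?_, ?_, ?_⟩
    · rw [Zsqrtd.norm_mul, n1]
      exact mul_ne_zero h1 (by positivity)
    · rw [Zsqrtd.norm_mul, n1]; ring
    · rw [sum_range_succ, hab]; ring
    · linear_combination (B.E : ZK m) * Γ * k3
    · rw [sum_range_succ, hab]; nlinarith
    · have s1 : ‖toC m γ‖ = ν := by
        refine (pow_left_inj₀ (norm_nonneg _) (Nat.cast_nonneg _) two_ne_zero).1 ?_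
        rw [toC_sq, n1]; push_cast; ring
      have s2 : ‖toC m γ'‖ = ν := by
        refine (pow_left_inj₀ (norm_nonneg _) (Nat.cast_nonneg _) two_ne_zero).1 ?_
        rw [toC_sq, n2]; push_cast; ring
      have s3 := congrArg (fun x => ‖toC m x‖) k3
      simp only [map_add, map_mul, map_natCast, norm_mul, s1] at s3
      have s4 : ‖toC m y'‖ ≤ a * ‖toC m B.M‖ + b * ‖toC m B.w‖ +
          (2 * 1 + B.C : ℕ) * ‖toC m B.M‖ + ‖toC m z‖ := by
        refine le_of_mul_le_mul_left ?_ (show (0 : ℝ) < ν by exact_mod_cast hν0)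
        rw [← s3]
        refine (norm_add_le _ _).trans ((add_le_add_left (norm_add_le _ _) _).trans ?_)
        have := norm_add_le ((a : ℂ) * toC m B.M) ((b : ℂ) * toC m B.w)
        simp only [norm_mul, s2, Complex.norm_natCast] at this ⊢
        have := mul_le_mul_of_nonneg_left this (Nat.cast_nonneg (α := ℝ) ν)
        nlinarith
      have s5 : (b : ℝ) * ‖toC m B.w‖ ≤ B.E * ‖toC m B.w‖ :=
        mul_le_mul_of_nonneg_right (by exact_mod_cast hb.le) (norm_nonneg _)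
      rw [map_add]
      refine (norm_add_le _ _).trans ?_
      push_cast at s4 ⊢
      linarith [k2.trans B.sτ]
    · intro q hq h
      have : Fact q.Prime := ⟨hq⟩
      have t1 := congrArg (toZ h) k3
      have t2 := toZ_eq_zero h B.hMw
      have t3 : toZ h γ = 4 * d l - d' l := by rw [toZ_apply]; simp [hγ]
      have t4 : toZ h γ' = 4 * d l - d' l := by rw [toZ_apply]; simp [hγ']
      have t5 : (2 : ZMod q) ^ l = B.E * a + b := by exact_mod_cast congrArg (Nat.cast (R := ZMod q)) hab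
      simp only [map_add, map_mul, map_sub, map_natCast, toZ_eq_zero h k1, t3, t4, hν] at t1 t2
      push_cast at t1
      rw [map_add, h5 q hq h, sum_range_succ]
      push_cast
      split_ifs with hq'
      · have u1 : (d l : ZMod q) = 0 := (ZMod.natCast_eq_zero_iff _ _).2 hq'
        have u2 : (d' l : ZMod q) ≠ 0 := fun e => hq.one_lt.ne' (Nat.eq_one_of_dvd_coprimes (hc l) hq'
          ((ZMod.natCast_eq_zero_iff _ _).1 e))
        rw [u1] at t1
        apply mul_left_cancel₀ u2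
        linear_combination t1 + (d' l : ZMod q) * toZ h B.w * t5 +
          (d' l : ZMod q) * (a - (2 + B.C)) * t2
      · have u1 : (d' l : ZMod q) = 0 := (ZMod.natCast_eq_zero_iff _ _).2
          (((Nat.Prime.dvd_mul hq).1 (hd l ▸ h)).resolve_left hq')
        have u3 : ¬ q ∣ 2 := fun e => by
          rw [(Nat.prime_dvd_prime_iff_eq hq Nat.prime_two).1 e] at h
          omega
        have u2 : ((2 ^ 2 * d l : ℕ) : ZMod q) ≠ 0 := fun e =>
          ((Nat.Prime.dvd_mul hq).1 ((ZMod.natCast_eq_zero_iff _ _).1 e)).elim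
            (fun e => u3 (hq.dvd_of_dvd_pow e)) hq'
        rw [u1] at t1
        apply mul_left_cancel₀ u2
        push_cast
        linear_combination -t1 - (4 * d l : ZMod q) * toZ h B.w * t5 -
          (4 * d l : ZMod q) * (a + (2 + B.C)) * t2

theorem Bulk.seed (B : Bulk m) (ho : m % 2 = 1) (hsq : Squarefree m) {p : ℕ} (hp : p % 2 = 1)
    (hq : ∀ q, q.Prime → q ∣ m → q ≤ p)
    (hbig : 4 * (B.E * ((Nat.log 2 p + 1) * (B.C + 2 * (B.E * B.L) + 4))) ≤ p) :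
    ∃ N : ℤ, N ≠ 0 ∧ Rep N p (0 : ZK m) := by
  classical
  set l := Nat.log 2 (2 * p / 3) with hl
  have hE := B.hE
  have hp16 : 16 ≤ p := by
    have : 1 * (1 * 4) ≤ B.E * ((Nat.log 2 p + 1) * (B.C + 2 * (B.E * B.L) + 4)) :=
      Nat.mul_le_mul hE (Nat.mul_le_mul (by omega) (by omega))
    omega
  have l1 : 2 ^ l ≤ 2 * p / 3 := Nat.pow_log_le_self 2 (by omega)
  have l2 : 2 * p / 3 < 2 ^ (l + 1) := Nat.lt_pow_succ_log_self (by norm_num) _
  have l3 : l ≤ Nat.log 2 p := Nat.log_mono_right (by omega)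
  have ex : ∀ q, ∃ A ⊆ range l, q.Prime → q ∣ m → ∃ k, p = 2 * ∑ j ∈ A, 2 ^ j + q * k := by
    intro q
    by_cases h : q.Prime ∧ q ∣ m
    · have h1 := hq q h.1 h.2
      have h2 : q % 2 = 1 := Nat.odd_iff.1 (Odd.of_dvd_nat (Nat.odd_iff.2 ho) h.2)
      have h3 := Nat.div_add_mod (p - q) (2 * q)
      have h4 := Nat.mod_lt (p - q) (show 0 < 2 * q by omega)
      have h5 := Nat.mod_le (p - q) (2 * q)
      rw [mul_assoc] at h3
      obtain ⟨A, a1, a2⟩ := exists_bits l ((p - q) % (2 * q) / 2) (by rw [pow_succ] at l2; omega)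
      refine ⟨A, a1, fun _ _ => ⟨1 + 2 * ((p - q) / (2 * q)), ?_⟩⟩
      rw [a2, mul_add, mul_left_comm]
      omega
    · exact ⟨∅, empty_subset _, fun h1 h2 => absurd ⟨h1, h2⟩ h⟩
  choose A hA hA' using ex
  set d : ℕ → ℕ := fun j => ∏ q ∈ m.primeFactors.filter (fun q => j ∈ A q), q with hd
  set d' : ℕ → ℕ := fun j => ∏ q ∈ m.primeFactors.filter (fun q => ¬ j ∈ A q), q with hd'
  have hdd : ∀ j, m = d j * d' j := fun j => by
    rw [hd, hd', prod_filter_mul_prod_filter_not, Nat.prod_primeFactors_of_squarefree hsq]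
  have hm0 : m ≠ 0 := by omega
  have hdq : ∀ q, q.Prime → q ∣ m → ∀ j, q ∣ d j ↔ j ∈ A q := by
    intro q h1 h2 j
    refine ⟨fun h => ?_, fun h => dvd_prod_of_mem _ (mem_filter.2 ⟨Nat.mem_primeFactors.2 ⟨h1, h2, hm0⟩, h⟩)⟩
    obtain ⟨q', k1, k2⟩ := (Prime.dvd_finsetProd_iff h1.prime _).1 h
    rw [(Nat.prime_dvd_prime_iff_eq h1 (Nat.prime_of_mem_primeFactors (mem_filter.1 k1).1)).1 k2]
    exact (mem_filter.1 k1).2
  obtain ⟨Γ, y, α, h1, h2, h3, h4, h5⟩ := B.types ho d d' hdd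
    (fun j => Nat.coprime_of_squarefree_mul (hdd j ▸ hsq)) l
  have hS : ∑ j ∈ range l, 2 ^ j + 1 = 2 ^ l := by
    have := Nat.geomSum_eq (le_refl 2) l
    have h0 : 0 < 2 ^ l := by positivity
    omega
  set S := ∑ j ∈ range l, 2 ^ j with hSd
  have hbig' : 4 * (B.E * ((l + 1) * (B.C + 2 * (B.E * B.L) + 4))) ≤ p :=
    le_trans (by gcongr) hbig
  obtain ⟨k0, p0, hp0, hk0⟩ : ∃ k0 p0, p0 < B.E ∧ p = S + l * (B.E * (2 + B.C)) + (B.E * k0 + p0) := by
    refine ⟨(p - (S + l * (B.E * (2 + B.C)))) / B.E, _,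
      Nat.mod_lt (p - (S + l * (B.E * (2 + B.C)))) hE, ?_⟩
    rw [Nat.div_add_mod, Nat.add_sub_cancel']
    nlinarith [Nat.zero_le (B.E * B.L), Nat.zero_le (l * B.E * (B.E * B.L)), Nat.div_mul_le_self (2 * p) 3]
  set Y : ZK m := y + (p0 : ZK m) * B.w + (k0 : ZK m) * B.M with hY
  have hYm : (m : ℤ) ∣ (-Y).re := by
    rw [Zsqrtd.re_neg, dvd_neg, Int.natCast_dvd]
    conv_lhs => rw [← Nat.prod_primeFactors_of_squarefree hsq]
    refine prod_primes_dvd _ (fun q h => (Nat.prime_of_mem_primeFactors h).prime) fun q h => ?_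
    have q1 := Nat.prime_of_mem_primeFactors h
    have q2 := Nat.dvd_of_mem_primeFactors h
    rw [← Int.natCast_dvd, ← ZMod.intCast_zmod_eq_zero_iff_dvd, ← toZ_apply q2]
    obtain ⟨k, hk⟩ := hA' q q1 q2
    have t1 := h5 q q1 q2
    have t2 := toZ_eq_zero q2 B.hMw
    have t3 : ∑ j ∈ range l, (if q ∣ d j then -1 else 1) * (2 : ZMod q) ^ j =
        (S : ℕ) - 2 * ((∑ j ∈ A q, 2 ^ j : ℕ) : ZMod q) := by
      rw [hSd, ← inter_eq_right.2 (hA q), ← filter_mem_eq_inter, sum_filter]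
      push_cast
      rw [mul_sum, ← sum_sub_distrib]
      refine sum_congr rfl fun j _ => ?_
      simp only [hdq q q1 q2]
      split_ifs <;> ring
    have t4 := congrArg (Nat.cast (R := ZMod q)) hk
    have t5 := congrArg (Nat.cast (R := ZMod q)) hk0
    rw [Nat.cast_add, Nat.cast_mul, Nat.cast_mul q, ZMod.natCast_self, Nat.cast_ofNat] at t4
    rw [t3] at t1
    simp only [hY, map_add, map_mul, map_sub, map_natCast] at t2 ⊢
    push_cast at t5
    linear_combination t1 - (k0 : ZMod q) * t2 + toZ q2 B.w * (t4 - t5)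
  have hτ : 0 ≤ B.τ := le_trans (by positivity) B.sM
  obtain ⟨c, c1, c2⟩ : ∃ c : ℕ, α + k0 ≤ 32 * c ∧ 32 * c ≤ α + k0 + 32 :=
    ⟨(α + k0) / 32 + 1, by omega, by omega⟩
  have hYs : ‖toC m (-Y)‖ ≤ (c + (l + 1) * (B.E * B.L) + l : ℕ) * B.τ := by
    rw [map_neg, norm_neg, hY, map_add, map_add]
    refine (norm_add_le _ _).trans ((add_le_add_left (norm_add_le _ _) _).trans ?_)
    simp only [map_mul, map_natCast, norm_mul, Complex.norm_natCast]
    have s1 : (p0 : ℝ) * ‖toC m B.w‖ ≤ B.E * ‖toC m B.w‖ :=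
      mul_le_mul_of_nonneg_right (by exact_mod_cast hp0.le) (norm_nonneg _)
    have s2 : ((α : ℝ) + k0) * ‖toC m B.M‖ ≤ c * B.τ := by
      have : (α : ℝ) + k0 ≤ 32 * c := by exact_mod_cast c1
      calc _ ≤ 32 * c * ‖toC m B.M‖ := mul_le_mul_of_nonneg_right this (norm_nonneg _)
        _ = c * (32 * ‖toC m B.M‖) := by ring
        _ ≤ _ := mul_le_mul_of_nonneg_left B.sM (Nat.cast_nonneg _)
    have s3 : ((l : ℝ) + 1) * (B.E * ‖toC m B.w‖) ≤ (l + 1) * (B.E * (B.L * B.τ)) := by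
      have := B.sw
      gcongr
    push_cast
    nlinarith
  have hle : 2 * (c + (l + 1) * (B.E * B.L) + l) + B.C ≤ k0 := by
    refine Nat.le_of_mul_le_mul_left ?_ (show 0 < 48 * B.E by omega)
    have c3 := Nat.mul_le_mul_left B.E c2
    have := Nat.div_mul_le_self (2 * p) 3
    nlinarith
  obtain ⟨k1, rfl⟩ := Nat.exists_eq_add_of_le hle
  have r1 := ((B.hC _ _ hYm hYs).add (B.hM.nsmul k1)).mul Γ
  have r2 := (B.hw.nsmul p0).mul Γ
  refine ⟨B.N * Γ.norm, mul_ne_zero B.hN h1, ((h2.add r1).add r2).of_eq rfl ?_ ?_⟩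
  · rw [hk0]; ring
  · rw [hY]; push_cast; ring

end Pool.Agent.P.MP_b75a1e_co
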